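import Mathlib

set_option autoImplicit false
open Matrix

namespace Pool.Agent.Lib.helper24.CP5

/-- The rational matrix circ(14,8,1,1,8). -/
def A : Matrix (Fin 5) (Fin 5) ℝ :=
  !![14,8,1,1,8; 8,14,8,1,1; 1,8,14,8,1; 1,1,8,14,8; 8,1,1,8,14]

/-- Its nonnegative factor: columns are cyclic shifts of (√2+1, 2√2, √2-1, 0, 0). -/
noncomputable def B : Matrix (Fin 5) (Fin 5) ℝ :=
  !![√2+1, 0, 0, √2-1, 2*√2;
     2*√2, √2+1, 0, 0, √2-1;
     √2-1, 2*√2, √2+1, 0, 0;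
     0, √2-1, 2*√2, √2+1, 0;
     0, 0, √2-1, 2*√2, √2+1]

theorem sq2 : √2 * √2 = (2:ℝ) := Real.mul_self_sqrt (by norm_num)

theorem one_le_sq2 : (1:ℝ) ≤ √2 := by
  rw [Real.le_sqrt (by norm_num) (by norm_num)]; norm_num

theorem B_nonneg : ∀ i j, 0 ≤ B i j := by
  have h := one_le_sq2
  intro i j
  fin_cases i <;> fin_cases j <;> simp [B] <;> linarith

theorem A_eq : A = B * Bᵀ := by
  have h := sq2
  ext i j
  fin_cases i <;> fin_cases j <;> simp [A, B, Matrix.mul_apply, Fin.sum_univ_five] <;> nlinarith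

theorem A_rat : ∀ i j, ∃ q : ℚ, A i j = (q : ℝ) := by
  intro i j
  refine ⟨(!![14,8,1,1,8; 8,14,8,1,1; 1,8,14,8,1; 1,1,8,14,8; 8,1,1,8,14] :
    Matrix (Fin 5) (Fin 5) ℚ) i j, ?_⟩
  fin_cases i <;> fin_cases j <;> simp [A]

theorem A_pos : ∀ i j, 0 < A i j := by
  intro i j
  fin_cases i <;> fin_cases j <;> simp [A]

theorem A_symm : Aᵀ = A := by
  ext i j
  fin_cases i <;> fin_cases j <;> simp [A]

theorem A_posDef : A.PosDef := by
  rw [Matrix.posDef_iff_dotProduct_mulVec]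
  refine ⟨?_, ?_⟩
  · unfold Matrix.IsHermitian
    rw [Matrix.conjTranspose_eq_transpose_of_trivial]; exact A_symm
  · intro x hx
    have h1 : 0 < x 0 ^ 2 + x 1 ^ 2 + x 2 ^ 2 + x 3 ^ 2 + x 4 ^ 2 := by
      by_contra hc
      apply hx
      have h0 : x 0 = 0 := by nlinarith [sq_nonneg (x 0), sq_nonneg (x 1), sq_nonneg (x 2), sq_nonneg (x 3), sq_nonneg (x 4)]
      have h1 : x 1 = 0 := by nlinarith [sq_nonneg (x 0), sq_nonneg (x 1), sq_nonneg (x 2), sq_nonneg (x 3), sq_nonneg (x 4)]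
      have h2 : x 2 = 0 := by nlinarith [sq_nonneg (x 0), sq_nonneg (x 1), sq_nonneg (x 2), sq_nonneg (x 3), sq_nonneg (x 4)]
      have h3 : x 3 = 0 := by nlinarith [sq_nonneg (x 0), sq_nonneg (x 1), sq_nonneg (x 2), sq_nonneg (x 3), sq_nonneg (x 4)]
      have h4 : x 4 = 0 := by nlinarith [sq_nonneg (x 0), sq_nonneg (x 1), sq_nonneg (x 2), sq_nonneg (x 3), sq_nonneg (x 4)]
      ext i
      fin_cases i <;> simp [h0, h1, h2, h3, h4]
    have h2 : star x ⬝ᵥ (A *ᵥ x) = (x 0 ^ 2 + x 1 ^ 2 + x 2 ^ 2 + x 3 ^ 2 + x 4 ^ 2) + ((13:ℝ) * ((1) * x 0 + (8/13) * x 1 + (1/13) * x 2 + (1/13) * x 3 + (8/13) * x 4)^2 + (105/13:ℝ) * ((1) * x 1 + (32/35) * x 2 + (1/21) * x 3 + (-17/35) * x 4)^2 + (216/35:ℝ) * ((1) * x 2 + (265/216) * x 3 + (139/216) * x 4)^2 + (781/216:ℝ) * ((1) * x 3 + (53/71) * x 4)^2 + (341/213:ℝ) * ((1) * x 4)^2) := by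
      simp [A, dotProduct, Matrix.mulVec, Fin.sum_univ_five]
      ring
    rw [h2]
    positivity

/-- The Horn form. -/
def horn (x : Fin 5 → ℝ) : ℝ :=
  x 0 * x 0 + x 1 * x 1 + x 2 * x 2 + x 3 * x 3 + x 4 * x 4
   - 2 * (x 0 * x 1 + x 1 * x 2 + x 2 * x 3 + x 3 * x 4 + x 4 * x 0)
   + 2 * (x 0 * x 2 + x 1 * x 3 + x 2 * x 4 + x 3 * x 0 + x 4 * x 1)

theorem horn_nonneg (x : Fin 5 → ℝ) (hx : ∀ i, 0 ≤ x i) : 0 ≤ horn x := by
  have h0 := hx 0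
  have h1 := hx 1
  have h2 := hx 2
  have h3 := hx 3
  have h4 := hx 4
  rcases le_total (x 3) (x 4) with h | h
  · have e : horn x = (x 0 - x 1 + x 2 + x 3 - x 4) ^ 2 + 4 * (x 1 * x 3) + 4 * (x 2 * (x 4 - x 3)) := by
      unfold horn; ring
    rw [e]
    have := mul_nonneg h2 (sub_nonneg.2 h)
    positivity
  · have e : horn x = (x 0 - x 1 + x 2 - x 3 + x 4) ^ 2 + 4 * (x 1 * x 4) + 4 * (x 0 * (x 3 - x 4)) := by
      unfold horn; ring
    rw [e]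
    have := mul_nonneg h0 (sub_nonneg.2 h)
    positivity

/-- The pairing of a matrix with the Horn matrix. -/
def pair (S : Matrix (Fin 5) (Fin 5) ℝ) : ℝ :=
  S 0 0 + S 1 1 + S 2 2 + S 3 3 + S 4 4
   - 2 * (S 0 1 + S 1 2 + S 2 3 + S 3 4 + S 4 0)
   + 2 * (S 0 2 + S 1 3 + S 2 4 + S 3 0 + S 4 1)

theorem pair_nonneg (m : ℕ) (C : Matrix (Fin 5) (Fin m) ℝ) (hC : ∀ i j, 0 ≤ C i j) :
    0 ≤ pair (C * Cᵀ) := by
  have e : pair (C * Cᵀ) = ∑ k : Fin m, horn (fun i => C i k) := by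
    simp only [pair, horn, Matrix.mul_apply, Matrix.transpose_apply, Finset.sum_add_distrib,
      Finset.sum_sub_distrib, ← Finset.mul_sum]
  rw [e]
  exact Finset.sum_nonneg fun k _ => horn_nonneg _ fun i => hC i k

theorem A_boundary : ∀ ε : ℝ, 0 < ε → ∃ S : Matrix (Fin 5) (Fin 5) ℝ, Sᵀ = S ∧
          (∀ i j, |S i j - A i j| < ε) ∧
          ¬ ∃ m : ℕ, ∃ C : Matrix (Fin 5) (Fin m) ℝ, (∀ i j, 0 ≤ C i j) ∧ S = C * Cᵀ := by
  intro ε hε
  refine ⟨A - (ε / 2) • (1 : Matrix (Fin 5) (Fin 5) ℝ), ?_, ?_, ?_⟩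
  · rw [Matrix.transpose_sub, A_symm, Matrix.transpose_smul, Matrix.transpose_one]
  · intro i j
    by_cases h : i = j
    · subst h
      simp only [Matrix.sub_apply, Matrix.smul_apply, Matrix.one_apply_eq, smul_eq_mul]
      rw [abs_lt]; constructor <;> linarith
    · simp [Matrix.sub_apply, Matrix.one_apply_ne h, hε]
  · rintro ⟨m, C, hC, h⟩
    have h1 := pair_nonneg m C hC
    rw [← h] at h1
    simp [pair, A] at h1
    linarith

theorem B00_irr : ¬ ∃ r : ℚ, B 0 0 * B 0 0 = (r : ℝ) := by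
  rintro ⟨r, hr⟩
  have h := sq2
  simp [B] at hr
  apply irrational_sqrt_two
  refine ⟨(r - 3) / 2, ?_⟩
  push_cast
  nlinarith

end Pool.Agent.Lib.helper24.CP5
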