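import Mathlib

set_option autoImplicit false

namespace Pool.Agent.Lib.helper24.Cash

/-- `winII L M n`: the second player wins the subtraction game on `{L, …, M}` from `n` stones. -/
def winII (L M n : ℕ) : Prop :=
  ∀ a ∈ Finset.Icc L M, ∀ _ : 0 < a ∧ a ≤ n, ¬ winII L M (n - a)
termination_by n
decreasing_by omega

open Classical in
/-- The pair of cash thresholds `(f_I n, f_II n)` for the subtraction set `{L, …, M}`. -/
noncomputable def ff (L M n : ℕ) : ℕ × ℕ :=
  if n < L then (0, 0) else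
    let b : ℕ := sSup {y | ∃ a ∈ Finset.Icc L M, ∃ _ : 0 < a ∧ a ≤ n, y = (ff L M (n - a)).1}
    (if winII L M n then
        sInf {y | ∃ a ∈ Finset.Icc L M, ∃ _ : 0 < a ∧ a ≤ n,
          (ff L M (n - a)).1 = b ∧ y = (ff L M (n - a)).2 + a}
      else
        sInf {y | ∃ a ∈ Finset.Icc L M, ∃ _ : 0 < a ∧ a ≤ n,
          winII L M (n - a) ∧ y = (ff L M (n - a)).2 + a}, b)
termination_by n
decreasing_by all_goals omega

variable {L M : ℕ}

theorem ff_small {n : ℕ} (h : n < L) : ff L M n = (0, 0) := by rw [ff, if_pos h]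

theorem f2_eq {n : ℕ} (h : L ≤ n) : (ff L M n).2 =
    sSup {y | ∃ a ∈ Finset.Icc L M, ∃ _ : 0 < a ∧ a ≤ n, y = (ff L M (n - a)).1} := by
  rw [ff, if_neg (by omega)]

theorem f1_lose {n : ℕ} (h : L ≤ n) (hw : winII L M n) : (ff L M n).1 =
    sInf {y | ∃ a ∈ Finset.Icc L M, ∃ _ : 0 < a ∧ a ≤ n,
      (ff L M (n - a)).1 = (ff L M n).2 ∧ y = (ff L M (n - a)).2 + a} := by
  rw [f2_eq h]
  conv_lhs => rw [ff, if_neg (by omega)]
  simp only [if_pos hw]

theorem f1_win {n : ℕ} (h : L ≤ n) (hw : ¬ winII L M n) : (ff L M n).1 =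
    sInf {y | ∃ a ∈ Finset.Icc L M, ∃ _ : 0 < a ∧ a ≤ n,
      winII L M (n - a) ∧ y = (ff L M (n - a)).2 + a} := by
  conv_lhs => rw [ff, if_neg (by omega)]
  simp only [if_neg hw]

theorem fin2 (n : ℕ) :
    {y | ∃ a ∈ Finset.Icc L M, ∃ _ : 0 < a ∧ a ≤ n, y = (ff L M (n - a)).1}.Finite := by
  refine ((Finset.Icc L M).finite_toSet.image fun a => (ff L M (n - a)).1).subset ?_
  rintro y ⟨a, ha, _, rfl⟩
  exact ⟨a, ha, rfl⟩

theorem f2_ge (hL : 1 ≤ L) {n a : ℕ} (h1 : L ≤ a) (h2 : a ≤ M) (h3 : a ≤ n) :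
    (ff L M (n - a)).1 ≤ (ff L M n).2 := by
  rw [f2_eq (by omega)]
  exact le_csSup (fin2 n).bddAbove ⟨a, Finset.mem_Icc.2 ⟨h1, h2⟩, ⟨by omega, h3⟩, rfl⟩

theorem f2_att (hL : 1 ≤ L) (hM : L ≤ M) {n : ℕ} (h : L ≤ n) :
    ∃ a, L ≤ a ∧ a ≤ M ∧ a ≤ n ∧ (ff L M n).2 = (ff L M (n - a)).1 := by
  have hne : {y | ∃ a ∈ Finset.Icc L M, ∃ _ : 0 < a ∧ a ≤ n, y = (ff L M (n - a)).1}.Nonempty :=
    ⟨_, L, Finset.mem_Icc.2 ⟨le_rfl, hM⟩, ⟨by omega, h⟩, rfl⟩
  obtain ⟨a, ha, ha', e⟩ := hne.csSup_mem (fin2 n)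
  rw [Finset.mem_Icc] at ha
  exact ⟨a, ha.1, ha.2, ha'.2, by rw [f2_eq h, e]⟩

theorem win_le (hL : 1 ≤ L) {n a : ℕ} (hw : ¬ winII L M n) (h1 : L ≤ a) (h2 : a ≤ M) (h3 : a ≤ n)
    (h4 : winII L M (n - a)) : (ff L M n).1 ≤ (ff L M (n - a)).2 + a := by
  rw [f1_win (by omega) hw]
  exact Nat.sInf_le ⟨a, Finset.mem_Icc.2 ⟨h1, h2⟩, ⟨by omega, h3⟩, h4, rfl⟩

theorem win_att {n : ℕ} (hw : ¬ winII L M n) :
    ∃ a, L ≤ a ∧ a ≤ M ∧ a ≤ n ∧ winII L M (n - a) ∧ (ff L M n).1 = (ff L M (n - a)).2 + a := by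
  have hw' := hw
  rw [winII] at hw'
  push Not at hw'
  obtain ⟨a, ha, ha', h⟩ := hw'
  have hne : {y | ∃ a ∈ Finset.Icc L M, ∃ _ : 0 < a ∧ a ≤ n,
      winII L M (n - a) ∧ y = (ff L M (n - a)).2 + a}.Nonempty := ⟨_, a, ha, ha', h, rfl⟩
  obtain ⟨b, hb, hb', h4, e⟩ := Nat.sInf_mem hne
  rw [Finset.mem_Icc] at ha hb
  exact ⟨b, hb.1, hb.2, hb'.2, h4, by rw [f1_win (by omega) hw, e]⟩

theorem lose_att (hL : 1 ≤ L) (hM : L ≤ M) {n : ℕ} (h : L ≤ n) (hw : winII L M n) :
    ∃ a, L ≤ a ∧ a ≤ M ∧ a ≤ n ∧ (ff L M (n - a)).1 = (ff L M n).2 ∧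
      (ff L M n).1 = (ff L M (n - a)).2 + a := by
  obtain ⟨a, h1, h2, h3, e⟩ := f2_att hL hM h
  have hne : {y | ∃ a ∈ Finset.Icc L M, ∃ _ : 0 < a ∧ a ≤ n,
      (ff L M (n - a)).1 = (ff L M n).2 ∧ y = (ff L M (n - a)).2 + a}.Nonempty :=
    ⟨_, a, Finset.mem_Icc.2 ⟨h1, h2⟩, ⟨by omega, h3⟩, e.symm, rfl⟩
  obtain ⟨b, hb, hb', h4, e⟩ := Nat.sInf_mem hne
  rw [Finset.mem_Icc] at hb
  exact ⟨b, hb.1, hb.2, hb'.2, h4, by rw [f1_lose h hw, e]⟩

theorem winII_blk (hL : 1 ≤ L) (hM : L ≤ M) : ∀ n k r : ℕ, r < L + M → n = k * (L + M) + r →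
    (winII L M n ↔ r < L) := by
  intro n
  induction n using Nat.strong_induction_on with
  | _ n ih =>
    intro k r hr e
    rw [winII]
    constructor
    · intro h
      by_contra hge
      by_cases hc : r ≤ M
      · refine h r (Finset.mem_Icc.2 ⟨by omega, hc⟩) ⟨by omega, by omega⟩ ?_
        exact (ih (n - r) (by omega) k 0 (by omega) (by omega)).2 (by omega)
      · refine h M (Finset.mem_Icc.2 ⟨hM, le_rfl⟩) ⟨by omega, by omega⟩ ?_
        exact (ih (n - M) (by omega) k (r - M) (by omega) (by omega)).2 (by omega)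
    · intro h a ha ha' hw
      rw [Finset.mem_Icc] at ha
      cases k with
      | zero => omega
      | succ k =>
        rw [add_mul, one_mul] at e
        have := (ih (n - a) (by omega) k (r + L + M - a) (by omega) (by omega)).1 hw
        omega

theorem ev_const (e : ℕ → ℕ) (h : ∀ k, e (k + 1) ≤ e k) : ∃ K, ∀ k, K ≤ k → e (k + 1) = e k := by
  have ha : Antitone e := antitone_nat_of_succ_le h
  obtain ⟨K, hK⟩ : ∃ K, ∀ k, e K ≤ e k :=
    ⟨Function.argmin e, fun k => Function.argmin_le e k⟩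
  refine ⟨K, fun k hk => ?_⟩
  have h1 := ha hk
  have h2 := hK (k + 1)
  have h3 := h k
  omega

theorem up_step (hL : 1 ≤ L) (hM : L ≤ M) (k i a : ℕ) (hi : i < L) (h1 : L ≤ a) (h2 : a ≤ M) :
    (ff L M ((k + 1) * (L + M) + i - a)).1 + a ≤ (ff L M (k * (L + M) + i)).2 + (L + M) := by
  have e0 : (k + 1) * (L + M) = k * (L + M) + (L + M) := by ring
  have hw : ¬ winII L M ((k + 1) * (L + M) + i - a) := by
    rw [winII_blk hL hM _ k (i + L + M - a) (by omega) (by omega)]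
    omega
  have e : (k + 1) * (L + M) + i - a - (L + M - a) = k * (L + M) + i := by omega
  have := win_le hL hw (a := L + M - a) (by omega) (by omega) (by omega)
    (by rw [e]; exact (winII_blk hL hM _ k i (by omega) rfl).2 hi)
  rw [e] at this
  omega

theorem g_up (hL : 1 ≤ L) (hM : L ≤ M) (k i : ℕ) (hi : i < L) :
    (ff L M ((k + 1) * (L + M) + i)).2 ≤ (ff L M (k * (L + M) + i)).2 + M := by
  have e0 : (k + 1) * (L + M) = k * (L + M) + (L + M) := by ring
  obtain ⟨a, h1, h2, _, e⟩ := f2_att hL hM (n := (k + 1) * (L + M) + i) (by omega)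
  have := up_step hL hM k i a hi h1 h2
  omega

theorem g_low (hL : 1 ≤ L) (hM : L ≤ M) : ∀ k i : ℕ, i < L →
    i + k * M ≤ (ff L M (k * (L + M) + i)).2 + L := by
  intro k
  induction k with
  | zero => intro i hi; omega
  | succ k ih =>
    intro i hi
    have e0 : (k + 1) * (L + M) = k * (L + M) + (L + M) := by ring
    have e1 : (k + 1) * M = k * M + M := by ring
    have h1 := f2_ge (M := M) hL (n := (k + 1) * (L + M) + i) le_rfl hM (by omega)
    have hw : ¬ winII L M ((k + 1) * (L + M) + i - L) := by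
      rw [winII_blk hL hM _ k (i + M) (by omega) (by omega)]
      omega
    obtain ⟨a, a1, a2, a3, a4, a5⟩ := win_att hw
    have e2 : (k + 1) * (L + M) + i - L - a = k * (L + M) + (i + M - a) := by omega
    rw [e2] at a4 a5
    have a6 := (winII_blk hL hM _ k (i + M - a) (by omega) rfl).1 a4
    have := ih _ a6
    omega

/-- Residue `r` is eventually quasi-periodic for `f_II`. -/
def G2 (L M r : ℕ) : Prop := ∀ᶠ k in Filter.atTop,
  (ff L M ((k + 1) * (L + M) + r)).2 = (ff L M (k * (L + M) + r)).2 + M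

/-- Residue `r` is eventually quasi-periodic for `f_I`. -/
def G1 (L M r : ℕ) : Prop := ∀ᶠ k in Filter.atTop,
  (ff L M ((k + 1) * (L + M) + r)).1 = (ff L M (k * (L + M) + r)).1 + M

theorem G2_lose (hL : 1 ≤ L) (hM : L ≤ M) (i : ℕ) (hi : i < L) : G2 L M i := by
  obtain ⟨K, hK⟩ := ev_const (fun k => (ff L M (k * (L + M) + i)).2 + L - k * M) (by
    intro k
    have h1 := g_up hL hM k i hi
    have e1 : (k + 1) * M = k * M + M := by ring
    omega)
  refine Filter.eventually_atTop.2 ⟨K, fun k hk => ?_⟩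
  have h1 := hK k hk
  have h2 := g_low hL hM k i hi
  have h3 := g_low hL hM (k + 1) i hi
  have e1 : (k + 1) * M = k * M + M := by ring
  omega

theorem G1_win (hL : 1 ≤ L) (hM : L ≤ M) (r : ℕ) (h1 : L ≤ r) (h2 : r < L + M) : G1 L M r := by
  have hall := (Filter.eventually_all_finset (Finset.range L)).2
    fun i hi => G2_lose hL hM i (Finset.mem_range.1 hi)
  filter_upwards [hall, Filter.eventually_ge_atTop 1] with k hk hk1
  obtain ⟨j, rfl⟩ : ∃ j, k = j + 1 := ⟨k - 1, by omega⟩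
  have e0 : (j + 1) * (L + M) = j * (L + M) + (L + M) := by ring
  have e1 : (j + 1 + 1) * (L + M) = (j + 1) * (L + M) + (L + M) := by ring
  have hw : ∀ k, ¬ winII L M (k * (L + M) + r) := by
    intro k
    rw [winII_blk hL hM _ k r h2 rfl]; omega
  have hres : ∀ k a, L ≤ a → a ≤ M → winII L M ((k + 1) * (L + M) + r - a) →
      a ≤ r ∧ r - a < L := by
    intro k a a1 a2 a3
    have e2 : (k + 1) * (L + M) = k * (L + M) + (L + M) := by ring
    by_cases hc : a ≤ r
    · exact ⟨hc, (winII_blk hL hM _ (k + 1) (r - a) (by omega) (by omega)).1 a3⟩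
    · have := (winII_blk hL hM _ k (L + M + r - a) (by omega) (by omega)).1 a3
      omega
  apply le_antisymm
  · obtain ⟨a, a1, a2, a3, a4, a5⟩ := win_att (hw (j + 1))
    obtain ⟨b1, b2⟩ := hres j a a1 a2 a4
    have e3 : ∀ k, k * (L + M) + r - a = k * (L + M) + (r - a) := fun k => by omega
    have := win_le hL (hw (j + 1 + 1)) a1 a2 (by omega)
      ((winII_blk hL hM _ (j + 1 + 1) (r - a) (by omega) (e3 _)).2 b2)
    rw [e3] at this a5
    have h5 := hk (r - a) (Finset.mem_range.2 b2)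
    omega
  · obtain ⟨a, a1, a2, a3, a4, a5⟩ := win_att (hw (j + 1 + 1))
    obtain ⟨b1, b2⟩ := hres (j + 1) a a1 a2 a4
    have e3 : ∀ k, k * (L + M) + r - a = k * (L + M) + (r - a) := fun k => by omega
    have := win_le hL (hw (j + 1)) a1 a2 (by omega)
      ((winII_blk hL hM _ (j + 1) (r - a) (by omega) (e3 _)).2 b2)
    rw [e3] at this a5
    have h5 := hk (r - a) (Finset.mem_range.2 b2)
    omega

theorem lose_rec (hL : 1 ≤ L) (hM : L ≤ M) (i : ℕ) (hi : i < L) : ∀ᶠ k in Filter.atTop,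
    (∀ t ≤ M - L, (ff L M (k * (L + M) + (i + t))).1 + L ≤ (ff L M ((k + 1) * (L + M) + i)).1) ∧
    ∃ t ≤ M - L, (ff L M ((k + 1) * (L + M) + i)).1 = (ff L M (k * (L + M) + (i + t))).1 + L := by
  filter_upwards [G2_lose hL hM i hi] with k hk
  have e0 : (k + 1) * (L + M) = k * (L + M) + (L + M) := by ring
  obtain ⟨a, a1, a2, a3, a4, a5⟩ := lose_att hL hM (n := (k + 1) * (L + M) + i) (by omega)
    ((winII_blk hL hM _ (k + 1) i (by omega) rfl).2 hi)
  have h1 := up_step hL hM k i a hi a1 a2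
  have haL : a = L := by omega
  subst haL
  constructor
  · intro t ht
    have := f2_ge (M := M) hL (n := (k + 1) * (a + M) + i - a) (a := M - t) (by omega) (by omega)
      (by omega)
    have e : (k + 1) * (a + M) + i - a - (M - t) = k * (a + M) + (i + t) := by omega
    rw [e] at this
    omega
  · obtain ⟨b, b1, b2, b3, b4⟩ := f2_att hL hM (n := (k + 1) * (a + M) + i - a) (by omega)
    refine ⟨M - b, by omega, ?_⟩
    have e : (k + 1) * (a + M) + i - a - b = k * (a + M) + (i + (M - b)) := by omega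
    rw [e] at b4
    omega

theorem G1_all (hL : 1 ≤ L) (hM : L ≤ M) : ∀ j r : ℕ, r < L + M → L ≤ r + j → G1 L M r := by
  intro j
  induction j with
  | zero => intro r h1 h2; exact G1_win hL hM r h2 h1
  | succ j ih =>
    intro r h1 h2
    by_cases hr : L ≤ r
    · exact G1_win hL hM r hr h1
    have hi : r < L := by omega
    rcases Nat.eq_or_lt_of_le hM with hE | hlt
    · filter_upwards [lose_rec hL hM r hi] with k hk
      obtain ⟨t, ht, e⟩ := hk.2
      have : t = 0 := by omega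
      subst this
      rw [e, add_zero]
      omega
    have hall := (Filter.eventually_all_finset (Finset.Icc 1 (M - L))).2
      fun t ht => ih (r + t) (by rw [Finset.mem_Icc] at ht; omega)
        (by rw [Finset.mem_Icc] at ht; omega)
    obtain ⟨K, hK⟩ := Filter.eventually_atTop.1 (hall.and (lose_rec hL hM r hi))
    let C : ℕ → ℕ := fun k => (Finset.Icc 1 (M - L)).sup fun t => (ff L M (k * (L + M) + (r + t))).1
    have hne : (Finset.Icc 1 (M - L)).Nonempty := ⟨1, Finset.mem_Icc.2 ⟨le_rfl, by omega⟩⟩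
    have hCge : ∀ k t, 1 ≤ t → t ≤ M - L → (ff L M (k * (L + M) + (r + t))).1 ≤ C k :=
      fun k t t1 t2 => Finset.le_sup (f := fun t => (ff L M (k * (L + M) + (r + t))).1)
        (Finset.mem_Icc.2 ⟨t1, t2⟩)
    have hCat : ∀ k, ∃ t, 1 ≤ t ∧ t ≤ M - L ∧ C k = (ff L M (k * (L + M) + (r + t))).1 := by
      intro k
      obtain ⟨t, ht, e⟩ := Finset.exists_mem_eq_sup _ hne
        (fun t => (ff L M (k * (L + M) + (r + t))).1)
      rw [Finset.mem_Icc] at ht
      exact ⟨t, ht.1, ht.2, e⟩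
    have hC : ∀ k, K ≤ k → C (k + 1) = C k + M := by
      intro k hk
      obtain ⟨t, t1, t2, e⟩ := hCat k
      obtain ⟨s, s1, s2, e'⟩ := hCat (k + 1)
      have b1 := (hK k hk).1 t (Finset.mem_Icc.2 ⟨t1, t2⟩)
      have b2 := (hK k hk).1 s (Finset.mem_Icc.2 ⟨s1, s2⟩)
      have b3 := hCge (k + 1) t t1 t2
      have b4 := hCge k s s1 s2
      omega
    have hX : ∀ k, K ≤ k → (ff L M ((k + 1) * (L + M) + r)).1 =
        max (ff L M (k * (L + M) + r)).1 (C k) + L := by
      intro k hk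
      obtain ⟨b1, t, ht, b2⟩ := (hK k hk).2
      obtain ⟨s, s1, s2, e⟩ := hCat k
      have b3 := b1 0 (Nat.zero_le _)
      have b4 := b1 s s2
      rw [add_zero] at b3
      rcases Nat.eq_zero_or_pos t with rfl | hp
      · rw [add_zero] at b2
        omega
      · have := hCge k t hp ht
        omega
    obtain ⟨K', hK'⟩ := ev_const (fun k => (ff L M ((K + k) * (L + M) + r)).1 - C (K + k)) (by
      intro k
      have b1 := hX (K + k) (by omega)
      have b2 := hC (K + k) (by omega)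
      simp only [← add_assoc]
      omega)
    refine Filter.eventually_atTop.2 ⟨K + K' + 1, fun k hk => ?_⟩
    obtain ⟨q, rfl⟩ : ∃ q, k = K + q + 1 := ⟨k - K - 1, by omega⟩
    have b1 := hX (K + q) (by omega)
    have b2 := hC (K + q) (by omega)
    have b3 := hX (K + q + 1) (by omega)
    have b4 := hK' q (by omega)
    simp only [← add_assoc] at b4
    omega

theorem f1_shift (hL : 1 ≤ L) (hM : L ≤ M) :
    ∃ N, ∀ n, N ≤ n → (ff L M (n + L + M)).1 = (ff L M n).1 + M := by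
  have hall := (Filter.eventually_all_finset (Finset.range (L + M))).2
    fun r hr => G1_all hL hM L r (Finset.mem_range.1 hr) (by omega)
  obtain ⟨K, hK⟩ := Filter.eventually_atTop.1 hall
  refine ⟨K * (L + M), fun n hn => ?_⟩
  have hp : 0 < L + M := by omega
  have h1 := hK (n / (L + M)) ((Nat.le_div_iff_mul_le hp).2 hn) (n % (L + M))
    (Finset.mem_range.2 (Nat.mod_lt _ hp))
  have e : n / (L + M) * (L + M) + n % (L + M) = n := Nat.div_add_mod' n (L + M)
  have e2 : (n / (L + M) + 1) * (L + M) + n % (L + M) = n + L + M := by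
    rw [add_mul, one_mul]; omega
  rw [e, e2] at h1
  exact h1

theorem main (hL : 1 ≤ L) (hM : L ≤ M) : ∃ N, ∀ n, N ≤ n →
    (ff L M (n + L + M)).1 = (ff L M n).1 + M ∧ (ff L M (n + L + M)).2 = (ff L M n).2 + M := by
  obtain ⟨N, hN⟩ := f1_shift hL hM
  refine ⟨N + M, fun n hn => ⟨hN n (by omega), ?_⟩⟩
  obtain ⟨a, a1, a2, _, a4⟩ := f2_att hL hM (n := n) (by omega)
  obtain ⟨b, b1, b2, _, b4⟩ := f2_att hL hM (n := n + L + M) (by omega)
  have c1 := f2_ge (M := M) hL (n := n + L + M) a1 a2 (by omega)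
  have c2 := f2_ge (M := M) hL (n := n) b1 b2 (by omega)
  have d1 := hN (n - a) (by omega)
  have d2 := hN (n - b) (by omega)
  have e1 : n - a + L + M = n + L + M - a := by omega
  have e2 : n - b + L + M = n + L + M - b := by omega
  rw [e1] at d1
  rw [e2] at d2
  omega

end Pool.Agent.Lib.helper24.Cash
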