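import Mathlib

set_option autoImplicit false

namespace Pool.Agent.Lib.helper24.Dicot

/-- Short partizan games: `n s` options for the player `s` (`true` is Left, `false` is Right). -/
inductive PG : Type
  | mk (n : Bool → ℕ) (f : ∀ s : Bool, Fin (n s) → PG) : PG

namespace PG

/-- `H` is an option of `G` for the player `s`. -/
def IsOpt (s : Bool) (H : PG) : PG → Prop
  | mk _ f => ∃ i, H = f s i

/-- Auxiliary recursion for the sum: `F s i` is the map `H ↦ G' + H` for the `i`-th option `G'`
of the left summand. -/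
def addAux (n : Bool → ℕ) (F : ∀ s : Bool, Fin (n s) → PG → PG) : PG → PG
  | mk m g => mk (fun s => n s + m s)
      (fun s => Fin.addCases (fun i => F s i (mk m g)) (fun j => addAux n F (g s j)))

/-- The disjunctive sum: the options of `G + H` are the `G' + H` and the `G + H'`. -/
def add : PG → PG → PG
  | mk n f => addAux n (fun s i => add (f s i))

/-- The game `0`. -/
def zero : PG := mk (fun _ => 0) (fun _ => Fin.elim0)

/-- The game `* = {0 | 0}`. -/
def star : PG := mk (fun _ => 1) (fun _ _ => zero)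

/-- The player `s`, moving first, wins; `mis = true` is misère play (a player unable to move
wins), `mis = false` is normal play (a player unable to move loses). -/
def Win (mis : Bool) : PG → Bool → Prop
  | mk n f, s => (n s = 0 ∧ mis = true) ∨ ∃ i, ¬ Win mis (f s i) (!s)

/-- The outcome class: whether Left wins moving first, and whether Right wins moving first. -/
def out (mis : Bool) (G : PG) : Prop × Prop := (Win mis G true, Win mis G false)

/-- At every position either both players have a move or neither has. -/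
def Dicotic : PG → Prop
  | mk n f => (n true = 0 ↔ n false = 0) ∧ ∀ s i, Dicotic (f s i)

end PG

open PG

/-- Closed under sums and under taking options. -/
def Closed (A : Set PG) : Prop :=
  (∀ G ∈ A, ∀ H ∈ A, add G H ∈ A) ∧ ∀ G ∈ A, ∀ s H, IsOpt s H G → H ∈ A

/-- `K` is an evil kernel of `A`. -/
def EvilKernel (A K : Set PG) : Prop :=
  K ⊆ A ∧ (∀ G ∈ K, out false G = out true G) ∧
    ∀ G ∈ A \ K, out false G = out true (add G star) ∧ out false (add G star) = out true G

/-- The pair `(A, K)` is evilly normal. -/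
def EvillyNormal (A K : Set PG) : Prop :=
  (∀ G ∈ A, Dicotic G) ∧ Closed A ∧ EvilKernel A K ∧
    ∀ G ∈ A, ∀ H ∈ A, (add G H ∉ K ↔ G ∉ K ∧ H ∉ K)

/-- `G` is invertible modulo the dicotic games in misère play. -/
def Invertible (G : PG) : Prop :=
  Dicotic G ∧ ∃ H, Dicotic H ∧
    ∀ X, Dicotic X → out true (add (add G H) X) = out true (add zero X)

theorem add_mk (n m : Bool → ℕ) (f : ∀ s : Bool, Fin (n s) → PG) (g : ∀ s : Bool, Fin (m s) → PG) :
    add (mk n f) (mk m g) = mk (fun s => n s + m s) (fun s =>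
      Fin.addCases (fun i => add (f s i) (mk m g)) (fun j => add (mk n f) (g s j))) := rfl

theorem win_add (b : Bool) (n m : Bool → ℕ) (f : ∀ s : Bool, Fin (n s) → PG)
    (g : ∀ s : Bool, Fin (m s) → PG) (s : Bool) :
    Win b (add (mk n f) (mk m g)) s ↔ (n s = 0 ∧ m s = 0 ∧ b = true) ∨
      (∃ i, ¬ Win b (add (f s i) (mk m g)) (!s)) ∨ ∃ j, ¬ Win b (add (mk n f) (g s j)) (!s) := by
  rw [add_mk, Win, ← not_forall, Fin.forall_fin_add, not_and_or, not_forall, not_forall]
  simp only [Fin.addCases_left, Fin.addCases_right, Nat.add_eq_zero_iff, and_assoc]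

section Rep

variable {V : Type} (opt : Bool → V → V → Prop)

/-- The game `G` is the game played from position `c` of the move relations `opt`. -/
def Rep : PG → V → Prop
  | mk _ f, c => ∀ s, (∀ i, ∃ c', opt s c c' ∧ Rep (f s i) c') ∧
      ∀ c', opt s c c' → ∃ i, Rep (f s i) c'

variable {opt}

theorem rep_add [AddCommMonoid V] (hs : ∀ s c d z, opt s (c + d) z ↔
      (∃ c', opt s c c' ∧ z = c' + d) ∨ ∃ d', opt s d d' ∧ z = c + d') :
    ∀ (G H : PG) (c d : V), Rep opt G c → Rep opt H d → Rep opt (add G H) (c + d) := by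
  intro G
  induction G with
  | mk n f ihG =>
    intro H
    induction H with
    | mk m g ihH =>
      intro c d hc hd
      rw [add_mk]
      intro s
      refine ⟨fun i => ?_, fun z hz => ?_⟩
      · refine Fin.addCases (fun i => ?_) (fun j => ?_) i
        · obtain ⟨c', h1, h2⟩ := (hc s).1 i
          refine ⟨c' + d, (hs _ _ _ _).2 (Or.inl ⟨c', h1, rfl⟩), ?_⟩
          simp only [Fin.addCases_left]
          exact ihG s i _ _ _ h2 hd
        · obtain ⟨d', h1, h2⟩ := (hd s).1 j
          refine ⟨c + d', (hs _ _ _ _).2 (Or.inr ⟨d', h1, rfl⟩), ?_⟩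
          simp only [Fin.addCases_right]
          exact ihH s j _ _ hc h2
      · rcases (hs _ _ _ _).1 hz with ⟨c', h1, rfl⟩ | ⟨d', h1, rfl⟩
        · obtain ⟨i, hi⟩ := (hc s).2 c' h1
          refine ⟨Fin.castAdd _ i, ?_⟩
          simp only [Fin.addCases_left]
          exact ihG s i _ _ _ hi hd
        · obtain ⟨j, hj⟩ := (hd s).2 d' h1
          refine ⟨Fin.natAdd _ j, ?_⟩
          simp only [Fin.addCases_right]
          exact ihH s j _ _ hc hj

theorem rep_out (b : Bool) (D : V → Prop) (hD : ∀ s c c', D c → opt s c c' → D c')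
    (o : V → Bool → Prop) (ho : ∀ c s, D c → (o c s ↔
      ((∀ c', ¬ opt s c c') ∧ b = true) ∨ ∃ c', opt s c c' ∧ ¬ o c' (!s))) :
    ∀ (G : PG) (c : V) (s : Bool), D c → Rep opt G c → (Win b G s ↔ o c s) := by
  intro G
  induction G with
  | mk n f ih =>
    intro c s hd hc
    rw [ho c s hd, Win]
    constructor
    · rintro (⟨h, hb⟩ | ⟨i, hi⟩)
      · refine Or.inl ⟨fun c' h' => ?_, hb⟩
        obtain ⟨i, -⟩ := (hc s).2 c' h'
        exact absurd i.2 (by omega)
      · obtain ⟨c', h1, h2⟩ := (hc s).1 i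
        exact Or.inr ⟨c', h1, fun h => hi ((ih s i c' _ (hD _ _ _ hd h1) h2).2 h)⟩
    · rintro (⟨h, hb⟩ | ⟨c', h1, h2⟩)
      · refine Or.inl ⟨?_, hb⟩
        by_contra hn
        obtain ⟨c', h1, -⟩ := (hc s).1 ⟨0, Nat.pos_of_ne_zero hn⟩
        exact h c' h1
      · obtain ⟨i, hi⟩ := (hc s).2 c' h1
        exact Or.inr ⟨i, fun h => h2 ((ih s i c' _ (hD _ _ _ hd h1) hi).1 h)⟩

theorem rep_exists (w : V → ℕ) (hw : ∀ s c c', opt s c c' → w c' < w c)
    (fin : ∀ s c, {c' | opt s c c'}.Finite) (c : V) : ∃ G, Rep opt G c := by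
  induction h : w c using Nat.strong_induction_on generalizing c with
  | _ k ih =>
    have : Nonempty PG := ⟨zero⟩
    have ih' : ∀ c', w c' < w c → ∃ G, Rep opt G c' := fun c' h' => ih _ (h ▸ h') c' rfl
    choose! G hG using ih'
    choose n e using fun s => (fin s c).to_subtype.exists_equiv_fin
    refine ⟨mk n fun s i => G ((e s).some.symm i).1, fun s =>
      ⟨fun i => ⟨_, ((e s).some.symm i).2, hG _ (hw s _ _ ((e s).some.symm i).2)⟩,
      fun c' h => ⟨(e s).some ⟨c', h⟩, ?_⟩⟩⟩
    simpa using hG c' (hw s _ _ h)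

theorem rep_dicotic (h : ∀ c, (∀ c', ¬ opt true c c') ↔ ∀ c', ¬ opt false c c') :
    ∀ (G : PG) (c : V), Rep opt G c → Dicotic G := by
  intro G
  induction G with
  | mk n f ih =>
    intro c hc
    have key : ∀ s, n s = 0 ↔ ∀ c', ¬ opt s c c' := fun s => by
      constructor
      · intro h0 c' h'
        obtain ⟨i, -⟩ := (hc s).2 c' h'
        exact absurd i.2 (by omega)
      · intro h0
        by_contra hn
        obtain ⟨c', h1, -⟩ := (hc s).1 ⟨0, Nat.pos_of_ne_zero hn⟩
        exact h0 c' h1
    refine ⟨by rw [key, key, h], fun s i => ?_⟩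
    obtain ⟨c', -, h2⟩ := (hc s).1 i
    exact ih s i c' h2

/-- A terminal game can be dropped from a sum. -/
theorem win_add_end (b : Bool) (m : Bool → ℕ) (g : ∀ s : Bool, Fin (m s) → PG)
    (hm : ∀ s, m s = 0) : ∀ (G : PG) (s : Bool), Win b (add G (mk m g)) s ↔ Win b G s := by
  intro G
  induction G with
  | mk n f ih =>
    intro s
    rw [win_add, Win]
    have : IsEmpty (Fin (m s)) := by rw [hm]; infer_instance
    simp [ih, hm]

/-- A set of positions with outcome `N` in which each move has a reply back into the set consists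
of games equivalent to `0` modulo the dicotic games. -/
theorem zero_set (Z : V → Prop) (w : V → ℕ) (hw : ∀ s c c', opt s c c' → w c' < w c)
    (h1 : ∀ G c s, Z c → Rep opt G c → Win true G s)
    (h2 : ∀ c c' s, Z c → opt s c c' → ∃ c'', opt (!s) c' c'' ∧ Z c'') :
    ∀ X, Dicotic X → ∀ c G s, Z c → Rep opt G c → (Win true (add G X) s ↔ Win true X s) := by
  intro X
  induction X with
  | mk m g ihX =>
    intro hX
    by_cases hm : ∀ s, m s = 0
    · intro c G s hc hG
      rw [win_add_end _ _ _ hm]
      exact iff_of_true (h1 G c s hc hG) (Or.inl ⟨hm s, rfl⟩)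
    have hm' : ∀ s, m s ≠ 0 := by
      have := hX.1
      rw [Bool.forall_bool] at hm ⊢
      tauto
    intro c
    induction h : w c using Nat.strong_induction_on generalizing c with
    | _ k ih =>
      rintro ⟨n, f⟩ s hc hG
      rw [win_add, Win]
      simp only [hm' s, false_and, and_false, false_or]
      have e : ∀ j, Win true (add (mk n f) (g s j)) (!s) ↔ Win true (g s j) (!s) :=
        fun j => ihX s j (hX.2 s j) c _ _ hc hG
      simp only [e]
      refine ⟨fun H => H.elim ?_ id, Or.inr⟩
      rintro ⟨i, hi⟩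
      by_contra hn
      apply hi
      obtain ⟨c', o1, r1⟩ := (hG s).1 i
      obtain ⟨c'', o2, z2⟩ := h2 c c' s hc o1
      rcases hf : f s i with ⟨n', f'⟩
      rw [hf] at r1
      obtain ⟨i', r2⟩ := (r1 _).2 c'' o2
      rw [win_add]
      refine Or.inr (Or.inl ⟨i', ?_⟩)
      rw [ih (w c'') (h ▸ (hw _ _ _ o2).trans (hw _ _ _ o1)) c'' rfl _ _ z2 r2, Bool.not_not, Win]
      simp only [hm' s, false_and, false_or]
      exact hn

end Rep

end Pool.Agent.Lib.helper24.Dicot
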