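import Mathlib

set_option autoImplicit false

namespace Pool.Agent.DivComp

universe u

/-- The total order of `G` is invariant under left and right multiplication. -/
def IsOrdered (G : Type u) [Group G] [LinearOrder G] : Prop :=
  ∀ a b c : G, a ≤ b → c * a ≤ c * b ∧ a * c ≤ b * c

/-- Every element has an `n`-th root for every `n ≥ 1`. -/
def Divisible (D : Type u) [Group D] : Prop :=
  ∀ (d : D) (n : ℕ), 0 < n → ∃ x : D, x ^ n = d

/-- An injective order-preserving homomorphism. -/
def IsOrderEmb {G H : Type u} [Group G] [LinearOrder G] [Group H] [LinearOrder H]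
    (ι : G →* H) : Prop :=
  Function.Injective ι ∧ Monotone ι

/-- The smallest subgroup containing `S` and closed under extraction of roots. -/
def isolator {T : Type u} [Group T] (S : Subgroup T) : Subgroup T :=
  sInf {J : Subgroup T | S ≤ J ∧ ∀ (g : T) (n : ℕ), 0 < n → g ^ n ∈ J → g ∈ J}

/-- `ι : G → H` is an order-embedding into a divisible ordered group. -/
def IsDivExt {G H : Type u} [Group G] [LinearOrder G] [Group H] [LinearOrder H]
    (ι : G →* H) : Prop :=
  IsOrdered H ∧ Divisible H ∧ IsOrderEmb ι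

/-- `ι : G → H` is a minimal divisible completion of `G`. -/
def IsMinComp {G H : Type u} [Group G] [LinearOrder G] [Group H] [LinearOrder H]
    (ι : G →* H) : Prop :=
  IsDivExt ι ∧ isolator ι.range = ⊤

theorem le_isolator {T : Type u} [Group T] (S : Subgroup T) : S ≤ isolator S :=
  le_sInf fun _ h => h.1

theorem isolator_root {T : Type u} [Group T] (S : Subgroup T) (g : T) (n : ℕ) (hn : 0 < n)
    (h : g ^ n ∈ isolator S) : g ∈ isolator S := by
  unfold isolator at h ⊢
  rw [Subgroup.mem_sInf] at h ⊢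
  intro J hJ
  exact hJ.2 g n hn (h J hJ)

theorem isolator_le {T : Type u} [Group T] {S J : Subgroup T} (h1 : S ≤ J)
    (h2 : ∀ (g : T) (n : ℕ), 0 < n → g ^ n ∈ J → g ∈ J) : isolator S ≤ J :=
  sInf_le ⟨h1, h2⟩

theorem IsOrdered.lt_mul {G : Type u} [Group G] [LinearOrder G] (h : IsOrdered G) {a b : G}
    (c : G) (hab : a < b) : c * a < c * b ∧ a * c < b * c :=
  ⟨lt_of_le_of_ne (h a b c hab.le).1 (fun e => hab.ne (mul_left_cancel e)),
   lt_of_le_of_ne (h a b c hab.le).2 (fun e => hab.ne (mul_right_cancel e))⟩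

theorem IsOrdered.pow_lt {G : Type u} [Group G] [LinearOrder G] (h : IsOrdered G) {a b : G}
    (hab : a < b) (n : ℕ) : a ^ (n + 1) < b ^ (n + 1) := by
  induction n with
  | zero => simpa using hab
  | succ n ih =>
    rw [pow_succ a (n + 1), pow_succ b (n + 1)]
    exact ((h.lt_mul (a ^ (n + 1)) hab).1).trans (h.lt_mul b ih).2

theorem IsOrdered.root_unique {G : Type u} [Group G] [LinearOrder G] (h : IsOrdered G) {a b : G}
    {n : ℕ} (hn : 0 < n) (e : a ^ n = b ^ n) : a = b := by
  obtain ⟨m, rfl⟩ : ∃ m, n = m + 1 := ⟨n - 1, by omega⟩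
  rcases lt_trichotomy a b with hab | hab | hab
  · exact absurd e (h.pow_lt hab m).ne
  · exact hab
  · exact absurd e (h.pow_lt hab m).ne'

/-- Formal terms built from `G` by products, inverses and roots. -/
inductive Tm (G : Type u) : Type u
  | of : G → Tm G
  | mul : Tm G → Tm G → Tm G
  | inv : Tm G → Tm G
  | root : ℕ → Tm G → Tm G

/-- Evaluation of terms in a divisible group. -/
noncomputable def ev {G H : Type u} [Group H] (hd : Divisible H) (ι : G → H) : Tm G → H
  | .of g => ι g
  | .mul a b => ev hd ι a * ev hd ι b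
  | .inv a => (ev hd ι a)⁻¹
  | .root n a => Classical.choose (hd (ev hd ι a) (n + 1) (Nat.succ_pos n))

theorem ev_root {G H : Type u} [Group H] (hd : Divisible H) (ι : G → H) (n : ℕ) (a : Tm G) :
    ev hd ι (.root n a) ^ (n + 1) = ev hd ι a :=
  Classical.choose_spec (hd (ev hd ι a) (n + 1) (Nat.succ_pos n))

/-- The set of values of terms is the isolator. -/
theorem mem_isolator_iff {G H : Type u} [Group G] [Group H] (hd : Divisible H)
    (hu : ∀ (a b : H) (n : ℕ), 0 < n → a ^ n = b ^ n → a = b) (ι : G →* H) (x : H) :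
    x ∈ isolator ι.range ↔ ∃ t, ev hd ι t = x := by
  constructor
  · intro hx
    let J : Subgroup H :=
      { carrier := {x | ∃ t, ev hd ι t = x}
        one_mem' := ⟨.of 1, by simp [ev]⟩
        mul_mem' := by
          rintro _ _ ⟨s, rfl⟩ ⟨t, rfl⟩
          exact ⟨.mul s t, rfl⟩
        inv_mem' := by
          rintro _ ⟨s, rfl⟩
          exact ⟨.inv s, rfl⟩ }
    have : isolator ι.range ≤ J := by
      apply isolator_le
      · rintro _ ⟨g, rfl⟩
        exact ⟨.of g, rfl⟩
      · rintro g n hn ⟨t, ht⟩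
        obtain ⟨m, rfl⟩ : ∃ m, n = m + 1 := ⟨n - 1, by omega⟩
        exact ⟨.root m t, hu _ _ _ hn (by rw [ev_root, ht])⟩
    exact this hx
  · rintro ⟨t, rfl⟩
    induction t with
    | of g => exact le_isolator _ ⟨g, rfl⟩
    | mul a b ha hb => exact Subgroup.mul_mem _ ha hb
    | inv a ha => exact Subgroup.inv_mem _ ha
    | root n a ha => exact isolator_root _ _ (n + 1) (Nat.succ_pos n) (by rwa [ev_root])

/-- A bundled order-embedding into a divisible ordered group. -/
structure Ext (G : Type u) [Group G] [LinearOrder G] : Type (u + 1) where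
  H : Type u
  grp : Group H
  ord : LinearOrder H
  ι : G →* H
  ok : @IsDivExt G H _ _ grp ord ι

attribute [instance] Ext.grp Ext.ord

variable {G : Type u} [Group G] [LinearOrder G]

/-- Value of a term in a bundled extension. -/
noncomputable def Ext.val (E : Ext G) (t : Tm G) : E.H := ev E.ok.2.1 E.ι t

theorem exists_family (E₀ : Ext G) : ∃ F : Tm G × Tm G → Ext G, ∀ s t : Tm G,
    (F (s, t)).val s = (F (s, t)).val t → ∀ E : Ext G, E.val s = E.val t := by
  classical
  refine ⟨fun p => if h : ∃ E : Ext G, E.val p.1 ≠ E.val p.2 then Classical.choose h else E₀, ?_⟩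
  intro s t hst E
  by_contra hne
  have h : ∃ E : Ext G, E.val s ≠ E.val t := ⟨E, hne⟩
  have key : ∀ E' : Ext G, E' = Classical.choose h → E'.val s ≠ E'.val t := by
    rintro _ rfl
    exact Classical.choose_spec h
  exact key _ (dif_pos h) hst

theorem main (E₀ : Ext G) : ∃ K : Ext G, isolator K.ι.range = ⊤ ∧
    ∀ E : Ext G, isolator E.ι.range = ⊤ →
      ∃ φ : K.H →* E.H, Function.Surjective φ ∧ ∀ g, φ (K.ι g) = E.ι g := by
  classical
  obtain ⟨F, hF⟩ := exists_family E₀
  obtain ⟨lo, wf⟩ := exists_wellFoundedLT (Tm G × Tm G)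
  let P : Type u := Lex (∀ i, (F i).H)
  have hlt : ∀ a b : P, a < b ↔ ∃ i, (∀ j, j < i → a j = b j) ∧ a i < b i := fun a b => Iff.rfl
  have hmul : ∀ (a b : P) i, (a * b) i = a i * b i := fun a b i => rfl
  have hpow : ∀ (a : P) (n : ℕ) i, (a ^ n) i = a i ^ n := fun a n i => rfl
  have hPo : IsOrdered P := by
    intro a b c hab
    rcases hab.eq_or_lt with rfl | hab
    · exact ⟨le_rfl, le_rfl⟩
    obtain ⟨i, h1, h2⟩ := (hlt a b).1 hab
    refine ⟨le_of_lt ((hlt _ _).2 ⟨i, fun j hj => ?_, ?_⟩),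
      le_of_lt ((hlt _ _).2 ⟨i, fun j hj => ?_, ?_⟩)⟩
    · rw [hmul, hmul, h1 j hj]
    · rw [hmul, hmul]; exact ((F i).ok.1.lt_mul _ h2).1
    · rw [hmul, hmul, h1 j hj]
    · rw [hmul, hmul]; exact ((F i).ok.1.lt_mul _ h2).2
  have hPd : Divisible P := by
    intro d n hn
    choose x hx using fun i => (F i).ok.2.1 (d i) n hn
    exact ⟨x, funext fun i => (hpow x n i).trans (hx i)⟩
  let Δ : G →* P :=
    { toFun := fun g i => (F i).ι g
      map_one' := funext fun i => map_one (F i).ι
      map_mul' := fun a b => funext fun i => map_mul (F i).ι a b }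
  have hΔ : ∀ g i, Δ g i = (F i).ι g := fun g i => rfl
  have hΔs : StrictMono Δ := by
    intro a b hab
    obtain ⟨i, -, hi⟩ := wf.wf.has_min (Set.univ : Set (Tm G × Tm G))
      ⟨(.of 1, .of 1), Set.mem_univ _⟩
    refine (hlt _ _).2 ⟨i, fun j hj => absurd hj (hi j (Set.mem_univ _)), ?_⟩
    rw [hΔ, hΔ]
    exact lt_of_le_of_ne ((F i).ok.2.2.2 hab.le) (fun e => hab.ne ((F i).ok.2.2.1 e))
  have hPu : ∀ (a b : P) (n : ℕ), 0 < n → a ^ n = b ^ n → a = b :=
    fun a b n hn e => hPo.root_unique hn e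
  have hev : ∀ (t : Tm G) i, ev hPd Δ t i = (F i).val t := by
    intro t i
    induction t with
    | of g => rfl
    | mul a b ha hb =>
      show ev hPd Δ a i * ev hPd Δ b i = (F i).val a * (F i).val b
      rw [ha, hb]
    | inv a ha =>
      show (ev hPd Δ a i)⁻¹ = ((F i).val a)⁻¹
      rw [ha]
    | root n a ha =>
      apply (F i).ok.1.root_unique (Nat.succ_pos n)
      have e1 := ev_root hPd Δ n a
      have e2 := ev_root (F i).ok.2.1 (F i).ι n a
      have e3 : ev hPd Δ (.root n a) i ^ (n + 1) = ev hPd Δ a i := by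
        rw [← hpow, e1]
      exact e3.trans (ha.trans e2.symm)
  let K : Subgroup P := isolator Δ.range
  let ι : G →* K := Δ.codRestrict K fun g => le_isolator _ ⟨g, rfl⟩
  have hKo : IsOrdered K := fun a b c hab => hPo a b c hab
  have hKd : Divisible K := by
    intro d n hn
    obtain ⟨x, hx⟩ := hPd d n hn
    exact ⟨⟨x, isolator_root _ x n hn (hx ▸ d.2)⟩, Subtype.ext hx⟩
  have hι : IsOrderEmb ι :=
    ⟨fun a b e => hΔs.injective (congrArg Subtype.val e), fun a b hab => hΔs.monotone hab⟩
  have hmem : ∀ k : K, ∃ t, ev hPd Δ t = k := fun k => (mem_isolator_iff hPd hPu Δ k).1 k.2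
  have hK : ∀ t, ev hPd Δ t ∈ K := fun t => (mem_isolator_iff hPd hPu Δ _).2 ⟨t, rfl⟩
  refine ⟨⟨K, inferInstance, inferInstance, ι, hKo, hKd, hι⟩, ?_, ?_⟩
  · show isolator ι.range = ⊤
    rw [eq_top_iff]
    intro k _
    obtain ⟨t, ht⟩ := hmem k
    have : ∀ t, (⟨ev hPd Δ t, hK t⟩ : K) ∈ isolator ι.range := by
      intro t
      induction t with
      | of g => exact le_isolator _ ⟨g, rfl⟩
      | mul a b ha hb => exact Subgroup.mul_mem _ ha hb
      | inv a ha => exact Subgroup.inv_mem _ ha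
      | root n a ha =>
        refine isolator_root _ _ (n + 1) (Nat.succ_pos n) ?_
        have : (⟨ev hPd Δ (.root n a), hK _⟩ : K) ^ (n + 1) = ⟨ev hPd Δ a, hK a⟩ :=
          Subtype.ext (ev_root hPd Δ n a)
        rwa [this]
    have e : k = ⟨ev hPd Δ t, hK t⟩ := Subtype.ext ht.symm
    rw [e]
    exact this t
  · intro E hE
    choose tm htm using hmem
    have wd : ∀ s t, ev hPd Δ s = ev hPd Δ t → E.val s = E.val t := by
      intro s t e
      apply hF s t
      rw [← hev, ← hev, e]
    have hφ : ∀ t, E.val (tm ⟨ev hPd Δ t, hK t⟩) = E.val t := fun t => wd _ _ (htm _)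
    let φ : K →* E.H := MonoidHom.mk' (fun k => E.val (tm k)) (by
      intro a b
      have : E.val (tm (a * b)) = E.val (.mul (tm a) (tm b)) := by
        apply wd
        show _ = ev hPd Δ (tm a) * ev hPd Δ (tm b)
        rw [htm, htm, htm]
        rfl
      exact this)
    refine ⟨φ, ?_, ?_⟩
    · intro y
      have hy : y ∈ isolator E.ι.range := hE ▸ Subgroup.mem_top y
      obtain ⟨t, ht⟩ := (mem_isolator_iff E.ok.2.1
        (fun a b n hn e => E.ok.1.root_unique hn e) E.ι y).1 hy
      exact ⟨⟨ev hPd Δ t, hK t⟩, (hφ t).trans ht⟩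
    · intro g
      exact hφ (.of g)

end Pool.Agent.DivComp
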