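import Mathlib

set_option autoImplicit false

/-! Regularised exponential sums: minimisers, stationarity and an envelope lemma. -/

namespace Pool.Agent.Lib.helper24.ExpSum

open Filter Topology

variable {ι : Type} [Fintype ι] {N : ℕ}

noncomputable def W (β : Fin N → ℝ) (ε : ℝ) (t : Fin N → ℝ) : ℝ :=
  Real.exp (∑ i, (β i * t i + ε * t i ^ 2))

noncomputable def Phi (β : ι → Fin N → ℝ) (ε : ℝ) (a : ι → ℝ) (t : Fin N → ℝ) : ℝ :=
  ∑ f, a f * W (β f) ε t

theorem W_pos (β : Fin N → ℝ) (ε : ℝ) (t : Fin N → ℝ) : 0 < W β ε t := Real.exp_pos _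

theorem continuous_W (β : Fin N → ℝ) (ε : ℝ) : Continuous (W β ε) := by
  unfold W; fun_prop

theorem Phi_nonneg (β : ι → Fin N → ℝ) (ε : ℝ) {a : ι → ℝ} (ha : ∀ f, 0 ≤ a f)
    (t : Fin N → ℝ) : 0 ≤ Phi β ε a t :=
  Finset.sum_nonneg fun f _ => mul_nonneg (ha f) (W_pos _ _ _).le

theorem continuous_Phi (β : ι → Fin N → ℝ) (ε : ℝ) (a : ι → ℝ) : Continuous (Phi β ε a) :=
  continuous_finsetSum _ fun f _ => continuous_const.mul (continuous_W (β f) ε)

theorem midpoint (β : ι → Fin N → ℝ) (ε : ℝ) {a : ι → ℝ} (ha : ∀ f, 0 ≤ a f)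
    (t u : Fin N → ℝ) :
    Phi β ε a (fun i => (t i + u i) / 2) ^ 2 ≤
      (Phi β ε a t * Real.exp (-(ε / 2 * ∑ i, (t i - u i) ^ 2))) * Phi β ε a u := by
  unfold Phi
  rw [Finset.sum_mul]
  refine Finset.sum_sq_le_sum_mul_sum_of_sq_le_mul _
    (fun f _ => mul_nonneg (mul_nonneg (ha f) (W_pos _ _ _).le) (Real.exp_pos _).le)
    (fun f _ => mul_nonneg (ha f) (W_pos _ _ _).le) fun f _ => le_of_eq ?_
  have : W (β f) ε (fun i => (t i + u i) / 2) ^ 2 =
      W (β f) ε t * Real.exp (-(ε / 2 * ∑ i, (t i - u i) ^ 2)) * W (β f) ε u := by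
    unfold W
    rw [sq, ← Real.exp_add, ← Real.exp_add, ← Real.exp_add, Finset.mul_sum,
      ← Finset.sum_neg_distrib, ← Finset.sum_add_distrib, ← Finset.sum_add_distrib,
      ← Finset.sum_add_distrib]
    congr 1
    exact Finset.sum_congr rfl fun i _ => by ring
  rw [mul_pow, this]; ring

theorem norm_sq_le_sum (t : Fin N → ℝ) : ‖t‖ ^ 2 ≤ ∑ i, t i ^ 2 := by
  have h : ‖t‖ ≤ Real.sqrt (∑ i, t i ^ 2) := by
    refine (pi_norm_le_iff_of_nonneg (Real.sqrt_nonneg _)).mpr fun i => ?_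
    refine Real.le_sqrt_of_sq_le ?_
    rw [Real.norm_eq_abs, sq_abs]
    exact Finset.single_le_sum (f := fun i => t i ^ 2) (fun j _ => sq_nonneg _) (Finset.mem_univ i)
  calc ‖t‖ ^ 2 ≤ Real.sqrt (∑ i, t i ^ 2) ^ 2 := pow_le_pow_left₀ (norm_nonneg _) h 2
    _ = _ := Real.sq_sqrt (Finset.sum_nonneg fun i _ => sq_nonneg _)

theorem exists_min (β : ι → Fin N → ℝ) {ε : ℝ} (hε : 0 < ε) {a : ι → ℝ} (ha : ∀ f, 0 ≤ a f) :
    ∃ t₀, ∀ t, Phi β ε a t₀ ≤ Phi β ε a t := by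
  by_cases h0 : ∀ f, a f = 0
  · exact ⟨0, fun t => by simp [Phi, h0]⟩
  push Not at h0
  obtain ⟨f, hf⟩ := h0
  have hf' : 0 < a f := lt_of_le_of_ne (ha f) (Ne.symm hf)
  refine (continuous_Phi β ε a).exists_forall_le ?_
  have h1 : Tendsto (fun t : Fin N → ℝ =>
      a f * Real.exp (ε / 2 * ‖t‖ ^ 2 + -∑ i, β f i ^ 2 / (2 * ε))) (cocompact _) atTop := by
    refine Tendsto.const_mul_atTop hf' (Real.tendsto_exp_atTop.comp ?_)
    refine tendsto_atTop_add_const_right _ _ (Tendsto.const_mul_atTop (by positivity) ?_)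
    exact (tendsto_pow_atTop two_ne_zero).comp tendsto_norm_cocompact_atTop
  refine tendsto_atTop_mono (fun t => ?_) h1
  refine le_trans ?_ (Finset.single_le_sum (f := fun f => a f * W (β f) ε t)
    (fun g _ => mul_nonneg (ha g) (W_pos _ _ _).le) (Finset.mem_univ f))
  refine mul_le_mul_of_nonneg_left (Real.exp_le_exp.mpr ?_) hf'.le
  refine le_trans (add_le_add_left (mul_le_mul_of_nonneg_left (norm_sq_le_sum t)
    (by positivity)) _) ?_
  rw [Finset.mul_sum, ← Finset.sum_neg_distrib, ← Finset.sum_add_distrib]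
  refine Finset.sum_le_sum fun i _ => ?_
  have : 0 ≤ (β f i + ε * t i) ^ 2 / (2 * ε) := by positivity
  have e : (β f i + ε * t i) ^ 2 / (2 * ε) =
      β f i ^ 2 / (2 * ε) + β f i * t i + ε / 2 * t i ^ 2 := by field_simp; ring
  linarith

theorem W_update (β : Fin N → ℝ) (ε : ℝ) (t : Fin N → ℝ) (i : Fin N) (s : ℝ) :
    W β ε (Function.update t i (t i + s)) =
      W β ε t * Real.exp ((β i + 2 * ε * t i) * s + ε * s ^ 2) := by
  unfold W
  rw [← Real.exp_add]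
  congr 1
  rw [← Finset.add_sum_erase _ _ (Finset.mem_univ i),
    ← Finset.add_sum_erase _ _ (Finset.mem_univ i), Function.update_self]
  rw [Finset.sum_congr rfl (fun j hj => by
    rw [Function.update_of_ne (Finset.ne_of_mem_erase hj)])]
  ring

theorem stationary (β : ι → Fin N → ℝ) (ε : ℝ) (a : ι → ℝ) (t₀ : Fin N → ℝ)
    (h : ∀ t, Phi β ε a t₀ ≤ Phi β ε a t) (i : Fin N) :
    ∑ f, a f * W (β f) ε t₀ * (β f i + 2 * ε * t₀ i) = 0 := by
  have hd : HasDerivAt (fun s : ℝ => ∑ f, a f * (W (β f) ε t₀ *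
      Real.exp ((β f i + 2 * ε * t₀ i) * s + ε * s ^ 2)))
      (∑ f, a f * W (β f) ε t₀ * (β f i + 2 * ε * t₀ i)) 0 := by
    refine HasDerivAt.fun_sum fun f _ => ?_
    have h1 : HasDerivAt (fun s : ℝ => (β f i + 2 * ε * t₀ i) * s + ε * s ^ 2)
        (β f i + 2 * ε * t₀ i) 0 := by
      exact (((hasDerivAt_id' (0 : ℝ)).const_mul (β f i + 2 * ε * t₀ i)).fun_add
        ((hasDerivAt_pow 2 (0 : ℝ)).const_mul ε)).congr_deriv (by simp)
    exact ((h1.exp.const_mul (W (β f) ε t₀)).const_mul (a f)).congr_deriv (by simp [mul_assoc])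
  refine IsLocalMin.hasDerivAt_eq_zero (Filter.Eventually.of_forall fun s => ?_) hd
  have := h (Function.update t₀ i (t₀ i + s))
  simp only [Phi, W_update] at this
  simpa [Phi] using this

theorem close_of_le (β : ι → Fin N → ℝ) {ε : ℝ} {a : ι → ℝ} (ha : ∀ f, 0 ≤ a f)
    (t₀ : Fin N → ℝ) (h : ∀ t, Phi β ε a t₀ ≤ Phi β ε a t) (hpos : 0 < Phi β ε a t₀)
    (t : Fin N → ℝ) :
    Phi β ε a t₀ * Real.exp (ε / 2 * ∑ i, (t i - t₀ i) ^ 2) ≤ Phi β ε a t := by
  have h1 := midpoint β ε ha t t₀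
  have h2 := pow_le_pow_left₀ hpos.le (h fun i => (t i + t₀ i) / 2) 2
  have h3 : Phi β ε a t₀ ≤ Phi β ε a t * Real.exp (-(ε / 2 * ∑ i, (t i - t₀ i) ^ 2)) := by
    refine le_of_mul_le_mul_right ?_ hpos
    rw [← sq]; exact h2.trans h1
  rw [Real.exp_neg, ← div_eq_mul_inv, le_div_iff₀ (Real.exp_pos _)] at h3
  exact h3

theorem envelope (β : ι → Fin N → ℝ) {ε : ℝ} (hε : 0 < ε) (a : ℝ → ι → ℝ) (a' : ι → ℝ)
    (ha : ∀ s f, 0 ≤ a s f) (hd : ∀ f, HasDerivAt (fun s => a s f) (a' f) 0)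
    (t₀ : Fin N → ℝ) (h : ∀ t, Phi β ε (a 0) t₀ ≤ Phi β ε (a 0) t)
    (hpos : 0 < Phi β ε (a 0) t₀)
    (hmax : ∀ s ∈ Set.Ioo (0 : ℝ) 1, ∃ t, Phi β ε (a s) t ≤ Phi β ε (a 0) t₀) :
    ∑ f, a' f * W (β f) ε t₀ ≤ 0 := by
  choose! T hT using hmax
  have hI : ∀ᶠ s in 𝓝[>] (0 : ℝ), s ∈ Set.Ioo (0 : ℝ) 1 := Ioo_mem_nhdsGT one_pos
  have hconv : Tendsto T (𝓝[>] 0) (𝓝 t₀) := by
    rw [Metric.tendsto_nhds]
    intro δ hδ
    obtain ⟨η, hη⟩ : ∃ η, η = ε / 4 * δ ^ 2 := ⟨_, rfl⟩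
    have hη0 : 0 < η := by rw [hη]; positivity
    have h1 : ∀ᶠ s in 𝓝[>] (0 : ℝ), ∀ f, a 0 f ≤ (1 + η) * a s f := by
      rw [Filter.eventually_all]
      intro f
      rcases (ha 0 f).eq_or_lt with h0 | h0
      · exact Filter.Eventually.of_forall fun s => by
          rw [← h0]; exact mul_nonneg (by linarith) (ha s f)
      · have hc : Tendsto (fun s => (1 + η) * a s f) (𝓝[>] 0) (𝓝 ((1 + η) * a 0 f)) :=
          ((hd f).continuousAt.tendsto.mono_left nhdsWithin_le_nhds).const_mul _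
        exact (hc.eventually (lt_mem_nhds (by nlinarith))).mono fun s hs => le_of_lt hs
    filter_upwards [h1, hI] with s hs hsI
    have h2 : Phi β ε (a 0) (T s) ≤ (1 + η) * Phi β ε (a 0) t₀ := by
      refine le_trans ?_ (mul_le_mul_of_nonneg_left (hT s hsI) (by linarith))
      unfold Phi
      rw [Finset.mul_sum]
      refine Finset.sum_le_sum fun f _ => ?_
      rw [← mul_assoc]
      exact mul_le_mul_of_nonneg_right (hs f) (W_pos _ _ _).le
    have h3 := (close_of_le β (ha 0) t₀ h hpos (T s)).trans h2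
    rw [mul_comm] at h3
    have h4 := le_of_mul_le_mul_right h3 hpos
    have h5 := Real.add_one_le_exp (ε / 2 * ∑ i, (T s i - t₀ i) ^ 2)
    have h6 := norm_sq_le_sum (T s - t₀)
    simp only [Pi.sub_apply] at h6
    rw [dist_eq_norm]
    refine lt_of_pow_lt_pow_left₀ 2 hδ.le ?_
    have h7 : ε / 2 * ‖T s - t₀‖ ^ 2 ≤ ε / 4 * δ ^ 2 := by
      have := mul_le_mul_of_nonneg_left h6 (by positivity : 0 ≤ ε / 2)
      linarith
    have : 0 < ε / 4 * δ ^ 2 := by positivity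
    by_contra hn
    have := mul_le_mul_of_nonneg_left (not_lt.mp hn) (by positivity : 0 ≤ ε / 2)
    linarith
  have hlim : Tendsto (fun s => ∑ f, slope (fun s => a s f) 0 s * W (β f) ε (T s)) (𝓝[>] 0)
      (𝓝 (∑ f, a' f * W (β f) ε t₀)) := by
    refine tendsto_finsetSum _ fun f _ => Tendsto.mul ?_ ?_
    · exact (hasDerivAt_iff_tendsto_slope.mp (hd f)).mono_left
        (nhdsWithin_mono _ fun s hs => ne_of_gt hs)
    · exact ((continuous_W (β f) ε).tendsto t₀).comp hconv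
  refine le_of_tendsto hlim ?_
  filter_upwards [hI] with s hs
  have h1 := (hT s hs).trans (h (T s))
  have e : ∑ f, slope (fun s => a s f) 0 s * W (β f) ε (T s) =
      s⁻¹ * (Phi β ε (a s) (T s) - Phi β ε (a 0) (T s)) := by
    unfold Phi
    rw [← Finset.sum_sub_distrib, Finset.mul_sum]
    refine Finset.sum_congr rfl fun f _ => ?_
    rw [slope_def_field]; simp only [sub_zero]; ring
  rw [e]
  exact mul_nonpos_of_nonneg_of_nonpos (inv_nonneg.mpr hs.1.le) (by linarith)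

end Pool.Agent.Lib.helper24.ExpSum
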