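import Mathlib

set_option autoImplicit false

namespace Pool.Agent.FreeVar

open FreeNonUnitalNonAssocAlgebra

section quo
variable {K : Type} [CommRing K] {A : Type} [NonUnitalNonAssocRing A] [Module K A]
  [IsScalarTower K A A] [SMulCommClass K A A]

/-- A two-sided ideal of a nonassociative algebra. -/
structure Idl (K A : Type) [CommRing K] [NonUnitalNonAssocRing A] [Module K A] where
  I : Submodule K A
  l : ∀ a b, b ∈ I → a * b ∈ I
  r : ∀ a b, a ∈ I → a * b ∈ I

def Quo (J : Idl K A) : Type := A ⧸ J.I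

instance (J : Idl K A) : AddCommGroup (Quo J) := inferInstanceAs (AddCommGroup (A ⧸ J.I))
instance (J : Idl K A) : Module K (Quo J) := inferInstanceAs (Module K (A ⧸ J.I))

def mkL (J : Idl K A) : A →ₗ[K] Quo J := J.I.mkQ

theorem mkL_surj (J : Idl K A) : Function.Surjective (mkL J) := J.I.mkQ_surjective

theorem mkL_eq_zero (J : Idl K A) (a : A) : mkL J a = 0 ↔ a ∈ J.I :=
  Submodule.Quotient.mk_eq_zero J.I

instance (J : Idl K A) : Mul (Quo J) :=
  ⟨Quotient.map₂' (· * ·) (by
    intro a a' ha b b' hb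
    rw [Submodule.quotientRel_def] at *
    have : a * b - a' * b' = (a - a') * b + a' * (b - b') := by
      rw [sub_mul, mul_sub]; abel
    rw [this]
    exact J.I.add_mem (J.r _ _ ha) (J.l _ _ hb))⟩

theorem mkL_mul (J : Idl K A) (a b : A) : mkL J (a * b) = mkL J a * mkL J b := rfl

instance (J : Idl K A) : NonUnitalNonAssocRing (Quo J) where
  left_distrib x y z := by
    obtain ⟨x, rfl⟩ := mkL_surj J x; obtain ⟨y, rfl⟩ := mkL_surj J y
    obtain ⟨z, rfl⟩ := mkL_surj J z
    rw [← map_add, ← mkL_mul, ← mkL_mul, ← mkL_mul, ← map_add, mul_add]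
  right_distrib x y z := by
    obtain ⟨x, rfl⟩ := mkL_surj J x; obtain ⟨y, rfl⟩ := mkL_surj J y
    obtain ⟨z, rfl⟩ := mkL_surj J z
    rw [← map_add, ← mkL_mul, ← mkL_mul, ← mkL_mul, ← map_add, add_mul]
  zero_mul x := by
    obtain ⟨x, rfl⟩ := mkL_surj J x
    rw [← map_zero (mkL J), ← mkL_mul, zero_mul]
  mul_zero x := by
    obtain ⟨x, rfl⟩ := mkL_surj J x
    rw [← map_zero (mkL J), ← mkL_mul, mul_zero]

instance (J : Idl K A) : IsScalarTower K (Quo J) (Quo J) where
  smul_assoc c x y := by
    obtain ⟨x, rfl⟩ := mkL_surj J x; obtain ⟨y, rfl⟩ := mkL_surj J y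
    rw [smul_eq_mul, smul_eq_mul, ← map_smul, ← mkL_mul, ← mkL_mul, ← map_smul, smul_mul_assoc]

instance (J : Idl K A) : SMulCommClass K (Quo J) (Quo J) where
  smul_comm c x y := by
    obtain ⟨x, rfl⟩ := mkL_surj J x; obtain ⟨y, rfl⟩ := mkL_surj J y
    rw [smul_eq_mul, smul_eq_mul, ← map_smul, ← mkL_mul, ← mkL_mul, ← map_smul, mul_smul_comm]

def mkH (J : Idl K A) : A →ₙₐ[K] Quo J where
  toFun := mkL J
  map_smul' := (mkL J).map_smul
  map_zero' := (mkL J).map_zero
  map_add' := (mkL J).map_add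
  map_mul' := mkL_mul J

theorem mkH_surj (J : Idl K A) : Function.Surjective (mkH J) := mkL_surj J

theorem mkH_eq_zero (J : Idl K A) (a : A) : mkH J a = 0 ↔ a ∈ J.I := mkL_eq_zero J a

def liftH (J : Idl K A) {B : Type} [NonUnitalNonAssocRing B] [Module K B] (φ : A →ₙₐ[K] B)
    (h : ∀ a ∈ J.I, φ a = 0) : Quo J →ₙₐ[K] B where
  toFun := J.I.liftQ (φ : A →ₗ[K] B) (fun a ha => h a ha)
  map_smul' c x := map_smul _ c x
  map_zero' := map_zero _
  map_add' := map_add _
  map_mul' x y := by
    obtain ⟨x, rfl⟩ := mkL_surj J x; obtain ⟨y, rfl⟩ := mkL_surj J y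
    exact map_mul φ x y

theorem liftH_mk (J : Idl K A) {B : Type} [NonUnitalNonAssocRing B] [Module K B] (φ : A →ₙₐ[K] B)
    (h : ∀ a ∈ J.I, φ a = 0) (a : A) : liftH J φ h (mkH J a) = φ a := rfl

end quo

/-- The algebra `A` satisfies every identity in `S`. -/
def Sat (K : Type) [CommRing K] (S : Set (FreeNonUnitalNonAssocAlgebra K ℕ)) (A : Type)
    [NonUnitalNonAssocRing A] [Module K A] [IsScalarTower K A A] [SMulCommClass K A A] : Prop :=
  ∀ f ∈ S, ∀ v : ℕ → A, lift K v f = 0

/-- `A` is the free algebra on the family `x` in the variety defined by `S`. -/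
def IsFree (K : Type) [CommRing K] (S : Set (FreeNonUnitalNonAssocAlgebra K ℕ)) (A : Type)
    [NonUnitalNonAssocRing A] [Module K A] [IsScalarTower K A A] [SMulCommClass K A A]
    {X : Type} (x : X → A) : Prop :=
  Sat K S A ∧ ∀ (B : Type) [NonUnitalNonAssocRing B] [Module K B] [IsScalarTower K B B]
    [SMulCommClass K B B], Sat K S B → ∀ v : X → B, ∃! φ : A →ₙₐ[K] B, ∀ i, φ (x i) = v i

theorem lift_comp {K : Type} [CommRing K] {X A B : Type}
    [NonUnitalNonAssocRing A] [Module K A] [IsScalarTower K A A] [SMulCommClass K A A]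
    [NonUnitalNonAssocRing B] [Module K B] [IsScalarTower K B B] [SMulCommClass K B B]
    (φ : A →ₙₐ[K] B) (v : X → A) (f : FreeNonUnitalNonAssocAlgebra K X) :
    φ (lift K v f) = lift K (fun i => φ (v i)) f := by
  have : φ.comp (lift K v) = lift K (fun i => φ (v i)) := by
    apply hom_ext; intro i; simp
  exact DFunLike.congr_fun this f

theorem Sat.of_surj {K : Type} [CommRing K] {S : Set (FreeNonUnitalNonAssocAlgebra K ℕ)}
    {A B : Type}
    [NonUnitalNonAssocRing A] [Module K A] [IsScalarTower K A A] [SMulCommClass K A A]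
    [NonUnitalNonAssocRing B] [Module K B] [IsScalarTower K B B] [SMulCommClass K B B]
    (h : Sat K S A) (φ : A →ₙₐ[K] B) (hφ : Function.Surjective φ) : Sat K S B := by
  intro f hf v
  choose w hw using fun i => hφ (v i)
  have : v = fun i => φ (w i) := funext fun i => (hw i).symm
  rw [this, ← lift_comp, h f hf w, map_zero]

theorem Sat.of_inj {K : Type} [CommRing K] {S : Set (FreeNonUnitalNonAssocAlgebra K ℕ)}
    {A B : Type}
    [NonUnitalNonAssocRing A] [Module K A] [IsScalarTower K A A] [SMulCommClass K A A]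
    [NonUnitalNonAssocRing B] [Module K B] [IsScalarTower K B B] [SMulCommClass K B B]
    (h : Sat K S B) (φ : A →ₙₐ[K] B) (hφ : Function.Injective φ) : Sat K S A := by
  intro f hf v
  apply hφ
  rw [lift_comp, h f hf, map_zero]

noncomputable def TI (K : Type) [CommRing K] (S : Set (FreeNonUnitalNonAssocAlgebra K ℕ))
    (X : Type) : Idl K (FreeNonUnitalNonAssocAlgebra K X) where
  I := { carrier := {f | ∀ (B : Type) [NonUnitalNonAssocRing B] [Module K B] [IsScalarTower K B B]
           [SMulCommClass K B B], Sat K S B → ∀ v : X → B, lift K v f = 0}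
         add_mem' := by
           intro a b ha hb B _ _ _ _ hB v
           rw [map_add, ha B hB v, hb B hB v, add_zero]
         zero_mem' := by
           intro B _ _ _ _ hB v
           rw [map_zero]
         smul_mem' := by
           intro c a ha B _ _ _ _ hB v
           rw [map_smul, ha B hB v, smul_zero] }
  l := by
    intro a b hb B _ _ _ _ hB v
    rw [map_mul, hb B hB v, mul_zero]
  r := by
    intro a b ha B _ _ _ _ hB v
    rw [map_mul, ha B hB v, zero_mul]

theorem free_isFree (K : Type) [CommRing K] (S : Set (FreeNonUnitalNonAssocAlgebra K ℕ))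
    (X : Type) : IsFree K S (Quo (TI K S X)) (fun i => mkH (TI K S X) (of K i)) := by
  constructor
  · intro f hf v
    choose w hw using fun i => mkH_surj (TI K S X) (v i)
    have : v = fun i => mkH (TI K S X) (w i) := funext fun i => (hw i).symm
    rw [this, ← lift_comp, mkH_eq_zero]
    intro B _ _ _ _ hB v'
    rw [lift_comp, hB f hf]
  · intro B _ _ _ _ hB v
    refine ⟨liftH (TI K S X) (lift K v) (fun a ha => ha B hB v), fun i => ?_, fun ψ hψ => ?_⟩
    · rw [liftH_mk]; simp
    · have : ψ.comp (mkH (TI K S X)) = lift K v := by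
        apply hom_ext; intro i; simpa using hψ i
      apply NonUnitalAlgHom.ext
      intro a
      obtain ⟨a, rfl⟩ := mkH_surj (TI K S X) a
      rw [liftH_mk, ← this]; rfl

end Pool.Agent.FreeVar
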