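import Pool.Agent.Lib.helper24.ExpSum

set_option autoImplicit false

/-! Unit norm tight frames in finite-dimensional normed spaces. -/

namespace Pool.Agent.Lib.helper24.Funtf

open Filter Topology Module Pool.Agent.Lib.helper24.ExpSum

variable {𝕜 : Type*} [RCLike 𝕜] {X : Type*} [NormedAddCommGroup X] [NormedSpace 𝕜 X]
  {n N : ℕ}

theorem continuous_det (b : Basis (Fin n) 𝕜 X) : Continuous fun v : Fin n → X => b.det v := by
  have : FiniteDimensional 𝕜 X := Module.Finite.of_basis b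
  simp only [Basis.det_apply]
  refine Continuous.matrix_det (continuous_matrix fun i j => ?_)
  exact (b.coord i).continuous_of_finiteDimensional.comp (continuous_apply j)

noncomputable def cdet (b : Basis (Fin n) 𝕜 X) :
    ContinuousMultilinearMap 𝕜 (fun _ : Fin n => X) 𝕜 :=
  { b.det.toMultilinearMap with cont := continuous_det b }

theorem hasDerivAt_det (b : Basis (Fin n) 𝕜 X) (v u : Fin n → X) :
    HasDerivAt (fun s : ℝ => b.det (v + (s : 𝕜) • u))
      (∑ k, b.det (Function.update v k (u k))) 0 := by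
  have h1 : HasDerivAt (fun z : 𝕜 => v + z • u) u ((0 : ℝ) : 𝕜) := by
    simpa using ((hasDerivAt_id ((0 : ℝ) : 𝕜)).smul_const u).const_add v
  have h2 := ((cdet b).hasFDerivAt (v + ((0 : ℝ) : 𝕜) • u)).comp_hasDerivAt _ h1
  have h3 : HasDerivAt (fun s : ℝ => (s : 𝕜)) 1 0 := by
    simpa using (RCLike.ofRealCLM (K := 𝕜)).hasDerivAt (x := 0)
  have h4 := HasDerivAt.comp (h₂ := (cdet b) ∘ fun z : 𝕜 => v + z • u) (0 : ℝ) h2 h3
  refine h4.congr_deriv ?_
  rw [ContinuousMultilinearMap.linearDeriv_apply]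
  simp [cdet]
  rfl

theorem hasDerivAt_normSq {g : ℝ → 𝕜} {g' : 𝕜} (h : HasDerivAt g g' 0) :
    HasDerivAt (fun s => ‖g s‖ ^ 2) (2 * RCLike.re (starRingEnd 𝕜 (g 0) * g')) 0 := by
  have h1 := (RCLike.reCLM (K := 𝕜)).hasFDerivAt.comp_hasDerivAt _ h
  have h2 := (RCLike.imCLM (K := 𝕜)).hasFDerivAt.comp_hasDerivAt _ h
  have h3 := (h1.fun_mul h1).fun_add (h2.fun_mul h2)
  have e : (fun s => ‖g s‖ ^ 2) = fun s => (RCLike.reCLM ∘ g) s * (RCLike.reCLM ∘ g) s +
      (RCLike.imCLM ∘ g) s * (RCLike.imCLM ∘ g) s := by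
    funext s; simp [RCLike.norm_sq_eq_def]
  rw [e]
  refine h3.congr_deriv ?_
  simp; ring

theorem cramer (b : Basis (Fin n) 𝕜 X) (v : Fin n → X) (y : X) :
    ∑ k, (starRingEnd 𝕜 (b.det v) * b.det (Function.update v k y)) • v k =
      ((‖b.det v‖ ^ 2 : ℝ) : 𝕜) • y := by
  by_cases h0 : b.det v = 0
  · simp [h0]
  obtain ⟨hli, hsp⟩ := b.is_basis_iff_det.mpr (IsUnit.mk0 _ h0)
  have h1 : ∀ k, b.det (Function.update v k y) = b.det v * (Basis.mk hli hsp.ge).repr y k := by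
    intro k
    have := LinearMap.congr_fun (b.det_smul_mk_coord_eq_det_update hli hsp.ge k) y
    simpa using this.symm
  have h2 := (Basis.mk hli hsp.ge).sum_repr y
  simp only [h1, ← mul_assoc, RCLike.conj_mul, mul_smul, ← Finset.smul_sum]
  simp only [Basis.coe_mk] at h2
  rw [h2]; push_cast; rfl

/-- multiplicity of `i` in `f` -/
noncomputable def mult (f : Fin n → Fin N) (i : Fin N) : ℝ := ∑ k, if f k = i then 1 else 0

noncomputable def beta (c : ℝ) (f : Fin n → Fin N) (i : Fin N) : ℝ := mult f i - c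

noncomputable def aa (b : Basis (Fin n) 𝕜 X) (x : Fin N → X) (f : Fin n → Fin N) : ℝ :=
  ‖b.det (x ∘ f)‖ ^ 2

theorem aa_nonneg (b : Basis (Fin n) 𝕜 X) (x : Fin N → X) (f : Fin n → Fin N) : 0 ≤ aa b x f :=
  sq_nonneg _

theorem continuous_aa (b : Basis (Fin n) 𝕜 X) (f : Fin n → Fin N) :
    Continuous fun x : Fin N → X => aa b x f := by
  refine ((continuous_det b).comp (continuous_pi fun k => continuous_apply (f k))).norm.pow 2

noncomputable def psi (b : Basis (Fin n) 𝕜 X) (x : Fin N → X) (w : (Fin n → Fin N) → ℝ)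
    (i : Fin N) : X →ₗ[𝕜] 𝕜 :=
  ∑ f : Fin n → Fin N, ∑ k, if f k = i then
    ((w f : 𝕜) * starRingEnd 𝕜 (b.det (x ∘ f))) • b.det.toMultilinearMap.toLinearMap (x ∘ f) k
    else 0

theorem psi_apply (b : Basis (Fin n) 𝕜 X) (x : Fin N → X) (w : (Fin n → Fin N) → ℝ)
    (i : Fin N) (y : X) : psi b x w i y = ∑ f : Fin n → Fin N, ∑ k, if f k = i then
      (w f : 𝕜) * (starRingEnd 𝕜 (b.det (x ∘ f)) * b.det (Function.update (x ∘ f) k y))
      else 0 := by
  simp only [psi, LinearMap.sum_apply]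
  refine Finset.sum_congr rfl fun f _ => Finset.sum_congr rfl fun k _ => ?_
  split_ifs <;> simp [mul_assoc]

theorem psi_self (b : Basis (Fin n) 𝕜 X) (x : Fin N → X) (w : (Fin n → Fin N) → ℝ)
    (i : Fin N) : psi b x w i (x i) = ((∑ f, aa b x f * w f * mult f i : ℝ) : 𝕜) := by
  rw [psi_apply]
  push_cast
  refine Finset.sum_congr rfl fun f _ => ?_
  rw [mult]
  push_cast
  rw [Finset.mul_sum]
  refine Finset.sum_congr rfl fun k _ => ?_
  split_ifs with h
  · have : Function.update (x ∘ f) k (x i) = x ∘ f := by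
      rw [← h]; exact Function.update_eq_self k (x ∘ f)
    rw [this, RCLike.conj_mul, aa]; push_cast; ring
  · simp

theorem psi_sum (b : Basis (Fin n) 𝕜 X) (x : Fin N → X) (w : (Fin n → Fin N) → ℝ) (y : X) :
    ∑ i, psi b x w i y • x i = ((∑ f, aa b x f * w f : ℝ) : 𝕜) • y := by
  simp only [psi_apply, Finset.sum_smul]
  rw [Finset.sum_comm]
  push_cast
  rw [Finset.sum_smul]
  refine Finset.sum_congr rfl fun f _ => ?_
  rw [Finset.sum_comm]
  have : ∀ k, (∑ i, (if f k = i then (w f : 𝕜) * (starRingEnd 𝕜 (b.det (x ∘ f)) *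
      b.det (Function.update (x ∘ f) k y)) else 0) • x i) =
      (w f : 𝕜) • ((starRingEnd 𝕜 (b.det (x ∘ f)) *
        b.det (Function.update (x ∘ f) k y)) • (x ∘ f) k) := by
    intro k
    rw [Finset.sum_eq_single (f k)]
    · simp [mul_smul]
    · intro j _ hj; simp [Ne.symm hj]
    · simp
  simp only [this]
  rw [← Finset.smul_sum, cramer, smul_smul, aa, mul_comm]

theorem hasDerivAt_aa (b : Basis (Fin n) 𝕜 X) (x : Fin N → X) (i : Fin N) (d : X)
    (f : Fin n → Fin N) :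
    HasDerivAt (fun s : ℝ => aa b (Function.update x i (x i + (s : 𝕜) • d)) f)
      (2 * RCLike.re (∑ k, if f k = i then
        starRingEnd 𝕜 (b.det (x ∘ f)) * b.det (Function.update (x ∘ f) k d) else 0)) 0 := by
  have h := hasDerivAt_normSq (hasDerivAt_det b (x ∘ f) fun k => if f k = i then d else 0)
  have e : ∀ s : ℝ, Function.update x i (x i + (s : 𝕜) • d) ∘ f =
      x ∘ f + (s : 𝕜) • fun k => if f k = i then d else 0 := by
    intro s
    funext k
    by_cases hk : f k = i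
    · simp [hk]
    · simp [hk]
  simp only [aa, e]
  refine h.congr_deriv ?_
  congr 2
  rw [Finset.mul_sum]
  refine Finset.sum_congr rfl fun k _ => ?_
  split_ifs with hk
  · simp
  · simp

theorem sum_mult (f : Fin n → Fin N) (t : Fin N → ℝ) : ∑ i, mult f i * t i = ∑ k, t (f k) := by
  simp only [mult, Finset.sum_mul]
  rw [Finset.sum_comm]
  simp

theorem exists_generic (b : Basis (Fin n) 𝕜 X) (hn : 0 < n) (hN : n ≤ N) :
    ∃ x : Fin N → X, (∀ i, ‖x i‖ ≤ 1) ∧ ∃ m : ℝ, 0 < m ∧ ∀ ε : ℝ, 0 ≤ ε → ∀ t,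
      m ≤ Phi (beta ((n : ℝ) / N)) ε (aa b x) t := by
  have : NeZero N := ⟨by omega⟩
  let y : Fin N → X := fun i => ∑ k : Fin n, ((i : ℕ) : 𝕜) ^ (k : ℕ) • b k
  obtain ⟨R, hR⟩ : ∃ R : ℝ, 0 < R ∧ ∀ i, ‖y i‖ ≤ R :=
    ⟨‖y‖ + 1, by positivity, fun i => (norm_le_pi_norm y i).trans (by linarith)⟩
  let x : Fin N → X := fun i => ((R⁻¹ : ℝ) : 𝕜) • y i
  have hx : ∀ f : Fin n → Fin N, Function.Injective f → 0 < aa b x f := by
    intro f hf
    have h1 : b.det (y ∘ f) ≠ 0 := by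
      have : b.toMatrix (y ∘ f) = (Matrix.vandermonde fun k => (((f k : ℕ)) : 𝕜)).transpose := by
        ext i j
        simp [Basis.toMatrix_apply, y, Matrix.vandermonde, Finsupp.single_apply]
      rw [Basis.det_apply, this, Matrix.det_transpose, Matrix.det_vandermonde_ne_zero_iff]
      intro i j hij
      exact hf (Fin.ext (Nat.cast_injective (R := 𝕜) hij))
    have h2 : b.det (x ∘ f) = ((R⁻¹ : ℝ) : 𝕜) ^ n * b.det (y ∘ f) := by
      have := b.det.map_smul_univ (fun _ => ((R⁻¹ : ℝ) : 𝕜)) (y ∘ f)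
      rw [Finset.prod_const, Finset.card_univ, Fintype.card_fin] at this
      exact this
    have h3 : ((R⁻¹ : ℝ) : 𝕜) ≠ 0 := by exact_mod_cast (inv_pos.mpr hR.1).ne'
    rw [aa, h2]
    exact pow_pos (norm_pos_iff.mpr (mul_ne_zero (pow_ne_zero _ h3) h1)) 2
  let F : Fin N → Fin n → Fin N := fun j k => j + Fin.castLE hN k
  have hF : ∀ j, Function.Injective (F j) := fun j k l h =>
    Fin.castLE_injective hN (add_left_cancel h)
  obtain ⟨j₀, -, hj₀⟩ := Finset.exists_min_image Finset.univ (fun j => aa b x (F j))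
    Finset.univ_nonempty
  refine ⟨x, fun i => ?_, aa b x (F j₀), hx _ (hF j₀), fun ε hε t => ?_⟩
  · simp only [x, norm_smul, RCLike.norm_ofReal, abs_of_pos (inv_pos.mpr hR.1)]
    rw [inv_mul_le_iff₀ hR.1]; simpa using hR.2 i
  · have h1 : ∑ j : Fin N, (n : ℝ) / N * ∑ i, t i ≤ ∑ j : Fin N, ∑ k, t (F j k) := by
      rw [Finset.sum_comm (f := fun j k => t (F j k))]
      have : ∀ k : Fin n, ∑ j : Fin N, t (F j k) = ∑ i, t i := fun k =>
        Equiv.sum_comp (Equiv.addRight (Fin.castLE hN k)) t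
      simp only [this, Finset.sum_const, Finset.card_univ, Fintype.card_fin, nsmul_eq_mul]
      have : (N : ℝ) ≠ 0 := by exact_mod_cast NeZero.ne N
      rw [← mul_assoc, mul_div_cancel₀ _ this]
    obtain ⟨j, -, hj⟩ := Finset.exists_le_of_sum_le Finset.univ_nonempty h1
    refine le_trans ?_ (Finset.single_le_sum
      (f := fun f => aa b x f * W (beta ((n : ℝ) / N) f) ε t)
      (fun g _ => mul_nonneg (aa_nonneg _ _ _) (W_pos _ _ _).le) (Finset.mem_univ (F j)))
    refine (hj₀ j (Finset.mem_univ _)).trans (le_mul_of_one_le_right (aa_nonneg _ _ _) ?_)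
    refine Real.one_le_exp ?_
    simp only [beta, sub_mul, Finset.sum_add_distrib, Finset.sum_sub_distrib, sum_mult,
      ← Finset.mul_sum]
    have : 0 ≤ ε * ∑ i, t i ^ 2 := mul_nonneg hε (Finset.sum_nonneg fun i _ => sq_nonneg _)
    linarith

theorem approx (b : Basis (Fin n) 𝕜 X) (hn : 0 < n) (hN : n ≤ N) (δ : ℝ) (hδ : 0 < δ) :
    ∃ (x : Fin N → X) (φ : Fin N → X →L[𝕜] 𝕜) (w : Fin N → ℝ),
      (∀ i, ‖x i‖ ≤ 1 ∧ ‖φ i‖ ≤ 1 ∧ φ i (x i) = 1 ∧ |w i - (n : ℝ) / N| ≤ δ) ∧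
      ∀ y, ∑ i, ((w i : 𝕜) * φ i y) • x i = y := by
  have : FiniteDimensional 𝕜 X := Module.Finite.of_basis b
  have : ProperSpace X := FiniteDimensional.proper_rclike 𝕜 X
  obtain ⟨c, hc⟩ : ∃ c : ℝ, c = (n : ℝ) / N := ⟨_, rfl⟩
  have hc0 : 0 < c := by
    rw [hc]; exact div_pos (by exact_mod_cast hn) (by exact_mod_cast hn.trans_le hN)
  obtain ⟨xg, hxg, m, hm, hgen⟩ := exists_generic b hn hN
  rw [← hc] at hgen ⊢
  wlog hδc : δ < c generalizing δ
  · obtain ⟨x, φ, w, h1, h2⟩ := this (c / 2) (by linarith) (by linarith)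
    exact ⟨x, φ, w, fun i => ⟨(h1 i).1, (h1 i).2.1, (h1 i).2.2.1,
      (h1 i).2.2.2.trans (by linarith)⟩, h2⟩
  have hK : IsCompact (Metric.closedBall (0 : Fin N → X) 1) := isCompact_closedBall _ _
  have hmem : ∀ x : Fin N → X, x ∈ Metric.closedBall (0 : Fin N → X) 1 ↔ ∀ i, ‖x i‖ ≤ 1 := by
    intro x; rw [mem_closedBall_zero_iff, pi_norm_le_iff_of_nonneg zero_le_one]
  obtain ⟨C, hC⟩ : ∃ C : ℝ, ∀ x ∈ Metric.closedBall (0 : Fin N → X) 1,
      ∑ f : Fin n → Fin N, aa b x f ≤ C := by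
    obtain ⟨C, hC⟩ := hK.bddAbove_image
      (continuous_finsetSum Finset.univ fun f _ => continuous_aa (N := N) b f).continuousOn
    exact ⟨C, fun x hx => hC ⟨x, hx, rfl⟩⟩
  obtain ⟨L, hL⟩ : ∃ L : ℝ, L = |C / m| + 1 := ⟨_, rfl⟩
  have hL0 : 0 < L := by rw [hL]; positivity
  obtain ⟨ε, hε⟩ : ∃ ε : ℝ, ε = δ ^ 2 / (8 * L) := ⟨_, rfl⟩
  have hε0 : 0 < ε := by rw [hε]; positivity
  have hbdd : ∀ x : Fin N → X, BddBelow (Set.range fun t => Phi (beta c) ε (aa b x) t) :=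
    fun x => ⟨0, by rintro _ ⟨t, rfl⟩; exact Phi_nonneg _ _ (aa_nonneg b x) t⟩
  have husc : UpperSemicontinuous fun x : Fin N → X => ⨅ t, Phi (beta c) ε (aa b x) t := by
    refine upperSemicontinuous_ciInf hbdd fun t => Continuous.upperSemicontinuous ?_
    exact continuous_finsetSum _ fun f _ => (continuous_aa b f).mul continuous_const
  obtain ⟨x, hxK, hx⟩ := (husc.upperSemicontinuousOn _).exists_isMaxOn
    ⟨0, Metric.mem_closedBall_self zero_le_one⟩ hK
  have hinf : ∀ x' : Fin N → X, ∃ t₀, (∀ t, Phi (beta c) ε (aa b x') t₀ ≤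
      Phi (beta c) ε (aa b x') t) ∧
      ⨅ t, Phi (beta c) ε (aa b x') t = Phi (beta c) ε (aa b x') t₀ := by
    intro x'
    obtain ⟨t₀, ht₀⟩ := exists_min (beta c) hε0 (aa_nonneg b x')
    exact ⟨t₀, ht₀, le_antisymm (ciInf_le (hbdd x') t₀) (le_ciInf ht₀)⟩
  obtain ⟨t₀, ht₀, et₀⟩ := hinf x
  obtain ⟨P, hP⟩ : ∃ P, P = Phi (beta c) ε (aa b x) t₀ := ⟨_, rfl⟩
  have hmP : m ≤ P := by
    have h1 : ⨅ t, Phi (beta c) ε (aa b xg) t ≤ ⨅ t, Phi (beta c) ε (aa b x) t :=
      hx ((hmem xg).mpr hxg)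
    rw [hP, ← et₀]
    exact (le_ciInf (hgen ε hε0.le)).trans h1
  have hP0 : 0 < P := hm.trans_le hmP
  have hsmall : ∀ i, |2 * ε * t₀ i| ≤ δ := by
    intro i
    have h1 := close_of_le (beta c) (aa_nonneg b x) t₀ ht₀ (hP ▸ hP0) 0
    have h2 : Phi (beta c) ε (aa b x) 0 ≤ C := by simpa [Phi, W] using hC x hxK
    have h3 := Real.add_one_le_exp (ε / 2 * ∑ i, ((0 : Fin N → ℝ) i - t₀ i) ^ 2)
    have h4 : ((0 : Fin N → ℝ) i - t₀ i) ^ 2 ≤ ∑ i, ((0 : Fin N → ℝ) i - t₀ i) ^ 2 :=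
      Finset.single_le_sum (f := fun i => ((0 : Fin N → ℝ) i - t₀ i) ^ 2)
        (fun j _ => sq_nonneg _) (Finset.mem_univ i)
    rw [← hP] at h1
    have h5 : Real.exp (ε / 2 * ∑ i, ((0 : Fin N → ℝ) i - t₀ i) ^ 2) ≤ C / m := by
      rw [le_div_iff₀ hm]
      have := mul_le_mul_of_nonneg_right hmP
        (Real.exp_pos (ε / 2 * ∑ i, ((0 : Fin N → ℝ) i - t₀ i) ^ 2)).le
      linarith
    have h6 : ε / 2 * t₀ i ^ 2 ≤ L := by
      have := mul_le_mul_of_nonneg_left h4 (by positivity : 0 ≤ ε / 2)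
      have e : ((0 : Fin N → ℝ) i - t₀ i) ^ 2 = t₀ i ^ 2 := by simp
      rw [e] at this
      linarith [le_abs_self (C / m)]
    refine abs_le_of_sq_le_sq' ?_ hδ.le |> abs_le.mpr
    have h7 : 8 * ε * L = δ ^ 2 := by rw [hε]; field_simp
    nlinarith
  let wt : (Fin n → Fin N) → ℝ := fun f => W (beta c f) ε t₀
  have hmu : ∀ i, ∑ f, aa b x f * wt f * mult f i = (c - 2 * ε * t₀ i) * P := by
    intro i
    have h1 := stationary (beta c) ε (aa b x) t₀ ht₀ i
    rw [hP, Phi, Finset.mul_sum, ← sub_eq_zero, ← Finset.sum_sub_distrib, ← h1]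
    exact Finset.sum_congr rfl fun f _ => by simp only [wt, beta]; ring
  have hw : ∀ i, 0 < c - 2 * ε * t₀ i := fun i => by
    linarith [le_abs_self (2 * ε * t₀ i), hsmall i]
  have hre : ∀ i y, ‖y‖ ≤ 1 → RCLike.re (psi b x wt i y) ≤ (c - 2 * ε * t₀ i) * P := by
    intro i y hy
    have e0 : Function.update x i (x i + (((0 : ℝ) : ℝ) : 𝕜) • (y - x i)) = x := by simp
    have h1 := envelope (beta c) hε0
      (fun s : ℝ => aa b (Function.update x i (x i + (s : 𝕜) • (y - x i)))) _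
      (fun s f => aa_nonneg _ _ _) (hasDerivAt_aa b x i (y - x i)) t₀
      (by simpa only [e0] using ht₀) (by simpa only [e0, ← hP] using hP0) (by
        intro s hs
        obtain ⟨t, -, et⟩ := hinf (Function.update x i (x i + (s : 𝕜) • (y - x i)))
        refine ⟨t, ?_⟩
        simp only [e0]
        rw [← et, ← et₀]
        refine hx ((hmem _).mpr fun j => ?_)
        by_cases hj : j = i
        · subst hj
          rw [Function.update_self]
          have e : x j + (s : 𝕜) • (y - x j) = ((1 - s : ℝ) : 𝕜) • x j + (s : 𝕜) • y := by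
            push_cast; module
          rw [e]
          refine (norm_add_le _ _).trans ?_
          rw [norm_smul, norm_smul, RCLike.norm_ofReal, RCLike.norm_ofReal,
            abs_of_pos hs.1, abs_of_pos (by linarith [hs.2])]
          have := (hmem x).mp hxK j
          nlinarith [hs.1, hs.2]
        · rw [Function.update_of_ne hj]; exact (hmem x).mp hxK j)
    have h2 : RCLike.re (psi b x wt i (y - x i)) ≤ 0 := by
      rw [psi_apply, map_sum]
      have : ∀ f : Fin n → Fin N, RCLike.re (∑ k, if f k = i then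
          (wt f : 𝕜) * (starRingEnd 𝕜 (b.det (x ∘ f)) *
            b.det (Function.update (x ∘ f) k (y - x i))) else 0) =
          (1 / 2) * (2 * RCLike.re (∑ k, if f k = i then
            starRingEnd 𝕜 (b.det (x ∘ f)) * b.det (Function.update (x ∘ f) k (y - x i))
            else 0) * W (beta c f) ε t₀) := by
        intro f
        have : (∑ k, if f k = i then (wt f : 𝕜) * (starRingEnd 𝕜 (b.det (x ∘ f)) *
            b.det (Function.update (x ∘ f) k (y - x i))) else 0) = (wt f : 𝕜) *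
            (∑ k, if f k = i then starRingEnd 𝕜 (b.det (x ∘ f)) *
              b.det (Function.update (x ∘ f) k (y - x i)) else 0) := by
          rw [Finset.mul_sum]
          exact Finset.sum_congr rfl fun k _ => by split_ifs <;> simp
        rw [this, RCLike.re_ofReal_mul]
        simp only [wt]; ring
      simp only [this]
      rw [← Finset.mul_sum]
      linarith
    rw [map_sub, map_sub, psi_self, hmu, RCLike.ofReal_re] at h2
    linarith
  have hnorm : ∀ i y, ‖y‖ ≤ 1 → ‖psi b x wt i y‖ ≤ (c - 2 * ε * t₀ i) * P := by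
    intro i y hy
    obtain ⟨u, hu, e⟩ := RCLike.exists_norm_eq_mul_self (psi b x wt i y)
    have := hre i (u • y) (by rw [norm_smul, hu, one_mul]; exact hy)
    rwa [map_smul, smul_eq_mul, ← e, RCLike.ofReal_re] at this
  have hne : ∀ i, (((c - 2 * ε * t₀ i) * P : ℝ) : 𝕜) ≠ 0 := fun i => by
    exact_mod_cast (mul_pos (hw i) hP0).ne'
  refine ⟨x, fun i => LinearMap.toContinuousLinearMap
    ((((c - 2 * ε * t₀ i) * P : ℝ) : 𝕜)⁻¹ • psi b x wt i), fun i => c - 2 * ε * t₀ i,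
    fun i => ⟨(hmem x).mp hxK i, ?_, ?_, by simpa using hsmall i⟩, fun y => ?_⟩
  · refine ContinuousLinearMap.opNorm_le_of_unit_norm zero_le_one fun y hy => ?_
    simp only [LinearMap.coe_toContinuousLinearMap', LinearMap.smul_apply, norm_smul, norm_inv,
      RCLike.norm_ofReal, abs_of_pos (mul_pos (hw i) hP0)]
    rw [inv_mul_le_iff₀ (mul_pos (hw i) hP0), mul_one]
    exact hnorm i y hy.le
  · simp only [LinearMap.coe_toContinuousLinearMap', LinearMap.smul_apply, psi_self, hmu,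
      smul_eq_mul]
    exact inv_mul_cancel₀ (hne i)
  · have h1 := psi_sum b x wt y
    have h2 : ∑ f, aa b x f * wt f = P := by rw [hP]; rfl
    have hP' : (P : 𝕜) ≠ 0 := by exact_mod_cast hP0.ne'
    rw [h2] at h1
    have h3 : ∀ i, (((c - 2 * ε * t₀ i : ℝ) : 𝕜) * (LinearMap.toContinuousLinearMap
        ((((c - 2 * ε * t₀ i) * P : ℝ) : 𝕜)⁻¹ • psi b x wt i)) y) • x i =
        (P : 𝕜)⁻¹ • (psi b x wt i y • x i) := by
      intro i
      have h4 : ((c - 2 * ε * t₀ i : ℝ) : 𝕜) ≠ 0 := by exact_mod_cast (hw i).ne'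
      simp only [LinearMap.coe_toContinuousLinearMap', LinearMap.smul_apply, smul_eq_mul,
        smul_smul]
      congr 1
      rw [RCLike.ofReal_mul]
      field_simp
    simp only [h3]
    rw [← Finset.smul_sum, h1, smul_smul, inv_mul_cancel₀ hP', one_smul]

theorem exists_funtf (b : Basis (Fin n) 𝕜 X) (hn : 0 < n) (hN : n ≤ N) :
    ∃ (x : Fin N → X) (φ : Fin N → X →L[𝕜] 𝕜),
      (∀ i, ‖x i‖ ≤ 1 ∧ ‖φ i‖ ≤ 1 ∧ φ i (x i) = 1) ∧
      ∀ y, ∑ i, ((((n : ℝ) / N : ℝ) : 𝕜) * φ i y) • x i = y := by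
  have : FiniteDimensional 𝕜 X := Module.Finite.of_basis b
  have : ProperSpace X := FiniteDimensional.proper_rclike 𝕜 X
  have : ProperSpace (X →L[𝕜] 𝕜) := FiniteDimensional.proper_rclike 𝕜 _
  obtain ⟨c, hc⟩ : ∃ c : ℝ, c = (n : ℝ) / N := ⟨_, rfl⟩
  have happ := approx b hn hN
  rw [← hc] at happ ⊢
  let K : Set ((Fin N → X) × (Fin N → X →L[𝕜] 𝕜)) :=
    (Metric.closedBall 0 1 ×ˢ Metric.closedBall 0 1) ∩ ⋂ i, {p | p.2 i (p.1 i) = 1}
  have hK : IsCompact K := by
    refine ((isCompact_closedBall _ _).prod (isCompact_closedBall _ _)).inter_right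
      (isClosed_iInter fun i => isClosed_eq ?_ continuous_const)
    fun_prop
  have hmem : ∀ p, p ∈ K ↔ ∀ i, ‖p.1 i‖ ≤ 1 ∧ ‖p.2 i‖ ≤ 1 ∧ p.2 i (p.1 i) = 1 := by
    intro p
    simp only [K, Set.mem_inter_iff, Set.mem_prod, mem_closedBall_zero_iff,
      pi_norm_le_iff_of_nonneg zero_le_one, Set.mem_iInter, Set.mem_ofPred_eq, forall_and,
      and_assoc]
  let Ψ : (Fin N → X) × (Fin N → X →L[𝕜] 𝕜) → ℝ := fun p =>
    ∑ j, ‖∑ i, ((c : 𝕜) * p.2 i (b j)) • p.1 i - b j‖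
  have hΨ : Continuous Ψ := by fun_prop
  have hne : K.Nonempty := by
    obtain ⟨x, φ, w, h1, -⟩ := happ 1 one_pos
    exact ⟨(x, φ), (hmem _).mpr fun i => ⟨(h1 i).1, (h1 i).2.1, (h1 i).2.2.1⟩⟩
  obtain ⟨p, hpK, hp⟩ := hK.exists_isMinOn hne hΨ.continuousOn
  obtain ⟨B, hB⟩ : ∃ B : ℝ, B = ∑ j : Fin n, ∑ _i : Fin N, ‖b j‖ := ⟨_, rfl⟩
  have hB0 : 0 ≤ B := by rw [hB]; positivity
  have h0 : Ψ p ≤ 0 := by
    refine le_of_forall_pos_le_add fun η hη => ?_
    obtain ⟨x, φ, w, h1, h2⟩ := happ (η / (B + 1)) (by positivity)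
    have h3 : Ψ p ≤ Ψ (x, φ) :=
      hp ((hmem (x, φ)).mpr fun i => ⟨(h1 i).1, (h1 i).2.1, (h1 i).2.2.1⟩)
    have h4 : Ψ (x, φ) ≤ η / (B + 1) * B := by
      rw [hB, Finset.mul_sum]
      refine Finset.sum_le_sum fun j _ => ?_
      rw [← hB, Finset.mul_sum]
      conv_lhs => rw [← h2 (b j)]
      simp only [h2]
      have e : ∑ i, ((c : 𝕜) * φ i (b j)) • x i - b j =
          ∑ i, (((c - w i : ℝ) : 𝕜) * φ i (b j)) • x i := by
        conv_lhs => rw [← h2 (b j)]
        simp only [h2]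
        nth_rewrite 2 [← h2 (b j)]
        rw [← Finset.sum_sub_distrib]
        exact Finset.sum_congr rfl fun i _ => by push_cast; module
      rw [e]
      refine (norm_sum_le _ _).trans (Finset.sum_le_sum fun i _ => ?_)
      rw [norm_smul, norm_mul, RCLike.norm_ofReal, abs_sub_comm]
      have h5 : ‖φ i (b j)‖ ≤ ‖b j‖ :=
        ((φ i).le_opNorm _).trans (mul_le_of_le_one_left (norm_nonneg _) (h1 i).2.1)
      calc |w i - c| * ‖φ i (b j)‖ * ‖x i‖ ≤ η / (B + 1) * ‖b j‖ * 1 := by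
            gcongr
            · exact (h1 i).2.2.2
            · exact (h1 i).1
        _ = _ := mul_one _
    have h5 : η / (B + 1) * B ≤ η := by
      rw [div_mul_eq_mul_div, div_le_iff₀ (by positivity)]; nlinarith
    linarith
  refine ⟨p.1, p.2, (hmem p).mp hpK, fun y => ?_⟩
  have h1 : ∀ j, ∑ i, ((c : 𝕜) * p.2 i (b j)) • p.1 i = b j := by
    intro j
    have := (Finset.sum_eq_zero_iff_of_nonneg fun j _ => norm_nonneg _).mp
      (le_antisymm h0 (Finset.sum_nonneg fun j _ => norm_nonneg _)) j (Finset.mem_univ j)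
    exact sub_eq_zero.mp (norm_eq_zero.mp this)
  have h2 : (∑ i, ((c : 𝕜) • (p.2 i : X →ₗ[𝕜] 𝕜)).smulRight (p.1 i)) = LinearMap.id :=
    b.ext fun j => by
      rw [LinearMap.sum_apply]; exact h1 j
  have h3 := LinearMap.congr_fun h2 y
  rw [LinearMap.sum_apply] at h3
  exact h3

end Pool.Agent.Lib.helper24.Funtf
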