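import Mathlib

set_option autoImplicit false

/-!
GKK matrices, omega- and tau-matrices: definitions and certificates.
-/

namespace Pool.Agent.Lib.helper24.GKK

open Matrix

/-- The principal submatrix `A(α)`. -/
def psub {n : ℕ} (A : Matrix (Fin n) (Fin n) ℂ) (α : Finset (Fin n)) : Matrix α α ℂ :=
  A.submatrix Subtype.val Subtype.val

/-- `A` is a P-matrix: every principal minor is real and positive. -/
def IsP {n : ℕ} (A : Matrix (Fin n) (Fin n) ℂ) : Prop :=
  ∀ α : Finset (Fin n), α.Nonempty → (psub A α).det.im = 0 ∧ 0 < (psub A α).det.re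

/-- Condition `(S_d)`: `A[α,β] A[β,α]` is real and nonnegative for all increasing index sequences
`α, β` of equal length `k` and dispersal `k - #(α ∩ β) ≤ d`. -/
def SignSymUpTo {n : ℕ} (d : ℕ) (A : Matrix (Fin n) (Fin n) ℂ) : Prop :=
  ∀ (k : ℕ) (r c : Fin k → Fin n), StrictMono r → StrictMono c →
    k ≤ (Finset.univ.image r ∩ Finset.univ.image c).card + d →
    ((A.submatrix r c).det * (A.submatrix c r).det).im = 0 ∧
      0 ≤ ((A.submatrix r c).det * (A.submatrix c r).det).re

/-- Weak sign symmetry: `A[α,β] A[β,α]` is real and nonnegative for all almost principal minors. -/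
def WeakSignSym {n : ℕ} (A : Matrix (Fin n) (Fin n) ℂ) : Prop :=
  ∀ (k : ℕ) (r c : Fin k → Fin n), StrictMono r → StrictMono c →
    (Finset.univ.image r ∩ Finset.univ.image c).card + 1 = k →
    ((A.submatrix r c).det * (A.submatrix c r).det).im = 0 ∧
      0 ≤ ((A.submatrix r c).det * (A.submatrix c r).det).re

/-- Strict weak sign symmetry: `A[α,β] A[β,α]` is real and positive for all almost principal
minors. -/
def StrictWeakSignSym {n : ℕ} (A : Matrix (Fin n) (Fin n) ℂ) : Prop :=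
  ∀ (k : ℕ) (r c : Fin k → Fin n), StrictMono r → StrictMono c →
    (Finset.univ.image r ∩ Finset.univ.image c).card + 1 = k →
    ((A.submatrix r c).det * (A.submatrix c r).det).im = 0 ∧
      0 < ((A.submatrix r c).det * (A.submatrix c r).det).re

/-- `l(B)`: the least real eigenvalue of `B`, `⊤` if there is none. -/
noncomputable def lmin {ι : Type} [Fintype ι] [DecidableEq ι] (B : Matrix ι ι ℂ) : EReal :=
  sInf ((fun x : ℝ => (x : EReal)) '' {x : ℝ | (x : ℂ) ∈ spectrum ℂ B})

/-- omega-matrix: eigenvalue monotonicity. -/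
def IsOmega {n : ℕ} (A : Matrix (Fin n) (Fin n) ℂ) : Prop :=
  ∀ α β : Finset (Fin n), β.Nonempty → β ⊆ α →
    lmin (psub A α) ≤ lmin (psub A β) ∧ lmin (psub A β) < ⊤

/-- tau-matrix. -/
def IsTau {n : ℕ} (A : Matrix (Fin n) (Fin n) ℂ) : Prop :=
  IsOmega A ∧ 0 ≤ lmin A

/-- positive stability. -/
def IsStable {n : ℕ} (A : Matrix (Fin n) (Fin n) ℂ) : Prop :=
  ∀ z ∈ spectrum ℂ A, 0 < z.re

/-- The normalised sum of the principal minors of order `j`. -/
noncomputable def cc {n : ℕ} (A : Matrix (Fin n) (Fin n) ℂ) (j : ℕ) : ℂ :=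
  ((n.choose j : ℕ) : ℂ)⁻¹ * ∑ α ∈ Finset.univ.powersetCard j, (psub A α).det

/-- Varga's inequality (V). -/
def VargaIneq {n : ℕ} (A : Matrix (Fin n) (Fin n) ℂ) : Prop :=
  ∀ l : ℝ, lmin A = (l : EReal) → ∀ z ∈ spectrum ℂ A, z ≠ (l : ℂ) →
    |Complex.arg (z - (l : ℂ))| ≤ Real.pi / 2 - Real.pi / (n : ℝ)

end Pool.Agent.Lib.helper24.GKK
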