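import Pool.Agent.Lib.helper24.GKK

set_option autoImplicit false

namespace Pool.Agent.Lib.helper24.GKK

open Matrix

/-- Laplace expansion determinant, for kernel evaluation. -/
def ldet : (k : ℕ) → (Fin k → Fin k → ℚ) → ℚ
  | 0, _ => 1
  | k + 1, M => ∑ j : Fin (k + 1),
      if M 0 j = 0 then 0 else
        (-1) ^ (j : ℕ) * M 0 j * ldet k (fun a b => M a.succ (j.succAbove b))

theorem ldet_eq : ∀ (k : ℕ) (M : Matrix (Fin k) (Fin k) ℚ), ldet k M = M.det
  | 0, M => by simp [ldet]
  | k + 1, M => by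
    rw [Matrix.det_succ_row_zero]
    show (∑ j : Fin (k + 1), if M 0 j = 0 then (0 : ℚ) else
        (-1) ^ (j : ℕ) * M 0 j * ldet k (fun a b => M a.succ (j.succAbove b))) = _
    refine Finset.sum_congr rfl fun j _ => ?_
    have := ldet_eq k (M.submatrix Fin.succ j.succAbove)
    split_ifs with h
    · simp [h]
    · rw [← this]; rfl

def toC {n : ℕ} (M : Matrix (Fin n) (Fin n) ℚ) : Matrix (Fin n) (Fin n) ℂ :=
  M.map (fun q : ℚ => (q : ℂ))

def toR {n : ℕ} (M : Matrix (Fin n) (Fin n) ℚ) : Matrix (Fin n) (Fin n) ℝ :=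
  M.map (fun q : ℚ => (q : ℝ))

theorem toC_eq {n : ℕ} (M : Matrix (Fin n) (Fin n) ℚ) :
    (toR M).map (fun x : ℝ => (x : ℂ)) = toC M := by
  ext i j; simp [toR, toC]

section pw
variable {n : ℕ} {R : Type} [CommRing R]

/-- Rows in `γ` from `B - diag τ`, other rows from the identity. -/
def pw (B : Matrix (Fin n) (Fin n) R) (γ : Finset (Fin n)) (τ : Fin n → R) :
    Matrix (Fin n) (Fin n) R :=
  fun i j => if i ∈ γ then B i j - (if i = j then τ i else 0) else if i = j then 1 else 0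

theorem det_pw (B : Matrix (Fin n) (Fin n) R) (γ : Finset (Fin n)) (τ : Fin n → R) :
    (pw B γ τ).det =
      ((B - diagonal τ).submatrix (Subtype.val : γ → Fin n) (Subtype.val : γ → Fin n)).det := by
  rw [← det_piecewise_one_eq_submatrix_det]
  congr 1
  ext i j
  by_cases h : i ∈ γ <;> simp [pw, h, Finset.piecewise, Matrix.row, diagonal_apply, one_apply]

theorem det_pw_map {S : Type} [CommRing S] (f : R →+* S) (B : Matrix (Fin n) (Fin n) R)
    (γ : Finset (Fin n)) (τ : Fin n → R) :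
    f (pw B γ τ).det = (pw (B.map f) γ (fun i => f (τ i))).det := by
  rw [RingHom.map_det]
  congr 1
  ext i j
  by_cases h' : i = j
  · subst h'; by_cases h : i ∈ γ <;> simp [pw, h]
  · by_cases h : i ∈ γ <;> simp [pw, h, h']

theorem det_pw_update (B : Matrix (Fin n) (Fin n) R) (γ : Finset (Fin n)) (τ : Fin n → R)
    (i : Fin n) (hi : i ∈ γ) (s : R) :
    (pw B γ (Function.update τ i (τ i - s))).det =
      (pw B γ τ).det + s * (pw B (γ.erase i) τ).det := by
  have e1 : pw B γ (Function.update τ i (τ i - s)) =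
      (pw B γ τ).updateRow i ((pw B γ τ) i + s • (pw B (γ.erase i) τ) i) := by
    ext a b
    by_cases ha : a = i
    · subst ha
      by_cases hb : a = b
      · subst hb; simp [pw, hi]; ring
      · simp [pw, hi, hb]
    · simp [pw, ha, updateRow_ne ha, Function.update_of_ne ha]
  have e2 : (pw B γ τ).updateRow i ((pw B (γ.erase i) τ) i) = pw B (γ.erase i) τ := by
    ext a b
    by_cases ha : a = i
    · subst ha; simp
    · simp [pw, ha, updateRow_ne ha]
  rw [e1, det_updateRow_add, det_updateRow_smul, updateRow_eq_self, e2]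

theorem det_pw_update_not (B : Matrix (Fin n) (Fin n) R) (γ : Finset (Fin n)) (τ : Fin n → R)
    (i : Fin n) (hi : i ∉ γ) (s : R) :
    pw B γ (Function.update τ i s) = pw B γ τ := by
  ext a b
  by_cases ha : a ∈ γ
  · have : a ≠ i := fun h => hi (h ▸ ha)
    simp [pw, ha, Function.update_of_ne this]
  · simp [pw, ha]

theorem det_pw_empty (B : Matrix (Fin n) (Fin n) R) (τ : Fin n → R) : (pw B ∅ τ).det = 1 := by
  have : pw B ∅ τ = 1 := by ext a b; simp [pw, one_apply]
  rw [this, det_one]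

end pw

theorem pw_pos {n : ℕ} (B : Matrix (Fin n) (Fin n) ℝ) (t s : ℝ) (hs : 0 < s) (β : Finset (Fin n))
    (h : ∀ δ ⊆ β, 0 ≤ (pw B δ (fun _ => t)).det) :
    0 < (pw B β (fun _ => t - s)).det := by
  have key : ∀ S : Finset (Fin n), ∀ γ ⊆ β,
      0 ≤ (pw B γ (fun i => if i ∈ S then t - s else t)).det ∧
      (γ ⊆ S → 0 < (pw B γ (fun i => if i ∈ S then t - s else t)).det) := by
    intro S
    induction S using Finset.induction_on with
    | empty =>
      intro γ hγ
      refine ⟨by simpa using h γ hγ, fun h0 => ?_⟩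
      rw [Finset.subset_empty.mp h0, det_pw_empty]; exact one_pos
    | insert i S hi ih =>
      intro γ hγ
      have e : (fun j => if j ∈ insert i S then t - s else t) =
          Function.update (fun j => if j ∈ S then t - s else t) i
            ((fun j => if j ∈ S then t - s else t) i - s) := by
        funext j
        by_cases hj : j = i
        · subst hj; simp [hi]
        · simp [Function.update_of_ne hj, hj]
      rw [e]
      by_cases hiγ : i ∈ γ
      · rw [det_pw_update _ _ _ _ hiγ]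
        have h1 := ih γ hγ
        have h2 := ih (γ.erase i) ((Finset.erase_subset _ _).trans hγ)
        refine ⟨add_nonneg h1.1 (mul_nonneg hs.le h2.1), fun h3 => ?_⟩
        refine add_pos_of_nonneg_of_pos h1.1 (mul_pos hs (h2.2 ?_))
        intro a ha
        rw [Finset.mem_erase] at ha
        rcases Finset.mem_insert.mp (h3 ha.2) with h4 | h4
        · exact absurd h4 ha.1
        · exact h4
      · rw [det_pw_update_not _ _ _ _ hiγ]
        refine ⟨(ih γ hγ).1, fun h3 => (ih γ hγ).2 ?_⟩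
        intro a ha
        rcases Finset.mem_insert.mp (h3 ha) with h4 | h4
        · exact absurd (h4 ▸ ha) hiγ
        · exact h4
  simpa using (key Finset.univ β (Finset.Subset.refl _)).2 (Finset.subset_univ _)

theorem mem_spec_iff {ι : Type} [Fintype ι] [DecidableEq ι] (B : Matrix ι ι ℂ) (z : ℂ) :
    z ∈ spectrum ℂ B ↔ (B - diagonal (fun _ => z)).det = 0 := by
  rw [Matrix.mem_spectrum_iff_isRoot_charpoly, Polynomial.IsRoot, eval_charpoly]
  have : B - diagonal (fun _ => z) = -(Matrix.scalar ι z - B) := by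
    ext i j; simp [diagonal_apply, Matrix.scalar_apply]
  rw [this, det_neg]
  simp

theorem mem_spec_psub {n : ℕ} (A : Matrix (Fin n) (Fin n) ℂ) (γ : Finset (Fin n)) (z : ℂ) :
    z ∈ spectrum ℂ (psub A γ) ↔ (pw A γ (fun _ => z)).det = 0 := by
  rw [mem_spec_iff, det_pw]
  congr! 2
  ext i j
  by_cases h : i = j
  · subst h; simp [psub]
  · have h' : (i : Fin n) ≠ j := fun e => h (Subtype.ext e)
    simp [psub, diagonal_apply_ne _ h, diagonal_apply_ne _ h']

theorem mem_spec_univ {n : ℕ} (A : Matrix (Fin n) (Fin n) ℂ) (z : ℂ) :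
    z ∈ spectrum ℂ A ↔ (pw A Finset.univ (fun _ => z)).det = 0 := by
  rw [mem_spec_iff]
  congr! 2
  ext i j
  simp [pw, diagonal_apply]

theorem lmin_univ {n : ℕ} (A : Matrix (Fin n) (Fin n) ℂ) :
    lmin (psub A Finset.univ) = lmin A := by
  unfold lmin
  congr 2
  ext x
  simp only [Set.mem_ofPred_eq, mem_spec_psub, mem_spec_univ]

theorem det_psub {n : ℕ} (A : Matrix (Fin n) (Fin n) ℂ) (γ : Finset (Fin n)) :
    (psub A γ).det = (pw A γ (fun _ => 0)).det := by
  rw [det_pw]; simp [psub]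

theorem pw_real {n : ℕ} (B : Matrix (Fin n) (Fin n) ℝ) (γ : Finset (Fin n)) (t : ℝ) :
    (pw (B.map (fun x : ℝ => (x : ℂ))) γ (fun _ => (t : ℂ))).det =
      (((pw B γ (fun _ => t)).det : ℝ) : ℂ) :=
  (det_pw_map Complex.ofRealHom B γ (fun _ => t)).symm

theorem continuous_pw {n : ℕ} (B : Matrix (Fin n) (Fin n) ℝ) (γ : Finset (Fin n)) :
    Continuous fun t : ℝ => (pw B γ (fun _ => t)).det := by
  refine Continuous.matrix_det (continuous_matrix fun i j => ?_)
  by_cases h' : i = j
  · subst h'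
    by_cases h : i ∈ γ <;> simp only [pw, h, if_true, if_false] <;> fun_prop
  · by_cases h : i ∈ γ <;> simp only [pw, h, h', if_true, if_false] <;> fun_prop

theorem le_lmin {n : ℕ} (B : Matrix (Fin n) (Fin n) ℝ) (β : Finset (Fin n)) (t : ℝ)
    (h : ∀ δ ⊆ β, 0 ≤ (pw B δ (fun _ => t)).det) :
    (t : EReal) ≤ lmin (psub (B.map (fun x : ℝ => (x : ℂ))) β) := by
  refine le_sInf ?_
  rintro _ ⟨x, hx, rfl⟩
  rw [Set.mem_ofPred_eq, mem_spec_psub, pw_real, Complex.ofReal_eq_zero] at hx
  by_contra hlt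
  have hlt' : x < t := by simpa using hlt
  have := pw_pos B t (t - x) (by linarith) β h
  simp only [sub_sub_cancel] at this
  exact this.ne' hx

theorem lmin_le {n : ℕ} (B : Matrix (Fin n) (Fin n) ℝ) (α : Finset (Fin n)) (t : ℝ) (ht : 0 ≤ t)
    (h0 : 0 ≤ (pw B α (fun _ => 0)).det) (h1 : (pw B α (fun _ => t)).det ≤ 0) :
    lmin (psub (B.map (fun x : ℝ => (x : ℂ))) α) ≤ (t : EReal) := by
  obtain ⟨x, hx, hx0⟩ := intermediate_value_Icc' ht (continuous_pw B α).continuousOn ⟨h1, h0⟩
  refine le_trans (sInf_le ⟨x, ?_, rfl⟩) (by simpa using hx.2)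
  rw [Set.mem_ofPred_eq, mem_spec_psub, pw_real, Complex.ofReal_eq_zero]
  exact hx0

/-- rational shifted principal minor -/
def qd {n : ℕ} (M : Matrix (Fin n) (Fin n) ℚ) (γ : Finset (Fin n)) (x : ℚ) : ℚ :=
  ldet n (pw M γ (fun _ => x))

theorem qd_real {n : ℕ} (M : Matrix (Fin n) (Fin n) ℚ) (γ : Finset (Fin n)) (x : ℚ) :
    (pw (toR M) γ (fun _ => (x : ℝ))).det = ((qd M γ x : ℚ) : ℝ) := by
  rw [qd, ldet_eq]
  exact (det_pw_map (Rat.castHom ℝ) M γ (fun _ => x)).symm

theorem det_psub_toC {n : ℕ} (M : Matrix (Fin n) (Fin n) ℚ) (γ : Finset (Fin n)) :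
    (psub (toC M) γ).det = ((qd M γ 0 : ℚ) : ℂ) := by
  rw [det_psub, qd, ldet_eq]
  have := (det_pw_map (Rat.castHom ℂ) M γ (fun _ => 0)).symm
  simpa [toC] using this

theorem isP_of_cert {n : ℕ} (M : Matrix (Fin n) (Fin n) ℚ) (hP : ∀ γ, 0 < qd M γ 0) :
    IsP (toC M) := by
  intro α _
  rw [det_psub_toC]
  refine ⟨by simp, ?_⟩
  have := hP α
  simpa using this

theorem isTau_of_cert {n : ℕ} (M : Matrix (Fin n) (Fin n) ℚ) (x : Finset (Fin n) → ℚ)
    (hP : ∀ γ, 0 < qd M γ 0) (h0 : ∀ α, 0 ≤ x α)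
    (h1 : ∀ α : Finset (Fin n), α.Nonempty → qd M α (x α) ≤ 0)
    (h2 : ∀ α γ : Finset (Fin n), γ ⊆ α → γ ≠ α → 0 ≤ qd M γ (x α)) : IsTau (toC M) := by
  have hup : ∀ α : Finset (Fin n), α.Nonempty → lmin (psub (toC M) α) ≤ ((x α : ℝ) : EReal) := by
    intro α hα
    rw [← toC_eq]
    refine lmin_le _ _ _ (by exact_mod_cast h0 α) ?_ ?_
    · have := qd_real M α 0
      rw [Rat.cast_zero] at this
      rw [this]; exact_mod_cast (hP α).le
    · rw [qd_real]; exact_mod_cast h1 α hα
  refine ⟨fun α β hβ hβα => ⟨?_, (hup β hβ).trans_lt (EReal.coe_lt_top _)⟩, ?_⟩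
  · by_cases he : β = α
    · rw [he]
    · refine (hup α (hβ.mono hβα)).trans ?_
      rw [← toC_eq]
      refine le_lmin _ _ _ fun δ hδ => ?_
      rw [qd_real]
      have : δ ≠ α := fun h => he (Finset.Subset.antisymm hβα (h ▸ hδ))
      exact_mod_cast h2 α δ (hδ.trans hβα) this
  · rw [← lmin_univ, ← toC_eq]
    refine le_lmin _ _ 0 fun δ _ => ?_
    have := qd_real M δ 0
    rw [Rat.cast_zero] at this
    rw [this]; exact_mod_cast (hP δ).le

/-- rational minor with rows and columns given by lists -/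
def qm {n : ℕ} (M : Matrix (Fin (n + 1)) (Fin (n + 1)) ℚ) (k : ℕ) (rs cs : List (Fin (n + 1))) :
    ℚ :=
  ldet k (fun i j => M (rs.getD i 0) (cs.getD j 0))

theorem ofFn_mem_sublists {n k : ℕ} (r : Fin k → Fin n) (hr : StrictMono r) :
    List.ofFn r ∈ (List.finRange n).sublists := by
  rw [List.mem_sublists]
  refine List.sublist_of_subperm_of_pairwise (r := (· ≤ ·)) ?_ ?_ ?_
  · exact List.subperm_of_subset (List.nodup_ofFn.mpr hr.injective) (fun x _ => List.mem_finRange x)
  · rw [List.pairwise_ofFn]; exact fun i j h => hr.monotone h.le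
  · exact (List.pairwise_lt_finRange n).imp le_of_lt

theorem qm_eq {n k : ℕ} (M : Matrix (Fin (n + 1)) (Fin (n + 1)) ℚ) (r c : Fin k → Fin (n + 1)) :
    ((toC M).submatrix r c).det = ((qm M k (List.ofFn r) (List.ofFn c) : ℚ) : ℂ) := by
  have e : (fun i j : Fin k => M ((List.ofFn r).getD i 0) ((List.ofFn c).getD j 0)) =
      M.submatrix r c := by
    funext i j
    simp [List.getD_eq_getElem?_getD]
  rw [qm, e, ldet_eq]
  exact (RingHom.map_det (Rat.castHom ℂ) (M.submatrix r c)).symm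

theorem toFinset_ofFn {n k : ℕ} (r : Fin k → Fin n) :
    (List.ofFn r).toFinset = Finset.univ.image r := by
  ext x; simp [List.mem_ofFn]

theorem signSym_of_cert {n : ℕ} (d : ℕ) (M : Matrix (Fin (n + 1)) (Fin (n + 1)) ℚ)
    (h : ∀ rs ∈ (List.finRange (n + 1)).sublists, ∀ cs ∈ (List.finRange (n + 1)).sublists,
      cs.length = rs.length → rs.length ≤ (rs.toFinset ∩ cs.toFinset).card + d →
      0 ≤ qm M rs.length rs cs * qm M rs.length cs rs) : SignSymUpTo d (toC M) := by
  intro k r c hr hc hk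
  have := h _ (ofFn_mem_sublists r hr) _ (ofFn_mem_sublists c hc) (by simp)
    (by rw [toFinset_ofFn, toFinset_ofFn]; simpa using hk)
  rw [List.length_ofFn] at this
  rw [qm_eq, qm_eq, ← Rat.cast_mul]
  exact ⟨by simp only [Complex.ratCast_im], by
    rw [Complex.ratCast_re]; exact_mod_cast this⟩

theorem weak_of_signSym {n : ℕ} {A : Matrix (Fin n) (Fin n) ℂ} (h : SignSymUpTo 1 A) :
    WeakSignSym A := fun k r c hr hc hk => h k r c hr hc hk.ge

theorem strict_of_cert {n : ℕ} (M : Matrix (Fin (n + 1)) (Fin (n + 1)) ℚ)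
    (h : ∀ rs ∈ (List.finRange (n + 1)).sublists, ∀ cs ∈ (List.finRange (n + 1)).sublists,
      cs.length = rs.length → (rs.toFinset ∩ cs.toFinset).card + 1 = rs.length →
      0 < qm M rs.length rs cs * qm M rs.length cs rs) : StrictWeakSignSym (toC M) := by
  intro k r c hr hc hk
  have := h _ (ofFn_mem_sublists r hr) _ (ofFn_mem_sublists c hc) (by simp)
    (by rw [toFinset_ofFn, toFinset_ofFn]; simpa using hk)
  rw [List.length_ofFn] at this
  rw [qm_eq, qm_eq, ← Rat.cast_mul]
  exact ⟨by simp only [Complex.ratCast_im], by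
    rw [Complex.ratCast_re]; exact_mod_cast this⟩

theorem eval_charpoly_sum {n : ℕ} (A : Matrix (Fin n) (Fin n) ℂ) (z : ℂ) :
    A.charpoly.eval z = ∑ k ∈ Finset.range (n + 1),
      (-1) ^ k * (∑ α ∈ Finset.univ.powersetCard k, (psub A α).det) * z ^ (n - k) := by
  rw [Polynomial.eval_eq_sum_range, charpoly_natDegree_eq_dim, Fintype.card_fin,
    ← Finset.sum_range_reflect]
  refine Finset.sum_congr rfl fun k hk => ?_
  have hk' : k ≤ n := by have := Finset.mem_range.mp hk; omega
  have := charpoly_coeff_eq_sum_minors A k (by simpa using hk')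
  rw [Fintype.card_fin] at this
  rw [show n + 1 - 1 - k = n - k by omega, this]
  rfl

/-- rational sums of principal minors -/
def qE {n : ℕ} (M : Matrix (Fin n) (Fin n) ℚ) (k : ℕ) : ℚ :=
  ∑ α ∈ Finset.univ.powersetCard k, qd M α 0

theorem sum_psub_toC {n : ℕ} (M : Matrix (Fin n) (Fin n) ℚ) (k : ℕ) :
    ∑ α ∈ Finset.univ.powersetCard k, (psub (toC M) α).det = ((qE M k : ℚ) : ℂ) := by
  simp [qE, det_psub_toC]

theorem eval_charpoly_toC {n : ℕ} (M : Matrix (Fin n) (Fin n) ℚ) (z : ℂ) :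
    (toC M).charpoly.eval z = ∑ k ∈ Finset.range (n + 1),
      (-1) ^ k * ((qE M k : ℚ) : ℂ) * z ^ (n - k) := by
  rw [eval_charpoly_sum]
  simp only [sum_psub_toC]

theorem mirror {n : ℕ} (A : Matrix (Fin n) (Fin n) ℂ) (w w' : ℂ)
    (h : ∀ z ∈ spectrum ℂ A, ‖w' - z‖ ≤ ‖w - z‖) :
    ‖A.charpoly.eval w'‖ ≤ ‖A.charpoly.eval w‖ := by
  have hs : A.charpoly.Splits := IsAlgClosed.splits _
  have e := hs.eq_prod_roots_of_monic A.charpoly_monic
  have key : ∀ s : Multiset ℂ, (∀ z ∈ s, ‖w' - z‖ ≤ ‖w - z‖) →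
      ‖(s.map fun a => Polynomial.X - Polynomial.C a).prod.eval w'‖ ≤
        ‖(s.map fun a => Polynomial.X - Polynomial.C a).prod.eval w‖ := by
    intro s
    induction s using Multiset.induction_on with
    | empty => simp
    | cons a s ih =>
      intro hs
      simp only [Multiset.map_cons, Multiset.prod_cons, Polynomial.eval_mul, Polynomial.eval_sub,
        Polynomial.eval_X, Polynomial.eval_C, norm_mul]
      exact mul_le_mul (hs a (Multiset.mem_cons_self _ _))
        (ih fun z hz => hs z (Multiset.mem_cons_of_mem hz)) (norm_nonneg _) (norm_nonneg _)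
  rw [e]
  refine key _ fun z hz => h z ?_
  rw [Matrix.mem_spectrum_iff_isRoot_charpoly]
  exact Polynomial.isRoot_of_mem_roots hz

end Pool.Agent.Lib.helper24.GKK
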