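import Pool.Agent.Lib.helper24.GKKCert

set_option autoImplicit false

namespace Pool.Agent.Lib.helper24.GKK

open Matrix

theorem norm_le_of_sq {a b : ℂ} (h : Complex.normSq a ≤ Complex.normSq b) : ‖a‖ ≤ ‖b‖ := by
  rw [Complex.normSq_eq_norm_sq, Complex.normSq_eq_norm_sq] at h
  exact (pow_le_pow_iff_left₀ (norm_nonneg _) (norm_nonneg _) two_ne_zero).mp h

theorem sq_le_of_norm {a b : ℂ} (h : ‖a‖ ≤ ‖b‖) : Complex.normSq a ≤ Complex.normSq b := by
  rw [Complex.normSq_eq_norm_sq, Complex.normSq_eq_norm_sq]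
  exact pow_le_pow_left₀ (norm_nonneg _) h 2

def exN : Matrix (Fin 4) (Fin 4) ℚ :=
  !![1, 15/16, 15/16, 15/16;
     0, 1, 15/16, 15/16;
     0, 0, 1, 15/16;
     4, 4, 4, 4]

def exNx (α : Finset (Fin 4)) : ℚ :=
  ([0, 1, 1, 1, 1, 1, 1, 1, 4, 1, 1, 1/20, 1, 1/20, 1/20, 1/92] : List ℚ).getD (∑ i ∈ α, 2 ^ (i : ℕ)) 0

theorem exN_pos : ∀ γ, 0 < qd exN γ 0 := by decide +kernel

theorem exN_isP : IsP (toC exN) := isP_of_cert _ exN_pos

theorem exN_isTau : IsTau (toC exN) :=
  isTau_of_cert _ exNx exN_pos (by decide +kernel) (by decide +kernel) (by decide +kernel)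

theorem exN_weak : WeakSignSym (toC exN) :=
  weak_of_signSym (signSym_of_cert 1 _ (by decide +kernel))

theorem exN_E : qE exN 0 = 1 ∧ qE exN 1 = 7 ∧ qE exN 2 = 15/4 ∧ qE exN 3 = 67/64 ∧ qE exN 4 = 1/1024 := by
  decide +kernel

def exV : Matrix (Fin 4) (Fin 4) ℚ :=
  !![1, 99/100, 99/100, 99/100;
     0, 1, 99/100, 99/100;
     0, 0, 1, 99/100;
     100, 100, 100, 100]

def exVx (α : Finset (Fin 4)) : ℚ :=
  ([0, 1, 1, 1, 1, 1, 1, 1, 100, 1, 1, 1/101, 1, 1/101, 1/101, 1/261] : List ℚ).getD (∑ i ∈ α, 2 ^ (i : ℕ)) 0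

theorem exV_pos : ∀ γ, 0 < qd exV γ 0 := by decide +kernel

theorem exV_isP : IsP (toC exV) := isP_of_cert _ exV_pos

theorem exV_isTau : IsTau (toC exV) :=
  isTau_of_cert _ exVx exV_pos (by decide +kernel) (by decide +kernel) (by decide +kernel)

theorem exV_weak : WeakSignSym (toC exV) :=
  weak_of_signSym (signSym_of_cert 1 _ (by decide +kernel))

theorem exV_E : qE exV 0 = 1 ∧ qE exV 1 = 103 ∧ qE exV 2 = 6 ∧ qE exV 3 = 103/100 ∧ qE exV 4 = 1/10000 := by
  decide +kernel

theorem exV_not : ¬ ∀ z ∈ spectrum ℂ (toC exV), z.im ≤ z.re := by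
  intro h
  have := mirror (toC exV) ⟨3/100, 1/10⟩ ⟨1/10, 3/100⟩ fun z hz => norm_le_of_sq (by
    have := h z hz
    simp only [Complex.normSq_apply, Complex.sub_re, Complex.sub_im]
    nlinarith)
  have := sq_le_of_norm this
  rw [eval_charpoly_toC, eval_charpoly_toC] at this
  obtain ⟨e0, e1, e2, e3, e4⟩ := exV_E
  simp only [Finset.sum_range_succ, Finset.sum_range_zero, e0, e1, e2, e3, e4] at this
  norm_num [Complex.normSq_apply, pow_succ] at this

def exS : Matrix (Fin 5) (Fin 5) ℚ :=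
  !![1, 9899999999/10000000000, 9899999999/10000000000, 9899999999/10000000000, 99/100;
     1/10000, 1, 9899999999/10000000000, 9899999999/10000000000, 99/100;
     1/10000000, 1/10000, 1, 9899999999/10000000000, 99/100;
     1/10000000000, 1/10000000, 1/10000, 1, 99/100;
     40, 40, 40, 40, 40]

def exSx (α : Finset (Fin 5)) : ℚ :=
  ([0, 1, 1, 1, 1, 1, 1, 72/73, 1, 1, 1, 199/201, 1, 199/201, 72/73, 64/65, 40, 1, 1, 1/103, 1, 1/103, 1/103, 1/426, 1, 1/103, 1/103, 1/426, 1/103, 1/426, 1/426, 1/25296] : List ℚ).getD (∑ i ∈ α, 2 ^ (i : ℕ)) 0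

theorem exS_pos : ∀ γ, 0 < qd exS γ 0 := by decide +kernel

theorem exS_isP : IsP (toC exS) := isP_of_cert _ exS_pos

theorem exS_isTau : IsTau (toC exS) :=
  isTau_of_cert _ exSx exS_pos (by decide +kernel) (by decide +kernel) (by decide +kernel)

theorem exS_strict : StrictWeakSignSym (toC exS) := strict_of_cert _ (by decide +kernel)

theorem exS_weak : WeakSignSym (toC exS) := fun k r c hr hc hk =>
  ⟨(exS_strict k r c hr hc hk).1, (exS_strict k r c hr hc hk).2.le⟩

theorem exS_E : qE exS 0 = 1 ∧ qE exS 1 = 44 ∧ qE exS 2 = 759970280190103002001/100000000000000000000 ∧ qE exS 3 = 2011702898039540399389200001001/500000000000000000000000000000 ∧ qE exS 4 = 9998630114658288027658630821788300000001/10000000000000000000000000000000000000000 ∧ qE exS 5 = 98990202971998840020988300000001/250000000000000000000000000000000000000 := by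
  decide +kernel

theorem exS_not : ¬ IsStable (toC exS) := by
  intro h
  have := mirror (toC exS) ⟨-1/40, 8/25⟩ ⟨1/40, 8/25⟩ fun z hz => norm_le_of_sq (by
    have := h z hz
    simp only [Complex.normSq_apply, Complex.sub_re, Complex.sub_im]
    nlinarith)
  have := sq_le_of_norm this
  rw [eval_charpoly_toC, eval_charpoly_toC] at this
  obtain ⟨e0, e1, e2, e3, e4, e5⟩ := exS_E
  simp only [Finset.sum_range_succ, Finset.sum_range_zero, e0, e1, e2, e3, e4, e5] at this
  norm_num [Complex.normSq_apply, pow_succ] at this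

end Pool.Agent.Lib.helper24.GKK
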