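import Pool.Agent.Lib.helper24.GKKCert

set_option autoImplicit false

namespace Pool.Agent.Lib.helper24.GKK

open Matrix

theorem det_sub_image {n k : ℕ} (A : Matrix (Fin n) (Fin n) ℂ) (r : Fin k → Fin n)
    (hr : Function.Injective r) :
    (A.submatrix r r).det = (psub A (Finset.univ.image r)).det := by
  let e : Fin k ≃ (Finset.univ.image r : Finset (Fin n)) :=
    Equiv.ofBijective (fun i => ⟨r i, Finset.mem_image_of_mem _ (Finset.mem_univ i)⟩)
      ⟨fun i j h => hr (congrArg Subtype.val h), fun ⟨x, hx⟩ => by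
        obtain ⟨i, _, rfl⟩ := Finset.mem_image.mp hx
        exact ⟨i, rfl⟩⟩
  rw [← Matrix.det_submatrix_equiv_self e]
  rfl

theorem IsP.minor {n k : ℕ} {A : Matrix (Fin n) (Fin n) ℂ} (hP : IsP A) (r : Fin (k + 1) → Fin n)
    (hr : Function.Injective r) : ∃ p : ℝ, 0 < p ∧ (A.submatrix r r).det = (p : ℂ) := by
  have := hP (Finset.univ.image r) (Finset.univ_nonempty.image _)
  rw [← det_sub_image A r hr] at this
  exact ⟨_, this.2, Complex.ext (by simp) (by simp [this.1])⟩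

theorem sub_of {X : ℂ} {a b c e : ℝ} (h : X.im = 0 ∧ 0 ≤ X.re)
    (hX : X = (a : ℂ) * b - c * e) : c * e ≤ a * b := by
  have := h.2
  rw [hX] at this
  simpa using this

theorem det4 (A : Matrix (Fin 4) (Fin 4) ℂ) : A.det =
    A 0 0 * (A 1 1 * A 2 2 * A 3 3 - A 1 1 * A 2 3 * A 3 2 - A 1 2 * A 2 1 * A 3 3
      + A 1 2 * A 2 3 * A 3 1 + A 1 3 * A 2 1 * A 3 2 - A 1 3 * A 2 2 * A 3 1)
    - A 0 1 * (A 1 0 * A 2 2 * A 3 3 - A 1 0 * A 2 3 * A 3 2 - A 1 2 * A 2 0 * A 3 3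
      + A 1 2 * A 2 3 * A 3 0 + A 1 3 * A 2 0 * A 3 2 - A 1 3 * A 2 2 * A 3 0)
    + A 0 2 * (A 1 0 * A 2 1 * A 3 3 - A 1 0 * A 2 3 * A 3 1 - A 1 1 * A 2 0 * A 3 3
      + A 1 1 * A 2 3 * A 3 0 + A 1 3 * A 2 0 * A 3 1 - A 1 3 * A 2 1 * A 3 0)
    - A 0 3 * (A 1 0 * A 2 1 * A 3 2 - A 1 0 * A 2 2 * A 3 1 - A 1 1 * A 2 0 * A 3 2
      + A 1 1 * A 2 2 * A 3 0 + A 1 2 * A 2 0 * A 3 1 - A 1 2 * A 2 1 * A 3 0) := by
  rw [Matrix.det_succ_row_zero]
  simp [Fin.sum_univ_succ, Matrix.det_fin_three, Fin.succAbove]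
  ring

section minors
variable {n : ℕ} (A : Matrix (Fin n) (Fin n) ℂ)

theorem m1 (a b : Fin n) : (A.submatrix ![a] ![b]).det = A a b := by
  rw [Matrix.det_fin_one]; rfl

theorem m2 (a b c d : Fin n) :
    (A.submatrix ![a, b] ![c, d]).det = A a c * A b d - A a d * A b c := by
  rw [Matrix.det_fin_two]; rfl

theorem m3 (a b c d e f : Fin n) :
    (A.submatrix ![a, b, c] ![d, e, f]).det =
      A a d * A b e * A c f - A a d * A b f * A c e - A a e * A b d * A c f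
        + A a e * A b f * A c d + A a f * A b d * A c e - A a f * A b e * A c d := by
  rw [Matrix.det_fin_three]; rfl

end minors

theorem m4 (A : Matrix (Fin 4) (Fin 4) ℂ) : (A.submatrix ![0, 1, 2, 3] ![0, 1, 2, 3]).det = A.det := by
  congr 1
  ext i j
  fin_cases i <;> fin_cases j <;> rfl

theorem f_lem {pi pj pij pjk pijk : ℝ} (hj : 0 < pj) (hjk : 0 < pjk)
    (w1 : pj * pijk ≤ pij * pjk) (w2 : 1 * pij ≤ pi * pj) : pijk ≤ pi * pjk := by
  refine le_of_mul_le_mul_left ?_ hj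
  nlinarith [mul_le_mul_of_nonneg_right w2 hjk.le]

theorem g_lem {pi pij pik pijk pikl pa : ℝ} (hi : 0 < pi) (hik : 0 < pik) (hikl : 0 < pikl)
    (w1 : pi * pijk ≤ pij * pik) (w2 : pik * pa ≤ pijk * pikl) : pi * pa ≤ pij * pikl := by
  refine le_of_mul_le_mul_left ?_ hik
  nlinarith [mul_le_mul_of_nonneg_right w1 hikl.le, mul_le_mul_of_nonneg_left w2 hi.le]

theorem h_lem {E1 E2 E3 E4 : ℝ} (a1 : 0 < E1) (a2 : 0 < E2) (a3 : 0 < E3)
    (k1 : 3 * E3 ≤ E1 * E2) (k2 : 3 * (E1 * E4) ≤ E2 * E3) :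
    E3 ^ 2 + E1 ^ 2 * E4 < E1 * E2 * E3 := by
  have b1 := mul_le_mul_of_nonneg_right k1 a3.le
  have b2 := mul_le_mul_of_nonneg_left k2 a1.le
  have b3 : 0 < E1 * E2 * E3 := by positivity
  nlinarith

theorem hurwitz2 (E1 E2 : ℝ) (h1 : 0 < E1) (h2 : 0 < E2) (z : ℂ)
    (hz : z ^ 2 - E1 * z + E2 = 0) : 0 < z.re := by
  by_contra hn
  have ha : z.re ≤ 0 := not_lt.mp hn
  have hre := congrArg Complex.re hz
  have him := congrArg Complex.im hz
  simp [pow_succ] at hre him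
  have : z.im * (2 * z.re - E1) = 0 := by linarith
  rcases mul_eq_zero.mp this with h | h
  · rw [h] at hre; nlinarith
  · linarith

theorem hurwitz3 (E1 E2 E3 : ℝ) (h1 : 0 < E1) (h2 : 0 < E2) (h3 : 0 < E3) (h : E3 < E1 * E2)
    (z : ℂ) (hz : z ^ 3 - E1 * z ^ 2 + E2 * z - E3 = 0) : 0 < z.re := by
  by_contra hn
  have ha : z.re ≤ 0 := not_lt.mp hn
  obtain ⟨a, ha'⟩ : ∃ a : ℝ, a = -z.re := ⟨_, rfl⟩
  obtain ⟨b, hb⟩ : ∃ b : ℝ, b = z.im := ⟨_, rfl⟩
  have ha0 : 0 ≤ a := by linarith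
  have hz' : z = ⟨-a, b⟩ := Complex.ext (by simp [ha']) (by simp [hb])
  have hre := congrArg Complex.re hz
  have him := congrArg Complex.im hz
  rw [hz'] at hre him
  simp [pow_succ] at hre him
  have him' : b * (3 * a ^ 2 - b ^ 2 + 2 * E1 * a + E2) = 0 := by linarith
  rcases mul_eq_zero.mp him' with h0 | h0
  · subst h0
    have : a ^ 3 + E1 * a ^ 2 + E2 * a + E3 = 0 := by linarith
    have : 0 < a ^ 3 + E1 * a ^ 2 + E2 * a + E3 := by positivity
    linarith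
  · have hb2 : b ^ 2 = 3 * a ^ 2 + 2 * E1 * a + E2 := by linarith
    have hre' : a ^ 3 - 3 * a * b ^ 2 + E1 * (a ^ 2 - b ^ 2) + E2 * a + E3 = 0 := by linarith
    rw [hb2] at hre'
    have : 0 ≤ 8 * a ^ 3 + 8 * E1 * a ^ 2 + 2 * E2 * a + 2 * E1 ^ 2 * a := by positivity
    nlinarith

theorem hurwitz4 (E1 E2 E3 E4 : ℝ) (h1 : 0 < E1) (h2 : 0 < E2) (h3 : 0 < E3) (h4 : 0 < E4)
    (h : E3 ^ 2 + E1 ^ 2 * E4 < E1 * E2 * E3)
    (z : ℂ) (hz : z ^ 4 - E1 * z ^ 3 + E2 * z ^ 2 - E3 * z + E4 = 0) : 0 < z.re := by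
  by_contra hn
  have ha : z.re ≤ 0 := not_lt.mp hn
  obtain ⟨a, ha'⟩ : ∃ a : ℝ, a = -z.re := ⟨_, rfl⟩
  obtain ⟨b, hb⟩ : ∃ b : ℝ, b = z.im := ⟨_, rfl⟩
  have ha0 : 0 ≤ a := by linarith
  have hz' : z = ⟨-a, b⟩ := Complex.ext (by simp [ha']) (by simp [hb])
  by_cases h0 : b = 0
  · have hre := congrArg Complex.re hz
    rw [hz'] at hre
    subst h0
    simp [pow_succ] at hre
    have : 0 < a ^ 4 + E1 * a ^ 3 + E2 * a ^ 2 + E3 * a + E4 := by positivity
    linarith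
  · obtain ⟨q1, hq1⟩ : ∃ q : ℝ, q = a ^ 2 + b ^ 2 := ⟨_, rfl⟩
    obtain ⟨p2, hp2⟩ : ∃ p : ℝ, p = E1 + 2 * a := ⟨_, rfl⟩
    obtain ⟨q2, hq2⟩ : ∃ q : ℝ, q = E2 - q1 + 2 * a * p2 := ⟨_, rfl⟩
    have hq : z ^ 2 + 2 * a * z + q1 = 0 := by
      rw [hz', hq1]
      apply Complex.ext <;> simp [pow_succ] <;> ring
    have hl : ((-2 * a * q2 + p2 * q1 - E3 : ℝ) : ℂ) * z + ((E4 - q1 * q2 : ℝ) : ℂ) = 0 := by
      have e1 : (E1 : ℂ) = p2 - 2 * a := by rw [hp2]; push_cast; ring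
      have e2 : (E2 : ℂ) = q2 + q1 - 2 * a * p2 := by rw [hq2]; push_cast; ring
      rw [e1, e2] at hz
      push_cast
      linear_combination hz - (z ^ 2 - p2 * z + q2) * hq
    have him := congrArg Complex.im hl
    have hre := congrArg Complex.re hl
    simp only [Complex.add_im, Complex.mul_im, Complex.ofReal_re, Complex.ofReal_im, zero_mul,
      add_zero, Complex.zero_im, Complex.add_re, Complex.mul_re, sub_zero,
      Complex.zero_re] at him hre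
    rw [← hb] at him
    have k3 : -2 * a * q2 + p2 * q1 - E3 = 0 := (mul_eq_zero.mp him).resolve_right h0
    rw [k3] at hre
    have k4 : E4 = q1 * q2 := by linarith
    have k3' : E3 = -2 * a * q2 + p2 * q1 := by linarith
    have k1 : E1 = p2 - 2 * a := by linarith
    have k2 : E2 = q2 + q1 - 2 * a * p2 := by linarith
    have key : E1 * E2 * E3 - E3 ^ 2 - E1 ^ 2 * E4 =
        -(2 * a * p2 * ((q1 - q2) ^ 2 + E1 * E3)) := by
      rw [k4, k3', k2, k1]; ring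
    have hp : 0 < p2 := by linarith
    have : 0 ≤ 2 * a * p2 * ((q1 - q2) ^ 2 + E1 * E3) := by positivity
    linarith

theorem stable2 (A : Matrix (Fin 2) (Fin 2) ℂ) (hP : IsP A) : IsStable A := by
  intro z hz
  rw [mem_spec_iff, Matrix.det_fin_two] at hz
  simp at hz
  obtain ⟨p0, hp0, ep0⟩ := hP.minor (k := 0) ![0] (by decide)
  rw [m1] at ep0
  obtain ⟨p1, hp1, ep1⟩ := hP.minor (k := 0) ![1] (by decide)
  rw [m1] at ep1
  obtain ⟨p01, hp01, ep01⟩ := hP.minor (k := 1) ![0, 1] (by decide)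
  rw [m2] at ep01
  refine hurwitz2 (p0 + p1) (p01) (by positivity) (by positivity) z ?_
  push_cast
  rw [← ep0, ← ep1, ← ep01]
  linear_combination hz

theorem stable3 (A : Matrix (Fin 3) (Fin 3) ℂ) (hP : IsP A) (hW : WeakSignSym A) :
    IsStable A := by
  intro z hz
  rw [mem_spec_iff, Matrix.det_fin_three] at hz
  simp at hz
  obtain ⟨p0, hp0, ep0⟩ := hP.minor (k := 0) ![0] (by decide)
  rw [m1] at ep0
  obtain ⟨p1, hp1, ep1⟩ := hP.minor (k := 0) ![1] (by decide)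
  rw [m1] at ep1
  obtain ⟨p2, hp2, ep2⟩ := hP.minor (k := 0) ![2] (by decide)
  rw [m1] at ep2
  obtain ⟨p01, hp01, ep01⟩ := hP.minor (k := 1) ![0, 1] (by decide)
  rw [m2] at ep01
  obtain ⟨p02, hp02, ep02⟩ := hP.minor (k := 1) ![0, 2] (by decide)
  rw [m2] at ep02
  obtain ⟨p12, hp12, ep12⟩ := hP.minor (k := 1) ![1, 2] (by decide)
  rw [m2] at ep12
  obtain ⟨p012, hp012, ep012⟩ := hP.minor (k := 2) ![0, 1, 2] (by decide)
  rw [m3] at ep012
  have wp0p1 : 1 * p01 ≤ p0 * p1 :=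
    sub_of (hW 1 ![0] ![1] (by decide) (by decide) (by decide)) (by
      rw [m1, m1, ← ep0, ← ep1, ← ep01]; push_cast; ring)
  have wp0p2 : 1 * p02 ≤ p0 * p2 :=
    sub_of (hW 1 ![0] ![2] (by decide) (by decide) (by decide)) (by
      rw [m1, m1, ← ep0, ← ep2, ← ep02]; push_cast; ring)
  have wp1p2 : 1 * p12 ≤ p1 * p2 :=
    sub_of (hW 1 ![1] ![2] (by decide) (by decide) (by decide)) (by
      rw [m1, m1, ← ep1, ← ep2, ← ep12]; push_cast; ring)
  have wp01p02 : p0 * p012 ≤ p01 * p02 :=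
    sub_of (hW 2 ![0, 1] ![0, 2] (by decide) (by decide) (by decide)) (by
      rw [m2, m2, ← ep01, ← ep02, ← ep0, ← ep012]; push_cast; ring)
  have wp01p12 : p1 * p012 ≤ p01 * p12 :=
    sub_of (hW 2 ![0, 1] ![1, 2] (by decide) (by decide) (by decide)) (by
      rw [m2, m2, ← ep01, ← ep12, ← ep1, ← ep012]; push_cast; ring)
  have wp02p12 : p2 * p012 ≤ p02 * p12 :=
    sub_of (hW 2 ![0, 2] ![1, 2] (by decide) (by decide) (by decide)) (by
      rw [m2, m2, ← ep02, ← ep12, ← ep2, ← ep012]; push_cast; ring)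
  have f012 : p012 ≤ p0 * p12 :=
    f_lem hp1 hp12 wp01p12 wp0p1
  have f102 : p012 ≤ p1 * p02 :=
    f_lem hp0 hp02 wp01p02 (wp0p1.trans_eq (mul_comm _ _))
  have f201 : p012 ≤ p2 * p01 :=
    f_lem hp0 hp01 (wp01p02.trans_eq (mul_comm _ _)) (wp0p2.trans_eq (mul_comm _ _))
  refine hurwitz3 (p0 + p1 + p2) (p01 + p02 + p12) (p012) (by positivity) (by positivity) (by positivity) ?_ z ?_
  · have : 0 < p0 * p01 + p0 * p02 + p1 * p01 + p1 * p02 + p1 * p12 + p2 * p01 + p2 * p02 + p2 * p12 := by positivity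
    linarith only [this, f012]
  push_cast
  rw [← ep0, ← ep1, ← ep2, ← ep01, ← ep02, ← ep12, ← ep012]
  linear_combination -hz

theorem stable4 (A : Matrix (Fin 4) (Fin 4) ℂ) (hP : IsP A) (hW : WeakSignSym A) :
    IsStable A := by
  intro z hz
  rw [mem_spec_iff, det4] at hz
  simp at hz
  obtain ⟨p0, hp0, ep0⟩ := hP.minor (k := 0) ![0] (by decide)
  rw [m1] at ep0
  obtain ⟨p1, hp1, ep1⟩ := hP.minor (k := 0) ![1] (by decide)
  rw [m1] at ep1
  obtain ⟨p2, hp2, ep2⟩ := hP.minor (k := 0) ![2] (by decide)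
  rw [m1] at ep2
  obtain ⟨p3, hp3, ep3⟩ := hP.minor (k := 0) ![3] (by decide)
  rw [m1] at ep3
  obtain ⟨p01, hp01, ep01⟩ := hP.minor (k := 1) ![0, 1] (by decide)
  rw [m2] at ep01
  obtain ⟨p02, hp02, ep02⟩ := hP.minor (k := 1) ![0, 2] (by decide)
  rw [m2] at ep02
  obtain ⟨p03, hp03, ep03⟩ := hP.minor (k := 1) ![0, 3] (by decide)
  rw [m2] at ep03
  obtain ⟨p12, hp12, ep12⟩ := hP.minor (k := 1) ![1, 2] (by decide)
  rw [m2] at ep12
  obtain ⟨p13, hp13, ep13⟩ := hP.minor (k := 1) ![1, 3] (by decide)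
  rw [m2] at ep13
  obtain ⟨p23, hp23, ep23⟩ := hP.minor (k := 1) ![2, 3] (by decide)
  rw [m2] at ep23
  obtain ⟨p012, hp012, ep012⟩ := hP.minor (k := 2) ![0, 1, 2] (by decide)
  rw [m3] at ep012
  obtain ⟨p013, hp013, ep013⟩ := hP.minor (k := 2) ![0, 1, 3] (by decide)
  rw [m3] at ep013
  obtain ⟨p023, hp023, ep023⟩ := hP.minor (k := 2) ![0, 2, 3] (by decide)
  rw [m3] at ep023
  obtain ⟨p123, hp123, ep123⟩ := hP.minor (k := 2) ![1, 2, 3] (by decide)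
  rw [m3] at ep123
  obtain ⟨p0123, hp0123, ep0123⟩ := hP.minor (k := 3) ![0, 1, 2, 3] (by decide)
  rw [m4, det4] at ep0123
  have wp0p1 : 1 * p01 ≤ p0 * p1 :=
    sub_of (hW 1 ![0] ![1] (by decide) (by decide) (by decide)) (by
      rw [m1, m1, ← ep0, ← ep1, ← ep01]; push_cast; ring)
  have wp0p2 : 1 * p02 ≤ p0 * p2 :=
    sub_of (hW 1 ![0] ![2] (by decide) (by decide) (by decide)) (by
      rw [m1, m1, ← ep0, ← ep2, ← ep02]; push_cast; ring)
  have wp0p3 : 1 * p03 ≤ p0 * p3 :=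
    sub_of (hW 1 ![0] ![3] (by decide) (by decide) (by decide)) (by
      rw [m1, m1, ← ep0, ← ep3, ← ep03]; push_cast; ring)
  have wp1p2 : 1 * p12 ≤ p1 * p2 :=
    sub_of (hW 1 ![1] ![2] (by decide) (by decide) (by decide)) (by
      rw [m1, m1, ← ep1, ← ep2, ← ep12]; push_cast; ring)
  have wp1p3 : 1 * p13 ≤ p1 * p3 :=
    sub_of (hW 1 ![1] ![3] (by decide) (by decide) (by decide)) (by
      rw [m1, m1, ← ep1, ← ep3, ← ep13]; push_cast; ring)
  have wp2p3 : 1 * p23 ≤ p2 * p3 :=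
    sub_of (hW 1 ![2] ![3] (by decide) (by decide) (by decide)) (by
      rw [m1, m1, ← ep2, ← ep3, ← ep23]; push_cast; ring)
  have wp01p02 : p0 * p012 ≤ p01 * p02 :=
    sub_of (hW 2 ![0, 1] ![0, 2] (by decide) (by decide) (by decide)) (by
      rw [m2, m2, ← ep01, ← ep02, ← ep0, ← ep012]; push_cast; ring)
  have wp01p03 : p0 * p013 ≤ p01 * p03 :=
    sub_of (hW 2 ![0, 1] ![0, 3] (by decide) (by decide) (by decide)) (by
      rw [m2, m2, ← ep01, ← ep03, ← ep0, ← ep013]; push_cast; ring)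
  have wp02p03 : p0 * p023 ≤ p02 * p03 :=
    sub_of (hW 2 ![0, 2] ![0, 3] (by decide) (by decide) (by decide)) (by
      rw [m2, m2, ← ep02, ← ep03, ← ep0, ← ep023]; push_cast; ring)
  have wp01p12 : p1 * p012 ≤ p01 * p12 :=
    sub_of (hW 2 ![0, 1] ![1, 2] (by decide) (by decide) (by decide)) (by
      rw [m2, m2, ← ep01, ← ep12, ← ep1, ← ep012]; push_cast; ring)
  have wp01p13 : p1 * p013 ≤ p01 * p13 :=
    sub_of (hW 2 ![0, 1] ![1, 3] (by decide) (by decide) (by decide)) (by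
      rw [m2, m2, ← ep01, ← ep13, ← ep1, ← ep013]; push_cast; ring)
  have wp12p13 : p1 * p123 ≤ p12 * p13 :=
    sub_of (hW 2 ![1, 2] ![1, 3] (by decide) (by decide) (by decide)) (by
      rw [m2, m2, ← ep12, ← ep13, ← ep1, ← ep123]; push_cast; ring)
  have wp02p12 : p2 * p012 ≤ p02 * p12 :=
    sub_of (hW 2 ![0, 2] ![1, 2] (by decide) (by decide) (by decide)) (by
      rw [m2, m2, ← ep02, ← ep12, ← ep2, ← ep012]; push_cast; ring)
  have wp02p23 : p2 * p023 ≤ p02 * p23 :=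
    sub_of (hW 2 ![0, 2] ![2, 3] (by decide) (by decide) (by decide)) (by
      rw [m2, m2, ← ep02, ← ep23, ← ep2, ← ep023]; push_cast; ring)
  have wp12p23 : p2 * p123 ≤ p12 * p23 :=
    sub_of (hW 2 ![1, 2] ![2, 3] (by decide) (by decide) (by decide)) (by
      rw [m2, m2, ← ep12, ← ep23, ← ep2, ← ep123]; push_cast; ring)
  have wp03p13 : p3 * p013 ≤ p03 * p13 :=
    sub_of (hW 2 ![0, 3] ![1, 3] (by decide) (by decide) (by decide)) (by
      rw [m2, m2, ← ep03, ← ep13, ← ep3, ← ep013]; push_cast; ring)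
  have wp03p23 : p3 * p023 ≤ p03 * p23 :=
    sub_of (hW 2 ![0, 3] ![2, 3] (by decide) (by decide) (by decide)) (by
      rw [m2, m2, ← ep03, ← ep23, ← ep3, ← ep023]; push_cast; ring)
  have wp13p23 : p3 * p123 ≤ p13 * p23 :=
    sub_of (hW 2 ![1, 3] ![2, 3] (by decide) (by decide) (by decide)) (by
      rw [m2, m2, ← ep13, ← ep23, ← ep3, ← ep123]; push_cast; ring)
  have wp012p013 : p01 * p0123 ≤ p012 * p013 :=
    sub_of (hW 3 ![0, 1, 2] ![0, 1, 3] (by decide) (by decide) (by decide)) (by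
      rw [m3, m3, ← ep012, ← ep013, ← ep01, ← ep0123]; push_cast; ring)
  have wp012p023 : p02 * p0123 ≤ p012 * p023 :=
    sub_of (hW 3 ![0, 1, 2] ![0, 2, 3] (by decide) (by decide) (by decide)) (by
      rw [m3, m3, ← ep012, ← ep023, ← ep02, ← ep0123]; push_cast; ring)
  have wp013p023 : p03 * p0123 ≤ p013 * p023 :=
    sub_of (hW 3 ![0, 1, 3] ![0, 2, 3] (by decide) (by decide) (by decide)) (by
      rw [m3, m3, ← ep013, ← ep023, ← ep03, ← ep0123]; push_cast; ring)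
  have wp012p123 : p12 * p0123 ≤ p012 * p123 :=
    sub_of (hW 3 ![0, 1, 2] ![1, 2, 3] (by decide) (by decide) (by decide)) (by
      rw [m3, m3, ← ep012, ← ep123, ← ep12, ← ep0123]; push_cast; ring)
  have wp013p123 : p13 * p0123 ≤ p013 * p123 :=
    sub_of (hW 3 ![0, 1, 3] ![1, 2, 3] (by decide) (by decide) (by decide)) (by
      rw [m3, m3, ← ep013, ← ep123, ← ep13, ← ep0123]; push_cast; ring)
  have wp023p123 : p23 * p0123 ≤ p023 * p123 :=
    sub_of (hW 3 ![0, 2, 3] ![1, 2, 3] (by decide) (by decide) (by decide)) (by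
      rw [m3, m3, ← ep023, ← ep123, ← ep23, ← ep0123]; push_cast; ring)
  have f012 : p012 ≤ p0 * p12 :=
    f_lem hp1 hp12 wp01p12 wp0p1
  have f102 : p012 ≤ p1 * p02 :=
    f_lem hp0 hp02 wp01p02 (wp0p1.trans_eq (mul_comm _ _))
  have f201 : p012 ≤ p2 * p01 :=
    f_lem hp0 hp01 (wp01p02.trans_eq (mul_comm _ _)) (wp0p2.trans_eq (mul_comm _ _))
  have f013 : p013 ≤ p0 * p13 :=
    f_lem hp1 hp13 wp01p13 wp0p1
  have f103 : p013 ≤ p1 * p03 :=
    f_lem hp0 hp03 wp01p03 (wp0p1.trans_eq (mul_comm _ _))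
  have f301 : p013 ≤ p3 * p01 :=
    f_lem hp0 hp01 (wp01p03.trans_eq (mul_comm _ _)) (wp0p3.trans_eq (mul_comm _ _))
  have f023 : p023 ≤ p0 * p23 :=
    f_lem hp2 hp23 wp02p23 wp0p2
  have f203 : p023 ≤ p2 * p03 :=
    f_lem hp0 hp03 wp02p03 (wp0p2.trans_eq (mul_comm _ _))
  have f302 : p023 ≤ p3 * p02 :=
    f_lem hp0 hp02 (wp02p03.trans_eq (mul_comm _ _)) (wp0p3.trans_eq (mul_comm _ _))
  have f123 : p123 ≤ p1 * p23 :=
    f_lem hp2 hp23 wp12p23 wp1p2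
  have f213 : p123 ≤ p2 * p13 :=
    f_lem hp1 hp13 wp12p13 (wp1p2.trans_eq (mul_comm _ _))
  have f312 : p123 ≤ p3 * p12 :=
    f_lem hp1 hp12 (wp12p13.trans_eq (mul_comm _ _)) (wp1p3.trans_eq (mul_comm _ _))
  have g01 : p0 * p0123 ≤ p01 * p023 :=
    g_lem hp0 hp02 hp023 wp01p02 wp012p023
  have g02 : p0 * p0123 ≤ p02 * p013 :=
    g_lem hp0 hp01 hp013 (wp01p02.trans_eq (mul_comm _ _)) wp012p013
  have g03 : p0 * p0123 ≤ p03 * p012 :=
    g_lem hp0 hp01 hp012 (wp01p03.trans_eq (mul_comm _ _)) (wp012p013.trans_eq (mul_comm _ _))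
  have g10 : p1 * p0123 ≤ p01 * p123 :=
    g_lem hp1 hp12 hp123 wp01p12 wp012p123
  have g12 : p1 * p0123 ≤ p12 * p013 :=
    g_lem hp1 hp01 hp013 (wp01p12.trans_eq (mul_comm _ _)) wp012p013
  have g13 : p1 * p0123 ≤ p13 * p012 :=
    g_lem hp1 hp01 hp012 (wp01p13.trans_eq (mul_comm _ _)) (wp012p013.trans_eq (mul_comm _ _))
  have g20 : p2 * p0123 ≤ p02 * p123 :=
    g_lem hp2 hp12 hp123 wp02p12 wp012p123
  have g21 : p2 * p0123 ≤ p12 * p023 :=
    g_lem hp2 hp02 hp023 (wp02p12.trans_eq (mul_comm _ _)) wp012p023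
  have g23 : p2 * p0123 ≤ p23 * p012 :=
    g_lem hp2 hp02 hp012 (wp02p23.trans_eq (mul_comm _ _)) (wp012p023.trans_eq (mul_comm _ _))
  have g30 : p3 * p0123 ≤ p03 * p123 :=
    g_lem hp3 hp13 hp123 wp03p13 wp013p123
  have g31 : p3 * p0123 ≤ p13 * p023 :=
    g_lem hp3 hp03 hp023 (wp03p13.trans_eq (mul_comm _ _)) wp013p023
  have g32 : p3 * p0123 ≤ p23 * p013 :=
    g_lem hp3 hp03 hp013 (wp03p23.trans_eq (mul_comm _ _)) (wp013p023.trans_eq (mul_comm _ _))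
  have k1 : 3 * (p012 + p013 + p023 + p123) ≤ (p0 + p1 + p2 + p3) * (p01 + p02 + p03 + p12 + p13 + p23) := by
    have : 0 < p0 * p01 + p0 * p02 + p0 * p03 + p1 * p01 + p1 * p12 + p1 * p13 + p2 * p02 + p2 * p12 + p2 * p23 + p3 * p03 + p3 * p13 + p3 * p23 := by positivity
    linarith only [this, f012, f102, f201, f013, f103, f301, f023, f203, f302, f123, f213, f312]
  have k2 : 3 * ((p0 + p1 + p2 + p3) * p0123) ≤ (p01 + p02 + p03 + p12 + p13 + p23) * (p012 + p013 + p023 + p123) := by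
    have : 0 < p01 * p012 + p01 * p013 + p02 * p012 + p02 * p023 + p03 * p013 + p03 * p023 + p12 * p012 + p12 * p123 + p13 * p013 + p13 * p123 + p23 * p023 + p23 * p123 := by positivity
    linarith only [this, g01, g02, g03, g10, g12, g13, g20, g21, g23, g30, g31, g32]
  refine hurwitz4 (p0 + p1 + p2 + p3) (p01 + p02 + p03 + p12 + p13 + p23) (p012 + p013 + p023 + p123) p0123 (by positivity) (by positivity) (by positivity) (by positivity) ?_ z ?_
  · exact h_lem (by positivity) (by positivity) (by positivity) k1 k2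
  push_cast
  rw [← ep0, ← ep1, ← ep2, ← ep3, ← ep01, ← ep02, ← ep03, ← ep12, ← ep13, ← ep23, ← ep012, ← ep013, ← ep023, ← ep123, ← ep0123]
  linear_combination hz

theorem stable_le_four {n : ℕ} (hn : n ≤ 4) (A : Matrix (Fin n) (Fin n) ℂ) (hP : IsP A)
    (hW : WeakSignSym A) : IsStable A := by
  interval_cases n
  · intro z hz
    rw [mem_spec_iff] at hz
    simp at hz
  · intro z hz
    rw [mem_spec_iff, Matrix.det_unique] at hz
    obtain ⟨p0, hp0, ep0⟩ := hP.minor (k := 0) ![0] (by decide)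
    rw [m1] at ep0
    simp at hz
    have : z = p0 := by rw [← ep0]; linear_combination -hz
    rw [this]; simpa using hp0
  · exact stable2 A hP
  · exact stable3 A hP hW
  · exact stable4 A hP hW

end Pool.Agent.Lib.helper24.GKK
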