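import Pool.Agent.Lib.helper24.GKKEx

set_option autoImplicit false

namespace Pool.Agent.Lib.helper24.GKK

open Matrix

theorem lmin_le_of_mem {ι : Type} [Fintype ι] [DecidableEq ι] {B : Matrix ι ι ℂ} {x : ℝ}
    (h : (x : ℂ) ∈ spectrum ℂ B) : lmin B ≤ (x : EReal) := sInf_le ⟨x, h, rfl⟩

theorem exists_lmin {ι : Type} [Fintype ι] [DecidableEq ι] {B : Matrix ι ι ℂ} (h : lmin B < ⊤) :
    ∃ l : ℝ, lmin B = (l : EReal) ∧ (l : ℂ) ∈ spectrum ℂ B := by
  have hfin : {x : ℝ | (x : ℂ) ∈ spectrum ℂ B}.Finite :=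
    Set.Finite.preimage (f := fun x : ℝ => (x : ℂ)) Complex.ofReal_injective.injOn
      B.finite_spectrum
  have hne : ((fun x : ℝ => (x : EReal)) '' {x : ℝ | (x : ℂ) ∈ spectrum ℂ B}).Nonempty := by
    by_contra hn
    rw [Set.not_nonempty_iff_eq_empty] at hn
    rw [lmin, hn, sInf_empty] at h
    exact lt_irrefl _ h
  obtain ⟨x, hx, e⟩ := hne.csInf_mem (hfin.image _)
  exact ⟨x, e.symm, hx⟩

theorem mem_of_lmin {ι : Type} [Fintype ι] [DecidableEq ι] {B : Matrix ι ι ℂ} {l : ℝ}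
    (h : lmin B = (l : EReal)) : (l : ℂ) ∈ spectrum ℂ B := by
  obtain ⟨x, e, hx⟩ := exists_lmin (B := B) (by rw [h]; exact EReal.coe_lt_top _)
  rw [h, EReal.coe_eq_coe_iff] at e
  rwa [e]

theorem arg_le_of {u : ℂ} (h1 : 0 ≤ u.re) (h2 : 3 * u.im ^ 2 ≤ u.re ^ 2) :
    |Complex.arg u| ≤ Real.pi / 6 := by
  rw [Complex.arg_of_re_nonneg h1]
  have hb : |u.im / ‖u‖| ≤ 1 / 2 := by
    rw [abs_div, abs_norm]
    by_cases h0 : ‖u‖ = 0
    · rw [h0]; simp
    · rw [div_le_iff₀ (lt_of_le_of_ne (norm_nonneg _) (Ne.symm h0))]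
      refine (pow_le_pow_iff_left₀ (abs_nonneg _) (by positivity) two_ne_zero).mp ?_
      rw [sq_abs, mul_pow, ← Complex.normSq_eq_norm_sq, Complex.normSq_apply]
      nlinarith
  have hp := Real.pi_pos
  have e : Real.arcsin (1 / 2) = Real.pi / 6 := by
    rw [← Real.sin_pi_div_six, Real.arcsin_sin (by linarith) (by linarith)]
  rw [abs_le] at hb ⊢
  constructor
  · rw [← e, ← Real.arcsin_neg]; exact Real.monotone_arcsin hb.1
  · rw [← e]; exact Real.monotone_arcsin hb.2

theorem im_le_re_of_arg {u : ℂ} (h : |Complex.arg u| ≤ Real.pi / 4) : u.im ≤ u.re := by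
  rw [abs_le] at h
  have h1 : 0 ≤ Real.cos (u.arg + Real.pi / 4) :=
    Real.cos_nonneg_of_mem_Icc ⟨by linarith [Real.pi_pos], by linarith⟩
  rw [Real.cos_add, Real.cos_pi_div_four, Real.sin_pi_div_four] at h1
  have h2 : Real.sin u.arg ≤ Real.cos u.arg := by
    have : 0 < Real.sqrt 2 / 2 := by positivity
    by_contra hn
    nlinarith
  rw [← Complex.norm_mul_cos_arg, ← Complex.norm_mul_sin_arg]
  exact mul_le_mul_of_nonneg_left h2 (norm_nonneg _)

theorem exV_not_varga : ¬ VargaIneq (toC exV) := by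
  intro h
  have hT := exV_isTau
  have h1 := (hT.1 Finset.univ Finset.univ Finset.univ_nonempty (Finset.Subset.refl _)).2
  rw [lmin_univ] at h1
  obtain ⟨l, hl, _⟩ := exists_lmin h1
  have hl0 : 0 ≤ l := by have := hT.2; rw [hl] at this; exact_mod_cast this
  refine exV_not fun z hz => ?_
  by_cases e : z = l
  · rw [e]; simpa using hl0
  · have := h l hl z hz e
    have := im_le_re_of_arg (u := z - l) (by
      refine this.trans (le_of_eq ?_); push_cast; ring)
    simp at this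
    linarith

theorem diag_real {n : ℕ} {A : Matrix (Fin n) (Fin n) ℂ} (h : IsOmega A) (i : Fin n) :
    ∃ a : ℝ, A i i = a ∧ lmin (psub A {i}) = (a : EReal) := by
  obtain ⟨a, ha, hm⟩ := exists_lmin (h {i} {i} (Finset.singleton_nonempty _)
    (Finset.Subset.refl _)).2
  refine ⟨a, ?_, ha⟩
  rw [mem_spec_iff, Matrix.det_unique] at hm
  simp only [psub, Matrix.sub_apply, submatrix_apply, diagonal_apply_eq] at hm
  have e : ((default : ({i} : Finset (Fin n))) : Fin n) = i := by simp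
  rw [e] at hm
  exact sub_eq_zero.mp hm

theorem varga1 (A : Matrix (Fin 1) (Fin 1) ℂ) : VargaIneq A := by
  intro l hl z hz hne
  have h1 := mem_of_lmin hl
  rw [mem_spec_iff, Matrix.det_unique] at h1 hz
  simp at h1 hz
  exact absurd (by linear_combination h1 - hz) hne

theorem varga2 (A : Matrix (Fin 2) (Fin 2) ℂ) (h : IsOmega A) : VargaIneq A := by
  intro l hl z hz hne
  have h1 := mem_of_lmin hl
  obtain ⟨a, ha, -⟩ := diag_real h 0
  obtain ⟨b, hb, -⟩ := diag_real h 1
  have hz' := hz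
  rw [mem_spec_iff, Matrix.det_fin_two] at h1 hz'
  simp [ha, hb] at h1 hz'
  have e : z = ((a + b - l : ℝ) : ℂ) := by
    have : (z - l) * (z - ((a + b - l : ℝ) : ℂ)) = 0 := by
      push_cast; linear_combination hz' - h1
    exact sub_eq_zero.mp ((mul_eq_zero.mp this).resolve_left (sub_ne_zero.mpr hne))
  rw [e] at hz
  have h2 := lmin_le_of_mem hz
  rw [hl, EReal.coe_le_coe_iff] at h2
  rw [e, ← Complex.ofReal_sub, Complex.arg_ofReal_of_nonneg (by linarith)]
  simp

theorem pair_nonneg {A : Matrix (Fin 3) (Fin 3) ℂ} (h : IsOmega A) (i j : Fin 3) (a b : ℝ)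
    (ha : lmin (psub A {i}) = (a : EReal)) (hb : lmin (psub A {j}) = (b : EReal))
    (key : ∀ x : ℂ, (pw A {i, j} (fun _ => x)).det = 0 → A i j * A j i = (a - x) * (b - x)) :
    ∃ w : ℝ, 0 ≤ w ∧ A i j * A j i = w := by
  obtain ⟨m, hm, hs⟩ := exists_lmin (h {i, j} {i, j} (by simp) (Finset.Subset.refl _)).2
  have h1 := (h {i, j} {i} (by simp) (by simp)).1
  have h2 := (h {i, j} {j} (by simp) (by simp)).1
  rw [hm, ha, EReal.coe_le_coe_iff] at h1
  rw [hm, hb, EReal.coe_le_coe_iff] at h2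
  rw [mem_spec_psub] at hs
  refine ⟨(a - m) * (b - m), mul_nonneg (by linarith) (by linarith), ?_⟩
  rw [key _ hs]; push_cast; ring

theorem varga3 (A : Matrix (Fin 3) (Fin 3) ℂ) (h : IsOmega A) : VargaIneq A := by
  intro l hl z hz hne
  have h1 := mem_of_lmin hl
  obtain ⟨a, ha, ha'⟩ := diag_real h 0
  obtain ⟨b, hb, hb'⟩ := diag_real h 1
  obtain ⟨c, hc, hc'⟩ := diag_real h 2
  obtain ⟨w01, p01, e01⟩ := pair_nonneg h 0 1 a b ha' hb' (by
    intro x hx
    rw [Matrix.det_fin_three] at hx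
    simp [pw, ha, hb] at hx
    linear_combination -hx)
  obtain ⟨w02, p02, e02⟩ := pair_nonneg h 0 2 a c ha' hc' (by
    intro x hx
    rw [Matrix.det_fin_three] at hx
    simp [pw, ha, hc] at hx
    linear_combination -hx)
  obtain ⟨w12, p12, e12⟩ := pair_nonneg h 1 2 b c hb' hc' (by
    intro x hx
    rw [Matrix.det_fin_three] at hx
    simp [pw, hb, hc] at hx
    linear_combination -hx)
  have la : l ≤ a := by
    have := (h Finset.univ {0} (by simp) (by simp)).1
    rwa [lmin_univ, hl, ha', EReal.coe_le_coe_iff] at this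
  have lb : l ≤ b := by
    have := (h Finset.univ {1} (by simp) (by simp)).1
    rwa [lmin_univ, hl, hb', EReal.coe_le_coe_iff] at this
  have lc : l ≤ c := by
    have := (h Finset.univ {2} (by simp) (by simp)).1
    rwa [lmin_univ, hl, hc', EReal.coe_le_coe_iff] at this
  have hz' := hz
  rw [mem_spec_iff, Matrix.det_fin_three] at h1 hz'
  simp [ha, hb, hc] at h1 hz'
  obtain ⟨E1, hE1⟩ : ∃ E : ℝ, E = (a - l) + (b - l) + (c - l) := ⟨_, rfl⟩
  obtain ⟨E2, hE2⟩ : ∃ E : ℝ,
    E = (a - l) * (b - l) + (a - l) * (c - l) + (b - l) * (c - l) - w01 - w02 - w12 := ⟨_, rfl⟩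
  have hq : (z - l) ^ 2 - E1 * (z - l) + E2 = 0 := by
    have : (z - l) * ((z - l) ^ 2 - E1 * (z - l) + E2) = 0 := by
      rw [hE1, hE2]
      push_cast
      rw [← e01, ← e02, ← e12]
      linear_combination h1 - hz'
    exact (mul_eq_zero.mp this).resolve_left (sub_ne_zero.mpr hne)
  have h3 : 3 * E2 ≤ E1 ^ 2 := by
    rw [hE1, hE2]
    nlinarith [sq_nonneg (a - b), sq_nonneg (a - c), sq_nonneg (b - c)]
  have h0 : 0 ≤ E1 := by rw [hE1]; linarith
  have goal : Real.pi / 2 - Real.pi / ((3 : ℕ) : ℝ) = Real.pi / 6 := by push_cast; ring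
  rw [goal]
  by_cases him : z.im = 0
  · have e : z = ((z.re : ℝ) : ℂ) := Complex.ext (by simp) (by simp [him])
    rw [e] at hz
    have h2 := lmin_le_of_mem hz
    rw [hl, EReal.coe_le_coe_iff] at h2
    refine arg_le_of (by simpa using h2) ?_
    simp [him]; positivity
  · obtain ⟨u, hu⟩ : ∃ u, u = z - l := ⟨_, rfl⟩
    have hui : u.im ≠ 0 := by rw [hu]; simpa using him
    rw [← hu] at hq ⊢
    have hre := congrArg Complex.re hq
    have hi := congrArg Complex.im hq
    simp [pow_succ] at hre hi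
    have : u.im * (2 * u.re - E1) = 0 := by linarith
    have h4 : E1 = 2 * u.re := by linarith [(mul_eq_zero.mp this).resolve_left hui]
    refine arg_le_of (by linarith) ?_
    rw [h4] at h3 hre
    nlinarith

theorem varga_le_three {n : ℕ} (hn : n ≤ 3) (A : Matrix (Fin n) (Fin n) ℂ) (h : IsOmega A) :
    VargaIneq A := by
  interval_cases n
  · intro l _ z hz
    rw [mem_spec_iff] at hz
    simp at hz
  · exact varga1 A
  · exact varga2 A h
  · exact varga3 A h

end Pool.Agent.Lib.helper24.GKK
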