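import Mathlib

set_option autoImplicit false

namespace Pool.Agent.Lib.helper24.Hall6

instance : Fact (Nat.Prime 23) := ⟨by norm_num⟩

abbrev F := ZMod 23
abbrev G := GL (Fin 6) F

/-- the cyclic shift of the first five coordinates -/
def sh (k : ZMod 5) (j : Fin 6) : Fin 6 :=
  if j.val = 5 then j else ⟨(j.val + k.val) % 5, by omega⟩

lemma sh_zero : ∀ j, sh 0 j = j := by decide
lemma sh_add : ∀ k l j, sh (k + l) j = sh k (sh l j) := by decide
lemma sh_five : ∀ k j, sh k j = 5 ↔ j = 5 := by decide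

/-- powers of two modulo 23 -/
def pw (a : ZMod 11) : F := 2 ^ a.val

lemma pw_add : ∀ a b, pw (a + b) = pw a * pw b := by decide
lemma pw_zero : pw 0 = 1 := by decide
lemma pw_ne : ∀ a, pw a ≠ 0 := by decide
lemma pw_one : ∀ a, pw a = 1 → a = 0 := by decide

@[ext] structure A where
  k : ZMod 5
  a : Fin 6 → ZMod 11

instance : Mul A := ⟨fun x y => ⟨x.k + y.k, fun j => x.a (sh y.k j) + y.a j⟩⟩
instance : One A := ⟨⟨0, 0⟩⟩
instance : Inv A := ⟨fun x => ⟨-x.k, fun j => - x.a (sh (-x.k) j)⟩⟩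

@[simp] lemma mul_k (x y : A) : (x * y).k = x.k + y.k := rfl
@[simp] lemma mul_a (x y : A) (j : Fin 6) : (x * y).a j = x.a (sh y.k j) + y.a j := rfl
@[simp] lemma one_k : (1 : A).k = 0 := rfl
@[simp] lemma one_a (j : Fin 6) : (1 : A).a j = 0 := rfl
@[simp] lemma inv_k (x : A) : (x⁻¹).k = - x.k := rfl
@[simp] lemma inv_a (x : A) (j : Fin 6) : (x⁻¹).a j = - x.a (sh (-x.k) j) := rfl

instance : Group A := Group.ofLeftAxioms
  (fun x y z => by
    ext
    · simp [add_assoc]
    · simp [add_assoc, sh_add])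
  (fun x => by
    ext
    · simp
    · simp)
  (fun x => by
    ext
    · simp
    · simp [← sh_add, sh_zero])

def eqv : A ≃ ZMod 5 × (Fin 6 → ZMod 11) where
  toFun x := (x.k, x.a)
  invFun y := ⟨y.1, y.2⟩
  left_inv _ := rfl
  right_inv _ := rfl

lemma card_A : Nat.card A = 5 * 11 ^ 6 := by
  rw [Nat.card_congr eqv, Nat.card_prod, Nat.card_fun]
  simp [Nat.card_zmod]

/-- the monomial matrix -/
def mon (x : A) : Matrix (Fin 6) (Fin 6) F := fun i j => if i = sh x.k j then pw (x.a j) else 0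

def monH : A →* Matrix (Fin 6) (Fin 6) F where
  toFun := mon
  map_one' := by
    ext i j
    simp [mon, sh_zero, pw_zero, Matrix.one_apply]
  map_mul' x y := by
    ext i j
    simp only [mon, Matrix.mul_apply, mul_k, mul_a, sh_add, pw_add]
    rw [Finset.sum_eq_single (sh y.k j)]
    · simp
    · intro b _ hb
      simp [hb]
    · simp

def phi : A →* G := monH.toHomUnits

lemma phi_val (x : A) : ((phi x : G) : Matrix (Fin 6) (Fin 6) F) = mon x := rfl

lemma sh_inj0 : ∀ k, (0 : Fin 6) = sh k 0 → k = 0 := by decide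

lemma phi_inj : Function.Injective phi := by
  rw [injective_iff_map_eq_one]
  intro x hx
  have h : mon x = 1 := by rw [← phi_val, hx]; rfl
  have hk : x.k = 0 := by
    have := congrFun (congrFun h 0) 0
    simp only [mon, Matrix.one_apply_eq] at this
    apply sh_inj0
    by_contra hc
    rw [if_neg hc] at this
    exact zero_ne_one this
  ext j
  · simp [hk]
  · have := congrFun (congrFun h j) j
    simp only [mon, Matrix.one_apply_eq, hk, sh_zero, if_true] at this
    simpa using pw_one _ this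

def H : Subgroup G := phi.range

lemma card_H : Nat.card H = 5 * 11 ^ 6 := by
  rw [← card_A]
  exact (Nat.card_congr (MonoidHom.ofInjective phi_inj).toEquiv).symm

lemma card_G : Nat.card G = ∏ i : Fin 6, (23 ^ 6 - 23 ^ (i : ℕ)) := by
  rw [Matrix.card_GL_field]
  simp [ZMod.card]

lemma hall : Nat.Coprime (Nat.card H) H.index := by
  have h := H.card_mul_index
  rw [card_H, card_G] at h
  rw [card_H]
  have h2 : H.index = (∏ i : Fin 6, (23 ^ 6 - 23 ^ (i : ℕ))) / (5 * 11 ^ 6) := by
    rw [← h]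
    simp
  rw [h2]
  simp only [Fin.prod_univ_six]
  norm_num

def kH : A →* Multiplicative (ZMod 5) where
  toFun x := Multiplicative.ofAdd x.k
  map_one' := rfl
  map_mul' _ _ := rfl

noncomputable def psi : H →* Multiplicative (ZMod 5) :=
  kH.comp (MonoidHom.ofInjective phi_inj).symm.toMonoidHom

lemma psi_surj : Function.Surjective psi := by
  intro y
  refine ⟨MonoidHom.ofInjective phi_inj ⟨Multiplicative.toAdd y, 0⟩, ?_⟩
  show kH ((MonoidHom.ofInjective phi_inj).symm _) = y
  rw [MulEquiv.symm_apply_apply]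
  rfl

lemma card_ker : Nat.card psi.ker = 11 ^ 6 := by
  have h := psi.ker.card_mul_index
  rw [Subgroup.index_ker, MonoidHom.range_eq_top.mpr psi_surj, card_H] at h
  have h5 : Nat.card (⊤ : Subgroup (Multiplicative (ZMod 5))) = 5 := by
    simp [Nat.card_zmod]
  rw [h5] at h
  omega

lemma tower : ∃ (n : ℕ) (N : ℕ → Subgroup H), N 0 = ⊥ ∧ N n = ⊤ ∧
        (∀ i, i < n → N i ≤ N (i + 1) ∧ (N (i + 1)).Normal ∧
          ∃ p : ℕ, p.Prime ∧
            Nat.card (N (i + 1)) = Nat.card (N i) * p ^ (Nat.card H).factorization p) := by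
  have f11 : (5 * 11 ^ 6 : ℕ).factorization 11 = 6 := by
    rw [Nat.factorization_mul (by norm_num) (by norm_num), Nat.Prime.factorization_pow (by norm_num),
      Nat.Prime.factorization (by norm_num)]
    simp
  have f5 : (5 * 11 ^ 6 : ℕ).factorization 5 = 1 := by
    rw [Nat.factorization_mul (by norm_num) (by norm_num), Nat.Prime.factorization_pow (by norm_num),
      Nat.Prime.factorization (by norm_num)]
    simp
  refine ⟨2, fun i => if i = 0 then ⊥ else if i = 1 then psi.ker else ⊤, by simp, by simp, ?_⟩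
  intro i hi
  interval_cases i
  · refine ⟨by simp, by simpa using psi.normal_ker, 11, by norm_num, ?_⟩
    show Nat.card psi.ker = Nat.card (⊥ : Subgroup H) * _
    rw [card_H, f11, card_ker, Subgroup.card_bot, one_mul]
  · refine ⟨by simp, by simp, 5, by norm_num, ?_⟩
    show Nat.card (⊤ : Subgroup H) = Nat.card psi.ker * _
    rw [card_H, f5, card_ker, Subgroup.card_top, card_H]
    norm_num

def sA : A := ⟨1, 0⟩
def zA : A := ⟨0, fun j => if j = 5 then 1 else 0⟩

def gM : Matrix (Fin 6) (Fin 6) F := fun i j =>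
  if j = 5 then (if i = 5 then 0 else 1) else
    if i = 5 then 14 else (if i = j then 1 else 0) - 14

def zM : Matrix (Fin 6) (Fin 6) F := fun i j =>
  (if i = j then 1 else 0) + (if i = 5 ∨ j = 5 then 0 else 14)

lemma gg : gM * gM = 1 := by decide +kernel
lemma gs : gM * mon sA = mon sA * gM := by decide +kernel
lemma gz : gM * mon zA * gM = zM := by decide +kernel

def g : G := ⟨gM, gM, gg, gg⟩

lemma g_s : g * phi sA * g⁻¹ = phi sA := by
  rw [mul_inv_eq_iff_eq_mul]
  exact Units.ext gs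

lemma g_z : ((g * phi zA * g⁻¹ : G) : Matrix (Fin 6) (Fin 6) F) = zM := gz

/-- the stabiliser of the hyperplane `v 5 = 0` -/
def S : Subgroup G where
  carrier := {M | ∀ v : Fin 6 → F, (Matrix.mulVec (M : Matrix (Fin 6) (Fin 6) F) v) 5 = 0 ↔ v 5 = 0}
  one_mem' := by intro v; simp
  mul_mem' := by
    intro a b ha hb v
    rw [Units.val_mul, ← Matrix.mulVec_mulVec, ha, hb]
  inv_mem' := by
    intro a ha v
    rw [← ha, Matrix.mulVec_mulVec, ← Units.val_mul]
    simp

lemma mon_vec (x : A) (v : Fin 6 → F) (j : Fin 6) :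
    (Matrix.mulVec (mon x) v) (sh x.k j) = pw (x.a j) * v j := by
  simp only [Matrix.mulVec, dotProduct, mon]
  rw [Finset.sum_eq_single j]
  · simp
  · intro b _ hb
    rw [if_neg, zero_mul]
    intro h
    apply hb
    have := congrArg (sh (-x.k)) h
    rw [← sh_add, ← sh_add, neg_add_cancel, sh_zero, sh_zero] at this
    exact this.symm
  · simp

lemma H_le_S : H ≤ S := by
  rintro _ ⟨x, rfl⟩ v
  have h := mon_vec x v 5
  rw [(sh_five x.k 5).mpr rfl] at h
  rw [phi_val, h]
  simp [pw_ne]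

lemma z_mem_S : g * phi zA * g⁻¹ ∈ S := by
  intro v
  rw [g_z]
  simp [Matrix.mulVec, dotProduct, zM, Fin.sum_univ_six]

def K : Subgroup G := Subgroup.closure {phi sA, phi zA}

lemma K_le : K ≤ H := by
  rw [K, Subgroup.closure_le]
  rintro x (rfl | rfl)
  · exact ⟨_, rfl⟩
  · exact ⟨_, rfl⟩

lemma L_le : H ⊔ K.map (MulAut.conj g).toMonoidHom ≤ S := by
  refine sup_le H_le_S ?_
  rw [Subgroup.map_le_iff_le_comap, K, Subgroup.closure_le]
  rintro x (rfl | rfl)
  · show g * phi sA * g⁻¹ ∈ S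
    rw [g_s]
    exact H_le_S ⟨_, rfl⟩
  · exact z_mem_S

lemma pow_k (x : A) (n : ℕ) : (x ^ n).k = n * x.k := by
  induction n with
  | zero => simp
  | succ n ih => rw [pow_succ, mul_k, ih]; push_cast; ring

lemma pow_a (x : A) (hx : x.k = 0) (n : ℕ) (j : Fin 6) : (x ^ n).a j = n * x.a j := by
  induction n with
  | zero => simp
  | succ n ih => rw [pow_succ, mul_a, hx, sh_zero, ih]; push_cast; ring

lemma sA_pow : sA ^ 5 = 1 := by
  ext j
  · rw [pow_k]; decide
  · simp only [pow_succ, pow_zero, mul_a, sA, one_a]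
    simp

lemma zA_pow : zA ^ 11 = 1 := by
  ext j
  · rw [pow_k]; simp [zA]
  · rw [pow_a _ rfl]
    have : ((11 : ℕ) : ZMod 11) = 0 := by decide
    rw [this]; simp

lemma sz : sA * zA = zA * sA := by
  ext j
  · simp [sA, zA]
  · simp [sA, zA, sh_five, sh_zero]

lemma const (k : ZMod 5) (hk : k ≠ 0) (b : Fin 6 → ZMod 11) (h : ∀ j, b (sh k j) = b j)
    (j : Fin 6) (hj : j ≠ 5) : b j = b 0 := by
  have h1 : ∀ n : ℕ, b (sh (n * k) 0) = b 0 := by
    intro n
    induction n with
    | zero => simp [sh_zero]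
    | succ n ih =>
      have : ((n + 1 : ℕ) : ZMod 5) * k = k + n * k := by push_cast; ring
      rw [this, sh_add, h, ih]
  have h2 : ∀ k : ZMod 5, k ≠ 0 → ∀ j : Fin 6, j ≠ 5 → ∃ n : Fin 5, sh ((n : ℕ) * k) 0 = j := by
    decide
  obtain ⟨n, hn⟩ := h2 k hk j hj
  rw [← hn, h1]

theorem main : ¬ ∃ x ∈ H ⊔ K.map (MulAut.conj g).toMonoidHom,
    K.map (MulAut.conj (x * g)).toMonoidHom ≤ H := by
  rintro ⟨x, hx, hle⟩
  have hxS := L_le hx
  obtain ⟨a, ha⟩ := hle ⟨phi sA, Subgroup.subset_closure (by simp), rfl⟩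
  obtain ⟨b, hb⟩ := hle ⟨phi zA, Subgroup.subset_closure (by simp), rfl⟩
  have ha5 : a ^ 5 = 1 := by
    apply phi_inj
    rw [map_pow, ha, ← map_pow, ← map_pow, sA_pow]
    simp
  have hb11 : b ^ 11 = 1 := by
    apply phi_inj
    rw [map_pow, hb, ← map_pow, ← map_pow, zA_pow]
    simp
  have hab : a * b = b * a := by
    apply phi_inj
    rw [map_mul, map_mul, ha, hb, ← map_mul, ← map_mul, ← map_mul, ← map_mul, sz]
  have hbk : b.k = 0 := by
    have := congrArg A.k hb11
    rw [pow_k] at this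
    have h11 : ((11 : ℕ) : ZMod 5) = 1 := by decide
    rw [h11, one_mul] at this
    exact this
  have hak : a.k ≠ 0 := by
    intro h0
    have h1 : a = 1 := by
      ext j
      · simp [h0]
      · have := congrArg (fun y : A => y.a j) ha5
        simp only [pow_a _ h0, one_a] at this
        have h5 : ∀ t : ZMod 11, ((5 : ℕ) : ZMod 11) * t = 0 → t = 0 := by decide
        simpa using h5 _ this
    rw [h1, map_one] at ha
    have h2 : phi sA = 1 := by
      have := ha.symm
      simpa [mul_inv_eq_one, MulAut.conj_apply] using this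
    have h3 : sA = 1 := phi_inj (by rw [h2, map_one])
    have := congrArg A.k h3
    revert this
    decide
  have hc : ∀ j, b.a (sh a.k j) = b.a j := by
    intro j
    have := congrArg (fun y : A => y.a j) hab
    simp only [mul_a, hbk, sh_zero] at this
    linear_combination - this
  have hscal : ∀ v : Fin 6 → F, v 5 = 0 → Matrix.mulVec (mon b) v = pw (b.a 0) • v := by
    intro v hv
    ext j
    have := mon_vec b v j
    rw [hbk, sh_zero] at this
    rw [this]
    by_cases hj : j = 5
    · subst hj; simp [hv]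
    · rw [const _ hak _ hc j hj]; simp
  have hrel : phi b * x = x * (g * phi zA * g⁻¹) := by
    rw [hb]
    simp [MulAut.conj_apply, mul_assoc]
  have hz : ∀ v : Fin 6 → F, v 5 = 0 → Matrix.mulVec zM v = pw (b.a 0) • v := by
    intro v hv
    have h1 := hscal _ ((hxS v).mpr hv)
    rw [Matrix.mulVec_mulVec, ← phi_val, ← Units.val_mul, hrel, Units.val_mul, g_z,
      ← Matrix.mulVec_mulVec, ← Matrix.mulVec_smul] at h1
    have h2 := congrArg (Matrix.mulVec ((x⁻¹ : G) : Matrix (Fin 6) (Fin 6) F)) h1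
    rw [Matrix.mulVec_mulVec, Matrix.mulVec_mulVec, Matrix.mulVec_mulVec, ← Units.val_mul] at h2
    simpa using h2
  have h1 := congrFun (hz ![1, 0, 0, 0, 0, 0] rfl) 1
  simp [Matrix.mulVec, dotProduct, zM, Fin.sum_univ_six] at h1
  revert h1
  decide

end Pool.Agent.Lib.helper24.Hall6
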