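import Mathlib

set_option autoImplicit false

namespace Pool.Agent.Lib.helper24.Hayashi

open Equiv

/-- the wreath product of `ZMod 105` with the symmetric group on four points -/
@[ext]
structure W where
  b : Fin 4 → ZMod 105
  s : Perm (Fin 4)

instance : Mul W := ⟨fun x y => ⟨fun i => x.b i + y.b (x.s⁻¹ i), x.s * y.s⟩⟩
instance : One W := ⟨⟨fun _ => 0, 1⟩⟩
instance : Inv W := ⟨fun x => ⟨fun i => - x.b (x.s i), x.s⁻¹⟩⟩

@[simp] lemma mul_b (x y : W) (i : Fin 4) : (x * y).b i = x.b i + y.b (x.s⁻¹ i) := rfl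
@[simp] lemma mul_s (x y : W) : (x * y).s = x.s * y.s := rfl
@[simp] lemma one_b (i : Fin 4) : (1 : W).b i = 0 := rfl
@[simp] lemma one_s : (1 : W).s = 1 := rfl
@[simp] lemma inv_b (x : W) (i : Fin 4) : (x⁻¹).b i = - x.b (x.s i) := rfl
@[simp] lemma inv_s (x : W) : (x⁻¹).s = x.s⁻¹ := rfl

instance : Group W := Group.ofLeftAxioms
  (fun x y z => by ext i <;> simp [add_assoc, mul_assoc])
  (fun x => by ext i <;> simp)
  (fun x => by ext i <;> simp)

instance : Finite W :=
  Finite.of_injective (fun x : W => (x.b, x.s)) (fun x y h => by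
    ext1
    · exact congrArg Prod.fst h
    · exact congrArg Prod.snd h)

/-- base elements -/
def base (β : Fin 4 → ZMod 105) : W := ⟨β, 1⟩

/-- top elements -/
def top (σ : Perm (Fin 4)) : W := ⟨fun _ => 0, σ⟩

@[simp] lemma base_b (β : Fin 4 → ZMod 105) : (base β).b = β := rfl
@[simp] lemma base_s (β : Fin 4 → ZMod 105) : (base β).s = 1 := rfl
@[simp] lemma top_b (σ : Perm (Fin 4)) (i : Fin 4) : (top σ).b i = 0 := rfl
@[simp] lemma top_s (σ : Perm (Fin 4)) : (top σ).s = σ := rfl

lemma base_add (β γ : Fin 4 → ZMod 105) : base (β + γ) = base β * base γ := by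
  ext i <;> simp

lemma base_pow (β : Fin 4 → ZMod 105) (n : ℕ) : base β ^ n = base (n • β) := by
  induction n with
  | zero => ext i <;> simp
  | succ n ih => rw [pow_succ, ih, ← base_add, succ_nsmul]

/-- the distinguished element -/
def c : W := ⟨![70, 0, 15, 21], swap 0 1⟩

lemma c_sq : c ^ 2 = base ![70, 70, 30, 42] := by
  rw [pow_two]
  ext1
  · funext i; revert i; decide
  · simp [c]

lemma c70 : c ^ 70 = base ![35, 35, 0, 0] := by
  rw [show 70 = 2 * 35 from rfl, pow_mul, c_sq, base_pow]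
  congr 1; funext i; revert i; decide

lemma c42 : c ^ 42 = base ![0, 0, 0, 42] := by
  rw [show 42 = 2 * 21 from rfl, pow_mul, c_sq, base_pow]
  congr 1; funext i; revert i; decide

lemma c30 : c ^ 30 = base ![0, 0, 30, 0] := by
  rw [show 30 = 2 * 15 from rfl, pow_mul, c_sq, base_pow]
  congr 1; funext i; revert i; decide

lemma comm_iff (β : Fin 4 → ZMod 105) (z : W) :
    base β * z = z * base β ↔ ∀ i, β (z.s⁻¹ i) = β i := by
  constructor
  · intro h i
    have := congrArg (fun w : W => w.b i) h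
    simp only [mul_b, base_b, base_s, inv_one, Perm.coe_one, id_eq] at this
    linear_combination -this
  · intro h
    ext i
    · simp only [mul_b, base_b, base_s, inv_one, Perm.coe_one, id_eq, h i]; ring
    · simp

lemma conj_s (g : W) : (g * c * g⁻¹).s = swap (g.s 0) (g.s 1) := by
  simp only [mul_s, inv_s, c]
  exact (swap_apply_apply g.s 0 1).symm

lemma exists_comm (z : W) (hz : IsConj c z) :
    ∃ k : ℕ, (k = 70 ∨ k = 42 ∨ k = 30) ∧ c ^ k * z = z * c ^ k := by
  obtain ⟨g, rfl⟩ := isConj_iff.1 hz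
  have hne : g.s 0 ≠ g.s 1 := fun h => absurd (g.s.injective h) (by decide)
  have key : ∀ i j : Fin 4, i ≠ j →
      (∀ l, (![35, 35, 0, 0] : Fin 4 → ZMod 105) (swap i j l) = ![35, 35, 0, 0] l) ∨
      (∀ l, (![0, 0, 0, 42] : Fin 4 → ZMod 105) (swap i j l) = ![0, 0, 0, 42] l) ∨
      (∀ l, (![0, 0, 30, 0] : Fin 4 → ZMod 105) (swap i j l) = ![0, 0, 30, 0] l) := by decide
  rcases key _ _ hne with h | h | h
  · exact ⟨70, Or.inl rfl, by rw [c70, comm_iff, conj_s, swap_inv]; exact h⟩
  · exact ⟨42, Or.inr (Or.inl rfl), by rw [c42, comm_iff, conj_s, swap_inv]; exact h⟩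
  · exact ⟨30, Or.inr (Or.inr rfl), by rw [c30, comm_iff, conj_s, swap_inv]; exact h⟩

lemma exists_not_comm (k : ℕ) (hk : k = 70 ∨ k = 42 ∨ k = 30) :
    ∃ y, IsConj c y ∧ c ^ k * y ≠ y * c ^ k := by
  rcases hk with rfl | rfl | rfl
  · refine ⟨_, isConj_iff.2 ⟨top (swap 1 2), rfl⟩, ?_⟩
    rw [c70, Ne, comm_iff, conj_s, swap_inv, top_s]; decide
  · refine ⟨_, isConj_iff.2 ⟨top (swap 1 3), rfl⟩, ?_⟩
    rw [c42, Ne, comm_iff, conj_s, swap_inv, top_s]; decide
  · refine ⟨_, isConj_iff.2 ⟨top (swap 1 2), rfl⟩, ?_⟩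
    rw [c30, Ne, comm_iff, conj_s, swap_inv, top_s]; decide

theorem closure_top : Subgroup.closure {z : W | IsConj c z} = ⊤ := by
  set N := Subgroup.closure {z : W | IsConj c z} with hN
  have hconj : ∀ g x, x ∈ N → g * x * g⁻¹ ∈ N := by
    intro g x hx
    induction hx using Subgroup.closure_induction with
    | mem z hz => exact Subgroup.subset_closure (hz.trans (isConj_iff.2 ⟨g, rfl⟩))
    | one => simp
    | mul x y _ _ hx hy =>
      have : g * (x * y) * g⁻¹ = g * x * g⁻¹ * (g * y * g⁻¹) := by group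
      rw [this]; exact N.mul_mem hx hy
    | inv x _ hx =>
      have : g * x⁻¹ * g⁻¹ = (g * x * g⁻¹)⁻¹ := by group
      rw [this]; exact N.inv_mem hx
  have hc : c ∈ N := Subgroup.subset_closure (IsConj.refl c)
  have hperm : ∀ (σ : Perm (Fin 4)) (β : Fin 4 → ZMod 105), base β ∈ N →
      base (fun i => β (σ⁻¹ i)) ∈ N := by
    intro σ β h
    have e : base (fun i => β (σ⁻¹ i)) = top σ * base β * (top σ)⁻¹ := by
      ext i <;> simp
    rw [e]; exact hconj _ _ h
  have h01 : base ![1, -1, 0, 0] ∈ N := by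
    have e : base ![1, -1, 0, 0] = base ![1, 0, 0, 0] * c * (base ![1, 0, 0, 0])⁻¹ * c⁻¹ := by
      ext1
      · funext i; revert i; decide
      · simp
    rw [e]; exact N.mul_mem (hconj _ _ hc) (N.inv_mem hc)
  have h02 : base ![1, 0, -1, 0] ∈ N := by
    have := hperm (swap 1 2) _ h01
    rwa [show (fun i => (![1, -1, 0, 0] : Fin 4 → ZMod 105) ((swap (1 : Fin 4) 2)⁻¹ i)) =
      ![1, 0, -1, 0] from by funext i; revert i; decide] at this
  have h03 : base ![1, 0, 0, -1] ∈ N := by
    have := hperm (swap 1 3) _ h01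
    rwa [show (fun i => (![1, -1, 0, 0] : Fin 4 → ZMod 105) ((swap (1 : Fin 4) 3)⁻¹ i)) =
      ![1, 0, 0, -1] from by funext i; revert i; decide] at this
  have h0 : base ![1, 0, 0, 0] ∈ N := by
    have e1 : base ![2, 0, 0, 0] = c ^ 2 * base ![1, -1, 0, 0] ^ 70 * base ![1, 0, -1, 0] ^ 30 *
        base ![1, 0, 0, -1] ^ 42 := by
      rw [c_sq, base_pow, base_pow, base_pow, ← base_add, ← base_add, ← base_add]
      congr 1; funext i; revert i; decide +kernel
    have e : base ![1, 0, 0, 0] = base ![2, 0, 0, 0] ^ 53 := by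
      rw [base_pow]
      congr 1; funext i; revert i; decide +kernel
    rw [e]
    refine N.pow_mem ?_ _
    rw [e1]
    exact N.mul_mem (N.mul_mem (N.mul_mem (N.pow_mem hc _) (N.pow_mem h01 _))
      (N.pow_mem h02 _)) (N.pow_mem h03 _)
  have hsingle : ∀ i : Fin 4, base (Pi.single i 1) ∈ N := by
    intro i
    have := hperm (swap 0 i) _ h0
    rwa [show (fun l => (![1, 0, 0, 0] : Fin 4 → ZMod 105) ((swap (0 : Fin 4) i)⁻¹ l)) =
      Pi.single i 1 from by funext l; clear this; revert i l; decide] at this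
  have hbase : ∀ β, base β ∈ N := by
    intro β
    have e : base β = base (Pi.single 0 1) ^ (β 0).val * base (Pi.single 1 1) ^ (β 1).val *
        base (Pi.single 2 1) ^ (β 2).val * base (Pi.single 3 1) ^ (β 3).val := by
      rw [base_pow, base_pow, base_pow, base_pow, ← base_add, ← base_add, ← base_add]
      congr 1; funext i
      have hv : ∀ (a : ZMod 105) (f : Fin 4 → ZMod 105), (a.val • f) i = a * f i := by
        intro a f
        rw [Pi.smul_apply, nsmul_eq_mul, ZMod.natCast_zmod_val]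
      simp only [Pi.add_apply, hv]
      fin_cases i <;> simp
    rw [e]
    exact N.mul_mem (N.mul_mem (N.mul_mem (N.pow_mem (hsingle _) _) (N.pow_mem (hsingle _) _))
      (N.pow_mem (hsingle _) _)) (N.pow_mem (hsingle _) _)
  have ht01 : top (swap 0 1) ∈ N := by
    have e : top (swap 0 1) = (base c.b)⁻¹ * c := by
      ext i <;> simp [c]
    rw [e]; exact N.mul_mem (N.inv_mem (hbase _)) hc
  have htop : ∀ σ, top σ ∈ N := by
    intro σ
    induction σ using Perm.swap_induction_on with
    | one => exact N.one_mem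
    | swap_mul f x y hxy ih =>
      have e : top (swap x y * f) = top (swap x y) * top f := by ext i <;> simp
      rw [e]
      refine N.mul_mem ?_ ih
      have hτ : ∀ x y : Fin 4, x ≠ y → ∃ τ : Perm (Fin 4), τ 0 = x ∧ τ 1 = y := by
        decide +kernel
      obtain ⟨τ, h0, h1⟩ := hτ x y hxy
      have e2 : top (swap x y) = top τ * top (swap 0 1) * (top τ)⁻¹ := by
        ext1
        · funext i; simp
        · simp only [mul_s, top_s, inv_s]
          rw [← h0, ← h1]; exact swap_apply_apply τ 0 1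
      rw [e2]; exact hconj _ _ ht01
  rw [eq_top_iff]
  intro x _
  have e : x = base x.b * top x.s := by ext i <;> simp
  rw [e]; exact N.mul_mem (hbase _) (htop _)

/-- the conjugacy class of `c` -/
def X : Type := {z : W // IsConj c z}

instance : Finite X := inferInstanceAs (Finite {z : W // IsConj c z})

/-- conjugation action on the class -/
def psi : W →* Perm X where
  toFun g :=
    { toFun := fun y => ⟨g * y.1 * g⁻¹, y.2.trans (isConj_iff.2 ⟨g, rfl⟩)⟩
      invFun := fun y => ⟨g⁻¹ * y.1 * g⁻¹⁻¹, y.2.trans (isConj_iff.2 ⟨g⁻¹, rfl⟩)⟩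
      left_inv := fun y => Subtype.ext (by simp only; group)
      right_inv := fun y => Subtype.ext (by simp only; group) }
  map_one' := by ext y; exact Subtype.ext (by change 1 * y.1 * 1⁻¹ = y.1; group)
  map_mul' g h := by
    ext y; exact Subtype.ext (by change g * h * y.1 * (g * h)⁻¹ = g * (h * y.1 * h⁻¹) * g⁻¹; group)

lemma psi_val (g : W) (y : X) : (psi g y).1 = g * y.1 * g⁻¹ := rfl

instance : Quandle X where
  act x y := psi x.1 y
  self_distrib := by
    intro x y z
    apply Subtype.ext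
    simp only [psi_val]; group
  invAct x y := (psi x.1).symm y
  left_inv x y := (psi x.1).symm_apply_apply y
  right_inv x y := (psi x.1).apply_symm_apply y
  fix := by
    intro x
    apply Subtype.ext
    simp only [psi_val]; group

lemma connected (a b : X) :
    ∃ g ∈ Subgroup.closure (Set.range (Rack.act' : X → Perm X)), g a = b := by
  obtain ⟨g, hg⟩ := isConj_iff.1 (a.2.symm.trans b.2)
  refine ⟨psi g, ?_, Subtype.ext hg⟩
  have hmem : g ∈ Subgroup.closure {z : W | IsConj c z} := closure_top ▸ Subgroup.mem_top g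
  clear hg
  induction hmem using Subgroup.closure_induction with
  | mem z hz => exact Subgroup.subset_closure ⟨⟨z, hz⟩, Equiv.ext fun _ => rfl⟩
  | one => rw [map_one]; exact Subgroup.one_mem _
  | mul x y _ _ hx hy => rw [map_mul]; exact Subgroup.mul_mem _ hx hy
  | inv x _ hx => rw [map_inv]; exact Subgroup.inv_mem _ hx

/-- the base point -/
def c0 : X := ⟨c, IsConj.refl c⟩

lemma periodic_iff (k : ℕ) (y : X) :
    Function.IsPeriodicPt (Shelf.act c0) k y ↔ c ^ k * y.1 = y.1 * c ^ k := by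
  have : (Shelf.act c0)^[k] y = psi (c ^ k) y := by
    rw [map_pow, Perm.coe_pow]; rfl
  rw [Function.IsPeriodicPt, Function.IsFixedPt, this, ← mul_inv_eq_iff_eq_mul, ← psi_val]
  exact Subtype.ext_iff

theorem no_regular (z : X) :
    ¬ ∀ y : X, Function.minimalPeriod (Shelf.act c0) y ∣ Function.minimalPeriod (Shelf.act c0) z := by
  intro h
  obtain ⟨k, hk, hz⟩ := exists_comm z.1 z.2
  obtain ⟨y, hy, hne⟩ := exists_not_comm k hk
  apply hne
  have h1 := Function.isPeriodicPt_iff_minimalPeriod_dvd.1 ((periodic_iff k z).2 hz)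
  exact (periodic_iff k ⟨y, hy⟩).1
    (Function.isPeriodicPt_iff_minimalPeriod_dvd.2 ((h ⟨y, hy⟩).trans h1))

end Pool.Agent.Lib.helper24.Hayashi
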