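import Mathlib

set_option autoImplicit false

namespace Pool.Agent.Img

open Polynomial

/-- Only finitely many primes are invertible in a finitely generated subring of a field of
characteristic zero. -/
theorem units_lemma {K : Type} [Field K] [CharZero K] (s : Finset K) :
    ∃ n : ℕ, n ≠ 0 ∧ ∀ p : ℕ, p.Prime → (p : K)⁻¹ ∈ Subring.closure (s : Set K) → p ∣ n := by
  classical
  let B := Algebra.adjoin ℚ (s : Set K)
  have hB : Algebra.FiniteType ℚ B := (Subalgebra.fg_iff_finiteType _).1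
    (Subalgebra.fg_adjoin_finset s)
  obtain ⟨𝔪, h𝔪⟩ := Ideal.exists_maximal B
  let _ : Field (B ⧸ 𝔪) := Ideal.Quotient.field 𝔪
  have hfin : Module.Finite ℚ (B ⧸ 𝔪) := finite_of_finite_type_of_isJacobsonRing ℚ (B ⧸ 𝔪)
  let ψ : B →ₐ[ℚ] B ⧸ 𝔪 := Ideal.Quotient.mkₐ ℚ 𝔪
  obtain ⟨y, hy0, hy⟩ := exists_integral_multiples ℤ ℚ (L := B ⧸ 𝔪)
    (s.attach.image fun x : {x // x ∈ s} =>
      ψ ⟨x.1, Algebra.subset_adjoin (Finset.mem_coe.2 x.2)⟩)
  have hyi : IsIntegral ℤ (y : B ⧸ 𝔪) := by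
    have := isIntegral_algebraMap (R := ℤ) (A := B ⧸ 𝔪) (x := y)
    simpa using this
  have key : ∀ w ∈ Subring.closure (s : Set K),
      ∃ b : B, (b : K) = w ∧ ∃ e : ℕ, IsIntegral ℤ ((y : B ⧸ 𝔪) ^ e * ψ b) := by
    intro w hw
    induction hw using Subring.closure_induction with
    | mem x hx =>
      refine ⟨⟨x, Algebra.subset_adjoin hx⟩, rfl, 1, ?_⟩
      have := hy _ (Finset.mem_image.2 ⟨⟨x, hx⟩, Finset.mem_attach _ _, rfl⟩)
      simpa [zsmul_eq_mul] using this
    | zero => exact ⟨0, rfl, 0, by simpa using isIntegral_zero⟩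
    | one => exact ⟨1, rfl, 0, by simpa using isIntegral_one⟩
    | add x z _ _ hx hz =>
      obtain ⟨b, rfl, e, hb⟩ := hx
      obtain ⟨d, rfl, e', hd⟩ := hz
      refine ⟨b + d, rfl, e + e', ?_⟩
      have : (y : B ⧸ 𝔪) ^ (e + e') * ψ (b + d) =
          y ^ e' * (y ^ e * ψ b) + y ^ e * (y ^ e' * ψ d) := by rw [map_add]; ring
      rw [this]
      exact ((hyi.pow _).mul hb).add ((hyi.pow _).mul hd)
    | neg x _ hx =>
      obtain ⟨b, rfl, e, hb⟩ := hx
      exact ⟨-b, rfl, e, by rw [map_neg, mul_neg]; exact hb.neg⟩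
    | mul x z _ _ hx hz =>
      obtain ⟨b, rfl, e, hb⟩ := hx
      obtain ⟨d, rfl, e', hd⟩ := hz
      refine ⟨b * d, rfl, e + e', ?_⟩
      have : (y : B ⧸ 𝔪) ^ (e + e') * ψ (b * d) = (y ^ e * ψ b) * (y ^ e' * ψ d) := by
        rw [map_mul]; ring
      rw [this]
      exact hb.mul hd
  refine ⟨y.natAbs, Int.natAbs_ne_zero.2 hy0, fun p hp hmem => ?_⟩
  obtain ⟨b, hb, e, he⟩ := key _ hmem
  have hb' : b = algebraMap ℚ B (p : ℚ)⁻¹ := by
    apply Subtype.ext
    rw [hb]
    simp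
  have h1 : (y : B ⧸ 𝔪) ^ e * ψ b = algebraMap ℚ (B ⧸ 𝔪) ((y : ℚ) ^ e * (p : ℚ)⁻¹) := by
    rw [hb', AlgHom.commutes, map_mul, map_pow, map_intCast]
  rw [h1, isIntegral_algebraMap_iff (algebraMap ℚ (B ⧸ 𝔪)).injective] at he
  obtain ⟨z, hz⟩ := IsIntegrallyClosed.isIntegral_iff.1 he
  have hp0 : (p : ℚ) ≠ 0 := by exact_mod_cast hp.ne_zero
  have h2 : (y : ℚ) ^ e = p * z := by
    have : (z : ℚ) = (y : ℚ) ^ e * (p : ℚ)⁻¹ := by simpa using hz
    rw [this]; field_simp
  have h3 : y ^ e = p * z := by exact_mod_cast h2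
  have h4 : (p : ℤ) ∣ y ^ e := ⟨z, h3⟩
  exact Int.natCast_dvd.1 ((Nat.prime_iff_prime_int.1 hp).dvd_of_dvd_pow h4)

/-- The arithmetic contradiction shared by the two field cases. -/
theorem no_prime {K : Type} [Field K] [CharZero K] (s : Finset K) (k : ℕ) (hk : k ≠ 0) (y : K)
    (hy : y⁻¹ ∈ Subring.closure (s : Set K)) (hy0 : y ≠ 0)
    (h : ∀ m : ℕ, 1 ≤ m → ∃ r ∈ Subring.closure (s : Set K),
      ((k * m).factorial : K) * y ^ m = (k * m + 1 : ℕ) * r) : False := by
  obtain ⟨n, hn, hnp⟩ := units_lemma s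
  obtain ⟨p, hp, hlt, hmod⟩ := Nat.exists_prime_gt_modEq_one n hk
  obtain ⟨m, hm⟩ : k ∣ p - 1 := (Nat.modEq_iff_dvd' hp.one_le).1 hmod.symm
  have hp2 := hp.two_le
  have hpm : p = k * m + 1 := by omega
  have hm1 : 1 ≤ m := by
    rcases Nat.eq_zero_or_pos m with rfl | h0
    · simp at hpm; omega
    · exact h0
  obtain ⟨r, hr, e⟩ := h m hm1
  rw [← hpm] at e
  have hcop : IsCoprime ((k * m).factorial : ℤ) (p : ℤ) := by
    rw [Nat.isCoprime_iff_coprime, Nat.coprime_comm, hp.coprime_iff_not_dvd, hp.dvd_factorial]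
    omega
  obtain ⟨u, v, huv⟩ := hcop
  have huv' : (u : K) * ((k * m).factorial : K) + v * p = 1 := by exact_mod_cast huv
  have hp0 : (p : K) ≠ 0 := by exact_mod_cast hp.ne_zero
  have hinv : (p : K)⁻¹ = u * (r * y⁻¹ ^ m) + v := by
    have e2 : ((k * m).factorial : K) = p * (r * y⁻¹ ^ m) := by
      rw [← mul_assoc, ← e, mul_assoc, ← mul_pow, mul_inv_cancel₀ hy0, one_pow, mul_one]
    rw [e2] at huv'
    field_simp
    field_simp at huv'
    linear_combination (-1 : K) * huv'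
  have : (p : K)⁻¹ ∈ Subring.closure (s : Set K) := by
    rw [hinv]
    exact add_mem (mul_mem (intCast_mem _ u) (mul_mem hr (pow_mem hy m))) (intCast_mem _ v)
  exact absurd (Nat.le_of_dvd (Nat.pos_of_ne_zero hn) (hnp p hp this)) (by omega)

section W

variable {R : Type} [CommRing R]

/-- Truncated exponential with cleared denominators. -/
noncomputable def W (c : R) (B : R[X]) : ℕ → R[X]
  | 0 => 1
  | J + 1 => ((J + 1 : ℕ) : R[X]) * C c * W c B J + B ^ (J + 1)

theorem W_deriv (c : R) (B : R[X]) (J : ℕ) :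
    C c * derivative (W c B J) = derivative B * W c B J - derivative B * B ^ J := by
  induction J with
  | zero => simp [W]
  | succ J ih =>
    simp only [W, derivative_add, derivative_mul, derivative_natCast, derivative_C, derivative_pow,
      zero_mul, mul_zero, zero_add, add_zero, Nat.add_sub_cancel, map_natCast]
    linear_combination ((J + 1 : ℕ) : R[X]) * C c * ih

theorem W_sub (c : R) (B : R[X]) (J : ℕ) : B ∣ W c B J - C ((J.factorial : R) * c ^ J) := by
  induction J with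
  | zero => simp [W]
  | succ J ih =>
    obtain ⟨q, hq⟩ := ih
    refine ⟨((J + 1 : ℕ) : R[X]) * C c * q + B ^ J, ?_⟩
    simp only [W, Nat.factorial_succ, Nat.cast_mul, map_mul, map_natCast, map_pow] at hq ⊢
    linear_combination ((J + 1 : ℕ) : R[X]) * C c * hq

theorem W_mem (c : R) (B : R[X]) (O : Subring R[X]) (hc : C c ∈ O) (hB : B ∈ O) (J : ℕ) :
    W c B J ∈ O := by
  induction J with
  | zero => exact one_mem _
  | succ J ih => exact add_mem (mul_mem (mul_mem (natCast_mem _ _) hc) ih) (pow_mem hB _)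

/-- The factorial functional. -/
noncomputable def Lz : R[X] →ₗ[R] R :=
  Polynomial.lsum fun k => (k.factorial : R) • LinearMap.id

theorem Lz_monomial (k : ℕ) (a : R) : Lz (monomial k a) = k.factorial * a := by
  simp [Lz, Polynomial.lsum_apply, Polynomial.sum_monomial_index]

theorem Lz_map {S : Type} [CommRing S] (φ : R →+* S) (p : R[X]) : Lz (p.map φ) = φ (Lz p) := by
  induction p using Polynomial.induction_on' with
  | add p q hp hq => rw [Polynomial.map_add, map_add, map_add, map_add, hp, hq]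
  | monomial k a => rw [Polynomial.map_monomial, Lz_monomial, Lz_monomial, map_mul, map_natCast]

theorem Lz_eq_sum (p : R[X]) : Lz p = ∑ k ∈ p.support, (k.factorial : R) * p.coeff k := by
  simp [Lz, Polynomial.lsum_apply, Polynomial.sum]

end W

theorem mem_lifts_iff {K : Type} [Field K] (O : Subring K) (p : K[X]) :
    p ∈ liftsRing O.subtype ↔ ∀ n, p.coeff n ∈ O := by
  rw [← lifts_iff_liftsRing, lifts_iff_coeff_lifts]
  simp

theorem exists_order {K : Type} [Field K] (F : K[X]) (hF : F ≠ 0) (h0 : F.coeff 0 = 0) :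
    ∃ (k : ℕ) (q : K[X]), k ≠ 0 ∧ q.coeff 0 ≠ 0 ∧ F = X ^ k * q := by
  obtain ⟨q, hq, hn⟩ := exists_eq_pow_rootMultiplicity_mul_and_not_dvd F hF 0
  simp only [map_zero, sub_zero] at hq hn
  refine ⟨_, q, ?_, fun h => hn (X_dvd_iff.2 h), hq⟩
  intro e
  rw [e, pow_zero, one_mul] at hq
  exact hn (X_dvd_iff.2 (hq ▸ h0))

/-- Reduction to polynomials without constant term. -/
theorem shift_pow {K : Type} [Field K] (V : Submodule K K[X]) (g : K[X])
    (h : ∀ m, 1 ≤ m → g ^ m ∈ V) (m : ℕ) (hm : 1 ≤ m) : (g * (g - C (g.coeff 0))) ^ m ∈ V := by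
  have : ∀ n j : ℕ, 1 ≤ j → g ^ j * (g - C (g.coeff 0)) ^ n ∈ V := by
    intro n
    induction n with
    | zero => intro j hj; simpa using h j hj
    | succ n ih =>
      intro j hj
      have e : g ^ j * (g - C (g.coeff 0)) ^ (n + 1) =
          g ^ (j + 1) * (g - C (g.coeff 0)) ^ n -
            g.coeff 0 • (g ^ j * (g - C (g.coeff 0)) ^ n) := by
        rw [smul_eq_C_mul]; ring
      rw [e]
      exact V.sub_mem (ih _ (by omega)) (V.smul_mem _ (ih _ hj))
  rw [mul_pow]
  exact this m m hm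

theorem zero_of_sub {K : Type} [Field K] (V : Submodule K K[X]) (h1 : (1 : K[X]) ∉ V)
    (H : ∀ F : K[X], F.coeff 0 = 0 → (∀ m, 1 ≤ m → F ^ m ∈ V) → F = 0)
    (g : K[X]) (h : ∀ m, 1 ≤ m → g ^ m ∈ V) : g = 0 := by
  have := H (g * (g - C (g.coeff 0))) (by simp [mul_coeff_zero]) (shift_pow V g h)
  rcases mul_eq_zero.1 this with h0 | h0
  · exact h0
  · by_contra hg
    have e : g = C (g.coeff 0) := sub_eq_zero.1 h0
    have hc : g.coeff 0 ≠ 0 := fun e' => hg (by rw [e, e', map_zero])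
    apply h1
    have := V.smul_mem (g.coeff 0)⁻¹ (h 1 le_rfl)
    rwa [pow_one, smul_eq_C_mul, e, coeff_C_zero, ← map_mul, inv_mul_cancel₀ hc, map_one] at this

/-- The one-variable factorial theorem. -/
theorem factorial_thm {K : Type} [Field K] [CharZero K] (g : K[X])
    (h : ∀ m, 1 ≤ m → Lz (g ^ m) = 0) : g = 0 := by
  classical
  refine zero_of_sub (LinearMap.ker Lz) ?_ ?_ g h
  · rw [LinearMap.mem_ker, ← C_1, ← monomial_zero_left, Lz_monomial]; simp
  intro F h0 hF
  by_contra hne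
  obtain ⟨k, q, hk, hq, rfl⟩ := exists_order F hne h0
  let s : Finset K := insert (q.coeff 0)⁻¹ q.coeffs
  have hqO : q ∈ liftsRing (Subring.closure (s : Set K)).subtype := by
    rw [mem_lifts_iff]
    intro n
    by_cases hn : q.coeff n = 0
    · rw [hn]; exact zero_mem _
    · exact Subring.subset_closure (Finset.mem_insert_of_mem (coeff_mem_coeffs hn))
  refine no_prime s k hk (q.coeff 0) (Subring.subset_closure (Finset.mem_insert_self _ _)) hq ?_
  intro m hm
  have hx := (mem_lifts_iff _ _).1 (pow_mem hqO m)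
  have hL : Lz ((X ^ k * q) ^ m) = 0 := hF m hm
  have key : ∀ x : K[X], (∀ n, x.coeff n ∈ Subring.closure (s : Set K)) →
      ∃ r ∈ Subring.closure (s : Set K), Lz (X ^ (k * m) * x) =
        ((k * m).factorial : K) * x.coeff 0 + (k * m + 1 : ℕ) * r := by
    intro x hx
    have e : X ^ (k * m) * x = ∑ n ∈ x.support, monomial (n + k * m) (x.coeff n) := by
      conv_lhs => rw [x.as_sum_support, Finset.mul_sum]
      exact Finset.sum_congr rfl fun n _ => by rw [X_pow_mul_monomial]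
    have hterm : ∀ n, ∃ r ∈ Subring.closure (s : Set K),
        Lz (monomial (n + k * m) (x.coeff n)) =
          (if n = 0 then ((k * m).factorial : K) * x.coeff 0 else 0) + (k * m + 1 : ℕ) * r := by
      intro n
      rw [Lz_monomial]
      by_cases hn : n = 0
      · subst hn
        exact ⟨0, zero_mem _, by simp⟩
      · obtain ⟨d, hd⟩ : (k * m + 1) ∣ (n + k * m).factorial :=
          Nat.dvd_factorial (by omega) (by omega)
        refine ⟨d * x.coeff n, mul_mem (natCast_mem _ _) (hx n), ?_⟩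
        rw [if_neg hn, hd]
        push_cast
        ring
    choose r hr hr' using hterm
    refine ⟨∑ n ∈ x.support, r n, sum_mem fun n _ => hr n, ?_⟩
    rw [e, map_sum, Finset.sum_congr rfl fun n _ => hr' n, Finset.sum_add_distrib,
      ← Finset.mul_sum, Finset.sum_ite_eq']
    by_cases h0 : x.coeff 0 = 0
    · simp [h0]
    · simp [h0]
  obtain ⟨r, hr, e⟩ := key (q ^ m) hx
  rw [mul_pow, ← pow_mul, e] at hL
  refine ⟨-r, neg_mem hr, ?_⟩
  rw [coeff_zero_eq_eval_zero, eval_pow, ← coeff_zero_eq_eval_zero] at hL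
  linear_combination hL

end Pool.Agent.Img
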