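import Pool.Agent.Lib.helper24.ImgA

set_option autoImplicit false

namespace Pool.Agent.Img

open Polynomial

/-- The operator `h ↦ c h' - a h`. -/
noncomputable def Dop {R : Type} [CommRing R] (c : R) (a : R[X]) : R[X] →ₗ[R] R[X] :=
  c • derivative - LinearMap.mulLeft R a

theorem Dop_apply {R : Type} [CommRing R] (c : R) (a h : R[X]) :
    Dop c a h = C c * derivative h - a * h := by
  simp [Dop, smul_eq_C_mul]

theorem exists_antider {R : Type} [CommRing R] [Algebra ℚ R] (a : R[X]) :
    ∃ B : R[X], derivative B = a ∧ B.coeff 0 = 0 ∧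
      ∀ n, B.coeff (n + 1) = algebraMap ℚ R ((n + 1 : ℚ)⁻¹) * a.coeff n := by
  induction a using Polynomial.induction_on' with
  | add p q hp hq =>
    obtain ⟨B, h1, h2, h3⟩ := hp
    obtain ⟨E, k1, k2, k3⟩ := hq
    exact ⟨B + E, by rw [map_add, h1, k1], by rw [coeff_add, h2, k2, add_zero],
      fun n => by rw [coeff_add, coeff_add, h3, k3, mul_add]⟩
  | monomial k x =>
    refine ⟨monomial (k + 1) (algebraMap ℚ R ((k + 1 : ℚ)⁻¹) * x), ?_, by simp [coeff_monomial], ?_⟩
    · rw [derivative_monomial]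
      simp only [Nat.add_sub_cancel]
      congr 1
      have : ((k + 1 : ℕ) : R) = algebraMap ℚ R (k + 1 : ℚ) := by simp
      rw [this, mul_right_comm, ← map_mul, inv_mul_cancel₀ (by positivity), map_one, one_mul]
    · intro n
      simp only [coeff_monomial, Nat.add_right_cancel_iff]
      split_ifs with h
      · rw [h]
      · simp

theorem lifts_of_Dop {K : Type} [Field K] (O : Subring K) (a h : K[X]) (hd : a.natDegree ≠ 0)
    (ha : ∀ n, a.coeff n ∈ O) (hl : a.leadingCoeff⁻¹ ∈ O)
    (hx : ∀ n, (derivative h - a * h).coeff n ∈ O) (n : ℕ) : h.coeff n ∈ O := by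
  have ha0 : a ≠ 0 := fun e => hd (by rw [e]; simp)
  have step : ∀ i, (∀ j, i < j → h.coeff j ∈ O) → h.coeff i ∈ O := by
    intro i hi
    have h1 := hx (a.natDegree + i)
    rw [coeff_sub, coeff_derivative, coeff_mul] at h1
    have hm : (a.natDegree, i) ∈ Finset.HasAntidiagonal.antidiagonal (a.natDegree + i) := by simp
    rw [← Finset.add_sum_erase _ _ hm] at h1
    have h2 : ∑ x ∈ (Finset.HasAntidiagonal.antidiagonal (a.natDegree + i)).erase (a.natDegree, i),
        a.coeff x.1 * h.coeff x.2 ∈ O := by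
      refine sum_mem fun x hx => ?_
      rw [Finset.mem_erase, Finset.HasAntidiagonal.mem_antidiagonal] at hx
      by_cases hlt : i < x.2
      · exact mul_mem (ha _) (hi _ hlt)
      · have : a.natDegree < x.1 := by
          by_contra hc
          apply hx.1
          ext <;> simp <;> omega
        rw [coeff_eq_zero_of_natDegree_lt this, zero_mul]
        exact zero_mem _
    have h3 : h.coeff (a.natDegree + i + 1) * ((a.natDegree + i : ℕ) + 1) ∈ O :=
      mul_mem (hi _ (by omega)) (add_mem (natCast_mem _ _) (one_mem _))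
    have h4 : a.leadingCoeff * h.coeff i ∈ O := by
      have := sub_mem (sub_mem h3 h1) h2
      rwa [sub_sub_cancel, add_sub_cancel_right] at this
    have := mul_mem hl h4
    rwa [← mul_assoc, inv_mul_cancel₀ (leadingCoeff_ne_zero.2 ha0), one_mul] at this
  have : ∀ e i, h.natDegree < i + e → h.coeff i ∈ O := by
    intro e
    induction e with
    | zero =>
      intro i hi
      rw [coeff_eq_zero_of_natDegree_lt (by simpa using hi)]
      exact zero_mem _
    | succ e ih => exact fun i hi => step i fun j hj => ih j (by omega)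
  exact this (h.natDegree + 1) n (by omega)

theorem field_core {K : Type} [Field K] [CharZero K] (a f : K[X]) (hd : a.natDegree ≠ 0)
    (h0 : a.coeff 0 = 0) (h : ∀ m, 1 ≤ m → f ^ m ∈ LinearMap.range (Dop 1 a)) : f = 0 := by
  classical
  have ha0 : a ≠ 0 := fun e => hd (by rw [e]; simp)
  refine zero_of_sub (LinearMap.range (Dop 1 a)) ?_ ?_ f h
  · rintro ⟨u, hu⟩
    rw [Dop_apply, map_one, one_mul] at hu
    have hu0 : u ≠ 0 := by rintro rfl; simp at hu
    have := congrArg (fun p : K[X] => p.coeff (a.natDegree + u.natDegree)) hu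
    simp only [coeff_sub, coeff_derivative, coeff_mul_degree_add_degree] at this
    rw [coeff_eq_zero_of_natDegree_lt (p := u) (by omega), coeff_one, if_neg (by omega)] at this
    simp [ha0, hu0] at this
  intro F hF0 hF
  by_contra hne
  obtain ⟨k, q, hk, hq, rfl⟩ := exists_order F hne hF0
  obtain ⟨A, hA1, hA0, -⟩ := exists_antider a
  let s : Finset K := insert (q.coeff 0)⁻¹ (insert a.leadingCoeff⁻¹ (q.coeffs ∪ A.coeffs))
  let O := Subring.closure (s : Set K)
  have hqO : q ∈ liftsRing O.subtype := by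
    rw [mem_lifts_iff]
    intro n
    by_cases hn : q.coeff n = 0
    · rw [hn]; exact zero_mem _
    · exact Subring.subset_closure (Finset.mem_insert_of_mem (Finset.mem_insert_of_mem
        (Finset.mem_union_left _ (coeff_mem_coeffs hn))))
  have hAO : ∀ n, A.coeff n ∈ O := by
    intro n
    by_cases hn : A.coeff n = 0
    · rw [hn]; exact zero_mem _
    · exact Subring.subset_closure (Finset.mem_insert_of_mem (Finset.mem_insert_of_mem
        (Finset.mem_union_right _ (coeff_mem_coeffs hn))))
  have haO : ∀ n, a.coeff n ∈ O := by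
    intro n
    rw [← hA1, coeff_derivative]
    exact mul_mem (hAO _) (add_mem (natCast_mem _ _) (one_mem _))
  have hXO : (X : K[X]) ∈ liftsRing O.subtype := ⟨X, by simp⟩
  refine no_prime s k hk (q.coeff 0) (Subring.subset_closure (Finset.mem_insert_self _ _)) hq ?_
  intro m hm
  obtain ⟨u, hu⟩ := hF m hm
  rw [Dop_apply, map_one, one_mul, mul_pow, ← pow_mul] at hu
  have huO : u ∈ liftsRing O.subtype := by
    rw [mem_lifts_iff]
    refine lifts_of_Dop O a u hd haO
      (Subring.subset_closure (Finset.mem_insert_of_mem (Finset.mem_insert_self _ _))) ?_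
    rw [hu, ← mem_lifts_iff]
    exact mul_mem (pow_mem hXO _) (pow_mem hqO _)
  have hWO : W 1 (-A) (k * m) ∈ liftsRing O.subtype :=
    W_mem 1 (-A) _ (by rw [map_one]; exact one_mem _) (neg_mem ((mem_lifts_iff _ _).2 hAO)) _
  have hW := W_deriv 1 (-A) (k * m)
  rw [map_one, one_mul, map_neg, hA1] at hW
  obtain ⟨a1, ha1⟩ := X_dvd_iff.2 h0
  obtain ⟨A1, hA1'⟩ := X_dvd_iff.2 hA0
  have e : derivative (W 1 (-A) (k * m) * u) =
      X ^ (k * m) * (W 1 (-A) (k * m) * q ^ m + X * (a1 * (-A1) ^ (k * m) * u)) := by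
    rw [derivative_mul, hW]
    have : (-A) ^ (k * m) = X ^ (k * m) * (-A1) ^ (k * m) := by rw [hA1', ← mul_pow, mul_neg]
    rw [this]
    linear_combination (W 1 (-A) (k * m)) * hu + (X ^ (k * m) * (-A1) ^ (k * m) * u) * ha1
  have e2 := congrArg (fun p : K[X] => p.coeff (k * m)) e
  simp only [coeff_derivative] at e2
  have e3 := coeff_X_pow_mul (W 1 (-A) (k * m) * q ^ m + X * (a1 * (-A1) ^ (k * m) * u)) (k * m) 0
  rw [zero_add] at e3
  rw [e3, coeff_add, mul_coeff_zero, mul_coeff_zero X, coeff_X_zero, zero_mul, add_zero] at e2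
  have e4 : (W 1 (-A) (k * m)).coeff 0 = ((k * m).factorial : K) := by
    obtain ⟨r, hr⟩ := W_sub 1 (-A) (k * m)
    have := congrArg (fun p : K[X] => p.coeff 0) hr
    simp only [coeff_sub, coeff_C_zero, mul_coeff_zero, coeff_neg, hA0, one_pow, mul_one] at this
    linear_combination this
  rw [e4, coeff_zero_eq_eval_zero (q ^ m), eval_pow, ← coeff_zero_eq_eval_zero] at e2
  refine ⟨_, (mem_lifts_iff _ _).1 (mul_mem hWO huO) (k * m + 1), ?_⟩
  push_cast at e2 ⊢
  linear_combination -e2

theorem field_thm {K : Type} [Field K] [CharZero K] (c : K) (hc : c ≠ 0) (a f : K[X])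
    (hd : a.natDegree ≠ 0) (h : ∀ m, 1 ≤ m → f ^ m ∈ LinearMap.range (Dop c a)) : f = 0 := by
  let L := AlgebraicClosure K
  let φ := algebraMap K L
  have hdeg : (a.map φ).natDegree ≠ 0 := by rwa [natDegree_map]
  obtain ⟨α, hα⟩ := IsAlgClosed.exists_root (a.map φ) (fun e => hdeg (natDegree_eq_zero_iff_degree_le_zero.2 e.le))
  have hc' : φ c ≠ 0 := by simpa using hc
  have := field_core (C (φ c)⁻¹ * taylor α (a.map φ)) (taylor α (f.map φ)) ?_ ?_ ?_
  · rwa [taylor_eq_zero, Polynomial.map_eq_zero] at this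
  · rwa [natDegree_C_mul (inv_ne_zero hc'), natDegree_taylor]
  · rw [coeff_C_mul, taylor_coeff_zero, hα.eq_zero, mul_zero]
  · intro m hm
    obtain ⟨u, hu⟩ := h m hm
    refine ⟨C (φ c) * taylor α (u.map φ), ?_⟩
    rw [Dop_apply] at hu ⊢
    have e := congrArg (fun p : K[X] => taylor α (p.map φ)) hu
    simp only [Polynomial.map_sub, Polynomial.map_mul, Polynomial.map_pow, map_C, map_sub,
      taylor_mul, taylor_pow, taylor_C] at e
    have e2 : derivative (taylor α (u.map φ)) = taylor α ((derivative u).map φ) := by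
      rw [taylor_apply, derivative_comp, derivative_map, taylor_apply]
      simp
    have e3 : C (φ c)⁻¹ * C (φ c) = 1 := by rw [← map_mul, inv_mul_cancel₀ hc', map_one]
    rw [derivative_mul, derivative_C, e2, map_one, ← e]
    linear_combination (-(taylor α (a.map φ)) * taylor α (u.map φ)) * e3

end Pool.Agent.Img
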