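import Pool.Agent.Lib.helper24.ImgB

set_option autoImplicit false

namespace Pool.Agent.Img

open Polynomial

section Rees

variable {S T : Type} [CommRing S] [CommRing T] [Algebra S T]

/-- The Rees ring of a submodule. -/
def Rees (M : Submodule S T) : Subring T[X] where
  carrier := {p | ∀ n, p.coeff n ∈ M ^ n}
  zero_mem' := fun n => by simp
  add_mem' := fun {p q} hp hq n => by rw [coeff_add]; exact add_mem (hp n) (hq n)
  neg_mem' := fun {p} hp n => by rw [coeff_neg]; exact neg_mem (hp n)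
  one_mem' := fun n => by
    rw [coeff_one]
    split_ifs with h
    · subst h; rw [pow_zero]; exact Submodule.one_le.1 le_rfl
    · exact zero_mem _
  mul_mem' := fun {p q} hp hq n => by
    rw [coeff_mul]
    refine sum_mem fun x hx => ?_
    rw [Finset.HasAntidiagonal.mem_antidiagonal] at hx
    rw [← hx, pow_add]
    exact Submodule.mul_mem_mul (hp _) (hq _)

theorem monomial_mem_Rees {M : Submodule S T} {n : ℕ} {y : T} (h : y ∈ M ^ n) :
    monomial n y ∈ Rees M := fun k => by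
  rw [coeff_monomial]
  split_ifs with e
  · exact e ▸ h
  · exact zero_mem _

theorem alg_mem_pow {M : Submodule S T} (h : 1 ≤ M) (n : ℕ) (s : S) :
    algebraMap S T s ∈ M ^ n :=
  one_le_pow_of_one_le' h n (Submodule.algebraMap_mem s)

theorem rees_main [Algebra ℚ S] (z : S) (g : T[X])
    (hyp : ∀ m, 1 ≤ m → ∃ s : S, IsNilpotent (Lz (g ^ m) - algebraMap S T (z * s))) :
    ∃ ν : ℕ, Submodule.span S (Set.range g.coeff) ^ (ν + 1) ≤
      Submodule.span S {algebraMap S T z} * (1 ⊔ Submodule.span S (Set.range g.coeff)) ^ ν := by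
  classical
  set Φ := Submodule.span S (Set.range g.coeff) with hΦ
  set M : Submodule S T := 1 ⊔ Φ with hM
  have h1M : 1 ≤ M := le_sup_left
  have hΦM : Φ ≤ M := le_sup_right
  let w : ℕ → Rees M := fun k => ⟨monomial 1 (g.coeff k), monomial_mem_Rees (by
    rw [pow_one]; exact hΦM (Submodule.subset_span ⟨k, rfl⟩))⟩
  let cs : ℕ → S → Rees M := fun n s =>
    ⟨monomial n (algebraMap S T s), monomial_mem_Rees (alg_mem_pow h1M n s)⟩
  let gs : (Rees M)[X] := ∑ k ∈ g.support, monomial k (w k)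
  have hgs : ∀ k, gs.coeff k = w k := by
    intro k
    simp only [gs, finset_sum_coeff, coeff_monomial, Finset.sum_ite_eq']
    split_ifs with h
    · rfl
    · apply Subtype.ext
      simp [w, notMem_support_iff.1 h]
  have hmap : gs.map (Rees M).subtype = C X * g.map C := by
    ext k : 1
    rw [coeff_map, hgs, coeff_C_mul, coeff_map]
    show monomial 1 (g.coeff k) = _
    rw [← C_mul_X_eq_monomial, mul_comm]
  let 𝔞 : Ideal (Rees M) := Ideal.span ((g.support.image w : Finset (Rees M)) : Set (Rees M))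
  have hw𝔞 : ∀ k, w k ∈ 𝔞 := by
    intro k
    by_cases h : k ∈ g.support
    · exact Ideal.subset_span (Finset.mem_coe.2 (Finset.mem_image_of_mem w h))
    · have : w k = 0 := Subtype.ext (by simp [w, notMem_support_iff.1 h])
      rw [this]; exact zero_mem _
  have hrad : 𝔞 ≤ (Ideal.span {cs 1 z}).radical := by
    rw [Ideal.radical_eq_sInf, le_sInf_iff]
    rintro P ⟨hP1, hP⟩
    have hz : cs 1 z ∈ P := hP1 (Ideal.mem_span_singleton_self _)
    let K := FractionRing (Rees M ⧸ P)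
    let ψ : Rees M →+* K := (algebraMap (Rees M ⧸ P) K).comp (Ideal.Quotient.mk P)
    have hψ : ∀ x, ψ x = 0 ↔ x ∈ P := by
      intro x
      rw [RingHom.comp_apply, map_eq_zero_iff _ (IsFractionRing.injective _ _),
        Ideal.Quotient.eq_zero_iff_mem]
    have : CharZero K := by
      apply charZero_of_inj_zero
      intro n hn
      by_contra hn0
      have e : (n : Rees M) * cs 0 (algebraMap ℚ S (n : ℚ)⁻¹) = 1 := by
        apply Subtype.ext
        have hq : (n : ℚ) ≠ 0 := by exact_mod_cast hn0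
        have e1 : (n : S) * algebraMap ℚ S (n : ℚ)⁻¹ = 1 := by
          rw [← map_natCast (algebraMap ℚ S), ← map_mul, mul_inv_cancel₀ hq, map_one]
        show ((n : Rees M) : T[X]) * monomial 0 _ = 1
        rw [SubringClass.coe_natCast, monomial_zero_left, ← map_natCast (C : T →+* T[X]),
          ← map_mul, ← map_natCast (algebraMap S T), ← map_mul, e1, map_one, map_one]
      have := congrArg ψ e
      rw [map_mul, map_natCast, hn, zero_mul, map_one] at this
      exact zero_ne_one this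
    have hzero : gs.map ψ = 0 := by
      apply factorial_thm
      intro m hm
      rw [← Polynomial.map_pow, Lz_map, hψ]
      obtain ⟨s, n, hn⟩ := hyp m hm
      have e1 : ((Lz (gs ^ m) : Rees M) : T[X]) = X ^ m * C (Lz (g ^ m)) := by
        have := Lz_map (Rees M).subtype (gs ^ m)
        rw [Polynomial.map_pow, hmap, mul_pow, ← Polynomial.map_pow, ← map_pow,
          ← smul_eq_C_mul, map_smul, Lz_map, smul_eq_mul] at this
        exact this.symm
      have e2 : (Lz (gs ^ m) - cs 1 z * cs (m - 1) s) ^ n = 0 := by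
        apply Subtype.ext
        show (((Lz (gs ^ m) : Rees M) : T[X]) - monomial 1 _ * monomial (m - 1) _) ^ n = 0
        rw [e1, monomial_mul_monomial, ← map_mul, show 1 + (m - 1) = m by omega,
          ← C_mul_X_pow_eq_monomial, mul_comm (C _), ← mul_sub, ← map_sub, mul_pow, ← map_pow,
          hn, map_zero, mul_zero]
      have e3 := hP.mem_of_pow_mem n (e2 ▸ P.zero_mem)
      have := P.add_mem e3 (P.mul_mem_right (cs (m - 1) s) hz)
      rwa [sub_add_cancel] at this
    rw [Ideal.span_le]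
    intro x hx
    obtain ⟨k, -, rfl⟩ := Finset.mem_image.1 (Finset.mem_coe.1 hx)
    have := congrArg (fun p : K[X] => p.coeff k) hzero
    simp only [coeff_map, hgs, coeff_zero] at this
    exact (hψ _).1 this
  obtain ⟨ν, hν⟩ := Ideal.exists_pow_le_of_le_radical_of_fg hrad ⟨_, rfl⟩
  have base : ∀ y ∈ Φ, ∃ r : Rees M, r.1 = monomial 1 y ∧ r ∈ 𝔞 := by
    intro y hy
    induction hy using Submodule.span_induction with
    | mem x hx =>
      obtain ⟨k, rfl⟩ := hx
      exact ⟨w k, rfl, hw𝔞 k⟩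
    | zero => exact ⟨0, by simp, zero_mem _⟩
    | add x y _ _ hx hy =>
      obtain ⟨r, h1, h2⟩ := hx
      obtain ⟨r', k1, k2⟩ := hy
      exact ⟨r + r', by rw [map_add, ← h1, ← k1]; rfl, add_mem h2 k2⟩
    | smul s x _ hx =>
      obtain ⟨r, h1, h2⟩ := hx
      refine ⟨cs 0 s * r, ?_, Ideal.mul_mem_left _ _ h2⟩
      show monomial 0 _ * r.1 = _
      rw [h1, monomial_mul_monomial, Algebra.smul_def]
  have gen : ∀ n, ∀ y ∈ Φ ^ n, ∃ r : Rees M, r.1 = monomial n y ∧ r ∈ 𝔞 ^ n := by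
    intro n
    induction n with
    | zero =>
      intro y hy
      rw [pow_zero] at hy
      obtain ⟨s, rfl⟩ := Submodule.mem_one.1 hy
      exact ⟨cs 0 s, rfl, by simp⟩
    | succ n ih =>
      intro y hy
      rw [pow_succ] at hy
      refine Submodule.mul_induction_on hy ?_ ?_
      · intro a ha b hb
        obtain ⟨r, h1, h2⟩ := ih a ha
        obtain ⟨r', k1, k2⟩ := base b hb
        refine ⟨r * r', ?_, by rw [pow_succ]; exact Ideal.mul_mem_mul h2 k2⟩
        show r.1 * r'.1 = _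
        rw [h1, k1, monomial_mul_monomial]
      · rintro a b ⟨r, h1, h2⟩ ⟨r', k1, k2⟩
        exact ⟨r + r', by rw [map_add, ← h1, ← k1]; rfl, add_mem h2 k2⟩
  refine ⟨ν, fun y hy => ?_⟩
  obtain ⟨r, h1, h2⟩ := gen _ y hy
  obtain ⟨q, hq⟩ := Ideal.mem_span_singleton.1 (hν (Ideal.pow_le_pow_right (Nat.le_succ ν) h2))
  have e : monomial (ν + 1) y = monomial 1 (algebraMap S T z) * q.1 := by
    rw [← h1, hq]; rfl
  have e2 := congrArg (fun p : T[X] => p.coeff (ν + 1)) e
  simp only [coeff_monomial, if_true] at e2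
  rw [← C_mul_X_eq_monomial, mul_assoc, coeff_C_mul, coeff_X_mul] at e2
  rw [e2]
  exact Submodule.mul_mem_mul (Submodule.mem_span_singleton_self _) (q.2 ν)

theorem sup_pow_le (Φ : Submodule S T) (n : ℕ) :
    (1 ⊔ Φ) ^ (n + 1) ≤ (1 ⊔ Φ) ^ n ⊔ Φ ^ (n + 1) := by
  induction n with
  | zero => simp
  | succ n ih =>
    rw [pow_succ (1 ⊔ Φ) (n + 1)]
    refine (mul_le_mul' ih le_rfl).trans ?_
    rw [Submodule.sup_mul, ← pow_succ, Submodule.mul_sup, mul_one, ← pow_succ]
    refine sup_le le_sup_left (sup_le ?_ le_sup_right)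
    exact (pow_le_pow_left' le_sup_right _).trans le_sup_left

theorem bound {Φ Z : Submodule S T} (hZ : Z ≤ 1) {ν d : ℕ}
    (h : Φ ^ (ν + 1) ≤ Z * (1 ⊔ Φ) ^ ν) (hd : Z ^ d * Φ ≤ 1) (i : ℕ) :
    ∃ N, ∀ m, N ≤ m → Φ ^ m ≤ Z ^ i := by
  have h1 : (1 : Submodule S T) ≤ 1 ⊔ Φ := le_sup_left
  have hM : (1 ⊔ Φ) ^ (ν + 1) ≤ (1 ⊔ Φ) ^ ν := by
    refine (sup_pow_le Φ ν).trans (sup_le le_rfl (h.trans ?_))
    simpa using mul_le_mul' hZ (le_refl ((1 ⊔ Φ) ^ ν))
  have hM2 : ∀ j, (1 ⊔ Φ) ^ (ν + j) ≤ (1 ⊔ Φ) ^ ν := by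
    intro j
    induction j with
    | zero => exact le_rfl
    | succ j ih =>
      rw [← add_assoc, pow_succ]
      exact (mul_le_mul' ih le_rfl).trans (by rw [← pow_succ]; exact hM)
  have hM3 : ∀ j, (1 ⊔ Φ) ^ j ≤ (1 ⊔ Φ) ^ ν := fun j =>
    (pow_le_pow_right' h1 (Nat.le_add_left j ν)).trans (hM2 j)
  have hZd : Z ^ d * (1 ⊔ Φ) ≤ 1 := by
    rw [Submodule.mul_sup, mul_one]
    exact sup_le (pow_le_one' hZ d) hd
  refine ⟨(ν + 1) * (i + d * ν), fun m hm => ?_⟩
  obtain ⟨r, rfl⟩ := Nat.exists_eq_add_of_le hm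
  calc Φ ^ ((ν + 1) * (i + d * ν) + r)
      = (Φ ^ (ν + 1)) ^ (i + d * ν) * Φ ^ r := by rw [pow_add, pow_mul]
    _ ≤ (Z * (1 ⊔ Φ) ^ ν) ^ (i + d * ν) * (1 ⊔ Φ) ^ r :=
        mul_le_mul' (pow_le_pow_left' h _) (pow_le_pow_left' le_sup_right _)
    _ = Z ^ (i + d * ν) * (1 ⊔ Φ) ^ (ν * (i + d * ν) + r) := by
        rw [mul_pow, ← pow_mul, mul_assoc, ← pow_add]
    _ ≤ Z ^ (i + d * ν) * (1 ⊔ Φ) ^ ν := mul_le_mul' le_rfl (hM3 _)
    _ = Z ^ i * (Z ^ d * (1 ⊔ Φ)) ^ ν := by rw [pow_add, mul_pow, ← pow_mul, mul_assoc]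
    _ ≤ Z ^ i * 1 := mul_le_mul' le_rfl (pow_le_one' hZd ν)
    _ = Z ^ i := mul_one _

theorem coeff_pow_mem (g : T[X]) (m n : ℕ) :
    (g ^ m).coeff n ∈ Submodule.span S (Set.range g.coeff) ^ m := by
  induction m generalizing n with
  | zero =>
    rw [pow_zero, pow_zero, coeff_one]
    split_ifs
    · exact Submodule.one_le.1 le_rfl
    · exact zero_mem _
  | succ m ih =>
    rw [pow_succ, pow_succ, coeff_mul]
    exact sum_mem fun x _ => Submodule.mul_mem_mul (ih _) (Submodule.subset_span ⟨_, rfl⟩)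

theorem Lz_mem (N : Submodule S T) (p : T[X]) (h : ∀ n, p.coeff n ∈ N) : Lz p ∈ N := by
  rw [Lz_eq_sum]
  refine sum_mem fun k _ => ?_
  rw [← nsmul_eq_mul]
  exact nsmul_mem (h k) _

end Rees

end Pool.Agent.Img
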