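import Pool.Agent.Lib.helper24.ImgC

set_option autoImplicit false

namespace Pool.Agent.Img

open Polynomial

variable {A : Type} [CommRing A]

/-- Divided powers, shifted by one. -/
noncomputable def tau (A : Type) [CommRing A] [Algebra ℚ A] : ℕ → A[X]
  | 0 => 0
  | n + 1 => monomial n (algebraMap ℚ A (n.factorial : ℚ)⁻¹)

theorem deriv_tau [Algebra ℚ A] (n : ℕ) : derivative (tau A n) = tau A (n - 1) := by
  rcases n with _ | _ | n
  · simp [tau]
  · simp [tau]
  · simp only [tau, derivative_monomial, Nat.add_sub_cancel]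
    congr 1
    rw [← map_natCast (algebraMap ℚ A), ← map_mul, Nat.factorial_succ]
    congr 1
    have : (n.factorial : ℚ) ≠ 0 := by exact_mod_cast n.factorial_ne_zero
    push_cast
    field_simp

theorem pow_tau [Algebra ℚ A] (j n : ℕ) :
    ((derivative : Module.End A A[X]) ^ j) (tau A n) = tau A (n - j) := by
  induction j with
  | zero => simp
  | succ j ih => rw [pow_succ', Module.End.mul_apply, ih, deriv_tau, Nat.sub_sub]

theorem const_case [Algebra ℚ A] (c a0 : A) (f : A[X])
    (hyp : ∀ m, 1 ≤ m → ∃ h, IsNilpotent (f ^ m - Dop c (C a0) h)) (G : A[X]) :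
    ∃ N, ∀ m, N ≤ m → G * f ^ m ∈ LinearMap.range (Dop c (C a0)) := by
  let S := AdjoinRoot (C c * X - C a0 : A[X])
  let z : S := AdjoinRoot.root _
  let T := Localization.Away z
  let ζ : T := IsLocalization.Away.invSelf z
  have hzζ : algebraMap S T z * ζ = 1 := IsLocalization.Away.mul_invSelf z
  let ι : A →+* T := (algebraMap S T).comp (AdjoinRoot.of _)
  have hι : ∀ x, ι x = algebraMap S T (AdjoinRoot.of _ x) := fun x => rfl
  have hrel : ι c * algebraMap S T z = ι a0 := by
    have : AdjoinRoot.mk (C c * X - C a0 : A[X]) (C c * X - C a0) = 0 := AdjoinRoot.mk_self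
    rw [map_sub, map_mul, AdjoinRoot.mk_C, AdjoinRoot.mk_C, AdjoinRoot.mk_X, sub_eq_zero] at this
    rw [hι, hι, ← map_mul, this]
  let Θ : A[X] →+* T[X] := eval₂RingHom (C.comp ι) (C ζ * X)
  have hΘ : ∀ k x, Θ (monomial k x) = monomial k (ι x * ζ ^ k) := by
    intro k x
    show eval₂ _ _ _ = _
    rw [eval₂_monomial, mul_pow, ← map_pow, RingHom.comp_apply, ← mul_assoc, ← map_mul,
      C_mul_X_pow_eq_monomial]
  have hΘc : ∀ (x : A[X]) k, (Θ x).coeff k = ι (x.coeff k) * ζ ^ k := by
    intro x k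
    induction x using Polynomial.induction_on' with
    | add p q hp hq => rw [map_add, coeff_add, coeff_add, hp, hq, map_add, add_mul]
    | monomial n y =>
      rw [hΘ, coeff_monomial, coeff_monomial]
      split_ifs with h
      · rw [h]
      · simp
  have fwd : ∀ h, ∃ s : S, Lz (Θ (Dop c (C a0) h)) = algebraMap S T (z * s) := by
    intro h
    induction h using Polynomial.induction_on' with
    | add p q hp hq =>
      obtain ⟨s, hs⟩ := hp
      obtain ⟨t, ht⟩ := hq
      exact ⟨s + t, by rw [map_add, map_add, map_add, hs, ht, mul_add, map_add]⟩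
    | monomial k x =>
      rw [Dop_apply, derivative_monomial, C_mul_monomial, C_mul_monomial, map_sub, map_sub, hΘ, hΘ,
        Lz_monomial, Lz_monomial]
      rcases k with _ | k
      · refine ⟨-(AdjoinRoot.of _ c * AdjoinRoot.of _ x), ?_⟩
        rw [map_mul (algebraMap S T), map_neg, map_mul (algebraMap S T), ← hι, ← hι]
        simp only [map_mul, Nat.cast_zero, map_zero, Nat.factorial_zero, Nat.cast_one, pow_zero]
        linear_combination (ι x) * hrel
      · refine ⟨0, ?_⟩
        rw [Nat.factorial_succ, Nat.cast_mul]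
        simp only [map_mul, map_natCast, Nat.add_sub_cancel, mul_zero, map_zero]
        linear_combination (-((k + 1 : ℕ) : T) * k.factorial * ι x * ι c * ζ ^ k) * hzζ +
          (((k + 1 : ℕ) : T) * k.factorial * ι x * ζ ^ (k + 1)) * hrel
  let Ph : ℕ → A[X] → A[X] := fun N η => (aeval (derivative : Module.End A A[X]) η) (tau A N)
  have rep : ∀ x : A[X], ∃ n0, ∀ n, n0 ≤ n → ∃ y : A[X],
      algebraMap S T (AdjoinRoot.mk _ y) = algebraMap S T z ^ n * (ζ * Lz (Θ x)) ∧
        ∀ e, Ph (n + e) (X ^ e * y) = x := by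
    intro x
    induction x using Polynomial.induction_on' with
    | add p q hp hq =>
      obtain ⟨n1, h1⟩ := hp
      obtain ⟨n2, h2⟩ := hq
      refine ⟨max n1 n2, fun n hn => ?_⟩
      obtain ⟨y1, a1, b1⟩ := h1 n (le_of_max_le_left hn)
      obtain ⟨y2, a2, b2⟩ := h2 n (le_of_max_le_right hn)
      refine ⟨y1 + y2, by rw [map_add, map_add, a1, a2, map_add, map_add]; ring, fun e => ?_⟩
      rw [← b1 e, ← b2 e]
      simp only [Ph, mul_add, map_add, LinearMap.add_apply]
    | monomial k x =>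
      refine ⟨k + 1, fun n hn => ?_⟩
      obtain ⟨r, rfl⟩ := Nat.exists_eq_add_of_le hn
      refine ⟨C ((k.factorial : A) * x) * X ^ r, ?_, fun e => ?_⟩
      · rw [hΘ, Lz_monomial, map_mul, map_pow, AdjoinRoot.mk_C, AdjoinRoot.mk_X, map_mul, ← hι,
          map_pow, map_mul, map_natCast]
        have : algebraMap S T z ^ (k + 1) * ζ ^ (k + 1) = 1 := by rw [← mul_pow, hzζ, one_pow]
        linear_combination (-(k.factorial : T) * ι x * algebraMap S T z ^ r) * this
      · have e1 : (X ^ e * (C ((k.factorial : A) * x) * X ^ r) : A[X]) =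
            ((k.factorial : A) * x) • X ^ (e + r) := by rw [smul_eq_C_mul]; ring
        simp only [Ph]
        rw [e1, map_smul, map_pow, aeval_X, LinearMap.smul_apply, pow_tau,
          show k + 1 + r + e - (e + r) = k + 1 by omega, tau, smul_monomial, smul_eq_mul]
        congr 1
        have : (k.factorial : ℚ) ≠ 0 := by exact_mod_cast k.factorial_ne_zero
        rw [mul_right_comm, ← map_natCast (algebraMap ℚ A), ← map_mul, mul_inv_cancel₀ this,
          map_one, one_mul]
  have bwd : ∀ (x : A[X]) (s : S), ζ * Lz (Θ x) = algebraMap S T s →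
      x ∈ LinearMap.range (Dop c (C a0)) := by
    intro x s hs
    obtain ⟨n, hn⟩ := rep x
    obtain ⟨y, h1, h2⟩ := hn n le_rfl
    obtain ⟨σ, rfl⟩ := AdjoinRoot.mk_surjective s
    rw [hs, ← map_pow, ← map_mul, ← sub_eq_zero, ← map_sub,
      IsLocalization.map_eq_zero_iff (Submonoid.powers z)] at h1
    obtain ⟨⟨_, e, rfl⟩, he⟩ := h1
    have : AdjoinRoot.mk (C c * X - C a0 : A[X]) (X ^ e * y - σ * X ^ (n + e)) = 0 := by
      rw [map_sub, map_mul, map_mul, map_pow, map_pow, AdjoinRoot.mk_X, ← he]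
      show _ = z ^ e * _
      ring
    obtain ⟨η, hη⟩ := AdjoinRoot.mk_eq_zero.1 this
    refine ⟨Ph (n + e) η, ?_⟩
    have e1 := congrArg (Ph (n + e)) hη
    have e2 := h2 e
    simp only [Ph] at e1 e2 ⊢
    rw [map_sub, LinearMap.sub_apply, e2, map_mul, map_pow, aeval_X, Module.End.mul_apply,
      pow_tau, Nat.sub_self, tau, map_zero, sub_zero, map_mul, Module.End.mul_apply] at e1
    rw [e1, Dop_apply, map_sub, map_mul, aeval_C, aeval_C, aeval_X]
    simp [Module.algebraMap_end_apply, smul_eq_C_mul]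
  obtain ⟨ν, hν⟩ := rees_main (S := S) z (Θ f) (by
    intro m hm
    obtain ⟨h, hh⟩ := hyp m hm
    obtain ⟨s, hs⟩ := fwd h
    refine ⟨s, ?_⟩
    rw [← hs, ← map_pow, ← map_sub, ← map_sub]
    exact Lz_mem (S := T) (nilradical T) _ (Polynomial.isNilpotent_iff.1 (hh.map Θ)))
  have hZ : Submodule.span S {algebraMap S T z} ≤ 1 := by
    rw [Submodule.span_le, Set.singleton_subset_iff]
    exact Submodule.algebraMap_mem z
  have hd : Submodule.span S {algebraMap S T z} ^ f.natDegree *
      Submodule.span S (Set.range (Θ f).coeff) ≤ 1 := by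
    rw [Submodule.span_pow, Set.singleton_pow, Submodule.span_mul_span, Submodule.span_le]
    rintro _ ⟨_, rfl, _, ⟨k, rfl⟩, rfl⟩
    show _ * (Θ f).coeff k ∈ (1 : Submodule S T)
    rw [hΘc]
    by_cases hk : k ≤ f.natDegree
    · obtain ⟨r, hr⟩ := Nat.exists_eq_add_of_le hk
      have : algebraMap S T z ^ k * ζ ^ k = 1 := by rw [← mul_pow, hzζ, one_pow]
      have e : algebraMap S T z ^ f.natDegree * (ι (f.coeff k) * ζ ^ k) =
          algebraMap S T (z ^ r * AdjoinRoot.of _ (f.coeff k)) := by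
        rw [map_mul, map_pow, ← hι, hr]
        linear_combination (algebraMap S T z ^ r * ι (f.coeff k)) * this
      rw [e]
      exact Submodule.algebraMap_mem _
    · rw [coeff_eq_zero_of_natDegree_lt (by omega), map_zero, zero_mul, mul_zero]
      exact zero_mem _
  induction G using Polynomial.induction_on' with
  | add p q hp hq =>
    obtain ⟨n1, h1⟩ := hp
    obtain ⟨n2, h2⟩ := hq
    refine ⟨max n1 n2, fun m hm => ?_⟩
    rw [add_mul]
    exact add_mem (h1 m (le_of_max_le_left hm)) (h2 m (le_of_max_le_right hm))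
  | monomial i x =>
    obtain ⟨N, hN⟩ := bound hZ hν hd (i + 1)
    refine ⟨N, fun m hm => ?_⟩
    have e : monomial i x * f ^ m = x • (X ^ i * f ^ m) := by
      rw [smul_eq_C_mul, ← C_mul_X_pow_eq_monomial, mul_assoc]
    rw [e]
    refine Submodule.smul_mem _ _ ?_
    have h1 : Lz (X ^ i * Θ f ^ m) ∈ Submodule.span S {algebraMap S T z} ^ (i + 1) := by
      refine hN m hm (Lz_mem _ _ fun n => ?_)
      rw [coeff_X_pow_mul']
      split_ifs
      · exact coeff_pow_mem _ _ _
      · exact zero_mem _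
    rw [Submodule.span_pow, Set.singleton_pow, Submodule.mem_span_singleton] at h1
    obtain ⟨s, hs⟩ := h1
    refine bwd _ s ?_
    have e2 : Θ (X ^ i * f ^ m) = ζ ^ i • (X ^ i * Θ f ^ m) := by
      rw [map_mul, map_pow Θ f, ← monomial_one_right_eq_X_pow, hΘ, map_one, one_mul,
        smul_eq_C_mul, ← mul_assoc, C_mul_X_pow_eq_monomial]
    rw [e2, map_smul, ← hs, smul_eq_mul, Algebra.smul_def]
    have : algebraMap S T z ^ (i + 1) * ζ ^ (i + 1) = 1 := by rw [← mul_pow, hzζ, one_pow]
    linear_combination (algebraMap S T s) * this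

/-- The ideal of good multipliers. -/
def JJ (c : A) (a f : A[X]) : Ideal A[X] where
  carrier := {x | ∀ G, ∃ N, ∀ m, N ≤ m → x * G * f ^ m ∈ LinearMap.range (Dop c a)}
  zero_mem' := fun G => ⟨0, fun m _ => by simp⟩
  add_mem' := by
    intro x y hx hy G
    obtain ⟨n1, h1⟩ := hx G
    obtain ⟨n2, h2⟩ := hy G
    refine ⟨max n1 n2, fun m hm => ?_⟩
    rw [add_mul, add_mul]
    exact add_mem (h1 m (le_of_max_le_left hm)) (h2 m (le_of_max_le_right hm))
  smul_mem' := by
    intro r x hx G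
    obtain ⟨n, h⟩ := hx (r * G)
    refine ⟨n, fun m hm => ?_⟩
    have : r • x * G = x * (r * G) := by rw [smul_eq_mul]; ring
    rw [this]
    exact h m hm

theorem JJ_of_rad {c : A} {a f : A[X]} (h : f ∈ (JJ c a f).radical) : 1 ∈ JJ c a f := by
  obtain ⟨n, hn⟩ := h
  intro G
  obtain ⟨N, hN⟩ := hn G
  refine ⟨N + n, fun m hm => ?_⟩
  obtain ⟨r, rfl⟩ := Nat.exists_eq_add_of_le hm
  have : 1 * G * f ^ (N + n + r) = f ^ n * G * f ^ (N + r) := by ring
  rw [this]
  exact hN _ (by omega)

theorem JJ_cancel {c : A} {a f : A[X]} (h1 : f ∈ LinearMap.range (Dop c a)) (x : A)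
    (hx : C (x * c) ∈ JJ c a f) : C x ∈ JJ c a f := by
  obtain ⟨u, hu⟩ := h1
  rw [Dop_apply] at hu
  intro G
  obtain ⟨n1, k1⟩ := hx ((G * derivative u - derivative (G * u)) * f)
  obtain ⟨n2, k2⟩ := hx (G * u * derivative f)
  refine ⟨max n1 n2 + 2, fun m hm => ?_⟩
  obtain ⟨r, rfl⟩ : ∃ r, m = r + 2 := ⟨m - 2, by omega⟩
  have e : C x * G * f ^ (r + 2) = Dop c a (C x * (G * u * f ^ (r + 1))) +
      C (x * c) * ((G * derivative u - derivative (G * u)) * f) * f ^ r -
      (r + 1) • (C (x * c) * (G * u * derivative f) * f ^ r) := by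
    rw [Dop_apply, derivative_mul, derivative_C, derivative_mul (f := G * u), derivative_pow,
      C_mul, nsmul_eq_mul, map_natCast, Nat.add_sub_cancel]
    generalize derivative (G * u) = v
    linear_combination (-(C x * G * f ^ (r + 1))) * hu
  rw [e]
  exact sub_mem (add_mem ⟨_, rfl⟩ (k1 r (by omega))) (nsmul_mem (k2 r (by omega)) _)

theorem JJ_cancel_pow {c : A} {a f : A[X]} (h1 : f ∈ LinearMap.range (Dop c a)) (n : ℕ) (x : A)
    (hx : C (x * c ^ n) ∈ JJ c a f) : C x ∈ JJ c a f := by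
  induction n with
  | zero => simpa using hx
  | succ n ih => exact ih (JJ_cancel h1 _ (by rwa [mul_assoc, ← pow_succ]))

theorem nil_case [Algebra ℚ A] (c : A) (a f : A[X]) (hn : ∀ i, IsNilpotent (a.coeff (i + 1)))
    (hyp : ∀ m, 1 ≤ m → f ^ m ∈ LinearMap.range (Dop c a)) : 1 ∈ JJ c a f := by
  have hap : IsNilpotent (a - C (a.coeff 0)) := by
    rw [Polynomial.isNilpotent_iff]
    rintro (_ | i)
    · simp
    · simpa [coeff_C] using hn i
  obtain ⟨B, hB1, hB0, hB⟩ := exists_antider (a - C (a.coeff 0))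
  have hBn : IsNilpotent B := by
    rw [Polynomial.isNilpotent_iff]
    rintro (_ | i)
    · rw [hB0]; exact IsNilpotent.zero
    · rw [hB]
      exact (Commute.all _ _).isNilpotent_mul_left (Polynomial.isNilpotent_iff.1 hap i)
  obtain ⟨J, hJ⟩ := hBn
  have hW := W_deriv c B J
  rw [hJ, mul_zero, sub_zero, hB1] at hW
  have hWJ : W c B J ∈ JJ c a f := by
    intro G
    obtain ⟨N, hN⟩ := const_case c (a.coeff 0) f (by
      intro m hm
      obtain ⟨h, hh⟩ := hyp m hm
      refine ⟨h, ?_⟩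
      have : f ^ m - Dop c (C (a.coeff 0)) h = -h * (a - C (a.coeff 0)) := by
        rw [← hh, Dop_apply, Dop_apply]; ring
      rw [this]
      exact (Commute.all _ _).isNilpotent_mul_left hap) G
    refine ⟨N, fun m hm => ?_⟩
    obtain ⟨h, hh⟩ := hN m hm
    refine ⟨W c B J * h, ?_⟩
    rw [Dop_apply] at hh ⊢
    rw [derivative_mul]
    linear_combination (W c B J) * hh + h * hW
  have hc : C ((J.factorial : A) * c ^ J) ∈ (JJ c a f).radical := by
    obtain ⟨q, hq⟩ := W_sub c B J
    have e : C ((J.factorial : A) * c ^ J) = W c B J - q * B := by linear_combination -hq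
    rw [e]
    refine sub_mem (Ideal.le_radical hWJ) (Ideal.mul_mem_left _ _ ⟨J, ?_⟩)
    rw [hJ]; exact zero_mem _
  obtain ⟨n, hn'⟩ := hc
  rw [← map_pow, mul_pow, ← pow_mul] at hn'
  have h2 := JJ_cancel_pow (by simpa using hyp 1 le_rfl) _ _ hn'
  have h3 := Ideal.mul_mem_left _ (C (algebraMap ℚ A (J.factorial : ℚ)⁻¹ ^ n)) h2
  have : (J.factorial : ℚ) ≠ 0 := by exact_mod_cast J.factorial_ne_zero
  rwa [← map_mul, ← mul_pow, ← map_natCast (algebraMap ℚ A), ← map_mul, inv_mul_cancel₀ this,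
    map_one, one_pow, map_one] at h3

theorem Dop_map {B : Type} [CommRing B] (π : A →+* B) (c : A) (a h : A[X]) :
    (Dop c a h).map π = Dop (π c) (a.map π) (h.map π) := by
  rw [Dop_apply, Dop_apply, Polynomial.map_sub, Polynomial.map_mul, Polynomial.map_mul, map_C,
    derivative_map]

theorem hyp_map {B : Type} [CommRing B] (π : A →+* B) {c : A} {a f : A[X]}
    (hyp : ∀ m, 1 ≤ m → f ^ m ∈ LinearMap.range (Dop c a)) (m : ℕ) (hm : 1 ≤ m) :
    (f.map π) ^ m ∈ LinearMap.range (Dop (π c) (a.map π)) := by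
  obtain ⟨h, hh⟩ := hyp m hm
  exact ⟨h.map π, by rw [← Dop_map, hh, Polynomial.map_pow]⟩

theorem ann_red {B : Type} [CommRing B] (π : A →+* B) (hπ : Function.Surjective π) (x : A)
    (hx : ∀ y, π y = 0 → x * y = 0) {c : A} {a f : A[X]}
    (h : 1 ∈ JJ (π c) (a.map π) (f.map π)) : C x ∈ JJ c a f := by
  intro G
  obtain ⟨N, hN⟩ := h (G.map π)
  refine ⟨N, fun m hm => ?_⟩
  obtain ⟨u, hu⟩ := hN m hm
  obtain ⟨v, rfl⟩ := Polynomial.map_surjective π hπ u
  refine ⟨x • v, ?_⟩
  rw [← Dop_map, one_mul, ← Polynomial.map_pow, ← Polynomial.map_mul, ← sub_eq_zero,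
    ← Polynomial.map_sub] at hu
  rw [map_smul, mul_assoc, ← smul_eq_C_mul, ← sub_eq_zero, ← smul_sub]
  ext n
  rw [coeff_smul, smul_eq_mul, coeff_zero]
  apply hx
  rw [← coeff_map, hu, coeff_zero]

theorem main [Algebra ℚ A] (c : A) (a f : A[X])
    (hyp : ∀ m, 1 ≤ m → f ^ m ∈ LinearMap.range (Dop c a)) : 1 ∈ JJ c a f := by
  have nil : ∀ i j, IsNilpotent (f.coeff j * c * a.coeff (i + 1)) := by
    intro i j
    rw [nilpotent_iff_mem_prime]
    intro P hP
    let K := FractionRing (A ⧸ P)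
    let ψ : A →+* K := (algebraMap (A ⧸ P) K).comp (Ideal.Quotient.mk P)
    have hψ : ∀ x, ψ x = 0 ↔ x ∈ P := by
      intro x
      rw [RingHom.comp_apply, map_eq_zero_iff _ (IsFractionRing.injective _ _),
        Ideal.Quotient.eq_zero_iff_mem]
    have : CharZero K := (ψ.comp (algebraMap ℚ A)).charZero_iff (RingHom.injective _) |>.1 inferInstance
    rw [← hψ, map_mul, map_mul]
    by_contra hne
    simp only [mul_eq_zero, not_or] at hne
    have h0 := field_thm (ψ c) hne.1.2 (a.map ψ) (f.map ψ) (by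
      intro e
      apply hne.2
      rw [← coeff_map]
      exact coeff_eq_zero_of_natDegree_lt (by omega)) (hyp_map ψ hyp)
    apply hne.1.1
    rw [← coeff_map, h0, coeff_zero]
  apply JJ_of_rad
  rw [f.as_sum_support_C_mul_X_pow]
  refine Ideal.sum_mem _ fun j _ => Ideal.mul_mem_right _ _ ?_
  rw [← f.as_sum_support_C_mul_X_pow]
  choose e he using fun i => nil i j
  let N := ∑ i ∈ Finset.range a.natDegree, e i
  let I : Ideal A := Submodule.annihilator (Ideal.span {(f.coeff j * c) ^ N})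
  have hI : ∀ y, y ∈ I ↔ (f.coeff j * c) ^ N * y = 0 := by
    intro y
    rw [Submodule.mem_annihilator_span_singleton, smul_eq_mul, mul_comm]
  have h1 := ann_red (Ideal.Quotient.mk I) Ideal.Quotient.mk_surjective ((f.coeff j * c) ^ N)
    (fun y hy => (hI y).1 (Ideal.Quotient.eq_zero_iff_mem.1 hy))
    (nil_case _ _ _ (by
      intro i
      rw [coeff_map]
      by_cases hi : i < a.natDegree
      · refine ⟨N, ?_⟩
        rw [← map_pow, Ideal.Quotient.eq_zero_iff_mem, hI, ← mul_pow]
        exact pow_eq_zero_of_le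
          (Finset.single_le_sum (f := e) (fun _ _ => Nat.zero_le _) (Finset.mem_range.2 hi)) (he i)
      · rw [coeff_eq_zero_of_natDegree_lt (by omega), map_zero]
        exact IsNilpotent.zero) (hyp_map (Ideal.Quotient.mk I) hyp))
  rw [mul_pow] at h1
  exact ⟨N, by rw [← map_pow]; exact JJ_cancel_pow (by simpa using hyp 1 le_rfl) _ _ h1⟩

end Pool.Agent.Img
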