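import Mathlib

set_option autoImplicit false

namespace Pool.Agent.Lib.helper24.InvGen

open MulAction Matrix MatrixGroups Matrix.SpecialLinearGroup OnePoint

section count

variable {L X : Type*} [Group L] [Fintype L] [MulAction L X]

open Classical in
noncomputable def orb (L : Type*) {X : Type*} [Group L] [Fintype L] [MulAction L X] (x : X) :
    Finset X := Finset.univ.image (fun g : L => g • x)

lemma mem_orb {x p : X} : p ∈ orb L x ↔ p ∈ orbit L x := by
  classical
  simp [orb, mem_orbit_iff]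

lemma card_orb (x : X) : (orb L x).card * Nat.card (stabilizer L x) = Fintype.card L := by
  classical
  let _ : Fintype (orbit L x) := Fintype.ofFinset (orb L x) (fun p => mem_orb)
  have h := card_orbit_mul_card_stabilizer_eq_card_group L x
  have h1 : (orb L x).card = Fintype.card (orbit L x) := by
    rw [Fintype.card_of_subtype (orb L x) (fun p => mem_orb)]
  rw [h1, Nat.card_eq_fintype_card]
  exact h

open Classical in
lemma sum_orb (x : X) :
    ∑ g : L, ((orb L x).filter (fun p => g • p = p)).card = Fintype.card L := by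
  have h1 : ∑ g : L, ((orb L x).filter (fun p => g • p = p)).card =
      ∑ p ∈ orb L x, (Finset.univ.filter (fun g : L => g • p = p)).card := by
    simp only [Finset.card_filter]
    exact Finset.sum_comm
  have h2 : ∀ p ∈ orb L x, (Finset.univ.filter (fun g : L => g • p = p)).card =
      Nat.card (stabilizer L x) := by
    intro p hp
    have e1 : (Finset.univ.filter (fun g : L => g • p = p)).card = Nat.card (stabilizer L p) := by
      rw [Nat.card_eq_fintype_card, Fintype.card_of_subtype (Finset.univ.filter (fun g : L => g • p = p))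
        (fun g => by simp)]
    have e2 : orb L p = orb L x := by
      ext q
      rw [mem_orb, mem_orb, orbit_eq_iff.2 (mem_orb.1 hp)]
    have e3 := card_orb (L := L) p
    have e4 := card_orb (L := L) x
    rw [e2, ← e4] at e3
    have hpos : 0 < (orb L x).card := Finset.card_pos.2 ⟨p, hp⟩
    rw [e1]
    exact Nat.eq_of_mul_eq_mul_left hpos e3
  rw [h1, Finset.sum_congr rfl h2, Finset.sum_const, smul_eq_mul, card_orb]

lemma three_le (x : X) (s : L) (hs : s • x = x) (h1 : s ≠ 1) (h2 : s * s ≠ 1) :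
    3 * (orb L x).card ≤ Fintype.card L := by
  classical
  rw [← card_orb (L := L) x, mul_comm]
  apply Nat.mul_le_mul_left
  let a : stabilizer L x := ⟨s, hs⟩
  have ha1 : a ≠ 1 := fun h => h1 (congrArg Subtype.val h)
  have ha2 : a * a ≠ 1 := fun h => h2 (congrArg Subtype.val h)
  have ha3 : a ≠ a * a := fun h => ha1 (by simpa using h.symm)
  have : ({1, a, a * a} : Finset (stabilizer L x)).card = 3 := by
    rw [Finset.card_eq_three]
    exact ⟨1, a, a * a, ha1.symm, ha2.symm, ha3, rfl⟩
  rw [Nat.card_eq_fintype_card, ← this]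
  exact Finset.card_le_univ _

theorem count (x1 x2 x3 : X) (h12 : x2 ∉ orbit L x1) (h13 : x3 ∉ orbit L x1)
    (h23 : x3 ∉ orbit L x2)
    (hfix : ∀ g : L, g ≠ 1 → ∀ p q r : X, g • p = p → g • q = q → g • r = r →
      p = q ∨ p = r ∨ q = r)
    (u : L) (hu1 : u ≠ 1) (hu : ∀ p : X, u • p = p → p = x1) (hu' : u • x1 = x1)
    (s t : L) (hs : s • x2 = x2) (hs1 : s ≠ 1) (hs2 : s * s ≠ 1)
    (ht : t • x3 = x3) (ht1 : t ≠ 1) (ht2 : t * t ≠ 1) : False := by
  classical
  have dj : ∀ a b : X, b ∉ orbit L a → Disjoint (orb L a) (orb L b) := by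
    intro a b hab
    rw [Finset.disjoint_left]
    intro p hp hq
    rw [mem_orb] at hp hq
    apply hab
    rw [← orbit_eq_iff.2 hp, orbit_eq_iff.2 hq]
    exact mem_orbit_self b
  let Y := orb L x1 ∪ orb L x2 ∪ orb L x3
  let F : L → ℕ := fun g => (Y.filter (fun p => g • p = p)).card
  have hF : ∀ g, F g = ((orb L x1).filter (fun p => g • p = p)).card +
      ((orb L x2).filter (fun p => g • p = p)).card +
      ((orb L x3).filter (fun p => g • p = p)).card := by
    intro g
    simp only [F, Y, Finset.filter_union]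
    rw [Finset.card_union_of_disjoint, Finset.card_union_of_disjoint]
    · exact Finset.disjoint_filter_filter (dj _ _ h12)
    · rw [Finset.disjoint_union_left]
      exact ⟨Finset.disjoint_filter_filter (dj _ _ h13), Finset.disjoint_filter_filter (dj _ _ h23)⟩
  have hsum : ∑ g, F g = 3 * Fintype.card L := by
    simp only [hF, Finset.sum_add_distrib, sum_orb]
    ring
  have hF1 : F 1 = (orb L x1).card + (orb L x2).card + (orb L x3).card := by
    rw [hF]; simp
  let J : Finset L := Finset.univ.image (fun l : L => l * u * l⁻¹)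
  have hJ : ∀ j ∈ J, F j ≤ 1 := by
    intro j hj
    obtain ⟨l, -, rfl⟩ := Finset.mem_image.1 hj
    apply Finset.card_le_one.2
    intro p hp q hq
    have e : ∀ p : X, (l * u * l⁻¹) • p = p → p = l • x1 := by
      intro p hp
      have : u • (l⁻¹ • p) = l⁻¹ • p := by
        rw [mul_smul, mul_smul] at hp
        rw [← smul_left_cancel_iff l, hp, smul_inv_smul]
      rw [← hu _ this, smul_inv_smul]
    rw [e p (Finset.mem_filter.1 hp).2, e q (Finset.mem_filter.1 hq).2]
  have hJ1 : (1 : L) ∉ J := by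
    intro h
    obtain ⟨l, -, hl⟩ := Finset.mem_image.1 h
    apply hu1
    have : u = l⁻¹ * (l * u * l⁻¹) * l := by group
    rw [this, hl]; simp
  have hJc : (orb L x1).card ≤ J.card := by
    have : ∀ p ∈ orb L x1, ∃ l : L, l • x1 = p := fun p hp => mem_orb.1 hp
    choose! c hc using this
    apply Finset.card_le_card_of_injOn (fun p => c p * u * (c p)⁻¹)
    · intro p _
      exact Finset.mem_coe.2 (Finset.mem_image.2 ⟨c p, Finset.mem_univ _, rfl⟩)
    · intro p hp q hq hpq
      have hp' := hc p hp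
      have hq' := hc q hq
      have h1 : (c p * u * (c p)⁻¹) • p = p := by
        have e : (c p)⁻¹ • p = x1 := by rw [inv_smul_eq_iff, hp']
        rw [mul_smul, mul_smul, e, hu', hp']
      simp only at hpq
      rw [hpq, mul_smul, mul_smul] at h1
      have : u • ((c q)⁻¹ • p) = (c q)⁻¹ • p := by
        rw [← smul_left_cancel_iff (c q), h1, smul_inv_smul]
      have h2 := hu _ this
      rw [← hq', ← h2, smul_inv_smul]
  have hF2 : ∀ g : L, g ≠ 1 → F g ≤ 2 := by
    intro g hg
    by_contra hlt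
    push Not at hlt
    obtain ⟨p, q, r, hp, hq, hr, hpq, hpr, hqr⟩ := Finset.two_lt_card_iff.1 hlt
    rcases hfix g hg p q r (Finset.mem_filter.1 hp).2 (Finset.mem_filter.1 hq).2
      (Finset.mem_filter.1 hr).2 with h | h | h
    exacts [hpq h, hpr h, hqr h]
  have hb : ∀ g ∈ Finset.univ.erase (1 : L), F g + (if g ∈ J then 1 else 0) ≤ 2 := by
    intro g hg
    split_ifs with h
    · have := hJ g h; omega
    · exact hF2 g (Finset.mem_erase.1 hg).1
  have hs1' := Finset.sum_le_sum hb
  rw [Finset.sum_add_distrib, Finset.sum_const, Finset.card_erase_of_mem (Finset.mem_univ _),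
    Finset.card_univ, smul_eq_mul, ← Finset.card_filter] at hs1'
  have hJe : (Finset.univ.erase (1 : L)).filter (fun g => g ∈ J) = J := by
    ext g
    simp only [Finset.mem_filter, Finset.mem_erase, Finset.mem_univ, and_true]
    exact ⟨fun h => h.2, fun h => ⟨fun e => hJ1 (e ▸ h), h⟩⟩
  rw [hJe] at hs1'
  have hs2' := Finset.add_sum_erase Finset.univ F (Finset.mem_univ (1 : L))
  have a2 := three_le x2 s hs hs1 hs2
  have a3 := three_le x3 t ht ht1 ht2
  have hpos : 0 < Fintype.card L := Fintype.card_pos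
  omega

end count

section sl2

variable {K : Type*} [Field K]

/-- upper transvection -/
noncomputable abbrev up (a : K) : SL(2, K) := SpecialLinearGroup.transvection zero_ne_one a

lemma up_coe (a : K) : (up a).1 = !![1, a; 0, 1] := by
  ext i j; fin_cases i <;> fin_cases j <;> simp [transvection_coe]

lemma lo_coe (a : K) :
    (SpecialLinearGroup.transvection (one_ne_zero : (1 : Fin 2) ≠ 0) a : SL(2, K)).1 =
      !![1, 0; a, 1] := by
  ext i j; fin_cases i <;> fin_cases j <;> simp [transvection_coe]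

lemma det2 (g : SL(2, K)) : g.1 0 0 * g.1 1 1 - g.1 0 1 * g.1 1 0 = 1 := by
  rw [← det_fin_two]; exact g.2

lemma inv_coe (g : SL(2, K)) : (g⁻¹).1 = !![g.1 1 1, -g.1 0 1; -g.1 1 0, g.1 0 0] := by
  rw [SL2_inv_expl]; rfl

lemma mul_coe (g h : SL(2, K)) : (g * h).1 = g.1 * h.1 := rfl

lemma conj_up (m : SL(2, K)) (hm : m.1 1 0 = 0) (a : K) :
    m * up a * m⁻¹ = up (m.1 0 0 ^ 2 * a) := by
  have hd := det2 m
  rw [hm] at hd
  apply Subtype.ext
  rw [mul_coe, mul_coe, inv_coe, up_coe, up_coe]
  ext i j; fin_cases i <;> fin_cases j <;> simp [Matrix.mul_apply, Fin.sum_univ_two, hm]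
  · linear_combination hd
  · ring
  · linear_combination hd

lemma conj_diag (m : SL(2, K)) (hm : m.1 1 0 = 0) (l : K) (hl : l ≠ 0) :
    (m * diag2 l hl * m⁻¹).1 1 0 = 0 ∧ (m * diag2 l hl * m⁻¹).1 0 0 = l := by
  have hd := det2 m
  rw [hm] at hd
  rw [mul_coe, mul_coe, inv_coe, diag2_coe']
  constructor <;> simp [Matrix.mul_apply, Fin.sum_univ_two, hm]
  linear_combination l * hd

lemma top_of (H : Subgroup SL(2, K)) (hU : ∀ a, up a ∈ H) (t : SL(2, K)) (ht : t ∈ H)
    (h10 : t.1 1 0 ≠ 0) : H = ⊤ := by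
  have hd := det2 t
  let n : SL(2, K) := up (-t.1 0 0 / t.1 1 0) * t
  have hn : n ∈ H := H.mul_mem (hU _) ht
  have hn0 : n.1 0 0 = 0 := by
    simp only [n, mul_coe, up_coe]
    simp [Matrix.mul_apply, Fin.sum_univ_two]
    field_simp
    ring
  have hn1 : n.1 1 0 = t.1 1 0 := by
    simp only [n, mul_coe, up_coe]
    simp [Matrix.mul_apply, Fin.sum_univ_two]
  have hdn := det2 n
  have hlo : ∀ c : K, (SpecialLinearGroup.transvection (one_ne_zero : (1 : Fin 2) ≠ 0) c :
      SL(2, K)) ∈ H := by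
    intro c
    have e2 : (SpecialLinearGroup.transvection (one_ne_zero : (1 : Fin 2) ≠ 0) c : SL(2, K)) =
        n * up (-(n.1 0 1) ^ 2 * c) * n⁻¹ := by
      rw [hn0] at hdn
      apply Subtype.ext
      rw [mul_coe, mul_coe, inv_coe, up_coe, lo_coe]
      ext i j; fin_cases i <;> fin_cases j <;> simp [Matrix.mul_apply, Fin.sum_univ_two, hn0]
      · linear_combination -hdn
      · linear_combination (c * (n.1 0 1 * n.1 1 0 - 1)) * hdn
      · linear_combination -hdn
    rw [e2]
    exact H.mul_mem (H.mul_mem hn (hU _)) (H.inv_mem hn)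
  rw [eq_top_iff]
  intro A _
  refine SL2.transvection_induction (fun A => A ∈ H) ?_ (fun _ _ => H.mul_mem) A
  intro i j h c
  fin_cases i
  · obtain rfl : j = 1 := by fin_cases j <;> tauto
    exact hU c
  · obtain rfl : j = 0 := by fin_cases j <;> tauto
    exact hlo c

end sl2

section main

variable {K E : Type*} [Field K] [Field E] [DecidableEq E] (f : K →+* E)

/-- the representation over the bigger field -/
noncomputable def rho : SL(2, K) →* GL (Fin 2) E :=
  (GeneralLinearGroup.map f).comp SpecialLinearGroup.toGL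

omit [DecidableEq E] in
lemma rho_apply (g : SL(2, K)) (i j : Fin 2) : rho f g i j = f (g.1 i j) := rfl

lemma fix_inf (g : SL(2, K)) : rho f g • (∞ : OnePoint E) = ∞ ↔ g.1 1 0 = 0 := by
  rw [smul_infty_eq_self_iff, rho_apply, map_eq_zero_iff f f.injective]

lemma fix_some (g : SL(2, K)) (k : E) : rho f g • (k : OnePoint E) = k ↔
    f (g.1 1 0) * k ^ 2 + (f (g.1 1 1) - f (g.1 0 0)) * k - f (g.1 0 1) = 0 := by
  rw [← GeneralLinearGroup.fixpointPolynomial_aeval_eq_zero_iff]
  simp [GeneralLinearGroup.fixpointPolynomial, rho_apply]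

lemma eq_one_of [CharP K 2] (g : SL(2, K)) (h1 : g.1 1 0 = 0) (h2 : g.1 0 1 = 0)
    (h3 : g.1 1 1 = g.1 0 0) : g = 1 := by
  have hd := det2 g
  rw [h1, h2, h3] at hd
  have h2' : (2 : K) = 0 := CharTwo.two_eq_zero
  have : (g.1 0 0 - 1) ^ 2 = 0 := by linear_combination hd + (1 - g.1 0 0) * h2'
  have h4 : g.1 0 0 = 1 := sub_eq_zero.1 (pow_eq_zero_iff (by norm_num) |>.1 this)
  apply Subtype.ext
  ext i j; fin_cases i <;> fin_cases j <;> simp [h1, h2, h3, h4]

lemma three_fix [CharP K 2] (g : SL(2, K)) (hg : g ≠ 1) (p q r : OnePoint E)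
    (hp : rho f g • p = p) (hq : rho f g • q = q) (hr : rho f g • r = r) :
    p = q ∨ p = r ∨ q = r := by
  by_contra hne
  push Not at hne
  obtain ⟨hpq, hpr, hqr⟩ := hne
  have two : ∀ a b : E, a ≠ b → rho f g • (∞ : OnePoint E) = ∞ →
      rho f g • (a : OnePoint E) = a → rho f g • (b : OnePoint E) = b → False := by
    intro a b hab h0 ha hb
    rw [fix_inf] at h0
    rw [fix_some, h0, map_zero] at ha hb
    have e1 : (f (g.1 1 1) - f (g.1 0 0)) * (a - b) = 0 := by linear_combination ha - hb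
    have e2 : f (g.1 1 1) - f (g.1 0 0) = 0 := (mul_eq_zero.1 e1).resolve_right (sub_ne_zero.2 hab)
    have e3 : f (g.1 0 1) = 0 := by linear_combination a * e2 - ha
    exact hg (eq_one_of g h0 ((map_eq_zero_iff f f.injective).1 e3)
      (f.injective (sub_eq_zero.1 e2)))
  induction p using OnePoint.rec with
  | infty =>
    induction q using OnePoint.rec with
    | infty => exact hpq rfl
    | coe b =>
      induction r using OnePoint.rec with
      | infty => exact hpr rfl
      | coe c => exact two b c (fun e => hqr (by rw [e])) hp hq hr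
  | coe a =>
    induction q using OnePoint.rec with
    | infty =>
      induction r using OnePoint.rec with
      | infty => exact hqr rfl
      | coe c => exact two a c (fun e => hpr (by rw [e])) hq hp hr
    | coe b =>
      induction r using OnePoint.rec with
      | infty => exact two a b (fun e => hpq (by rw [e])) hr hp hq
      | coe c =>
        have hab : a - b ≠ 0 := sub_ne_zero.2 (fun e => hpq (by rw [e]))
        have hac : a - c ≠ 0 := sub_ne_zero.2 (fun e => hpr (by rw [e]))
        have hbc : b - c ≠ 0 := sub_ne_zero.2 (fun e => hqr (by rw [e]))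
        have hp' := (fix_some f g a).1 hp
        have hq' := (fix_some f g b).1 hq
        have hr' := (fix_some f g c).1 hr
        have e1 : f (g.1 1 0) * ((a - b) * (a - c) * (b - c)) = 0 := by
          linear_combination (b - c) * hp' - (a - c) * hq' + (a - b) * hr'
        have e2 : f (g.1 1 0) = 0 :=
          (mul_eq_zero.1 e1).resolve_right (mul_ne_zero (mul_ne_zero hab hac) hbc)
        exact two a b (sub_ne_zero.1 hab)
          ((fix_inf f g).2 ((map_eq_zero_iff f f.injective).1 e2)) hp hq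

/-- rational points -/
def Rat (p : OnePoint E) : Prop := ∃ c : OnePoint K, OnePoint.map f c = p

lemma Rat.smul {p : OnePoint E} (hp : Rat f p) (g : SL(2, K)) : Rat f (rho f g • p) := by
  classical
  obtain ⟨c, rfl⟩ := hp
  exact ⟨SpecialLinearGroup.toGL g • c, OnePoint.map_smul f _ c⟩

omit [DecidableEq E] in
lemma rat_inf : Rat f (∞ : OnePoint E) := ⟨∞, rfl⟩

/-- the element of order three -/
def t0 : SL(2, K) := ⟨!![0, -1; 1, 1], by simp [det_fin_two_of]⟩

include f in
theorem ig [CharP K 2] (w : E) (hw : w ^ 2 + w + 1 = 0) (hK : ∀ k : K, k ^ 2 + k + 1 ≠ 0)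
    (hsq : ∀ k : K, ∃ l : K, l ^ 2 = k)
    (hlf : ∀ a b c : SL(2, K), ∃ M : Subgroup SL(2, K), Finite M ∧ a ∈ M ∧ b ∈ M ∧ c ∈ M)
    (H : Subgroup SL(2, K)) (hH : ∀ g : SL(2, K), ∃ c, c * g * c⁻¹ ∈ H) : H = ⊤ := by
  classical
  wlog hu : up 1 ∈ H generalizing H
  · obtain ⟨c, hc⟩ := hH (up 1)
    have := this (H.comap (MulAut.conj c).toMonoidHom) (fun g => by
      obtain ⟨d, hd⟩ := hH g
      refine ⟨c⁻¹ * d, ?_⟩
      rw [Subgroup.mem_comap]
      have : (MulAut.conj c).toMonoidHom (c⁻¹ * d * g * (c⁻¹ * d)⁻¹) = d * g * d⁻¹ := by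
        simp [MulAut.conj_apply]; group
      rw [this]; exact hd) hc
    rw [eq_top_iff] at this ⊢
    intro x _
    have h := this (Subgroup.mem_top (c⁻¹ * x * c))
    rw [Subgroup.mem_comap] at h
    have e : (MulAut.conj c).toMonoidHom (c⁻¹ * x * c) = x := by
      simp [MulAut.conj_apply]; group
    rwa [e] at h
  have h2 : (2 : K) = 0 := CharTwo.two_eq_zero
  obtain ⟨ct, hct⟩ := hH t0
  have hwfix : rho f (t0 : SL(2, K)) • (w : OnePoint E) = w := by
    rw [fix_some]; simp [t0]; linear_combination hw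
  have hwr : ¬ Rat f (w : OnePoint E) := by
    rintro ⟨c, hc⟩
    induction c using OnePoint.rec with
    | infty => exact OnePoint.infty_ne_coe _ hc
    | coe k =>
      have : f k = w := by simpa using hc
      apply hK k
      apply f.injective
      simp [this, hw]
  have hyr : ¬ Rat f (rho f ct • (w : OnePoint E)) := by
    intro h
    have := h.smul f ct⁻¹
    rw [map_inv, inv_smul_smul] at this
    exact hwr this
  have conj1 : ∀ c g : SL(2, K), g ≠ 1 → c * g * c⁻¹ ≠ 1 := by
    intro c g hg h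
    apply hg
    have : g = c⁻¹ * (c * g * c⁻¹) * c := by group
    rw [this, h]; simp
  have conj2 : ∀ c g : SL(2, K), g * g ≠ 1 → (c * g * c⁻¹) * (c * g * c⁻¹) ≠ 1 := by
    intro c g hg
    have : (c * g * c⁻¹) * (c * g * c⁻¹) = c * (g * g) * c⁻¹ := by group
    rw [this]; exact conj1 c _ hg
  have conjf : ∀ (c g : SL(2, K)) (p : OnePoint E), rho f g • p = p →
      rho f (c * g * c⁻¹) • (rho f c • p) = rho f c • p := by
    intro c g p hp
    rw [map_mul, map_mul, map_inv, mul_smul, mul_smul, inv_smul_smul, hp]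
  have ht1 : (t0 : SL(2, K)) ≠ 1 := by
    intro h
    have := congrArg (fun g : SL(2, K) => g.1 0 0) h
    simp [t0] at this
  have ht2 : (t0 : SL(2, K)) * t0 ≠ 1 := by
    intro h
    have := congrArg (fun g : SL(2, K) => g.1 1 0) h
    simp only [mul_coe] at this
    simp [t0, Matrix.mul_apply, Fin.sum_univ_two] at this
  have key : ∀ (l : K) (hl : l ≠ 0), l ≠ 1 → ∀ a, up a ∈ H → up (l ^ 2 * a) ∈ H := by
    intro l hl hl1 a ha
    obtain ⟨cs, hcs⟩ := hH (diag2 l hl)
    obtain ⟨M, hM, hM1, hM2, hM3⟩ := hlf (up 1) (cs * diag2 l hl * cs⁻¹) (ct * t0 * ct⁻¹)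
    let L : Subgroup SL(2, K) := H ⊓ M
    have : Finite L := Finite.of_injective _ (Subgroup.inclusion_injective (inf_le_right : L ≤ M))
    let _ : Fintype L := Fintype.ofFinite L
    let _ : MulAction L (OnePoint E) := MulAction.compHom _ ((rho f).comp L.subtype)
    have hsm : ∀ (g : L) (p : OnePoint E), g • p = rho f g.1 • p := fun _ _ => rfl
    have hd1 : (diag2 l hl : SL(2, K)) ≠ 1 := by
      intro h
      have := congrArg (fun g : SL(2, K) => g.1 0 0) h
      simp only [diag2_coe'] at this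
      exact hl1 (by simpa using this)
    have hd2 : (diag2 l hl : SL(2, K)) * diag2 l hl ≠ 1 := by
      intro h
      have := congrArg (fun g : SL(2, K) => g.1 0 0) h
      simp only [mul_coe, diag2_coe'] at this
      have e : l * l = 1 := by simpa [Matrix.mul_apply, Fin.sum_univ_two] using this
      have e2 : (l - 1) ^ 2 = 0 := by linear_combination e + (1 - l) * h2
      exact hl1 (sub_eq_zero.1 (pow_eq_zero_iff (by norm_num) |>.1 e2))
    have hdi : rho f (diag2 l hl : SL(2, K)) • (∞ : OnePoint E) = ∞ := by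
      rw [fix_inf, diag2_coe']; simp
    have hx : rho f cs • (∞ : OnePoint E) ∈ orbit L (∞ : OnePoint E) := by
      by_contra hx
      refine count (L := L) ∞ (rho f cs • (∞ : OnePoint E)) (rho f ct • (w : OnePoint E)) hx
        ?_ ?_ ?_ ⟨up 1, hu, hM1⟩ ?_ ?_ ?_ ⟨_, hcs, hM2⟩ ⟨_, hct, hM3⟩ ?_ ?_ ?_ ?_ ?_ ?_
      · rintro ⟨g, hg⟩
        apply hyr
        rw [← hg]
        exact (rat_inf f).smul f g.1
      · rintro ⟨g, hg⟩
        apply hyr
        rw [← hg]
        exact ((rat_inf f).smul f cs).smul f g.1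
      · intro g hg p q r hp hq hr
        exact three_fix f g.1 (fun h => hg (Subtype.ext h)) p q r hp hq hr
      · intro h
        have := congrArg (fun g : L => g.1.1 0 1) h
        simp [up_coe] at this
      · intro p hp
        induction p using OnePoint.rec with
        | infty => rfl
        | coe k =>
          rw [hsm, fix_some] at hp
          simp [up_coe] at hp
      · rw [hsm, fix_inf]; simp [up_coe]
      · exact conjf _ _ _ hdi
      · exact fun h => conj1 _ _ hd1 (congrArg Subtype.val h)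
      · exact fun h => conj2 _ _ hd2 (congrArg Subtype.val h)
      · exact conjf _ _ _ hwfix
      · exact fun h => conj1 _ _ ht1 (congrArg Subtype.val h)
      · exact fun h => conj2 _ _ ht2 (congrArg Subtype.val h)
    obtain ⟨g, hg⟩ := hx
    have hg' : rho f g.1 • (∞ : OnePoint E) = rho f cs • ∞ := hg
    have hm : (g.1⁻¹ * cs).1 1 0 = 0 := by
      rw [← fix_inf f, map_mul, mul_smul, ← hg', map_inv, inv_smul_smul]
    obtain ⟨e1, e2⟩ := conj_diag _ hm l hl
    have hin : g.1⁻¹ * cs * diag2 l hl * (g.1⁻¹ * cs)⁻¹ ∈ H := by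
      have : g.1⁻¹ * cs * diag2 l hl * (g.1⁻¹ * cs)⁻¹ =
          g.1⁻¹ * (cs * diag2 l hl * cs⁻¹) * g.1 := by group
      rw [this]
      exact H.mul_mem (H.mul_mem (H.inv_mem g.2.1) hcs) g.2.1
    have := conj_up _ e1 a
    rw [e2] at this
    rw [← this]
    exact H.mul_mem (H.mul_mem hin ha) (H.inv_mem hin)
  refine top_of H ?_ _ hct ?_
  · intro a
    obtain ⟨l, rfl⟩ := hsq a
    by_cases hl : l = 0
    · simp [hl, H.one_mem]
    by_cases hl1 : l = 1
    · simpa [hl1] using hu
    simpa using key l hl hl1 1 hu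
  · intro h
    rw [← fix_inf f, map_mul, map_mul, mul_smul, mul_smul, map_inv, smul_eq_iff_eq_inv_smul] at h
    obtain ⟨c, hc⟩ := (rat_inf f).smul f ct⁻¹
    rw [map_inv] at hc
    rw [← hc] at h
    induction c using OnePoint.rec with
    | infty =>
      have := (fix_inf f t0).1 h
      simp [t0] at this
    | coe k =>
      have := (fix_some f t0 (f k)).1 h
      apply hK k
      apply f.injective
      simp [t0] at this
      simp only [map_add, map_pow, map_one, map_zero]
      linear_combination this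

theorem not_vs [Infinite K] (hsq : ∀ k : K, ∃ l : K, l ^ 2 = k)
    (S : Subgroup SL(2, K)) [S.FiniteIndex] : S = ⊤ := by
  have hN : S.normalCore = ⊤ := by
    obtain ⟨a, b, hab, h⟩ := Finite.exists_ne_map_eq_of_infinite
      (fun a : K => (QuotientGroup.mk (up a) : SL(2, K) ⧸ S.normalCore))
    rw [QuotientGroup.eq, transvection_inv, ← transvection_add] at h
    have hc : -a + b ≠ 0 := fun e => hab (by linear_combination -e)
    have hn : S.normalCore.Normal := inferInstance
    refine top_of _ ?_ _ (hn.conj_mem _ h t0) ?_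
    · intro x
      obtain ⟨l, hl⟩ := hsq (x / (-a + b))
      by_cases h0 : l = 0
      · have : x = 0 := by
          rw [h0] at hl
          have := hl.symm
          simpa [hc] using this
        simp [this, Subgroup.one_mem]
      have := hn.conj_mem _ h (diag2 l h0)
      rw [conj_up _ (by simp [diag2_coe'])] at this
      have e : (diag2 l h0 : SL(2, K)).1 0 0 ^ 2 * (-a + b) = x := by
        rw [diag2_coe']
        simp only [of_apply, cons_val', cons_val_zero, cons_val_fin_one]
        rw [hl]; field_simp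
      rwa [e] at this
    · rw [mul_coe, mul_coe, inv_coe, up_coe]
      simp [t0, Matrix.mul_apply, Fin.sum_univ_two]
      exact fun e => hc (by linear_combination -e)
  exact eq_top_iff.2 (hN ▸ S.normalCore_le)

end main

section field

/-- algebraic closure of the field with two elements -/
abbrev E2 : Type := AlgebraicClosure (ZMod 2)

lemma pow_iter {R : Type*} [Monoid R] (x : R) (m : ℕ) (h : x ^ 2 ^ m = x) (n : ℕ) :
    x ^ 2 ^ (m * n) = x := by
  induction n with
  | zero => simp
  | succ n ih => rw [Nat.mul_succ, pow_add, pow_mul, ih, h]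

/-- the union of the odd degree extensions of the field with two elements -/
def K2 : Subfield E2 where
  carrier := {x | ∃ m, Odd m ∧ x ^ 2 ^ m = x}
  mul_mem' := by
    rintro x y ⟨m, hm, hx⟩ ⟨n, hn, hy⟩
    refine ⟨m * n, hm.mul hn, ?_⟩
    rw [mul_pow, pow_iter x m hx, mul_comm m, pow_iter y n hy]
  one_mem' := ⟨1, odd_one, by simp⟩
  add_mem' := by
    rintro x y ⟨m, hm, hx⟩ ⟨n, hn, hy⟩
    refine ⟨m * n, hm.mul hn, ?_⟩
    rw [add_pow_char_pow, pow_iter x m hx, mul_comm m, pow_iter y n hy]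
  zero_mem' := ⟨1, odd_one, by simp⟩
  neg_mem' := by
    intro x hx
    rwa [CharTwo.neg_eq]
  inv_mem' := by
    rintro x ⟨m, hm, hx⟩
    exact ⟨m, hm, by rw [inv_pow, hx]⟩

instance : CharP K2 2 := inferInstance

lemma K2_noroot (k : K2) : k ^ 2 + k + 1 ≠ 0 := by
  intro h
  obtain ⟨m, ⟨j, rfl⟩, hx⟩ := k.2
  have h' : (k : E2) ^ 2 + k + 1 = 0 := by exact_mod_cast congrArg Subtype.val h
  have h3 : (k : E2) ^ 2 ^ 2 = k := by linear_combination ((k : E2) ^ 2 - k) * h'
  rw [pow_succ, pow_mul, pow_iter _ 2 h3] at hx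
  have h2 : (2 : E2) = 0 := CharTwo.two_eq_zero
  exact one_ne_zero (α := E2) (by linear_combination h' - hx - (k : E2) * h2)

lemma K2_sq (k : K2) : ∃ l : K2, l ^ 2 = k := by
  obtain ⟨m, ⟨j, rfl⟩, hx⟩ := k.2
  refine ⟨k ^ 2 ^ (2 * j), Subtype.ext ?_⟩
  push_cast
  rw [← pow_mul, ← pow_succ, hx]

open Polynomial in
lemma roots_card (m : ℕ) (hm : m ≠ 0) :
    Nat.card {x : E2 // x ^ 2 ^ m = x} = 2 ^ m := by
  have h1 : 1 < 2 ^ m := Nat.one_lt_two_pow hm
  have hsep : Separable (X ^ 2 ^ m - X : E2[X]) :=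
    galois_poly_separable 2 (2 ^ m) (dvd_pow_self 2 hm)
  have hdeg := FiniteField.X_pow_card_sub_X_natDegree_eq E2 h1
  have hne := FiniteField.X_pow_card_sub_X_ne_zero E2 h1
  have hc := card_rootSet_eq_natDegree (K := E2) hsep (IsAlgClosed.splits _)
  rw [hdeg, ← Nat.card_eq_fintype_card] at hc
  refine Eq.trans ?_ hc
  apply Nat.card_congr
  refine Equiv.subtypeEquivRight (fun x => ?_)
  rw [mem_rootSet_of_ne hne]
  simp [sub_eq_zero]

instance : Infinite K2 := by
  rw [← not_finite_iff_infinite]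
  intro hf
  let n := Nat.card K2
  have hinj : Function.Injective (fun x : {x : E2 // x ^ 2 ^ (2 * n + 1) = x} =>
      (⟨x.1, 2 * n + 1, ⟨n, rfl⟩, x.2⟩ : K2)) := by
    intro x y h
    exact Subtype.ext (congrArg (fun z : K2 => (z : E2)) h)
  have := Nat.card_le_card_of_injective _ hinj
  rw [roots_card _ (by omega)] at this
  have h2 : 2 * n + 1 < 2 ^ (2 * n + 1) := Nat.lt_two_pow_self
  omega

/-- matrices over the subfield with `2 ^ m` elements -/
noncomputable def Mfin (m : ℕ) : Subgroup SL(2, K2) :=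
  MonoidHom.eqLocus (SpecialLinearGroup.map (iterateFrobenius K2 2 m)) (MonoidHom.id _)

lemma mem_Mfin (m : ℕ) (g : SL(2, K2)) : g ∈ Mfin m ↔ ∀ i j, (g.1 i j) ^ 2 ^ m = g.1 i j := by
  change SpecialLinearGroup.map (iterateFrobenius K2 2 m) g = g ↔ _
  exact Matrix.SpecialLinearGroup.ext_iff _ _

lemma Mfin_finite (m : ℕ) (hm : m ≠ 0) : Finite (Mfin m) := by
  have : Finite {x : E2 // x ^ 2 ^ m = x} :=
    Nat.finite_of_card_ne_zero (by rw [roots_card m hm]; positivity)
  refine Finite.of_injective (fun (g : Mfin m) (i j : Fin 2) =>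
    (⟨(g.1.1 i j : E2), by exact_mod_cast congrArg Subtype.val ((mem_Mfin m g.1).1 g.2 i j)⟩ :
      {x : E2 // x ^ 2 ^ m = x})) ?_
  intro g h e
  apply Subtype.ext
  ext i j
  exact congrArg (fun z : {x : E2 // x ^ 2 ^ m = x} => z.1) (congrFun (congrFun e i) j)

lemma Mfin_mono (m n : ℕ) : Mfin m ≤ Mfin (m * n) := by
  intro g hg
  rw [mem_Mfin] at hg ⊢
  exact fun i j => pow_iter _ m (hg i j) n

lemma exists_Mfin (g : SL(2, K2)) : ∃ m, m ≠ 0 ∧ g ∈ Mfin m := by
  have : ∀ i j, ∃ m, m ≠ 0 ∧ (g.1 i j) ^ 2 ^ m = g.1 i j := by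
    intro i j
    obtain ⟨m, hm, hx⟩ := (g.1 i j).2
    exact ⟨m, hm.pos.ne', Subtype.ext (by push_cast; exact hx)⟩
  choose m hm hx using this
  refine ⟨∏ p : Fin 2 × Fin 2, m p.1 p.2, Finset.prod_ne_zero_iff.2 (fun p _ => hm _ _), ?_⟩
  rw [mem_Mfin]
  intro i j
  obtain ⟨c, hc⟩ := Finset.dvd_prod_of_mem (fun p : Fin 2 × Fin 2 => m p.1 p.2)
    (Finset.mem_univ (i, j))
  rw [hc]
  exact pow_iter _ _ (hx i j) c

theorem K2_ig (H : Subgroup SL(2, K2)) (hH : ∀ g : SL(2, K2), ∃ c, c * g * c⁻¹ ∈ H) :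
    H = ⊤ := by
  classical
  obtain ⟨w, hw⟩ : ∃ w : E2, w ^ 2 + w + 1 = 0 := by
    obtain ⟨w, hw⟩ := IsAlgClosed.exists_root
      (Polynomial.X ^ 2 + Polynomial.X + 1 : Polynomial E2) (by
        have : (Polynomial.X ^ 2 + Polynomial.X + 1 : Polynomial E2).degree = 2 := by
          compute_degree!
        rw [this]; norm_num)
    exact ⟨w, by simpa using hw⟩
  refine ig K2.subtype w hw K2_noroot K2_sq ?_ H hH
  intro a b c
  obtain ⟨m, hm, ha⟩ := exists_Mfin a
  obtain ⟨n, hn, hb⟩ := exists_Mfin b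
  obtain ⟨k, hk, hc⟩ := exists_Mfin c
  refine ⟨Mfin (m * n * k), Mfin_finite _ (by positivity), ?_, ?_, ?_⟩
  · rw [mul_assoc]; exact Mfin_mono _ _ ha
  · rw [mul_comm m, mul_assoc]; exact Mfin_mono _ _ hb
  · rw [mul_comm]; exact Mfin_mono _ _ hc

theorem K2_not_solvable : ¬ IsSolvable SL(2, K2) := by
  classical
  obtain ⟨a, ha⟩ : ∃ a : K2, a ∉ ({0, 1} : Finset K2) := Infinite.exists_notMem_finset _
  have h2 : (2 : K2) = 0 := CharTwo.two_eq_zero
  have ha0 : a ≠ 0 := fun h => ha (by simp [h])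
  have ha1 : a ^ 2 ≠ 1 := by
    intro h
    have e2 : (a - 1) ^ 2 = 0 := by linear_combination h + (1 - a) * h2
    exact ha (by simp [sub_eq_zero.1 (pow_eq_zero_iff (by norm_num) |>.1 e2)])
  have : Group.IsPerfect SL(2, K2) := ⟨SL2.commutator_eq_top ha0 ha1⟩
  have : Nontrivial SL(2, K2) := ⟨⟨up 1, 1, fun h => by
    have := congrArg (fun g : SL(2, K2) => g.1 0 1) h
    simp [up_coe] at this⟩⟩
  exact Group.IsPerfect.not_isSolvable _

end field

end Pool.Agent.Lib.helper24.InvGen
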