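import Mathlib

set_option autoImplicit false

namespace Pool.Agent.Lib.helper24.LatinDet

open Matrix

section ring
variable {R : Type} [CommRing R]

theorem det_sym_blocks {m : Type} [Fintype m] [DecidableEq m] (E F : Matrix m m R) :
    (fromBlocks E F F E).det = (E + F).det * (E - F).det := by
  have h : fromBlocks (1 : Matrix m m R) 1 0 1 * fromBlocks E F F E * fromBlocks 1 (-1) 0 1
      = fromBlocks (E + F) 0 F (E - F) := by
    rw [fromBlocks_multiply, fromBlocks_multiply]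
    congr 1 <;> simp <;> abel
  have h2 := congrArg det h
  rw [det_mul, det_mul, det_fromBlocks_zero₂₁, det_fromBlocks_zero₂₁, det_fromBlocks_zero₁₂] at h2
  simpa using h2

def La (a : Fin 4 → R) : Matrix (Fin 4) (Fin 4) R :=
  !![a 0, -a 1, -a 2, -a 3; a 1, a 0, -a 3, a 2; a 2, a 3, a 0, -a 1; a 3, -a 2, a 1, a 0]
def Rb (b : Fin 4 → R) : Matrix (Fin 4) (Fin 4) R :=
  !![b 0, -b 1, -b 2, -b 3; b 1, b 0, b 3, -b 2; b 2, -b 3, b 0, b 1; b 3, b 2, -b 1, b 0]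
def Zb (b : Fin 4 → R) : Matrix (Fin 4) (Fin 4) R :=
  !![b 0, b 1, b 2, b 3; -b 1, b 0, -b 3, b 2; b 2, -b 3, -b 0, b 1; b 3, b 2, -b 1, -b 0]
def Lc (a : Fin 4 → R) : Matrix (Fin 4) (Fin 4) R :=
  !![a 0, a 1, a 2, a 3; -a 1, a 0, a 3, -a 2; -a 2, -a 3, a 0, a 1; -a 3, a 2, -a 1, a 0]
def G4 (w : Fin 4 → R) : Matrix (Fin 4) (Fin 4) R :=
  !![w 0, w 1, w 2, w 3; w 1, w 0, w 3, w 2; w 2, w 3, w 0, w 1; w 3, w 2, w 1, w 0]

def nn (a : Fin 4 → R) : R := a 0 ^ 2 + a 1 ^ 2 + a 2 ^ 2 + a 3 ^ 2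

theorem La_Lc (a : Fin 4 → R) : La a * Lc a = diagonal (fun _ => nn a) := by
  ext i j
  fin_cases i <;> fin_cases j <;> simp [La, Lc, nn, Matrix.mul_apply, Fin.sum_univ_four] <;> ring

theorem La_Rb (a b : Fin 4 → R) : La a * (-Rb b) + Rb b * La a = 0 := by
  ext i j
  fin_cases i <;> fin_cases j <;> simp [La, Rb, Matrix.mul_apply, Fin.sum_univ_four] <;> ring

theorem Zb_Rb (a b : Fin 4 → R) : Zb b * (-Rb b) + Lc a * La a =
    diagonal ![nn a - nn b, nn a - nn b, nn a + nn b, nn a + nn b] := by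
  ext i j
  fin_cases i <;> fin_cases j <;>
    simp [La, Lc, Rb, Zb, nn, Matrix.mul_apply, Fin.sum_univ_four] <;> ring

theorem det_S [IsDomain R] (a b : Fin 4 → R) (ha : nn a ≠ 0) :
    (fromBlocks (La a) (Rb b) (Zb b) (Lc a)).det = (nn a - nn b) ^ 2 * (nn a + nn b) ^ 2 := by
  have h : fromBlocks (La a) (Rb b) (Zb b) (Lc a) * fromBlocks (Lc a) (-Rb b) 0 (La a)
      = fromBlocks (diagonal (fun _ => nn a)) 0 (Zb b * Lc a)
        (diagonal ![nn a - nn b, nn a - nn b, nn a + nn b, nn a + nn b]) := by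
    rw [fromBlocks_multiply, La_Rb, Zb_Rb, La_Lc]
    simp
  have h2 := congrArg det h
  rw [det_mul, det_fromBlocks_zero₂₁, det_fromBlocks_zero₁₂, mul_comm (Lc a).det, ← det_mul,
    La_Lc, det_diagonal, det_diagonal] at h2
  simp only [Fin.prod_univ_four] at h2
  have h4 : nn a * nn a * nn a * nn a ≠ 0 := by
    simp [ha]
  apply mul_right_cancel₀ h4
  rw [h2]
  simp
  ring

theorem det_G4 (w : Fin 4 → R) : (G4 w).det = (w 0 + w 1 + w 2 + w 3) * (w 0 - w 1 + w 2 - w 3) *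
    (w 0 + w 1 - w 2 - w 3) * (w 0 - w 1 - w 2 + w 3) := by
  simp [G4, Matrix.det_succ_row_zero, Fin.sum_univ_succ, Fin.succAbove]
  ring

theorem G4_add (a b : Fin 4 → R) : G4 a + G4 b = G4 (a + b) := by
  ext i j
  fin_cases i <;> fin_cases j <;> simp [G4]

theorem G4_sub (a b : Fin 4 → R) : G4 a - G4 b = G4 (a - b) := by
  ext i j
  fin_cases i <;> fin_cases j <;> simp [G4]

end ring

def LL : Fin 16 → Fin 16 → Fin 16 :=
 ![![0, 9, 10, 11, 4, 13, 14, 15, 8, 1, 2, 3, 12, 5, 6, 7],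
  ![1, 0, 11, 2, 5, 4, 7, 14, 9, 8, 3, 10, 13, 12, 15, 6],
  ![2, 3, 0, 9, 6, 15, 4, 5, 10, 11, 8, 1, 14, 7, 12, 13],
  ![3, 10, 1, 0, 7, 6, 13, 4, 11, 2, 9, 8, 15, 14, 5, 12],
  ![4, 5, 6, 7, 0, 1, 2, 3, 12, 13, 14, 15, 8, 9, 10, 11],
  ![13, 4, 15, 6, 9, 0, 3, 10, 5, 12, 7, 14, 1, 8, 11, 2],
  ![6, 15, 12, 5, 10, 11, 0, 1, 14, 7, 4, 13, 2, 3, 8, 9],
  ![7, 6, 13, 12, 11, 2, 9, 0, 15, 14, 5, 4, 3, 10, 1, 8],
  ![8, 1, 2, 3, 12, 5, 6, 7, 0, 9, 10, 11, 4, 13, 14, 15],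
  ![9, 8, 3, 10, 13, 12, 15, 6, 1, 0, 11, 2, 5, 4, 7, 14],
  ![10, 11, 8, 1, 14, 7, 12, 13, 2, 3, 0, 9, 6, 15, 4, 5],
  ![11, 2, 9, 8, 15, 14, 5, 12, 3, 10, 1, 0, 7, 6, 13, 4],
  ![12, 13, 14, 15, 8, 9, 10, 11, 4, 5, 6, 7, 0, 1, 2, 3],
  ![5, 12, 7, 14, 1, 8, 11, 2, 13, 4, 15, 6, 9, 0, 3, 10],
  ![14, 7, 4, 13, 2, 3, 8, 9, 6, 15, 12, 5, 10, 11, 0, 1],
  ![15, 14, 5, 4, 3, 10, 1, 8, 7, 6, 13, 12, 11, 2, 9, 0]]

theorem LL_row : ∀ i, Function.Bijective (LL i) := by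
  intro i
  rw [← Finite.injective_iff_bijective]
  revert i
  unfold Function.Injective
  decide +kernel

theorem LL_col : ∀ j, Function.Bijective (fun i => LL i j) := by
  intro j
  rw [← Finite.injective_iff_bijective]
  revert j
  unfold Function.Injective
  decide +kernel

theorem not_group : ¬ ∃ (G : Type) (_ : Group G) (a : Fin 16 ≃ G) (b : Fin 16 ≃ G)
    (e : G ≃ Fin 16), ∀ i j, LL i j = e (a i * b j) := by
  rintro ⟨G, _, a, b, e, h⟩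
  have k : ∀ i j k l, LL i j = LL k l ↔ a i * b j = a k * b l := by
    intro i j k l
    rw [h, h, e.apply_eq_iff_eq]
  have h1 := (k 0 0 4 4).1 (by decide)
  have h2 := (k 0 2 4 14).1 (by decide)
  have h3 := (k 1 0 13 4).1 (by decide)
  have h4 : a 1 * b 2 = a 13 * b 14 := by
    calc a 1 * b 2 = (a 1 * b 0) * (a 0 * b 0)⁻¹ * (a 0 * b 2) := by group
      _ = (a 13 * b 4) * (a 4 * b 4)⁻¹ * (a 4 * b 14) := by rw [h1, h2, h3]
      _ = _ := by group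
  exact absurd ((k _ _ _ _).2 h4) (by decide)

abbrev I8 := Fin 4 ⊕ Fin 4

def ee : I8 ⊕ I8 ≃ Fin 16 :=
  (Equiv.sumCongr finSumFinEquiv finSumFinEquiv).trans (finSumFinEquiv (m := 4 + 4) (n := 4 + 4))

section
variable {R : Type} [CommRing R]

def EE (x : Fin 16 → R) : Matrix I8 I8 R := of fun a b => x (LL (ee (.inl a)) (ee (.inl b)))
def FF (x : Fin 16 → R) : Matrix I8 I8 R := of fun a b => x (LL (ee (.inl a)) (ee (.inr b)))

theorem blocks (x : Fin 16 → R) : (of fun i j => x (LL i j)).submatrix ee ee =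
    fromBlocks (EE x) (FF x) (FF x) (EE x) := by
  have h1 : ∀ a b : I8, LL (ee (.inr a)) (ee (.inl b)) = LL (ee (.inl a)) (ee (.inr b)) := by
    decide +kernel
  have h2 : ∀ a b : I8, LL (ee (.inr a)) (ee (.inr b)) = LL (ee (.inl a)) (ee (.inl b)) := by
    decide +kernel
  ext i j
  rcases i with a | a <;> rcases j with b | b <;> simp [EE, FF, h1, h2]

def ua (x : Fin 16 → R) : Fin 4 → R := ![x 0 + x 8, x 1 + x 9, x 2 + x 10, x 3 + x 11]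
def ub (x : Fin 16 → R) : Fin 4 → R := ![x 4 + x 12, x 5 + x 13, x 6 + x 14, x 7 + x 15]
def ya (x : Fin 16 → R) : Fin 4 → R := ![x 0 - x 8, x 1 - x 9, x 2 - x 10, x 3 - x 11]
def yb (x : Fin 16 → R) : Fin 4 → R := ![x 4 - x 12, x 5 - x 13, x 6 - x 14, x 7 - x 15]

theorem EF_add (x : Fin 16 → R) :
    EE x + FF x = fromBlocks (G4 (ua x)) (G4 (ub x)) (G4 (ub x)) (G4 (ua x)) := by
  ext i j
  rcases i with a | a <;> rcases j with b | b <;> fin_cases a <;> fin_cases b <;>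
    first | rfl | exact add_comm _ _

theorem EF_sub (x : Fin 16 → R) :
    EE x - FF x = fromBlocks (La (ya x)) (Rb (yb x)) (Zb (yb x)) (Lc (ya x)) := by
  ext i j
  rcases i with a | a <;> rcases j with b | b <;> fin_cases a <;> fin_cases b <;>
    first | rfl | exact (neg_sub _ _).symm

def chi : Fin 8 → Fin 8 → ℤ :=
  ![![1, 1, 1, 1, 1, 1, 1, 1], ![1, -1, 1, -1, 1, -1, 1, -1], ![1, 1, -1, -1, 1, 1, -1, -1],
    ![1, -1, -1, 1, 1, -1, -1, 1], ![1, 1, 1, 1, -1, -1, -1, -1], ![1, -1, 1, -1, -1, 1, -1, 1],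
    ![1, 1, -1, -1, -1, -1, 1, 1], ![1, -1, -1, 1, -1, 1, 1, -1]]

def lin (s : Fin 8) (x : Fin 16 → R) : R :=
  ∑ c : Fin 8, (chi s c : R) * (x (Fin.castAdd 8 c) + x (Fin.natAdd 8 c))

def Q1 (x : Fin 16 → R) : R := nn (ya x) - nn (yb x)
def Q2 (x : Fin 16 → R) : R := nn (ya x) + nn (yb x)

theorem lin_eq (s : Fin 8) (x : Fin 16 → R) : lin s x =
    chi s 0 * (x 0 + x 8) + chi s 1 * (x 1 + x 9) + chi s 2 * (x 2 + x 10) + chi s 3 * (x 3 + x 11)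
    + chi s 4 * (x 4 + x 12) + chi s 5 * (x 5 + x 13) + chi s 6 * (x 6 + x 14)
    + chi s 7 * (x 7 + x 15) := by
  rw [lin, Fin.sum_univ_eight]
  rfl

theorem det_LL [IsDomain R] (x : Fin 16 → R) (ha : nn (ya x) ≠ 0) :
    (of fun i j => x (LL i j)).det = (∏ s, lin s x) * (Q1 x ^ 2 * Q2 x ^ 2) := by
  rw [← det_submatrix_equiv_self ee, blocks, det_sym_blocks, EF_add, EF_sub, det_S _ _ ha,
    det_sym_blocks, G4_add, G4_sub, det_G4, det_G4, Fin.prod_univ_eight]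
  have e0 : lin 0 x = (ua x + ub x) 0 + (ua x + ub x) 1 + (ua x + ub x) 2 + (ua x + ub x) 3 := by
    simp [lin_eq, chi, ua, ub]; ring
  have e1 : lin 1 x = (ua x + ub x) 0 - (ua x + ub x) 1 + (ua x + ub x) 2 - (ua x + ub x) 3 := by
    simp [lin_eq, chi, ua, ub]; ring
  have e2 : lin 2 x = (ua x + ub x) 0 + (ua x + ub x) 1 - (ua x + ub x) 2 - (ua x + ub x) 3 := by
    simp [lin_eq, chi, ua, ub]; ring
  have e3 : lin 3 x = (ua x + ub x) 0 - (ua x + ub x) 1 - (ua x + ub x) 2 + (ua x + ub x) 3 := by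
    simp [lin_eq, chi, ua, ub]; ring
  have e4 : lin 4 x = (ua x - ub x) 0 + (ua x - ub x) 1 + (ua x - ub x) 2 + (ua x - ub x) 3 := by
    simp [lin_eq, chi, ua, ub]; ring
  have e5 : lin 5 x = (ua x - ub x) 0 - (ua x - ub x) 1 + (ua x - ub x) 2 - (ua x - ub x) 3 := by
    simp [lin_eq, chi, ua, ub]; ring
  have e6 : lin 6 x = (ua x - ub x) 0 + (ua x - ub x) 1 - (ua x - ub x) 2 - (ua x - ub x) 3 := by
    simp [lin_eq, chi, ua, ub]; ring
  have e7 : lin 7 x = (ua x - ub x) 0 - (ua x - ub x) 1 - (ua x - ub x) 2 + (ua x - ub x) 3 := by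
    simp [lin_eq, chi, ua, ub]; ring
  rw [e0, e1, e2, e3, e4, e5, e6, e7]
  simp only [Q1, Q2, mul_assoc]

end

end Pool.Agent.Lib.helper24.LatinDet
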