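import Pool.Agent.Lib.helper24.LatinDetA

set_option autoImplicit false

namespace Pool.Agent.Lib.helper24.LatinDet

open MvPolynomial

abbrev PP := MvPolynomial (Fin 16) ℂ

theorem map_lin {R S : Type} [CommRing R] [CommRing S] (f : R →+* S) (s : Fin 8)
    (x : Fin 16 → R) : f (lin s x) = lin s (fun i => f (x i)) := by
  simp [lin]

theorem map_nna {R S : Type} [CommRing R] [CommRing S] (f : R →+* S)
    (x : Fin 16 → R) : f (nn (ya x)) = nn (ya (fun i => f (x i))) := by
  simp [nn, ya]

theorem map_nnb {R S : Type} [CommRing R] [CommRing S] (f : R →+* S)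
    (x : Fin 16 → R) : f (nn (yb x)) = nn (yb (fun i => f (x i))) := by
  simp [nn, yb]

noncomputable def gP {R : Type} [CommRing R] (x : Fin 16 → R) : Fin 8 ⊕ Fin 2 → R :=
  Sum.elim (fun s => lin s x) ![Q1 x, Q2 x]

theorem map_gP {R S : Type} [CommRing R] [CommRing S] (f : R →+* S)
    (x : Fin 16 → R) (j : Fin 8 ⊕ Fin 2) : f (gP x j) = gP (fun i => f (x i)) j := by
  rcases j with s | s
  · exact map_lin f s x
  · fin_cases s
    · simp [gP, Q1, map_nna, map_nnb]
    · simp [gP, Q2, map_nna, map_nnb]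

noncomputable def pt : Fin 8 ⊕ Fin 2 → Fin 16 → ℂ :=
  Sum.elim (fun t => ![chi t 0, chi t 1, chi t 2, chi t 3, chi t 4, chi t 5, chi t 6, chi t 7,
      chi t 0, chi t 1, chi t 2, chi t 3, chi t 4, chi t 5, chi t 6, chi t 7])
    ![![1, 0, 0, 0, Complex.I, 0, 0, 0, -1, 0, 0, 0, -Complex.I, 0, 0, 0],
      ![1, 0, 0, 0, 1, 0, 0, 0, -1, 0, 0, 0, -1, 0, 0, 0]]

theorem chi_orth : ∀ s t : Fin 8, chi s 0 * chi t 0 + chi s 1 * chi t 1 + chi s 2 * chi t 2
    + chi s 3 * chi t 3 + chi s 4 * chi t 4 + chi s 5 * chi t 5 + chi s 6 * chi t 6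
    + chi s 7 * chi t 7 = if s = t then 8 else 0 := by decide

theorem lin_pt (s t : Fin 8) : lin s (pt (.inl t)) = if s = t then 16 else 0 := by
  have h := congrArg (fun z : ℤ => (2 : ℂ) * (z : ℂ)) (chi_orth s t)
  rw [lin_eq]
  simp only [pt, Sum.elim_inl]
  simp only [Int.cast_add, Int.cast_mul, Int.cast_ite] at h
  have : (if s = t then (16 : ℂ) else 0) = 2 * (if s = t then ((8 : ℤ) : ℂ) else ((0 : ℤ) : ℂ)) := by
    split_ifs <;> norm_num
  rw [this, ← h]
  simp
  ring

theorem gP_pt (i j : Fin 8 ⊕ Fin 2) : gP (pt j) i = 0 ↔ i ≠ j := by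
  rcases i with s | s <;> rcases j with t | t
  · simp only [gP, Sum.elim_inl, lin_pt]
    by_cases h : s = t <;> simp [h]
  · fin_cases t <;> simp [gP, lin_eq, pt]
  · fin_cases s <;> simp [gP, Q1, Q2, nn, ya, yb, pt]
  · have hI : (Complex.I + Complex.I) ^ 2 = -4 := by
      rw [← two_mul, mul_pow, Complex.I_sq]; norm_num
    fin_cases s <;> fin_cases t <;> simp [gP, Q1, Q2, nn, ya, yb, pt, hI] <;> norm_num

noncomputable def PF : Fin 8 ⊕ Fin 2 → PP := gP X

theorem eval_PF (i j : Fin 8 ⊕ Fin 2) : eval (pt j) (PF i) = 0 ↔ i ≠ j := by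
  rw [PF, map_gP]
  simpa using gP_pt i j

theorem PF_ne (i : Fin 8 ⊕ Fin 2) : PF i ≠ 0 := by
  intro h
  have := (eval_PF i i).1 (by rw [h]; simp)
  exact this rfl

theorem PF_not_assoc (i j : Fin 8 ⊕ Fin 2) (h : i ≠ j) : ¬ Associated (PF i) (PF j) := by
  intro ha
  obtain ⟨u, hu⟩ := ha.dvd
  have := (eval_PF j j).1 (by rw [hu, map_mul, (eval_PF i j).2 h, zero_mul])
  exact this rfl

theorem hX (i : Fin 16) : (X i : PP).IsHomogeneous 1 := isHomogeneous_X _ _

theorem hom_lin (s : Fin 8) : (lin s (X : Fin 16 → PP)).IsHomogeneous 1 := by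
  refine IsHomogeneous.sum _ _ _ (fun c _ => ?_)
  have := (isHomogeneous_C (Fin 16) ((chi s c : ℂ))).mul ((hX (Fin.castAdd 8 c)).add (hX (Fin.natAdd 8 c)))
  simpa using this

theorem hsq (i j : Fin 16) : ((X i - X j : PP) ^ 2).IsHomogeneous 2 :=
  ((hX i).sub (hX j)).pow 2

theorem hom_a : (nn (ya (X : Fin 16 → PP))).IsHomogeneous 2 :=
  (((hsq 0 8).add (hsq 1 9)).add (hsq 2 10)).add (hsq 3 11)

theorem hom_b : (nn (yb (X : Fin 16 → PP))).IsHomogeneous 2 :=
  (((hsq 4 12).add (hsq 5 13)).add (hsq 6 14)).add (hsq 7 15)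

theorem deg_lin (s : Fin 8) : (PF (.inl s)).totalDegree = 1 :=
  (hom_lin s).totalDegree (PF_ne (.inl s))

theorem deg_Q (s : Fin 2) : (PF (.inr s)).totalDegree = 2 := by
  fin_cases s
  · exact (hom_a.sub hom_b).totalDegree (PF_ne (.inr 0))
  · exact (hom_a.add hom_b).totalDegree (PF_ne (.inr 1))

theorem irr_lin (s : Fin 8) : Irreducible (PF (.inl s)) := by
  refine irreducible_of_totalDegree_eq_one (deg_lin s) ?_
  intro x hx
  rw [isUnit_iff_ne_zero]
  rintro rfl
  apply PF_ne (.inl s)
  ext m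
  simpa using hx m

noncomputable def sf (i : Fin 16) : PP :=
  if i = 0 then (X 0 - X 8) + C Complex.I * (X 1 - X 9)
  else if i = 1 then (X 0 - X 8) - C Complex.I * (X 1 - X 9) else X i

noncomputable def sb (i : Fin 16) : PP :=
  if i = 0 then X 8 + C (1 / 2) * (X 0 + X 1)
  else if i = 1 then X 9 - C (1 / 2) * C Complex.I * (X 0 - X 1) else X i

theorem cI : (C Complex.I : PP) * C Complex.I = -1 := by
  rw [← map_mul, Complex.I_mul_I]; simp

theorem c2 : (C (1 / 2) : PP) * 2 = 1 := by
  have : (2 : PP) = C 2 := rfl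
  rw [this, ← map_mul]; norm_num

noncomputable def sig : PP ≃ₐ[ℂ] PP :=
  AlgEquiv.ofAlgHom (aeval sf) (aeval sb)
    (by
      apply MvPolynomial.algHom_ext
      intro i
      by_cases h0 : i = 0
      · subst h0
        simp only [AlgHom.comp_apply, aeval_X, sb, if_true, map_add, map_mul, aeval_C,
          algebraMap_eq, sf, AlgHom.id_apply]
        simp only [show ¬ ((8 : Fin 16) = 0) by decide, show ¬ ((8 : Fin 16) = 1) by decide,
          show ¬ ((1 : Fin 16) = 0) by decide, if_false]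
        linear_combination (X 0 - X 8 : PP) * c2
      · by_cases h1 : i = 1
        · subst h1
          simp only [AlgHom.comp_apply, aeval_X, sb, if_true, map_sub, map_mul, aeval_C,
            algebraMap_eq, sf, AlgHom.id_apply, h0, if_false]
          simp only [show ¬ ((9 : Fin 16) = 0) by decide, show ¬ ((9 : Fin 16) = 1) by decide,
            if_false]
          linear_combination (-(C (1 / 2) : PP) * 2 * (X 1 - X 9)) * cI + (X 1 - X 9 : PP) * c2
        · simp [sf, sb, h0, h1])
    (by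
      apply MvPolynomial.algHom_ext
      intro i
      by_cases h0 : i = 0
      · subst h0
        simp only [AlgHom.comp_apply, aeval_X, sb, if_true, map_add, map_sub, map_mul, aeval_C,
          algebraMap_eq, sf, AlgHom.id_apply]
        simp only [show ¬ ((8 : Fin 16) = 0) by decide, show ¬ ((8 : Fin 16) = 1) by decide,
          show ¬ ((9 : Fin 16) = 0) by decide, show ¬ ((9 : Fin 16) = 1) by decide,
          show ¬ ((1 : Fin 16) = 0) by decide, if_false]
        linear_combination (-(C (1 / 2) : PP) * (X 0 - X 1)) * cI + (X 0 : PP) * c2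
      · by_cases h1 : i = 1
        · subst h1
          simp only [AlgHom.comp_apply, aeval_X, sb, if_true, map_add, map_sub, map_mul, aeval_C,
            algebraMap_eq, sf, AlgHom.id_apply, h0, if_false]
          simp only [show ¬ ((8 : Fin 16) = 0) by decide, show ¬ ((8 : Fin 16) = 1) by decide,
            show ¬ ((9 : Fin 16) = 0) by decide, show ¬ ((9 : Fin 16) = 1) by decide,
            if_false]
          linear_combination ((C (1 / 2) : PP) * (X 0 - X 1)) * cI + (X 1 : PP) * c2
        · simp [sf, sb, h0, h1])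

noncomputable def g0 (e : ℂ) : MvPolynomial (Fin 15) ℂ :=
  (X 1 - X 9) ^ 2 + (X 2 - X 10) ^ 2 +
    C e * ((X 3 - X 11) ^ 2 + (X 4 - X 12) ^ 2 + (X 5 - X 13) ^ 2 + (X 6 - X 14) ^ 2)

theorem rn (e : ℂ) : (rename Fin.succ (g0 e) : PP) = (X 2 - X 10) ^ 2 + (X 3 - X 11) ^ 2 +
    C e * ((X 4 - X 12) ^ 2 + (X 5 - X 13) ^ 2 + (X 6 - X 14) ^ 2 + (X 7 - X 15) ^ 2) := by
  simp only [g0, map_add, map_mul, map_pow, map_sub, rename_X, rename_C]
  rfl

theorem irr_model (e : ℂ) : Irreducible (X 1 * X 0 + rename Fin.succ (g0 e) : PP) := by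
  refine irreducible_mul_X_add _ _ _ (X_ne_zero _) (by simp [vars_X]) ?_ ?_
  · intro h
    have := vars_rename _ _ h
    simp only [Finset.mem_image] at this
    obtain ⟨a, -, ha⟩ := this
    exact Fin.succ_ne_zero a ha
  · have hp : Irreducible (X 1 : PP) := by
      refine irreducible_of_totalDegree_eq_one (totalDegree_X _) ?_
      intro x hx
      have := hx (Finsupp.single 1 1)
      rw [coeff_X] at this
      simpa using this
    rw [hp.isRelPrime_iff_not_dvd]
    rintro ⟨u, hu⟩
    have := congrArg (eval (fun i : Fin 16 => if i = 2 then (1 : ℂ) else 0)) hu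
    rw [rn] at this
    simp at this

theorem sig_model (e : ℂ) : sig (X 1 * X 0 + rename Fin.succ (g0 e)) =
    nn (ya X) + C e * nn (yb X) := by
  rw [rn]
  show aeval sf _ = _
  simp only [map_add, map_mul, map_pow, map_sub, aeval_X, aeval_C, algebraMap_eq]
  have h0 : sf 0 = (X 0 - X 8) + C Complex.I * (X 1 - X 9) := rfl
  have h1 : sf 1 = (X 0 - X 8) - C Complex.I * (X 1 - X 9) := rfl
  have hr : ∀ i : Fin 16, i ≠ 0 → i ≠ 1 → sf i = X i := by
    intro i a b; simp [sf, a, b]
  rw [h0, h1, hr 2 (by decide) (by decide), hr 3 (by decide) (by decide),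
    hr 4 (by decide) (by decide), hr 5 (by decide) (by decide), hr 6 (by decide) (by decide),
    hr 7 (by decide) (by decide), hr 10 (by decide) (by decide), hr 11 (by decide) (by decide),
    hr 12 (by decide) (by decide), hr 13 (by decide) (by decide), hr 14 (by decide) (by decide),
    hr 15 (by decide) (by decide)]
  simp only [nn, ya, yb, Matrix.cons_val_zero, Matrix.cons_val_one, Matrix.cons_val]
  linear_combination (-(X 1 - X 9 : PP) ^ 2) * cI

theorem irr_e (e : ℂ) : Irreducible (nn (ya X) + C e * nn (yb X) : PP) := by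
  rw [← sig_model]
  exact (MulEquiv.irreducible_iff sig).2 (irr_model e)

theorem irr_PF (i : Fin 8 ⊕ Fin 2) : Irreducible (PF i) := by
  rcases i with s | s
  · exact irr_lin s
  · fin_cases s
    · have := irr_e (-1)
      simpa [PF, gP, Q1, sub_eq_add_neg] using this
    · have := irr_e 1
      simpa [PF, gP, Q2] using this

theorem det_final : (Matrix.of (fun i j => (X (LL i j) : PP))).det =
    ∏ j, PF j ^ (PF j).totalDegree := by
  have ha : nn (ya (X : Fin 16 → PP)) ≠ 0 := by
    intro h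
    have := congrArg (eval (fun i : Fin 16 => if i = 0 then (1 : ℂ) else 0)) h
    rw [map_nna] at this
    simp [nn, ya] at this
  rw [det_LL X ha, Fintype.prod_sum_type]
  simp only [deg_lin, deg_Q, pow_one, Fin.prod_univ_two]
  rfl

end Pool.Agent.Lib.helper24.LatinDet
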