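import Mathlib

set_option autoImplicit false

namespace Pool.Agent.LogConn

open Polynomial

variable {K : Type} [Field K]

/-- The operator `h ↦ R h' + u h`. -/
noncomputable def Top (R u : K[X]) : K[X] →ₗ[K] K[X] :=
  (LinearMap.mulLeft K R).comp derivative + LinearMap.mulLeft K u

theorem Top_apply (R u h : K[X]) : Top R u h = R * derivative h + u * h := by
  simp [Top]

theorem exists_q [IsAlgClosed K] (F D : K[X]) (hF : F ≠ 0) (hD : D ≠ 0)
    (h : ∀ τ, F.IsRoot τ → rootMultiplicity τ D ≤ rootMultiplicity τ F) :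
    ∃ q : K[X], q.eval 0 ≠ 0 ∧ D ∣ F * q.comp F := by
  classical
  refine ⟨((D.roots.filter fun τ => ¬F.IsRoot τ).map fun τ => X - C (F.eval τ)).prod, ?_, ?_⟩
  · rw [eval_multiset_prod, Multiset.map_map]
    refine Multiset.prod_ne_zero fun h0 => ?_
    obtain ⟨τ, h1, h2⟩ := Multiset.mem_map.1 h0
    apply (Multiset.mem_filter.1 h1).2
    simpa using h2
  · conv_lhs => rw [(IsAlgClosed.splits D).eq_prod_roots]
    rw [C_mul_dvd (leadingCoeff_ne_zero.2 hD),
      ← Multiset.filter_add_not (fun τ => F.IsRoot τ) D.roots, Multiset.map_add, Multiset.prod_add,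
      Multiset.filter_add_not]
    refine mul_dvd_mul ?_ ?_
    · rw [Multiset.prod_X_sub_C_dvd_iff_le_roots hF, Multiset.le_iff_count]
      intro τ
      rw [Multiset.count_filter, count_roots, count_roots]
      split_ifs with h1
      · exact h τ h1
      · exact Nat.zero_le _
    · rw [multiset_prod_comp, Multiset.map_map]
      refine Multiset.prod_dvd_prod_of_dvd _ _ fun τ _ => ?_
      simpa using X_sub_C_dvd_sub_C_eval (p := F) (a := τ)

theorem mul_deriv_pow (σ : K) (i : ℕ) :
    (X - C σ) * derivative ((X - C σ) ^ i) = (i : K[X]) * (X - C σ) ^ i := by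
  rcases i with _ | i
  · simp
  · rw [derivative_X_sub_C_pow, Nat.add_sub_cancel, map_natCast]; ring

theorem split_root (p : K[X]) (hp : p ≠ 0) (σ : K) :
    ∃ q : K[X], p = (X - C σ) ^ p.rootMultiplicity σ * q ∧ q.eval σ ≠ 0 := by
  obtain ⟨q, h1, h2⟩ := exists_eq_pow_rootMultiplicity_mul_and_not_dvd p hp σ
  exact ⟨q, h1, fun h => h2 (dvd_iff_isRoot.2 h)⟩

theorem ord_pres (R w R1 x : K[X]) (σ : K) (hR : R = (X - C σ) * R1)
    (h : ∀ i : ℕ, (i : K) * R1.eval σ + w.eval σ ≠ 0) (hx : x ≠ 0) (n : ℕ)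
    (hn : (X - C σ) ^ n ∣ Top R w x) : n ≤ rootMultiplicity σ x := by
  by_contra hlt
  obtain ⟨x1, e, h1⟩ := split_root x hx σ
  generalize rootMultiplicity σ x = i at e hlt
  have e2 : Top R w x = (X - C σ) ^ i *
      ((i : K[X]) * R1 * x1 + (X - C σ) * R1 * derivative x1 + w * x1) := by
    rw [Top_apply, e, hR, derivative_mul]
    linear_combination (R1 * x1) * mul_deriv_pow σ i
  have h2 := (pow_dvd_pow (X - C σ) (show i + 1 ≤ n by omega)).trans hn
  rw [e2, pow_succ, mul_dvd_mul_iff_left (pow_ne_zero _ (X_sub_C_ne_zero σ)), dvd_iff_isRoot,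
    IsRoot] at h2
  simp only [eval_add, eval_mul, eval_natCast, eval_sub, eval_X, eval_C, sub_self, zero_mul,
    add_zero] at h2
  apply mul_ne_zero (h i) h1
  linear_combination h2

theorem finite_over (F : K[X]) (hd : F.natDegree ≠ 0) :
    Module.Finite (Algebra.adjoin K {F}) K[X] := by
  classical
  have hF : F ≠ 0 := fun e => hd (by rw [e]; simp)
  refine ⟨⟨(Finset.range F.natDegree).image fun i => X ^ i, ?_⟩⟩
  rw [Submodule.eq_top_iff']
  intro p
  induction hn : p.natDegree using Nat.strong_induction_on generalizing p with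
  | _ n ih =>
  have small : ∀ r : K[X], r.natDegree < F.natDegree → r ∈ Submodule.span (Algebra.adjoin K {F})
      (((Finset.range F.natDegree).image fun i => (X : K[X]) ^ i : Finset K[X]) : Set K[X]) := by
    intro r hr
    rw [r.as_sum_range_C_mul_X_pow' hr]
    refine Submodule.sum_mem _ fun i hi => ?_
    have : C (r.coeff i) * X ^ i = (algebraMap K (Algebra.adjoin K {F}) (r.coeff i)) • X ^ i := rfl
    rw [this]
    exact Submodule.smul_mem _ _ (Submodule.subset_span
      (Finset.mem_coe.2 (Finset.mem_image_of_mem _ hi)))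
  by_cases hp : p.natDegree < F.natDegree
  · exact small p hp
  have e : p = (⟨F, Algebra.self_mem_adjoin_singleton K F⟩ : Algebra.adjoin K {F}) • (p / F) +
      p % F := (EuclideanDomain.div_add_mod p F).symm
  rw [e]
  refine add_mem (Submodule.smul_mem _ _ (ih _ ?_ _ rfl)) (small _ (natDegree_mod_lt p hd))
  have hp0 : p ≠ 0 := by
    rintro rfl
    simp at hp
    exact hd hp
  rw [← hn]
  by_cases h0 : p / F = 0
  · rw [h0, natDegree_zero]; omega
  · exact natDegree_lt_natDegree h0 (degree_div_lt hp0 (natDegree_pos_iff_degree_pos.1 (by omega)))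

theorem main [IsAlgClosed K] [CharZero K] (R u F : K[X]) (hR0 : R ≠ 0)
    (hR : ∀ σ, R.IsRoot σ → ∃ r1, R = (X - C σ) * r1 ∧ r1.eval σ ≠ 0 ∧
      ∀ i : ℕ, (i : K) * r1.eval σ + u.eval σ ≠ 0)
    (hF : F ≠ 0) (hyp : ∀ m, 1 ≤ m → F ^ m ∈ LinearMap.range (Top R u)) :
    1 ∈ LinearMap.range (Top R u) := by
  classical
  set V := LinearMap.range (Top R u) with hV
  by_cases hd : F.natDegree = 0
  · have e := eq_C_of_natDegree_eq_zero hd
    have hc : F.coeff 0 ≠ 0 := fun h => hF (by rw [e, h, map_zero])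
    have := V.smul_mem (F.coeff 0)⁻¹ (hyp 1 le_rfl)
    rwa [pow_one, smul_eq_C_mul, e, coeff_C_zero, ← map_mul, inv_mul_cancel₀ hc, map_one] at this
  have hF' : derivative F ≠ 0 := fun h => hd (natDegree_eq_zero_of_derivative_eq_zero h)
  obtain ⟨q, hq0, g, hg⟩ := exists_q F (R * derivative F) hF (mul_ne_zero hR0 hF') (by
    intro τ hτ
    rw [rootMultiplicity_mul (mul_ne_zero hR0 hF'), derivative_rootMultiplicity_of_root hτ]
    have h1 := (rootMultiplicity_pos hF).2 hτ
    have h2 : rootMultiplicity τ R ≤ 1 := by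
      by_cases h : R.IsRoot τ
      · obtain ⟨r1, e, h3, -⟩ := hR τ h
        rw [rootMultiplicity_le_iff hR0, e, pow_succ, pow_one,
          mul_dvd_mul_iff_left (X_sub_C_ne_zero τ), dvd_iff_isRoot]
        exact h3
      · rw [rootMultiplicity_eq_zero h]; omega
    omega)
  let Θ := Top (R * g) (R * derivative g + u * g)
  have hΘV : ∀ x, Θ x ∈ V := fun x => ⟨g * x, by
    simp only [Θ, Top_apply, derivative_mul]; ring⟩
  have hcomm : ∀ P x, Θ (P.comp F * x) =
      P.comp F * Θ x + F * (q * derivative P).comp F * x := by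
    intro P x
    simp only [Θ, Top_apply, derivative_mul, derivative_comp, mul_comp]
    linear_combination (-((derivative P).comp F * x)) * hg
  have hloc : ∀ σ, F.IsRoot σ → ∃ R1, R * g = (X - C σ) * R1 ∧
      ∀ i : ℕ, (i : K) * R1.eval σ + (R * derivative g + u * g).eval σ ≠ 0 := by
    intro σ hσ
    obtain ⟨F1, e, h1⟩ := split_root F hF σ
    have hk := (rootMultiplicity_pos hF).2 hσ
    generalize rootMultiplicity σ F = k at e hk
    have hk' : (k : K) ≠ 0 := by exact_mod_cast hk.ne'
    have e1 : (X - C σ) * derivative F =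
        (X - C σ) ^ k * ((k : K[X]) * F1 + (X - C σ) * derivative F1) := by
      conv_lhs => rw [e]
      rw [derivative_mul]
      linear_combination F1 * mul_deriv_pow σ k
    have e2 : R * g * ((k : K[X]) * F1 + (X - C σ) * derivative F1) =
        (X - C σ) * (F1 * q.comp F) := by
      apply mul_left_cancel₀ (pow_ne_zero k (X_sub_C_ne_zero σ))
      linear_combination (-(R * g)) * e1 - (X - C σ) * hg + (X - C σ) * q.comp F * e
    have hq1 : (q.comp F).eval σ ≠ 0 := by rwa [eval_comp, hσ.eq_zero]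
    by_cases h : R.IsRoot σ
    · obtain ⟨r1, er, h3, h4⟩ := hR σ h
      have e3 : r1 * g * ((k : K[X]) * F1 + (X - C σ) * derivative F1) = F1 * q.comp F := by
        apply mul_left_cancel₀ (X_sub_C_ne_zero σ)
        rw [← e2, er]; ring
      have e4 := congrArg (eval σ) e3
      have hg0 : g.eval σ ≠ 0 := by
        intro h0
        simp only [eval_mul, h0, mul_zero, zero_mul] at e4
        exact mul_ne_zero h1 hq1 e4.symm
      refine ⟨r1 * g, by rw [er]; ring, fun i hi => mul_ne_zero (h4 i) hg0 ?_⟩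
      simp only [eval_add, eval_mul, h.eq_zero] at hi
      linear_combination hi
    · have e4 := congrArg (eval σ) e2
      simp only [eval_mul, eval_add, eval_sub, eval_X, eval_C, sub_self, zero_mul, add_zero,
        eval_natCast, mul_eq_zero] at e4
      have hg0 : g.IsRoot σ := by
        rcases e4 with (h5 | h5) | h5 | h5
        · exact absurd h5 h
        · exact h5
        · exact absurd h5 hk'
        · exact absurd h5 h1
      obtain ⟨g1, eg⟩ := dvd_iff_isRoot.2 hg0
      have e3 : R * g1 * ((k : K[X]) * F1 + (X - C σ) * derivative F1) = F1 * q.comp F := by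
        apply mul_left_cancel₀ (X_sub_C_ne_zero σ)
        rw [← e2, eg]; ring
      have e5 := congrArg (eval σ) e3
      have hg1 : g1.eval σ ≠ 0 := by
        intro h0
        simp only [eval_mul, h0, mul_zero, zero_mul] at e5
        exact mul_ne_zero h1 hq1 e5.symm
      refine ⟨R * g1, by rw [eg]; ring, fun i hi => ?_⟩
      have hi1 : ((i : K) + 1) ≠ 0 := by exact_mod_cast Nat.succ_ne_zero i
      refine mul_ne_zero hi1 (mul_ne_zero h hg1) ?_
      rw [eg] at hi
      simp only [eval_add, eval_mul, derivative_mul, derivative_sub, derivative_X, derivative_C,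
        eval_sub, eval_X, eval_C, sub_self, zero_mul, mul_zero, add_zero, sub_zero, eval_one,
        one_mul] at hi
      linear_combination hi
  have hinj : ∀ j x, F ^ j ∣ Θ x → F ^ j ∣ x := by
    intro j x hx
    by_cases h0 : x = 0
    · rw [h0]; exact dvd_zero _
    rw [IsAlgClosed.dvd_iff_roots_le_roots (pow_ne_zero j hF) h0, Multiset.le_iff_count]
    intro σ
    rw [count_roots, count_roots]
    by_cases hσ : F.IsRoot σ
    · obtain ⟨R1, e, h⟩ := hloc σ hσ
      exact ord_pres _ _ R1 x σ e h h0 _ ((pow_rootMultiplicity_dvd _ σ).trans hx)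
    · rw [rootMultiplicity_eq_zero (by
        rw [IsRoot, eval_pow]; exact pow_ne_zero j hσ)]
      exact Nat.zero_le _
  let A := Algebra.adjoin K {F}
  have hA : ∀ a : A, ∃ P : K[X], (a : K[X]) = P.comp F := by
    rintro ⟨a, ha⟩
    have ha' : a ∈ (aeval F : K[X] →ₐ[K] K[X]).range := by
      rw [← Algebra.adjoin_singleton_eq_range_aeval]; exact ha
    obtain ⟨P, hP⟩ := ha'
    exact ⟨P, hP.symm.trans (comp_eq_aeval).symm⟩
  let N : ℕ → Submodule A K[X] := fun i =>
    { carrier := {x | ∀ P : K[X], F * P.comp F * (F ^ i * x) ∈ V}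
      zero_mem' := fun P => by simp
      add_mem' := fun {x y} hx hy P => by
        rw [mul_add, mul_add]; exact add_mem (hx P) (hy P)
      smul_mem' := fun a x hx P => by
        obtain ⟨Q, hQ⟩ := hA a
        have : F * P.comp F * (F ^ i * a • x) = F * (P * Q).comp F * (F ^ i * x) := by
          show F * P.comp F * (F ^ i * ((a : K[X]) * x)) = _
          rw [hQ, mul_comp]; ring
        rw [this]
        exact hx _ }
  have hN : ∀ i x, x ∈ N i ↔ ∀ P : K[X], F * P.comp F * (F ^ i * x) ∈ V := fun i x => Iff.rfl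
  have : Module.Finite A K[X] := finite_over F hd
  have : Algebra.FiniteType K A :=
    (Subalgebra.fg_iff_finiteType _).1 ⟨{F}, by simp [A]⟩
  have : IsNoetherianRing A := Algebra.FiniteType.isNoetherianRing K A
  obtain ⟨r, hr⟩ := monotone_stabilizes_iff_noetherian.2 (inferInstance : IsNoetherian A K[X])
    ⟨N, monotone_nat_of_le_succ fun i x hx P => by
      have := (hN i x).1 hx (P * X)
      rw [mul_comp, X_comp] at this
      rwa [show F * P.comp F * (F ^ (i + 1) * x) = F * (P.comp F * F) * (F ^ i * x) by ring]⟩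
  have hr1 : N r = N (r + 1) := hr (r + 1) (Nat.le_succ r)
  have key : ∀ y ∈ N 0, F ^ (r + 1) ∣ y → y ∈ V := by
    rintro _ hy ⟨x, rfl⟩
    have h1 : x ∈ N (r + 1) := fun P => by simpa using (hN 0 _).1 hy P
    rw [← hr1] at h1
    have := (hN r x).1 h1 1
    rwa [one_comp, mul_one, ← mul_assoc, ← pow_succ'] at this
  have one_mem : (1 : K[X]) ∈ N 0 := by
    intro P
    induction P using Polynomial.induction_on' with
    | add p q hp hq => rw [add_comp, mul_add, add_mul]; exact add_mem hp hq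
    | monomial n a =>
      rw [monomial_comp, pow_zero, mul_one, mul_one, mul_left_comm, ← pow_succ', ← smul_eq_C_mul]
      exact V.smul_mem _ (hyp _ (by omega))
  have stab : ∀ x ∈ N 0, Θ x ∈ N 0 := by
    intro x hx P
    have e := hcomm (X * P) x
    rw [mul_comp, X_comp] at e
    have h1 := (hN 0 x).1 hx (q * derivative (X * P))
    rw [pow_zero, one_mul] at h1 ⊢
    rw [← sub_eq_iff_eq_add.2 e]
    exact sub_mem (hΘV _) h1
  let N0 : Submodule K K[X] := (N 0).restrictScalars K
  let Q := AdjoinRoot (F ^ (r + 1))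
  have : Module.Finite K Q := (AdjoinRoot.powerBasis (pow_ne_zero _ hF)).finite
  let π : K[X] →ₗ[K] Q := (AdjoinRoot.mkₐ (F ^ (r + 1))).toLinearMap
  have hπ : ∀ x, π x = 0 ↔ F ^ (r + 1) ∣ x := fun x => AdjoinRoot.mk_eq_zero
  let Φ : N0 →ₗ[K] Q := π.comp N0.subtype
  let Ψ : N0 →ₗ[K] Q := π.comp (Θ.comp N0.subtype)
  have hle : LinearMap.range Ψ ≤ LinearMap.range Φ := by
    rintro _ ⟨x, rfl⟩
    exact ⟨⟨Θ x, stab _ x.2⟩, rfl⟩
  have hker : LinearMap.ker Ψ = LinearMap.ker Φ := by
    ext x
    show π (Θ x) = 0 ↔ π x = 0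
    rw [hπ, hπ]
    refine ⟨hinj _ _, ?_⟩
    rintro ⟨y, hy⟩
    have e := hcomm (X ^ (r + 1)) y
    rw [X_pow_comp, ← hy] at e
    rw [e, derivative_X_pow, mul_comp, mul_comp, X_pow_comp, Nat.add_sub_cancel]
    refine dvd_add (dvd_mul_right _ _) ⟨q.comp F * (C ((r + 1 : ℕ) : K)).comp F * y, by ring⟩
  have heq : LinearMap.range Ψ = LinearMap.range Φ :=
    Submodule.eq_of_le_of_finrank_eq hle (LinearEquiv.finrank_eq
      ((Ψ.quotKerEquivRange.symm.trans (Submodule.quotEquivOfEq _ _ hker)).trans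
        Φ.quotKerEquivRange))
  have : Φ ⟨1, one_mem⟩ ∈ LinearMap.range Ψ := heq ▸ ⟨_, rfl⟩
  obtain ⟨x, hx⟩ := this
  have h1 : F ^ (r + 1) ∣ 1 - Θ x := by
    rw [← hπ, map_sub, sub_eq_zero]
    exact hx.symm
  have := add_mem (key _ (sub_mem one_mem (stab _ x.2)) h1) (hΘV x)
  rwa [sub_add_cancel] at this

end Pool.Agent.LogConn
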