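import Mathlib

set_option autoImplicit false

namespace Pool.Agent.Lib.helper24.Misere

/-- Finite impartial games: a game is a finite family of options. -/
inductive Game : Type
  | mk (n : ℕ) (f : Fin n → Game) : Game

namespace Game

/-- `H` is an option of `G`. -/
def IsOption (H : Game) : Game → Prop
  | mk _ f => ∃ i, H = f i

/-- Auxiliary recursion for the sum: the left summand is `mk n f`, and `F i` is the map
`H ↦ f i + H`. -/
def addAux (n : ℕ) (F : Fin n → Game → Game) : Game → Game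
  | mk m g => mk (n + m) (Fin.addCases (fun i => F i (mk m g)) (fun j => addAux n F (g j)))

/-- The disjunctive sum: the options of `G + H` are the `G' + H` and the `G + H'`. -/
def add : Game → Game → Game
  | mk n f => addAux n (fun i => add (f i))

/-- The game without options. -/
def zero : Game := mk 0 Fin.elim0

/-- The sum of `k` copies of `x`. -/
def mul (x : Game) : ℕ → Game
  | 0 => zero
  | k + 1 => add (mul x k) x

/-- Misère outcome `N` (the player to move wins): there is no move, or some move leads to a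
game whose outcome is not `N`. -/
def IsN : Game → Prop
  | mk n f => n = 0 ∨ ∃ i, ¬ IsN (f i)

end Game

open Game

/-- A nonempty set of games closed under sums and under taking options. -/
def Closed (A : Set Game) : Prop :=
  A.Nonempty ∧ (∀ G ∈ A, ∀ H ∈ A, add G H ∈ A) ∧ ∀ G ∈ A, ∀ H, IsOption H G → H ∈ A

/-- Equivalence modulo `A`: the same misère outcome in every sum with a game of `A`. -/
def Eqv (A : Set Game) (H K : Game) : Prop :=
  ∀ X ∈ A, (IsN (add H X) ↔ IsN (add K X))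

/-- The class of `x` in the misère quotient of `A` has period `p`. -/
def HasPeriod (A : Set Game) (x : Game) (p : ℕ) : Prop :=
  IsLeast {q : ℕ | 1 ≤ q ∧ ∃ m, 1 ≤ m ∧ Eqv A (mul x (m + q)) (mul x m)} p

theorem add_mk (n m : ℕ) (f : Fin n → Game) (g : Fin m → Game) :
    add (mk n f) (mk m g) =
      mk (n + m) (Fin.addCases (fun i => add (f i) (mk m g)) (fun j => add (mk n f) (g j))) := rfl

section Rep

variable {V : Type} [AddCommMonoid V] (opt : V → V → Prop)

/-- The game `G` is the game played from position `c` of the move relation `opt`. -/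
def Rep : Game → V → Prop
  | mk _ f, c => (∀ i, ∃ c', opt c c' ∧ Rep (f i) c') ∧ ∀ c', opt c c' → ∃ i, Rep (f i) c'

variable {opt}

theorem rep_add (hs : ∀ c d z, opt (c + d) z ↔
      (∃ c', opt c c' ∧ z = c' + d) ∨ ∃ d', opt d d' ∧ z = c + d') :
    ∀ (G H : Game) (c d : V), Rep opt G c → Rep opt H d → Rep opt (add G H) (c + d) := by
  intro G
  induction G with
  | mk n f ihG =>
    intro H
    induction H with
    | mk m g ihH =>
      intro c d hc hd
      rw [add_mk]
      refine ⟨fun i => ?_, fun z hz => ?_⟩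
      · refine Fin.addCases (fun i => ?_) (fun j => ?_) i
        · obtain ⟨c', h1, h2⟩ := hc.1 i
          refine ⟨c' + d, (hs _ _ _).2 (Or.inl ⟨c', h1, rfl⟩), ?_⟩
          simp only [Fin.addCases_left]
          exact ihG i _ _ _ h2 hd
        · obtain ⟨d', h1, h2⟩ := hd.1 j
          refine ⟨c + d', (hs _ _ _).2 (Or.inr ⟨d', h1, rfl⟩), ?_⟩
          simp only [Fin.addCases_right]
          exact ihH j _ _ hc h2
      · rcases (hs _ _ _).1 hz with ⟨c', h1, rfl⟩ | ⟨d', h1, rfl⟩
        · obtain ⟨i, hi⟩ := hc.2 c' h1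
          refine ⟨Fin.castAdd m i, ?_⟩
          simp only [Fin.addCases_left]
          exact ihG i _ _ _ hi hd
        · obtain ⟨j, hj⟩ := hd.2 d' h1
          refine ⟨Fin.natAdd n j, ?_⟩
          simp only [Fin.addCases_right]
          exact ihH j _ _ hc hj

theorem rep_out (out : V → Prop)
    (ho : ∀ c, out c ↔ (∀ c', ¬ opt c c') ∨ ∃ c', opt c c' ∧ ¬ out c') :
    ∀ (G : Game) (c : V), Rep opt G c → (IsN G ↔ out c) := by
  intro G
  induction G with
  | mk n f ih =>
    intro c hc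
    rw [ho]
    constructor
    · rintro (h | ⟨i, hi⟩)
      · left
        intro c' h'
        obtain ⟨i, -⟩ := hc.2 c' h'
        subst h
        exact i.elim0
      · obtain ⟨c', h1, h2⟩ := hc.1 i
        exact Or.inr ⟨c', h1, fun h => hi ((ih i c' h2).2 h)⟩
    · rintro (h | ⟨c', h1, h2⟩)
      · left
        by_contra hn
        obtain ⟨c', h1, -⟩ := hc.1 ⟨0, Nat.pos_of_ne_zero hn⟩
        exact h c' h1
      · obtain ⟨i, hi⟩ := hc.2 c' h1
        exact Or.inr ⟨i, fun h => h2 ((ih i c' hi).1 h)⟩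

theorem rep_zero (h0 : ∀ z, ¬ opt 0 z) : Rep opt zero 0 :=
  ⟨fun i => i.elim0, fun c' h => (h0 c' h).elim⟩

theorem rep_mul (hs : ∀ c d z, opt (c + d) z ↔
      (∃ c', opt c c' ∧ z = c' + d) ∨ ∃ d', opt d d' ∧ z = c + d') (h0 : ∀ z, ¬ opt 0 z)
    (x : Game) (c : V) (hx : Rep opt x c) : ∀ k : ℕ, Rep opt (mul x k) (k • c)
  | 0 => by rw [zero_smul]; exact rep_zero h0
  | k + 1 => by rw [succ_nsmul]; exact rep_add hs _ _ _ _ (rep_mul hs h0 x c hx k) hx

/-- Every position of a finitely branching well-founded move relation is represented. -/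
theorem rep_exists (wf : WellFounded fun a b => opt b a) (fin : ∀ c, {c' | opt c c'}.Finite)
    (c : V) : ∃ G, Rep opt G c := by
  induction c using wf.induction with
  | _ c ih =>
    haveI : Nonempty Game := ⟨zero⟩
    choose! G hG using ih
    obtain ⟨n, ⟨e⟩⟩ := (fin c).to_subtype.exists_equiv_fin
    refine ⟨mk n fun i => G (e.symm i).1, fun i => ⟨_, (e.symm i).2, hG _ (e.symm i).2⟩,
      fun c' h => ⟨e ⟨c', h⟩, ?_⟩⟩
    simpa using hG c' h

theorem closed (hs : ∀ c d z, opt (c + d) z ↔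
      (∃ c', opt c c' ∧ z = c' + d) ∨ ∃ d', opt d d' ∧ z = c + d') (h0 : ∀ z, ¬ opt 0 z) :
    Closed {G | ∃ c, Rep opt G c} := by
  refine ⟨⟨zero, 0, rep_zero h0⟩, ?_, ?_⟩
  · rintro G ⟨c, hc⟩ H ⟨d, hd⟩
    exact ⟨c + d, rep_add hs _ _ _ _ hc hd⟩
  · rintro ⟨n, f⟩ ⟨c, hc⟩ H ⟨i, rfl⟩
    obtain ⟨c', -, h⟩ := hc.1 i
    exact ⟨c', h⟩

/-- The period of a position, read off from the outcome function. -/
theorem hasPeriod (hs : ∀ c d z, opt (c + d) z ↔
      (∃ c', opt c c' ∧ z = c' + d) ∨ ∃ d', opt d d' ∧ z = c + d') (h0 : ∀ z, ¬ opt 0 z)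
    (wf : WellFounded fun a b => opt b a) (fin : ∀ c, {c' | opt c c'}.Finite)
    (out : V → Prop) (ho : ∀ c, out c ↔ (∀ c', ¬ opt c c') ∨ ∃ c', opt c c' ∧ ¬ out c')
    (c : V) (p m : ℕ) (hp : 1 ≤ p) (hm : 1 ≤ m)
    (h1 : ∀ e, out ((m + p) • c + e) ↔ out (m • c + e))
    (h2 : ∀ q k, 1 ≤ q → q < p → 1 ≤ k → ∃ e, ¬ (out ((k + q) • c + e) ↔ out (k • c + e))) :
    ∃ (A : Set Game) (x : Game), Closed A ∧ x ∈ A ∧ HasPeriod A x p := by
  obtain ⟨x, hx⟩ := rep_exists wf fin c
  have key : ∀ k X e, Rep opt X e → (IsN (add (mul x k) X) ↔ out (k • c + e)) := fun k X e hX =>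
    rep_out out ho _ _ (rep_add hs _ _ _ _ (rep_mul hs h0 x c hx k) hX)
  refine ⟨_, x, closed hs h0, ⟨c, hx⟩, ⟨hp, m, hm, ?_⟩, ?_⟩
  · rintro X ⟨e, hX⟩
    rw [key _ X e hX, key _ X e hX]
    exact h1 e
  · rintro q ⟨hq, k, hk, h⟩
    by_contra hlt
    obtain ⟨e, he⟩ := h2 q k hq (not_le.1 hlt) hk
    obtain ⟨X, hX⟩ := rep_exists wf fin e
    have := h X ⟨e, hX⟩
    rw [key _ X e hX, key _ X e hX] at this
    exact he this

end Rep

end Pool.Agent.Lib.helper24.Misere
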