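import Mathlib

set_option autoImplicit false

namespace Pool.Agent.Lib.helper24.MisereTab

/-- Positions: the numbers of components of each of five types. -/
abbrev V := ℕ × ℕ × ℕ × ℕ × ℕ

/-- A move removes one component and adds components of lower types. -/
def opt (M : List (V × V)) (c c' : V) : Prop := ∃ m ∈ M, m.1 ≤ c ∧ c' = c - m.1 + m.2

def red (t p n : ℕ) : ℕ := bif Nat.ble t n then Nat.add t (Nat.mod (Nat.sub n t) p) else n

theorem red_eq (t p n : ℕ) : red t p n = if n < t then n else t + (n - t) % p := by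
  unfold red
  split_ifs with h
  · rw [Bool.eq_false_iff.2 fun h' => absurd (Nat.le_of_ble_eq_true h') (by omega)]
    rfl
  · rw [Nat.ble_eq_true_of_le (by omega)]
    rfl

def R (t p c : V) : V :=
  (red t.1 p.1 c.1, red t.2.1 p.2.1 c.2.1, red t.2.2.1 p.2.2.1 c.2.2.1,
    red t.2.2.2.1 p.2.2.2.1 c.2.2.2.1, red t.2.2.2.2 p.2.2.2.2 c.2.2.2.2)

def outF (t p : V) (T : ℕ) (a b c d e : ℕ) : Bool :=
  !(T.testBit (Nat.add (red t.1 p.1 a) (Nat.mul 2 (Nat.add (red t.2.1 p.2.1 b) (Nat.mul 6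
    (Nat.add (red t.2.2.1 p.2.2.1 c) (Nat.mul 6 (Nat.add (red t.2.2.2.1 p.2.2.2.1 d)
      (Nat.mul 6 (red t.2.2.2.2 p.2.2.2.2 e))))))))))

def outB (t p : V) (T : ℕ) (c : V) : Bool := outF t p T c.1 c.2.1 c.2.2.1 c.2.2.2.1 c.2.2.2.2

def leB (a b : V) : Bool :=
  a.1.ble b.1 && a.2.1.ble b.2.1 && a.2.2.1.ble b.2.2.1 && a.2.2.2.1.ble b.2.2.2.1 &&
    a.2.2.2.2.ble b.2.2.2.2

theorem leB_iff (a b : V) : leB a b = true ↔ a ≤ b := by
  simp [leB, Prod.le_def, and_assoc]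

def chk (M : List (V × V)) (t p : V) (T : ℕ) (d : V) : Bool :=
  outB t p T d == (M.all (fun m => !leB m.1 d) ||
    M.any fun m => leB m.1 d && !outF t p T (Nat.add (Nat.sub d.1 m.1.1) m.2.1)
      (Nat.add (Nat.sub d.2.1 m.1.2.1) m.2.2.1) (Nat.add (Nat.sub d.2.2.1 m.1.2.2.1) m.2.2.2.1)
      (Nat.add (Nat.sub d.2.2.2.1 m.1.2.2.2.1) m.2.2.2.2.1)
      (Nat.add (Nat.sub d.2.2.2.2 m.1.2.2.2.2) m.2.2.2.2.2))

theorem chk_eq (M : List (V × V)) (t p : V) (T : ℕ) (d : V) :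
    chk M t p T d = (outB t p T d == (M.all (fun m => !leB m.1 d) ||
      M.any fun m => leB m.1 d && !outB t p T (d - m.1 + m.2))) := rfl

def chkAll (M : List (V × V)) (t p : V) (T : ℕ) : Bool :=
  (List.range (t.1 + 1 + p.1)).all fun a => (List.range (t.2.1 + 1 + p.2.1)).all fun b =>
    (List.range (t.2.2.1 + 1 + p.2.2.1)).all fun c =>
      (List.range (t.2.2.2.1 + 1 + p.2.2.2.1)).all fun d =>
        (List.range (t.2.2.2.2 + 1 + p.2.2.2.2)).all fun e => chk M t p T (a, b, c, d, e)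

def w (c : V) : ℕ := c.1 + 3 * c.2.1 + 9 * c.2.2.1 + 27 * c.2.2.2.1 + 81 * c.2.2.2.2

def sz (c : V) : ℕ := c.1 + c.2.1 + c.2.2.1 + c.2.2.2.1 + c.2.2.2.2

theorem red_lt (t p n : ℕ) (hp : 0 < p) : red t p n < t + p := by
  rw [red_eq]
  split_ifs
  · omega
  · have := Nat.mod_lt (n - t) hp
    omega

theorem red_add (t p n k : ℕ) (h : t ≤ n) : red t p (n + p * k) = red t p n := by
  rw [red_eq, red_eq, if_neg (by omega), if_neg (by omega), show n + p * k - t = n - t + p * k by omega,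
    Nat.add_mul_mod_self_left]

theorem red_le (t p n e : ℕ) (he : e ≤ 1) : e ≤ red (t + 1) p n ↔ e ≤ n := by
  rw [red_eq]
  split_ifs <;> omega

theorem red_step (t p n e j : ℕ) (he : e ≤ 1) :
    red t p (red (t + 1) p n - e + j) = red t p (n - e + j) := by
  by_cases h : n < t + 1
  · rw [show red (t + 1) p n = n by rw [red_eq, if_pos h]]
  · rw [show red (t + 1) p n = t + 1 + (n - (t + 1)) % p by rw [red_eq, if_neg h],
      ← red_add t p _ ((n - (t + 1)) / p) (by omega)]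
    have := Nat.mod_add_div (n - (t + 1)) p
    congr 1
    omega

theorem opt_add (M : List (V × V)) (hM : ∀ m ∈ M, sz m.1 = 1 ∧ w m.2 < w m.1) (c d z : V) :
    opt M (c + d) z ↔ (∃ c', opt M c c' ∧ z = c' + d) ∨ ∃ d', opt M d d' ∧ z = c + d' := by
  constructor
  · rintro ⟨m, hm, h, rfl⟩
    have := (hM m hm).1
    by_cases h' : m.1 ≤ c
    · refine Or.inl ⟨_, ⟨m, hm, h', rfl⟩, ?_⟩
      simp only [Prod.le_def, Prod.ext_iff, Prod.fst_add, Prod.snd_add, Prod.fst_sub,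
        Prod.snd_sub, sz] at *
      omega
    · refine Or.inr ⟨_, ⟨m, hm, ?_, rfl⟩, ?_⟩ <;>
      · simp only [Prod.le_def, Prod.ext_iff, Prod.fst_add, Prod.snd_add, Prod.fst_sub,
          Prod.snd_sub, sz] at *
        omega
  · rintro (⟨c', ⟨m, hm, h, rfl⟩, rfl⟩ | ⟨c', ⟨m, hm, h, rfl⟩, rfl⟩) <;>
    · refine ⟨m, hm, ?_, ?_⟩ <;>
      · simp only [Prod.le_def, Prod.ext_iff, Prod.fst_add, Prod.snd_add, Prod.fst_sub,
          Prod.snd_sub] at *
        omega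

theorem opt_wf (M : List (V × V)) (hM : ∀ m ∈ M, sz m.1 = 1 ∧ w m.2 < w m.1) :
    WellFounded fun a b => opt M b a := by
  refine Subrelation.wf (r := InvImage (· < ·) w) ?_ (InvImage.wf w wellFounded_lt)
  rintro a b ⟨m, hm, h, rfl⟩
  have := (hM m hm).2
  simp only [InvImage, Prod.le_def, Prod.fst_add, Prod.snd_add, Prod.fst_sub,
    Prod.snd_sub, w] at *
  omega

theorem opt_fin (M : List (V × V)) (c : V) : {c' | opt M c c'}.Finite := by
  refine ((M.map fun m => c - m.1 + m.2).finite_toSet).subset ?_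
  rintro z ⟨m, hm, -, rfl⟩
  exact List.mem_map.2 ⟨m, hm, rfl⟩

theorem out_iff (M : List (V × V)) (t p : V) (T : ℕ)
    (hM : ∀ m ∈ M, sz m.1 = 1 ∧ w m.2 < w m.1)
    (hp : 0 < p.1 ∧ 0 < p.2.1 ∧ 0 < p.2.2.1 ∧ 0 < p.2.2.2.1 ∧ 0 < p.2.2.2.2)
    (hc : chkAll M t p T = true) (c : V) :
    outB t p T c = true ↔ (∀ c', ¬ opt M c c') ∨ ∃ c', opt M c c' ∧ ¬ outB t p T c' = true := by
  set d := R (t + (1, 1, 1, 1, 1)) p c with hd
  have hk : chk M t p T d = true := by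
    simp only [chkAll, List.all_eq_true, List.mem_range] at hc
    exact hc _ (red_lt _ _ _ hp.1) _ (red_lt _ _ _ hp.2.1) _ (red_lt _ _ _ hp.2.2.1) _
      (red_lt _ _ _ hp.2.2.2.1) _ (red_lt _ _ _ hp.2.2.2.2)
  have e1 : ∀ a b : V, a ≤ (1, 1, 1, 1, 1) →
      outB t p T (d - a + b) = outB t p T (c - a + b) := by
    intro a b h
    simp only [Prod.le_def] at h
    simp only [outB, outF, hd, R, Prod.fst_add, Prod.snd_add, Prod.fst_sub, Prod.snd_sub,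
      red_step _ _ _ _ _ h.1, red_step _ _ _ _ _ h.2.1, red_step _ _ _ _ _ h.2.2.1,
      red_step _ _ _ _ _ h.2.2.2.1, red_step _ _ _ _ _ h.2.2.2.2]
  have e2 : ∀ a : V, a ≤ (1, 1, 1, 1, 1) → (a ≤ d ↔ a ≤ c) := by
    intro a h
    simp only [Prod.le_def] at h
    simp only [hd, R, Prod.le_def, Prod.fst_add, Prod.snd_add,
      red_le _ _ _ _ h.1, red_le _ _ _ _ h.2.1, red_le _ _ _ _ h.2.2.1,
      red_le _ _ _ _ h.2.2.2.1, red_le _ _ _ _ h.2.2.2.2]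
  have e3 : ∀ m ∈ M, m.1 ≤ (1, 1, 1, 1, 1) := by
    intro m hm
    have := (hM m hm).1
    simp only [Prod.le_def, sz] at *
    omega
  have e0 : outB t p T d = outB t p T c := by
    simpa using e1 0 0 (by simp)
  rw [chk_eq, beq_iff_eq, e0] at hk
  rw [hk]
  simp only [Bool.or_eq_true, List.all_eq_true, List.any_eq_true, Bool.and_eq_true,
    Bool.not_eq_true', ← Bool.not_eq_true, leB_iff]
  refine or_congr ⟨fun h z ⟨m, hm, h', _⟩ => h m hm ((e2 _ (e3 m hm)).2 h'),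
    fun h m hm h' => h _ ⟨m, hm, (e2 _ (e3 m hm)).1 h', rfl⟩⟩ ⟨?_, ?_⟩
  · rintro ⟨m, hm, h, h'⟩
    exact ⟨_, ⟨m, hm, (e2 _ (e3 m hm)).1 h, rfl⟩, by rwa [← e1 _ _ (e3 m hm)]⟩
  · rintro ⟨z, ⟨m, hm, h, rfl⟩, h'⟩
    exact ⟨m, hm, (e2 _ (e3 m hm)).2 h, by rwa [e1 _ _ (e3 m hm)]⟩

end Pool.Agent.Lib.helper24.MisereTab
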