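import Pool.Agent.Lib.helper24.FreeVar

set_option autoImplicit false

namespace Pool.Agent.NonHopf
open Polynomial FreeNonUnitalNonAssocAlgebra Pool.Agent.FreeVar

noncomputable def ff : (ZMod 2)[X] →ₗ[ZMod 2] (ZMod 2)[X] :=
  (basisMonomials (ZMod 2)).constr (ZMod 2)
    (fun n => if n % 2 = 0 then X ^ (n / 2 + 1) else X ^ (n / 2 - 1))

theorem ff_pow (n : ℕ) : ff (X ^ n) = if n % 2 = 0 then X ^ (n / 2 + 1) else X ^ (n / 2 - 1) := by
  have := (basisMonomials (ZMod 2)).constr_basis (ZMod 2)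
    (fun n => if n % 2 = 0 then (X : (ZMod 2)[X]) ^ (n / 2 + 1) else X ^ (n / 2 - 1)) n
  rw [coe_basisMonomials] at this
  simp only [← X_pow_eq_monomial] at this
  exact this

theorem sq_eq (y : (ZMod 2)[X]) : y * y = expand (ZMod 2) 2 y := by
  haveI : Fact (Nat.Prime 2) := ⟨Nat.prime_two⟩
  rw [ZMod.expand_card, sq]

theorem ff_sq (y : (ZMod 2)[X]) : ff (y * y) = X * y := by
  rw [sq_eq]
  induction y using Polynomial.induction_on' with
  | add p q hp hq => rw [map_add, map_add, hp, hq, mul_add]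
  | monomial n a =>
    rw [expand_monomial, ← C_mul_X_pow_eq_monomial, ← C_mul_X_pow_eq_monomial, ← smul_eq_C_mul,
      map_smul, ff_pow, if_pos (by omega), show n * 2 / 2 = n by omega, smul_eq_C_mul]
    ring

theorem ff_cube (y : (ZMod 2)[X]) : ff (X ^ 3 * (y * y)) = y := by
  rw [sq_eq]
  induction y using Polynomial.induction_on' with
  | add p q hp hq => rw [map_add, mul_add, map_add, hp, hq]
  | monomial n a =>
    rw [expand_monomial, ← C_mul_X_pow_eq_monomial, ← C_mul_X_pow_eq_monomial,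
      show (X : (ZMod 2)[X]) ^ 3 * (C a * X ^ (n * 2)) = C a * X ^ (n * 2 + 3) by ring,
      ← smul_eq_C_mul, map_smul, ff_pow, if_neg (by omega), show (n * 2 + 3) / 2 - 1 = n by omega,
      smul_eq_C_mul]

def Mdl : Type := (ZMod 2)[X]

noncomputable instance : AddCommGroup Mdl := inferInstanceAs (AddCommGroup (ZMod 2)[X])
noncomputable instance : Module (ZMod 2) Mdl := inferInstanceAs (Module (ZMod 2) (ZMod 2)[X])

noncomputable def toP : Mdl ≃ₗ[ZMod 2] (ZMod 2)[X] := LinearEquiv.refl (ZMod 2) (ZMod 2)[X]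

noncomputable instance : Mul Mdl := ⟨fun a b => toP.symm (ff (toP a * toP b))⟩

theorem toP_mul (a b : Mdl) : toP (a * b) = ff (toP a * toP b) := rfl

noncomputable instance : NonUnitalNonAssocRing Mdl where
  left_distrib x y z := toP.injective (by simp only [toP_mul, map_add, mul_add])
  right_distrib x y z := toP.injective (by simp only [toP_mul, map_add, add_mul])
  zero_mul x := toP.injective (by simp only [toP_mul, map_zero, zero_mul])
  mul_zero x := toP.injective (by simp only [toP_mul, map_zero, mul_zero])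

instance : IsScalarTower (ZMod 2) Mdl Mdl where
  smul_assoc c x y := toP.injective (by
    simp only [smul_eq_mul, toP_mul, map_smul, smul_mul_assoc])

instance : SMulCommClass (ZMod 2) Mdl Mdl where
  smul_comm c x y := toP.injective (by
    simp only [smul_eq_mul, toP_mul, map_smul, mul_smul_comm])

theorem Mdl_id (y : Mdl) : (y * y) * ((y * y) * (y * y)) = y := by
  apply toP.injective
  simp only [toP_mul, ff_sq]
  rw [show X * toP y * (X * (X * toP y)) = X ^ 3 * (toP y * toP y) by ring, ff_cube]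

theorem Mdl_ne (y : Mdl) : y * y ≠ toP.symm 1 := by
  intro h
  have := congrArg toP h
  rw [toP_mul, ff_sq, LinearEquiv.apply_symm_apply] at this
  have h2 := congrArg (eval 0) this
  simp at h2

/-- The identity `x² · (x² · x²) = x`. -/
noncomputable def idn : FreeNonUnitalNonAssocAlgebra (ZMod 2) ℕ :=
  (of (ZMod 2) 0 * of (ZMod 2) 0) *
    ((of (ZMod 2) 0 * of (ZMod 2) 0) * (of (ZMod 2) 0 * of (ZMod 2) 0)) - of (ZMod 2) 0

theorem sat_iff (A : Type) [NonUnitalNonAssocRing A] [Module (ZMod 2) A]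
    [IsScalarTower (ZMod 2) A A] [SMulCommClass (ZMod 2) A A] :
    Sat (ZMod 2) {idn} A ↔ ∀ y : A, (y * y) * ((y * y) * (y * y)) = y := by
  constructor
  · intro h y
    have := h idn rfl (fun _ => y)
    simp only [idn, map_sub, map_mul, lift_of_apply] at this
    exact sub_eq_zero.mp this
  · intro h f hf v
    rw [Set.mem_singleton_iff] at hf; subst hf
    simp only [idn, map_sub, map_mul, lift_of_apply, h, sub_self]

section
variable {A : Type} [NonUnitalNonAssocRing A] [Module (ZMod 2) A]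
  [IsScalarTower (ZMod 2) A A] [SMulCommClass (ZMod 2) A A] {x : Fin 1 → A}

theorem d_ne (h : IsFree (ZMod 2) {idn} A x) :
    (x 0 * (x 0 * x 0)) * (x 0 * (x 0 * x 0)) - x 0 ≠ 0 := by
  obtain ⟨φ, hφ, -⟩ := h.2 Mdl ((sat_iff Mdl).mpr Mdl_id) (fun _ => toP.symm 1)
  intro h0
  have := congrArg φ (sub_eq_zero.mp h0)
  rw [map_mul, hφ] at this
  exact Mdl_ne _ this

theorem not_hopf (h : IsFree (ZMod 2) {idn} A x) :
    ∃ φ : A →ₙₐ[ZMod 2] A, Function.Surjective φ ∧ ¬ Function.Injective φ := by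
  have hA := (sat_iff A).mp h.1
  obtain ⟨φ, hφ, -⟩ := h.2 A h.1 (fun i => x i * x i)
  obtain ⟨ψ, hψ, -⟩ := h.2 A h.1 (fun i => x i * (x i * x i))
  obtain ⟨ι, -, hι⟩ := h.2 A h.1 x
  have h1 : φ.comp ψ = NonUnitalAlgHom.id (ZMod 2) A := by
    rw [hι (φ.comp ψ) (fun i => by
      simp only [NonUnitalAlgHom.comp_apply, hψ, map_mul, hφ, hA]),
      hι (NonUnitalAlgHom.id (ZMod 2) A) (fun i => rfl)]
  refine ⟨φ, fun a => ⟨ψ a, DFunLike.congr_fun h1 a⟩, fun hinj => d_ne h (hinj ?_)⟩
  simp only [map_sub, map_mul, hφ, hA, sub_self, map_zero]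

theorem d_mem (h : IsFree (ZMod 2) {idn} A x) (I : Submodule (ZMod 2) A)
    (hl : ∀ a b, b ∈ I → a * b ∈ I) (hr : ∀ a b, a ∈ I → a * b ∈ I) (hf : Finite (A ⧸ I)) :
    (x 0 * (x 0 * x 0)) * (x 0 * (x 0 * x 0)) - x 0 ∈ I := by
  let J : Idl (ZMod 2) A := ⟨I, hl, hr⟩
  haveI : Finite (Quo J) := hf
  have hB := (sat_iff (Quo J)).mp (h.1.of_surj (mkH J) (mkH_surj J))
  have hinj : Function.Injective (fun y : Quo J => y * y) := by
    intro y z hyz
    simp only at hyz
    rw [← hB y, hyz, hB z]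
  obtain ⟨z, hz⟩ := Finite.surjective_of_injective hinj (mkH J (x 0))
  simp only at hz
  apply (mkH_eq_zero J _).mp
  simp only [map_sub, map_mul, ← hz, hB, sub_self]

end

end Pool.Agent.NonHopf
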