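import Mathlib

set_option autoImplicit false

namespace Pool.Agent.PowComm
open Finset

variable {R : Type} [CommRing R]

abbrev M (R : Type) : Type := ℕ → ℕ → R
abbrev V (R : Type) : Type := R × M R

def rho (u : V R) : ℕ → R := fun k => if k = 0 then u.1 else 2 * u.2 (k - 1) 0
def S (h : M R) : M R := fun p q => if p = 0 then 0 else h (p - 1) q
def act (g : ℕ → R) (h : M R) : M R := fun p q => ∑ x ∈ antidiagonal q, g x.1 * h (p + x.1) x.2
def Rn (e : ℕ) (h : M R) : M R := fun p q => if e ≤ q then h (p + e) (q - e) else 0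
def dg (g : ℕ → R) (h : M R) : M R := fun p q =>
  if p = 0 then ∑ x ∈ antidiagonal q, (if x.1 = 0 then 0 else g x.1 * h (x.1 - 1) x.2) else 0
def G (e : ℕ) (k : M R) : M R := fun p q => if p = 0 ∧ e ≤ q then k (e - 1) (q - e) else 0
def Lam (m : ℕ) (X : M R) : R := ∑ q ∈ range (m + 1), X (2 * (m - q)) q
def sh (g : ℕ → R) : ℕ → R := fun k => if k = 0 then 0 else g (k - 1)
def E0 : M R := fun p q => if p = 0 ∧ q = 0 then 1 else 0

def vmul (u v : V R) : V R :=
  (0, (u.1 * v.1) • E0 + u.1 • S v.2 + v.1 • S u.2 - dg (rho u) v.2 - dg (rho v) u.2)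
def B (m : ℕ) (u v : V R) : R := Lam m (act (rho u) v.2 - act (rho v) u.2)

/-! linearity -/
theorem rho_add (u v : V R) : rho (u + v) = rho u + rho v := by
  funext k; simp only [rho, Pi.add_apply, Prod.fst_add, Prod.snd_add]; split_ifs <;> ring
theorem rho_smul (c : R) (u : V R) : rho (c • u) = c • rho u := by
  funext k; simp only [rho, Pi.smul_apply, Prod.smul_fst, Prod.smul_snd, smul_eq_mul]
  split_ifs <;> ring
theorem S_add (h h' : M R) : S (h + h') = S h + S h' := by
  funext p q; simp only [S, Pi.add_apply]; split_ifs <;> ring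
theorem S_sub (h h' : M R) : S (h - h') = S h - S h' := by
  funext p q; simp only [S, Pi.sub_apply]; split_ifs <;> ring
theorem S_smul (c : R) (h : M R) : S (c • h) = c • S h := by
  funext p q; simp only [S, Pi.smul_apply, smul_eq_mul]; split_ifs <;> ring
theorem act_add_left (g g' : ℕ → R) (h : M R) : act (g + g') h = act g h + act g' h := by
  funext p q; simp only [act, Pi.add_apply, add_mul, sum_add_distrib]
theorem act_add_right (g : ℕ → R) (h h' : M R) : act g (h + h') = act g h + act g h' := by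
  funext p q; simp only [act, Pi.add_apply, mul_add, sum_add_distrib]
theorem act_sub_right (g : ℕ → R) (h h' : M R) : act g (h - h') = act g h - act g h' := by
  funext p q; simp only [act, Pi.sub_apply, mul_sub, sum_sub_distrib]
theorem act_smul_left (c : R) (g : ℕ → R) (h : M R) : act (c • g) h = c • act g h := by
  funext p q; simp only [act, Pi.smul_apply, smul_eq_mul, mul_sum, mul_assoc]
theorem act_smul_right (c : R) (g : ℕ → R) (h : M R) : act g (c • h) = c • act g h := by
  funext p q; simp only [act, Pi.smul_apply, smul_eq_mul, mul_sum]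
  exact sum_congr rfl fun x _ => by ring
theorem act_zero_left (h : M R) : act 0 h = 0 := by
  funext p q; simp [act]
theorem act_zero_right (g : ℕ → R) : act g 0 = 0 := by
  funext p q; simp [act]
theorem dg_add_left (g g' : ℕ → R) (h : M R) : dg (g + g') h = dg g h + dg g' h := by
  funext p q; simp only [dg, Pi.add_apply]
  split_ifs
  · rw [← sum_add_distrib]; exact sum_congr rfl fun x _ => by split_ifs <;> ring
  · ring
theorem dg_add_right (g : ℕ → R) (h h' : M R) : dg g (h + h') = dg g h + dg g h' := by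
  funext p q; simp only [dg, Pi.add_apply]
  split_ifs
  · rw [← sum_add_distrib]; exact sum_congr rfl fun x _ => by split_ifs <;> ring
  · ring
theorem dg_smul_left (c : R) (g : ℕ → R) (h : M R) : dg (c • g) h = c • dg g h := by
  funext p q; simp only [dg, Pi.smul_apply, smul_eq_mul]
  split_ifs
  · rw [mul_sum]; exact sum_congr rfl fun x _ => by split_ifs <;> ring
  · ring
theorem dg_smul_right (c : R) (g : ℕ → R) (h : M R) : dg g (c • h) = c • dg g h := by
  funext p q; simp only [dg, Pi.smul_apply, smul_eq_mul]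
  split_ifs
  · rw [mul_sum]; exact sum_congr rfl fun x _ => by split_ifs <;> ring
  · ring
theorem dg_zero_left (h : M R) : dg 0 h = 0 := by
  funext p q; simp [dg]
theorem Lam_add (m : ℕ) (X Y : M R) : Lam m (X + Y) = Lam m X + Lam m Y := by
  simp only [Lam, Pi.add_apply, sum_add_distrib]
theorem Lam_sub (m : ℕ) (X Y : M R) : Lam m (X - Y) = Lam m X - Lam m Y := by
  simp only [Lam, Pi.sub_apply, sum_sub_distrib]
theorem Lam_smul (m : ℕ) (c : R) (X : M R) : Lam m (c • X) = c * Lam m X := by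
  simp only [Lam, Pi.smul_apply, smul_eq_mul, mul_sum]
theorem Lam_zero (m : ℕ) : Lam m (0 : M R) = 0 := by simp [Lam]
theorem Rn_add (e : ℕ) (X Y : M R) : Rn e (X + Y) = Rn e X + Rn e Y := by
  funext p q; simp only [Rn, Pi.add_apply]; split_ifs <;> ring
theorem Rn_sub (e : ℕ) (X Y : M R) : Rn e (X - Y) = Rn e X - Rn e Y := by
  funext p q; simp only [Rn, Pi.sub_apply]; split_ifs <;> ring
theorem Rn_smul (e : ℕ) (c : R) (X : M R) : Rn e (c • X) = c • Rn e X := by
  funext p q; simp only [Rn, Pi.smul_apply, smul_eq_mul]; split_ifs <;> ring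

theorem vmul_comm (u v : V R) : vmul u v = vmul v u := by
  simp only [vmul, mul_comm u.1 v.1]; congr 1; abel
theorem vmul_add_left (u u' v : V R) : vmul (u + u') v = vmul u v + vmul u' v := by
  simp only [vmul, rho_add, Prod.fst_add, Prod.snd_add, S_add, dg_add_left, dg_add_right,
    Prod.mk_add_mk, add_zero, add_mul, add_smul, smul_add]
  congr 1; abel
theorem vmul_smul_left (c : R) (u v : V R) : vmul (c • u) v = c • vmul u v := by
  simp only [vmul, rho_smul, Prod.smul_fst, Prod.smul_snd, S_smul, dg_smul_left, dg_smul_right,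
    Prod.smul_mk, smul_zero, smul_add, smul_sub, smul_eq_mul, smul_smul, mul_zero]
  congr 1
  rw [mul_assoc, mul_comm v.1 c]
theorem vmul_add_right (u v v' : V R) : vmul u (v + v') = vmul u v + vmul u v' := by
  rw [vmul_comm, vmul_add_left, vmul_comm v, vmul_comm v']
theorem vmul_smul_right (c : R) (u v : V R) : vmul u (c • v) = c • vmul u v := by
  rw [vmul_comm, vmul_smul_left, vmul_comm v]
theorem B_anti (m : ℕ) (u v : V R) : B m u v = - B m v u := by
  simp only [B, Lam_sub]; ring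
theorem B_add_left (m : ℕ) (u u' v : V R) : B m (u + u') v = B m u v + B m u' v := by
  simp only [B, rho_add, Prod.snd_add, act_add_left, act_add_right, Lam_sub, Lam_add]; ring
theorem B_smul_left (m : ℕ) (c : R) (u v : V R) : B m (c • u) v = c * B m u v := by
  simp only [B, rho_smul, Prod.smul_snd, act_smul_left, act_smul_right, Lam_sub, Lam_smul]; ring
theorem B_add_right (m : ℕ) (u v v' : V R) : B m u (v + v') = B m u v + B m u v' := by
  rw [B_anti, B_add_left, B_anti m v, B_anti m v']; ring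
theorem B_smul_right (m : ℕ) (c : R) (u v : V R) : B m u (c • v) = c * B m u v := by
  rw [B_anti, B_smul_left, B_anti m v]; ring

/-! operator identities -/
theorem act_S (g : ℕ → R) (h : M R) : act g (S h) = S (act g h) + dg g h := by
  funext p q
  simp only [act, S, dg, Pi.add_apply]
  by_cases hp : p = 0
  · subst hp
    simp only [if_true, zero_add]
    exact sum_congr rfl fun x _ => by split_ifs <;> ring
  · simp only [hp, if_false, add_zero]
    refine sum_congr rfl fun x _ => ?_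
    rw [if_neg (by omega)]
    congr 2; omega

theorem act_supp (g : ℕ → R) (X : M R) (hX : ∀ p q, p ≠ 0 → X p q = 0) :
    act g X = g 0 • X := by
  funext p q
  simp only [act, Pi.smul_apply, smul_eq_mul]
  rw [sum_eq_single (0, q)]
  · simp
  · intro x hx hne
    rw [HasAntidiagonal.mem_antidiagonal] at hx
    rw [hX _ _ (by
      intro h; apply hne; ext
      · simp; omega
      · simp; omega), mul_zero]
  · intro h; exfalso; apply h; simp

theorem dg_supp (g : ℕ → R) (h : M R) (p q : ℕ) (hp : p ≠ 0) : dg g h p q = 0 := by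
  simp [dg, hp]
theorem G_supp (e : ℕ) (h : M R) (p q : ℕ) (hp : p ≠ 0) : G e h p q = 0 := by
  simp [G, hp]
theorem E0_supp (p q : ℕ) (hp : p ≠ 0) : (E0 : M R) p q = 0 := by
  simp [E0, hp]

theorem act_sh (g : ℕ → R) (h : M R) : act (sh g) h = Rn 1 (act g h) := by
  funext p q
  simp only [act, Rn, sh]
  cases q with
  | zero => simp
  | succ q =>
    rw [if_pos (by omega), Nat.antidiagonal_succ, sum_cons, sum_map]
    simp only [if_true, zero_mul, zero_add, Nat.add_sub_cancel]
    refine sum_congr rfl fun x _ => ?_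
    simp only [Function.Embedding.coe_prodMap, Function.Embedding.coeFn_mk, Prod.map_fst,
      Prod.map_snd, Nat.succ_eq_add_one, Nat.add_eq_zero_iff, one_ne_zero, and_false, if_false,
      Nat.add_sub_cancel, Function.Embedding.refl_apply]
    congr 2; omega

theorem Rn_Rn (e f : ℕ) (X : M R) : Rn e (Rn f X) = Rn (e + f) X := by
  funext p q
  simp only [Rn]
  by_cases h1 : e ≤ q
  · by_cases h2 : f ≤ q - e
    · rw [if_pos h1, if_pos h2, if_pos (by omega)]; congr 1 <;> omega
    · rw [if_pos h1, if_neg h2, if_neg (by omega)]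
  · rw [if_neg h1, if_neg (by omega)]

theorem Rn_zero (X : M R) : Rn 0 X = X := by
  funext p q; simp [Rn]

theorem act_iter (f : ℕ) (g : ℕ → R) (h : M R) : act (sh^[f] g) h = Rn f (act g h) := by
  induction f with
  | zero => simp [Rn_zero]
  | succ f ih => rw [Function.iterate_succ_apply', act_sh, ih, Rn_Rn, add_comm]

theorem Rn_S (e : ℕ) (he : 1 ≤ e) (X : M R) : Rn e (S X) = S (Rn e X) + G e X := by
  funext p q
  simp only [Rn, S, G, Pi.add_apply]
  by_cases hp : p = 0
  · subst hp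
    by_cases h1 : e ≤ q
    · simp only [h1, if_true, true_and, zero_add]; rw [if_neg (by omega)]
    · simp [h1]
  · by_cases h1 : e ≤ q
    · simp only [h1, hp, if_true, if_false, false_and, add_zero]
      rw [if_neg (by omega)]; congr 1; omega
    · simp [h1, hp]

theorem Rn_supp (e : ℕ) (he : 1 ≤ e) (X : M R) (hX : ∀ p q, p ≠ 0 → X p q = 0) : Rn e X = 0 := by
  funext p q
  simp only [Rn, Pi.zero_apply]
  split_ifs
  · exact hX _ _ (by omega)
  · rfl

theorem dg_iter (f : ℕ) (hf : 1 ≤ f) (g : ℕ → R) (h : M R) :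
    dg (sh^[f] g) h = G f (act g h) := by
  have h1 := act_S (sh^[f] g) h
  rw [act_iter, act_iter, act_S, Rn_add, Rn_S f hf, Rn_supp f hf _ (dg_supp g h), add_zero] at h1
  exact (add_left_cancel h1).symm

theorem Lam_S (m : ℕ) (X : M R) : Lam m (S X) = Lam m (Rn 1 X) := by
  simp only [Lam, S, Rn]
  rw [sum_range_succ, sum_range_succ']
  simp only [Nat.sub_self, mul_zero, if_true, add_zero]
  rw [if_neg (by omega), add_zero]
  refine sum_congr rfl fun q hq => ?_
  rw [mem_range] at hq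
  rw [if_neg (by omega), if_pos (by omega)]
  congr 1; omega

theorem rho_vmul (u v : V R) : rho (vmul u v) = sh (u.1 • rho v + v.1 • rho u) := by
  funext k
  simp only [rho, vmul, sh, Pi.add_apply, Pi.sub_apply, Pi.smul_apply, smul_eq_mul, S, E0, dg]
  by_cases hk : k = 0
  · simp [hk]
  · by_cases hk1 : k - 1 = 0
    · simp [hk, hk1]; ring
    · simp [hk, hk1]; ring

theorem sh_smul (c : R) (g : ℕ → R) : sh (c • g) = c • sh g := by
  funext k; simp only [sh, Pi.smul_apply, smul_eq_mul]; split_ifs <;> ring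
theorem sh_zero : sh (0 : ℕ → R) = 0 := by
  funext k; simp [sh]


/-! ladders -/
def lad (a : V R) : ℕ → V R
  | 0 => a
  | f + 1 => vmul a (lad a f)

def kk (a u : V R) : M R := act (rho a) u.2

theorem rho_zero (a : V R) : rho a 0 = a.1 := by simp [rho]

theorem lad_fst (a : V R) (f : ℕ) (hf : 1 ≤ f) : (lad a f).1 = 0 := by
  cases f with
  | zero => omega
  | succ f => rfl

theorem rho_lad (a : V R) (f : ℕ) :
    rho (lad a (f + 1)) = (2 * a.1 ^ (f + 1)) • sh^[f + 1] (rho a) := by
  induction f with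
  | zero =>
    simp only [lad, rho_vmul, zero_add, pow_one, Function.iterate_one]
    rw [← add_smul, sh_smul]; congr 1; ring
  | succ f ih =>
    rw [lad, rho_vmul, ih, lad_fst a (f + 1) (by omega), zero_smul, add_zero, smul_smul, sh_smul,
      ← Function.iterate_succ_apply' sh]
    congr 1; ring

theorem rho_lad' (a : V R) (f : ℕ) (hf : 1 ≤ f) :
    rho (lad a f) = (2 * a.1 ^ f) • sh^[f] (rho a) := by
  obtain ⟨f, rfl⟩ : ∃ g, f = g + 1 := ⟨f - 1, by omega⟩
  exact rho_lad a f

theorem kk_vmul (a u v : V R) : kk a (vmul u v) =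
    (a.1 * (u.1 * v.1)) • E0 + u.1 • (S (kk a v) + dg (rho a) v.2) +
      v.1 • (S (kk a u) + dg (rho a) u.2) - a.1 • dg (rho u) v.2 - a.1 • dg (rho v) u.2 := by
  simp only [kk, vmul, act_add_right, act_sub_right, act_smul_right, act_S]
  rw [act_supp _ _ (dg_supp _ _), act_supp _ _ (dg_supp (rho v) _), act_supp _ _ E0_supp, rho_zero,
    smul_smul, mul_comm (u.1 * v.1)]

theorem kk_one (a : V R) : kk a (lad a 1) = a.1 ^ 3 • E0 + (2 * a.1) • S (kk a a) := by
  simp only [lad, kk_vmul]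
  funext p q
  simp only [Pi.add_apply, Pi.sub_apply, Pi.smul_apply, smul_eq_mul]; ring

theorem kk_succ (a : V R) (f : ℕ) (hf : 1 ≤ f) : kk a (lad a (f + 1)) =
    a.1 • S (kk a (lad a f)) - (2 * a.1 ^ (f + 1)) • G f (kk a a) := by
  rw [lad, kk_vmul, lad_fst a f hf, rho_lad' a f hf, dg_smul_left, dg_iter f hf]
  funext p q
  simp only [Pi.add_apply, Pi.sub_apply, Pi.smul_apply, smul_eq_mul, kk]; ring

def cc (a : V R) (e f : ℕ) : M R :=
  a.1 ^ e • G e (kk a (lad a f)) + a.1 ^ f • G f (kk a (lad a e))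

theorem kk_ll (a : V R) (e f : ℕ) (he : 1 ≤ e) (hf : 1 ≤ f) :
    kk a (vmul (lad a e) (lad a f)) = (-2 * a.1) • cc a e f := by
  rw [kk_vmul, lad_fst a f hf, lad_fst a e he, rho_lad' a f hf, rho_lad' a e he, dg_smul_left,
    dg_smul_left, dg_iter f hf, dg_iter e he]
  funext p q
  simp only [Pi.add_apply, Pi.sub_apply, Pi.smul_apply, smul_eq_mul, kk, cc]; ring

theorem cc_comm (a : V R) (e f : ℕ) : cc a e f = cc a f e := by simp only [cc, add_comm]

theorem cc_one (a : V R) (f : ℕ) (hf : 1 ≤ f) (q : ℕ) (hq : 2 * q ≠ 1 + f) :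
    cc a 1 f 0 q = 0 := by
  by_cases h1 : f = 1
  · subst h1
    simp only [cc, kk_one, G, S, E0, Pi.add_apply, Pi.smul_apply, smul_eq_mul]
    have : q - 1 = 0 → ¬ (1 ≤ q) := by omega
    by_cases h : 1 ≤ q
    · have h' : q - 1 ≠ 0 := by omega
      simp [h, h']
    · simp [h]
  · obtain ⟨f, rfl⟩ : ∃ g, f = g + 1 := ⟨f - 1, by omega⟩
    have hf1 : 1 ≤ f := by omega
    have hf0 : f ≠ 0 := by omega
    simp only [cc, kk_one, kk_succ a f hf1, G, S, E0, Pi.add_apply, Pi.sub_apply, Pi.smul_apply,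
      smul_eq_mul, Nat.sub_self, Nat.add_sub_cancel, true_and, if_true, hf0, false_and, if_false]
    by_cases h : f + 1 ≤ q
    · rw [if_pos (by omega), if_pos (by omega), if_pos h, show q - 1 - f = q - (f + 1) by omega]
      ring
    · rw [if_neg h]
      by_cases h2 : 1 ≤ q
      · rw [if_pos h2, if_neg (by omega)]; ring
      · rw [if_neg h2]; ring

theorem cc_step (a : V R) (e f : ℕ) (he : 1 ≤ e) (hf : 1 ≤ f) (q : ℕ) :
    cc a (e + 1) (f + 1) 0 q = if q = 0 then 0 else a.1 ^ 2 * cc a e f 0 (q - 1) := by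
  have he0 : e ≠ 0 := by omega
  have hf0 : f ≠ 0 := by omega
  simp only [cc, kk_succ a f hf, kk_succ a e he, G, S, Pi.add_apply, Pi.sub_apply, Pi.smul_apply,
    smul_eq_mul, Nat.add_sub_cancel, true_and, hf0, he0, false_and, if_false]
  by_cases hq : q = 0
  · subst hq; simp
  · rw [if_neg hq]
    have e1 : (e + 1 ≤ q) ↔ (e ≤ q - 1) := by omega
    have e2 : (f + 1 ≤ q) ↔ (f ≤ q - 1) := by omega
    simp only [e1, e2, show q - (e + 1) = q - 1 - e by omega, show q - (f + 1) = q - 1 - f by omega]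
    split_ifs <;> ring

theorem cc_hom (a : V R) (e : ℕ) : ∀ f, 1 ≤ e → 1 ≤ f → ∀ q, 2 * q ≠ e + f →
    cc a e f 0 q = 0 := by
  induction e with
  | zero => intro f he; omega
  | succ e ih =>
    intro f _ hf q hq
    by_cases he : e = 0
    · subst he; exact cc_one a f hf q (by omega)
    · by_cases h1 : f = 1
      · subst h1; rw [cc_comm]; exact cc_one a (e + 1) (by omega) q (by omega)
      · obtain ⟨f, rfl⟩ : ∃ g, f = g + 1 := ⟨f - 1, by omega⟩
        rw [cc_step a e f (by omega) (by omega)]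
        split_ifs with h0
        · rfl
        · rw [ih f (by omega) (by omega) (q - 1) (by omega), mul_zero]

def Hom (d : ℕ) (X : M R) : Prop := ∀ p q, p + 2 * q + 2 ≠ d → X p q = 0

theorem cc_Hom (a : V R) (e f : ℕ) (he : 1 ≤ e) (hf : 1 ≤ f) : Hom (e + f + 2) (cc a e f) := by
  intro p q h
  by_cases hp : p = 0
  · subst hp; exact cc_hom a e f he hf q (by omega)
  · simp [cc, G_supp _ _ _ _ hp]

theorem Hom.smul {d : ℕ} {X : M R} (h : Hom d X) (c : R) : Hom d (c • X) := by
  intro p q hpq; simp [h p q hpq]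

theorem Lam_Hom (m d : ℕ) (X : M R) (h : Hom d X) (hd : d ≠ 2 * m + 2) : Lam m X = 0 := by
  refine sum_eq_zero fun q hq => h _ _ ?_
  rw [mem_range] at hq; omega

theorem Hom_S {d : ℕ} {X : M R} (h : Hom d X) : Hom (d + 1) (S X) := by
  intro p q hpq
  simp only [S]; split_ifs
  · rfl
  · exact h _ _ (by omega)

theorem Hom_G {d : ℕ} {X : M R} (h : Hom d X) (e : ℕ) (he : 1 ≤ e) : Hom (d + e + 1) (G e X) := by
  intro p q hpq
  simp only [G]; split_ifs with h1
  · exact h _ _ (by omega)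
  · rfl

theorem Hom_Rn {d : ℕ} {X : M R} (h : Hom d X) (e : ℕ) : Hom (d + e) (Rn e X) := by
  intro p q hpq
  simp only [Rn]; split_ifs with h1
  · exact h _ _ (by omega)
  · rfl

theorem Hom_E0 : Hom 2 (E0 : M R) := by
  intro p q hpq
  simp only [E0]; rw [if_neg (by omega)]

def Zel (a : V R) (d : ℕ) (u : V R) : Prop := u.1 = 0 ∧ rho u = 0 ∧ Hom d (kk a u)

theorem Zel_ll (a : V R) (e f : ℕ) (he : 1 ≤ e) (hf : 1 ≤ f) :
    Zel a (e + f + 2) (vmul (lad a e) (lad a f)) := by
  refine ⟨rfl, ?_, ?_⟩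
  · rw [rho_vmul, lad_fst a e he, lad_fst a f hf]; simp [sh_zero]
  · rw [kk_ll a e f he hf]; exact (cc_Hom a e f he hf).smul _

theorem Zel_lz (a : V R) (e d : ℕ) (u : V R) (hu : Zel a d u) :
    Zel a (e + 1 + d) (vmul (lad a e) u) := by
  obtain ⟨h1, h2, h3⟩ := hu
  refine ⟨rfl, ?_, ?_⟩
  · rw [rho_vmul, h1, h2]; simp [sh_zero]
  · by_cases he : e = 0
    · subst he
      have : kk a (vmul (lad a 0) u) = a.1 • S (kk a u) := by
        rw [kk_vmul, h1, h2, dg_zero_left]; simp [lad]
      rw [this, show 0 + 1 + d = d + 1 by omega]; exact (Hom_S h3).smul _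
    · have he1 : 1 ≤ e := by omega
      have : kk a (vmul (lad a e) u) = (-2 * a.1 ^ (e + 1)) • G e (kk a u) := by
        rw [kk_vmul, h1, h2, dg_zero_left, lad_fst a e he1, rho_lad' a e he1, dg_smul_left,
          dg_iter e he1]
        funext p q
        simp only [Pi.add_apply, Pi.sub_apply, Pi.smul_apply, smul_eq_mul, kk, Pi.zero_apply]; ring
      rw [this, show e + 1 + d = d + e + 1 by omega]; exact (Hom_G h3 e he1).smul _

theorem Zel_zz (a : V R) (d d' d'' : ℕ) (u v : V R) (hu : Zel a d u) (hv : Zel a d' v) :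
    Zel a d'' (vmul u v) := by
  obtain ⟨h1, h2, h3⟩ := hu
  obtain ⟨h1', h2', h3'⟩ := hv
  refine ⟨rfl, ?_, ?_⟩
  · rw [rho_vmul, h1, h1']; simp [sh_zero]
  · rw [kk_vmul, h1, h2, h1', h2', dg_zero_left, dg_zero_left]
    intro p q _; simp

theorem act_lad (a : V R) (e : ℕ) (he : 1 ≤ e) (u : V R) :
    act (rho (lad a e)) u.2 = (2 * a.1 ^ e) • Rn e (kk a u) := by
  rw [rho_lad' a e he, act_smul_left, act_iter, kk]

theorem B_lz (m : ℕ) (a : V R) (e d : ℕ) (u : V R) (hu : Zel a d u) (hd : e + 1 + d < 2 * m + 3) :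
    B m (lad a e) u = 0 := by
  obtain ⟨h1, h2, h3⟩ := hu
  rw [B, h2, act_zero_left, sub_zero]
  by_cases he : e = 0
  · subst he; exact Lam_Hom m d _ h3 (by omega)
  · rw [act_lad a e (by omega)]
    exact Lam_Hom m (d + e) _ ((Hom_Rn h3 e).smul _) (by omega)

theorem B_zz (m : ℕ) (a : V R) (d d' : ℕ) (u v : V R) (hu : Zel a d u) (hv : Zel a d' v) :
    B m u v = 0 := by
  rw [B, hu.2.1, hv.2.1, act_zero_left, act_zero_left, sub_zero, Lam_zero]

theorem Lam_Rn_S (m e : ℕ) (he : 1 ≤ e) (X : M R) :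
    Lam m (Rn e (S X)) = Lam m (Rn (e + 1) X) + Lam m (G e X) := by
  rw [Rn_S e he, Lam_add, Lam_S, Rn_Rn, add_comm 1 e]

theorem b_step (m : ℕ) (a : V R) (e f : ℕ) (he : 1 ≤ e) (hf : 1 ≤ f) (hd : e + f < 2 * m) :
    B m (lad a e) (lad a (f + 1)) = B m (lad a (e + 1)) (lad a f) := by
  have h0 : Lam m (cc a e f) = 0 := Lam_Hom m _ _ (cc_Hom a e f he hf) (by omega)
  simp only [B]
  rw [act_lad a e he, act_lad a (f + 1) (by omega), act_lad a (e + 1) (by omega), act_lad a f hf,
    kk_succ a f hf, kk_succ a e he]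
  simp only [Rn_sub, Rn_smul, Lam_sub, Lam_smul, Lam_Rn_S m e he, Lam_Rn_S m f hf,
    Rn_supp e he _ (G_supp f (kk a a)), Rn_supp f hf _ (G_supp e (kk a a)), Lam_zero]
  simp only [cc, Lam_add, Lam_smul] at h0
  linear_combination (2 * a.1) * h0

theorem b_one (m : ℕ) (a : V R) (f : ℕ) (hf : 1 ≤ f) :
    B m (lad a 1) (lad a f) = 2 * B m (lad a 0) (lad a (f + 1)) := by
  simp only [B]
  rw [act_lad a 1 le_rfl, act_lad a (f + 1) (by omega), act_lad a f hf]
  have : act (rho (lad a 0)) (lad a (f + 1)).2 = kk a (lad a (f + 1)) := rfl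
  rw [this, kk_succ a f hf, kk_one]
  simp only [Rn_add, Rn_smul, Lam_sub, Lam_add, Lam_smul, Lam_Rn_S m f hf, Lam_S,
    Rn_supp f hf _ E0_supp, Lam_zero, lad]
  ring

theorem b_zero_one (m : ℕ) (hm : 1 ≤ m) (a : V R) : B m (lad a 0) (lad a 1) = 0 := by
  simp only [B]
  rw [act_lad a 1 le_rfl]
  have : act (rho (lad a 0)) (lad a 1).2 = kk a (lad a 1) := rfl
  rw [this, kk_one]
  simp only [Lam_sub, Lam_add, Lam_smul, Lam_S, Lam_Hom m 2 _ (Hom_E0 (R := R)) (by omega), lad]
  ring

theorem b_chain (m : ℕ) (a : V R) (e : ℕ) : ∀ f, 1 ≤ f → e + f < 2 * m →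
    B m (lad a (e + 1)) (lad a f) = B m (lad a 1) (lad a (e + f)) := by
  induction e with
  | zero => intro f _ _; simp
  | succ e ih =>
    intro f hf hd
    rw [← b_step m a (e + 1) f (by omega) hf (by omega), ih (f + 1) (by omega) (by omega)]
    congr 2; omega

theorem b_all (h2 : ∀ x : R, 2 * x = 0 → x = 0) (m : ℕ) (hm : 1 ≤ m) (a : V R) (e f : ℕ)
    (hd : e + 1 + (f + 1) < 2 * m + 3) : B m (lad a e) (lad a f) = 0 := by
  have h1 : ∀ s, 1 ≤ s → s < 2 * m → B m (lad a 1) (lad a s) = 0 := by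
    intro s hs hs'
    have := b_chain m a (s - 1) 1 le_rfl (by omega)
    rw [show s - 1 + 1 = s by omega, B_anti] at this
    apply h2; linear_combination -this
  have h0 : ∀ s, s ≤ 2 * m → B m (lad a 0) (lad a s) = 0 := by
    intro s hs
    by_cases hs0 : s = 0
    · subst hs0; simp [B, Lam_zero]
    · by_cases hs1 : s = 1
      · subst hs1; exact b_zero_one m hm a
      · obtain ⟨s, rfl⟩ : ∃ g, s = g + 1 := ⟨s - 1, by omega⟩
        apply h2
        rw [← b_one m a s (by omega)]
        exact h1 s (by omega) (by omega)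
  by_cases he : e = 0
  · subst he; exact h0 f (by omega)
  · by_cases hf : f = 0
    · subst hf; rw [B_anti, h0 e (by omega), neg_zero]
    · obtain ⟨e, rfl⟩ : ∃ g, e = g + 1 := ⟨e - 1, by omega⟩
      rw [b_chain m a e f (by omega) (by omega)]
      exact h1 _ (by omega) (by omega)

def Good (a : V R) (d : ℕ) (u : V R) : Prop := (∃ e, d = e + 1 ∧ u = lad a e) ∨ Zel a d u

theorem Good_mul (a : V R) (d d' : ℕ) (u v : V R) (hu : Good a d u) (hv : Good a d' v) :
    Good a (d + d') (vmul u v) := by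
  rcases hu with ⟨e, rfl, rfl⟩ | hu
  · rcases hv with ⟨f, rfl, rfl⟩ | hv
    · by_cases he : e = 0
      · subst he; exact Or.inl ⟨f + 1, by omega, rfl⟩
      · by_cases hf : f = 0
        · subst hf; exact Or.inl ⟨e + 1, by omega, by rw [vmul_comm]; rfl⟩
        · right
          rw [show e + 1 + (f + 1) = e + f + 2 by omega]
          exact Zel_ll a e f (by omega) (by omega)
    · exact Or.inr (Zel_lz a e d' v hv)
  · rcases hv with ⟨f, rfl, rfl⟩ | hv
    · right; rw [vmul_comm, add_comm]; exact Zel_lz a f d u hu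
    · exact Or.inr (Zel_zz a d d' _ u v hu hv)

theorem Good_B (h2 : ∀ x : R, 2 * x = 0 → x = 0) (m : ℕ) (hm : 1 ≤ m) (a : V R) (d d' : ℕ)
    (u v : V R) (hu : Good a d u) (hv : Good a d' v) (hd : d + d' < 2 * m + 3) :
    B m u v = 0 := by
  rcases hu with ⟨e, rfl, rfl⟩ | hu
  · rcases hv with ⟨f, rfl, rfl⟩ | hv
    · exact b_all h2 m hm a e f hd
    · exact B_lz m a e d' v hv hd
  · rcases hv with ⟨f, rfl, rfl⟩ | hv
    · rw [B_anti, B_lz m a f d u hu (by omega), neg_zero]
    · exact B_zz m a d d' u v hu hv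


/-! the algebra -/
def Alg (R : Type) [CommRing R] [Algebra ℚ R] (_m : ℕ) (_T : R) (_π : R →ₗ[ℚ] R) : Type :=
  V R × R

section alg
variable [Algebra ℚ R] (m : ℕ) (T : R) (π : R →ₗ[ℚ] R)

instance : AddCommGroup (Alg R m T π) := inferInstanceAs (AddCommGroup (V R × R))
instance : Module ℚ (Alg R m T π) := inferInstanceAs (Module ℚ (V R × R))
instance : Mul (Alg R m T π) :=
  ⟨fun x y => ((T • vmul x.1 y.1, π (T * B m x.1 y.1)) : V R × R)⟩

theorem mul_fst (x y : Alg R m T π) : (x * y).1 = T • vmul x.1 y.1 := rfl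
theorem mul_snd (x y : Alg R m T π) : (x * y).2 = π (T * B m x.1 y.1) := rfl
theorem add_fst (x y : Alg R m T π) : (x + y).1 = x.1 + y.1 := rfl
theorem add_snd (x y : Alg R m T π) : (x + y).2 = x.2 + y.2 := rfl
theorem smul_fst (c : ℚ) (y : Alg R m T π) : (c • y).1 = (algebraMap ℚ R c) • y.1 :=
  (algebraMap_smul R c y.1).symm
theorem smul_snd (c : ℚ) (y : Alg R m T π) : (c • y).2 = c • y.2 := rfl

theorem amul_add (x y z : Alg R m T π) : x * (y + z) = x * y + x * z := by
  apply Prod.ext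
  · simp only [mul_fst, add_fst, vmul_add_right, smul_add]
  · simp only [mul_snd, add_fst, add_snd, B_add_right, mul_add, map_add]
theorem aadd_mul (x y z : Alg R m T π) : (x + y) * z = x * z + y * z := by
  apply Prod.ext
  · simp only [mul_fst, add_fst, vmul_add_left, smul_add]
  · simp only [mul_snd, add_fst, add_snd, B_add_left, mul_add, map_add]

instance : NonUnitalNonAssocRing (Alg R m T π) where
  left_distrib := amul_add m T π
  right_distrib := aadd_mul m T π
  zero_mul x := by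
    have := aadd_mul m T π 0 0 x
    rw [add_zero] at this
    exact left_eq_add.mp this
  mul_zero x := by
    have := amul_add m T π x 0 0
    rw [add_zero] at this
    exact left_eq_add.mp this

instance : IsScalarTower ℚ (Alg R m T π) (Alg R m T π) where
  smul_assoc c x y := by
    simp only [smul_eq_mul]
    apply Prod.ext
    · rw [mul_fst, smul_fst, smul_fst, mul_fst, vmul_smul_left, smul_comm]
    · rw [mul_snd, smul_fst, smul_snd, mul_snd, B_smul_left, ← map_smul, Algebra.smul_def]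
      congr 1; ring

instance : SMulCommClass ℚ (Alg R m T π) (Alg R m T π) where
  smul_comm c x y := by
    simp only [smul_eq_mul]
    apply Prod.ext
    · rw [smul_fst, mul_fst, mul_fst, smul_fst, vmul_smul_right, smul_comm]
    · rw [smul_snd, mul_snd, mul_snd, smul_fst, B_smul_right, ← map_smul, Algebra.smul_def]
      congr 1; ring

def Mono (x : Alg R m T π) : Set (Alg R m T π) :=
  {y | ∃ d u, Good x.1 (d + 1) u ∧ y.1 = T ^ d • u}

theorem Mono_mul (x y z : Alg R m T π) (hy : y ∈ Mono m T π x) (hz : z ∈ Mono m T π x) :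
    y * z ∈ Mono m T π x := by
  obtain ⟨d, u, hu, hy⟩ := hy
  obtain ⟨d', v, hv, hz⟩ := hz
  refine ⟨d + d' + 1, vmul u v, ?_, ?_⟩
  · rw [show d + d' + 1 + 1 = d + 1 + (d' + 1) by omega]; exact Good_mul _ _ _ _ _ hu hv
  · rw [mul_fst, hy, hz, vmul_smul_left, vmul_smul_right, smul_smul, smul_smul]
    congr 1; ring

theorem Mono_comm (h2 : ∀ x : R, 2 * x = 0 → x = 0) (hm : 1 ≤ m)
    (hπ : ∀ r, π (T ^ (2 * m + 2) * r) = 0)
    (x y z : Alg R m T π) (hy : y ∈ Mono m T π x) (hz : z ∈ Mono m T π x) :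
    (y * z).2 = 0 := by
  obtain ⟨d, u, hu, hy⟩ := hy
  obtain ⟨d', v, hv, hz⟩ := hz
  rw [mul_snd, hy, hz, B_smul_left, B_smul_right]
  by_cases hd : d + 1 + (d' + 1) < 2 * m + 3
  · rw [Good_B h2 m hm _ _ _ _ _ hu hv hd]; simp
  · obtain ⟨k, hk⟩ : ∃ k, d + d' + 1 = 2 * m + 2 + k := ⟨d + d' + 1 - (2 * m + 2), by omega⟩
    have : T * (T ^ d * (T ^ d' * B m u v)) = T ^ (2 * m + 2) * (T ^ k * B m u v) := by
      rw [← mul_assoc (T ^ (2 * m + 2)), ← pow_add, ← hk]; ring
    rw [this, hπ]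

theorem powcomm (h2 : ∀ x : R, 2 * x = 0 → x = 0) (hm : 1 ≤ m)
    (hπ : ∀ r, π (T ^ (2 * m + 2) * r) = 0) (x : Alg R m T π) :
    ∀ a ∈ NonUnitalAlgebra.adjoin ℚ ({x} : Set (Alg R m T π)),
      ∀ b ∈ NonUnitalAlgebra.adjoin ℚ ({x} : Set (Alg R m T π)), a * b = b * a := by
  have hsp : ∀ a ∈ NonUnitalAlgebra.adjoin ℚ ({x} : Set (Alg R m T π)),
      a ∈ Submodule.span ℚ (Mono m T π x) := by
    intro a ha
    induction ha using NonUnitalAlgebra.adjoin_induction with
    | mem y hy =>
      rw [Set.mem_singleton_iff] at hy; subst hy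
      exact Submodule.subset_span ⟨0, y.1, Or.inl ⟨0, rfl, rfl⟩, by simp⟩
    | add y z _ _ hy hz => exact Submodule.add_mem _ hy hz
    | zero => exact Submodule.zero_mem _
    | smul r y _ hy => exact Submodule.smul_mem _ r hy
    | mul y z hy0 hz0 hy hz =>
      clear hy0 hz0
      induction hy, hz using Submodule.span_induction₂ with
      | mem_mem y z hy hz => exact Submodule.subset_span (Mono_mul m T π x y z hy hz)
      | zero_left => rw [zero_mul]; exact Submodule.zero_mem _
      | zero_right => rw [mul_zero]; exact Submodule.zero_mem _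
      | add_left y y' z _ _ _ h1 h2 => rw [add_mul]; exact Submodule.add_mem _ h1 h2
      | add_right y z z' _ _ _ h1 h2 => rw [mul_add]; exact Submodule.add_mem _ h1 h2
      | smul_left r y z _ _ h => rw [smul_mul_assoc]; exact Submodule.smul_mem _ r h
      | smul_right r y z _ _ h => rw [mul_smul_comm]; exact Submodule.smul_mem _ r h
  intro a ha b hb
  have ha' := hsp a ha
  have hb' := hsp b hb
  clear ha hb
  induction ha', hb' using Submodule.span_induction₂ with
  | mem_mem y z hy hz =>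
    apply Prod.ext
    · rw [mul_fst, mul_fst, vmul_comm]
    · rw [Mono_comm m T π h2 hm hπ x y z hy hz, Mono_comm m T π h2 hm hπ x z y hz hy]
  | zero_left => rw [zero_mul, mul_zero]
  | zero_right => rw [zero_mul, mul_zero]
  | add_left y y' z _ _ _ h1 h2 => rw [add_mul, mul_add, h1, h2]
  | add_right y z z' _ _ _ h1 h2 => rw [add_mul, mul_add, h1, h2]
  | smul_left r y z _ _ h => rw [smul_mul_assoc, mul_smul_comm, h]
  | smul_right r y z _ _ h => rw [smul_mul_assoc, mul_smul_comm, h]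

end alg


/-! base change -/
section bc
variable {R' : Type} [CommRing R'] (φ : R →+* R')

def mp (u : V R) : V R' := (φ u.1, fun p q => φ (u.2 p q))

theorem rho_mp (u : V R) : rho (mp φ u) = fun k => φ (rho u k) := by
  funext k; simp only [rho, mp]; split_ifs
  · rfl
  · rw [map_mul, map_ofNat]

theorem vmul_mp (u v : V R) : vmul (mp φ u) (mp φ v) = mp φ (vmul u v) := by
  apply Prod.ext
  · simp [vmul, mp]
  · funext p q
    simp only [vmul, rho_mp]
    simp only [mp, Pi.add_apply, Pi.sub_apply, Pi.smul_apply, smul_eq_mul, E0, S, dg, map_add,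
      map_sub, map_mul, apply_ite φ, map_sum, map_zero, map_one]

theorem B_mp (m : ℕ) (u v : V R) : B m (mp φ u) (mp φ v) = φ (B m u v) := by
  simp only [B, rho_mp]
  simp only [mp, Lam, act, Pi.sub_apply, map_sum, map_sub, map_mul]

end bc

open Polynomial

noncomputable def piT (m : ℕ) : ℚ[X] →ₗ[ℚ] ℚ[X] := modByMonicHom (X ^ (2 * m + 2))

theorem piT_zero (m : ℕ) (r : ℚ[X]) : piT m (X ^ (2 * m + 2) * r) = 0 := by
  simp only [piT, modByMonicHom_apply]
  exact (modByMonic_eq_zero_iff_dvd (monic_X_pow _)).mpr (dvd_mul_right _ _)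

theorem piT_low (m k : ℕ) (hk : k < 2 * m + 2) (c : ℚ) : piT m (X ^ k * C c) = X ^ k * C c := by
  simp only [piT, modByMonicHom_apply]
  apply (modByMonic_eq_self_iff (monic_X_pow _)).mpr
  rw [mul_comm, degree_X_pow]
  refine lt_of_le_of_lt (degree_C_mul_X_pow_le k c) ?_
  exact_mod_cast hk

abbrev A0 (m : ℕ) : Type := Alg ℚ m 1 LinearMap.id
abbrev A1 (m : ℕ) : Type := Alg ℚ[X] m X (piT m)

noncomputable def io (m : ℕ) (x : A0 m) : A1 m := ((mp C x.1, C x.2) : V ℚ[X] × ℚ[X])

noncomputable def Ev (m : ℕ) : A1 m →ₗ[ℚ] A0 m where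
  toFun x := ((mp (evalRingHom 1) x.1, eval 1 x.2) : V ℚ × ℚ)
  map_add' x y := by
    apply Prod.ext
    · show mp (evalRingHom 1) (x.1 + y.1) = mp (evalRingHom 1) x.1 + mp (evalRingHom 1) y.1
      apply Prod.ext
      · simp [mp]
      · funext p q; simp [mp]
    · show eval 1 (x.2 + y.2) = eval 1 x.2 + eval 1 y.2
      simp
  map_smul' c x := by
    apply Prod.ext
    · show mp (evalRingHom 1) (c • x.1) = c • mp (evalRingHom 1) x.1
      apply Prod.ext
      · simp [mp]
      · funext p q; simp [mp]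
    · show eval 1 (c • x.2) = c • eval 1 x.2
      simp

theorem lift_io (m : ℕ) (v : ℕ → A0 m) (w : FreeMagma ℕ) : w.length < 2 * m + 3 →
    (FreeMagma.lift (fun i => io m (v i)) w).1 =
        (X : ℚ[X]) ^ (w.length - 1) • mp C (FreeMagma.lift v w).1 ∧
      (FreeMagma.lift (fun i => io m (v i)) w).2 =
        (X : ℚ[X]) ^ (w.length - 1) * C (FreeMagma.lift v w).2 := by
  induction w with
  | ih1 i =>
    intro _
    have : (FreeMagma.of i).length - 1 = 0 := rfl
    rw [this, pow_zero, one_smul, one_mul]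
    exact ⟨rfl, rfl⟩
  | ih2 w w' ih ih' =>
    intro hl
    have hlen : (w * w').length = w.length + w'.length := rfl
    have h1 := w.length_pos
    have h2 := w'.length_pos
    rw [hlen] at hl ⊢
    obtain ⟨a1, _⟩ := ih (by omega)
    obtain ⟨b1, _⟩ := ih' (by omega)
    have hp : (X : ℚ[X]) ^ (w.length + w'.length - 1) =
        X * (X ^ (w.length - 1) * X ^ (w'.length - 1)) := by
      rw [← pow_add, ← pow_succ']; congr 1; omega
    rw [map_mul, map_mul, mul_fst, mul_fst, mul_snd, mul_snd, a1, b1]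
    constructor
    · rw [vmul_smul_left, vmul_smul_right, vmul_mp, one_smul, smul_smul, smul_smul, hp, mul_assoc]
    · rw [B_smul_left, B_smul_right, B_mp, one_mul, LinearMap.id_apply,
        ← piT_low m (w.length + w'.length - 1) (by omega), hp]
      congr 1; ring

theorem Ev_lift (m : ℕ) (v : ℕ → A0 m) (w : FreeMagma ℕ) (hw : w.length < 2 * m + 3) :
    Ev m (FreeMagma.lift (fun i => io m (v i)) w) = FreeMagma.lift v w := by
  obtain ⟨h1, h2⟩ := lift_io m v w hw
  apply Prod.ext
  · show mp (evalRingHom 1) (FreeMagma.lift (fun i => io m (v i)) w).1 = _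
    rw [h1]
    apply Prod.ext
    · simp [mp]
    · funext p q; simp [mp]
  · show eval 1 (FreeMagma.lift (fun i => io m (v i)) w).2 = _
    rw [h2]; simp

theorem transfer (m : ℕ) (f : MonoidAlgebra ℚ (FreeMagma ℕ))
    (hf : ∀ w ∈ f.coeff.support, w.length < 2 * m + 3)
    (h : ∀ v : ℕ → A1 m, MonoidAlgebra.liftMagma ℚ (FreeMagma.lift v) f = 0) (v : ℕ → A0 m) :
    MonoidAlgebra.liftMagma ℚ (FreeMagma.lift v) f = 0 := by
  have h1 := congrArg (Ev m) (h (fun i => io m (v i)))
  have e1 : MonoidAlgebra.liftMagma ℚ (FreeMagma.lift (fun i => io m (v i))) f =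
      ∑ w ∈ f.coeff.support, f.coeff w • FreeMagma.lift (fun i => io m (v i)) w := rfl
  have e2 : MonoidAlgebra.liftMagma ℚ (FreeMagma.lift v) f =
      ∑ w ∈ f.coeff.support, f.coeff w • FreeMagma.lift v w := rfl
  rw [map_zero, e1, map_sum] at h1
  rw [e2, ← h1]
  refine sum_congr rfl fun w hw => ?_
  rw [map_smul, Ev_lift m v w (hf w hw)]

theorem A1_pc (m : ℕ) (hm : 1 ≤ m) (x : A1 m) :
    ∀ a ∈ NonUnitalAlgebra.adjoin ℚ ({x} : Set (A1 m)),
      ∀ b ∈ NonUnitalAlgebra.adjoin ℚ ({x} : Set (A1 m)), a * b = b * a :=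
  powcomm m X (piT m) (fun y hy => by simpa using hy) hm (piT_zero m) x

def x0 : V ℚ := (1, 0)

theorem kk_x0 (f : ℕ) : kk x0 (lad x0 (f + 1)) = fun p q => if p = f ∧ q = 0 then 1 else 0 := by
  have hK : kk x0 x0 = 0 := by simp [kk, x0, act_zero_right]
  induction f with
  | zero =>
    rw [zero_add, kk_one, hK]; funext p q; simp [x0, E0, S]
  | succ f ih =>
    rw [kk_succ x0 (f + 1) (by omega), ih, hK]
    funext p q
    simp only [x0, S, G, Pi.sub_apply, Pi.smul_apply, smul_eq_mul, Pi.zero_apply, ite_self,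
      mul_zero, sub_zero, one_mul]
    by_cases hp : p = 0
    · simp [hp]
    · rw [if_neg hp]
      have : (p - 1 = f) ↔ (p = f + 1) := by omega
      simp only [this]

theorem B_x0 (m : ℕ) : B m x0 (lad x0 (2 * m + 1)) = 1 := by
  have h1 : act (rho x0) (lad x0 (2 * m + 1)).2 = kk x0 (lad x0 (2 * m + 1)) := rfl
  have h2 : x0.2 = 0 := rfl
  rw [B, h1, h2, act_zero_right, sub_zero, kk_x0, Lam, sum_eq_single 0]
  · simp
  · intro q _ hq; simp [hq]
  · simp

def xA (m : ℕ) : A0 m := ((x0, 0) : V ℚ × ℚ)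
def ladA (m : ℕ) : ℕ → A0 m
  | 0 => xA m
  | f + 1 => xA m * ladA m f

theorem ladA_fst (m f : ℕ) : (ladA m f).1 = lad x0 f := by
  induction f with
  | zero => rfl
  | succ f ih => rw [ladA, mul_fst, one_smul, ih]; rfl

theorem ladA_mem (m f : ℕ) : ladA m f ∈ NonUnitalAlgebra.adjoin ℚ ({xA m} : Set (A0 m)) := by
  have h0 : xA m ∈ NonUnitalAlgebra.adjoin ℚ ({xA m} : Set (A0 m)) :=
    NonUnitalAlgebra.subset_adjoin ℚ (Set.mem_singleton _)
  induction f with
  | zero => exact h0
  | succ f ih => exact mul_mem h0 ih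

theorem A0_not_pc (m : ℕ) : ¬ ∀ x : A0 m,
    ∀ a ∈ NonUnitalAlgebra.adjoin ℚ ({x} : Set (A0 m)),
      ∀ b ∈ NonUnitalAlgebra.adjoin ℚ ({x} : Set (A0 m)), a * b = b * a := by
  intro h
  have h1 := congrArg Prod.snd (h (xA m) _ (ladA_mem m 0) _ (ladA_mem m (2 * m + 1)))
  rw [mul_snd, mul_snd, ladA_fst, ladA_fst, B_anti m (lad x0 (2 * m + 1))] at h1
  have h2 : lad x0 0 = x0 := rfl
  rw [h2, B_x0] at h1
  norm_num at h1

end Pool.Agent.PowComm
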