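import Mathlib

namespace Pool.Agent.Lib.helper24.QTower

open Subgroup hiding commutator_def
open scoped commutatorElement

section grp
variable {G : Type*} [Group G]

theorem decomp [Finite G] (s : G) (hs : normalClosure {s} = ⊤) (g : G) :
    ∃ n ∈ commutator G, ∃ k : ℕ, g = n * s ^ k := by
  have hN : (commutator G ⊔ zpowers s).Normal := by
    constructor
    intro a ha b
    have h1 : b * a * b⁻¹ = ⁅b, a⁆ * a := by rw [commutatorElement_def]; group
    rw [h1]
    exact mul_mem (mem_sup_left (commutator_mem_commutator (mem_top _) (mem_top _))) ha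
  have h2 : normalClosure {s} ≤ commutator G ⊔ zpowers s :=
    normalClosure_le_normal (by
      intro x hx
      rw [Set.mem_singleton_iff] at hx
      subst hx
      exact mem_sup_right (mem_zpowers _))
  have h3 : g ∈ commutator G ⊔ zpowers s := h2 (hs ▸ mem_top g)
  rw [← SetLike.mem_coe, normal_mul] at h3
  obtain ⟨n, hn, t, ht, rfl⟩ := h3
  have ht' : t ∈ Submonoid.powers s := mem_powers_iff_mem_zpowers.2 ht
  obtain ⟨k, rfl⟩ := ht'
  exact ⟨n, hn, k, rfl⟩

theorem comm_le [Finite G] (s : G) (hs : normalClosure {s} = ⊤) :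
    commutator G ≤ ⁅commutator G, (⊤ : Subgroup G)⁆ := by
  set M : Subgroup G := ⁅commutator G, (⊤ : Subgroup G)⁆ with hM
  have hc : ∀ n ∈ commutator G, ∀ g : G,
      Commute (QuotientGroup.mk n : G ⧸ M) (QuotientGroup.mk g) := by
    intro n hn g
    rw [← commutatorElement_eq_one_iff_commute]
    have : (QuotientGroup.mk ⁅n, g⁆ : G ⧸ M) = 1 :=
      (QuotientGroup.eq_one_iff _).2 (commutator_mem_commutator hn (mem_top _))
    simpa [commutatorElement_def] using this
  rw [commutator_def, commutator_le]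
  intro g _ h _
  obtain ⟨n, hn, k, rfl⟩ := decomp s hs g
  obtain ⟨m, hm, l, rfl⟩ := decomp s hs h
  rw [← QuotientGroup.eq_one_iff]
  have : Commute (QuotientGroup.mk (n * s ^ k) : G ⧸ M) (QuotientGroup.mk (m * s ^ l)) := by
    rw [QuotientGroup.mk_mul M n]
    refine Commute.mul_left (hc n hn _) ?_
    rw [QuotientGroup.mk_mul M m]
    refine Commute.mul_right (hc m hm _).symm ?_
    rw [QuotientGroup.mk_pow, QuotientGroup.mk_pow]
    exact Commute.pow_pow_self _ _ _
  rw [← commutatorElement_eq_one_iff_commute] at this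
  simpa [commutatorElement_def] using this

theorem ucs_comm [Finite G] (s : G) (hs : normalClosure {s} = ⊤) (n : ℕ) :
    ∀ z ∈ Subgroup.upperCentralSeries G n, ∀ a ∈ commutator G, ⁅z, a⁆ = 1 := by
  induction n with
  | zero =>
    intro z hz a _
    rw [Subgroup.upperCentralSeries_zero, mem_bot] at hz
    simp [hz]
  | succ n ih =>
    intro z hz
    have step : ∀ k, (∀ a ∈ commutator G, ⁅z, a⁆ ∈ Subgroup.upperCentralSeries G (k + 1)) →
        ∀ a ∈ commutator G, ⁅z, a⁆ ∈ Subgroup.upperCentralSeries G k := by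
      intro k hk
      let T : Subgroup G :=
        { carrier := {g | ⁅z, g⁆ ∈ Subgroup.upperCentralSeries G k}
          one_mem' := by simp
          mul_mem' := by
            intro g h hg hh
            have : ⁅z, g * h⁆ = ⁅z, g⁆ * (g * ⁅z, h⁆ * g⁻¹) := by
              simp only [commutatorElement_def]; group
            show ⁅z, g * h⁆ ∈ Subgroup.upperCentralSeries G k
            rw [this]
            exact mul_mem hg (Normal.conj_mem inferInstance _ hh _)
          inv_mem' := by
            intro g hg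
            have : ⁅z, g⁻¹⁆ = g⁻¹ * ⁅z, g⁆⁻¹ * g⁻¹⁻¹ := by
              simp only [commutatorElement_def]; group
            show ⁅z, g⁻¹⁆ ∈ Subgroup.upperCentralSeries G k
            rw [this]
            exact Normal.conj_mem inferInstance _ (inv_mem hg) _ }
      have hT : ⁅commutator G, (⊤ : Subgroup G)⁆ ≤ T := by
        rw [commutator_le]
        intro a ha g _
        show ⁅z, ⁅a, g⁆⁆ ∈ Subgroup.upperCentralSeries G k
        have hw : ⁅z⁻¹, g⁻¹⁆ ∈ Subgroup.upperCentralSeries G n :=
          Subgroup.mem_upperCentralSeries_succ_iff.1 (inv_mem hz) _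
        have h1 := ih _ hw a⁻¹ (inv_mem ha)
        have h2 : ⁅z, ⁅a, g⁆⁆ = ⁅⁅z, a⁆, a * g * a⁻¹⁆ := by
          have h3 : ⁅z, ⁅a, g⁆⁆ = z * a * z⁻¹ * g * z * ⁅⁅z⁻¹, g⁻¹⁆, a⁻¹⁆ * a⁻¹ * z⁻¹ *
              (a * g⁻¹ * a⁻¹) := by
            simp only [commutatorElement_def]; group
          rw [h3, h1]
          simp only [commutatorElement_def]; group
        rw [h2]
        exact Subgroup.mem_upperCentralSeries_succ_iff.1 (hk a ha) _
      intro a ha
      exact hT (comm_le s hs ha)
    have down : ∀ k, (∀ a ∈ commutator G, ⁅z, a⁆ ∈ Subgroup.upperCentralSeries G k) →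
        ∀ a ∈ commutator G, ⁅z, a⁆ = 1 := by
      intro k
      induction k with
      | zero =>
        intro h a ha
        have := h a ha
        rwa [Subgroup.upperCentralSeries_zero, mem_bot] at this
      | succ k ihk => exact fun h => ihk (step k h)
    exact down n fun a _ => Subgroup.mem_upperCentralSeries_succ_iff.1 hz a

theorem fixed_trivial [Finite G] (s : G) (hs : normalClosure {s} = ⊤)
    (hab : ∀ a ∈ commutator G, ∀ b ∈ commutator G, a * b = b * a) :
    ∀ w ∈ commutator G, ⁅w, s⁆ = 1 → w = 1 := by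
  have hmem : ∀ b : G, ⁅b, s⁆ ∈ commutator G := fun b =>
    commutator_mem_commutator (mem_top _) (mem_top _)
  have hconj : ∀ b ∈ commutator G, ∀ g : G, g * b * g⁻¹ ∈ commutator G := fun b hb g =>
    Normal.conj_mem inferInstance _ hb _
  let φ : commutator G →* commutator G := MonoidHom.mk' (fun b => ⟨⁅(b : G), s⁆, hmem _⟩) (by
    rintro ⟨b, hb⟩ ⟨c, hc⟩
    apply Subtype.ext
    show ⁅b * c, s⁆ = ⁅b, s⁆ * ⁅c, s⁆
    have h1 : ⁅b * c, s⁆ = b * (⁅c, s⁆ * (s * b⁻¹ * s⁻¹)) := by
      simp only [commutatorElement_def]; group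
    rw [h1, hab _ (hmem c) _ (hconj _ (inv_mem hb) s)]
    simp only [commutatorElement_def]; group)
  have hsurj : Function.Surjective φ := by
    have hle : ⁅commutator G, (⊤ : Subgroup G)⁆ ≤ φ.range.map (commutator G).subtype := by
      rw [commutator_le]
      rintro a ha g -
      obtain ⟨n, hn, k, rfl⟩ := decomp s hs g
      have h1 : ⁅a, n * s ^ k⁆ = a * (s ^ k * a⁻¹ * (s ^ k)⁻¹) := by
        have h2 : ⁅a, n * s ^ k⁆ = a * (n * (s ^ k * a⁻¹ * (s ^ k)⁻¹)) * n⁻¹ := by
          simp only [commutatorElement_def]; group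
        rw [h2, hab n hn _ (hconj _ (inv_mem ha) _)]
        group
      rw [h1]
      clear h1
      induction k with
      | zero => simp
      | succ k ih =>
        have h3 : a * (s ^ (k + 1) * a⁻¹ * (s ^ (k + 1))⁻¹) =
            a * (s ^ k * a⁻¹ * (s ^ k)⁻¹) * ⁅s ^ k * a * (s ^ k)⁻¹, s⁆ := by
          simp only [commutatorElement_def]; group
        rw [h3]
        refine mul_mem ih ?_
        exact ⟨φ ⟨_, hconj a ha (s ^ k)⟩, ⟨_, rfl⟩, rfl⟩
    rintro ⟨b, hb⟩
    obtain ⟨c, ⟨d, rfl⟩, hc⟩ := hle (comm_le s hs hb)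
    exact ⟨d, Subtype.ext hc⟩
  have hinj : Function.Injective φ := Finite.injective_iff_surjective.2 hsurj
  intro w hw h
  have : φ ⟨w, hw⟩ = φ 1 := by
    rw [map_one]; exact Subtype.ext h
  exact congrArg Subtype.val (hinj this)

theorem ucs_le [Finite G] (s : G) (hs : normalClosure {s} = ⊤) (n : ℕ) :
    ∀ w ∈ Subgroup.upperCentralSeries G n, w ∈ commutator G → w ∈ ⁅commutator G, commutator G⁆ := by
  set M : Subgroup G := ⁅commutator G, commutator G⁆ with hM
  let π : G →* G ⧸ M := QuotientGroup.mk' M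
  have hπ : Function.Surjective π := QuotientGroup.mk'_surjective M
  have hs' : normalClosure {π s} = ⊤ := by
    have := map_normalClosure {s} π hπ
    rw [hs, Set.image_singleton] at this
    rw [← this, ← MonoidHom.range_eq_map, MonoidHom.range_eq_top.2 hπ]
  have hmap : (commutator G).map π = commutator (G ⧸ M) := by
    rw [map_commutator_eq, MonoidHom.range_eq_top.2 hπ]; rfl
  have hab : ∀ a ∈ commutator (G ⧸ M), ∀ b ∈ commutator (G ⧸ M), a * b = b * a := by
    rw [← hmap]
    rintro _ ⟨a, ha, rfl⟩ _ ⟨b, hb, rfl⟩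
    rw [← commutatorElement_eq_one_iff_mul_comm, ← map_commutatorElement]
    exact (QuotientGroup.eq_one_iff _).2 (commutator_mem_commutator ha hb)
  induction n with
  | zero =>
    intro w hw _
    rw [Subgroup.upperCentralSeries_zero, mem_bot] at hw
    rw [hw]; exact one_mem _
  | succ n ih =>
    intro w hw hwN
    have h1 := ih _ (Subgroup.mem_upperCentralSeries_succ_iff.1 hw s)
      (commutator_mem_commutator (mem_top _) (mem_top _))
    have h2 : π w = 1 := by
      refine fixed_trivial (π s) hs' hab _ (hmap ▸ ⟨w, hwN, rfl⟩) ?_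
      rw [← map_commutatorElement]
      exact (QuotientGroup.eq_one_iff _).2 h1
    exact (QuotientGroup.eq_one_iff _).1 h2

theorem card_commSet (K : Type*) [Group K] [Finite K] :
    Nat.card (commutatorSet K) ≤ (center K).index * (center K).index := by
  let f : (K ⧸ center K) × (K ⧸ center K) → commutatorSet K := fun p =>
    ⟨⁅p.1.out, p.2.out⁆, _, _, rfl⟩
  have hf : Function.Surjective f := by
    rintro ⟨_, a, b, rfl⟩
    refine ⟨(QuotientGroup.mk a, QuotientGroup.mk b), Subtype.ext ?_⟩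
    show ⁅(QuotientGroup.mk a : K ⧸ center K).out, (QuotientGroup.mk b : K ⧸ center K).out⁆ = _
    obtain ⟨⟨x, hx⟩, h1⟩ := QuotientGroup.mk_out_eq_mul (center K) a
    obtain ⟨⟨y, hy⟩, h2⟩ := QuotientGroup.mk_out_eq_mul (center K) b
    rw [h1, h2]
    show ⁅a * x, b * y⁆ = ⁅a, b⁆
    have hx' := mem_center_iff.1 hx
    have hy' := mem_center_iff.1 hy
    have e1 : ⁅a * x, b * y⁆ = a * (x * (b * y)) * x⁻¹ * a⁻¹ * y⁻¹ * b⁻¹ := by
      simp only [commutatorElement_def]; group
    rw [e1, ← hx' (b * y)]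
    have e2 : a * (b * y * x) * x⁻¹ * a⁻¹ * y⁻¹ * b⁻¹ = a * b * (y * a⁻¹) * y⁻¹ * b⁻¹ := by group
    rw [e2, ← hy' a⁻¹]
    simp only [commutatorElement_def]; group
  have := Nat.card_le_card_of_surjective f hf
  rwa [Nat.card_prod] at this

theorem bound [Finite G] (s : G) (hs : normalClosure {s} = ⊤) {H : Type*} [Group H] [Finite H]
    (ψ : G →* H) (n : ℕ) (hψ : ψ.ker ≤ Subgroup.upperCentralSeries G n) :
    Nat.card (commutator G) ≤
      Nat.card H * Nat.card H ^ (Nat.card H * (Nat.card H * Nat.card H) + 1) := by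
  set m := Nat.card H with hm
  let W : Subgroup (commutator G) := (ψ.comp (commutator G).subtype).ker
  have hWi : W.index ≤ m := by
    rw [index_ker]
    exact Nat.card_le_card_of_injective _ Subtype.val_injective
  have hWc : W ≤ center (commutator G) := by
    rintro ⟨w, hw⟩ h
    rw [mem_center_iff]
    rintro ⟨a, ha⟩
    apply Subtype.ext
    have := ucs_comm s hs n w (hψ h) a ha
    rw [commutatorElement_eq_one_iff_mul_comm] at this
    exact this.symm
  have hWd : W ≤ commutator (commutator G) := by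
    rintro ⟨w, hw⟩ h
    have := ucs_le s hs n w (hψ h) hw
    rw [← map_subtype_commutator] at this
    obtain ⟨x, hx, hx'⟩ := this
    have : x = ⟨w, hw⟩ := Subtype.ext hx'
    exact this ▸ hx
  have hci : (center (commutator G)).index ≤ m := (index_antitone hWc).trans hWi
  have hcp : 0 < (center (commutator G)).index := Nat.pos_of_ne_zero index_ne_zero_of_finite
  have h1 := Nat.le_of_dvd (by positivity) (card_commutator_dvd_index_center_pow (commutator G))
  have h2 := card_commSet (commutator G)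
  have h3 : Nat.card (commutator (commutator G)) ≤ m ^ (m * (m * m) + 1) := by
    refine h1.trans ((Nat.pow_le_pow_left hci _).trans (Nat.pow_le_pow_right (hcp.trans_le hci) ?_))
    exact Nat.succ_le_succ (Nat.mul_le_mul hci (h2.trans (Nat.mul_le_mul hci hci)))
  rw [← W.index_mul_card]
  exact Nat.mul_le_mul hWi ((card_le_of_le hWd).trans h3)

end grp

section qu

/-- The inner automorphism group: generated by the right translations. -/
def inn {X : Type*} (op : X → X → X) : Subgroup (Equiv.Perm X) :=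
  Subgroup.closure {σ : Equiv.Perm X | ∃ a, ∀ x, σ x = op x a}

variable {X Y : Type*} {op : X → X → X} {oq : Y → Y → Y}

theorem inn_aut (hd : ∀ a b c, op (op a b) c = op (op a c) (op b c)) :
    ∀ g ∈ inn op, ∀ x y, g (op x y) = op (g x) (g y) := by
  intro g hg
  induction hg using Subgroup.closure_induction with
  | mem σ h => obtain ⟨a, ha⟩ := h; intro x y; rw [ha, ha, ha, hd]
  | one => intro x y; rfl
  | mul g h _ _ ihg ihh => intro x y; simp only [Equiv.Perm.mul_apply, ihh, ihg]
  | inv g _ ih =>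
    intro x y
    apply g.injective
    rw [ih]; simp

theorem descend (hb : ∀ b, Function.Bijective fun a => oq a b) (p : X → Y)
    (hp : ∀ x y, p (op x y) = oq (p x) (p y)) :
    ∀ g ∈ inn op, ∃ h ∈ inn oq, ∀ x, p (g x) = h (p x) := by
  intro g hg
  induction hg using Subgroup.closure_induction with
  | mem σ h =>
    obtain ⟨a, ha⟩ := h
    exact ⟨Equiv.ofBijective _ (hb (p a)), Subgroup.subset_closure ⟨p a, fun _ => rfl⟩,
      fun x => by rw [ha, hp]; rfl⟩
  | one => exact ⟨1, one_mem _, fun _ => rfl⟩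
  | mul g h _ _ ihg ihh =>
    obtain ⟨g', hg', e1⟩ := ihg
    obtain ⟨h', hh', e2⟩ := ihh
    exact ⟨g' * h', mul_mem hg' hh', fun x => by simp only [Equiv.Perm.mul_apply, e1, e2]⟩
  | inv g _ ih =>
    obtain ⟨g', hg', e⟩ := ih
    refine ⟨g'⁻¹, inv_mem hg', fun x => ?_⟩
    apply g'.injective
    rw [← e]; simp

theorem descend_hom (hb : ∀ b, Function.Bijective fun a => oq a b) (p : X → Y)
    (hs : Function.Surjective p) (hp : ∀ x y, p (op x y) = oq (p x) (p y)) :
    ∃ π : inn op →* inn oq, ∀ (g : inn op) x, p (g.1 x) = (π g).1 (p x) := by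
  choose F hF e using descend hb p hp
  refine ⟨MonoidHom.mk' (fun g => ⟨F g.1 g.2, hF _ _⟩) ?_, fun g x => e _ _ x⟩
  intro g h
  apply Subtype.ext
  ext y
  obtain ⟨x, rfl⟩ := hs y
  show F _ _ (p x) = F g.1 g.2 (F h.1 h.2 (p x))
  rw [← e, ← e, ← e]; rfl

theorem central_of_cover (hd : ∀ a b c, op (op a b) c = op (op a c) (op b c)) (p : X → Y)
    (hc : ∀ y y', p y = p y' → ∀ x, op x y = op x y') (g : inn op)
    (hg : ∀ x, p (g.1 x) = p x) : g ∈ center (inn op) := by
  rw [mem_center_iff]
  rintro ⟨h, hh⟩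
  apply Subtype.ext
  show h * g.1 = g.1 * h
  induction hh using Subgroup.closure_induction with
  | mem σ h =>
    obtain ⟨a, ha⟩ := h
    ext x
    simp only [Equiv.Perm.mul_apply, ha]
    rw [inn_aut hd g.1 g.2, hc _ _ (hg a)]
  | one => simp
  | mul a b _ _ iha ihb => rw [mul_assoc, ihb, ← mul_assoc, iha, mul_assoc]
  | inv a _ ih => exact (Commute.inv_left ih)

theorem ucs_lift {G H : Type*} [Group G] [Group H] (π : G →* H) (hπ : π.ker ≤ center G) (k : ℕ) :
    ∀ g, π g ∈ Subgroup.upperCentralSeries H k → g ∈ Subgroup.upperCentralSeries G (k + 1) := by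
  induction k with
  | zero =>
    intro g hg
    rw [Subgroup.upperCentralSeries_zero, mem_bot] at hg
    rw [zero_add, Subgroup.upperCentralSeries_one]
    exact hπ hg
  | succ k ih =>
    intro g hg
    rw [Subgroup.mem_upperCentralSeries_succ_iff]
    intro y
    apply ih
    rw [map_commutatorElement]
    exact Subgroup.mem_upperCentralSeries_succ_iff.1 hg _

theorem card_le [Finite X] (hi : ∀ a, op a a = a) (hb : ∀ b, Function.Bijective fun a => op a b)
    (hd : ∀ a b c, op (op a b) c = op (op a c) (op b c))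
    (hc : ∀ x y, ∃ g ∈ inn op, g x = y) (x0 : X) {H : Type*} [Group H] [Finite H]
    (ψ : inn op →* H) (n : ℕ) (hψ : ψ.ker ≤ Subgroup.upperCentralSeries (inn op) n) :
    Nat.card X ≤ Nat.card H * Nat.card H ^ (Nat.card H * (Nat.card H * Nat.card H) + 1) := by
  obtain ⟨s, hs0⟩ : ∃ s : inn op, ∀ x, s.1 x = op x x0 :=
    ⟨⟨Equiv.ofBijective _ (hb x0), Subgroup.subset_closure ⟨x0, fun _ => rfl⟩⟩, fun _ => rfl⟩
  have hs : normalClosure {s} = ⊤ := by
    rw [eq_top_iff]
    rintro ⟨g, hg⟩ -
    induction hg using Subgroup.closure_induction with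
    | mem σ h =>
      obtain ⟨a, ha⟩ := h
      obtain ⟨t, ht, e⟩ := hc x0 a
      have : (⟨σ, Subgroup.subset_closure ⟨a, ha⟩⟩ : inn op) = ⟨t, ht⟩ * s * (⟨t, ht⟩ : inn op)⁻¹ := by
        apply Subtype.ext
        ext x
        show σ x = t (s.1 (t⁻¹ x))
        rw [hs0, inn_aut hd t ht, e, ha]; simp
      rw [this]
      exact (normalClosure_normal (s := {s})).conj_mem s
        (subset_normalClosure (Set.mem_singleton s)) ⟨t, ht⟩
    | one => exact one_mem _
    | mul a b ha hb' iha ihb =>
      have := mul_mem iha ihb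
      exact this
    | inv a ha ih =>
      have := inv_mem ih
      exact this
  have hB := bound s hs ψ n hψ
  refine le_trans ?_ hB
  refine Nat.card_le_card_of_surjective (fun g : commutator (inn op) => g.1.1 x0) ?_
  intro y
  obtain ⟨t, ht, e⟩ := hc x0 y
  obtain ⟨m, hm, k, hk⟩ := decomp s hs ⟨t, ht⟩
  refine ⟨⟨m, hm⟩, ?_⟩
  have h1 : ∀ j : ℕ, (s ^ j).1 x0 = x0 := by
    intro j
    induction j with
    | zero => rfl
    | succ j ih =>
      rw [pow_succ]
      show (s ^ j).1 (s.1 x0) = x0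
      rw [hs0, hi, ih]
  have h2 : t x0 = m.1 ((s ^ k).1 x0) := congrArg (fun g : inn op => g.1 x0) hk
  rw [h1] at h2
  show m.1 x0 = y
  rw [← h2, e]

theorem tower (Q : ℕ → Type) [∀ n, Finite (Q n)] (x0 : Q 0) (op : ∀ n, Q n → Q n → Q n)
    (hi : ∀ n a, op n a a = a) (hb : ∀ n b, Function.Bijective fun a => op n a b)
    (hd : ∀ n a b c, op n (op n a b) c = op n (op n a c) (op n b c))
    (hc : ∀ n x y, ∃ g ∈ inn (op n), g x = y) (p : ∀ n, Q (n + 1) → Q n)
    (hs : ∀ n, Function.Surjective (p n))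
    (hp : ∀ n x y, p n (op (n + 1) x y) = op n (p n x) (p n y))
    (hv : ∀ n y y', p n y = p n y' → ∀ x, op (n + 1) x y = op (n + 1) x y') :
    ∃ B, ∀ n, Nat.card (Q n) ≤ B := by
  have key : ∀ n, ∃ ψ : inn (op n) →* inn (op 0),
      ψ.ker ≤ Subgroup.upperCentralSeries (inn (op n)) n := by
    intro n
    induction n with
    | zero => exact ⟨MonoidHom.id _, by simp⟩
    | succ n ih =>
      obtain ⟨ψ, hψ⟩ := ih
      obtain ⟨π, hπ⟩ := descend_hom (op := op (n + 1)) (hb n) (p n) (hs n) (hp n)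
      refine ⟨ψ.comp π, fun g hg => ucs_lift π ?_ n g (hψ hg)⟩
      intro g hg
      refine central_of_cover (hd (n + 1)) (p n) (hv n) g fun x => ?_
      rw [hπ, (MonoidHom.mem_ker.1 hg)]; rfl
  have hne : ∀ n, Nonempty (Q n) := by
    intro n
    induction n with
    | zero => exact ⟨x0⟩
    | succ n ih => obtain ⟨x⟩ := ih; obtain ⟨y, _⟩ := hs n x; exact ⟨y⟩
  refine ⟨Nat.card (inn (op 0)) * Nat.card (inn (op 0)) ^ (Nat.card (inn (op 0)) *
    (Nat.card (inn (op 0)) * Nat.card (inn (op 0))) + 1), fun n => ?_⟩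
  obtain ⟨ψ, hψ⟩ := key n
  obtain ⟨x⟩ := hne n
  exact card_le (hi n) (hb n) (hd n) (hc n) x ψ n hψ

end qu

end Pool.Agent.Lib.helper24.QTower
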