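import Mathlib

set_option autoImplicit false

namespace Pool.Agent.Lib.helper24.Reimer

open Finset

/-- First family of plane vectors. -/
def va (d s t : Bool) : ℤ :=
  if d then (if s then (if t then 1 else 0) else 1) else (if s = t then 1 else 0)

/-- Second family of plane vectors. -/
def vb (d s t : Bool) : ℤ :=
  if d then (if s then (if t then 0 else 1) else (if t then -1 else 1)) else (if s = t then 1 else 0)

/-- Butterfly vectors. -/
def vg (d r s t : Bool) : ℤ :=
  if d then (if r then vb d (!s) t else va d (!s) t) else (if s = t then 1 else 0)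

theorem ab0 : ∀ d z y : Bool, y ≠ xor z d → ∑ t, va d z t * vb d y t = 0 := by decide
theorem ab1 : ∀ d z : Bool, ∑ t, va d z t * vb d (xor z d) t ≠ 0 := by decide
theorem ag0 : ∀ d z x : Bool, z ≠ x → ∑ t, vg d true x t * va d z t = 0 := by decide
theorem bg0 : ∀ d z x : Bool, z ≠ x → ∑ t, vg d false x t * vb d z t = 0 := by decide
theorem gg1 : ∀ d r x : Bool, ((∑ t, vg d r x t * va d x t : ℤ) : ZMod 2) = 1 := by decide
theorem gg0 : ∀ d r : Bool, ((∑ t, vg d r true t * va d false t : ℤ) : ZMod 2) = 0 := by decide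

variable {ι : Type} [Fintype ι] [DecidableEq ι]

/-- Tensor product of plane vectors, with entries in `R`. -/
def ten (R : Type) [CommRing R] (f : ι → Bool → ℤ) (w : ι → Bool) : R := ((∏ i, f i (w i) : ℤ) : R)

theorem ten_dot (R : Type) [CommRing R] (f g : ι → Bool → ℤ) :
    ten R f ⬝ᵥ ten R g = ∏ i, ((∑ t, f i t * g i t : ℤ) : R) := by
  have : (∏ i, ∑ t, f i t * g i t : ℤ) = ∑ w : ι → Bool, (∏ i, f i (w i)) * ∏ i, g i (w i) := by
    rw [Finset.prod_univ_sum, Fintype.piFinset_univ]
    exact Finset.sum_congr rfl fun w _ => Finset.prod_mul_distrib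
  rw [← Int.cast_prod, this]
  simp [dotProduct, ten]

theorem li_sum {Ω κ κ' : Type} [Fintype Ω] [Fintype κ] [Fintype κ'] (v : κ → Ω → ℝ)
    (v' : κ' → Ω → ℝ) (hv : LinearIndependent ℝ v) (hv' : LinearIndependent ℝ v')
    (h : ∀ i j, v i ⬝ᵥ v' j = 0) : LinearIndependent ℝ (Sum.elim v v') := by
  rw [Fintype.linearIndependent_iff] at hv hv' ⊢
  intro g hg
  rw [Fintype.sum_sum_type] at hg
  simp only [Sum.elim_inl, Sum.elim_inr] at hg
  have h0 : (∑ i, g (Sum.inl i) • v i) ⬝ᵥ (∑ j, g (Sum.inr j) • v' j) = 0 := by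
    simp [sum_dotProduct, dotProduct_sum, h]
  have h1 : (∑ j, g (Sum.inr j) • v' j) = -∑ i, g (Sum.inl i) • v i :=
    eq_neg_of_add_eq_zero_right hg
  rw [h1, dotProduct_neg, neg_eq_zero, dotProduct_self_eq_zero] at h0
  rw [h0, neg_zero] at h1
  rintro (i | j)
  · exact hv _ h0 i
  · exact hv' _ h1 j

theorem li_dual {Ω κ : Type} [Fintype Ω] [Fintype κ] (v u : κ → Ω → ℝ)
    (h0 : ∀ i j, i ≠ j → v i ⬝ᵥ u j = 0) (h1 : ∀ i, v i ⬝ᵥ u i ≠ 0) : LinearIndependent ℝ v := by
  rw [Fintype.linearIndependent_iff]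
  intro g hg j
  have h : (∑ i, g i • v i) ⬝ᵥ u j = 0 := by rw [hg, zero_dotProduct]
  rw [sum_dotProduct, Finset.sum_eq_single j] at h
  · rw [smul_dotProduct, smul_eq_mul, mul_eq_zero] at h
    exact h.resolve_right (h1 j)
  · intro i _ hi
    rw [smul_dotProduct, h0 i j hi, smul_zero]
  · simp

theorem li_mod2 (d : ι → Bool) (S : (ι → Bool) → ι → Bool) :
    LinearIndependent (ZMod 2) fun x : ι → Bool =>
      ten (ZMod 2) fun i => vg (d i) (S x i) (x i) := by
  rw [Fintype.linearIndependent_iff]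
  intro g hg
  by_contra hne
  push Not at hne
  obtain ⟨x, hx, hmin⟩ := (Finset.univ.filter fun x => g x ≠ 0).exists_minimal
    (by obtain ⟨x, hx⟩ := hne; exact ⟨x, by simpa using hx⟩)
  have hx' : g x ≠ 0 := by simpa using hx
  have h : (∑ y, g y • ten (ZMod 2) fun i => vg (d i) (S y i) (y i)) ⬝ᵥ
      (ten (ZMod 2) fun i => va (d i) (x i)) = 0 := by rw [hg, zero_dotProduct]
  rw [sum_dotProduct, Finset.sum_eq_single x] at h
  · rw [smul_dotProduct, ten_dot] at h
    simp only [gg1, Finset.prod_const_one, smul_eq_mul, mul_one] at h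
    exact hx' h
  · intro y _ hy
    rw [smul_dotProduct, ten_dot]
    by_cases hg0 : g y = 0
    · rw [hg0, zero_smul]
    · have : ¬ y ≤ x := fun hle => hy (le_antisymm hle (hmin (by simpa using hg0) hle))
      rw [Pi.le_def] at this
      push Not at this
      obtain ⟨i, hi⟩ := this
      have e1 : x i = false := by revert hi; cases x i <;> cases y i <;> decide
      have e2 : y i = true := by revert hi; cases x i <;> cases y i <;> decide
      rw [Finset.prod_eq_zero (Finset.mem_univ i) (by rw [e1, e2]; exact gg0 _ _), smul_zero]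
  · simp

theorem li_real (d : ι → Bool) (S : (ι → Bool) → ι → Bool) :
    LinearIndependent ℝ fun x : ι → Bool => ten ℝ fun i => vg (d i) (S x i) (x i) := by
  let M : Matrix (ι → Bool) (ι → Bool) ℤ := Matrix.of fun x w => ∏ i, vg (d i) (S x i) (x i) (w i)
  have h2 : IsUnit ((Int.castRingHom (ZMod 2)).mapMatrix M) :=
    Matrix.linearIndependent_rows_iff_isUnit.1 (li_mod2 d S)
  rw [Matrix.isUnit_iff_isUnit_det, ← RingHom.map_det] at h2
  have h3 : M.det ≠ 0 := by
    intro h
    rw [h, map_zero] at h2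
    exact not_isUnit_zero h2
  have h4 : IsUnit ((Int.castRingHom ℝ).mapMatrix M) := by
    rw [Matrix.isUnit_iff_isUnit_det, ← RingHom.map_det, isUnit_iff_ne_zero]
    simpa using h3
  exact Matrix.linearIndependent_rows_iff_isUnit.2 h4

theorem butterfly (d : ι → Bool) (T A B : Finset (ι → Bool)) (S : (ι → Bool) → ι → Bool)
    (hA : ∀ x ∈ T, ∀ z : ι → Bool, (∀ i, S x i = true → z i = x i) → z ∈ A)
    (hB : ∀ x ∈ T, ∀ z : ι → Bool, (∀ i, S x i = false → z i = x i) → z ∈ B) :
    #T ≤ #(A.filter fun z => (fun i => xor (z i) (d i)) ∈ B) := by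
  let α : (ι → Bool) → (ι → Bool) → ℝ := fun z => ten ℝ fun i => va (d i) (z i)
  let β : (ι → Bool) → (ι → Bool) → ℝ := fun z => ten ℝ fun i => vb (d i) (xor (z i) (d i))
  let γ : (ι → Bool) → (ι → Bool) → ℝ := fun x => ten ℝ fun i => vg (d i) (S x i) (x i)
  have hab0 : ∀ z y, z ≠ y → α z ⬝ᵥ β y = 0 := by
    intro z y h
    obtain ⟨i, hi⟩ := Function.ne_iff.1 h
    rw [ten_dot]
    refine Finset.prod_eq_zero (Finset.mem_univ i) ?_
    rw [ab0 _ _ _ (by revert hi; cases z i <;> cases y i <;> cases d i <;> decide), Int.cast_zero]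
  have hab1 : ∀ z, α z ⬝ᵥ β z ≠ 0 := by
    intro z
    rw [ten_dot]
    exact Finset.prod_ne_zero_iff.2 fun i _ => Int.cast_ne_zero.2 (ab1 _ _)
  have hα : LinearIndependent ℝ α := li_dual α β hab0 hab1
  have hβ : LinearIndependent ℝ β := li_dual β α
    (fun i j h => by rw [dotProduct_comm]; exact hab0 j i h.symm)
    (fun i => by rw [dotProduct_comm]; exact hab1 i)
  let E := A.filter fun z => (fun i => xor (z i) (d i)) ∉ B
  have h1 : LinearIndependent ℝ (Sum.elim (fun z : (Aᶜ : Finset (ι → Bool)) => α z)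
      (fun z : E => β z)) := by
    refine li_sum _ _ (hα.comp _ Subtype.val_injective) (hβ.comp _ Subtype.val_injective) ?_
    rintro ⟨z, hz⟩ ⟨y, hy⟩
    refine hab0 z y fun e => ?_
    subst e
    exact (Finset.mem_compl.1 hz) (Finset.mem_filter.1 hy).1
  have h2 : LinearIndependent ℝ (Sum.elim (fun x : T => γ x)
      (Sum.elim (fun z : (Aᶜ : Finset (ι → Bool)) => α z) (fun z : E => β z))) := by
    refine li_sum _ _ ((li_real d S).comp _ Subtype.val_injective) h1 ?_
    rintro ⟨x, hx⟩ (⟨z, hz⟩ | ⟨z, hz⟩)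
    · have : ¬ ∀ i, S x i = true → z i = x i := fun h => (Finset.mem_compl.1 hz) (hA x hx z h)
      push Not at this
      obtain ⟨i, i1, i2⟩ := this
      change γ x ⬝ᵥ α z = 0
      rw [ten_dot]
      refine Finset.prod_eq_zero (Finset.mem_univ i) ?_
      rw [i1, ag0 _ _ _ i2, Int.cast_zero]
    · have : ¬ ∀ i, S x i = false → xor (z i) (d i) = x i :=
        fun h => (Finset.mem_filter.1 hz).2 (hB x hx _ h)
      push Not at this
      obtain ⟨i, i1, i2⟩ := this
      change γ x ⬝ᵥ β z = 0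
      rw [ten_dot]
      refine Finset.prod_eq_zero (Finset.mem_univ i) ?_
      rw [i1, bg0 _ _ _ i2, Int.cast_zero]
  have h3 := h2.fintype_card_le_finrank
  rw [Module.finrank_fintype_fun_eq_card, Fintype.card_sum, Fintype.card_sum, Fintype.card_coe,
    Fintype.card_coe, Fintype.card_coe] at h3
  have h4 := Finset.card_add_card_compl A
  have h5 := Finset.card_filter_add_card_filter_not (s := A)
    (fun z => (fun i => xor (z i) (d i)) ∈ B)
  have h6 : #E = #(A.filter fun z => ¬ (fun i => xor (z i) (d i)) ∈ B) := rfl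
  omega

/-- Reimer's inequality for the uniform measure on the cube. -/
theorem reimer (T A B : Finset (ι → Bool))
    (h : ∀ x ∈ T, ∃ S : ι → Bool, (∀ z : ι → Bool, (∀ i, S i = true → z i = x i) → z ∈ A) ∧
      (∀ z : ι → Bool, (∀ i, S i = false → z i = x i) → z ∈ B)) :
    #T * Fintype.card (ι → Bool) ≤ #A * #B := by
  choose! S hA hB using h
  have h1 : ∑ _d : ι → Bool, #T ≤
      ∑ d : ι → Bool, #(A.filter fun z => (fun i => xor (z i) (d i)) ∈ B) :=
    Finset.sum_le_sum fun d _ => butterfly d T A B S hA hB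
  rw [Finset.sum_const, Finset.card_univ, smul_eq_mul, mul_comm] at h1
  refine h1.trans (le_of_eq ?_)
  simp only [Finset.card_filter]
  rw [Finset.sum_comm]
  have h2 : ∀ z : ι → Bool,
      (∑ d : ι → Bool, if (fun i => xor (z i) (d i)) ∈ B then 1 else 0) = #B := by
    intro z
    have hinv : Function.Involutive fun (d : ι → Bool) (i : ι) => xor (z i) (d i) := by
      intro d; funext i; simp
    rw [hinv.bijective.sum_comp (fun y => if y ∈ B then 1 else 0)]
    simp
  simp only [h2, Finset.sum_const, smul_eq_mul]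

end Pool.Agent.Lib.helper24.Reimer
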