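import Mathlib

set_option autoImplicit false

namespace Pool.Agent.Lib.helper24.RelGrowth

open FreeGroup hiding map_mul map_inv map_one map_pure

abbrev G := FreeGroup Bool

def ga : G := of false
def gt : G := of true

/-- conjugates of `a` by powers of `t` -/
def ai (i : ℤ) : G := gt ^ i * ga * gt ^ (-i)

def H : Subgroup G := Subgroup.closure {g | ∃ i : ℤ, 0 ≤ i ∧ g = ai i}

theorem ai_mem (i : ℤ) (hi : 0 ≤ i) : ai i ∈ H := Subgroup.subset_closure ⟨i, hi, rfl⟩

abbrev Y := (ℤ → G) × ℤ

/-- left multiplication of the coordinate `0` -/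
def Lm (g : G) : Equiv.Perm Y where
  toFun y := (Function.update y.1 0 (g * y.1 0), y.2)
  invFun y := (Function.update y.1 0 (g⁻¹ * y.1 0), y.2)
  left_inv y := by
    ext j <;> simp
  right_inv y := by
    ext j <;> simp

theorem Lm_apply (g : G) (y : Y) : Lm g y = (Function.update y.1 0 (g * y.1 0), y.2) := rfl

theorem Lm_one (y : Y) : Lm 1 y = y := by
  rw [Lm_apply]; simp

theorem Lm_mul (g h : G) (y : Y) : Lm (g * h) y = Lm g (Lm h y) := by
  simp [Lm_apply, mul_assoc]

def sg : Equiv.Perm Y where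
  toFun y := (fun j => y.1 (j - 1), y.2 + 1)
  invFun y := (fun j => y.1 (j + 1), y.2 - 1)
  left_inv y := by ext j <;> simp
  right_inv y := by ext j <;> simp

theorem sg_apply (y : Y) : sg y = (fun j => y.1 (j - 1), y.2 + 1) := rfl

def al (i : ℤ) : Equiv.Perm Y := if 0 ≤ i then Lm (ai i) else if i = -1 then sg else 1

def TT : Equiv.Perm (Y × ℤ) where
  toFun x := (x.1, x.2 + 1)
  invFun x := (x.1, x.2 - 1)
  left_inv x := by simp
  right_inv x := by simp

def AA : Equiv.Perm (Y × ℤ) where
  toFun x := (al (-x.2) x.1, x.2)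
  invFun x := ((al (-x.2)).symm x.1, x.2)
  left_inv x := by simp
  right_inv x := by simp

def rho : G →* Equiv.Perm (Y × ℤ) := FreeGroup.lift (fun b => if b then TT else AA)

theorem rho_t : rho gt = TT := by simp [rho, gt]
theorem rho_a : rho ga = AA := by simp [rho, ga]

theorem TT_zpow (i : ℤ) (x : Y × ℤ) : (TT ^ i) x = (x.1, x.2 + i) := by
  induction i using Int.induction_on generalizing x with
  | zero => simp
  | succ n ih =>
    rw [zpow_add_one, Equiv.Perm.mul_apply, ih]
    show (x.1, x.2 + 1 + n) = _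
    congr 1; ring
  | pred n ih =>
    rw [zpow_sub_one, Equiv.Perm.mul_apply, ih]
    show (x.1, x.2 - 1 + -(n : ℤ)) = _
    congr 1; ring

theorem rho_ai (i : ℤ) (y : Y) : rho (ai i) (y, 0) = (al i y, 0) := by
  simp only [ai, map_mul, map_zpow, rho_t, rho_a, Equiv.Perm.mul_apply, TT_zpow]
  show (al (-(0 + -i)) y, 0 + -i + i) = _
  simp

theorem rho_H (h : G) (hh : h ∈ H) : ∀ y : Y, rho h (y, 0) = (Lm h y, 0) := by
  induction hh using Subgroup.closure_induction with
  | mem x hx =>
    obtain ⟨i, hi, rfl⟩ := hx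
    intro y
    rw [rho_ai, al, if_pos hi]
  | one => intro y; simp [Lm_one]
  | mul x z _ _ hx hz => intro y; rw [map_mul, Equiv.Perm.mul_apply, hz, hx, Lm_mul]
  | inv x _ hx =>
    intro y
    rw [map_inv, Equiv.Perm.inv_eq_iff_eq, hx, ← Lm_mul]
    simp [Lm_one]

def gs : G := ai (-1)

theorem rho_s (y : Y) : rho gs (y, 0) = (sg y, 0) := by
  rw [gs, rho_ai]; simp [al]

def y0 : Y := (fun _ => 1, 0)

/-- orbit point of a normal form -/
def P : List H → Y
  | [] => y0
  | h :: l => sg (Lm h (P l))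

theorem P_snd (l : List H) : (P l).2 = l.length := by
  induction l with
  | nil => rfl
  | cons h l ih => simp [P, sg_apply, Lm_apply, ih]

theorem P_fst (l : List H) : ∀ j : ℤ, j ≤ 0 → (P l).1 j = 1 := by
  induction l with
  | nil => intro j _; rfl
  | cons h l ih =>
    intro j hj
    simp only [P, sg_apply, Lm_apply]
    rw [Function.update_of_ne (by omega)]
    exact ih _ (by omega)

theorem Lm_P_inj {h h' : G} {l l' : List H} (e : Lm h (P l) = Lm h' (P l')) :
    h = h' ∧ P l = P l' := by
  have e1 := congrArg (fun y : Y => y.1 0) e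
  simp only [Lm_apply, Function.update_self, P_fst _ 0 le_rfl, mul_one] at e1
  subst e1
  exact ⟨rfl, (Lm h).injective e⟩

theorem P_inj : ∀ l l' : List H, P l = P l' → l = l'
  | [], [], _ => rfl
  | [], h :: l, e => by
    have := congrArg Prod.snd e
    rw [P_snd, P_snd] at this
    simp at this
    omega
  | h :: l, [], e => by
    have := congrArg Prod.snd e
    rw [P_snd, P_snd] at this
    simp at this
    omega
  | h :: l, h' :: l', e => by
    obtain ⟨e1, e2⟩ := Lm_P_inj (sg.injective e)
    rw [Subtype.ext e1, P_inj l l' e2]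

abbrev M := Monoid.Coprod (↥H) (Multiplicative ℕ)

def ff : M →* G := Monoid.Coprod.lift H.subtype (powersHom G gs)

def sM : M := Monoid.Coprod.inr (Multiplicative.ofAdd 1)

def tl (l : List H) : M := (l.map (fun h => sM * Monoid.Coprod.inl h)).prod

theorem tl_cons (h : H) (l : List H) : tl (h :: l) = sM * Monoid.Coprod.inl h * tl l := by
  simp [tl]

theorem ff_sM : ff sM = gs := by simp [ff, sM]

theorem ff_inl (h : H) : ff (Monoid.Coprod.inl h) = h := by simp [ff]

theorem rho_tl (l : List H) : rho (ff (tl l)) (y0, 0) = (P l, 0) := by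
  induction l with
  | nil => simp [tl, P]
  | cons h l ih =>
    rw [tl_cons, map_mul, map_mul, map_mul, map_mul, Equiv.Perm.mul_apply, Equiv.Perm.mul_apply,
      ih, ff_inl, rho_H _ h.2, ff_sM, rho_s]
    rfl

theorem nf_exists (m : M) : ∃ (h : H) (l : List H), m = Monoid.Coprod.inl h * tl l := by
  induction m using Monoid.Coprod.induction_on' with
  | one => exact ⟨1, [], by simp [tl]⟩
  | inl_mul g x ih =>
    obtain ⟨h, l, rfl⟩ := ih
    exact ⟨g * h, l, by simp [mul_assoc]⟩
  | inr_mul n x ih =>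
    obtain ⟨h, l, rfl⟩ := ih
    have hn : (Monoid.Coprod.inr n : M) = sM ^ (Multiplicative.toAdd n) := by
      rw [sM, ← map_pow]; congr 1
      apply Multiplicative.toAdd.injective; simp
    rw [hn]
    generalize Multiplicative.toAdd n = k
    induction k with
    | zero => exact ⟨h, l, by simp⟩
    | succ k ihk =>
      obtain ⟨h', l', e⟩ := ihk
      refine ⟨1, h' :: l', ?_⟩
      rw [pow_succ', mul_assoc, e, tl_cons]; simp [mul_assoc]

theorem ff_inj : Function.Injective ff := by
  intro m m' e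
  obtain ⟨h, l, rfl⟩ := nf_exists m
  obtain ⟨h', l', rfl⟩ := nf_exists m'
  have e1 := congrArg (fun g => rho g (y0, 0)) e
  simp only [map_mul, Equiv.Perm.mul_apply, rho_tl, ff_inl, rho_H _ h.2, rho_H _ h'.2] at e1
  obtain ⟨e2, e3⟩ := Lm_P_inj (Prod.mk.inj e1).1
  rw [Subtype.ext e2, P_inj _ _ e3]

theorem ff_comp : ff.comp Monoid.Coprod.inl = H.subtype := rfl

theorem H_ne_bot : H ≠ ⊥ := by
  intro h
  have := ai_mem 0 le_rfl
  rw [h, Subgroup.mem_bot] at this
  simp [ai, ga] at this

end Pool.Agent.Lib.helper24.RelGrowth
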