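import Pool.Agent.Lib.helper24.RelGrowthA

set_option autoImplicit false

namespace Pool.Agent.Lib.helper24.RelGrowth

open FreeGroup hiding map_mul map_inv map_one map_pure

abbrev W := List (Bool × Bool)

def wt (x : Bool × Bool) : ℤ := if x.1 then (if x.2 then 1 else -1) else 0

def chi (L : W) : ℤ := (L.map wt).sum

theorem chi_nil : chi [] = 0 := rfl
theorem chi_cons (x : Bool × Bool) (L : W) : chi (x :: L) = wt x + chi L := by simp [chi]
theorem chi_append (L K : W) : chi (L ++ K) = chi L + chi K := by simp [chi]

theorem abs_chi_le (L : W) : |chi L| ≤ L.length := by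
  induction L with
  | nil => simp [chi]
  | cons x L ih =>
    rw [chi_cons]
    have : |wt x| ≤ 1 := by
      rcases x with ⟨_ | _, _ | _⟩ <;> simp [wt]
    have h2 := abs_add_le (wt x) (chi L)
    simp only [List.length_cons]
    push_cast
    omega

theorem chi_invRev (L : W) : chi (invRev L) = - chi L := by
  induction L with
  | nil => simp [chi]
  | cons x L ih =>
    rw [invRev_cons, chi_append, ih, chi_cons]
    rcases x with ⟨_ | _, _ | _⟩ <;> simp [wt, chi, invRev]

theorem mk_cons (x : Bool × Bool) (L : W) : (mk (x :: L) : G) = mk [x] * mk L := by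
  rw [mul_mk]; rfl

theorem mk_single (b : Bool) : (mk [(b, true)] : G) = of b ∧ (mk [(b, false)] : G) = (of b)⁻¹ := by
  refine ⟨rfl, ?_⟩
  rw [of, inv_mk]; rfl

theorem memH (L : W) : ∀ m : ℤ, (∀ j, 0 ≤ m + chi (L.take j)) →
    gt ^ m * mk L * gt ^ (-(m + chi L)) ∈ H := by
  induction L with
  | nil =>
    intro m _
    have : (mk [] : G) = 1 := rfl
    simp [chi_nil, this]
  | cons x L ih =>
    intro m hm
    have h0 : 0 ≤ m := by simpa [chi_nil] using hm 0
    have h1 : ∀ j, 0 ≤ (m + wt x) + chi (L.take j) := by
      intro j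
      have := hm (j + 1)
      rw [List.take_succ_cons, chi_cons] at this
      omega
    have h2 := ih _ h1
    rw [mk_cons, chi_cons]
    rcases x with ⟨_ | _, _ | _⟩
    · rw [(mk_single false).2]
      have h3 := H.mul_mem (H.inv_mem (ai_mem m h0)) h2
      convert h3 using 1
      simp only [ai, wt, ga]
      simp
      group
    · rw [(mk_single false).1]
      have h3 := H.mul_mem (ai_mem m h0) h2
      convert h3 using 1
      simp only [ai, wt, ga]
      simp
      group
    · rw [(mk_single true).2]
      convert h2 using 1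
      simp only [wt, gt]
      simp
      group
    · rw [(mk_single true).1]
      convert h2 using 1
      simp only [wt, gt]
      simp
      group

theorem rot_mem (L : W) (h0 : chi L = 0) :
    ∃ k, k ≤ L.length ∧ (mk (L.drop k ++ L.take k) : G) ∈ H := by
  obtain ⟨k, hk, hmin⟩ := Finset.exists_min_image (Finset.range (L.length + 1))
    (fun k => chi (L.take k)) ⟨0, by simp⟩
  have hmin' : ∀ j, chi (L.take k) ≤ chi (L.take j) := by
    intro j
    by_cases hj : j ≤ L.length
    · exact hmin j (by simp; omega)
    · rw [List.take_of_length_le (show L.length ≤ j by omega)]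
      have := hmin L.length (by simp)
      simpa using this
  have hs : chi (L.take k) + chi (L.drop k) = 0 := by
    rw [← chi_append, List.take_append_drop, h0]
  refine ⟨k, by simp at hk; omega, ?_⟩
  have h1 := memH (L.drop k) 0 (by
    intro j
    have := hmin' (k + j)
    rw [List.take_add, chi_append] at this
    omega)
  have h2 := memH (L.take k) (chi (L.drop k)) (by
    intro j
    rw [List.take_take]
    have := hmin' (min j k)
    omega)
  have h3 := H.mul_mem h1 h2
  have h4 : chi (L.drop k) + chi (L.take k) = 0 := by omega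
  rw [h4] at h3
  rw [← mul_mk]
  convert h3 using 1
  group

def hd (w : W) : Bool := (w.head?.map Prod.snd).getD true
def lst (w : W) : Bool := (w.getLast?.map Prod.snd).getD true

def U (e : Bool) (w : W) : W := (true, e) :: (false, hd w) :: (w ++ [(false, lst w)])

def Good (R : W) : Prop := IsReduced R ∧ ∀ y ∈ R.head?, y.1 = true

theorem good_nil : Good [] := ⟨IsReduced.nil, by simp⟩

theorem good_U (e : Bool) (w R : W) (hw : IsReduced w) (hR : Good R) : Good (U e w ++ R) := by
  refine ⟨?_, by simp [U]⟩
  unfold Good FreeGroup.IsReduced at hR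
  unfold FreeGroup.IsReduced at hw ⊢
  have h1 : List.IsChain (fun a b : Bool × Bool ↦ a.1 = b.1 → a.2 = b.2) ((false, lst w) :: R) := by
    rw [List.isChain_cons]
    refine ⟨?_, hR.1⟩
    intro y hy h
    have := hR.2 y hy
    simp [this] at h
  have h2 : List.IsChain (fun a b : Bool × Bool ↦ a.1 = b.1 → a.2 = b.2)
      (w ++ (false, lst w) :: R) := by
    rw [List.isChain_append]
    refine ⟨hw, h1, ?_⟩
    intro x hx y hy _
    simp only [List.head?_cons, Option.mem_def, Option.some.injEq] at hy hx
    subst hy
    simp [lst, hx]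
  have h3 : U e w ++ R = (true, e) :: (false, hd w) :: (w ++ (false, lst w) :: R) := by
    simp [U]
  rw [h3, List.isChain_cons_cons, List.isChain_cons]
  refine ⟨by simp, ?_, h2⟩
  intro y hy _
  cases w with
  | nil =>
    simp only [List.nil_append, List.head?_cons, Option.mem_def, Option.some.injEq] at hy
    subst hy
    simp [hd, lst]
  | cons z w =>
    simp only [List.cons_append, List.head?_cons, Option.mem_def, Option.some.injEq] at hy
    subst hy
    simp [hd]

def WW (g g' : G) : W := U true g.toWord ++ U false (invRev g'.toWord)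

theorem length_U (e : Bool) (w : W) : (U e w).length = w.length + 3 := by simp [U]

theorem length_WW (g g' : G) : (WW g g').length = norm g + norm g' + 6 := by
  simp only [WW, List.length_append, length_U, invRev_length, FreeGroup.norm]; omega

theorem chi_U (e : Bool) (w : W) : chi (U e w) = wt (true, e) + chi w := by
  simp [U, chi_cons, chi_append, wt, chi_nil]

theorem chi_WW (g g' : G) (h : chi g.toWord = chi g'.toWord) : chi (WW g g') = 0 := by
  rw [WW, chi_append, chi_U, chi_U, chi_invRev, h]; simp [wt]; ring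

theorem red_WW (g g' : G) : IsReduced (WW g g' ++ WW g g') := by
  have h1 : IsReduced g.toWord := isReduced_toWord
  have h2 : IsReduced (invRev g'.toWord) := by rw [← toWord_inv]; exact isReduced_toWord
  have := good_U true _ _ h1 (good_U false _ _ h2 (good_U true _ _ h1 (good_U false _ _ h2 good_nil)))
  simpa [WW, List.append_assoc] using this.1

theorem red_rot (L : W) (h : IsReduced (L ++ L)) (k : ℕ) : IsReduced (L.drop k ++ L.take k) := by
  have e : L ++ L = (L.take k ++ (L.drop k ++ L.take k)) ++ L.drop k := by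
    rw [← List.append_assoc, List.take_append_drop, List.append_assoc, List.take_append_drop]
  rw [e] at h
  exact List.IsChain.right_of_append (List.IsChain.left_of_append h)

theorem U_inj {e : Bool} {w w' R R' : W} (hl : w.length = w'.length)
    (h : U e w ++ R = U e w' ++ R') : w = w' ∧ R = R' := by
  obtain ⟨h1, h2⟩ := List.append_inj h (by rw [length_U, length_U, hl])
  refine ⟨?_, h2⟩
  simp only [U, List.cons.injEq] at h1
  exact (List.append_inj h1.2.2 hl).1

theorem WW_inj {g g' f f' : G} (h1 : norm g = norm f) (h2 : norm g' = norm f')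
    (h : WW g g' = WW f f') : g = f ∧ g' = f' := by
  obtain ⟨e1, e2⟩ := U_inj h1 h
  have e3 : U false (invRev g'.toWord) ++ [] = U false (invRev f'.toWord) ++ [] := by rw [e2]
  obtain ⟨e4, -⟩ := U_inj (by simpa [FreeGroup.norm] using h2) e3
  exact ⟨toWord_injective e1, toWord_injective (invRev_injective e4)⟩

theorem rot_inj {L K : W} {k : ℕ} (hl : L.length = K.length)
    (h : L.drop k ++ L.take k = K.drop k ++ K.take k) : L = K := by
  obtain ⟨h1, h2⟩ := List.append_inj h (by simp [hl])
  rw [← List.take_append_drop k L, ← List.take_append_drop k K, h1, h2]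

/-! ### balls -/

def T5 : Finset G := {1, ga, ga⁻¹, gt, gt⁻¹}

open Pointwise in
theorem mk_mem_pow (L : W) : (mk L : G) ∈ T5 ^ L.length := by
  induction L with
  | nil => simp; rfl
  | cons x L ih =>
    rw [List.length_cons, pow_succ', mk_cons]
    refine Finset.mul_mem_mul ?_ ih
    rcases x with ⟨_ | _, _ | _⟩
    · rw [(mk_single false).2]; simp [T5, ga]
    · rw [(mk_single false).1]; simp [T5, ga]
    · rw [(mk_single true).2]; simp [T5, gt]
    · rw [(mk_single true).1]; simp [T5, gt]

open Pointwise in
noncomputable def ball (n : ℕ) : Finset G := (T5 ^ n).filter (fun g => norm g ≤ n)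

open Pointwise in
theorem mem_ball (n : ℕ) (g : G) : g ∈ ball n ↔ norm g ≤ n := by
  rw [ball, Finset.mem_filter]
  refine ⟨fun h => h.2, fun h => ⟨?_, h⟩⟩
  have := mk_mem_pow g.toWord
  rw [mk_toWord] at this
  exact Finset.pow_subset_pow_right (by simp [T5]) h this

open Pointwise in
theorem card_ball_le (n : ℕ) : (ball n).card ≤ 5 ^ n := by
  refine (Finset.card_filter_le _ _).trans (Finset.card_pow_le.trans ?_)
  exact Nat.pow_le_pow_left Finset.card_le_five n

open Classical in
noncomputable def hball (n : ℕ) : Finset G := (ball n).filter (fun g => g ∈ H)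

theorem mem_hball (n : ℕ) (g : G) : g ∈ hball n ↔ norm g ≤ n ∧ g ∈ H := by
  classical
  rw [hball, Finset.mem_filter, mem_ball]

theorem card_hball_le (n : ℕ) : (hball n).card ≤ 5 ^ n := by
  classical
  exact (Finset.card_filter_le _ _).trans (card_ball_le n)

theorem pairs_le (l r : ℕ) (hr : r ≤ l) (c : ℤ) (A : Finset G)
    (hA : ∀ g ∈ A, norm g = r ∧ chi g.toWord = c) :
    A.card ^ 2 ≤ (hball (2 * l + 6)).card * (2 * l + 7) := by
  classical
  have hex : ∀ p : G × G, ∃ k : ℕ, p ∈ A ×ˢ A → k ≤ (WW p.1 p.2).length ∧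
      (mk ((WW p.1 p.2).drop k ++ (WW p.1 p.2).take k) : G) ∈ H := by
    intro p
    by_cases hp : p ∈ A ×ˢ A
    · rw [Finset.mem_product] at hp
      obtain ⟨k, hk⟩ := rot_mem (WW p.1 p.2) (chi_WW _ _ (by rw [(hA _ hp.1).2, (hA _ hp.2).2]))
      exact ⟨k, fun _ => hk⟩
    · exact ⟨0, fun h => absurd h hp⟩
  choose k hk using hex
  have key := Finset.card_le_card_of_injOn (s := A ×ˢ A)
    (t := hball (2 * l + 6) ×ˢ Finset.range (2 * l + 7))
    (fun p => ((mk ((WW p.1 p.2).drop (k p) ++ (WW p.1 p.2).take (k p)) : G), k p)) ?_ ?_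
  · simpa [Finset.card_product, sq] using key
  · intro p hp
    have hp' : p ∈ A ×ˢ A := by simpa using hp
    have hl : (WW p.1 p.2).length ≤ 2 * l + 6 := by
      have hp2 := Finset.mem_product.1 hp'
      rw [length_WW, (hA _ hp2.1).1, (hA _ hp2.2).1]; omega
    obtain ⟨h1, h2⟩ := hk p hp'
    simp only [Finset.coe_product, Set.mem_prod, Finset.mem_coe, mem_hball, Finset.mem_range]
    refine ⟨⟨norm_mk_le.trans ?_, h2⟩, by omega⟩
    simp only [List.length_append, List.length_drop, List.length_take]
    omega
  · intro p hp q hq e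
    have hp' := Finset.mem_product.1 (show p ∈ A ×ˢ A by simpa using hp)
    have hq' := Finset.mem_product.1 (show q ∈ A ×ˢ A by simpa using hq)
    obtain ⟨e1, e2⟩ := Prod.mk.inj e
    have e3 := congrArg toWord e1
    rw [toWord_mk, toWord_mk, (red_rot _ (red_WW _ _) _).reduce_eq,
      (red_rot _ (red_WW _ _) _).reduce_eq, e2] at e3
    have n1 : norm p.1 = norm q.1 := by rw [(hA _ hp'.1).1, (hA _ hq'.1).1]
    have n2 : norm p.2 = norm q.2 := by rw [(hA _ hp'.2).1, (hA _ hq'.2).1]
    have e4 := rot_inj (by rw [length_WW, length_WW, n1, n2]) e3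
    obtain ⟨e5, e6⟩ := WW_inj n1 n2 e4
    exact Prod.ext e5 e6

theorem ball_sq_le (l : ℕ) : (ball l).card ^ 2 ≤
    (hball (2 * l + 6)).card * ((2 * l + 7) * ((l + 1) * (2 * l + 1)) ^ 2) := by
  classical
  let t : Finset (ℕ × ℤ) := Finset.range (l + 1) ×ˢ Finset.Icc (-(l : ℤ)) l
  have ht : t.card = (l + 1) * (2 * l + 1) := by
    simp only [t, Finset.card_product, Finset.card_range, Int.card_Icc]
    congr 1
    omega
  let φ : G → ℕ × ℤ := fun g => (norm g, chi g.toWord)
  have hmaps : ∀ g ∈ ball l, φ g ∈ t := by
    intro g hg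
    rw [mem_ball] at hg
    have := abs_chi_le g.toWord
    have h2 : (g.toWord.length : ℤ) ≤ l := by exact_mod_cast hg
    rw [abs_le] at this
    simp only [t, φ, Finset.mem_product, Finset.mem_range, Finset.mem_Icc]
    omega
  obtain ⟨y, hy, hmax⟩ := Finset.exists_max_image t
    (fun y => ((ball l).filter (fun g => φ g = y)).card) ⟨(0, 0), by simp [t]⟩
  have h1 : (ball l).card ≤ ((ball l).filter (fun g => φ g = y)).card * t.card :=
    Finset.card_le_mul_card_image_of_maps_to hmaps _ hmax
  have h2 := pairs_le l y.1 (by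
    simp only [t, Finset.mem_product, Finset.mem_range] at hy; omega) y.2
    ((ball l).filter (fun g => φ g = y)) (by
      intro g hg
      have := (Finset.mem_filter.1 hg).2
      exact ⟨congrArg Prod.fst this, congrArg Prod.snd this⟩)
  rw [ht] at h1
  calc (ball l).card ^ 2 ≤ (((ball l).filter (fun g => φ g = y)).card * ((l + 1) * (2 * l + 1))) ^ 2 :=
        Nat.pow_le_pow_left h1 2
    _ = ((ball l).filter (fun g => φ g = y)).card ^ 2 * ((l + 1) * (2 * l + 1)) ^ 2 := by ring
    _ ≤ ((hball (2 * l + 6)).card * (2 * l + 7)) * ((l + 1) * (2 * l + 1)) ^ 2 :=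
        Nat.mul_le_mul_right _ h2
    _ = _ := by ring

end Pool.Agent.Lib.helper24.RelGrowth
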