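import Pool.Agent.Lib.helper24.RelGrowthB

set_option autoImplicit false

namespace Pool.Agent.Lib.helper24.RelGrowth

open FreeGroup hiding map_mul map_inv map_one map_pure
open Filter Topology

def SS : Finset G := {ga, gt}

theorem closure_SS : Subgroup.closure (SS : Set G) = ⊤ := by
  have : (SS : Set G) = Set.range (FreeGroup.of : Bool → G) := by
    ext g; simp [SS, ga, gt, eq_comm]
  rw [this, FreeGroup.closure_range_of]

theorem words_iff (n : ℕ) (g : G) : (∃ l : List G, l.length ≤ n ∧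
    (∀ x ∈ l, x ∈ SS ∨ x⁻¹ ∈ SS) ∧ l.prod = g) ↔ FreeGroup.norm g ≤ n := by
  constructor
  · rintro ⟨l, hl, hx, rfl⟩
    refine le_trans ?_ hl
    clear hl
    induction l with
    | nil => simp
    | cons x l ih =>
      rw [List.prod_cons, List.length_cons]
      have h1 : FreeGroup.norm x ≤ 1 := by
        rcases hx x (by simp) with h | h
        · simp only [SS, Finset.mem_insert, Finset.mem_singleton] at h
          rcases h with rfl | rfl <;> simp [ga, gt]
        · rw [← norm_inv_eq]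
          simp only [SS, Finset.mem_insert, Finset.mem_singleton] at h
          rcases h with h | h <;> rw [h] <;> simp [ga, gt]
      have h2 := ih (fun y hy => hx y (by simp [hy]))
      have h3 := FreeGroup.norm_mul_le x l.prod
      omega
  · intro h
    refine ⟨g.toWord.map (fun x => mk [x]), by simpa [FreeGroup.norm] using h, ?_, ?_⟩
    · intro x hx
      obtain ⟨y, -, rfl⟩ := List.mem_map.1 hx
      rcases y with ⟨_ | _, _ | _⟩
      · rw [(mk_single false).2]; simp [SS, ga]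
      · rw [(mk_single false).1]; simp [SS, ga]
      · rw [(mk_single true).2]; simp [SS, gt]
      · rw [(mk_single true).1]; simp [SS, gt]
    · conv_rhs => rw [← mk_toWord (x := g)]
      generalize g.toWord = L
      induction L with
      | nil => rfl
      | cons x L ih => rw [List.map_cons, List.prod_cons, ih, ← mk_cons]

theorem ncard_ball (n : ℕ) : Set.ncard {g : G | ∃ l : List G, l.length ≤ n ∧
    (∀ x ∈ l, x ∈ SS ∨ x⁻¹ ∈ SS) ∧ l.prod = g} = (ball n).card := by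
  rw [← Set.ncard_coe_finset]
  congr 1
  ext g
  rw [Set.mem_setOf_eq, words_iff, Finset.mem_coe, mem_ball]

theorem ncard_hball (n : ℕ) : Set.ncard {g : G | g ∈ H ∧ ∃ l : List G, l.length ≤ n ∧
    (∀ x ∈ l, x ∈ SS ∨ x⁻¹ ∈ SS) ∧ l.prod = g} = (hball n).card := by
  rw [← Set.ncard_coe_finset]
  congr 1
  ext g
  rw [Set.mem_setOf_eq, words_iff, Finset.mem_coe, mem_hball, and_comm]

theorem root_pow (c : ℕ) (n : ℕ) (hn : n ≠ 0) : (((c : ℝ)) ^ ((1 : ℝ) / (n : ℝ))) ^ n = c := by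
  rw [one_div]
  exact Real.rpow_inv_natCast_pow (Nat.cast_nonneg c) hn

theorem analysis (h b : ℕ → ℕ) (hb : ∀ n, h n ≤ 5 ^ n)
    (key : ∀ l, b l ^ 2 ≤ h (2 * l + 6) * ((2 * l + 7) * ((l + 1) * (2 * l + 1)) ^ 2)) :
    ¬ (limsup (fun n : ℕ => ((h n : ℕ) : ℝ) ^ ((1 : ℝ) / (n : ℝ))) atTop <
      limsup (fun n : ℕ => ((b n : ℕ) : ℝ) ^ ((1 : ℝ) / (n : ℝ))) atTop) := by
  intro hlt
  obtain ⟨x, hx1, hx2⟩ := exists_between hlt
  obtain ⟨y, hy1, hy2⟩ := exists_between hx2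
  have hbd : IsBoundedUnder (· ≤ ·) atTop (fun n : ℕ => ((h n : ℕ) : ℝ) ^ ((1 : ℝ) / (n : ℝ))) := by
    refine ⟨5, ?_⟩
    rw [eventually_map]
    filter_upwards [eventually_gt_atTop 0] with n hn
    refine le_of_pow_le_pow_left₀ hn.ne' (by norm_num) ?_
    rw [root_pow _ _ hn.ne']
    exact_mod_cast hb n
  have hcb : IsCoboundedUnder (· ≤ ·) atTop (fun n : ℕ => ((b n : ℕ) : ℝ) ^ ((1 : ℝ) / (n : ℝ))) :=
    isCoboundedUnder_le_of_le atTop (x := 0) (fun n => by positivity)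
  have e1 := eventually_lt_of_limsup_lt hx1 hbd
  have e2 := frequently_lt_of_lt_limsup hcb hy2
  have hx0 : 0 < x := by
    obtain ⟨n, hn⟩ := e1.exists
    exact lt_of_le_of_lt (by positivity) hn
  have hy0 : 0 < y := hx0.trans hy1
  have e3 : ∀ᶠ n : ℕ in atTop, (h n : ℝ) ≤ x ^ n := by
    filter_upwards [e1, eventually_gt_atTop 0] with n hn hn0
    rw [← root_pow (h n) n hn0.ne']
    exact pow_le_pow_left₀ (by positivity) hn.le n
  have e4 : ∀ᶠ l : ℕ in atTop, (h (2 * l + 6) : ℝ) ≤ x ^ (2 * l + 6) := by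
    refine (show Tendsto (fun l : ℕ => 2 * l + 6) atTop atTop from ?_).eventually e3
    exact tendsto_atTop_mono (fun l => by simp; omega) tendsto_id
  have hr : 1 < (y / x) ^ 2 := by
    have : 1 < y / x := by rw [one_lt_div hx0]; exact hy1
    nlinarith
  have e5 := (tendsto_pow_const_div_const_pow_of_one_lt 5 hr).eventually
    (gt_mem_nhds (show (0 : ℝ) < 1 / (324 * x ^ 6) by positivity))
  obtain ⟨l, hl1, hl2, hl3, hl4⟩ := (e2.and_eventually (e4.and (e5.and (eventually_gt_atTop 0)))).exists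
  have k1 : y ^ l ≤ b l := by
    rw [← root_pow (b l) l hl4.ne']
    exact pow_le_pow_left₀ hy0.le hl1.le l
  have k2 : ((b l : ℝ)) ^ 2 ≤ h (2 * l + 6) * ((2 * l + 7) * ((l + 1) * (2 * l + 1)) ^ 2) := by
    exact_mod_cast key l
  have hl1' : (1 : ℝ) ≤ l := by exact_mod_cast hl4
  have k3 : ((2 * l + 7) * ((l + 1) * (2 * l + 1)) ^ 2 : ℝ) ≤ 324 * (l : ℝ) ^ 5 := by
    calc ((2 * l + 7) * ((l + 1) * (2 * l + 1)) ^ 2 : ℝ) ≤ (9 * l) * ((2 * l) * (3 * l)) ^ 2 := by
          gcongr <;> linarith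
      _ = _ := by ring
  have k4 : (y ^ l) ^ 2 ≤ x ^ (2 * l + 6) * (324 * (l : ℝ) ^ 5) :=
    calc (y ^ l) ^ 2 ≤ (b l : ℝ) ^ 2 := by gcongr
      _ ≤ _ := k2
      _ ≤ _ := by gcongr
  rw [div_lt_div_iff₀ (by positivity) (by positivity)] at hl3
  have k5 : ((y / x) ^ 2) ^ l * x ^ (2 * l) = (y ^ l) ^ 2 := by
    rw [← pow_mul, ← mul_pow, div_mul_cancel₀ _ hx0.ne', ← pow_mul, mul_comm]
  have k6 : (0 : ℝ) < x ^ (2 * l) := by positivity
  have k7 := mul_lt_mul_of_pos_right hl3 k6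
  rw [one_mul, k5] at k7
  have k8 : x ^ (2 * l + 6) * (324 * (l : ℝ) ^ 5) = (l : ℝ) ^ 5 * (324 * x ^ 6) * x ^ (2 * l) := by
    ring
  linarith

end Pool.Agent.Lib.helper24.RelGrowth
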