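import Mathlib

set_option autoImplicit false

namespace Pool.Agent.ResGen

/-- The verbal subgroup of the free group of rank `m` for the set of laws `W`. -/
def verbal (W : Set (FreeGroup ℕ)) (m : ℕ) : Subgroup (FreeGroup (Fin m)) :=
  Subgroup.normalClosure {u | ∃ w ∈ W, ∃ φ : FreeGroup ℕ →* FreeGroup (Fin m), φ w = u}

instance (W : Set (FreeGroup ℕ)) (m : ℕ) : (verbal W m).Normal :=
  Subgroup.normalClosure_normal

/-- The relatively free group of rank `m` of the variety defined by `W`. -/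
abbrev RelFree (W : Set (FreeGroup ℕ)) (m : ℕ) : Type := FreeGroup (Fin m) ⧸ verbal W m

/-- The laws of a group. -/
def laws (G : Type) [Group G] : Set (FreeGroup ℕ) := {w | ∀ φ : FreeGroup ℕ →* G, φ w = 1}

/-- `G` generates the variety defined by `W`. -/
def Generates (G : Type) [Group G] (W : Set (FreeGroup ℕ)) : Prop :=
  ∀ (H : Type) [Group H], laws G ⊆ laws H ↔ W ⊆ laws H

/-- `G` is generated by at most `k` elements. -/
def KGen (k : ℕ) (G : Type) [Group G] : Prop :=
  ∃ f : Fin k → G, Subgroup.closure (Set.range f) = ⊤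

/-! The group `K = C4 wr C2`, the group `Q = C4 ∘ D8`, and `E = F5² ⋊ K`. -/

def K : Type := Bool × Fin 4 × Fin 4
instance : Fintype K := inferInstanceAs (Fintype (Bool × Fin 4 × Fin 4))
instance : DecidableEq K := inferInstanceAs (DecidableEq (Bool × Fin 4 × Fin 4))
instance : Mul K := ⟨fun k l => if k.1 then (!l.1, k.2.1 + l.2.2, k.2.2 + l.2.1)
  else (l.1, k.2.1 + l.2.1, k.2.2 + l.2.2)⟩
instance : One K := ⟨(false, 0, 0)⟩
instance : Inv K := ⟨fun k => if k.1 then (true, -k.2.2, -k.2.1) else (false, -k.2.1, -k.2.2)⟩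
instance : Group K := Group.ofLeftAxioms (by decide +kernel) (by decide +kernel) (by decide +kernel)
def neg : K := (false, 2, 2)

def Q : Type := Fin 2 × Fin 2 × Fin 4
instance : Fintype Q := inferInstanceAs (Fintype (Fin 2 × Fin 2 × Fin 4))
instance : DecidableEq Q := inferInstanceAs (DecidableEq (Fin 2 × Fin 2 × Fin 4))
instance : Mul Q := ⟨fun p q => (p.1 + q.1, p.2.1 + q.2.1,
  p.2.2 + q.2.2 + if p.2.1 = 1 ∧ q.1 = 1 then 2 else 0)⟩
instance : One Q := ⟨(0, 0, 0)⟩
instance : Inv Q := ⟨fun p => (p.1, p.2.1, -p.2.2 + if p.2.1 = 1 ∧ p.1 = 1 then 2 else 0)⟩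
instance : Group Q := Group.ofLeftAxioms (by decide +kernel) (by decide +kernel) (by decide +kernel)
def qx : Q := (1, 0, 0)
def qy : Q := (0, 1, 0)
def qz : Q := (0, 0, 1)
def qn : Q := (0, 0, 2)

def M : Type := ZMod 5 × ZMod 5
instance : AddCommGroup M := inferInstanceAs (AddCommGroup (ZMod 5 × ZMod 5))
instance : Fintype M := inferInstanceAs (Fintype (ZMod 5 × ZMod 5))
instance : DecidableEq M := inferInstanceAs (DecidableEq (ZMod 5 × ZMod 5))
def act (k : K) (m : M) : M :=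
  if k.1 then ((2 : ZMod 5) ^ k.2.1.val * m.2, (2 : ZMod 5) ^ k.2.2.val * m.1)
  else ((2 : ZMod 5) ^ k.2.1.val * m.1, (2 : ZMod 5) ^ k.2.2.val * m.2)
theorem act_mul : ∀ (k l : K) (m : M), act (k * l) m = act k (act l m) := by decide +kernel
theorem act_add : ∀ (k : K) (m n : M), act k (m + n) = act k m + act k n := by decide +kernel
theorem act_one : ∀ m : M, act 1 m = m := by decide +kernel
theorem act_zero : ∀ k : K, act k 0 = 0 := by decide +kernel
theorem act_neg : ∀ m : M, m + act neg m = 0 := by decide +kernel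
theorem act_inv : ∀ (k : K) (m : M), -act k⁻¹ m + act k⁻¹ m = 0 := fun _ _ => neg_add_cancel _
theorem five : ∀ m : M, m + m + m + m + m = 0 := by decide +kernel

def E : Type := M × K
instance : DecidableEq E := inferInstanceAs (DecidableEq (M × K))
instance : Mul E := ⟨fun g h => (g.1 + act g.2 h.1, g.2 * h.2)⟩
instance : One E := ⟨(0, 1)⟩
instance : Inv E := ⟨fun g => (-act g.2⁻¹ g.1, g.2⁻¹)⟩
theorem e1 (g h : E) : (g * h).1 = g.1 + act g.2 h.1 := rfl
theorem e2 (g h : E) : (g * h).2 = g.2 * h.2 := rfl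
instance : Group E := Group.ofLeftAxioms
  (fun a b c => Prod.ext (by rw [e1, e1, e1, e1, e2, act_mul, act_add, add_assoc])
    (mul_assoc a.2 b.2 c.2))
  (fun a => Prod.ext ((zero_add _).trans (act_one a.1)) (one_mul a.2))
  (fun a => Prod.ext (act_inv a.2 a.1) (inv_mul_cancel a.2))
def rho : E →* K := MonoidHom.mk' Prod.snd fun _ _ => rfl
def j (m : M) : E := (m, 1)
theorem j_mul (m n : M) : j m * j n = j (m + n) :=
  Prod.ext (by rw [e1]; exact congrArg _ (act_one n)) (one_mul _)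
theorem conj (g : E) (m : M) : g * j m * g⁻¹ = j (act (rho g) m) := by
  rw [mul_inv_eq_iff_eq_mul]
  refine Prod.ext ?_ ((mul_one g.2).trans (one_mul g.2).symm)
  rw [e1, e1]
  exact (add_comm _ _).trans (congrArg _ (act_one g.1).symm)
theorem j_inv (m : M) : (j m)⁻¹ = j (-m) := by
  rw [inv_eq_iff_mul_eq_one, j_mul, add_neg_cancel]; rfl

def opA {G : Type} [Group G] (g v : G) : G := v * (g * v * g⁻¹)
def opB {G : Type} [Group G] (g v : G) : G := v * (g * v * g⁻¹)⁻¹
def cm {G : Type} [Group G] (x y : G) : G := x * y * x⁻¹ * y⁻¹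

def wd {G : Type} [Group G] (x y z : G) : G :=
  opB (cm x y) (opA (cm x y * cm x y) (opA (x * x) (opA (x * x * (x * x)) (opA (y * y)
    (opA (y * y * (y * y)) (opA (cm x z) (opA (cm x z * cm x z) (opA (cm y z)
      (opA (cm y z * cm y z) (opB (z * z) (x ^ 8)))))))))))

theorem map_wd {G H : Type} [Group G] [Group H] (f : G →* H) (x y z : G) :
    f (wd x y z) = wd (f x) (f y) (f z) := by
  simp only [wd, opA, opB, cm, map_mul, map_inv, map_pow]

theorem map_cm {G H : Type} [Group G] [Group H] (f : G →* H) (x y : G) :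
    f (cm x y) = cm (f x) (f y) := by
  simp only [cm, map_mul, map_inv]

/-- `v` lies in `M`, and it is trivial unless `P` holds. -/
def Ok (v : E) (P : Prop) : Prop := ∃ m, v = j m ∧ (m = 0 ∨ P)

theorem okA {v : E} {P : Prop} (g : E) (h : Ok v P) : Ok (opA g v) (rho g ≠ neg ∧ P) := by
  obtain ⟨m, rfl, h⟩ := h
  refine ⟨m + act (rho g) m, by rw [opA, conj, j_mul], ?_⟩
  rcases h with rfl | h
  · left; rw [act_zero, add_zero]
  · by_cases hg : rho g = neg
    · left; rw [hg, act_neg]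
    · right; exact ⟨hg, h⟩

theorem okB {v : E} {P : Prop} (g : E) (h : Ok v P) : Ok (opB g v) (rho g ≠ 1 ∧ P) := by
  obtain ⟨m, rfl, h⟩ := h
  refine ⟨m + -act (rho g) m, by rw [opB, conj, j_inv, j_mul], ?_⟩
  rcases h with rfl | h
  · left; rw [act_zero, neg_zero, add_zero]
  · by_cases hg : rho g = 1
    · left; rw [hg, act_one, add_neg_cancel]
    · right; exact ⟨hg, h⟩

theorem k8 : ∀ k : K, k ^ 8 = 1 := by decide +kernel

def io (x y z : K) (q : Q) : K := x ^ q.1.val * y ^ q.2.1.val * z ^ q.2.2.val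

theorem good : ∀ x y : K, cm x y ≠ 1 → cm x y * cm x y ≠ neg → x * x ≠ neg →
    x * x * (x * x) ≠ neg → y * y ≠ neg → y * y * (y * y) ≠ neg → ∀ z : K, cm x z ≠ neg →
    cm x z * cm x z ≠ neg → cm y z ≠ neg → cm y z * cm y z ≠ neg → z * z ≠ 1 →
    io x y z qn = neg ∧ io x y z qx = x ∧ io x y z qy = y ∧ io x y z qz = z ∧
      ∀ p q : Q, io x y z (p * q) = io x y z p * io x y z q := by decide +kernel

def gx : FreeGroup (Fin 3) := FreeGroup.of 0
def gy : FreeGroup (Fin 3) := FreeGroup.of 1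
def gz : FreeGroup (Fin 3) := FreeGroup.of 2
def tau : FreeGroup (Fin 3) →* Q := FreeGroup.lift ![qx, qy, qz]
theorem tx : tau gx = qx := FreeGroup.lift_apply_of
theorem ty : tau gy = qy := FreeGroup.lift_apply_of
theorem tz : tau gz = qz := FreeGroup.lift_apply_of

theorem key (θ : FreeGroup (Fin 3) →* E) (n : FreeGroup (Fin 3)) (hn : tau n = qn) :
    θ (opA n (wd gx gy gz)) = 1 ∧ θ (wd gx gy gz ^ 5) = 1 := by
  have h0 : Ok (θ gx ^ 8) True := ⟨(θ gx ^ 8).1, Prod.ext rfl ((map_pow rho _ _).trans (k8 _)),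
    Or.inr trivial⟩
  obtain ⟨m, hm, h⟩ := okB (cm (θ gx) (θ gy)) (okA (cm (θ gx) (θ gy) * cm (θ gx) (θ gy))
    (okA (θ gx * θ gx) (okA (θ gx * θ gx * (θ gx * θ gx)) (okA (θ gy * θ gy)
    (okA (θ gy * θ gy * (θ gy * θ gy)) (okA (cm (θ gx) (θ gz))
    (okA (cm (θ gx) (θ gz) * cm (θ gx) (θ gz)) (okA (cm (θ gy) (θ gz))
    (okA (cm (θ gy) (θ gz) * cm (θ gy) (θ gz)) (okB (θ gz * θ gz) h0))))))))))
  have hw : θ (wd gx gy gz) = j m := (map_wd θ _ _ _).trans hm
  constructor
  · rw [opA, map_mul, map_mul, map_mul, map_inv, hw, conj, j_mul]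
    rcases h with rfl | h
    · rw [act_zero, add_zero]; rfl
    · simp only [map_mul, map_cm] at h
      obtain ⟨h1, h2, h3, h4, h5, h6, h7, h8, h9, h10, h11, -⟩ := h
      obtain ⟨g1, g2, g3, g4, g5⟩ := good _ _ h1 h2 h3 h4 h5 h6 _ h7 h8 h9 h10 h11
      have h12 : rho.comp θ = (MonoidHom.mk' _ g5).comp tau := by
        refine FreeGroup.ext_hom _ _ fun i => ?_
        fin_cases i
        · exact g2.symm.trans (congrArg _ tx.symm)
        · exact g3.symm.trans (congrArg _ ty.symm)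
        · exact g4.symm.trans (congrArg _ tz.symm)
      have h13 : rho (θ n) = neg := by
        have := DFunLike.congr_fun h12 n
        rw [MonoidHom.comp_apply, MonoidHom.comp_apply, hn] at this
        exact this.trans g1
      rw [h13, act_neg]; rfl
  · rw [map_pow, hw, pow_succ, pow_succ, pow_succ, pow_succ, pow_one, j_mul, j_mul, j_mul, j_mul,
      five]
    rfl

def par (l : Fin 2 × Fin 2 × Fin 2) (q : Q) : Prop :=
  (l.1.val * q.1.val + l.2.1.val * q.2.1.val + l.2.2.val * q.2.2.val) % 2 = 0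
instance (l : Fin 2 × Fin 2 × Fin 2) (q : Q) : Decidable (par l q) :=
  inferInstanceAs (Decidable (_ = _))
theorem par_mul : ∀ l, ∀ p q : Q, par l p → par l q → par l (p * q) := by decide +kernel
theorem par_one : ∀ l, par l 1 := by decide +kernel
theorem par_inv : ∀ l, ∀ p : Q, par l p → par l p⁻¹ := by decide +kernel
def parS (l : Fin 2 × Fin 2 × Fin 2) : Subgroup Q where
  carrier := {q | par l q}
  mul_mem' := par_mul l _ _
  one_mem' := par_one l
  inv_mem' := par_inv l _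
theorem par_ex : ∀ p q : Q, ∃ l, par l p ∧ par l q ∧ ¬ (par l qx ∧ par l qy ∧ par l qz) := by
  decide +kernel
theorem mono : ∀ q : Q, q = 1 ∨ q = qn ∨ q * q = qn ∨ cm q qx = qn ∨ cm q qy = qn := by
  decide +kernel

theorem exn {B : Type} [Group B] (ψ : FreeGroup (Fin 3) →* B) (hψ : Function.Surjective ψ)
    (hB : KGen 2 B) : ∃ n, ψ n = 1 ∧ tau n = qn := by
  by_contra hc
  push Not at hc
  have h1 : ∀ n, ψ n = 1 → tau n = 1 := by
    intro n hn
    rcases mono (tau n) with h | h | h | h | h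
    · exact h
    · exact absurd h (hc n hn)
    · exact absurd ((map_mul _ _ _).trans h) (hc (n * n) (by rw [map_mul, hn, one_mul]))
    · exact absurd (by rw [map_cm, tx, h]) (hc (cm n gx) (by simp [cm, hn]))
    · exact absurd (by rw [map_cm, ty, h]) (hc (cm n gy) (by simp [cm, hn]))
  obtain ⟨f, hf⟩ := hB
  choose c hc using fun i => hψ (f i)
  obtain ⟨l, l0, l1, hl⟩ := par_ex (tau (c 0)) (tau (c 1))
  have h2 : ((parS l).comap tau).map ψ = ⊤ := by
    rw [eq_top_iff, ← hf, Subgroup.closure_le]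
    rintro _ ⟨i, rfl⟩
    refine ⟨c i, ?_, hc i⟩
    fin_cases i
    · exact l0
    · exact l1
  have h3 : ∀ g, par l (tau g) := by
    intro g
    obtain ⟨u, hu, hu'⟩ : ψ g ∈ ((parS l).comap tau).map ψ := h2 ▸ Subgroup.mem_top _
    have h4 := h1 (u⁻¹ * g) (by rw [map_mul, map_inv, hu', inv_mul_cancel])
    rw [map_mul, map_inv, inv_mul_eq_one] at h4
    rw [← h4]; exact hu
  exact hl ⟨tx ▸ h3 gx, ty ▸ h3 gy, tz ▸ h3 gz⟩

def ea : E := ((1, 0), (true, 0, 0))
def eb : E := (0, (false, 1, 0))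
def eta : FreeGroup (Fin 2) →* E := FreeGroup.lift ![ea, eb]
def WW : Set (FreeGroup ℕ) := {w | ∀ f : FreeGroup ℕ →* FreeGroup (Fin 2), eta (f w) = 1}

theorem wd_ne : wd ea (eb * eb) (ea * eb * ea * eb) ≠ 1 := by decide +kernel

theorem verbal_ker {m : ℕ} (f : FreeGroup (Fin m) →* FreeGroup (Fin 2)) :
    verbal WW m ≤ (eta.comp f).ker := by
  refine Subgroup.normalClosure_le_normal ?_
  rintro _ ⟨w, hw, φ, rfl⟩
  exact hw (f.comp φ)

theorem mem_verbal (u : FreeGroup (Fin 3)) (hu : ∀ θ : FreeGroup (Fin 3) →* E, θ u = 1) :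
    u ∈ verbal WW 3 := by
  refine Subgroup.subset_normalClosure ⟨FreeGroup.map Fin.val u,
    fun f => hu (eta.comp (f.comp (FreeGroup.map Fin.val))),
    FreeGroup.map (fun i => (⟨i % 3, Nat.mod_lt _ (by norm_num)⟩ : Fin 3)), ?_⟩
  rw [FreeGroup.map.comp]
  have : ((fun i => (⟨i % 3, Nat.mod_lt _ (by norm_num)⟩ : Fin 3)) ∘ (Fin.val : Fin 3 → ℕ)) = id := by
    funext i; fin_cases i <;> rfl
  rw [this, FreeGroup.map.id]

theorem laws_eq : laws (RelFree WW 2) = WW := by
  ext w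
  constructor
  · intro h f
    have h1 := h ((QuotientGroup.mk' (verbal WW 2)).comp f)
    exact verbal_ker (MonoidHom.id _) ((QuotientGroup.eq_one_iff _).mp h1)
  · intro h φ
    choose c hc using fun i => QuotientGroup.mk'_surjective (verbal WW 2) (φ (FreeGroup.of i))
    have h1 : φ = (QuotientGroup.mk' (verbal WW 2)).comp (FreeGroup.lift c) :=
      FreeGroup.ext_hom _ _ fun i => by rw [MonoidHom.comp_apply, FreeGroup.lift_apply_of, hc]
    rw [h1]
    exact (QuotientGroup.eq_one_iff _).mpr (Subgroup.subset_normalClosure ⟨w, h, _, rfl⟩)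

def f0 : FreeGroup (Fin 3) →* FreeGroup (Fin 2) :=
  FreeGroup.lift ![FreeGroup.of 0, FreeGroup.of 1 * FreeGroup.of 1,
    FreeGroup.of 0 * FreeGroup.of 1 * FreeGroup.of 0 * FreeGroup.of 1]
theorem f0x : (eta.comp f0) gx = ea := by simp [gx, f0, eta]
theorem f0y : (eta.comp f0) gy = eb * eb := by simp [gy, f0, eta]
theorem f0z : (eta.comp f0) gz = ea * eb * ea * eb := by simp [gz, f0, eta]

theorem main : Generates (RelFree WW 2) WW ∧ ∃ g : RelFree WW 3, g ≠ 1 ∧
    ∀ (N : Subgroup (RelFree WW 3)) [N.Normal], KGen 2 (RelFree WW 3 ⧸ N) → g ∈ N := by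
  refine ⟨fun H _ => by rw [laws_eq], QuotientGroup.mk' _ (wd gx gy gz), fun h => wd_ne ?_,
    fun N _ hN => ?_⟩
  · have h1 := verbal_ker f0 ((QuotientGroup.eq_one_iff _).mp h)
    rw [MonoidHom.mem_ker, map_wd, f0x, f0y, f0z] at h1
    exact h1
  · let ψ := (QuotientGroup.mk' N).comp (QuotientGroup.mk' (verbal WW 3))
    obtain ⟨n, hn, hn'⟩ := exn ψ
      ((QuotientGroup.mk'_surjective N).comp (QuotientGroup.mk'_surjective _)) hN
    have h1 : ∀ u ∈ verbal WW 3, ψ u = 1 := fun u hu =>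
      (congrArg (QuotientGroup.mk' N) ((QuotientGroup.eq_one_iff u).mpr hu)).trans (map_one _)
    have h2 := h1 _ (mem_verbal _ fun θ => (key θ n hn').1)
    have h3 := h1 _ (mem_verbal _ fun θ => (key θ n hn').2)
    rw [opA, map_mul, map_mul, map_mul, map_inv, hn, one_mul, inv_one, mul_one] at h2
    rw [map_pow] at h3
    have h4 : ψ (wd gx gy gz) = 1 := by
      generalize ψ (wd gx gy gz) = t at h2 h3
      rw [pow_succ, pow_succ, pow_succ, pow_succ, pow_one, h2, one_mul, h2, one_mul] at h3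
      exact h3
    exact (QuotientGroup.eq_one_iff _).mp h4

end Pool.Agent.ResGen
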