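import Pool.Agent.Lib.helper24.FreeVar

set_option autoImplicit false

namespace Pool.Agent.Retract
open Polynomial FreeNonUnitalNonAssocAlgebra Pool.Agent.FreeVar

/-- The variables of a nonassociative monomial, with multiplicity. -/
def leaves : FreeMagma ℕ → Multiset ℕ
  | .of i => {i}
  | .mul u v => leaves u + leaves v

/-- Every monomial of `f` contains each of `x_0, …, x_{n-1}` exactly once and nothing else. -/
def Multilinear {k : Type} [CommRing k] (f : FreeNonUnitalNonAssocAlgebra k ℕ) : Prop :=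
  ∃ n : ℕ, ∀ w ∈ f.coeff.support, leaves w = Multiset.range n

variable (k : Type) [Field k]

noncomputable def mon (w : FreeMagma ℕ) : FreeNonUnitalNonAssocAlgebra k ℕ :=
  MonoidAlgebra.single w 1

def xx (i : ℕ) : FreeMagma ℕ := .of i

noncomputable def f1 := mon k ((xx 0 * xx 1) * (xx 2 * xx 3))
noncomputable def f2 := mon k (xx 2 * ((xx 0 * xx 1) * xx 3)) - mon k ((xx 2 * (xx 0 * xx 1)) * xx 3)
noncomputable def f3 := mon k (xx 2 * ((xx 4 * (xx 0 * xx 1)) * xx 3)) +
  mon k (xx 2 * (((xx 0 * xx 1) * xx 4) * xx 3))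

def SS : Set (FreeNonUnitalNonAssocAlgebra k ℕ) := {f1 k, f2 k, f3 k}

theorem supp_mon (w w' : FreeMagma ℕ) (h : w' ∈ (mon k w).coeff.support) : w' = w := by
  have := Finsupp.support_single_subset h
  simpa using this

theorem SS_ml : ∀ f ∈ SS k, Multilinear f := by
  classical
  rintro f (rfl | rfl | rfl)
  · refine ⟨4, fun w hw => ?_⟩
    rw [supp_mon k _ _ hw]; decide
  · refine ⟨4, fun w hw => ?_⟩
    rw [f2, MonoidAlgebra.coeff_sub] at hw
    rcases Finset.mem_union.mp (Finsupp.support_sub hw) with h | h <;>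
      rw [supp_mon k _ _ h] <;> decide
  · refine ⟨5, fun w hw => ?_⟩
    rw [f3, MonoidAlgebra.coeff_add] at hw
    rcases Finset.mem_union.mp (Finsupp.support_add hw) with h | h <;>
      rw [supp_mon k _ _ h] <;> decide

theorem mon_mul (u v : FreeMagma ℕ) : mon k (u * v) = mon k u * mon k v := by
  simp [mon, MonoidAlgebra.single_mul_single]

theorem mon_xx (i : ℕ) : mon k (xx i) = of k i := rfl

theorem sat_iff (A : Type) [NonUnitalNonAssocRing A] [Module k A] [IsScalarTower k A A]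
    [SMulCommClass k A A] : Sat k (SS k) A ↔
      (∀ a b c d : A, (a * b) * (c * d) = 0) ∧
      (∀ a b c d : A, c * ((a * b) * d) = (c * (a * b)) * d) ∧
      (∀ a b c d e : A, c * ((e * (a * b)) * d) + c * (((a * b) * e) * d) = 0) := by
  constructor
  · intro h
    refine ⟨fun a b c d => ?_, fun a b c d => ?_, fun a b c d e => ?_⟩
    · have := h (f1 k) (Or.inl rfl) (fun i => [a, b, c, d].getD i a)
      simpa [f1, mon_mul, mon_xx] using this
    · have := h (f2 k) (Or.inr (Or.inl rfl)) (fun i => [a, b, c, d].getD i a)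
      simpa [f2, mon_mul, mon_xx, sub_eq_zero] using this
    · have := h (f3 k) (Or.inr (Or.inr rfl)) (fun i => [a, b, c, d, e].getD i a)
      simpa [f3, mon_mul, mon_xx] using this
  · rintro ⟨h1, h2, h3⟩ f (rfl | rfl | rfl) v
    · simp only [f1, mon_mul, mon_xx, map_mul, lift_of_apply, h1]
    · simp only [f2, mon_mul, mon_xx, map_mul, map_sub, lift_of_apply, h2, sub_self]
    · simp only [f3, mon_mul, mon_xx, map_mul, map_add, lift_of_apply, h3]

/-! the model -/
abbrev Pi3 : Type := k[X] × k[X] × k[X]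
def Mdl : Type := k × Pi3 k

noncomputable instance : AddCommGroup (Mdl k) := inferInstanceAs (AddCommGroup (k × Pi3 k))
noncomputable instance : Module k (Mdl k) := inferInstanceAs (Module k (k × Pi3 k))

noncomputable def LL : Pi3 k := (-X, X, 0)
noncomputable def RR : Pi3 k := (X, 0, X)
noncomputable def p0 : Pi3 k := (1, 1, 1 + X)
noncomputable def p1 : Pi3 k := (1 - X, 1, 1)

noncomputable instance : Mul (Mdl k) :=
  ⟨fun a b => ((0, (a.1 * b.1) • p0 k + a.1 • (LL k * b.2) + b.1 • (RR k * a.2)) : k × Pi3 k)⟩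

variable {k}
theorem mul1 (a b : Mdl k) : (a * b).1 = 0 := rfl
theorem mul2 (a b : Mdl k) :
    (a * b).2 = (a.1 * b.1) • p0 k + a.1 • (LL k * b.2) + b.1 • (RR k * a.2) := rfl
theorem add1 (a b : Mdl k) : (a + b).1 = a.1 + b.1 := rfl
theorem add2 (a b : Mdl k) : (a + b).2 = a.2 + b.2 := rfl
theorem sub1 (a b : Mdl k) : (a - b).1 = a.1 - b.1 := rfl
theorem sub2 (a b : Mdl k) : (a - b).2 = a.2 - b.2 := rfl
theorem neg1 (a : Mdl k) : (-a).1 = -a.1 := rfl
theorem neg2 (a : Mdl k) : (-a).2 = -a.2 := rfl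
theorem smul1 (c : k) (b : Mdl k) : (c • b).1 = c * b.1 := rfl
theorem smul2 (c : k) (b : Mdl k) : (c • b).2 = c • b.2 := rfl
theorem zero1 : (0 : Mdl k).1 = 0 := rfl
theorem zero2 : (0 : Mdl k).2 = 0 := rfl
variable (k)

noncomputable instance : NonUnitalNonAssocRing (Mdl k) where
  left_distrib x y z := Prod.ext (by simp only [mul1, add1, add_zero]) (by
    simp only [mul2, add1, add2, mul_add, add_smul, smul_add]; abel)
  right_distrib x y z := Prod.ext (by simp only [mul1, add1, add_zero]) (by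
    simp only [mul2, add1, add2, mul_add, add_mul, add_smul, smul_add]; abel)
  zero_mul x := Prod.ext rfl (by simp [mul2, zero1, zero2])
  mul_zero x := Prod.ext rfl (by simp [mul2, zero1, zero2])

instance : IsScalarTower k (Mdl k) (Mdl k) where
  smul_assoc c x y := Prod.ext (by simp only [smul_eq_mul, mul1, smul1, mul_zero]) (by
    simp only [smul_eq_mul, mul2, smul1, smul2, smul_add, mul_smul_comm, smul_smul, mul_assoc,
      mul_comm y.1 c])

instance : SMulCommClass k (Mdl k) (Mdl k) where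
  smul_comm c x y := Prod.ext (by simp only [smul_eq_mul, mul1, smul1, mul_zero]) (by
    simp only [smul_eq_mul, mul2, smul1, smul2, smul_add, mul_smul_comm, smul_smul,
      mul_comm x.1 c, mul_left_comm x.1 c])

theorem cubic : LL k * RR k * (LL k + RR k) = 0 := by
  simp [LL, RR]

theorem Mdl_sat : Sat k (SS k) (Mdl k) := by
  rw [sat_iff]
  refine ⟨fun a b c d => Prod.ext rfl ?_, fun a b c d => Prod.ext rfl ?_,
    fun a b c d e => Prod.ext (by simp only [add1, mul1, zero1, add_zero]) ?_⟩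
  · rw [mul2, mul1, mul1]; simp [zero2]
  · rw [mul2, mul2 (c * (a * b)), mul2 (a * b), mul2 c]
    simp only [mul1, mul_zero, zero_mul, zero_smul, zero_add, add_zero, mul_smul_comm, smul_smul,
      mul_comm d.1 c.1, mul_left_comm (LL k) (RR k)]
  · rw [add2, mul2, mul2 c, mul2 (e * (a * b)), mul2 (a * b * e), mul2 e, mul2 (a * b)]
    simp only [mul1, mul_zero, zero_mul, zero_smul, zero_add, add_zero, mul_smul_comm, smul_smul,
      zero2]
    rw [← smul_add]
    have : LL k * (RR k * (LL k * (a * b).2)) + LL k * (RR k * (RR k * (a * b).2)) =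
        LL k * RR k * (LL k + RR k) * (a * b).2 := by ring
    rw [this, cubic, zero_mul, smul_zero]

def Cond (G : Pi3 k) : Prop :=
  G.1.coeff 0 = G.2.1.coeff 0 ∧ G.1.coeff 0 = G.2.2.coeff 0 ∧
    G.2.2.coeff 1 - G.1.coeff 1 - G.2.1.coeff 1 = G.1.coeff 0

def Cs : NonUnitalSubalgebra k (Mdl k) where
  carrier := {x | Cond k x.2}
  add_mem' := by
    rintro a b ⟨a1, a2, a3⟩ ⟨b1, b2, b3⟩
    simp only [Set.mem_setOf_eq, Cond, add2, Prod.fst_add, Prod.snd_add, coeff_add]
    exact ⟨by rw [a1, b1], by rw [a2, b2], by linear_combination a3 + b3⟩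
  zero_mem' := by simp [Cond, zero2]
  smul_mem' := by
    rintro c a ⟨a1, a2, a3⟩
    simp only [Set.mem_setOf_eq, Cond, smul2, Prod.smul_fst, Prod.smul_snd, coeff_smul,
      smul_eq_mul]
    exact ⟨by rw [a1], by rw [a2], by linear_combination c * a3⟩
  mul_mem' := by
    rintro a b ⟨a1, a2, a3⟩ ⟨b1, b2, b3⟩
    have hx : ∀ p : k[X], (X * p).coeff 1 = p.coeff 0 := fun p => coeff_X_mul p 0
    simp only [Set.mem_setOf_eq, Cond, mul2, Prod.fst_add, Prod.snd_add, Prod.smul_fst,
      Prod.smul_snd, coeff_add, coeff_smul, smul_eq_mul, LL, RR, p0, Prod.fst_mul, Prod.snd_mul,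
      neg_mul, coeff_neg, zero_mul, coeff_zero, coeff_X_mul_zero, coeff_one_zero, coeff_X_zero,
      hx]
    refine ⟨by ring, by ring, ?_⟩
    simp only [zero_add, coeff_X_one, coeff_one, one_ne_zero, if_false]
    linear_combination a.1 * b1 - b.1 * a2

def Ds (g : Mdl k) : NonUnitalSubalgebra k (Mdl k) where
  carrier := {x | ∃ (c : k) (m : Pi3 k), x.1 = c * g.1 ∧ x.2 = c • g.2 + m * (g * g).2}
  add_mem' := by
    rintro a b ⟨c, m, a1, a2⟩ ⟨c', m', b1, b2⟩
    exact ⟨c + c', m + m', by rw [add1, a1, b1]; ring, by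
      rw [add2, a2, b2, add_smul, add_mul]; abel⟩
  zero_mem' := ⟨0, 0, by simp [zero1], by simp [zero2]⟩
  smul_mem' := by
    rintro d a ⟨c, m, a1, a2⟩
    exact ⟨d * c, d • m, by rw [smul1, a1]; ring, by
      rw [smul2, a2, smul_add, smul_smul, smul_mul_assoc]⟩
  mul_mem' := by
    rintro a b ⟨c, m, a1, a2⟩ ⟨c', m', b1, b2⟩
    refine ⟨0, (c * c') • 1 + (c * g.1) • (LL k * m') + (c' * g.1) • (RR k * m),
      by rw [mul1, zero_mul], ?_⟩
    rw [mul2 a b, a1, a2, b1, b2]
    generalize hG : (g * g).2 = G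
    rw [mul2] at hG
    simp only [Algebra.smul_def, map_mul, map_zero] at hG ⊢
    linear_combination (algebraMap k (Pi3 k) c * algebraMap k (Pi3 k) c') * hG

def Zs (g : Mdl k) (hg : g.1 = 0) : NonUnitalSubalgebra k (Mdl k) where
  carrier := {x | ∃ c : k, x = c • g}
  add_mem' := by
    rintro a b ⟨c, rfl⟩ ⟨c', rfl⟩; exact ⟨c + c', (add_smul _ _ _).symm⟩
  zero_mem' := ⟨0, (zero_smul _ _).symm⟩
  smul_mem' := by
    rintro d a ⟨c, rfl⟩; exact ⟨d * c, smul_smul _ _ _⟩
  mul_mem' := by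
    rintro a b ⟨c, rfl⟩ ⟨c', rfl⟩
    refine ⟨0, Prod.ext (by simp [mul1, smul1, zero1]) ?_⟩
    simp [mul2, smul1, smul2, hg, zero2]

def Z0 : NonUnitalSubalgebra k (Mdl k) where
  carrier := {x | x.1 = 0}
  add_mem' := by
    intro a b ha hb
    simp only [Set.mem_setOf_eq] at *; rw [add1, ha, hb, add_zero]
  zero_mem' := rfl
  smul_mem' := by
    intro d a ha
    simp only [Set.mem_setOf_eq] at *; rw [smul1, ha, mul_zero]
  mul_mem' := fun _ _ => rfl

theorem mul_Z0 (a b : Mdl k) (ha : a.1 = 0) (hb : b.1 = 0) : a * b = 0 :=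
  Prod.ext rfl (by simp [mul2, ha, hb, zero2])

theorem nonprinc (G m m' : Pi3 k) (hG : Cond k G) (h0 : p0 k = m * G) (h1 : p1 k = m' * G) :
    False := by
  have a1 : IsUnit G.1 := IsUnit.of_mul_eq_one_right m.1 (congrArg Prod.fst h0).symm
  have a2 : IsUnit G.2.1 := IsUnit.of_mul_eq_one_right m.2.1 (congrArg (·.2.1) h0).symm
  have a3 : IsUnit G.2.2 := IsUnit.of_mul_eq_one_right m'.2.2 (congrArg (·.2.2) h1).symm
  obtain ⟨r1, hr1, e1⟩ := Polynomial.isUnit_iff.mp a1
  obtain ⟨r2, -, e2⟩ := Polynomial.isUnit_iff.mp a2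
  obtain ⟨r3, -, e3⟩ := Polynomial.isUnit_iff.mp a3
  have := hG.2.2
  rw [← e1, ← e2, ← e3] at this
  simp only [coeff_C_zero, coeff_C_succ, sub_self] at this
  exact hr1.ne_zero this.symm

section free
variable {k}
variable {S : Set (FreeNonUnitalNonAssocAlgebra k ℕ)} {A : Type} [NonUnitalNonAssocRing A]
  [Module k A] [IsScalarTower k A A] [SMulCommClass k A A]

theorem free_ext {X : Type} {x : X → A} (h : IsFree k S A x) {C : Type} [NonUnitalNonAssocRing C]
    [Module k C] [IsScalarTower k C C] [SMulCommClass k C C] (hC : Sat k S C)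
    (φ ψ : A →ₙₐ[k] C) (e : ∀ i, φ (x i) = ψ (x i)) : φ = ψ := by
  obtain ⟨χ, -, hχ⟩ := h.2 C hC (fun i => ψ (x i))
  rw [hχ φ e, hχ ψ fun _ => rfl]

theorem free_mem {X : Type} {x : X → A} (h : IsFree k S A x) {C : Type} [NonUnitalNonAssocRing C]
    [Module k C] [IsScalarTower k C C] [SMulCommClass k C C] (hC : Sat k S C)
    (φ : A →ₙₐ[k] C) (D : NonUnitalSubalgebra k C) (e : ∀ i, φ (x i) ∈ D) (a : A) : φ a ∈ D := by
  obtain ⟨χ, hχ, -⟩ := h.2 D (hC.of_inj (NonUnitalSubalgebraClass.subtype D) Subtype.val_injective)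
    (fun i => ⟨φ (x i), e i⟩)
  have := free_ext h hC φ ((NonUnitalSubalgebraClass.subtype D).comp χ) (fun i => by
    simp [hχ])
  rw [this]; exact (χ a).2

def ww (y z : A) : A := -((y * y) * y) - y * (((y * y) * y) * y) + z * y + (z * y) * y
def vv (y z : A) : A := y * y - (y * y) * y + y * (z * y) + (z * y) * y

theorem idem (hA : Sat k (SS k) A) (y z : A) (π : A →ₙₐ[k] A) (hy : π y = y + ww y z)
    (hz : π z = vv y z) : π (ww y z) = 0 ∧ π (vv y z) = vv y z := by
  obtain ⟨h1, h2, h3⟩ := (sat_iff k A).mp hA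
  have hQ : ∀ a b : A, (y * (y * (a * b))) * y = -(((y * (a * b)) * y) * y) := by
    intro a b
    have := h3 a b y y y
    rw [h2 y (a * b) y y, h2 (a * b) y y y, h2 a b y y] at this
    exact eq_neg_of_add_eq_zero_left this
  have hL : ∀ a b : A, π (y * (a * b)) = y * π (a * b) := by
    intro a b
    rw [map_mul π y, hy, add_mul, map_mul]
    simp only [ww, add_mul, sub_mul, neg_mul, h1, neg_zero, sub_zero, add_zero]
  have hR : ∀ a b : A, π ((a * b) * y) = π (a * b) * y := by
    intro a b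
    rw [map_mul π _ y, hy, mul_add, map_mul]
    simp only [ww, mul_add, mul_sub, mul_neg, h1, neg_zero, sub_zero, add_zero]
  have h0 : π (y * y) = y * y + y * ww y z + ww y z * y := by
    rw [map_mul, hy, mul_add, add_mul, add_mul]
    have : ww y z * ww y z = 0 := by
      simp only [ww, add_mul, sub_mul, neg_mul, mul_add, mul_sub, mul_neg, h1, neg_zero, sub_zero,
        add_zero]
    rw [this]; abel
  have h4 : π (z * y) = vv y z * y := by
    rw [map_mul, hy, hz, mul_add]
    have : vv y z * ww y z = 0 := by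
      simp only [ww, vv, add_mul, sub_mul, neg_mul, mul_add, mul_sub, mul_neg, h1, neg_zero,
        sub_zero, add_zero]
    rw [this, add_zero]
  constructor
  · rw [ww]
    simp only [map_add, map_sub, map_neg, hL, hR, h0, h4]
    simp only [ww, vv, add_mul, sub_mul, neg_mul, mul_add, mul_sub, mul_neg, h2, hQ, neg_neg]
    abel
  · rw [vv]
    simp only [map_add, map_sub, map_neg, hL, hR, h0, h4]
    simp only [ww, vv, add_mul, sub_mul, neg_mul, mul_add, mul_sub, mul_neg, h2, hQ, neg_neg]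
    abel

theorem main (x : Bool → A) (h : IsFree k (SS k) A x) :
    ∃ π : A →ₙₐ[k] A, π.comp π = π ∧
      ¬ ∃ (Y : Type) (j : Y → NonUnitalAlgHom.range π),
        IsFree k (SS k) (NonUnitalAlgHom.range π) j := by
  classical
  obtain ⟨π, hπ, -⟩ := h.2 A h.1
    (fun i => if i then x true + ww (x true) (x false) else vv (x true) (x false))
  have hy : π (x true) = x true + ww (x true) (x false) := hπ true
  have hz : π (x false) = vv (x true) (x false) := hπ false
  obtain ⟨i1, i2⟩ := idem h.1 _ _ π hy hz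
  refine ⟨π, free_ext h h.1 _ _ fun i => ?_, ?_⟩
  · cases i
    · rw [NonUnitalAlgHom.comp_apply, hz, i2]
    · rw [NonUnitalAlgHom.comp_apply, hy, map_add, i1, add_zero, hy]
  rintro ⟨Y, j, hj⟩
  let π' : A →ₙₐ[k] NonUnitalAlgHom.range π :=
    NonUnitalAlgHom.codRestrict π _ (fun a => ⟨a, rfl⟩)
  have hπ' : Function.Surjective π' := by
    rintro ⟨_, a, rfl⟩; exact ⟨a, rfl⟩
  have hsub : ∀ y1 y2 : Y, y1 = y2 := by
    intro y1 y2
    by_contra hne
    obtain ⟨u1, hu1, hu1'⟩ : ∃ u : Mdl k, u.1 = 0 ∧ u.2 = (1, 0, 0) :=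
      ⟨((0, (1, 0, 0)) : k × Pi3 k), rfl, rfl⟩
    obtain ⟨u2, hu2, hu2'⟩ : ∃ u : Mdl k, u.1 = 0 ∧ u.2 = (0, 1, 0) :=
      ⟨((0, (0, 1, 0)) : k × Pi3 k), rfl, rfl⟩
    obtain ⟨χ, hχ, -⟩ := hj.2 (Mdl k) (Mdl_sat k) (fun y => if y = y1 then u1 else u2)
    have hZ : ∀ b, (χ b).1 = 0 := free_mem hj (Mdl_sat k) χ (Z0 k) (fun y => by
      rw [hχ]; split_ifs
      · exact hu1
      · exact hu2)
    have hm : ∀ a b, χ (π' (a * b)) = 0 := fun a b => by
      rw [map_mul, map_mul]; exact mul_Z0 k _ _ (hZ _) (hZ _)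
    have hz' : π' (x false) = π' (vv (x true) (x false)) := Subtype.ext (hz.trans i2.symm)
    have hall := free_mem h (Mdl_sat k) (χ.comp π') (Zs k (χ (π' (x true))) (hZ _)) (fun i => by
      cases i
      · refine ⟨0, ?_⟩
        rw [NonUnitalAlgHom.comp_apply, hz', vv]
        simp only [map_add, map_sub, hm, zero_smul, sub_zero, add_zero]
      · exact ⟨1, (one_smul _ _).symm⟩)
    obtain ⟨a1, e1⟩ := hπ' (j y1)
    obtain ⟨a2, e2⟩ := hπ' (j y2)
    obtain ⟨c1, hc1⟩ := hall a1
    obtain ⟨c2, hc2⟩ := hall a2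
    rw [NonUnitalAlgHom.comp_apply, e1, hχ, if_pos rfl] at hc1
    rw [NonUnitalAlgHom.comp_apply, e2, hχ, if_neg (Ne.symm hne)] at hc2
    have hc1' := congrArg Prod.snd hc1
    have hc2' := congrArg Prod.snd hc2
    rw [hu1', smul2] at hc1'
    rw [hu2', smul2] at hc2'
    have b1 : (1 : k[X]) = c1 • (χ (π' (x true))).2.1 := congrArg (·.1) hc1'
    have b2 : (0 : k[X]) = c2 • (χ (π' (x true))).2.1 := congrArg (·.1) hc2'
    have b3 : (1 : k[X]) = c2 • (χ (π' (x true))).2.2.1 := congrArg (·.2.1) hc2'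
    rcases smul_eq_zero.mp b2.symm with h0 | h0
    · rw [h0, zero_smul] at b3; exact one_ne_zero b3
    · rw [h0, smul_zero] at b1; exact one_ne_zero b1
  obtain ⟨φ, hφ, -⟩ := h.2 (Mdl k) (Mdl_sat k)
    (fun i => if i then ((1, 0) : k × Pi3 k) else ((0, p1 k) : k × Pi3 k))
  have φy1 : (φ (x true)).1 = 1 := congrArg Prod.fst (hφ true)
  have φy2 : (φ (x true)).2 = 0 := congrArg Prod.snd (hφ true)
  have φz1 : (φ (x false)).1 = 0 := congrArg Prod.fst (hφ false)
  have φz2 : (φ (x false)).2 = p1 k := congrArg Prod.snd (hφ false)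
  have hφπ : φ.comp π = φ := free_ext h (Mdl_sat k) _ _ fun i => by
    cases i
    · rw [NonUnitalAlgHom.comp_apply, hz, vv]
      apply Prod.ext
      · simp only [map_add, map_sub, map_mul, add1, sub1, mul1, φz1]; ring
      · simp only [map_add, map_sub, map_mul, add2, sub2, mul1, mul2, φy1, φy2, φz1, φz2]
        simp only [mul_zero, zero_mul, zero_smul, one_smul, mul_one, add_zero, zero_add, smul_zero]
        simp only [LL, RR, p0, p1, Prod.mk_mul_mk, Prod.mk_add_mk, Prod.mk_sub_mk, Prod.mk.injEq]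
        refine ⟨by ring, by ring, by ring⟩
    · rw [NonUnitalAlgHom.comp_apply, hy, ww]
      apply Prod.ext
      · simp only [map_add, map_sub, map_neg, map_mul, add1, sub1, neg1, mul1]; ring
      · simp only [map_add, map_sub, map_neg, map_mul, add2, sub2, neg2, mul1, mul2, φy1, φy2, φz1,
          φz2]
        simp only [mul_zero, zero_mul, zero_smul, one_smul, mul_one, add_zero, zero_add, smul_zero]
        simp only [LL, RR, p0, p1, Prod.mk_mul_mk, Prod.mk_add_mk, Prod.mk_sub_mk, Prod.neg_mk,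
          Prod.mk_eq_zero]
        refine ⟨by ring, by ring, by ring⟩
  have hC : ∀ a, Cond k (φ a).2 := free_mem h (Mdl_sat k) φ (Cs k) (fun i => by
    cases i
    · show Cond k (φ (x false)).2
      rw [φz2]; simp [Cond, p1, coeff_one, coeff_X]
    · show Cond k (φ (x true)).2
      rw [φy2]; simp [Cond])
  obtain ⟨g, hg⟩ : ∃ g : A, ∀ y, (j y : A) = g := by
    by_cases hY : Nonempty Y
    · obtain ⟨y0⟩ := hY
      exact ⟨j y0, fun y => by rw [hsub y y0]⟩
    · exact ⟨0, fun y => absurd ⟨y⟩ hY⟩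
  have hD := free_mem hj (Mdl_sat k)
    (φ.comp (NonUnitalSubalgebraClass.subtype (NonUnitalAlgHom.range π))) (Ds k (φ g)) (fun y => by
      refine ⟨1, 0, ?_, ?_⟩
      · show (φ (j y : A)).1 = _
        rw [hg, one_mul]
      · show (φ (j y : A)).2 = _
        rw [hg, one_smul, zero_mul, add_zero])
  have hD' : ∀ a, φ a ∈ Ds k (φ g) := fun a => by
    have := hD (π' a)
    rw [← hφπ]; rw [← hφπ] at this
    have e : ((φ.comp π).comp (NonUnitalSubalgebraClass.subtype (NonUnitalAlgHom.range π))) (π' a)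
        = (φ.comp π) (π a) := rfl
    rw [e, hφπ] at this
    rw [hφπ]
    have e2 : φ (π a) = φ a := DFunLike.congr_fun hφπ a
    rwa [e2] at this
  obtain ⟨c, m, e1, -⟩ := hD' (x true)
  have hg1 : (φ g).1 ≠ 0 := by
    intro h0; rw [φy1, h0, mul_zero] at e1; exact one_ne_zero e1
  obtain ⟨c0, m0, e01, e02⟩ := hD' (x true * x true)
  obtain ⟨c1, m1, e11, e12⟩ := hD' (x false)
  rw [map_mul, mul1] at e01
  rw [φz1] at e11
  have hc0 : c0 = 0 := (mul_eq_zero.mp e01.symm).resolve_right hg1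
  have hc1 : c1 = 0 := (mul_eq_zero.mp e11.symm).resolve_right hg1
  rw [hc0, zero_smul, zero_add, map_mul, mul2, φy1, φy2] at e02
  rw [hc1, zero_smul, zero_add, φz2] at e12
  refine nonprinc k _ m0 m1 ?_ (by simpa using e02) e12
  rw [← map_mul]; exact hC _

end free

end Pool.Agent.Retract
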