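import Mathlib

set_option autoImplicit false

namespace Pool.Agent.Lib.helper24.SelfInt

/-- Equilibrium totals (first player, second player) of the self-interest cumulative subtraction
game on `S` from a heap of size `h`. The Booleans `c`, `d` are the tie-breaking conventions of the
player to move and of the other player: `true` is antagonistic, `false` is friendly. The mover
maximises the first coordinate over the candidate pairs, and then minimises (antagonistic) or
maximises (friendly) the second. With no legal move all suprema and infima are over the empty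
set of naturals and equal `0`. -/
noncomputable def out (S : Finset ℕ) (c d : Bool) (h : ℕ) : ℕ × ℕ :=
  let cand : Set (ℕ × ℕ) := {p | ∃ s ∈ S, ∃ _ : 0 < s ∧ s ≤ h,
    p = (s + (out S d c (h - s)).2, (out S d c (h - s)).1)}
  let a : ℕ := sSup (Prod.fst '' cand)
  (a, if c then sInf {y | (a, y) ∈ cand} else sSup {y | (a, y) ∈ cand})
termination_by h
decreasing_by all_goals omega

/-- The candidate pairs. -/
def cand (S : Finset ℕ) (c d : Bool) (h : ℕ) : Set (ℕ × ℕ) :=
  {p | ∃ s ∈ S, ∃ _ : 0 < s ∧ s ≤ h, p = (s + (out S d c (h - s)).2, (out S d c (h - s)).1)}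

theorem out_eq (S : Finset ℕ) (c d : Bool) (h : ℕ) : out S c d h =
    (sSup (Prod.fst '' cand S c d h),
      if c then sInf {y | (sSup (Prod.fst '' cand S c d h), y) ∈ cand S c d h}
      else sSup {y | (sSup (Prod.fst '' cand S c d h), y) ∈ cand S c d h}) := by
  rw [out]; rfl

theorem cand_fin (S : Finset ℕ) (c d : Bool) (h : ℕ) : (cand S c d h).Finite := by
  refine (S.finite_toSet.image
    fun s => (s + (out S d c (h - s)).2, (out S d c (h - s)).1)).subset ?_
  rintro p ⟨s, hs, _, rfl⟩
  exact ⟨s, hs, rfl⟩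

theorem out_empty (S : Finset ℕ) (c d : Bool) (h : ℕ) (he : cand S c d h = ∅) :
    out S c d h = (0, 0) := by
  rw [out_eq, he]
  cases c <;> simp

theorem out_ge (S : Finset ℕ) (c d : Bool) (h : ℕ) {p : ℕ × ℕ} (hp : p ∈ cand S c d h) :
    p.1 ≤ (out S c d h).1 := by
  rw [out_eq]
  exact le_csSup ((cand_fin S c d h).image _).bddAbove ⟨p, hp, rfl⟩

theorem snd_fin (S : Finset ℕ) (c d : Bool) (h a : ℕ) : {y | (a, y) ∈ cand S c d h}.Finite :=
  ((cand_fin S c d h).image Prod.snd).subset fun y hy => ⟨(a, y), hy, rfl⟩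

theorem out_mem (S : Finset ℕ) (c d : Bool) (h : ℕ) (hn : (cand S c d h).Nonempty) :
    out S c d h ∈ cand S c d h := by
  obtain ⟨p, hp, e⟩ := (hn.image Prod.fst).csSup_mem ((cand_fin S c d h).image _)
  have hne : {y | (sSup (Prod.fst '' cand S c d h), y) ∈ cand S c d h}.Nonempty :=
    ⟨p.2, by rw [← e]; exact hp⟩
  rw [out_eq]
  cases c
  · exact hne.csSup_mem (snd_fin _ _ _ _ _)
  · exact Nat.sInf_mem hne

theorem out_tie (S : Finset ℕ) (c d : Bool) (h : ℕ) {p : ℕ × ℕ} (hp : p ∈ cand S c d h)
    (e : p.1 = (out S c d h).1) :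
    if c then (out S c d h).2 ≤ p.2 else p.2 ≤ (out S c d h).2 := by
  rw [out_eq] at e ⊢
  have hm : p.2 ∈ {y | (sSup (Prod.fst '' cand S c d h), y) ∈ cand S c d h} := by
    have e' : p.1 = sSup (Prod.fst '' cand S c d h) := e
    rw [← e']; exact hp
  cases c
  · exact le_csSup (snd_fin _ _ _ _ _).bddAbove hm
  · exact Nat.sInf_le hm

theorem out_sum (S : Finset ℕ) : ∀ (h : ℕ) (c d : Bool),
    (out S c d h).1 + (out S c d h).2 ≤ h := by
  intro h
  induction h using Nat.strong_induction_on with
  | _ h ih =>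
    intro c d
    rcases (cand S c d h).eq_empty_or_nonempty with he | hn
    · rw [out_empty S c d h he]; simp
    · obtain ⟨s, _, hs, e⟩ := out_mem S c d h hn
      have := ih (h - s) (by omega) d c
      rw [e]
      dsimp only
      omega

theorem out_low (S : Finset ℕ) (m : ℕ) (hm : m ∈ S) (h0 : 0 < m) (hle : ∀ s ∈ S, s ≤ m) :
    ∀ (h : ℕ) (c d : Bool), h ≤ 2 * (out S c d h).1 + m ∧ h ≤ 2 * (out S c d h).2 + 2 * m := by
  intro h
  induction h using Nat.strong_induction_on with
  | _ h ih =>
    intro c d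
    by_cases hh : h < m
    · omega
    · have hc : (m + (out S d c (h - m)).2, (out S d c (h - m)).1) ∈ cand S c d h :=
        ⟨m, hm, ⟨h0, by omega⟩, rfl⟩
      have h1 := out_ge S c d h hc
      have h2 := (ih (h - m) (by omega) d c).2
      obtain ⟨s, hs, hs', e⟩ := out_mem S c d h ⟨_, hc⟩
      have h3 := (ih (h - s) (by omega) d c).1
      have h4 := hle s hs
      have h5 : (out S c d h).2 = (out S d c (h - s)).1 := by rw [e]
      dsimp only at h1
      omega

theorem out_table (S : Finset ℕ) (t : Bool → Bool → ℕ → ℕ × ℕ) (N : ℕ) (hS : ∀ s ∈ S, 0 < s)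
    (ht : ∀ h < N, ∀ c d : Bool, ((∀ s ∈ S, h < s) ∧ t c d h = (0, 0)) ∨
      ((∃ s ∈ S, s ≤ h ∧ t c d h = (s + (t d c (h - s)).2, (t d c (h - s)).1)) ∧
        ∀ s ∈ S, s ≤ h → s + (t d c (h - s)).2 ≤ (t c d h).1 ∧
          (s + (t d c (h - s)).2 = (t c d h).1 →
            if c then (t c d h).2 ≤ (t d c (h - s)).1 else (t d c (h - s)).1 ≤ (t c d h).2))) :
    ∀ h < N, ∀ c d : Bool, out S c d h = t c d h := by
  intro h
  induction h using Nat.strong_induction_on with
  | _ h ih =>
    intro hN c d
    have key : ∀ s, 0 < s → s ≤ h → out S d c (h - s) = t d c (h - s) :=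
      fun s h1 h2 => ih (h - s) (by omega) (by omega) d c
    rcases ht h hN c d with ⟨h1, h2⟩ | ⟨⟨s, hs, hle, e⟩, h2⟩
    · rw [h2]
      apply out_empty
      rw [Set.eq_empty_iff_forall_notMem]
      rintro p ⟨s, hs, hs', _⟩
      have := h1 s hs
      omega
    · have hc : t c d h ∈ cand S c d h :=
        ⟨s, hs, ⟨hS s hs, hle⟩, by rw [key s (hS s hs) hle]; exact e⟩
      obtain ⟨r, hr, hr', e'⟩ := out_mem S c d h ⟨_, hc⟩
      rw [key r hr'.1 hr'.2] at e'
      have a1 := out_ge S c d h hc
      obtain ⟨a2, a3⟩ := h2 r hr hr'.2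
      have b1 : (out S c d h).1 = r + (t d c (h - r)).2 := by rw [e']
      have b2 : (out S c d h).2 = (t d c (h - r)).1 := by rw [e']
      have a4 : (t c d h).1 = (out S c d h).1 := by omega
      have a5 := out_tie S c d h hc a4
      have a6 := a3 (by omega)
      apply Prod.ext a4.symm
      cases c
      · simp only [Bool.false_eq_true, if_false] at a5 a6
        omega
      · simp only [if_true] at a5 a6
        omega

end Pool.Agent.Lib.helper24.SelfInt
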