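import Pool.Agent.Lib.helper24.SelfInt

set_option autoImplicit false

namespace Pool.Agent.Lib.helper24.SelfIntTab

open Pool.Agent.Lib.helper24.SelfInt

/-- Table for FvF. -/
def tFF : List (ℕ × ℕ) := [(0, 0), (0, 0), (0, 0), (3, 0), (3, 0), (5, 0), (5, 0), (5, 0), (5, 3), (5, 3),
    (5, 5), (6, 5), (6, 5), (8, 5), (8, 6), (10, 5), (10, 6), (17, 0), (17, 0), (17, 0),
    (17, 3), (17, 3), (17, 5), (17, 5), (17, 5), (25, 0), (25, 0), (25, 0), (25, 3), (25, 3),
    (25, 5), (25, 5), (25, 5), (28, 5), (28, 5), (30, 5), (30, 6), (30, 6), (30, 8), (31, 8),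
    (30, 10), (31, 10), (25, 17), (25, 17), (25, 17), (28, 17), (28, 17), (30, 17), (30, 17), (30, 17),
    (25, 25), (25, 25), (25, 25), (28, 25), (28, 25), (30, 25), (30, 25), (30, 25), (30, 28), (34, 25),
    (34, 25), (34, 25), (34, 28), (34, 28), (34, 30), (35, 30), (35, 31), (42, 25), (42, 25), (42, 25),
    (42, 28), (42, 28), (42, 30), (42, 30), (42, 30), (50, 25), (50, 25), (50, 25), (50, 28), (50, 28),
    (50, 30), (50, 30), (50, 30), (53, 30), (50, 34), (50, 34), (50, 34), (53, 34), (53, 34), (55, 34),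
    (55, 35), (56, 35), (50, 42), (50, 42), (50, 42), (53, 42), (53, 42), (55, 42), (55, 42), (55, 42),
    (50, 50), (51, 50), (51, 50), (53, 50), (53, 51), (55, 50), (55, 51), (55, 51), (55, 53), (59, 50),
    (59, 50), (59, 50), (59, 53), (59, 53), (59, 55), (60, 55), (60, 56), (67, 50), (67, 51), (67, 51),
    (67, 53), (68, 53), (67, 55), (68, 55), (68, 55), (75, 50), (75, 51), (75, 51), (75, 53), (76, 53),
    (75, 55), (76, 55), (76, 55), (78, 55), (75, 59), (75, 59), (75, 59), (78, 59), (78, 59), (80, 59),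
    (80, 60), (81, 60), (75, 67), (76, 67), (76, 67), (78, 67), (78, 68), (80, 67), (80, 68), (80, 68),
    (75, 75), (76, 75), (76, 75), (78, 75), (78, 76), (80, 75), (80, 76), (80, 76), (80, 78), (84, 75),
    (84, 76), (84, 76), (84, 78), (85, 78), (84, 80), (85, 80), (85, 81)]

/-- Table for FvA. -/
def tFA : List (ℕ × ℕ) := [(0, 0), (0, 0), (0, 0), (3, 0), (3, 0), (5, 0), (5, 0), (5, 0), (5, 3), (5, 3),
    (5, 5), (6, 5), (6, 5), (8, 5), (8, 6), (10, 5), (10, 6), (17, 0), (17, 0), (17, 0),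
    (17, 3), (17, 3), (17, 5), (17, 5), (17, 5), (25, 0), (25, 0), (25, 0), (25, 3), (25, 3),
    (25, 5), (25, 5), (25, 5), (28, 5), (28, 5), (30, 5), (30, 6), (30, 6), (30, 8), (30, 8),
    (30, 10), (31, 10), (25, 17), (25, 17), (25, 17), (28, 17), (28, 17), (30, 17), (30, 17), (30, 17),
    (25, 25), (25, 25), (25, 25), (28, 25), (28, 25), (30, 25), (30, 25), (30, 25), (30, 28), (34, 25),
    (34, 25), (34, 25), (34, 28), (34, 28), (34, 30), (35, 30), (35, 31), (42, 25), (42, 25), (42, 25),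
    (42, 28), (42, 28), (42, 30), (42, 30), (42, 30), (50, 25), (50, 25), (50, 25), (50, 28), (50, 28),
    (50, 30), (50, 30), (50, 30), (53, 30), (50, 34), (50, 34), (50, 34), (53, 34), (53, 34), (55, 34),
    (55, 35), (56, 35), (50, 42), (50, 42), (50, 42), (53, 42), (53, 42), (55, 42), (55, 42), (55, 42),
    (50, 50), (51, 50), (51, 50), (53, 50), (53, 51), (55, 50), (55, 51), (55, 51), (55, 53), (59, 50),
    (59, 50), (59, 50), (59, 53), (59, 53), (59, 55), (60, 55), (60, 56), (67, 50), (67, 51), (67, 51),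
    (67, 53), (67, 53), (67, 55), (67, 55), (67, 55), (75, 50), (75, 51), (75, 51), (75, 53), (75, 53),
    (75, 55), (75, 55), (75, 55), (78, 55), (75, 59), (75, 59), (75, 59), (78, 59), (78, 59), (80, 59),
    (80, 60), (81, 60), (75, 67), (75, 67), (75, 67), (78, 67), (78, 68), (80, 67), (80, 68), (80, 68),
    (75, 75), (76, 75), (76, 75), (78, 75), (78, 76), (80, 75), (80, 76), (80, 76), (80, 78), (84, 75),
    (84, 76), (84, 76), (84, 78), (84, 78), (84, 80), (85, 80), (85, 81)]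

/-- Table for AvF. -/
def tAF : List (ℕ × ℕ) := [(0, 0), (0, 0), (0, 0), (3, 0), (3, 0), (5, 0), (5, 0), (5, 0), (5, 3), (5, 3),
    (5, 5), (6, 5), (6, 5), (8, 5), (8, 5), (10, 5), (10, 6), (17, 0), (17, 0), (17, 0),
    (17, 3), (17, 3), (17, 5), (17, 5), (17, 5), (25, 0), (25, 0), (25, 0), (25, 3), (25, 3),
    (25, 5), (25, 5), (25, 5), (28, 5), (28, 5), (30, 5), (30, 6), (30, 6), (30, 8), (31, 8),
    (30, 10), (31, 10), (25, 17), (25, 17), (25, 17), (28, 17), (28, 17), (30, 17), (30, 17), (30, 17),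
    (25, 25), (25, 25), (25, 25), (28, 25), (28, 25), (30, 25), (30, 25), (30, 25), (30, 28), (34, 25),
    (34, 25), (34, 25), (34, 28), (34, 28), (34, 30), (35, 30), (35, 31), (42, 25), (42, 25), (42, 25),
    (42, 28), (42, 28), (42, 30), (42, 30), (42, 30), (50, 25), (50, 25), (50, 25), (50, 28), (50, 28),
    (50, 30), (50, 30), (50, 30), (53, 30), (50, 34), (50, 34), (50, 34), (53, 34), (53, 34), (55, 34),
    (55, 35), (56, 35), (50, 42), (50, 42), (50, 42), (53, 42), (53, 42), (55, 42), (55, 42), (55, 42),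
    (50, 50), (51, 50), (51, 50), (53, 50), (53, 50), (55, 50), (55, 50), (55, 50), (55, 53), (59, 50),
    (59, 50), (59, 50), (59, 53), (59, 53), (59, 55), (60, 55), (60, 56), (67, 50), (67, 50), (67, 50),
    (67, 53), (68, 53), (67, 55), (68, 55), (68, 55), (75, 50), (75, 51), (75, 51), (75, 53), (76, 53),
    (75, 55), (76, 55), (76, 55), (78, 55), (75, 59), (75, 59), (75, 59), (78, 59), (78, 59), (80, 59),
    (80, 60), (81, 60), (75, 67), (76, 67), (76, 67), (78, 67), (78, 67), (80, 67), (80, 67), (80, 67),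
    (75, 75), (76, 75), (76, 75), (78, 75), (78, 75), (80, 75), (80, 75), (80, 75), (80, 78), (84, 75),
    (84, 75), (84, 75), (84, 78), (85, 78), (84, 80), (85, 80), (85, 80)]

/-- Table for AvA. -/
def tAA : List (ℕ × ℕ) := [(0, 0), (0, 0), (0, 0), (3, 0), (3, 0), (5, 0), (5, 0), (5, 0), (5, 3), (5, 3),
    (5, 5), (6, 5), (6, 5), (8, 5), (8, 5), (10, 5), (10, 6), (17, 0), (17, 0), (17, 0),
    (17, 3), (17, 3), (17, 5), (17, 5), (17, 5), (25, 0), (25, 0), (25, 0), (25, 3), (25, 3),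
    (25, 5), (25, 5), (25, 5), (28, 5), (28, 5), (30, 5), (30, 6), (30, 6), (30, 8), (30, 8),
    (30, 10), (31, 10), (25, 17), (25, 17), (25, 17), (28, 17), (28, 17), (30, 17), (30, 17), (30, 17),
    (25, 25), (25, 25), (25, 25), (28, 25), (28, 25), (30, 25), (30, 25), (30, 25), (30, 28), (34, 25),
    (34, 25), (34, 25), (34, 28), (34, 28), (34, 30), (35, 30), (35, 31), (42, 25), (42, 25), (42, 25),
    (42, 28), (42, 28), (42, 30), (42, 30), (42, 30), (50, 25), (50, 25), (50, 25), (50, 28), (50, 28),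
    (50, 30), (50, 30), (50, 30), (53, 30), (50, 34), (50, 34), (50, 34), (53, 34), (53, 34), (55, 34),
    (55, 35), (56, 35), (50, 42), (50, 42), (50, 42), (53, 42), (53, 42), (55, 42), (55, 42), (55, 42),
    (50, 50), (51, 50), (51, 50), (53, 50), (53, 50), (55, 50), (55, 50), (55, 50), (55, 53), (59, 50),
    (59, 50), (59, 50), (59, 53), (59, 53), (59, 55), (60, 55), (60, 56), (67, 50), (67, 50), (67, 50),
    (67, 53), (67, 53), (67, 55), (67, 55), (67, 55), (75, 50), (75, 51), (75, 51), (75, 53), (75, 53),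
    (75, 55), (75, 55), (75, 55), (78, 55), (75, 59), (75, 59), (75, 59), (78, 59), (78, 59), (80, 59),
    (80, 60), (81, 60), (75, 67), (75, 67), (75, 67), (78, 67), (78, 67), (80, 67), (80, 67), (80, 67),
    (75, 75), (76, 75), (76, 75), (78, 75), (78, 75), (80, 75), (80, 75), (80, 75), (80, 78), (84, 75),
    (84, 75), (84, 75), (84, 78), (84, 78), (84, 80), (85, 80), (85, 81)]

/-- The four tables together. -/
def tb (c d : Bool) (h : ℕ) : ℕ × ℕ :=
  (if c then (if d then tAA else tAF) else (if d then tFA else tFF)).getD h (0, 0)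

theorem out_tb : ∀ h < 167, ∀ c d : Bool, out {3, 5, 17, 25} c d h = tb c d h :=
  out_table _ tb 167 (by decide) (by decide +kernel)

end Pool.Agent.Lib.helper24.SelfIntTab
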