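import Mathlib

set_option autoImplicit false

namespace Pool.Agent.Lib.helper24.SemiAlg

open TrivSqZeroExt

variable {K : Type} [Field K]

abbrev R (K : Type) [Field K] : Type := DualNumber K
abbrev V (K : Type) [Field K] : Type := Fin 4 → R K × R K

def ell (Λ x y : R K) : Fin 4 → R K := ![x, y, x + y, x + Λ * y]

lemma ell_lin (Λ a b x y x' y' : R K) (i : Fin 4) :
    ell Λ (a * x + b * x') (a * y + b * y') i = a * ell Λ x y i + b * ell Λ x' y' i := by
  fin_cases i <;> simp [ell] <;> ring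

lemma ell_zero (Λ : R K) (i : Fin 4) : ell Λ 0 0 i = 0 := by
  fin_cases i <;> simp [ell]

def act (Λ r x y : R K) (w : V K) : V K :=
  fun i => (r * (w i).1, r * (w i).2 + ell Λ x y i * (w i).1)

lemma act_act (Λ r x y r' x' y' : R K) (w : V K) :
    act Λ r x y (act Λ r' x' y' w) = act Λ (r * r') (r * x' + r' * x) (r * y' + r' * y) w := by
  funext i
  simp only [act, ell_lin]
  ext1
  · simp only; ring
  · simp only; ring

lemma act_add (Λ r x y : R K) (w w' : V K) :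
    act Λ r x y (w + w') = act Λ r x y w + act Λ r x y w' := by
  funext i
  simp only [act, Pi.add_apply, Prod.fst_add, Prod.snd_add, Prod.mk_add_mk]
  ext1
  · simp only; ring
  · simp only; ring

lemma act_smul (Λ r x y c : R K) (w : V K) : act Λ r x y (c • w) = c • act Λ r x y w := by
  funext i
  simp only [act, Pi.smul_apply, Prod.smul_fst, Prod.smul_snd, smul_eq_mul, Prod.smul_mk]
  ext1
  · simp only; ring
  · simp only; ring

lemma act_scalar (Λ r : R K) (w : V K) : act Λ r 0 0 w = r • w := by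
  funext i
  simp [act, ell_zero, Prod.ext_iff]

lemma act_one (Λ : R K) (w : V K) : act Λ 1 0 0 w = w := by rw [act_scalar, one_smul]

lemma act_zero (Λ r x y : R K) : act Λ r x y 0 = 0 := by
  funext i
  simp [act]

lemma act_lin (Λ a b r x y r' x' y' : R K) (w : V K) :
    act Λ (a * r + b * r') (a * x + b * x') (a * y + b * y') w =
      a • act Λ r x y w + b • act Λ r' x' y' w := by
  funext i
  simp only [act, ell_lin, Pi.add_apply, Pi.smul_apply, Prod.smul_mk, smul_eq_mul, Prod.mk_add_mk]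
  ext1
  · simp only; ring
  · simp only; ring

lemma act_inj (Λ r x y r' x' y' : R K) (h : ∀ w, act Λ r x y w = act Λ r' x' y' w) :
    r = r' ∧ x = x' ∧ y = y' := by
  have h0 := congrFun (h fun _ => (1, 0)) 0
  have h1 := congrFun (h fun _ => (1, 0)) 1
  simp only [act, ell, mul_one, mul_zero, zero_add, Prod.mk.injEq, Matrix.cons_val_zero,
    Matrix.cons_val_one] at h0 h1
  exact ⟨h0.1, h0.2, h1.2⟩

@[ext] structure Gam (Λ : R K) where
  r : (R K)ˣ
  x : R K
  y : R K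
  v : V K

variable {Λ : R K}

def Gam.a (g : Gam Λ) (w : V K) : V K := act Λ g.r g.x g.y w

instance : Mul (Gam Λ) := ⟨fun g h =>
  ⟨g.r * h.r, g.r * h.x + h.r * g.x, g.r * h.y + h.r * g.y, g.a h.v + g.v⟩⟩
instance : One (Gam Λ) := ⟨⟨1, 0, 0, 0⟩⟩
instance : Inv (Gam Λ) := ⟨fun g =>
  ⟨g.r⁻¹, -(g.r⁻¹ : (R K)ˣ) * (g.r⁻¹ : (R K)ˣ) * g.x, -(g.r⁻¹ : (R K)ˣ) * (g.r⁻¹ : (R K)ˣ) * g.y,
    - act Λ (g.r⁻¹ : (R K)ˣ) (-(g.r⁻¹ : (R K)ˣ) * (g.r⁻¹ : (R K)ˣ) * g.x)
      (-(g.r⁻¹ : (R K)ˣ) * (g.r⁻¹ : (R K)ˣ) * g.y) g.v⟩⟩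

lemma mul_r (g h : Gam Λ) : (g * h).r = g.r * h.r := rfl
lemma mul_x (g h : Gam Λ) : (g * h).x = g.r * h.x + h.r * g.x := rfl
lemma mul_y (g h : Gam Λ) : (g * h).y = g.r * h.y + h.r * g.y := rfl
lemma mul_v (g h : Gam Λ) : (g * h).v = g.a h.v + g.v := rfl
lemma mul_a (g h : Gam Λ) (w : V K) : (g * h).a w = g.a (h.a w) := by
  simp only [Gam.a, act_act, mul_r, mul_x, mul_y, Units.val_mul]
lemma one_a (w : V K) : (1 : Gam Λ).a w = w := act_one _ _
lemma a_add (g : Gam Λ) (w w' : V K) : g.a (w + w') = g.a w + g.a w' := act_add _ _ _ _ _ _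
lemma a_zero (g : Gam Λ) : g.a 0 = 0 := act_zero _ _ _ _

instance : Group (Gam Λ) := Group.ofLeftAxioms
  (fun g h k => by
    ext1
    · simp only [mul_r, mul_assoc]
    · simp only [mul_r, mul_x, Units.val_mul]; ring
    · simp only [mul_r, mul_y, Units.val_mul]; ring
    · simp only [mul_v, mul_a, a_add, add_assoc])
  (fun g => by
    ext1
    · exact one_mul _
    · show (1 : R K) * g.x + g.r * 0 = g.x
      simp
    · show (1 : R K) * g.y + g.r * 0 = g.y
      simp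
    · rw [mul_v, one_a]; exact add_zero _)
  (fun g => by
    have h := g.r.mul_inv
    ext1
    · exact inv_mul_cancel _
    · show (g.r⁻¹ : (R K)ˣ) * g.x + g.r * (-(g.r⁻¹ : (R K)ˣ) * (g.r⁻¹ : (R K)ˣ) * g.x) = 0
      linear_combination (-(g.r⁻¹ : (R K)ˣ) * g.x) * h
    · show (g.r⁻¹ : (R K)ˣ) * g.y + g.r * (-(g.r⁻¹ : (R K)ˣ) * (g.r⁻¹ : (R K)ˣ) * g.y) = 0
      linear_combination (-(g.r⁻¹ : (R K)ˣ) * g.y) * h
    · exact add_neg_cancel _)

/-- translations -/
def tr (Λ : R K) (w : V K) : Gam Λ := ⟨1, 0, 0, w⟩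

lemma tr_a (w u : V K) : (tr Λ w).a u = u := act_one _ _

lemma tr_add (w u : V K) : tr Λ (w + u) = tr Λ w * tr Λ u := by
  ext1
  · exact (one_mul _).symm
  · simp [mul_x, tr]
  · simp [mul_y, tr]
  · rw [mul_v, tr_a]; exact add_comm _ _

lemma tr_inj {w u : V K} (h : tr Λ w = tr Λ u) : w = u := congrArg Gam.v h

lemma mul_tr (g : Gam Λ) (w : V K) : g * tr Λ w = tr Λ (g.a w) * g := by
  ext1
  · simp [mul_r, tr]
  · simp [mul_x, tr]
  · simp [mul_y, tr]
  · rw [mul_v, mul_v, tr_a]; exact add_comm _ _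

lemma eq_tr (g : Gam Λ) (h : ∀ w, g.a w = w) : g = tr Λ g.v := by
  obtain ⟨h1, h2, h3⟩ := act_inj Λ g.r g.x g.y 1 0 0 (fun w => by rw [act_one]; exact h w)
  ext1
  · exact Units.ext h1
  · exact h2
  · exact h3
  · rfl

lemma a_comm (g h : Gam Λ) (w : V K) : g.a (h.a w) = h.a (g.a w) := by
  simp only [Gam.a, act_act]
  rw [mul_comm, add_comm, add_comm ((g.r : R K) * h.y)]

variable [CharZero K]

omit [CharZero K] in
lemma fst_two : (2 : R K).fst = 2 := map_ofNat (fstHom K K K) 2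

lemma two_unit : IsUnit (2 : R K) := by
  rw [isUnit_iff_isUnit_fst, fst_two]
  simp

noncomputable def sc (Λ : R K) : Gam Λ := ⟨two_unit.unit, 0, 0, 0⟩

lemma sc_a (w : V K) : (sc Λ).a w = w + w := by
  show act Λ 2 0 0 w = _
  rw [act_scalar, two_smul]

lemma tr_comm (w : V K) : tr Λ w = sc Λ * tr Λ w * (sc Λ)⁻¹ * (tr Λ w)⁻¹ := by
  rw [mul_tr, sc_a, tr_add]
  group

lemma comm_sc (g : Gam Λ) (h : g * sc Λ = sc Λ * g) : g.v = 0 := by
  have := congrArg Gam.v h
  rw [mul_v, mul_v, sc_a] at this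
  have h1 : (sc Λ).v = 0 := rfl
  rw [h1, a_zero, zero_add, add_zero] at this
  exact (add_eq_left.mp this.symm)

omit [CharZero K] in
lemma comm_tr (g : Gam Λ) (w : V K) (h : g * tr Λ w = tr Λ w * g) : g.a w = w := by
  rw [mul_tr] at h
  exact tr_inj (mul_right_cancel h)

lemma center_eq : Subgroup.center (Gam Λ) = ⊥ := by
  rw [eq_bot_iff]
  intro g hg
  rw [Subgroup.mem_center_iff] at hg
  have h1 := eq_tr g (fun w => comm_tr g w (hg _).symm)
  rw [comm_sc g (hg _).symm] at h1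
  exact h1

omit [CharZero K] in
lemma a_surj (g : Gam Λ) (h : (g.r : R K).fst ≠ 1) (w : V K) : ∃ u, g.a u = u + w := by
  have hu : IsUnit ((g.r : R K) - 1) := by
    rw [isUnit_iff_isUnit_fst]
    simpa [sub_eq_zero] using h
  let k : Gam Λ := ⟨hu.unit, g.x, g.y, 0⟩
  refine ⟨k⁻¹.a w, ?_⟩
  have h1 : ∀ u, g.a u = u + k.a u := by
    intro u
    have := act_lin Λ 1 1 1 0 0 ((g.r : R K) - 1) g.x g.y u
    simp only [one_mul, one_smul, act_one, zero_add, add_sub_cancel] at this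
    exact this
  rw [h1, ← mul_a, mul_inv_cancel, one_a]

lemma indec_aux (A B : Subgroup (Gam Λ)) [A.Normal] (hc : ∀ a ∈ A, ∀ b ∈ B, a * b = b * a)
    (hd : ∀ g ∈ A, g ∈ B → g = 1) (a : Gam Λ) (ha : a ∈ A) (h : (a.r : R K).fst ≠ 1) :
    ∀ b ∈ B, b = 1 := by
  have h1 : ∀ w, tr Λ w ∈ A := by
    intro w
    obtain ⟨u, hu⟩ := a_surj a h w
    have h2 : tr Λ w = a * (tr Λ u * a⁻¹ * (tr Λ u)⁻¹) := by
      rw [← mul_assoc, ← mul_assoc, mul_tr, hu, add_comm, tr_add]
      group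
    rw [h2]
    exact A.mul_mem ha (Subgroup.Normal.conj_mem inferInstance _ (A.inv_mem ha) _)
  intro b hb
  apply hd b _ hb
  rw [eq_tr b (fun w => comm_tr b w (hc _ (h1 w) b hb).symm)]
  exact h1 _

lemma indec (A B : Type) [Group A] [Group B] (e : Gam Λ ≃* A × B) :
    Subsingleton A ∨ Subsingleton B := by
  let SA : Subgroup (Gam Λ) := ((MonoidHom.snd A B).comp e.toMonoidHom).ker
  let SB : Subgroup (Gam Λ) := ((MonoidHom.fst A B).comp e.toMonoidHom).ker
  have mA : ∀ g, g ∈ SA ↔ (e g).2 = 1 := fun g => Iff.rfl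
  have mB : ∀ g, g ∈ SB ↔ (e g).1 = 1 := fun g => Iff.rfl
  have hc : ∀ a ∈ SA, ∀ b ∈ SB, a * b = b * a := by
    intro a ha b hb
    apply e.injective
    rw [mA] at ha
    rw [mB] at hb
    ext <;> simp [ha, hb]
  have hd : ∀ g ∈ SA, g ∈ SB → g = 1 := by
    intro g ha hb
    apply e.injective
    rw [mA] at ha
    rw [mB] at hb
    ext <;> simp [ha, hb]
  let a := e.symm ((e (sc Λ)).1, 1)
  let b := e.symm (1, (e (sc Λ)).2)
  have ha : a ∈ SA := by rw [mA]; simp [a]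
  have hb : b ∈ SB := by rw [mB]; simp [b]
  have hab : a * b = sc Λ := by
    apply e.injective
    simp [a, b]
  have h2 : (a.r : R K).fst * (b.r : R K).fst = 2 := by
    have := congrArg (fun g : Gam Λ => (g.r : R K).fst) hab
    simpa [mul_r, sc, fst_two] using this
  by_cases h : (a.r : R K).fst = 1
  · left
    have h3 : (b.r : R K).fst ≠ 1 := by
      intro h4
      rw [h, h4] at h2
      norm_num at h2
    have h5 := indec_aux SB SA (fun x hx y hy => (hc y hy x hx).symm) (fun g h1 h2 => hd g h2 h1)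
      b hb h3
    refine subsingleton_of_forall_eq 1 fun x => ?_
    have := h5 (e.symm (x, 1)) (by rw [mA]; simp)
    simpa using congrArg (fun g => (e g).1) this
  · right
    have h5 := indec_aux SA SB hc hd a ha h
    refine subsingleton_of_forall_eq 1 fun x => ?_
    have := h5 (e.symm (1, x)) (by rw [mB]; simp)
    simpa using congrArg (fun g => (e g).2) this

omit [CharZero K] in
lemma ell_map (θ : R K ≃+* R K) (Λ x y : R K) (i : Fin 4) :
    θ (ell Λ x y i) = ell (θ Λ) (θ x) (θ y) i := by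
  fin_cases i <;> simp [ell]

/-- transport along a ring automorphism of the dual numbers -/
def mapG (θ : R K ≃+* R K) (Λ Λ' : R K) (h : θ Λ = Λ') : Gam Λ →* Gam Λ' :=
  MonoidHom.mk' (fun g => ⟨Units.map (θ : R K →* R K) g.r, θ g.x, θ g.y,
      fun i => (θ (g.v i).1, θ (g.v i).2)⟩) (by
    intro g k
    ext1
    · simp [mul_r]
    · simp [mul_x]
    · simp [mul_y]
    · funext i
      subst h
      simp [mul_v, Gam.a, act, ell_map])

omit [CharZero K] in
lemma iso (θ : R K ≃+* R K) (Λ : R K) : Nonempty (Gam Λ ≃* Gam (θ Λ)) := by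
  refine ⟨MonoidHom.toMulEquiv (mapG θ Λ (θ Λ) rfl) (mapG θ.symm (θ Λ) Λ (by simp)) ?_ ?_⟩
  · ext g <;> simp [mapG]
  · ext g <;> simp [mapG]

lemma map_tr {Λ' : R K} (φ : Gam Λ →* Gam Λ') (w : V K) : φ (tr Λ w) = tr Λ' (φ (tr Λ w)).v := by
  apply eq_tr
  intro u
  rw [tr_comm]
  simp only [map_mul, map_inv, mul_a]
  rw [a_comm (φ (tr Λ w)), ← mul_a, ← mul_a, ← mul_a]
  simp [one_a]

omit [CharZero K] in
lemma alg (A0 A1 B0 B1 C0 C1 D0 D1 l a0 b0 a1 b1 a2 b2 a3 b3 : K) (hD : A0 * D0 - B0 * C0 ≠ 0)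
    (n0 : ¬ (a0 = 0 ∧ b0 = 0)) (n1 : ¬ (a1 = 0 ∧ b1 = 0)) (n2 : ¬ (a2 = 0 ∧ b2 = 0))
    (n3 : ¬ (a3 = 0 ∧ b3 = 0))
    (h00 : a0 * A0 + b0 * C0 = 0) (h01 : a0 * A1 + b0 * C1 = 0)
    (h10 : a1 * B0 + b1 * D0 = 0) (h11 : a1 * B1 + b1 * D1 = 0)
    (h20 : a2 * A0 + b2 * C0 + (a2 * B0 + b2 * D0) = 0)
    (h21 : a2 * A1 + b2 * C1 + (a2 * B1 + b2 * D1) = 0)
    (h30 : a3 * A0 + b3 * C0 + l * (a3 * B0 + b3 * D0) = 0)
    (h31 : a3 * A1 + b3 * C1 + (l * (a3 * B1 + b3 * D1) + (a3 * B0 + b3 * D0)) = 0) : False := by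
  have nz : ∀ a b : K, a * A0 + b * C0 = 0 → a * B0 + b * D0 = 0 → a = 0 ∧ b = 0 := by
    intro a b h1 h2
    constructor
    · apply mul_left_cancel₀ hD
      linear_combination D0 * h1 - C0 * h2
    · apply mul_left_cancel₀ hD
      linear_combination A0 * h2 - B0 * h1
  have hu : a0 * B0 + b0 * D0 ≠ 0 := fun h => n0 (nz _ _ h00 h)
  have ht : a1 * A0 + b1 * C0 ≠ 0 := fun h => n1 (nz _ _ h h10)
  have hΔ : a0 * b1 - a1 * b0 ≠ 0 := by
    intro h
    apply mul_ne_zero hu ht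
    linear_combination (-(A0 * D0 - B0 * C0)) * h + (a1 * B0 + b1 * D0) * h00
      + (a0 * A0 + b0 * C0 - (a0 * A0 + b0 * C0)) * h10
  have cz : ∀ a b : K, a * b1 - a1 * b = 0 → a0 * b - a * b0 = 0 → a = 0 ∧ b = 0 := by
    intro a b h1 h2
    constructor
    · apply mul_left_cancel₀ hΔ
      linear_combination a0 * h1 + a1 * h2
    · apply mul_left_cancel₀ hΔ
      linear_combination b0 * h1 + b1 * h2
  have e1 : (a0 * b2 - a2 * b0) * (a1 * A0 + b1 * C0) + (a2 * b1 - a1 * b2) * (a0 * B0 + b0 * D0)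
      = 0 := by
    linear_combination (a0 * b1 - a1 * b0) * h20 - (a2 * b1 - a1 * b2) * h00
      - (a0 * b2 - a2 * b0) * h10
  have e2 : (a0 * b2 - a2 * b0) * (a1 * A1 + b1 * C1) + (a2 * b1 - a1 * b2) * (a0 * B1 + b0 * D1)
      = 0 := by
    linear_combination (a0 * b1 - a1 * b0) * h21 - (a2 * b1 - a1 * b2) * h01
      - (a0 * b2 - a2 * b0) * h11
  have e3 : (a0 * b3 - a3 * b0) * (a1 * A0 + b1 * C0) +
      l * (a3 * b1 - a1 * b3) * (a0 * B0 + b0 * D0) = 0 := by
    linear_combination (a0 * b1 - a1 * b0) * h30 - (a3 * b1 - a1 * b3) * h00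
      - l * (a0 * b3 - a3 * b0) * h10
  have e4 : (a0 * b3 - a3 * b0) * (a1 * A1 + b1 * C1) +
      l * (a3 * b1 - a1 * b3) * (a0 * B1 + b0 * D1) + (a3 * b1 - a1 * b3) * (a0 * B0 + b0 * D0)
      = 0 := by
    linear_combination (a0 * b1 - a1 * b0) * h31 - (a3 * b1 - a1 * b3) * h01
      - l * (a0 * b3 - a3 * b0) * h11 - (a0 * b3 - a3 * b0) * h10
  generalize a0 * B0 + b0 * D0 = u0 at *
  generalize a0 * B1 + b0 * D1 = u1 at *
  generalize a1 * A0 + b1 * C0 = t0 at *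
  generalize a1 * A1 + b1 * C1 = t1 at *
  have e5 : u0 * t1 - u1 * t0 = 0 := by
    by_contra h
    apply n2
    apply cz
    · apply mul_left_cancel₀ h
      linear_combination t1 * e1 - t0 * e2
    · apply mul_left_cancel₀ h
      linear_combination u0 * e2 - u1 * e1
  have e6 : a3 * b1 - a1 * b3 = 0 := by
    apply mul_left_cancel₀ (mul_ne_zero hu ht)
    linear_combination t0 * e4 - t1 * e3 + l * (a3 * b1 - a1 * b3) * e5
  apply n3
  apply cz _ _ e6
  apply mul_left_cancel₀ ht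
  linear_combination e3 - l * u0 * e6

omit [CharZero K] in
lemma alg2 (l μ : K) (h0 : μ ≠ 0) (h1 : μ ≠ 1) (p1 p2 q1 q2 : R K)
    (hu : ∀ a b : K, (inl a * p1 + inl b * q1 : R K).fst = 0 →
      (inl a * p2 + inl b * q2 : R K).fst = 0 → a = 0 ∧ b = 0)
    (h : ∀ i : Fin 4, ∃ j, ell (inl l + DualNumber.eps)
      (inl (![0, 1, 1, μ] i) * p1 + inl (![1, 0, -1, -1] i) * q1)
      (inl (![0, 1, 1, μ] i) * p2 + inl (![1, 0, -1, -1] i) * q2) j = 0) : False := by
  simp only [fst_add, fst_mul, fst_inl] at hu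
  have hD : p1.fst * q2.fst - p2.fst * q1.fst ≠ 0 := by
    intro hD
    have e1 := (hu q1.fst (-p1.fst) (by ring) (by linear_combination -hD)).2
    have e2 := (hu q2.fst (-p2.fst) (by linear_combination hD) (by ring)).2
    have := (hu 1 0 (by linear_combination -e1) (by linear_combination -e2)).1
    exact one_ne_zero this
  choose j hj using h
  have hf : ∀ (x y : R K) (J : Fin 4), (ell (inl l + DualNumber.eps) x y J).fst =
      ![1, 0, 1, 1] J * x.fst + ![0, 1, 1, l] J * y.fst := by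
    intro x y J
    fin_cases J <;> simp [ell]
  have hinj : Function.Injective j := by
    intro i i' hii
    by_contra hne
    have e1 := congrArg fst (hj i)
    have e2 := congrArg fst (hj i')
    rw [hf] at e1 e2
    rw [← hii] at e2
    simp only [fst_add, fst_mul, fst_inl, fst_zero] at e1 e2
    have hdet : ![0, 1, 1, μ] i * ![1, 0, -1, -1] i' - ![0, 1, 1, μ] i' * ![1, 0, -1, -1] i ≠ 0 := by
      fin_cases i <;> fin_cases i' <;> simp [h0, sub_eq_zero, neg_add_eq_zero, h1, h1.symm] at hne ⊢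
    have hab : ¬ ((![1, 0, 1, 1] (j i) : K) = 0 ∧ (![0, 1, 1, l] (j i) : K) = 0) := by
      generalize j i = J
      fin_cases J <;> simp
    generalize (![1, 0, 1, 1] (j i) : K) = α at *
    generalize (![0, 1, 1, l] (j i) : K) = β at *
    generalize (![0, 1, 1, μ] i : K) = a at *
    generalize (![0, 1, 1, μ] i' : K) = a' at *
    generalize (![1, 0, -1, -1] i : K) = b at *
    generalize (![1, 0, -1, -1] i' : K) = b' at *
    have e3 : α * p1.fst + β * p2.fst = 0 := by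
      apply mul_left_cancel₀ hdet
      linear_combination b' * e1 - b * e2
    have e4 : α * q1.fst + β * q2.fst = 0 := by
      apply mul_left_cancel₀ hdet
      linear_combination a * e2 - a' * e1
    apply hab
    constructor
    · apply mul_left_cancel₀ hD
      linear_combination q2.fst * e3 - p2.fst * e4
    · apply mul_left_cancel₀ hD
      linear_combination p1.fst * e4 - q1.fst * e3
  have hs := Finite.injective_iff_surjective.mp hinj
  have hall : ∀ J : Fin 4, ∃ a b : K, ¬ (a = 0 ∧ b = 0) ∧ ell (inl l + DualNumber.eps)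
      (inl a * p1 + inl b * q1) (inl a * p2 + inl b * q2) J = 0 := by
    intro J
    obtain ⟨i, rfl⟩ := hs J
    refine ⟨_, _, ?_, hj i⟩
    fin_cases i <;> simp
  obtain ⟨a0, b0, n0, k0⟩ := hall 0
  obtain ⟨a1, b1, n1, k1⟩ := hall 1
  obtain ⟨a2, b2, n2, k2⟩ := hall 2
  obtain ⟨a3, b3, n3, k3⟩ := hall 3
  refine alg p1.fst p1.snd p2.fst p2.snd q1.fst q1.snd q2.fst q2.snd l a0 b0 a1 b1 a2 b2 a3 b3 hD
    n0 n1 n2 n3 ?_ ?_ ?_ ?_ ?_ ?_ ?_ ?_
  · simpa [ell] using congrArg fst k0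
  · simpa [ell] using congrArg snd k0
  · simpa [ell] using congrArg fst k1
  · simpa [ell] using congrArg snd k1
  · simpa [ell] using congrArg fst k2
  · simpa [ell] using congrArg snd k2
  · simpa [ell] using congrArg fst k3
  · simpa [ell] using congrArg snd k3

end Pool.Agent.Lib.helper24.SemiAlg
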