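import Pool.Agent.Lib.helper24.SemiAlg

set_option autoImplicit false

namespace Pool.Agent.Lib.helper24.SemiAlg

open TrivSqZeroExt

variable {K : Type} [Field K]

lemma ksmul (a : K) (w : V K) : a • w = (inl a : R K) • w := (algebraMap_smul (R K) a w).symm

lemma mul_nil (a b : R K) (ha : a.fst = 0) (hb : b.fst = 0) : a * b = 0 := by
  ext <;> simp [ha, hb]

lemma eps_unit : IsUnit (1 + DualNumber.eps : R K) := by
  rw [isUnit_iff_isUnit_fst]
  simp

lemma a_sub {Λ : R K} (g : Gam Λ) (w : V K) : g.a w = w + act Λ (g.r - 1) g.x g.y w := by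
  have := act_lin Λ 1 1 1 0 0 ((g.r : R K) - 1) g.x g.y w
  simp only [one_mul, one_smul, act_one, zero_add, add_sub_cancel] at this
  exact this

lemma act_000 (Λ : R K) (w : V K) : act Λ 0 0 0 w = 0 := by rw [act_scalar, zero_smul]

theorem no_semilin [CharZero K] (lam : K) (h0 : lam ≠ 0) (h1 : lam ≠ 1) (Λ Λ' : R K)
    (hΛ : Λ = inl lam) (hΛ' : Λ' = inl lam + DualNumber.eps)
    (φ : Gam Λ ≃* Gam Λ') (σ : K ≃+* K)
    (hs : ∀ (a : K) (w : V K), (φ (tr _ (a • w))).v = σ a • (φ (tr _ w)).v) : False := by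
  let ψ : V K → V K := fun w => (φ (tr Λ w)).v
  have hψ : ∀ w, φ (tr Λ w) = tr Λ' (ψ w) := fun w => map_tr φ.toMonoidHom w
  have ψadd : ∀ w u, ψ (w + u) = ψ w + ψ u := by
    intro w u
    apply tr_inj (Λ := Λ')
    rw [← hψ, tr_add, map_mul, hψ, hψ, tr_add]
  have ψinj : ∀ w, ψ w = 0 → w = 0 := by
    intro w hw
    apply tr_inj (Λ := Λ)
    apply φ.injective
    rw [hψ, hw]
    exact (map_one φ).symm
  have ψ0 : ψ 0 = 0 := by
    have := ψadd 0 0
    rw [add_zero] at this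
    exact add_eq_left.mp this.symm
  have ψsurj : ∀ v, ∃ w, ψ w = v := by
    intro v
    refine ⟨(φ.symm (tr Λ' v)).v, ?_⟩
    apply tr_inj (Λ := Λ')
    have := map_tr φ.symm.toMonoidHom v
    simp only [MulEquiv.coe_toMonoidHom] at this
    rw [← hψ, ← this, MulEquiv.apply_symm_apply]
  have ψa : ∀ (g : Gam Λ) w, ψ (act Λ (g.r - 1) g.x g.y w) =
      act Λ' ((φ g).r - 1) (φ g).x (φ g).y (ψ w) := by
    intro g w
    have h2 := congrArg φ (mul_tr g w)
    rw [map_mul, map_mul, hψ, hψ, mul_tr] at h2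
    have h3 := tr_inj (mul_right_cancel h2)
    rw [a_sub, a_sub, ψadd] at h3
    exact (add_left_cancel h3).symm
  have nil : ∀ g : Gam Λ, (∀ w, act Λ (g.r - 1) g.x g.y (act Λ (g.r - 1) g.x g.y w) = 0) →
      (((φ g).r : R K) - 1).fst = 0 := by
    intro g hg
    obtain ⟨w, hw⟩ := ψsurj (fun _ => (1, 0))
    have h2 := congrArg ψ (hg w)
    rw [ψa, ψa, hw, ψ0] at h2
    have h3 := congrArg (fun v : V K => (v 0).1.fst) h2
    simp only [act, mul_one, fst_mul, Pi.zero_apply, Prod.fst_zero, fst_zero] at h3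
    exact mul_self_eq_zero.mp h3
  let gx : Gam Λ := ⟨1, 1, 0, 0⟩
  let gy : Gam Λ := ⟨1, 0, 1, 0⟩
  let ge : Gam Λ := ⟨eps_unit.unit, 0, 0, 0⟩
  obtain ⟨ρP, p1, p2, hP0, hP⟩ : ∃ ρ x y : R K, ρ.fst = 0 ∧
      ∀ w, ψ (act Λ 0 1 0 w) = act Λ' ρ x y (ψ w) := by
    refine ⟨_, _, _, nil gx ?_, fun w => by simpa [gx] using ψa gx w⟩
    intro w
    simp [gx, act_act, act_000]
  obtain ⟨ρQ, q1, q2, hQ0, hQ⟩ : ∃ ρ x y : R K, ρ.fst = 0 ∧
      ∀ w, ψ (act Λ 0 0 1 w) = act Λ' ρ x y (ψ w) := by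
    refine ⟨_, _, _, nil gy ?_, fun w => by simpa [gy] using ψa gy w⟩
    intro w
    simp [gy, act_act, act_000]
  obtain ⟨ρE, e1, e2, hE0, hE⟩ : ∃ ρ x y : R K, ρ.fst = 0 ∧
      ∀ w, ψ (act Λ DualNumber.eps 0 0 w) = act Λ' ρ x y (ψ w) := by
    refine ⟨_, _, _, nil ge ?_, fun w => by simpa [ge] using ψa ge w⟩
    intro w
    simp [ge, act_act, act_000]
  have hN : ∀ (a b : K) (w : V K), ψ (act Λ 0 (inl a) (inl b) w) =
      act Λ' (inl (σ a) * ρP + inl (σ b) * ρQ) (inl (σ a) * p1 + inl (σ b) * q1)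
        (inl (σ a) * p2 + inl (σ b) * q2) (ψ w) := by
    intro a b w
    have h2 := act_lin Λ (inl a) (inl b) 0 1 0 0 0 1 w
    simp only [mul_zero, add_zero, mul_one, zero_add] at h2
    rw [h2, ψadd, act_lin, ← ksmul, ← ksmul, ← ksmul, ← ksmul, ← hP, ← hQ]
    exact congrArg₂ (· + ·) (hs _ _) (hs _ _)
  have S3 : ∀ (a b c d : K) (w : V K), act Λ 0 (inl a) (inl b) w = 0 →
      act Λ DualNumber.eps 0 0 (act Λ 0 (inl c) (inl d) w) ≠ 0 →
      (inl (σ a) * ρP + inl (σ b) * ρQ : R K) = 0 ∧ ∃ j, ell Λ' (inl (σ a) * p1 + inl (σ b) * q1)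
        (inl (σ a) * p2 + inl (σ b) * q2) j = 0 := by
    intro a b c d w hw hne
    have h2 : ∃ j, (ψ w j).1.fst ≠ 0 := by
      by_contra hc
      push Not at hc
      apply hne
      apply ψinj
      rw [hE, hN]
      have h3 : (inl (σ c) * ρP + inl (σ d) * ρQ : R K).fst = 0 := by simp [hP0, hQ0]
      generalize (inl (σ c) * ρP + inl (σ d) * ρQ : R K) = ρ at *
      funext j
      simp only [act, mul_nil _ _ h3 (hc j), mul_zero, add_zero, Pi.zero_apply]
      rw [mul_nil _ _ hE0 (by simp [h3, hc j])]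
      rfl
    obtain ⟨j, hj⟩ := h2
    have hu : IsUnit (ψ w j).1 := by
      rw [isUnit_iff_isUnit_fst]
      exact hj.isUnit
    have h4 := hN a b w
    rw [hw, ψ0] at h4
    have h5 := congrFun h4 j
    simp only [act, Pi.zero_apply, Prod.ext_iff, Prod.fst_zero, Prod.snd_zero] at h5
    have h6 := (hu.mul_left_eq_zero).mp h5.1.symm
    refine ⟨h6, j, ?_⟩
    have h7 := h5.2
    rw [h6, zero_mul, zero_add] at h7
    exact (hu.mul_left_eq_zero).mp h7.symm
  have heps : (DualNumber.eps : R K) ≠ 0 := by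
    intro h
    simpa using congrArg snd h
  have T : ∀ i : Fin 4, (inl (σ (![0, 1, 1, lam] i)) * ρP + inl (σ (![1, 0, -1, -1] i)) * ρQ : R K)
      = 0 ∧ ∃ j, ell Λ' (inl (σ (![0, 1, 1, lam] i)) * p1 + inl (σ (![1, 0, -1, -1] i)) * q1)
        (inl (σ (![0, 1, 1, lam] i)) * p2 + inl (σ (![1, 0, -1, -1] i)) * q2) j = 0 := by
    intro i
    refine S3 _ _ (![1, 0, 1, 1] i) (![0, 1, 0, 0] i) (Pi.single i (1, 0)) ?_ ?_
    · funext j
      by_cases hj : j = i
      · subst hj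
        fin_cases j <;> simp [act, ell, hΛ, Prod.ext_iff]
      · simp [act, Pi.single_eq_of_ne hj]
    · intro h
      have h2 := congrArg (fun v : V K => (v i).2) h
      apply heps
      fin_cases i <;> simpa [act, ell] using h2
  have hQ1 : ρQ = 0 := by simpa using (T 0).1
  have hP1 : ρP = 0 := by simpa using (T 1).1
  refine alg2 lam (σ lam) (by simpa using h0) (by simpa using h1) p1 p2 q1 q2 ?_ ?_
  · intro a b ha hb
    have h2 := hE (act Λ 0 (inl (σ.symm a)) (inl (σ.symm b)) (fun _ => (1, 0)))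
    rw [hN, act_act Λ', hP1, hQ1, RingEquiv.apply_symm_apply, RingEquiv.apply_symm_apply,
      mul_nil _ _ hE0 ha, mul_nil _ _ hE0 hb] at h2
    simp only [mul_zero, add_zero, zero_mul, act_000] at h2
    have h3 := ψinj _ h2
    have h4 := congrArg (fun v : V K => (v 0).2.snd) h3
    have h5 := congrArg (fun v : V K => (v 1).2.snd) h3
    simp [act, ell] at h4 h5
    exact ⟨h4, h5⟩
  · intro i
    obtain ⟨j, hj⟩ := (T i).2
    refine ⟨j, ?_⟩
    rw [← hj, hΛ']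
    fin_cases i <;> simp

end Pool.Agent.Lib.helper24.SemiAlg
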