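import Pool.Agent.Lib.helper24.SemiAlg2

set_option autoImplicit false

namespace Pool.Agent.Lib.helper24.SemiAlg

open TrivSqZeroExt

abbrev FF : Type := FractionRing (Polynomial ℚ)
abbrev KK : Type := AlgebraicClosure FF

noncomputable def lam : KK := algebraMap (Polynomial ℚ) KK Polynomial.X

def BB : Type := DualNumber KK

noncomputable instance : CommRing BB := inferInstanceAs (CommRing (DualNumber KK))

noncomputable def toBB : Polynomial ℚ →+* DualNumber KK :=
  (Polynomial.aeval (inl lam + DualNumber.eps : DualNumber KK)).toRingHom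

noncomputable instance : Algebra (Polynomial ℚ) BB := RingHom.toAlgebra (S := BB) toBB

noncomputable def prB : BB →ₐ[Polynomial ℚ] KK :=
  { (fstHom KK KK KK).toRingHom with
    commutes' := fun p => by
      have : ((fstHom KK KK KK).toRingHom.comp toBB) = algebraMap (Polynomial ℚ) KK := by
        apply Polynomial.ringHom_ext'
        · exact Subsingleton.elim _ _
        · simp [toBB, lam]
      exact DFunLike.congr_fun this p }

lemma exists_eta : ∃ η : KK →+* DualNumber KK, (∀ a, (η a).fst = a) ∧
    η lam = inl lam + DualNumber.eps := by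
  have h1 : Algebra.FormallySmooth (Polynomial ℚ) FF :=
    Algebra.FormallySmooth.of_isLocalization (nonZeroDivisors (Polynomial ℚ))
  have h2 : Algebra.FormallyEtale FF KK := Algebra.FormallyEtale.of_isSeparable FF KK
  have h3 : Algebra.FormallySmooth (Polynomial ℚ) KK := Algebra.FormallySmooth.comp _ FF _
  have hs : Function.Surjective prB := fun a => ⟨(inl a : DualNumber KK), rfl⟩
  have hn : IsNilpotent (RingHom.ker (prB : BB →+* KK)) := by
    refine ⟨2, ?_⟩
    rw [pow_two, Ideal.zero_eq_bot, eq_bot_iff, Ideal.mul_le]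
    intro a ha b hb
    exact mul_nil (K := KK) a b ha hb
  let η := Algebra.FormallySmooth.liftOfSurjective (AlgHom.id (Polynomial ℚ) KK) prB hs hn
  refine ⟨η.toRingHom, fun a => Algebra.FormallySmooth.liftOfSurjective_apply _ prB hs hn a, ?_⟩
  have := η.commutes Polynomial.X
  refine this.trans ?_
  show toBB Polynomial.X = _
  simp [toBB]

lemma exists_theta : ∃ θ : R KK ≃+* R KK, θ (inl lam) = inl lam + DualNumber.eps := by
  obtain ⟨η, h1, h2⟩ := exists_eta
  refine ⟨{ toFun := fun z => η z.fst + inr z.snd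
            invFun := fun z => inl z.fst + inr (z.snd - (η z.fst).snd)
            left_inv := fun z => by ext <;> simp [h1]
            right_inv := fun z => by ext <;> simp [h1]
            map_mul' := fun z w => by
              ext
              · simp [h1]
              · simp [h1]; ring
            map_add' := fun z w => by
              ext
              · simp [h1]
              · simp; ring }, ?_⟩
  simpa using h2

lemma lam_ne : lam ≠ 0 ∧ lam ≠ 1 := by
  obtain ⟨θ, h⟩ := exists_theta
  constructor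
  · intro h0
    rw [h0] at h
    simpa using congrArg snd h
  · intro h0
    rw [h0, inl_one, map_one] at h
    simpa using congrArg snd h

variable {K : Type} [Field K]

def IsPoly (f : K → K) : Prop := ∃ P : Polynomial K, ∀ t, f t = P.eval t

lemma poly_lin (a b : K) : IsPoly fun t => a + t * b :=
  ⟨Polynomial.C a + Polynomial.X * Polynomial.C b, fun t => by
    rw [Polynomial.eval_add, Polynomial.eval_mul, Polynomial.eval_X, Polynomial.eval_C,
      Polynomial.eval_C]⟩

lemma poly_mv {σ : Type} (F : K → σ → K) (h : ∀ s, IsPoly fun t => F t s) (p : MvPolynomial σ K) :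
    IsPoly fun t => MvPolynomial.eval (F t) p := by
  induction p using MvPolynomial.induction_on with
  | C a => exact ⟨Polynomial.C a, fun t => by simp⟩
  | add p q hp hq =>
    obtain ⟨P, hP⟩ := hp
    obtain ⟨Q, hQ⟩ := hq
    exact ⟨P + Q, fun t => by simp [← hP, ← hQ]⟩
  | mul_X p s hp =>
    obtain ⟨P, hP⟩ := hp
    obtain ⟨Q, hQ⟩ := h s
    exact ⟨P * Q, fun t => by simp [← hP, ← hQ]⟩

lemma poly_det {n : ℕ} (A : K → Matrix (Fin n) (Fin n) K) (h : ∀ i j, IsPoly fun t => A t i j) :
    IsPoly fun t => (A t).det := by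
  choose P hP using h
  refine ⟨(Matrix.of P).det, fun t => ?_⟩
  have := (Polynomial.evalRingHom t).map_det (Matrix.of P)
  rw [Polynomial.coe_evalRingHom] at this
  rw [this]
  refine congrArg Matrix.det ?_
  ext i j
  simp [← hP]

lemma poly_add [CharZero K] (f : K → K) (hf : IsPoly f) (ha : ∀ s t, f (s + t) = f s + f t)
    (t : K) : f t = t * f 1 := by
  obtain ⟨P, hP⟩ := hf
  have h0 : f 0 = 0 := by
    have := ha 0 0
    rw [add_zero] at this
    exact add_eq_left.mp this.symm
  have hn : ∀ n : ℕ, f n = n * f 1 := by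
    intro n
    induction n with
    | zero => simp [h0]
    | succ n ih => push_cast; rw [ha, ih]; ring
  have h : P - Polynomial.X * Polynomial.C (f 1) = 0 := by
    apply Polynomial.eq_zero_of_infinite_isRoot
    refine Set.Infinite.mono ?_ (Set.infinite_range_of_injective (Nat.cast_injective (R := K)))
    rintro _ ⟨n, rfl⟩
    show Polynomial.eval _ _ = 0
    rw [Polynomial.eval_sub, Polynomial.eval_mul, Polynomial.eval_X, Polynomial.eval_C, ← hP, hn,
      sub_self]
  have := congrArg (Polynomial.eval t) h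
  simp only [Polynomial.eval_sub, Polynomial.eval_mul, Polynomial.eval_X, Polynomial.eval_C,
    Polynomial.eval_zero, ← hP] at this
  exact sub_eq_zero.mp this

instance : Module.Finite K (R K) := inferInstanceAs (Module.Finite K (K × K))

abbrev W (K : Type) [Field K] : Type := V K × K
noncomputable abbrev dm (K : Type) [Field K] : ℕ := Module.finrank K (W K)

noncomputable def mat : Module.End K (W K) ≃ₐ[K] Matrix (Fin (dm K)) (Fin (dm K)) K :=
  LinearMap.toMatrixAlgEquiv (Module.finBasis K (W K))

lemma act_ksmul (Λ r x y : R K) (a : K) (w : V K) : act Λ r x y (a • w) = a • act Λ r x y w := by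
  rw [ksmul, ksmul, act_smul]

def el0 (Λ : R K) (z : R K × R K × R K × V K) : Module.End K (W K) where
  toFun u := (act Λ z.1 z.2.1 z.2.2.1 u.1 + u.2 • z.2.2.2, 0)
  map_add' u u' := by
    ext1
    · simp only [Prod.fst_add, Prod.snd_add, act_add, add_smul]; abel
    · simp
  map_smul' a u := by
    ext1
    · simp only [Prod.smul_fst, Prod.smul_snd, act_ksmul, smul_add, RingHom.id_apply, smul_assoc]
    · simp

lemma el0_apply (Λ : R K) (z : R K × R K × R K × V K) (u : W K) :
    el0 Λ z u = (act Λ z.1 z.2.1 z.2.2.1 u.1 + u.2 • z.2.2.2, 0) := rfl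

def el (Λ : R K) : (R K × R K × R K × V K) →ₗ[K] Module.End K (W K) where
  toFun := el0 Λ
  map_add' z z' := by
    refine LinearMap.ext fun u => ?_
    have := act_lin Λ 1 1 z.1 z.2.1 z.2.2.1 z'.1 z'.2.1 z'.2.2.1 u.1
    simp only [one_mul, one_smul] at this
    simp only [el0_apply, LinearMap.add_apply, Prod.fst_add, Prod.snd_add, this, smul_add,
      Prod.mk_add_mk, add_zero]
    congr 1
    abel
  map_smul' a z := by
    refine LinearMap.ext fun u => ?_
    have := act_lin Λ (inl a) 0 z.1 z.2.1 z.2.2.1 0 0 0 u.1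
    simp only [zero_mul, add_zero, zero_smul, ← ksmul] at this
    have h : ∀ c : R K, a • c = inl a * c := fun c => Algebra.smul_def a c
    simp only [el0_apply, LinearMap.smul_apply, Prod.smul_fst, Prod.smul_snd, h, this,
      RingHom.id_apply, Prod.smul_mk, smul_add, smul_zero, smul_comm u.2 a]

def rho0 (Λ : R K) : Gam Λ →* Module.End K (W K) where
  toFun g := 1 + el Λ (g.r - 1, g.x, g.y, g.v)
  map_one' := by
    have : (((1 : Gam Λ).r : R K) - 1, (1 : Gam Λ).x, (1 : Gam Λ).y, (1 : Gam Λ).v) = 0 := by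
      ext1
      · exact sub_self _
      · rfl
    rw [this, map_zero, add_zero]
  map_mul' g h := by
    have key : ∀ (g : Gam Λ) (u : W K), (1 + el Λ (g.r - 1, g.x, g.y, g.v)) u =
        (g.a u.1 + u.2 • g.v, u.2) := by
      intro g u
      rw [a_sub]
      ext1
      · exact (add_assoc _ _ _).symm
      · exact add_zero _
    refine LinearMap.ext fun u => ?_
    rw [Module.End.mul_apply, key, key, key, mul_a, mul_v, a_add, smul_add, add_assoc]
    simp only [Gam.a, act_ksmul]

lemma rho0_apply (Λ : R K) (g : Gam Λ) (u : W K) : rho0 Λ g u = (g.a u.1 + u.2 • g.v, u.2) := by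
  rw [a_sub]
  ext1
  · exact (add_assoc _ _ _).symm
  · exact add_zero _

noncomputable def rho (Λ : R K) : Gam Λ →* GL (Fin (dm K)) K :=
  ((mat (K := K)).toRingEquiv.toMonoidHom.comp (rho0 Λ)).toHomUnits

lemma rho_val (Λ : R K) (g : Gam Λ) : (rho Λ g : Matrix (Fin (dm K)) (Fin (dm K)) K) =
    1 + mat (el Λ (g.r - 1, g.x, g.y, g.v)) := by
  show mat (K := K) (1 + _) = _
  rw [map_add, map_one]

lemma rho_inj (Λ : R K) : Function.Injective (rho Λ) := by
  rw [injective_iff_map_eq_one]
  intro g hg
  have h : rho0 Λ g = 1 := mat.injective (by rw [map_one]; exact congrArg Units.val hg)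
  have h1 : g.v = 0 := by
    have := congrArg Prod.fst (rho0_apply Λ g (0, 1))
    simpa [h, a_zero] using this.symm
  have h2 := eq_tr g (fun w => by
    have := congrArg Prod.fst (rho0_apply Λ g (w, 0))
    simpa [h] using this.symm)
  rw [h2, h1]
  rfl

noncomputable def MM (Λ : R K) : Submodule K (Matrix (Fin (dm K)) (Fin (dm K)) K) :=
  LinearMap.range (mat.toLinearMap.comp (el Λ))

lemma mem_range (Λ : R K) (g : GL (Fin (dm K)) K) :
    g ∈ (rho Λ).range ↔ (g : Matrix (Fin (dm K)) (Fin (dm K)) K) - 1 ∈ MM Λ := by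
  constructor
  · rintro ⟨k, rfl⟩
    rw [rho_val, add_sub_cancel_left]
    exact ⟨_, rfl⟩
  · rintro ⟨⟨ρ, x, y, v⟩, h⟩
    have h1 : (g : Matrix (Fin (dm K)) (Fin (dm K)) K) = mat (1 + el Λ (ρ, x, y, v)) := by
      rw [map_add, map_one]
      exact eq_add_of_sub_eq' h.symm
    have hu : IsUnit (ρ + 1) := by
      by_contra hc
      rw [isUnit_iff_isUnit_fst, isUnit_iff_ne_zero, not_not] at hc
      have h2 : IsUnit (1 + el Λ (ρ, x, y, v)) := by
        have := g.isUnit.map mat.symm
        rwa [h1, AlgEquiv.symm_apply_apply] at this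
      have h3 := ((Module.End.isUnit_iff _).mp h2).1
      have h4 : (1 + el Λ (ρ, x, y, v)) (fun _ => (0, DualNumber.eps), 0) = 0 := by
        have h5 : DualNumber.eps + ρ * DualNumber.eps = 0 := by
          have := mul_nil (ρ + 1) DualNumber.eps hc rfl
          linear_combination this
        show (_, (0 : K)) + el0 Λ _ _ = 0
        rw [el0_apply]
        ext1
        · funext i
          simp [act, h5]
        · simp
      have h6 := h3 (h4.trans (map_zero _).symm)
      have h7 := congrArg (fun u : W K => (u.1 0).2.snd) h6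
      simp at h7
    refine ⟨⟨hu.unit, x, y, v⟩, Units.ext ?_⟩
    rw [rho_val, h1, map_add, map_one]
    simp

lemma closed_sub {n : ℕ} (M : Submodule K (Matrix (Fin n) (Fin n) K)) :
    ∃ S : Set (MvPolynomial (Fin n × Fin n) K), ∀ A : Matrix (Fin n) (Fin n) K,
      A - 1 ∈ M ↔ ∀ p ∈ S, MvPolynomial.eval (fun ij => A ij.1 ij.2) p = 0 := by
  let P : Module.Dual K (Matrix (Fin n) (Fin n) K) → MvPolynomial (Fin n × Fin n) K := fun f =>
    ∑ i, ∑ j, (MvPolynomial.X (i, j) - MvPolynomial.C ((1 : Matrix (Fin n) (Fin n) K) i j)) *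
      MvPolynomial.C (f (Matrix.single i j 1))
  have hP : ∀ f A, MvPolynomial.eval (fun ij : Fin n × Fin n => A ij.1 ij.2) (P f) = f (A - 1) := by
    intro f A
    conv_rhs => rw [Matrix.matrix_eq_sum_single (A - 1)]
    simp only [P, map_sum, map_mul, map_sub, MvPolynomial.eval_X, MvPolynomial.eval_C]
    refine Finset.sum_congr rfl fun i _ => Finset.sum_congr rfl fun j _ => ?_
    rw [← smul_eq_mul, ← map_smul, Matrix.smul_single, smul_eq_mul, mul_one, Matrix.sub_apply]
  refine ⟨P '' (M.dualAnnihilator : Set _), fun A => ?_⟩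
  rw [← Subspace.forall_mem_dualAnnihilator_apply_eq_zero_iff]
  constructor
  · rintro h _ ⟨f, hf, rfl⟩
    rw [hP, h f hf]
  · intro h f hf
    rw [← hP]
    exact h _ ⟨f, hf, rfl⟩

lemma conn_sub [CharZero K] {n : ℕ} (M : Submodule K (Matrix (Fin n) (Fin n) K))
    (G : Subgroup (GL (Fin n) K)) (hG : ∀ g, g ∈ G ↔ (g : Matrix (Fin n) (Fin n) K) - 1 ∈ M)
    (p q : MvPolynomial (Fin n × Fin n) K)
    (h : ∀ g ∈ G, MvPolynomial.eval (fun ij => (g : Matrix (Fin n) (Fin n) K) ij.1 ij.2) p *
      MvPolynomial.eval (fun ij => (g : Matrix (Fin n) (Fin n) K) ij.1 ij.2) q = 0) :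
    (∀ g ∈ G, MvPolynomial.eval (fun ij => (g : Matrix (Fin n) (Fin n) K) ij.1 ij.2) p = 0) ∨
    (∀ g ∈ G, MvPolynomial.eval (fun ij => (g : Matrix (Fin n) (Fin n) K) ij.1 ij.2) q = 0) := by
  by_contra hc
  push Not at hc
  obtain ⟨⟨a, ha, hp⟩, ⟨b, hb, hq⟩⟩ := hc
  let A : K → Matrix (Fin n) (Fin n) K := fun t => (a : Matrix (Fin n) (Fin n) K) + t • (b - a)
  have hA : ∀ i j, IsPoly fun t => A t i j := fun i j => poly_lin _ _
  obtain ⟨D, hD⟩ := poly_det A hA
  obtain ⟨P, hP⟩ := poly_mv (fun t (ij : Fin n × Fin n) => A t ij.1 ij.2) (fun ij => hA _ _) p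
  obtain ⟨Q, hQ⟩ := poly_mv (fun t (ij : Fin n × Fin n) => A t ij.1 ij.2) (fun ij => hA _ _) q
  have h0 : A 0 = a := by simp [A]
  have h1 : A 1 = b := by simp [A]
  have hz : D * (P * Q) = 0 := by
    apply Polynomial.funext
    intro t
    simp only [Polynomial.eval_mul, ← hD, ← hP, ← hQ, Polynomial.eval_zero]
    by_cases hd : (A t).det = 0
    · rw [hd, zero_mul]
    · have hm : Matrix.GeneralLinearGroup.mkOfDetNeZero (A t) hd ∈ G := by
        rw [hG]
        have e : A t - 1 = ((a : Matrix (Fin n) (Fin n) K) - 1) +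
            t • (((b : Matrix (Fin n) (Fin n) K) - 1) - ((a : Matrix (Fin n) (Fin n) K) - 1)) := by
          simp only [A, sub_sub_sub_cancel_right]
          abel
        show A t - 1 ∈ M
        rw [e]
        exact M.add_mem ((hG a).mp ha) (M.smul_mem _ (M.sub_mem ((hG b).mp hb) ((hG a).mp ha)))
      have := h _ hm
      exact mul_eq_zero_of_right _ this
  rcases mul_eq_zero.mp hz with h2 | h2
  · have := hD 0
    simp only [h0, h2, Polynomial.eval_zero] at this
    exact Matrix.GeneralLinearGroup.det_ne_zero a this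
  · rcases mul_eq_zero.mp h2 with h3 | h3
    · have := hP 0
      simp only [h0, h3, Polynomial.eval_zero] at this
      exact hp this
    · have := hQ 1
      simp only [h1, h3, Polynomial.eval_zero] at this
      exact hq this

end Pool.Agent.Lib.helper24.SemiAlg
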