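import Pool.Agent.Lib.helper24.SkewOre

set_option autoImplicit false

namespace Pool.Agent.Lib.helper24.SemiDiv

open Pool.Agent.Lib.helper24.SkewOre

instance : Fact (Irreducible (Polynomial.cyclotomic 7 ℚ)) :=
  ⟨Polynomial.cyclotomic.irreducible_rat (by norm_num)⟩

instance : Fact (Nat.Prime 7) := ⟨by norm_num⟩

abbrev K : Type := AdjoinRoot (Polynomial.cyclotomic 7 ℚ)

noncomputable def om : K := AdjoinRoot.root _

instance : CharZero K := algebraRat.charZero K

lemma om_prim : IsPrimitiveRoot om 7 := by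
  have : NeZero ((7 : ℕ) : K) := ⟨by norm_num⟩
  rw [← Polynomial.isRoot_cyclotomic_iff, ← Polynomial.map_cyclotomic 7 (algebraMap ℚ K)]
  exact AdjoinRoot.isRoot_root _

noncomputable def gam : K →+* K :=
  AdjoinRoot.lift (algebraMap ℚ K) (om ^ 3) (by
    have h := (om_prim.pow_of_coprime 3 (by norm_num)).isRoot_cyclotomic (by norm_num)
    rw [← Polynomial.map_cyclotomic 7 (algebraMap ℚ K), Polynomial.IsRoot.def,
      Polynomial.eval_map] at h
    exact h)

lemma gam_om : gam om = om ^ 3 := AdjoinRoot.lift_root _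

def L : Type := HahnSeries ℤ K

noncomputable instance : Field L := inferInstanceAs (Field (HahnSeries ℤ K))

def co (x : L) (n : ℤ) : K := HahnSeries.coeff x n

noncomputable def cst : K →+* L := HahnSeries.C

noncomputable def tp (i : ℕ) : L := HahnSeries.single (i : ℤ) (1 : K)

noncomputable def mapH : HahnSeries ℤ K →+* HahnSeries ℤ K where
  toFun x := x.map gam
  map_one' := HahnSeries.map_one gam.toMonoidWithZeroHom
  map_mul' _ _ := HahnSeries.map_mul gam.toNonUnitalRingHom
  map_zero' := by ext; simp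
  map_add' _ _ := HahnSeries.map_add gam.toAddMonoidHom

def mul18 : ℤ →+ ℤ := AddMonoidHom.mulLeft 18

noncomputable def emb : HahnSeries ℤ K →+* HahnSeries ℤ K :=
  HahnSeries.embDomainRingHom mul18 (fun a b h => by
    simp only [mul18, AddMonoidHom.coe_mulLeft] at h; omega)
    (fun a b => by simp only [mul18, AddMonoidHom.coe_mulLeft]; omega)

noncomputable def phi : L →+* L := emb.comp mapH

/-- series supported on multiples of 18 -/
def Sp (x : L) : Prop := ∀ n : ℤ, ¬ (18 ∣ n) → co x n = 0

lemma sp_phi (x : L) : Sp (phi x) := by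
  intro n hn
  apply HahnSeries.embDomain_of_notMem_range
  rintro ⟨m, rfl⟩
  exact hn ⟨m, rfl⟩

lemma phi_cst (a : K) : phi (cst a) = cst (gam a) := by
  have h1 : mapH (HahnSeries.C a) = HahnSeries.C (gam a) := by
    ext n
    show gam (HahnSeries.coeff (HahnSeries.C a) n) = _
    simp only [HahnSeries.C_apply, HahnSeries.coeff_single]
    split_ifs <;> simp
  show emb (mapH (HahnSeries.C a)) = HahnSeries.C (gam a)
  rw [h1]
  exact HahnSeries.embDomainRingHom_C

lemma co_sum {ι : Type} (s : Finset ι) (f : ι → L) (n : ℤ) :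
    co (∑ i ∈ s, f i) n = ∑ i ∈ s, co (f i) n := HahnSeries.coeff_sum n

lemma co_cst (a : K) (x : L) (n : ℤ) : co (cst a * x) n = a * co x n :=
  HahnSeries.coeff_single_zero_mul

lemma co_tp (i : ℕ) (x : L) (n : ℤ) : co (tp i * x) n = co x (n - i) := by
  have := HahnSeries.coeff_single_mul_add (r := (1 : K)) (x := x) (a := n - i) (b := (i : ℤ))
  rw [sub_add_cancel, one_mul] at this
  exact this

lemma co_zero (n : ℤ) : co 0 n = 0 := rfl

lemma co_ext (x : L) (h : ∀ n, co x n = 0) : x = 0 := HahnSeries.ext (funext h)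

def idx (x : Fin 3 × Fin 6) : ℕ := 6 * x.1.val + x.2.val

lemma indep_tp (b : Fin 3 × Fin 6 → L) (hb : ∀ x, Sp (b x))
    (h : ∑ x, tp (idx x) * b x = 0) (x0 : Fin 3 × Fin 6) : b x0 = 0 := by
  apply co_ext
  intro n
  by_cases hn : 18 ∣ n
  · have h1 := congrArg (fun y => co y (n + idx x0)) h
    simp only [co_sum, co_tp, co_zero] at h1
    rw [Finset.sum_eq_single x0] at h1
    · simpa using h1
    · intro x _ hx
      apply hb
      intro h2
      apply hx
      obtain ⟨j, k⟩ := x
      obtain ⟨j0, k0⟩ := x0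
      simp only [idx] at h2
      have := j.2; have := k.2; have := j0.2; have := k0.2
      ext <;> simp only <;> omega
    · simp
  · exact hb x0 n hn

noncomputable instance : MulSemiringAction (Multiplicative ℕ) L :=
  MulSemiringAction.compHom L (powersHom (L →+* L) phi)

lemma tw_eq (k : ℕ) (x : L) : tw k x = (phi ^ k) x := rfl

lemma sp_tw (k : ℕ) (x : L) : Sp (tw (k + 1) x) := by
  rw [tw_eq, pow_succ']
  exact sp_phi _

instance : CharZero L := charZero_of_injective_ringHom cst.injective

noncomputable def chi : AddChar (ZMod 7) K :=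
  AddChar.zmodChar 7 ((IsPrimitiveRoot.iff_def om 7).mp om_prim).left

lemma chi_prim : chi.IsPrimitive := AddChar.zmodChar_primitive_of_primitive_root 7 om_prim

lemma gam_chi (e : ZMod 7) : gam (chi e) = chi (e * 3) := by
  have h : chi (e * 3) = chi e ^ 3 := by
    rw [← AddChar.map_nsmul_eq_pow]
    congr 1
    simp [mul_comm]
  rw [h, chi, AddChar.zmodChar_apply, map_pow, gam_om, ← pow_mul, ← pow_mul, mul_comm]

/-- powers of the root of unity inside `L` -/
noncomputable def w (e : ZMod 7) : L := cst (chi e)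

lemma w_add (a b : ZMod 7) : w (a + b) = w a * w b := by
  simp only [w, AddChar.map_add_eq_mul, map_mul]

lemma tw_w (k : ℕ) (e : ZMod 7) : tw k (w e) = w (e * 3 ^ k) := by
  rw [tw_eq]
  induction k with
  | zero => simp
  | succ k ih =>
    rw [pow_succ', RingHom.mul_def, RingHom.comp_apply, ih, w, phi_cst, gam_chi, pow_succ, mul_assoc]
    rfl

lemma fourier (y : ZMod 7 → L) (h2 : y 2 = 0)
    (h : ∀ g : ZMod 7, g ≠ 0 → ∑ e, w (e * g) * y e = 0) (e0 : ZMod 7) : y e0 = 0 := by
  have key : ∀ e0, (7 : L) * y e0 = ∑ e, y e := by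
    intro e0
    have h1 : ∑ g : ZMod 7, w (g * (-e0)) * ∑ e, w (e * g) * y e = ∑ e, y e := by
      rw [Finset.sum_eq_single 0]
      · simp [w]
      · intro g _ hg
        rw [h g hg, mul_zero]
      · simp
    rw [← h1]
    simp only [Finset.mul_sum]
    rw [Finset.sum_comm]
    have h3 : ∀ e, ∑ g : ZMod 7, w (g * (-e0)) * (w (e * g) * y e) =
        (if e = e0 then 7 else 0) * y e := by
      intro e
      have h4 := congrArg cst (AddChar.sum_mulShift (e - e0) chi_prim)
      rw [map_sum] at h4
      simp only [← mul_assoc, ← w_add]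
      rw [← Finset.sum_mul]
      congr 1
      have h5 : ∀ g : ZMod 7, w (g * (-e0) + e * g) = cst (chi (g * (e - e0))) := by
        intro g
        rw [w]
        congr 2
        ring
      simp only [h5, h4, sub_eq_zero]
      split_ifs <;> simp [map_ofNat]
    simp only [h3]
    simp
  have h5 := key e0
  rw [← key 2, h2, mul_zero] at h5
  exact (mul_eq_zero.mp h5).resolve_left (by norm_num)

open SkewPolynomial

abbrev R : Type := SkewPolynomial L

noncomputable def XX (j : Fin 3) : R := ∑ k : Fin 6, monomial (k.val + 1) (tp (idx (j, k)))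

/-- the letter `ω^e X_j` -/
noncomputable def lt (x : ZMod 7 × Fin 3) : R := monomial 0 (w x.1) * XX x.2

lemma coeff_lt (x : ZMod 7 × Fin 3) (r : R) (N : ℕ) : coeff (lt x * r) N =
    ∑ k : Fin 6, if k.val + 1 ≤ N then
      tp (idx (x.2, k)) * (w x.1 * tw (k.val + 1) (coeff r (N - (k.val + 1)))) else 0 := by
  rw [lt, mul_assoc, coeff_mono_mul, if_pos (Nat.zero_le _), Nat.sub_zero, tw_eq, pow_zero,
    RingHom.one_def, RingHom.id_apply, XX, Finset.sum_mul, coeff_finsum, Finset.mul_sum]
  refine Finset.sum_congr rfl fun k _ => ?_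
  rw [coeff_mono_mul]
  split_ifs
  · ring
  · simp

lemma pow3 : ∀ g : ZMod 7, g ≠ 0 → ∃ k : Fin 6, (3 : ZMod 7) ^ (5 - k.val) = g := by decide

lemma swap3 {A B C M : Type} [Fintype A] [Fintype B] [Fintype C] [AddCommMonoid M]
    (F : A × B → C → M) : ∑ x, ∑ k, F x k = ∑ y : B × C, ∑ e, F (e, y.1) y.2 := by
  rw [Fintype.sum_prod_type, Fintype.sum_prod_type, Finset.sum_comm]
  exact Finset.sum_congr rfl fun j _ => Finset.sum_comm

lemma key (c : L) (r : ZMod 7 × Fin 3 → R) (h2 : ∀ j, r (2, j) = 0)
    (h : monomial 0 c + ∑ x, lt x * r x = 0) : c = 0 ∧ ∀ x, r x = 0 := by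
  constructor
  · have := congrArg (fun p => coeff p 0) h
    simpa [coeff_add, coeff_finsum, coeff_lt, coeff_monomial] using this
  · have h1 : ∀ (j : Fin 3) (k : Fin 6) (n : ℕ),
        ∑ e : ZMod 7, w e * tw (k.val + 1) (coeff (r (e, j)) n) = 0 := by
      intro j k n
      have h3 := congrArg (fun p => coeff p (n + (k.val + 1))) h
      simp only [coeff_add, coeff_finsum, coeff_lt, coeff_monomial, coeff_zero] at h3
      rw [if_neg (by omega), zero_add] at h3
      have h4 := indep_tp (fun x => if x.2.val + 1 ≤ n + (k.val + 1) then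
        ∑ e : ZMod 7, w e * tw (x.2.val + 1) (coeff (r (e, x.1)) (n + (k.val + 1) - (x.2.val + 1)))
        else 0) ?_ ?_ (j, k)
      · simpa using h4
      · intro x m hm
        split_ifs
        · rw [co_sum]
          apply Finset.sum_eq_zero
          intro e _
          rw [w, co_cst, sp_tw _ _ m hm, mul_zero]
        · rfl
      · refine Eq.trans ?_ ((swap3 _).symm.trans h3)
        refine Finset.sum_congr rfl fun y _ => ?_
        split_ifs
        · rw [Finset.mul_sum]
        · simp
    rintro ⟨e0, j⟩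
    ext n
    rw [coeff_zero]
    have h5 := fourier (fun e => tw 6 (coeff (r (e, j)) n)) (by simp [h2]) ?_ e0
    · exact (map_eq_zero _).mp h5
    · intro g hg
      obtain ⟨k, rfl⟩ := pow3 g hg
      have h6 := congrArg (tw (5 - k.val)) (h1 j k n)
      rw [map_sum, map_zero] at h6
      refine Eq.trans ?_ h6
      refine Finset.sum_congr rfl fun e _ => ?_
      rw [map_mul, tw_w]
      congr 1
      rw [tw_eq, tw_eq, tw_eq, ← RingHom.comp_apply, ← RingHom.mul_def, ← pow_add]
      congr 2
      have := k.2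
      omega

noncomputable def qq : ℚ →+* R := CRingHom.comp (algebraMap ℚ L)

lemma qq_eq (q : ℚ) : qq q = monomial 0 (algebraMap ℚ L q) := rfl

lemma qq_comm (q : ℚ) (r : R) : qq q * r = r * qq q := by
  conv_lhs => rw [as_sum r]
  conv_rhs => rw [as_sum r]
  rw [Finset.mul_sum, Finset.sum_mul]
  refine Finset.sum_congr rfl fun n _ => ?_
  rw [qq_eq, mono_mul, mono_mul, zero_add, add_zero, tw_eq 0, pow_zero, RingHom.one_def,
    RingHom.id_apply, eq_ratCast, map_ratCast, mul_comm]

noncomputable def evL (l : List (ZMod 7 × Fin 3)) : R := (l.map lt).prod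

noncomputable def tot (f : List (ZMod 7 × Fin 3) →₀ ℚ) : R := f.sum fun l q => qq q * evL l

lemma tot_add (f g : List (ZMod 7 × Fin 3) →₀ ℚ) : tot (f + g) = tot f + tot g :=
  Finsupp.sum_add_index' (by simp) (by intros; rw [map_add, add_mul])

lemma tot_single (l : List (ZMod 7 × Fin 3)) (q : ℚ) : tot (Finsupp.single l q) = qq q * evL l :=
  Finsupp.sum_single_index (by simp)

noncomputable def tl (x : ZMod 7 × Fin 3) (f : List (ZMod 7 × Fin 3) →₀ ℚ) :
    List (ZMod 7 × Fin 3) →₀ ℚ :=
  f.comapDomain (List.cons x) (List.cons_injective.injOn)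

lemma tl_apply (x : ZMod 7 × Fin 3) (f : List (ZMod 7 × Fin 3) →₀ ℚ) (l : List (ZMod 7 × Fin 3)) :
    tl x f l = f (x :: l) := rfl

lemma tot_split (f : List (ZMod 7 × Fin 3) →₀ ℚ) :
    tot f = qq (f []) + ∑ x, lt x * tot (tl x f) := by
  induction f using Finsupp.induction_linear with
  | zero =>
    have : ∀ x, tl x 0 = 0 := fun x => by ext; simp [tl_apply]
    simp [this, tot]
  | add f g hf hg =>
    have : ∀ x, tl x (f + g) = tl x f + tl x g := fun x => by ext; simp [tl_apply]
    simp only [this, tot_add, mul_add, Finset.sum_add_distrib, Finsupp.add_apply, map_add]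
    rw [hf, hg]
    abel
  | single l q =>
    cases l with
    | nil =>
      have : ∀ x, tl x (Finsupp.single [] q) = 0 := fun x => by ext; simp [tl_apply]
      simp [this, tot_single, evL, tot]
    | cons y t =>
      have h1 : tl y (Finsupp.single (y :: t) q) = Finsupp.single t q := by
        ext l; simp [tl_apply, Finsupp.single_apply]
      have h2 : ∀ x, x ≠ y → tl x (Finsupp.single (y :: t) q) = 0 := by
        intro x hx
        ext l
        simp [tl_apply, Finsupp.single_apply, hx.symm]
      rw [Finset.sum_eq_single y, h1, tot_single, tot_single]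
      · rw [Finsupp.single_eq_of_ne (by simp), map_zero, zero_add, evL, List.map_cons,
          List.prod_cons, ← mul_assoc, ← mul_assoc, qq_comm]
        rfl
      · intro x _ hx
        rw [h2 x hx]
        simp [tot]
      · simp

lemma indep (n : ℕ) : ∀ f : List (ZMod 7 × Fin 3) →₀ ℚ,
    (∀ l, f l ≠ 0 → l.length < n ∧ ∀ x ∈ l, x.1 ≠ 2) → tot f = 0 → f = 0 := by
  induction n with
  | zero =>
    intro f hf _
    ext l
    by_contra h
    exact absurd (hf l h).1 (by omega)
  | succ n ih =>
    intro f hf h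
    rw [tot_split, qq_eq] at h
    obtain ⟨h1, h2⟩ := key _ (fun x => tot (tl x f)) (fun j => by
      have : tl (2, j) f = 0 := by
        ext l
        by_contra h3
        exact (hf _ h3).2 (2, j) List.mem_cons_self rfl
      simp [this, tot]) h
    ext l
    cases l with
    | nil => simpa using h1
    | cons x t =>
      have := ih (tl x f) (fun l hl => ⟨by have := (hf _ hl).1; simpa using this,
        fun y hy => (hf _ hl).2 y (List.mem_cons_of_mem _ hy)⟩) (h2 x)
      rw [← tl_apply, this]
      rfl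

lemma indep' (f : List (ZMod 7 × Fin 3) →₀ ℚ) (hf : ∀ l, f l ≠ 0 → ∀ x ∈ l, x.1 ≠ 2)
    (h : tot f = 0) : f = 0 := by
  refine indep (f.support.sup List.length + 1) f (fun l hl => ⟨?_, hf l hl⟩) h
  exact Nat.lt_succ_of_le (Finset.le_sup (Finsupp.mem_support_iff.mpr hl))

end Pool.Agent.Lib.helper24.SemiDiv
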