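import Pool.Agent.Lib.helper24.SemiDiv

set_option autoImplicit false

namespace Pool.Agent.Lib.helper24.SemiDiv

open Pool.Agent.Lib.helper24.SkewOre

/-- step of the progression attached to a letter -/
def dd (i : Fin 3) : ZMod 7 := if i = 0 then 1 else if i = 1 then 2 else 4
def b0 (i : Fin 3) : ZMod 7 := if i = 0 then 0 else if i = 1 then 1 else 3

def aa (i : Fin 3) (s : Fin 3) : ZMod 7 := 3 + (s.val : ZMod 7) * dd i
def bb (i : Fin 3) (r : Fin 2) : ZMod 7 := b0 i + (r.val : ZMod 7) * dd i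

lemma aa_ne : ∀ i s, aa i s ≠ 2 := by decide
lemma bb_ne : ∀ i r, bb i r ≠ 2 := by decide
lemma ab_ne : ∀ i s j r, aa i s + bb j r ≠ 2 := by decide
lemma aa_inj : ∀ i s s', aa i s = aa i s' → s = s' := by decide
lemma bb_inj : ∀ i r r', bb i r = bb i r' → r = r' := by decide
lemma ab_mono : ∀ i s s' j r r', s ≤ s' → r ≤ r' → aa i s + bb j r = aa i s' + bb j r' →
    s = s' ∧ r = r' := by decide

def lastL : Fin 3 → List (ZMod 7 × Fin 3) → Fin 3
  | i, [] => i
  | _, x :: t => lastL x.2 t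

lemma lastL_app (i : Fin 3) (m : List (ZMod 7 × Fin 3)) (x : ZMod 7 × Fin 3)
    (t : List (ZMod 7 × Fin 3)) : lastL i (m ++ x :: t) = lastL x.2 t := by
  induction m generalizing i with
  | nil => rfl
  | cons y m ih => exact ih y.2

@[ext] structure S where
  r : Fin 2
  i : Fin 3
  mid : List (ZMod 7 × Fin 3)
  s : Fin 3
  hm : ∀ x ∈ mid, x.1 ≠ 2

def S.a (u : S) : ZMod 7 := aa (lastL u.i u.mid) u.s
def S.b (u : S) : ZMod 7 := bb u.i u.r

instance : Mul S := ⟨fun u v => ⟨u.r, u.i, u.mid ++ (u.a + v.b, v.i) :: v.mid, v.s, by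
  intro x hx
  simp only [List.mem_append, List.mem_cons] at hx
  rcases hx with hx | rfl | hx
  · exact u.hm x hx
  · exact ab_ne _ _ _ _
  · exact v.hm x hx⟩⟩

lemma mul_r (u v : S) : (u * v).r = u.r := rfl
lemma mul_i (u v : S) : (u * v).i = u.i := rfl
lemma mul_s (u v : S) : (u * v).s = v.s := rfl
lemma mul_mid (u v : S) : (u * v).mid = u.mid ++ (u.a + v.b, v.i) :: v.mid := rfl
lemma mul_b (u v : S) : (u * v).b = u.b := rfl
lemma mul_a (u v : S) : (u * v).a = v.a := by
  rw [S.a, mul_mid, lastL_app]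
  rfl

instance : Semigroup S where
  mul_assoc u v t := by
    ext1
    · rfl
    · rfl
    · simp only [mul_mid, mul_a, mul_b, mul_i, List.append_assoc, List.cons_append]
    · rfl

instance : UniqueProds S where
  uniqueMul_of_nonempty := by
    intro A B hA hB
    obtain ⟨u0, hu0, hu⟩ := A.exists_max_image (fun u => 3 * u.mid.length + u.s.val) hA
    obtain ⟨v0, hv0, hv⟩ := B.exists_max_image (fun v => 3 * v.mid.length + v.r.val) hB
    refine ⟨u0, hu0, v0, hv0, fun u v h1 h2 h => ?_⟩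
    have h3 := hu u h1
    have h4 := hv v h2
    have hmid := congrArg S.mid h
    rw [mul_mid, mul_mid] at hmid
    have hlen := congrArg List.length hmid
    simp only [List.length_append, List.length_cons] at hlen
    have := u.s.2; have := u0.s.2; have := v.r.2; have := v0.r.2
    have hl : u.mid.length = u0.mid.length := by omega
    obtain ⟨e1, e2⟩ := List.append_inj hmid hl
    obtain ⟨e3, e4⟩ := List.cons.inj e2
    obtain ⟨e5, e6⟩ := Prod.mk.inj e3
    have e7 : u.i = u0.i := (congrArg S.i h : (u * v).i = (u0 * v0).i)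
    have e8 : u.r = u0.r := (congrArg S.r h : (u * v).r = (u0 * v0).r)
    have e9 : v.s = v0.s := (congrArg S.s h : (u * v).s = (u0 * v0).s)
    rw [S.a, S.a, S.b, S.b, e7, e1, e6] at e5
    obtain ⟨e10, e11⟩ := ab_mono _ _ _ _ _ _ (by rw [Fin.le_def]; omega) (by rw [Fin.le_def]; omega) e5
    exact ⟨S.ext e8 e7 e1 e10, S.ext e11 e6 e4 e9⟩

open SkewPolynomial

noncomputable def ww (e : ZMod 7) : R := monomial 0 (w e)

lemma ww_add (a b : ZMod 7) : ww (a + b) = ww a * ww b := by
  rw [ww, ww, ww, mono_mul, w_add, tw_eq, pow_zero]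
  rfl

noncomputable def ev : S →ₙ* R where
  toFun u := evL ((u.b, u.i) :: u.mid) * ww u.a
  map_mul' u v := by
    rw [mul_a, mul_b, mul_i, mul_mid]
    simp only [evL, List.map_cons, List.prod_cons, List.map_append, List.prod_append, lt]
    rw [show (monomial 0 (w (u.a + v.b)) : R) = ww u.a * monomial 0 (w v.b) from ww_add _ _]
    simp only [mul_assoc]

def tau (u : S) : List (ZMod 7 × Fin 3) := (u.b, u.i) :: (u.mid ++ [(u.a, 0)])

lemma ev_tau (u : S) : ev u * XX 0 = evL (tau u) := by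
  show evL ((u.b, u.i) :: u.mid) * ww u.a * XX 0 = _
  simp only [tau, evL, List.map_cons, List.prod_cons, List.map_append, List.prod_append, lt,
    List.map_nil, List.prod_nil, mul_one, mul_assoc, ww]

lemma tau_inj : Function.Injective tau := by
  intro u v h
  obtain ⟨e1, e2⟩ := List.cons.inj h
  obtain ⟨e3, e4⟩ := Prod.mk.inj e1
  obtain ⟨e5, e6⟩ := List.append_inj' e2 rfl
  obtain ⟨e7, _⟩ := Prod.mk.inj (List.cons.inj e6).1
  rw [S.b, S.b, e4] at e3
  rw [S.a, S.a, e4, e5] at e7
  exact S.ext (bb_inj _ _ _ e3) e4 e5 (aa_inj _ _ _ e7)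

lemma tau_good (u : S) : ∀ x ∈ tau u, x.1 ≠ 2 := by
  intro x hx
  simp only [tau, List.mem_cons, List.mem_append, List.not_mem_nil, or_false] at hx
  rcases hx with rfl | hx | rfl
  · exact bb_ne _ _
  · exact u.hm x hx
  · exact aa_ne _ _

noncomputable def FF : MonoidAlgebra ℚ S →ₙ+* R :=
  { MonoidAlgebra.liftNC (qq : ℚ →+ R) ev with
    map_mul' := fun a b => MonoidAlgebra.liftNC_mul qq ev a b (fun _ => qq_comm _ _) }

lemma FF_single (u : S) (q : ℚ) : FF (MonoidAlgebra.single u q) = qq q * ev u :=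
  MonoidAlgebra.liftNC_single _ _ _ _

lemma FF_tot (c : MonoidAlgebra ℚ S) : FF c * XX 0 = tot (c.coeff.mapDomain tau) := by
  induction c using MonoidAlgebra.induction_linear with
  | zero => simp [tot]
  | add f g hf hg =>
    rw [map_add, add_mul, hf, hg, MonoidAlgebra.coeff_add, Finsupp.mapDomain_add, tot_add]
  | single u q =>
    rw [FF_single, mul_assoc, ev_tau, MonoidAlgebra.coeff_single, Finsupp.mapDomain_single,
      tot_single]

lemma FF_inj : Function.Injective FF := by
  rw [injective_iff_map_eq_zero]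
  intro c hc
  have h := FF_tot c
  rw [hc, zero_mul] at h
  have h2 := indep' _ (fun l hl => by
    have h3 : l ∈ Set.range tau := by
      by_contra h4
      exact hl (Finsupp.mapDomain_notin_range _ _ h4)
    obtain ⟨u, rfl⟩ := h3
    exact tau_good u) h.symm
  have h3 : c.coeff = 0 := Finsupp.mapDomain_injective tau_inj (by rw [h2, Finsupp.mapDomain_zero])
  exact MonoidAlgebra.coeff_injective h3

theorem embeds_Q : ∃ (D : Type) (_ : DivisionRing D) (f : MonoidAlgebra ℚ S →ₙ+* D),
    Function.Injective f := by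
  obtain ⟨D, _, f, hf⟩ := embeds (L := L)
  exact ⟨D, inferInstance, f.toNonUnitalRingHom.comp FF, hf.comp FF_inj⟩

def pp (i s : Fin 3) : S := ⟨0, i, [], s, by simp⟩
def qS (j : Fin 3) (r : Fin 2) : S := ⟨r, j, [], 0, by simp⟩

lemma rel (i s s' j : Fin 3) (h : aa i s + bb j 0 = aa i s' + bb j 1) :
    pp i s * qS j 0 = pp i s' * qS j 1 := by
  ext1
  · rfl
  · rfl
  · rw [mul_mid, mul_mid]
    exact congrArg (fun e => [(e, j)]) h
  · rfl

theorem not_embeds : ¬ ∃ (D : Type) (_ : DivisionRing D) (f : MonoidAlgebra (ZMod 7) S →ₙ+* D),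
    Function.Injective f := by
  rintro ⟨D, _, f, hf⟩
  let g : S → D := fun u => f (MonoidAlgebra.single u 1)
  have ginj : ∀ u v, g u = g v → u = v := fun u v h =>
    (MonoidAlgebra.single_left_inj one_ne_zero).mp (hf h)
  have g0 : ∀ u, g u ≠ 0 := by
    intro u h
    have h1 : MonoidAlgebra.single u (1 : ZMod 7) = 0 := hf (by rw [map_zero]; exact h)
    simp at h1
  have gmul : ∀ u v, g (u * v) = g u * g v := by
    intro u v
    simp only [g, ← map_mul, MonoidAlgebra.single_mul_single, mul_one]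
  have h7 : ((7 : ℕ) : D) = 0 := by
    have h1 : (7 : ℕ) • MonoidAlgebra.single (pp 0 0) (1 : ZMod 7) = 0 := by
      rw [MonoidAlgebra.smul_single]
      have : (7 : ℕ) • (1 : ZMod 7) = 0 := by decide
      rw [this, MonoidAlgebra.single_zero]
    have h2 : (7 : ℕ) • g (pp 0 0) = 0 := by
      simp only [g]
      rw [← map_nsmul, h1, map_zero]
    rw [nsmul_eq_mul] at h2
    exact (mul_eq_zero.mp h2).resolve_right (g0 _)
  have : CharP D 7 := (CharP.charP_iff_prime_eq_zero (by norm_num)).mpr h7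
  let u : Fin 3 → D := fun j => g (qS j 1) * (g (qS j 0))⁻¹
  have step : ∀ i s s' j : Fin 3, aa i s + bb j 0 = aa i s' + bb j 1 →
      g (pp i s) = g (pp i s') * u j := by
    intro i s s' j h
    have h1 := congrArg g (rel i s s' j h)
    rw [gmul, gmul] at h1
    simp only [u]
    rw [← mul_assoc, ← h1, mul_inv_cancel_right₀ (g0 _)]
  have sq : ∀ i j : Fin 3, aa i 1 + bb i 0 = aa i 0 + bb i 1 → aa i 2 + bb i 0 = aa i 1 + bb i 1 →
      aa i 2 + bb j 0 = aa i 0 + bb j 1 → u j = u i * u i := by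
    intro i j h1 h2 h3
    have e1 := step _ _ _ _ h1
    have e2 := step _ _ _ _ h2
    have e3 := step _ _ _ _ h3
    rw [e2, e1, mul_assoc] at e3
    exact (mul_left_cancel₀ (g0 _) e3).symm
  have s1 := sq 0 1 (by decide) (by decide) (by decide)
  have s2 := sq 1 2 (by decide) (by decide) (by decide)
  have s3 := sq 2 0 (by decide) (by decide) (by decide)
  have u0 : u 0 ≠ 0 := mul_ne_zero (g0 _) (inv_ne_zero (g0 _))
  have h8 : u 0 ^ 7 = 1 := by
    apply mul_left_cancel₀ u0
    rw [mul_one]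
    conv_rhs => rw [s3, s2, s1]
    simp only [pow_succ, pow_zero, one_mul, mul_assoc]
  have h9 : (u 0 - 1) ^ 7 = 0 := by
    rw [sub_pow_char_of_commute _ (Commute.one_right _), h8, one_pow, sub_self]
  have h10 : u 0 = 1 := sub_eq_zero.mp (pow_eq_zero_iff (by norm_num) |>.mp h9)
  have h11 : g (qS 0 1) = g (qS 0 0) := (mul_inv_eq_one₀ (g0 _)).mp h10
  have := congrArg S.r (ginj _ _ h11)
  revert this
  decide

end Pool.Agent.Lib.helper24.SemiDiv
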