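import Mathlib

set_option autoImplicit false

namespace Pool.Agent.SemiInf

/-- Terms in the signature `(+, ·)` over countably many variables. -/
inductive Tm : Type
  | var : ℕ → Tm
  | add : Tm → Tm → Tm
  | mul : Tm → Tm → Tm

/-- Value of a term under an assignment. -/
def Tm.eval {A : Type} [Add A] [Mul A] (ρ : ℕ → A) : Tm → A
  | .var n => ρ n
  | .add s t => s.eval ρ + t.eval ρ
  | .mul s t => s.eval ρ * t.eval ρ

/-- The identity `e.1 ≈ e.2` holds in `A`. -/
def Holds (A : Type) [Add A] [Mul A] (e : Tm × Tm) : Prop := ∀ ρ : ℕ → A, e.1.eval ρ = e.2.eval ρ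

/-- The variety generated by `S` is defined by finitely many identities. -/
def FinBased (S : Type) [Add S] [Mul S] : Prop :=
  ∃ E : Set (Tm × Tm), E.Finite ∧ ∀ (A : Type) [Add A] [Mul A],
    (∀ e ∈ E, Holds A e) ↔ (∀ e, Holds S e → Holds A e)

/-- `S` with a new element `∞` (namely `none`). -/
def Inf (S : Type) : Type := Option S

instance (S : Type) [Add S] : Add (Inf S) :=
  ⟨fun x y => match x, y with
    | some a, some b => some (a + b)
    | _, _ => none⟩

instance (S : Type) [Mul S] : Mul (Inf S) :=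
  ⟨fun x y => match x, y with
    | some a, some b => some (a * b)
    | _, _ => none⟩

def subst (φ : ℕ → Tm) : Tm → Tm
  | .var n => φ n
  | .add s t => .add (subst φ s) (subst φ t)
  | .mul s t => .mul (subst φ s) (subst φ t)

def occ (P : ℕ → Prop) : Tm → Prop
  | .var n => P n
  | .add s t => occ P s ∨ occ P t
  | .mul s t => occ P s ∨ occ P t

def Oc (x : ℕ) (t : Tm) : Prop := occ (fun n => n = x) t

def Reg (s t : Tm) : Prop := ∀ P, occ P s ↔ occ P t

def cons {α : Type} (w : α) (θ : ℕ → α) : ℕ → α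
  | 0 => w
  | n + 1 => θ n

theorem eval_subst {A : Type} [Add A] [Mul A] (ρ : ℕ → A) (φ : ℕ → Tm) (t : Tm) :
    (subst φ t).eval ρ = t.eval (fun n => (φ n).eval ρ) := by
  induction t with
  | var n => rfl
  | add s t hs ht => simp only [subst, Tm.eval, hs, ht]
  | mul s t hs ht => simp only [subst, Tm.eval, hs, ht]

theorem occ_subst (P : ℕ → Prop) (φ : ℕ → Tm) (t : Tm) :
    occ P (subst φ t) ↔ occ (fun n => occ P (φ n)) t := by
  induction t with
  | var n => rfl
  | add s t hs ht => simp only [subst, occ, hs, ht]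
  | mul s t hs ht => simp only [subst, occ, hs, ht]

theorem occ_iff (P : ℕ → Prop) (t : Tm) : occ P t ↔ ∃ x, Oc x t ∧ P x := by
  induction t with
  | var n => simp [occ, Oc]
  | add s t hs ht =>
    simp only [occ, Oc] at *; rw [hs, ht]
    exact ⟨fun h => h.elim (fun ⟨x, a, b⟩ => ⟨x, Or.inl a, b⟩) (fun ⟨x, a, b⟩ => ⟨x, Or.inr a, b⟩),
      fun ⟨x, a, b⟩ => a.elim (fun a => Or.inl ⟨x, a, b⟩) (fun a => Or.inr ⟨x, a, b⟩)⟩
  | mul s t hs ht =>
    simp only [occ, Oc] at *; rw [hs, ht]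
    exact ⟨fun h => h.elim (fun ⟨x, a, b⟩ => ⟨x, Or.inl a, b⟩) (fun ⟨x, a, b⟩ => ⟨x, Or.inr a, b⟩),
      fun ⟨x, a, b⟩ => a.elim (fun a => Or.inl ⟨x, a, b⟩) (fun a => Or.inr ⟨x, a, b⟩)⟩

theorem exists_Oc (t : Tm) : ∃ x, Oc x t := by
  induction t with
  | var n => exact ⟨n, rfl⟩
  | add s t hs _ => exact hs.imp fun _ h => Or.inl h
  | mul s t hs _ => exact hs.imp fun _ h => Or.inl h

theorem eval_congr {A : Type} [Add A] [Mul A] (ρ ρ' : ℕ → A) (t : Tm)
    (h : ∀ x, Oc x t → ρ x = ρ' x) : t.eval ρ = t.eval ρ' := by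
  induction t with
  | var n => exact h n rfl
  | add s t hs ht =>
    simp only [Tm.eval]
    rw [hs fun x hx => h x (Or.inl hx), ht fun x hx => h x (Or.inr hx)]
  | mul s t hs ht =>
    simp only [Tm.eval]
    rw [hs fun x hx => h x (Or.inl hx), ht fun x hx => h x (Or.inr hx)]

theorem eval_cons_subst {A : Type} [Add A] [Mul A] (ρ : ℕ → A) (W : Tm) (φ : ℕ → Tm) (G : Tm) :
    (subst (cons W φ) G).eval ρ = G.eval (cons (W.eval ρ) (fun n => (φ n).eval ρ)) := by
  rw [eval_subst]; congr 1; funext n; cases n <;> rfl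

theorem occ_cons_subst (P : ℕ → Prop) (W : Tm) (φ : ℕ → Tm) (G : Tm) :
    occ P (subst (cons W φ) G) ↔ occ (cons (occ P W) (fun n => occ P (φ n))) G := by
  rw [occ_subst]
  have : (fun n => occ P (cons W φ n)) = cons (occ P W) (fun n => occ P (φ n)) := by
    funext n; cases n <;> rfl
  rw [this]

/-! identities of `Inf S` -/
section inf
variable {S : Type} [Add S] [Mul S]

theorem inf_some (θ : ℕ → S) (t : Tm) :
    (t.eval (A := Inf S) (fun n => some (θ n))) = some (t.eval θ) := by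
  induction t with
  | var n => rfl
  | add s t hs ht => simp only [Tm.eval, hs, ht]; rfl
  | mul s t hs ht => simp only [Tm.eval, hs, ht]; rfl

theorem inf_none (ρ : ℕ → Inf S) (t : Tm) : t.eval ρ = none ↔ occ (fun n => ρ n = none) t := by
  induction t with
  | var n => rfl
  | add s t hs ht =>
    simp only [Tm.eval, occ, ← hs, ← ht]
    rcases s.eval ρ with _ | a <;> rcases t.eval ρ with _ | b <;>
      simp [HAdd.hAdd, Add.add]
  | mul s t hs ht =>
    simp only [Tm.eval, occ, ← hs, ← ht]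
    rcases s.eval ρ with _ | a <;> rcases t.eval ρ with _ | b <;>
      simp [HMul.hMul, Mul.mul]

theorem holds_inf [Nonempty S] (e : Tm × Tm) : Holds (Inf S) e ↔ Reg e.1 e.2 ∧ Holds S e := by
  classical
  obtain ⟨s0⟩ := ‹Nonempty S›
  constructor
  · intro h
    constructor
    · intro P
      have h1 := h (fun n => if P n then none else some s0)
      have h2 : ∀ t : Tm, (t.eval (A := Inf S) (fun n => if P n then none else some s0) = none) ↔
          occ P t := by
        intro t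
        rw [inf_none]
        have : (fun n => ((if P n then none else some s0 : Inf S) = none)) = P := by
          funext n; by_cases hp : P n
          · exact propext ⟨fun _ => hp, fun _ => if_pos hp⟩
          · simp only [hp, if_false, eq_iff_iff, iff_false]; intro h; cases h
        rw [this]
      rw [← h2, ← h2, h1]
    · intro θ
      have h1 := h (fun n => some (θ n))
      rw [inf_some, inf_some] at h1
      exact Option.some.inj h1
  · rintro ⟨hr, hs⟩ ρ
    by_cases h0 : occ (fun n => ρ n = none) e.1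
    · rw [(inf_none ρ _).mpr h0, (inf_none ρ _).mpr ((hr _).mp h0)]
    · have h1 : ¬ occ (fun n => ρ n = none) e.2 := fun h => h0 ((hr _).mpr h)
      have key : ∀ t : Tm, ¬ occ (fun n => ρ n = none) t →
          t.eval ρ = some (t.eval (fun n => Option.getD (ρ n) s0)) := by
        intro t ht
        rw [← inf_some]
        apply eval_congr
        intro x hx
        rcases hρ : ρ x with _ | a
        · exact absurd ((occ_iff _ _).mpr ⟨x, hx, hρ⟩) ht
        · rfl
      rw [key _ h0, key _ h1, hs]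

end inf

/-! derivations -/
inductive Der (E : Set (Tm × Tm)) : Tm → Tm → Prop
  | ax (e : Tm × Tm) (he : e ∈ E) (φ : ℕ → Tm) : Der E (subst φ e.1) (subst φ e.2)
  | refl (t : Tm) : Der E t t
  | symm {s t : Tm} : Der E s t → Der E t s
  | trans {s t r : Tm} : Der E s t → Der E t r → Der E s r
  | add {s t s' t' : Tm} : Der E s t → Der E s' t' → Der E (.add s s') (.add t t')
  | mul {s t s' t' : Tm} : Der E s t → Der E s' t' → Der E (.mul s s') (.mul t t')

def dS (E : Set (Tm × Tm)) : Setoid Tm := ⟨Der E, Der.refl, Der.symm, Der.trans⟩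

def FA (E : Set (Tm × Tm)) : Type := Quotient (dS E)

instance (E : Set (Tm × Tm)) : Add (FA E) :=
  ⟨Quotient.map₂' Tm.add (fun _ _ h _ _ h' => Der.add h h')⟩
instance (E : Set (Tm × Tm)) : Mul (FA E) :=
  ⟨Quotient.map₂' Tm.mul (fun _ _ h _ _ h' => Der.mul h h')⟩

theorem FA_eval (E : Set (Tm × Tm)) (φ : ℕ → Tm) (t : Tm) :
    t.eval (A := FA E) (fun n => Quotient.mk (dS E) (φ n)) = Quotient.mk (dS E) (subst φ t) := by
  induction t with
  | var n => rfl
  | add s t hs ht => simp only [Tm.eval, hs, ht]; rfl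
  | mul s t hs ht => simp only [Tm.eval, hs, ht]; rfl

theorem subst_var (t : Tm) : subst Tm.var t = t := by
  induction t with
  | var n => rfl
  | add s t hs ht => simp only [subst, hs, ht]
  | mul s t hs ht => simp only [subst, hs, ht]

theorem FA_holds (E : Set (Tm × Tm)) : ∀ e ∈ E, Holds (FA E) e := by
  intro e he ρ
  choose φ hφ using fun n => Quotient.exists_rep (s := dS E) (ρ n)
  have : ρ = fun n => Quotient.mk (dS E) (φ n) := funext fun n => (hφ n).symm
  rw [this, FA_eval, FA_eval]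
  exact Quotient.sound (Der.ax e he φ)

theorem der_of_FA (E : Set (Tm × Tm)) (e : Tm × Tm) (h : Holds (FA E) e) : Der E e.1 e.2 := by
  have := h (fun n => Quotient.mk (dS E) (Tm.var n))
  rw [FA_eval, FA_eval, subst_var, subst_var] at this
  exact Quotient.exact this

/-! carriers in the semiring `S` -/
section carrier
variable (S : Type) [AddCommSemigroup S] [Semigroup S] [LeftDistribClass S] [RightDistribClass S]

theorem cons_indep (u : Tm) (hu : ¬ Oc 0 u) (θ : ℕ → S) (w w' : S) :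
    u.eval (cons w θ) = u.eval (cons w' θ) := by
  apply eval_congr
  intro x hx
  cases x with
  | zero => exact absurd hx hu
  | succ n => rfl

theorem dup (u : Tm) : Oc 0 u → ∃ g : Tm, Oc 0 g ∧ (∀ P, occ P g → occ P u) ∧
    ∀ (θ : ℕ → S) (w : S), u.eval (cons (w + w) θ) = u.eval (cons w θ) + g.eval (cons w θ) := by
  induction u with
  | var n =>
    intro h
    have : n = 0 := h
    subst this
    exact ⟨.var 0, rfl, fun _ h => h, fun _ _ => rfl⟩
  | add s t hs ht =>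
    intro h
    by_cases h1 : Oc 0 s
    · obtain ⟨g1, a1, b1, c1⟩ := hs h1
      by_cases h2 : Oc 0 t
      · obtain ⟨g2, a2, b2, c2⟩ := ht h2
        refine ⟨.add g1 g2, Or.inl a1, fun P h => h.imp (b1 P) (b2 P), fun θ w => ?_⟩
        simp only [Tm.eval, c1, c2]; ac_rfl
      · refine ⟨g1, a1, fun P h => Or.inl (b1 P h), fun θ w => ?_⟩
        simp only [Tm.eval, c1, cons_indep S t h2 θ (w + w) w]; ac_rfl
    · have h2 : Oc 0 t := Or.resolve_left h h1
      obtain ⟨g2, a2, b2, c2⟩ := ht h2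
      refine ⟨g2, a2, fun P h => Or.inr (b2 P h), fun θ w => ?_⟩
      simp only [Tm.eval, c2, cons_indep S s h1 θ (w + w) w]; ac_rfl
  | mul s t hs ht =>
    intro h
    by_cases h1 : Oc 0 s
    · obtain ⟨g1, a1, b1, c1⟩ := hs h1
      by_cases h2 : Oc 0 t
      · obtain ⟨g2, a2, b2, c2⟩ := ht h2
        refine ⟨.add (.mul s g2) (.add (.mul g1 t) (.mul g1 g2)), Or.inl (Or.inr a2),
          fun P h => ?_, fun θ w => ?_⟩
        · have := b1 P; have := b2 P
          simp only [occ] at *; tauto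
        · simp only [Tm.eval, c1, c2, mul_add, add_mul]; ac_rfl
      · refine ⟨.mul g1 t, Or.inl a1, fun P h => h.imp (b1 P) id, fun θ w => ?_⟩
        simp only [Tm.eval, c1, cons_indep S t h2 θ (w + w) w, add_mul]
    · have h2 : Oc 0 t := Or.resolve_left h h1
      obtain ⟨g2, a2, b2, c2⟩ := ht h2
      refine ⟨.mul s g2, Or.inr a2, fun P h => h.imp id (b2 P), fun θ w => ?_⟩
      simp only [Tm.eval, c2, cons_indep S s h1 θ (w + w) w, mul_add]

def Flx (t : Tm) : Prop := ∃ t' : Tm, Oc 0 t' ∧ (∀ θ w, occ (cons w θ) t' → occ θ t ∨ w) ∧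
  ∀ (θ : ℕ → S) (w : S), t'.eval (cons w θ) = t.eval θ

def IsG (t G : Tm) : Prop :=
  (∀ (θ : ℕ → S) (w : S), t.eval θ + G.eval (cons w θ) = t.eval θ) ∧
  (∀ (θ : ℕ → S) (w w' : S), G.eval (cons w θ) = G.eval (cons w' θ)) ∧
  ∀ θ w, occ (cons w θ) G ↔ w ∨ occ θ t

theorem exists_G (t : Tm) (h : Flx S t) : ∃ G, IsG S t G := by
  obtain ⟨t', a, b, c⟩ := h
  obtain ⟨g, a1, b1, c1⟩ := dup S t' a
  let sh : ℕ → Tm := fun n => .var (n + 1)
  let D : Tm := .mul (.var 0) (subst sh t)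
  have hG : ∀ (θ : ℕ → S) (w : S),
      (subst (cons (subst (cons D sh) t') sh) g).eval (cons w θ) =
        g.eval (cons (t.eval θ) θ) := by
    intro θ w
    rw [eval_cons_subst, eval_cons_subst]
    have : (fun n => (sh n).eval (cons w θ)) = θ := rfl
    rw [this, c]
  refine ⟨subst (cons (subst (cons D sh) t') sh) g, fun θ w => ?_, fun θ w w' => ?_, fun θ w => ?_⟩
  · rw [hG]
    have := c1 θ (t.eval θ)
    rw [c, c] at this
    exact this.symm
  · rw [hG, hG]
  · rw [occ_cons_subst, occ_cons_subst]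
    have h1 : (fun n => occ (cons w θ) (sh n)) = θ := rfl
    have h2 : occ (cons w θ) D ↔ w ∨ occ θ t := by
      simp only [D, occ, occ_subst]; rfl
    rw [h1, propext h2]
    constructor
    · intro h
      rcases b _ _ (b1 _ h) with h | h
      · exact Or.inr h
      · rcases b _ _ h with h | h
        · exact Or.inr h
        · exact h
    · intro h
      exact (occ_iff _ _).mpr ⟨0, a1, (occ_iff _ _).mpr ⟨0, a, h⟩⟩

theorem flx_of_irr (u v : Tm) (z : ℕ) (hu : Oc z u) (hv : ¬ Oc z v)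
    (h : ∀ θ : ℕ → S, u.eval θ = v.eval θ) : Flx S u ∧ Flx S v := by
  classical
  constructor
  · refine ⟨subst (fun n => if n = z then .var 0 else .var (n + 1)) u, ?_, ?_, ?_⟩
    · rw [Oc, occ_subst]
      exact (occ_iff _ _).mpr ⟨z, hu, by simp [occ]⟩
    · intro θ w hh
      rw [occ_subst] at hh
      obtain ⟨x, hx, hp⟩ := (occ_iff _ _).mp hh
      by_cases hxz : x = z
      · rw [if_pos hxz] at hp; exact Or.inr hp
      · rw [if_neg hxz] at hp; exact Or.inl ((occ_iff _ _).mpr ⟨x, hx, hp⟩)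
    · intro θ w
      rw [eval_subst, h, h]
      apply eval_congr
      intro x hx
      rw [if_neg (fun e : x = z => hv (e ▸ hx))]; rfl
  · refine ⟨subst (fun n => if Oc n v then .var (n + 1) else .var 0) u, ?_, ?_, ?_⟩
    · rw [Oc, occ_subst]
      exact (occ_iff _ _).mpr ⟨z, hu, by simp [occ, hv]⟩
    · intro θ w hh
      rw [occ_subst] at hh
      obtain ⟨x, _, hp⟩ := (occ_iff _ _).mp hh
      by_cases hxz : Oc x v
      · rw [if_pos hxz] at hp; exact Or.inl ((occ_iff _ _).mpr ⟨x, hxz, hp⟩)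
      · rw [if_neg hxz] at hp; exact Or.inr hp
    · intro θ w
      rw [eval_subst, h]
      apply eval_congr
      intro x hx
      rw [if_pos hx]; rfl

theorem flx_of_not_reg (e : Tm × Tm) (h : Holds S e) (hr : ¬ Reg e.1 e.2) :
    Flx S e.1 ∧ Flx S e.2 := by
  by_cases h1 : ∃ z, Oc z e.1 ∧ ¬ Oc z e.2
  · obtain ⟨z, a, b⟩ := h1
    exact flx_of_irr S _ _ z a b h
  · by_cases h2 : ∃ z, Oc z e.2 ∧ ¬ Oc z e.1
    · obtain ⟨z, a, b⟩ := h2
      exact (flx_of_irr S _ _ z a b fun θ => (h θ).symm).symm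
    · exfalso; apply hr
      push Not at h1 h2
      intro P
      rw [occ_iff, occ_iff]
      exact ⟨fun ⟨x, a, b⟩ => ⟨x, h1 x a, b⟩, fun ⟨x, a, b⟩ => ⟨x, h2 x a, b⟩⟩

end carrier


/-! the finite family of identities -/
def lm {A : Type} [Mul A] (b : Bool) (x z : A) : A := if b then x * z else z
def rm {A : Type} [Mul A] (b : Bool) (z x : A) : A := if b then z * x else z
def lmT (b : Bool) (x z : Tm) : Tm := if b then .mul x z else z
def rmT (b : Bool) (z x : Tm) : Tm := if b then .mul z x else z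

def sp (k : ℕ) : Tm := .var (3 * k + 2)
def r0 (t : Tm) : Tm := subst (fun n => .var (3 * n)) t
def r1 (t : Tm) : Tm := subst (fun n => .var (3 * n + 1)) t
def carT (G : Tm) (bc bd : Bool) (W : Tm) : Tm :=
  lmT bc (sp 0) (rmT bd (subst (cons W (fun n => .var (3 * n))) G) (sp 1))

def sch (G t u v : Tm) (bc bd ba bb : Bool) : ℕ → Tm × Tm
  | 0 => (carT G bc bd (.mul (.mul (sp 4) (sp 5)) (sp 6)),
      carT G bc bd (.mul (.mul (sp 4) (sp 6)) (sp 5)))
  | 1 => (carT G bc bd (.mul (.mul (sp 4) (sp 5)) (sp 5)), carT G bc bd (.mul (sp 4) (sp 5)))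
  | 2 => (carT G bc bd (.mul (sp 4) (.add (sp 5) (sp 6))),
      carT G bc bd (.mul (.mul (sp 4) (sp 5)) (sp 6)))
  | 3 => (.add (carT G bc bd (sp 4)) (sp 6), .add (carT G bc bd (.mul (sp 4) (sp 6))) (sp 6))
  | 4 => (carT G true bd (sp 4), carT G true bd (.mul (sp 4) (sp 0)))
  | 5 => (carT G bc true (sp 4), carT G bc true (.mul (sp 4) (sp 1)))
  | 6 => (r0 t, .add (r0 t) (carT G false false (.mul (r0 t) (r0 t))))
  | _ => (.add (lmT ba (sp 2) (rmT bb (r1 u) (sp 3)))
        (carT G bc bd (.mul (sp 4) (.mul (r1 u) (r1 v)))),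
      .add (lmT ba (sp 2) (rmT bb (r1 v) (sp 3)))
        (carT G bc bd (.mul (sp 4) (.mul (r1 u) (r1 v)))))

section ev
variable {A : Type} [Add A] [Mul A]

def car (G : Tm) (θ : ℕ → A) (bc : Bool) (c : A) (bd : Bool) (d : A) (w : A) : A :=
  lm bc c (rm bd (G.eval (cons w θ)) d)

theorem eval_lmT (ρ : ℕ → A) (b : Bool) (x z : Tm) :
    (lmT b x z).eval ρ = lm b (x.eval ρ) (z.eval ρ) := by cases b <;> rfl
theorem eval_rmT (ρ : ℕ → A) (b : Bool) (x z : Tm) :
    (rmT b x z).eval ρ = rm b (x.eval ρ) (z.eval ρ) := by cases b <;> rfl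
theorem eval_sp (ρ : ℕ → A) (k : ℕ) : (sp k).eval ρ = ρ (3 * k + 2) := rfl
theorem eval_r0 (ρ : ℕ → A) (t : Tm) : (r0 t).eval ρ = t.eval (fun n => ρ (3 * n)) :=
  eval_subst _ _ _
theorem eval_r1 (ρ : ℕ → A) (t : Tm) : (r1 t).eval ρ = t.eval (fun n => ρ (3 * n + 1)) :=
  eval_subst _ _ _
theorem eval_carT (ρ : ℕ → A) (G : Tm) (bc bd : Bool) (W : Tm) :
    (carT G bc bd W).eval ρ =
      car G (fun n => ρ (3 * n)) bc (ρ (3 * 0 + 2)) bd (ρ (3 * 1 + 2)) (W.eval ρ) := by
  rw [carT, eval_lmT, eval_rmT, eval_cons_subst]; rfl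

def val (θ φ s : ℕ → A) : ℕ → A := fun n =>
  if n % 3 = 0 then θ (n / 3) else if n % 3 = 1 then φ (n / 3) else s (n / 3)

omit [Add A] [Mul A] in
theorem val0 (θ φ s : ℕ → A) (n : ℕ) : val θ φ s (3 * n) = θ n := by
  simp only [val]; rw [if_pos (by omega)]; congr 1; omega
omit [Add A] [Mul A] in
theorem val1 (θ φ s : ℕ → A) (n : ℕ) : val θ φ s (3 * n + 1) = φ n := by
  simp only [val]; rw [if_neg (by omega), if_pos (by omega)]; congr 1; omega
omit [Add A] [Mul A] in
theorem val2 (θ φ s : ℕ → A) (n : ℕ) : val θ φ s (3 * n + 2) = s n := by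
  simp only [val]; rw [if_neg (by omega), if_neg (by omega)]; congr 1; omega

end ev

theorem occ_lmT (P : ℕ → Prop) (b : Bool) (x z : Tm) :
    occ P (lmT b x z) ↔ (b = true ∧ occ P x) ∨ occ P z := by cases b <;> simp [lmT, occ]
theorem occ_rmT (P : ℕ → Prop) (b : Bool) (x z : Tm) :
    occ P (rmT b x z) ↔ occ P x ∨ (b = true ∧ occ P z) := by cases b <;> simp [rmT, occ]

section valid
variable (S : Type) [AddCommSemigroup S] [Semigroup S] [LeftDistribClass S] [RightDistribClass S]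

theorem occ_carT (t G : Tm) (hG : IsG S t G) (P : ℕ → Prop) (bc bd : Bool) (W : Tm) :
    occ P (carT G bc bd W) ↔ (bc = true ∧ occ P (sp 0)) ∨
      ((occ P W ∨ occ P (r0 t)) ∨ (bd = true ∧ occ P (sp 1))) := by
  rw [carT, occ_lmT, occ_rmT, occ_cons_subst, hG.2.2, r0, occ_subst]

theorem car_indep (t G : Tm) (hG : IsG S t G) (θ : ℕ → S) (bc : Bool) (c : S) (bd : Bool)
    (d w w' : S) : car G θ bc c bd d w = car G θ bc c bd d w' := by
  rw [car, car, hG.2.1 θ w w']

theorem sch_valid (t G u v : Tm) (hG : IsG S t G) (huv : Holds S (u, v)) (bc bd ba bb : Bool)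
    (k : ℕ) : Reg (sch G t u v bc bd ba bb k).1 (sch G t u v bc bd ba bb k).2 ∧
      Holds S (sch G t u v bc bd ba bb k) := by
  have hc := car_indep S t G hG
  rcases k with _ | _ | _ | _ | _ | _ | _ | k
  all_goals
    refine ⟨fun P => ?_, fun ρ => ?_⟩
    · simp only [sch, occ, occ_carT S t G hG, occ_lmT, occ_rmT]; tauto
  · simp only [sch, eval_carT]; exact hc _ _ _ _ _ _ _
  · simp only [sch, eval_carT]; exact hc _ _ _ _ _ _ _
  · simp only [sch, eval_carT]; exact hc _ _ _ _ _ _ _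
  · simp only [sch, eval_carT, Tm.eval]; rw [hc]
  · simp only [sch, eval_carT]; exact hc _ _ _ _ _ _ _
  · simp only [sch, eval_carT]; exact hc _ _ _ _ _ _ _
  · simp only [sch, eval_carT, Tm.eval, eval_r0, car, lm, rm]
    exact (hG.1 _ _).symm
  · simp only [sch, eval_carT, Tm.eval, eval_lmT, eval_rmT, eval_r1]
    have := huv (fun n => ρ (3 * n + 1))
    simp only at this
    rw [this]

end valid

/-- semantic form of the schemes -/
structure Sch (A : Type) [Add A] [Mul A] (E : Set (Tm × Tm)) (t G : Tm) : Prop where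
  hC : ∀ θ bc (c : A) bd d p y r, car G θ bc c bd d (p * y * r) = car G θ bc c bd d (p * r * y)
  hI : ∀ θ bc (c : A) bd d p y, car G θ bc c bd d (p * y * y) = car G θ bc c bd d (p * y)
  hA : ∀ θ bc (c : A) bd d p y r, car G θ bc c bd d (p * (y + r)) = car G θ bc c bd d (p * y * r)
  hX : ∀ θ bc (c : A) bd d p r, car G θ bc c bd d p + r = car G θ bc c bd d (p * r) + r
  hL : ∀ θ (c : A) bd d p, car G θ true c bd d p = car G θ true c bd d (p * c)
  hR : ∀ θ bc (c : A) d p, car G θ bc c true d p = car G θ bc c true d (p * d)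
  hF : ∀ (θ : ℕ → A) c d, t.eval θ = t.eval θ + car G θ false c false d (t.eval θ * t.eval θ)
  hS : ∀ e ∈ E, ∀ θ bc (c : A) bd d (φ : ℕ → A) ba a bb b p,
    lm ba a (rm bb (e.1.eval φ) b) + car G θ bc c bd d (p * (e.1.eval φ * e.2.eval φ)) =
      lm ba a (rm bb (e.2.eval φ) b) + car G θ bc c bd d (p * (e.1.eval φ * e.2.eval φ))

def l7 {A : Type} (c d a b p y r : A) : ℕ → A
  | 0 => c | 1 => d | 2 => a | 3 => b | 4 => p | 5 => y | _ => r

theorem sch_sem (A : Type) [Add A] [Mul A] (E : Set (Tm × Tm)) (t G : Tm) (e0 : Tm × Tm)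
    (he0 : e0 ∈ E)
    (h : ∀ e ∈ E, ∀ bc bd ba bb (k : Fin 8), Holds A (sch G t e.1 e.2 bc bd ba bb k)) :
    Sch A E t G where
  hC θ bc c bd d p y r := by
    have := h e0 he0 bc bd true true 0 (val θ θ (l7 c d c c p y r))
    simpa only [sch, Fin.isValue, Fin.val_zero, eval_carT, Tm.eval, eval_sp, val0, val2, l7]
      using this
  hI θ bc c bd d p y := by
    have := h e0 he0 bc bd true true 1 (val θ θ (l7 c d c c p y y))
    simpa only [sch, Fin.isValue, Fin.val_one, eval_carT, Tm.eval, eval_sp, val0, val2, l7]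
      using this
  hA θ bc c bd d p y r := by
    have := h e0 he0 bc bd true true ⟨2, by omega⟩ (val θ θ (l7 c d c c p y r))
    simpa only [sch, eval_carT, Tm.eval, eval_sp, val0, val2, l7] using this
  hX θ bc c bd d p r := by
    have := h e0 he0 bc bd true true ⟨3, by omega⟩ (val θ θ (l7 c d c c p r r))
    simpa only [sch, eval_carT, Tm.eval, eval_sp, val0, val2, l7] using this
  hL θ c bd d p := by
    have := h e0 he0 true bd true true ⟨4, by omega⟩ (val θ θ (l7 c d c c p p p))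
    simpa only [sch, eval_carT, Tm.eval, eval_sp, val0, val2, l7] using this
  hR θ bc c d p := by
    have := h e0 he0 bc true true true ⟨5, by omega⟩ (val θ θ (l7 c d c c p p p))
    simpa only [sch, eval_carT, Tm.eval, eval_sp, val0, val2, l7] using this
  hF θ c d := by
    have := h e0 he0 true true true true ⟨6, by omega⟩ (val θ θ (l7 c d c c c c c))
    simpa only [sch, eval_carT, Tm.eval, eval_sp, eval_r0, val0, val2, l7] using this
  hS e he θ bc c bd d φ ba a bb b p := by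
    have := h e he bc bd ba bb ⟨7, by omega⟩ (val θ φ (l7 c d a b p p p))
    simpa only [sch, eval_carT, Tm.eval, eval_sp, eval_r1, eval_lmT, eval_rmT, val0, val1, val2,
      l7] using this


section model
variable {A : Type} [AddCommSemigroup A] [Semigroup A] [LeftDistribClass A] [RightDistribClass A]
variable (E : Set (Tm × Tm))

def IsCar (Γ : A → A) : Prop :=
  ∃ t G θ bc c bd d, Sch A E t G ∧ Γ = car G θ bc c bd d

def Er (Γ : A → A) (y y' : A) : Prop := ∀ p, Γ (p * y) = Γ (p * y')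

variable {E}
variable {Γ : A → A}

theorem Er.rfl' (y : A) : Er Γ y y := fun _ => rfl
theorem Er.symm {y z : A} (h : Er Γ y z) : Er Γ z y := fun p => (h p).symm
theorem Er.trans {y z r : A} (h : Er Γ y z) (h' : Er Γ z r) : Er Γ y r :=
  fun p => (h p).trans (h' p)
theorem Er.left {y z : A} (h : Er Γ y z) (r : A) : Er Γ (r * y) (r * z) := fun p => by
  rw [← mul_assoc, ← mul_assoc]; exact h _
theorem Er_comm (hΓ : IsCar E Γ) (y z : A) : Er Γ (y * z) (z * y) := by
  obtain ⟨t, G, θ, bc, c, bd, d, h, rfl⟩ := hΓ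
  intro p; rw [← mul_assoc, ← mul_assoc]; exact h.hC _ _ _ _ _ _ _ _
theorem Er_idem (hΓ : IsCar E Γ) (y : A) : Er Γ (y * y) y := by
  obtain ⟨t, G, θ, bc, c, bd, d, h, rfl⟩ := hΓ
  intro p; rw [← mul_assoc]; exact h.hI _ _ _ _ _ _ _
theorem Er_add (hΓ : IsCar E Γ) (y z : A) : Er Γ (y + z) (y * z) := by
  obtain ⟨t, G, θ, bc, c, bd, d, h, rfl⟩ := hΓ
  intro p; rw [← mul_assoc]; exact h.hA _ _ _ _ _ _ _ _
theorem Er.right (hΓ : IsCar E Γ) {y z : A} (h : Er Γ y z) (r : A) : Er Γ (y * r) (z * r) :=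
  ((Er_comm hΓ y r).trans (h.left r)).trans (Er_comm hΓ r z)

def Abs (Γ : A → A) (w z : A) : Prop := Er Γ (w * z) w

theorem Abs.mul (hΓ : IsCar E Γ) {w y z : A} (h : Abs Γ w y) (h' : Abs Γ w z) :
    Abs Γ w (y * z) := by
  unfold Abs; rw [← mul_assoc]; exact (Er.right hΓ h z).trans h'
theorem Abs.add (hΓ : IsCar E Γ) {w y z : A} (h : Abs Γ w y) (h' : Abs Γ w z) :
    Abs Γ w (y + z) := ((Er_add hΓ y z).left w).trans (h.mul hΓ h')
theorem Abs.eval (hΓ : IsCar E Γ) {w : A} {ρ : ℕ → A} (h : ∀ n, Abs Γ w (ρ n)) (t : Tm) :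
    Abs Γ w (t.eval ρ) := by
  induction t with
  | var n => exact h n
  | add s t hs ht => exact hs.add hΓ ht
  | mul s t hs ht => exact hs.mul hΓ ht
theorem Abs.mono_left (hΓ : IsCar E Γ) {w y : A} (h : Abs Γ w y) (r : A) : Abs Γ (r * w) y := by
  unfold Abs; rw [mul_assoc]; exact h.left r
theorem Abs.mono_right (hΓ : IsCar E Γ) {w y : A} (h : Abs Γ w y) (r : A) : Abs Γ (w * r) y :=
  ((Er.right hΓ (Er_comm hΓ w r) y).trans (h.mono_left hΓ r)).trans (Er_comm hΓ r w)
theorem Abs.congr (hΓ : IsCar E Γ) {w w' y : A} (h : Abs Γ w y) (e : Er Γ w w') : Abs Γ w' y :=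
  ((Er.right hΓ e.symm y).trans h).trans e
theorem Abs_oc (hΓ : IsCar E Γ) (ρ : ℕ → A) (x : ℕ) (t : Tm) (hx : Oc x t) :
    Abs Γ (t.eval ρ) (ρ x) := by
  induction t with
  | var n =>
    have : n = x := hx
    subst this; exact Er_idem hΓ _
  | add s t hs ht =>
    rcases hx with hx | hx
    · exact ((hs hx).mono_right hΓ _).congr hΓ (Er_add hΓ _ _).symm
    · exact ((ht hx).mono_left hΓ _).congr hΓ (Er_add hΓ _ _).symm
  | mul s t hs ht =>
    rcases hx with hx | hx
    · exact (hs hx).mono_right hΓ _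
    · exact (ht hx).mono_left hΓ _

theorem step_a (hΓ : IsCar E Γ) (w : A) (ρ : ℕ → A) (hρ : ∀ n, Abs Γ w (ρ n)) {s t : Tm}
    (h : Der E s t) : ∀ ba a bb b, lm ba a (rm bb (s.eval ρ) b) + Γ (w * w) =
      lm ba a (rm bb (t.eval ρ) b) + Γ (w * w) := by
  induction h with
  | ax e he φ =>
    intro ba a bb b
    have h1 := (Abs.eval hΓ hρ (subst φ e.1)).mul hΓ (Abs.eval hΓ hρ (subst φ e.2))
    have h2 := h1 w
    rw [← h2, ← mul_assoc, eval_subst, eval_subst]
    obtain ⟨t, G, θ, bc, c, bd, d, h, rfl⟩ := hΓ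
    exact h.hS e he _ _ _ _ _ _ _ _ _ _ _
  | refl t => intro _ _ _ _; rfl
  | symm _ ih => intro ba a bb b; exact (ih ba a bb b).symm
  | trans _ _ ih ih' => intro ba a bb b; exact (ih ba a bb b).trans (ih' ba a bb b)
  | @add s t s' t' _ _ ih ih' =>
    intro ba a bb b
    have hd : ∀ x y : A, lm ba a (rm bb (x + y) b) =
        lm ba a (rm bb x b) + lm ba a (rm bb y b) := by
      intro x y; cases ba <;> cases bb <;> simp [lm, rm, mul_add, add_mul]
    simp only [Tm.eval, hd]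
    rw [add_assoc, ih' ba a bb b, add_comm (lm ba a (rm bb (t'.eval ρ) b)), ← add_assoc,
      ih ba a bb b]
    ac_rfl
  | @mul s t s' t' _ _ ih ih' =>
    intro ba a bb b
    have h1 : ∀ x y : A, lm ba a (rm bb (x * y) b) = lm ba a (rm true x (rm bb y b)) := by
      intro x y; cases ba <;> cases bb <;> simp [lm, rm, mul_assoc]
    have h2 : ∀ x y : A, lm ba a (rm bb (x * y) b) = lm true (lm ba a x) (rm bb y b) := by
      intro x y; cases ba <;> cases bb <;> simp [lm, rm, mul_assoc]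
    simp only [Tm.eval]
    rw [h1, ih, ← h1, h2, ih', ← h2]

variable (E)
def Flex (ρ : ℕ → A) (s : Tm) : Prop :=
  ∃ Γ w, IsCar E Γ ∧ s.eval ρ = s.eval ρ + Γ (w * w) ∧ ∀ x, Oc x s → Abs Γ w (ρ x)
variable {E}

theorem ww (hΓ : IsCar E Γ) (w r : A) : Γ (w * w * r) = Γ (w * r * (w * r)) := by
  have : Er Γ (w * r) (r * (w * r)) := by
    have h1 : Er Γ (r * (w * r)) (r * (r * w)) := (Er_comm hΓ w r).left r
    rw [← mul_assoc r r w] at h1
    exact ((h1.trans (Er.right hΓ (Er_idem hΓ r) w)).trans (Er_comm hΓ r w)).symm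
  have h2 := this w
  rw [mul_assoc w w r, mul_assoc w r]; exact h2

theorem Flex.add_l {ρ : ℕ → A} {s : Tm} (h : Flex E ρ s) (r : Tm) : Flex E ρ (.add s r) := by
  obtain ⟨Γ, w, hΓ, h1, h2⟩ := h
  refine ⟨Γ, w * r.eval ρ, hΓ, ?_, fun x hx => ?_⟩
  · simp only [Tm.eval]
    rw [← ww hΓ, add_assoc, add_comm (r.eval ρ)]
    obtain ⟨t, G, θ, bc, c, bd, d, h, rfl⟩ := hΓ
    rw [← h.hX, ← add_assoc, ← h1]
  · rcases hx with hx | hx
    · exact (h2 x hx).mono_right hΓ _
    · exact (Abs_oc hΓ ρ x r hx).mono_left hΓ _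

theorem Flex.add_r {ρ : ℕ → A} {s : Tm} (h : Flex E ρ s) (r : Tm) : Flex E ρ (.add r s) := by
  obtain ⟨Γ, w, hΓ, h1, h2⟩ := h.add_l r
  refine ⟨Γ, w, hΓ, ?_, fun x hx => h2 x (Or.symm hx)⟩
  simp only [Tm.eval] at *
  rw [add_comm (r.eval ρ)]; exact h1

theorem Flex.mul_r {ρ : ℕ → A} {s : Tm} (h : Flex E ρ s) (r : Tm) : Flex E ρ (.mul r s) := by
  obtain ⟨Γ, w, hΓ, h1, h2⟩ := h
  obtain ⟨t, G, θ, bc, c, bd, d, h, rfl⟩ := hΓ
  have he : ∀ z, r.eval ρ * car G θ bc c bd d z =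
      car G θ true (rm bc (r.eval ρ) c) bd d z := by
    intro z; cases bc <;> simp [car, lm, rm, mul_assoc]
  have hΓ' : IsCar E (car G θ true (rm bc (r.eval ρ) c) bd d) := ⟨t, G, θ, _, _, _, _, h, rfl⟩
  refine ⟨_, w * rm bc (r.eval ρ) c, hΓ', ?_, fun x hx => ?_⟩
  · simp only [Tm.eval]
    rw [← ww hΓ', ← h.hL, ← he, ← mul_add, ← h1]
  · rcases hx with hx | hx
    · apply Abs.mono_left hΓ'
      cases bc
      · exact Abs_oc hΓ' ρ x r hx
      · exact (Abs_oc hΓ' ρ x r hx).mono_right hΓ' _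
    · apply Abs.mono_right hΓ'
      intro p
      rw [← he, ← he, h2 x hx p]

theorem Flex.mul_l {ρ : ℕ → A} {s : Tm} (h : Flex E ρ s) (r : Tm) : Flex E ρ (.mul s r) := by
  obtain ⟨Γ, w, hΓ, h1, h2⟩ := h
  obtain ⟨t, G, θ, bc, c, bd, d, h, rfl⟩ := hΓ
  have he : ∀ z, car G θ bc c bd d z * r.eval ρ =
      car G θ bc c true (lm bd d (r.eval ρ)) z := by
    intro z; cases bc <;> cases bd <;> simp [car, lm, rm, mul_assoc]
  have hΓ' : IsCar E (car G θ bc c true (lm bd d (r.eval ρ))) := ⟨t, G, θ, _, _, _, _, h, rfl⟩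
  refine ⟨_, w * lm bd d (r.eval ρ), hΓ', ?_, fun x hx => ?_⟩
  · simp only [Tm.eval]
    rw [← ww hΓ', ← h.hR, ← he, ← add_mul, ← h1]
  · rcases hx with hx | hx
    · apply Abs.mono_right hΓ'
      intro p
      rw [← he, ← he, h2 x hx p]
    · apply Abs.mono_left hΓ'
      cases bd
      · exact Abs_oc hΓ' ρ x r hx
      · exact (Abs_oc hΓ' ρ x r hx).mono_left hΓ' _

theorem Flex.tr {ρ : ℕ → A} {s t : Tm} (h : Flex E ρ s) (hr : Reg s t)
    (he : s.eval ρ = t.eval ρ) : Flex E ρ t := by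
  obtain ⟨Γ, w, hΓ, h1, h2⟩ := h
  exact ⟨Γ, w, hΓ, he ▸ h1, fun x hx => h2 x ((hr _).mpr hx)⟩

theorem flex_subst {t G : Tm} (h : Sch A E t G) (ρ : ℕ → A) (φ : ℕ → Tm) :
    Flex E ρ (subst φ t) := by
  have hΓ : IsCar E (car G (fun n => (φ n).eval ρ) false (ρ 0) false (ρ 0)) :=
    ⟨t, G, _, _, _, _, _, h, rfl⟩
  refine ⟨_, (subst φ t).eval ρ, hΓ, ?_, fun x hx => Abs_oc hΓ ρ x _ hx⟩
  rw [eval_subst]; exact h.hF _ _ _

theorem step_b (hE : ∀ e ∈ E, (Reg e.1 e.2 ∧ Holds A e) ∨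
      ((∃ G, Sch A E e.1 G) ∧ ∃ G, Sch A E e.2 G)) {s t : Tm} (h : Der E s t) :
    (Reg s t ∧ ∀ ρ : ℕ → A, s.eval ρ = t.eval ρ) ∨ ∀ ρ : ℕ → A, Flex E ρ s ∧ Flex E ρ t := by
  induction h with
  | ax e he φ =>
    rcases hE e he with ⟨h1, h2⟩ | ⟨⟨G, h1⟩, ⟨G', h2⟩⟩
    · left
      refine ⟨fun P => ?_, fun ρ => ?_⟩
      · rw [occ_subst, occ_subst]; exact h1 _
      · rw [eval_subst, eval_subst]; exact h2 _
    · exact Or.inr fun ρ => ⟨flex_subst h1 ρ φ, flex_subst h2 ρ φ⟩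
  | refl t => exact Or.inl ⟨fun _ => Iff.rfl, fun _ => rfl⟩
  | symm _ ih =>
    exact ih.imp (fun h => ⟨fun P => (h.1 P).symm, fun ρ => (h.2 ρ).symm⟩) fun h ρ => (h ρ).symm
  | trans _ _ ih ih' =>
    rcases ih with ⟨a, b⟩ | a <;> rcases ih' with ⟨c, d⟩ | c
    · exact Or.inl ⟨fun P => (a P).trans (c P), fun ρ => (b ρ).trans (d ρ)⟩
    · exact Or.inr fun ρ => ⟨(c ρ).1.tr (fun P => (a P).symm) (b ρ).symm, (c ρ).2⟩
    · exact Or.inr fun ρ => ⟨(a ρ).1, (a ρ).2.tr c (d ρ)⟩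
    · exact Or.inr fun ρ => ⟨(a ρ).1, (c ρ).2⟩
  | add _ _ ih ih' =>
    rcases ih with ⟨a, b⟩ | a
    · rcases ih' with ⟨c, d⟩ | c
      · exact Or.inl ⟨fun P => or_congr (a P) (c P), fun ρ => by simp only [Tm.eval, b, d]⟩
      · exact Or.inr fun ρ => ⟨(c ρ).1.add_r _, (c ρ).2.add_r _⟩
    · exact Or.inr fun ρ => ⟨(a ρ).1.add_l _, (a ρ).2.add_l _⟩
  | mul _ _ ih ih' =>
    rcases ih with ⟨a, b⟩ | a
    · rcases ih' with ⟨c, d⟩ | c
      · exact Or.inl ⟨fun P => or_congr (a P) (c P), fun ρ => by simp only [Tm.eval, b, d]⟩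
      · exact Or.inr fun ρ => ⟨(c ρ).1.mul_r _, (c ρ).2.mul_r _⟩
    · exact Or.inr fun ρ => ⟨(a ρ).1.mul_l _, (a ρ).2.mul_l _⟩

theorem model_main (hE : ∀ e ∈ E, (Reg e.1 e.2 ∧ Holds A e) ∨
      ((∃ G, Sch A E e.1 G) ∧ ∃ G, Sch A E e.2 G)) {s t : Tm} (h : Der E s t) (hr : Reg s t) :
    Holds A (s, t) := by
  classical
  intro ρ
  rcases step_b hE h with ⟨_, b⟩ | a
  · exact b ρ
  · obtain ⟨x0, hx0⟩ := exists_Oc s
    let ρ' : ℕ → A := fun n => if Oc n s then ρ n else ρ x0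
    have e1 : s.eval ρ = s.eval ρ' := eval_congr _ _ _ fun x hx => by simp only [ρ', if_pos hx]
    have e2 : t.eval ρ = t.eval ρ' := eval_congr _ _ _ fun x hx => by
      simp only [ρ', if_pos (show Oc x s from (hr _).mpr hx)]
    have hρ : ∀ n, ∃ x, Oc x s ∧ ρ' n = ρ' x := by
      intro n
      by_cases hn : Oc n s
      · exact ⟨n, hn, rfl⟩
      · exact ⟨x0, hx0, by simp only [ρ', if_neg hn, if_pos hx0]⟩
    obtain ⟨⟨Γ, w, hΓ, h1, h2⟩, ⟨Γ', w', hΓ', h1', h2'⟩⟩ := a ρ'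
    have a1 := step_a hΓ w ρ' (fun n => by
      obtain ⟨x, hx, e⟩ := hρ n; rw [e]; exact h2 x hx) h false w false w
    have a2 := step_a hΓ' w' ρ' (fun n => by
      obtain ⟨x, hx, e⟩ := hρ n; rw [e]; exact h2' x ((hr _).mp hx)) h false w false w
    simp only [lm, rm, Bool.false_eq_true, if_false] at a1 a2
    show s.eval ρ = t.eval ρ
    rw [e1, e2]
    calc s.eval ρ' = t.eval ρ' + Γ (w * w) := h1.trans a1
      _ = s.eval ρ' + Γ' (w' * w') + Γ (w * w) := by rw [a2, ← h1']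
      _ = s.eval ρ' + Γ (w * w) + Γ' (w' * w') := by ac_rfl
      _ = t.eval ρ' := by rw [← h1, a2, ← h1']

end model

def axs : Set (Tm × Tm) :=
  {(.add (.add (.var 0) (.var 1)) (.var 2), .add (.var 0) (.add (.var 1) (.var 2))),
   (.add (.var 0) (.var 1), .add (.var 1) (.var 0)),
   (.mul (.mul (.var 0) (.var 1)) (.var 2), .mul (.var 0) (.mul (.var 1) (.var 2))),
   (.mul (.var 0) (.add (.var 1) (.var 2)), .add (.mul (.var 0) (.var 1)) (.mul (.var 0) (.var 2))),
   (.mul (.add (.var 0) (.var 1)) (.var 2), .add (.mul (.var 0) (.var 2)) (.mul (.var 1) (.var 2)))}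

theorem main (S : Type) [AddCommSemigroup S] [Semigroup S] [LeftDistribClass S]
    [RightDistribClass S] (h : FinBased S) : FinBased (Inf S) := by
  classical
  rcases isEmpty_or_nonempty S with hS | hS
  · refine ⟨{(.var 0, .var 1)}, Set.finite_singleton _, fun A _ _ => ⟨fun hA e _ ρ => ?_,
      fun hA e he => hA e ?_⟩⟩
    · exact hA _ rfl (cons (e.1.eval ρ) (fun _ => e.2.eval ρ))
    · intro ρ
      have : ∀ x : Inf S, x = none := by
        intro x; rcases x with _ | a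
        · rfl
        · exact hS.elim a
      rw [this (e.1.eval ρ), this (e.2.eval ρ)]
  obtain ⟨E, hE, hb⟩ := h
  have hES : ∀ e ∈ E, Holds S e := (hb S).mpr fun _ h => h
  let Gf : Tm → Tm := fun t => if h : ∃ G, IsG S t G then h.choose else t
  have hGf : ∀ t, (∃ G, IsG S t G) → IsG S t (Gf t) := by
    intro t h; simp only [Gf, dif_pos h]; exact h.choose_spec
  let T : Set Tm := {t | t ∈ Prod.fst '' E ∪ Prod.snd '' E ∧ ∃ G, IsG S t G}
  have hT : T.Finite := ((hE.image _).union (hE.image _)).subset fun t ht => ht.1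
  let F : Set (Tm × Tm) := (fun x : Tm × (Tm × Tm) × (Bool × Bool × Bool × Bool × Fin 8) =>
    sch (Gf x.1) x.1 x.2.1.1 x.2.1.2 x.2.2.1 x.2.2.2.1 x.2.2.2.2.1 x.2.2.2.2.2.1 x.2.2.2.2.2.2) ''
      (T ×ˢ E ×ˢ Set.univ)
  have hF : F.Finite := (hT.prod (hE.prod Set.finite_univ)).image _
  have haxs : axs.Finite := by unfold axs; exact Set.toFinite _
  refine ⟨axs ∪ ({e ∈ E | Reg e.1 e.2} ∪ F),
    haxs.union ((hE.subset fun e he => he.1).union hF), fun A _ _ => ⟨fun hA e he => ?_,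
      fun hA e he => hA e ((holds_inf e).mpr ?_)⟩⟩
  · obtain ⟨hr, hs⟩ := (holds_inf e).mp he
    have hd : Der E e.1 e.2 := der_of_FA E e ((hb (FA E)).mp (FA_holds E) e hs)
    have v3 : ∀ e ∈ axs, ∀ a b c : A, e.1.eval (cons a (cons b fun _ => c)) =
        e.2.eval (cons a (cons b fun _ => c)) := fun e he a b c => hA e (Or.inl he) _
    letI : AddCommSemigroup A :=
      { add_assoc := fun a b c => v3 _ (Or.inl rfl) a b c
        add_comm := fun a b => v3 _ (Or.inr (Or.inl rfl)) a b a }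
    letI : Semigroup A := { mul_assoc := fun a b c => v3 _ (Or.inr (Or.inr (Or.inl rfl))) a b c }
    haveI : LeftDistribClass A :=
      ⟨fun a b c => v3 _ (Or.inr (Or.inr (Or.inr (Or.inl rfl)))) a b c⟩
    haveI : RightDistribClass A :=
      ⟨fun a b c => v3 _ (Or.inr (Or.inr (Or.inr (Or.inr rfl)))) a b c⟩
    refine model_main (E := E) (fun e' he' => ?_) hd hr
    by_cases hr' : Reg e'.1 e'.2
    · exact Or.inl ⟨hr', hA e' (Or.inr (Or.inl ⟨he', hr'⟩))⟩
    · right
      obtain ⟨f1, f2⟩ := flx_of_not_reg S e' (hES e' he') hr'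
      have key : ∀ t ∈ T, Sch A E t (Gf t) := fun t ht =>
        sch_sem A E t (Gf t) e' he' fun e'' he'' bc bd ba bb k =>
          hA _ (Or.inr (Or.inr ⟨(t, e'', bc, bd, ba, bb, k), ⟨ht, he'', trivial⟩, rfl⟩))
      exact ⟨⟨_, key _ ⟨Or.inl ⟨e', he', rfl⟩, exists_G S _ f1⟩⟩,
        ⟨_, key _ ⟨Or.inr ⟨e', he', rfl⟩, exists_G S _ f2⟩⟩⟩
  · rcases he with he | he | he
    · rcases he with rfl | rfl | rfl | rfl | rfl
      all_goals refine ⟨fun P => by simp only [occ]; tauto, fun ρ => ?_⟩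
      · exact add_assoc _ _ _
      · exact add_comm _ _
      · exact mul_assoc _ _ _
      · exact mul_add _ _ _
      · exact add_mul _ _ _
    · exact ⟨he.2, hES e he.1⟩
    · obtain ⟨x, ⟨hx1, hx2, -⟩, rfl⟩ := he
      exact sch_valid S _ _ _ _ (hGf _ hx1.2) (hES _ hx2) _ _ _ _ _

end Pool.Agent.SemiInf
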