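import Mathlib

set_option autoImplicit false

namespace Pool.Agent.Lib.helper24.SkewOre

open SkewPolynomial

variable {L : Type} [Field L] [MulSemiringAction (Multiplicative ℕ) L]

/-- the iterated twist -/
def tw (k : ℕ) : L →+* L := MulSemiringAction.toRingHom (Multiplicative ℕ) L (Multiplicative.ofAdd k)

lemma mono_mul (n m : ℕ) (r s : L) :
    (monomial n r : SkewPolynomial L) * monomial m s = monomial (n + m) (r * tw n s) := by
  rw [monomial_mul_monomial, φ_iterate_apply]
  rfl

lemma coeff_finsum {ι : Type} (s : Finset ι) (f : ι → SkewPolynomial L) (n : ℕ) :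
    coeff (∑ i ∈ s, f i) n = ∑ i ∈ s, coeff (f i) n := by
  classical
  induction s using Finset.induction_on with
  | empty => simp
  | insert a s ha ih => rw [Finset.sum_insert ha, Finset.sum_insert ha, coeff_add, ih]

lemma as_sum (p : SkewPolynomial L) : p = ∑ n ∈ p.support, monomial n (p.coeff n) := by
  conv_lhs => rw [← sum_monomial p]
  rw [sum_def]

lemma coeff_mono_mul (k : ℕ) (a : L) (r : SkewPolynomial L) (N : ℕ) :
    coeff (monomial k a * r) N = if k ≤ N then a * tw k (coeff r (N - k)) else 0 := by
  conv_lhs => rw [as_sum r, Finset.mul_sum, coeff_finsum]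
  simp only [mono_mul, coeff_monomial]
  split_ifs with h
  · rw [Finset.sum_eq_single (N - k)]
    · rw [if_pos (by omega)]
    · intro b _ hb
      rw [if_neg (by omega)]
    · intro hb
      rw [notMem_support_iff.mp hb]
      simp
  · apply Finset.sum_eq_zero
    intro b _
    rw [if_neg (by omega)]

lemma coeff_mul' (p r : SkewPolynomial L) (N : ℕ) :
    coeff (p * r) N =
      ∑ k ∈ p.support, if k ≤ N then coeff p k * tw k (coeff r (N - k)) else 0 := by
  conv_lhs => rw [as_sum p, Finset.sum_mul, coeff_finsum]
  simp only [coeff_mono_mul]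

instance noZeroDiv : NoZeroDivisors (SkewPolynomial L) where
  eq_zero_or_eq_zero_of_mul_eq_zero := by
    intro p q h
    by_contra hc
    push Not at hc
    have hp : p.support.Nonempty := by
      rw [Finset.nonempty_iff_ne_empty, Ne, support_eq_empty]; exact hc.1
    have hq : q.support.Nonempty := by
      rw [Finset.nonempty_iff_ne_empty, Ne, support_eq_empty]; exact hc.2
    have h1 := coeff_mul' p q (p.support.max' hp + q.support.max' hq)
    rw [h, coeff_zero, Finset.sum_eq_single (p.support.max' hp)] at h1
    · rw [if_pos (by omega), Nat.add_sub_cancel_left] at h1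
      rcases mul_eq_zero.mp h1.symm with h2 | h2
      · exact mem_support_iff.mp (p.support.max'_mem hp) h2
      · exact mem_support_iff.mp (q.support.max'_mem hq) ((map_eq_zero _).mp h2)
    · intro b hb hne
      have hle := p.support.le_max' b hb
      have : coeff q (p.support.max' hp + q.support.max' hq - b) = 0 := by
        by_contra h3
        have := q.support.le_max' _ (mem_support_iff.mpr h3)
        omega
      rw [this]
      simp
    · intro h3
      exact absurd (p.support.max'_mem hp) h3

instance nontriv : Nontrivial (SkewPolynomial L) :=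
  ⟨⟨0, 1, fun h => by
    have := congrArg (fun p => coeff p 0) h
    simp at this⟩⟩

lemma coeff_sumFin {m : ℕ} (g : Fin m → L) (i : Fin m) :
    coeff (∑ j : Fin m, (monomial j (g j) : SkewPolynomial L)) i = g i := by
  rw [coeff_finsum, Finset.sum_eq_single i]
  · simp [coeff_monomial]
  · intro b _ hb
    rw [coeff_monomial, if_neg (fun h => hb (Fin.ext h))]
  · simp

lemma ore (r s : SkewPolynomial L) (hs : s ≠ 0) :
    ∃ r' s' : SkewPolynomial L, s' ≠ 0 ∧ s' * r = r' * s := by
  obtain ⟨m, hm⟩ : ∃ m : ℕ, ∀ n, m < n → coeff r n = 0 ∧ coeff s n = 0 := by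
    refine ⟨(r.support ∪ s.support).sup id, fun n hn => ⟨?_, ?_⟩⟩
    · by_contra h
      have : id n ≤ (r.support ∪ s.support).sup id :=
        Finset.le_sup (Finset.mem_union_left _ (mem_support_iff.mpr h))
      simp only [id] at this hn
      omega
    · by_contra h
      have : id n ≤ (r.support ∪ s.support).sup id :=
        Finset.le_sup (Finset.mem_union_right _ (mem_support_iff.mpr h))
      simp only [id] at this hn
      omega
  let v : Fin (m + 1) ⊕ Fin (m + 1) → (Fin (2 * m + 1) → L) :=
    Sum.elim (fun i N => coeff (monomial i 1 * r) N) (fun i N => coeff (monomial i 1 * s) N)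
  have hv : ¬ LinearIndependent L v := by
    intro h
    have := h.fintype_card_le_finrank
    simp at this
    omega
  obtain ⟨g, hg, i0, hi0⟩ := Fintype.not_linearIndependent_iff.mp hv
  let s' : SkewPolynomial L := ∑ i : Fin (m + 1), monomial i (g (Sum.inl i))
  let r' : SkewPolynomial L := ∑ i : Fin (m + 1), monomial i (g (Sum.inr i))
  have key : s' * r + r' * s = 0 := by
    ext N
    rw [coeff_add, Finset.sum_mul, Finset.sum_mul, coeff_finsum, coeff_finsum, coeff_zero]
    by_cases hN : N < 2 * m + 1
    · have := congrFun hg ⟨N, hN⟩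
      simp only [Fintype.sum_sum_type, Pi.add_apply, Finset.sum_apply, Pi.smul_apply, v,
        Sum.elim_inl, Sum.elim_inr, smul_eq_mul, Pi.zero_apply, coeff_mono_mul, one_mul,
        mul_ite, mul_zero] at this
      simpa only [coeff_mono_mul] using this
    · simp only [coeff_mono_mul]
      rw [Finset.sum_eq_zero, Finset.sum_eq_zero, add_zero]
      · intro i _
        rw [(hm (N - i) (by omega)).2]
        simp
      · intro i _
        rw [(hm (N - i) (by omega)).1]
        simp
  refine ⟨-r', s', ?_, by rw [neg_mul]; exact eq_neg_of_add_eq_zero_left key⟩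
  intro h0
  rw [h0, zero_mul, zero_add] at key
  have h1 : r' = 0 := (mul_eq_zero.mp key).resolve_right hs
  apply hi0
  rcases i0 with i | i
  · rw [← coeff_sumFin (fun i => g (Sum.inl i)) i]
    show coeff s' i = 0
    rw [h0, coeff_zero]
  · rw [← coeff_sumFin (fun i => g (Sum.inr i)) i]
    show coeff r' i = 0
    rw [h1, coeff_zero]

theorem embeds : ∃ (D : Type) (_ : DivisionRing D) (f : SkewPolynomial L →+* D),
    Function.Injective f := by
  obtain ⟨inst⟩ : Nonempty (OreLocalization.OreSet (nonZeroDivisors (SkewPolynomial L))) := by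
    rw [OreLocalization.nonempty_oreSet_iff_of_noZeroDivisors]
    intro r s
    obtain ⟨r', s', h0, h⟩ := ore r s (nonZeroDivisors.coe_ne_zero s)
    exact ⟨r', ⟨s', mem_nonZeroDivisors_of_ne_zero h0⟩, h⟩
  refine ⟨OreLocalization (nonZeroDivisors (SkewPolynomial L)) (SkewPolynomial L), inferInstance,
    OreLocalization.numeratorRingHom, ?_⟩
  exact OreLocalization.numeratorHom_inj (fun x hx => hx.1)

end Pool.Agent.Lib.helper24.SkewOre
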