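import Mathlib

set_option autoImplicit false

namespace Pool.Agent.Lib.helper24.SmallAut

/-- index set of generators -/
abbrev J (m : ℕ) : Type := Fin m × Fin 2

/-- cross pairs -/
abbrev I (m : ℕ) : Type := {p : J m × J m // p.1.1 < p.2.1}

/-- the group -/
@[ext]
structure G (m q : ℕ) where
  s : ℤˣ
  u : J m → ZMod q
  w : I m → ZMod q

variable {m q : ℕ}

/-- sign as a ring element -/
def sg (q : ℕ) (e : ℤˣ) : ZMod q := ((e : ℤ) : ZMod q)

@[simp] lemma sg_one : sg q 1 = 1 := by simp [sg]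
@[simp] lemma sg_neg_one : sg q (-1) = -1 := by simp [sg]
lemma sg_mul (a b : ℤˣ) : sg q (a * b) = sg q a * sg q b := by simp [sg]
lemma sg_sq (a : ℤˣ) : sg q a * sg q a = 1 := by rw [← sg_mul, Int.units_mul_self, sg_one]

instance : Mul (G m q) := ⟨fun x y => ⟨x.s * y.s, fun a => x.u a + sg q x.s * y.u a,
  fun p => x.w p + y.w p + sg q x.s * (x.u p.1.1 * y.u p.1.2)⟩⟩
instance : One (G m q) := ⟨⟨1, fun _ => 0, fun _ => 0⟩⟩
instance : Inv (G m q) := ⟨fun x => ⟨x.s, fun a => -(sg q x.s * x.u a),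
  fun p => -x.w p + x.u p.1.1 * x.u p.1.2⟩⟩

@[simp] lemma mul_s (x y : G m q) : (x * y).s = x.s * y.s := rfl
@[simp] lemma mul_u (x y : G m q) (a : J m) : (x * y).u a = x.u a + sg q x.s * y.u a := rfl
@[simp] lemma mul_w (x y : G m q) (p : I m) :
    (x * y).w p = x.w p + y.w p + sg q x.s * (x.u p.1.1 * y.u p.1.2) := rfl
@[simp] lemma one_s : (1 : G m q).s = 1 := rfl
@[simp] lemma one_u (a : J m) : (1 : G m q).u a = 0 := rfl
@[simp] lemma one_w (p : I m) : (1 : G m q).w p = 0 := rfl
@[simp] lemma inv_s (x : G m q) : (x⁻¹).s = x.s := rfl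
@[simp] lemma inv_u (x : G m q) (a : J m) : (x⁻¹).u a = -(sg q x.s * x.u a) := rfl
@[simp] lemma inv_w (x : G m q) (p : I m) : (x⁻¹).w p = -x.w p + x.u p.1.1 * x.u p.1.2 := rfl

instance : Group (G m q) := Group.ofLeftAxioms
  (fun x y z => by
    ext1
    · simp [mul_assoc]
    · funext a; simp only [mul_u, mul_s, sg_mul]; ring
    · funext p; simp only [mul_u, mul_s, mul_w, sg_mul]
      linear_combination (sg q y.s * y.u p.1.1 * z.u p.1.2) * sg_sq (q := q) x.s)
  (fun x => by ext <;> simp)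
  (fun x => by
    ext1
    · simp
    · funext a; simp
    · funext p; simp only [mul_w, inv_w, inv_s, inv_u, one_w]
      linear_combination (-(x.u p.1.1 * x.u p.1.2)) * sg_sq (q := q) x.s)

/-- the sign homomorphism -/
def sgn : G m q →* ℤˣ where
  toFun x := x.s
  map_one' := rfl
  map_mul' _ _ := rfl

/-- coordinates -/
def equivProd : G m q ≃ ℤˣ × (J m → ZMod q) × (I m → ZMod q) where
  toFun x := (x.s, x.u, x.w)
  invFun y := ⟨y.1, y.2.1, y.2.2⟩
  left_inv _ := rfl
  right_inv _ := rfl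

lemma card_G [NeZero q] : Nat.card (G m q) = 2 * q ^ (2 * m + Fintype.card (I m)) := by
  rw [Nat.card_congr equivProd]
  simp only [Nat.card_eq_fintype_card, Fintype.card_prod, Fintype.card_fun, ZMod.card,
    Fintype.card_fin, Fintype.card_units_int]
  rw [pow_add, mul_comm m 2]

instance [NeZero q] : Finite (G m q) := Finite.of_equiv _ equivProd.symm

/-- the involution -/
def t : G m q := ⟨-1, fun _ => 0, fun _ => 0⟩

/-- elements of the normal subgroup -/
def n (u : J m → ZMod q) (w : I m → ZMod q) : G m q := ⟨1, u, w⟩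

@[simp] lemma t_s : (t : G m q).s = -1 := rfl
@[simp] lemma t_u (a : J m) : (t : G m q).u a = 0 := rfl
@[simp] lemma t_w (p : I m) : (t : G m q).w p = 0 := rfl
@[simp] lemma n_s (u : J m → ZMod q) (w : I m → ZMod q) : (n u w).s = 1 := rfl
@[simp] lemma n_u (u : J m → ZMod q) (w : I m → ZMod q) : (n u w).u = u := rfl
@[simp] lemma n_w (u : J m → ZMod q) (w : I m → ZMod q) : (n u w).w = w := rfl

/-- generators -/
def gen (a : J m) : G m q := n (Pi.single a 1) 0

lemma addsub_top [NeZero q] {κ : Type} [Fintype κ] [DecidableEq κ] (S : AddSubgroup (κ → ZMod q))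
    (h : ∀ i, Pi.single i 1 ∈ S) (x : κ → ZMod q) : x ∈ S := by
  have e : x = ∑ i, (x i).val • (Pi.single i 1 : κ → ZMod q) := by
    funext j
    simp only [Finset.sum_apply, Pi.smul_apply]
    simp only [nsmul_eq_mul, ZMod.natCast_zmod_val]
    rw [Finset.sum_eq_single j]
    · simp
    · intro b _ hb; simp [Pi.single_apply, hb.symm]
    · simp
  rw [e]
  exact S.sum_mem fun i _ => S.nsmul_mem (h i) _

lemma n_zero_add (w w' : I m → ZMod q) : (n 0 (w + w') : G m q) = n 0 w * n 0 w' := by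
  ext <;> simp

lemma n_zero_neg (w : I m → ZMod q) : (n 0 (-w) : G m q) = (n 0 w)⁻¹ := by
  ext <;> simp

lemma comm_gen (p : I m) : (n 0 (Pi.single p 1) : G m q) =
    gen p.1.1 * gen p.1.2 * (gen p.1.1)⁻¹ * (gen p.1.2)⁻¹ := by
  obtain ⟨⟨a, b⟩, hab⟩ := p
  ext1
  · simp [gen]
  · funext c; simp [gen]
  · funext r
    obtain ⟨⟨c, d⟩, hcd⟩ := r
    simp only at hab hcd
    have h1 : ¬ (c = a ∧ d = a) := by rintro ⟨rfl, rfl⟩; exact lt_irrefl _ hcd
    have h2 : ¬ (c = b ∧ d = b) := by rintro ⟨rfl, rfl⟩; exact lt_irrefl _ hcd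
    have h3 : ¬ (c = b ∧ d = a) := by rintro ⟨rfl, rfl⟩; exact lt_asymm hab hcd
    simp only [gen, n_w, mul_w, mul_u, mul_s, inv_w, inv_u, inv_s, n_s, n_u, sg_one, mul_one,
      one_mul, Pi.zero_apply, Pi.single_apply, Subtype.mk.injEq, Prod.mk.injEq]
    by_cases e1 : c = a <;> by_cases e2 : d = a <;> by_cases e3 : c = b <;>
      by_cases e4 : d = b <;> simp_all

lemma gen_top [NeZero q] (H : Subgroup (G m q)) (ht : t ∈ H) (hg : ∀ a, gen a ∈ H) (x : G m q) :
    x ∈ H := by
  classical
  have hw : ∀ w, n 0 w ∈ H := by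
    let S : AddSubgroup (I m → ZMod q) :=
      { carrier := {w | n 0 w ∈ H}
        add_mem' := fun ha hb => by
          simp only [Set.mem_setOf_eq, n_zero_add]; exact H.mul_mem ha hb
        zero_mem' := H.one_mem
        neg_mem' := fun ha => by simp only [Set.mem_setOf_eq, n_zero_neg]; exact H.inv_mem ha }
    refine addsub_top S fun p => ?_
    change n 0 (Pi.single p 1) ∈ H
    rw [comm_gen]
    exact H.mul_mem (H.mul_mem (H.mul_mem (hg _) (hg _)) (H.inv_mem (hg _))) (H.inv_mem (hg _))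
  have hu : ∀ u, ∃ w, n u w ∈ H := by
    let S : AddSubgroup (J m → ZMod q) :=
      { carrier := {u | ∃ w, n u w ∈ H}
        add_mem' := by
          rintro a b ⟨w, ha⟩ ⟨w', hb⟩
          refine ⟨(n a w * n b w').w, ?_⟩
          have : n (a + b) (n a w * n b w').w = n a w * n b w' := by ext <;> simp
          rw [this]; exact H.mul_mem ha hb
        zero_mem' := ⟨0, H.one_mem⟩
        neg_mem' := by
          rintro a ⟨w, ha⟩
          refine ⟨(n a w)⁻¹.w, ?_⟩
          have : n (-a) (n a w)⁻¹.w = (n a w)⁻¹ := by ext <;> simp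
          rw [this]; exact H.inv_mem ha }
    exact addsub_top S fun a => ⟨0, hg a⟩
  have hn : ∀ u w, n u w ∈ H := by
    intro u w
    obtain ⟨w', h⟩ := hu u
    have : n u w = n u w' * n 0 (w - w') := by ext <;> simp
    rw [this]; exact H.mul_mem h (hw _)
  rcases Int.units_eq_one_or x.s with h | h
  · have : x = n x.u x.w := by ext <;> simp [h]
    rw [this]; exact hn _ _
  · have : x = n x.u x.w * t := by ext <;> simp [h]
    rw [this]; exact H.mul_mem (hn _ _) ht

lemma hom_ext [NeZero q] {K : Type*} [Group K] (f g : G m q →* K) (ht : f t = g t)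
    (hg : ∀ a, f (gen a) = g (gen a)) : f = g := by
  ext x
  exact gen_top (f.eqLocus g) ht hg x

section aut

variable [NeZero q] (h4 : (4 : ZMod q) ≠ 0) (α : MulAut (G m q))
include h4

omit [NeZero q] in
lemma aut_gen_s (a : J m) : (α (gen a)).s = 1 := by
  rcases Int.units_eq_one_or (α (gen a)).s with h | h
  · exact h
  exfalso
  have hc : α (gen a) * α (gen a) * α t = α t * (α (gen a) * α (gen a)) := by
    ext1
    · simp [mul_comm]
    · funext b; simp [h]
    · funext p; simp [h]; ring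
  rw [← map_mul, ← map_mul, ← map_mul] at hc
  have := congrArg (fun x : G m q => x.u a) (α.injective hc)
  simp [gen] at this
  apply h4
  linear_combination this

lemma aut_s (x : G m q) : (α x).s = x.s := by
  have ht : (α t).s = -1 := by
    rcases Int.units_eq_one_or (α t).s with h | h
    · exfalso
      have : (sgn : G m q →* ℤˣ).comp α.toMonoidHom = 1 :=
        hom_ext _ _ h (fun a => aut_gen_s h4 α a)
      have h2 := DFunLike.congr_fun this (α.symm t)
      simp [sgn] at h2
    · exact h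
  have : (sgn : G m q →* ℤˣ).comp α.toMonoidHom = sgn :=
    hom_ext _ _ ht (fun a => aut_gen_s h4 α a)
  exact DFunLike.congr_fun this x

lemma aut_w (w : I m → ZMod q) : (α (n 0 w)).u = 0 := by
  classical
  let S : AddSubgroup (I m → ZMod q) :=
    { carrier := {w | (α (n 0 w)).u = 0}
      add_mem' := fun {a b} ha hb => by
        simp only [Set.mem_setOf_eq, n_zero_add, map_mul] at ha hb ⊢
        funext c; simp [ha, hb]
      zero_mem' := by
        change (α 1).u = 0
        rw [map_one]; rfl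
      neg_mem' := fun {a} ha => by
        simp only [Set.mem_setOf_eq, n_zero_neg, map_inv] at ha ⊢
        funext c; simp [ha] }
  refine addsub_top S (fun p => ?_) w
  change (α (n 0 (Pi.single p 1))).u = 0
  rw [comm_gen]
  funext c
  simp [aut_gen_s h4 α]

/-- the induced additive map -/
def L : (J m → ZMod q) →+ (J m → ZMod q) :=
  AddMonoidHom.mk' (fun u => (α (n u 0)).u) (by
    intro a b
    have : n (a + b) 0 = n a 0 * n b 0 * n 0 (-(n a 0 * n b 0).w) := by ext <;> simp
    rw [this]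
    funext c
    simp [aut_s h4 α, aut_w h4 α])

lemma aut_u (x : G m q) (hx : x.s = 1) : (α x).u = L h4 α x.u := by
  have : x = n x.u 0 * n 0 x.w := by ext <;> simp [hx]
  conv_lhs => rw [this]
  funext c
  simp [aut_w h4 α, L]

lemma L_inv (u : J m → ZMod q) : L h4 α⁻¹ (L h4 α u) = u := by
  have h := aut_u h4 α⁻¹ (α (n u 0)) (aut_s h4 α _)
  rw [aut_u h4 α _ rfl] at h
  rw [show L h4 α u = L h4 α (n u 0).u from rfl, ← h]
  simp

lemma L_sum (u : J m → ZMod q) (c : J m) :
    L h4 α u c = ∑ b, u b * L h4 α (Pi.single b 1) c := by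
  have e : u = ∑ i, (u i).val • (Pi.single i 1 : J m → ZMod q) := by
    funext j
    simp only [Finset.sum_apply, Pi.smul_apply]
    simp only [nsmul_eq_mul, ZMod.natCast_zmod_val]
    rw [Finset.sum_eq_single j]
    · simp
    · intro b _ hb; simp [Pi.single_apply, hb.symm]
    · simp
  conv_lhs => rw [e]
  rw [map_sum, Finset.sum_apply]
  refine Finset.sum_congr rfl fun b _ => ?_
  rw [map_nsmul, Pi.smul_apply, nsmul_eq_mul, ZMod.natCast_zmod_val]

lemma plane (φ : ZMod q →+* ZMod 2) (hφ : ∀ x, φ x ≠ 0 → IsUnit x) (a : J m) :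
    ∃ i : Fin m, ∀ d : J m, d.1 ≠ i → (α (gen a)).u d = 0 := by
  let a' : J m := (a.1, a.2 + 1)
  have haa : a' ≠ a := by
    intro h
    have := congrArg Prod.snd h
    simp [a'] at this
  set u := (α (gen a)).u with hu
  set v := (α (gen a')).u with hv
  have hc : gen (q := q) a * gen a' = gen a' * gen a := by
    ext1
    · simp [gen]
    · funext c; simp [gen, add_comm]
    · funext r
      obtain ⟨⟨c, d⟩, hcd⟩ := r
      simp only at hcd
      have h1 : ¬ (c = a ∧ d = a') := by rintro ⟨rfl, rfl⟩; exact lt_irrefl _ hcd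
      have h2 : ¬ (c = a' ∧ d = a) := by rintro ⟨rfl, rfl⟩; exact lt_irrefl _ hcd
      simp only [gen, mul_w, n_w, n_s, n_u, sg_one, one_mul, Pi.zero_apply, Pi.single_apply]
      by_cases e1 : c = a <;> by_cases e2 : d = a' <;> by_cases e3 : c = a' <;>
        by_cases e4 : d = a <;> simp_all
  have hc2 := congrArg α hc
  rw [map_mul, map_mul] at hc2
  have hmu0 : ∀ b c : J m, b.1 < c.1 → u b * v c - v b * u c = 0 := by
    intro b c hbc
    have := congrArg (fun x : G m q => x.w ⟨(b, c), hbc⟩) hc2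
    simp only [mul_w, aut_gen_s h4 α, sg_one, one_mul] at this
    linear_combination this
  have hmu : ∀ b c : J m, b.1 ≠ c.1 → u b * v c - v b * u c = 0 := by
    intro b c hbc
    rcases lt_or_gt_of_ne hbc with h | h
    · exact hmu0 b c h
    · linear_combination -hmu0 c b h
  have hu' : L h4 α⁻¹ u = Pi.single a 1 := by
    rw [hu, aut_u h4 α _ rfl]; exact L_inv h4 α _
  have hv' : L h4 α⁻¹ v = Pi.single a' 1 := by
    rw [hv, aut_u h4 α _ rfl]; exact L_inv h4 α _
  let f : J m → ZMod q := fun b => L h4 α⁻¹ (Pi.single b 1) a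
  let g : J m → ZMod q := fun b => L h4 α⁻¹ (Pi.single b 1) a'
  have e1 : ∑ b, u b * f b = 1 := by rw [← L_sum, hu']; simp
  have e2 : ∑ b, v b * f b = 0 := by rw [← L_sum, hv']; simp [Pi.single_apply, haa.symm]
  have e4 : ∑ b, v b * g b = 1 := by rw [← L_sum, hv']; simp
  have e5 : ∑ b, ∑ c, f b * g c * (u b * v c - v b * u c) = 1 := by
    have : ∑ b, ∑ c, f b * g c * (u b * v c - v b * u c) =
        (∑ b, u b * f b) * (∑ c, v c * g c) - (∑ b, v b * f b) * (∑ c, u c * g c) := by
      rw [Finset.sum_mul_sum, Finset.sum_mul_sum, ← Finset.sum_sub_distrib]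
      refine Finset.sum_congr rfl fun b _ => ?_
      rw [← Finset.sum_sub_distrib]
      exact Finset.sum_congr rfl fun c _ => by ring
    rw [this, e1, e2, e4]; ring
  obtain ⟨b, c, hbc⟩ : ∃ b c, φ (u b * v c - v b * u c) ≠ 0 := by
    by_contra h
    push Not at h
    have := congrArg φ e5
    simp only [map_sum, map_mul φ (f _ * g _), h, mul_zero, Finset.sum_const_zero, map_one] at this
    exact zero_ne_one this
  have hb : b.1 = c.1 := by
    by_contra h
    exact hbc (by rw [hmu b c h, map_zero])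
  refine ⟨b.1, fun d hd => ?_⟩
  have k1 := hmu b d (Ne.symm hd)
  have k2 := hmu c d (fun e => hd (by rw [hb, e]))
  apply (hφ _ hbc).mul_right_eq_zero.1
  linear_combination u c * k1 - u b * k2

end aut

section count

variable {h : ℕ}

lemma val_lt [NeZero h] (x : ZMod (2 * h)) : x.val / h < 2 := by
  have := x.val_lt
  rw [Nat.div_lt_iff_lt_mul (Nat.pos_of_ne_zero (NeZero.ne h))]
  exact this

/-- top bit -/
def bit [NeZero h] (x : ZMod (2 * h)) : Fin 2 := ⟨x.val / h, val_lt x⟩

lemma eq_of_bit [NeZero h] (x y : ZMod (2 * h)) (h1 : 2 * x = 2 * y) (h2 : bit x = bit y) :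
    x = y := by
  have e1 : ((2 * x.val : ℕ) : ZMod (2 * h)) = ((2 * y.val : ℕ) : ZMod (2 * h)) := by
    push_cast; rw [ZMod.natCast_zmod_val, ZMod.natCast_zmod_val, h1]
  rw [ZMod.natCast_eq_natCast_iff', Nat.mul_mod_mul_left, Nat.mul_mod_mul_left] at e1
  have e2 : x.val / h = y.val / h := congrArg Fin.val h2
  apply ZMod.val_injective
  rw [← Nat.div_add_mod x.val h, ← Nat.div_add_mod y.val h, e2]
  omega

lemma inv_ext [NeZero h] (x y : G m (2 * h)) (hx : x.s = -1) (hy : y.s = -1) (hxx : x * x = 1)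
    (hyy : y * y = 1) (hu : x.u = y.u) (hb : ∀ p, bit (x.w p) = bit (y.w p)) : x = y := by
  ext1
  · rw [hx, hy]
  · exact hu
  · funext p
    apply eq_of_bit _ _ _ (hb p)
    have e1 := congrArg (fun z : G m (2 * h) => z.w p) hxx
    have e2 := congrArg (fun z : G m (2 * h) => z.w p) hyy
    simp only [mul_w, hx, hy, hu, one_w] at e1 e2
    linear_combination e1 - e2

lemma gen_t_sq (a : J m) : (gen a * t : G m q) * (gen a * t) = 1 := by
  ext1
  · simp [gen]
  · funext c; simp [gen]
  · funext r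
    obtain ⟨⟨c, d⟩, hcd⟩ := r
    simp only at hcd
    have h1 : ¬ (c = a ∧ d = a) := by rintro ⟨rfl, rfl⟩; exact lt_irrefl _ hcd
    simp only [gen, mul_w, mul_u, mul_s, n_w, n_s, n_u, t_u, t_w, t_s, Pi.single_apply, one_w]
    by_cases e1 : c = a <;> by_cases e2 : d = a <;> simp_all

lemma t_sq : (t * t : G m q) = 1 := by ext <;> simp

theorem card_aut [NeZero h] (h4 : (4 : ZMod (2 * h)) ≠ 0) (φ : ZMod (2 * h) →+* ZMod 2)
    (hφ : ∀ x, φ x ≠ 0 → IsUnit x) :
    Nat.card (MulAut (G m (2 * h))) ≤ (2 * h) ^ (2 * m) * 2 ^ Fintype.card (I m) *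
      (m * (2 * h) ^ 2 * 2 ^ Fintype.card (I m)) ^ (2 * m) := by
  classical
  choose i hi using fun (α : MulAut (G m (2 * h))) (a : J m) => plane h4 α φ hφ a
  let Φ : MulAut (G m (2 * h)) → ((J m → ZMod (2 * h)) × (I m → Fin 2)) ×
      (J m → (Fin m × (Fin 2 → ZMod (2 * h))) × (I m → Fin 2)) := fun α =>
    (((α t).u, fun p => bit ((α t).w p)),
      fun a => ((i α a, fun j => (α (gen a)).u (i α a, j)), fun p => bit ((α (gen a * t)).w p)))
  have hΦ : Function.Injective Φ := by
    intro α β hαβ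
    have e1 : (α t).u = (β t).u := congrArg (fun z => z.1.1) hαβ
    have e2 : ∀ p, bit ((α t).w p) = bit ((β t).w p) :=
      fun p => congrFun (congrArg (fun z => z.1.2) hαβ) p
    have e3 : ∀ a, i α a = i β a := fun a => congrArg (fun z => (z.2 a).1.1) hαβ
    have e4 : ∀ a j, (α (gen a)).u (i α a, j) = (β (gen a)).u (i β a, j) :=
      fun a j => congrFun (congrArg (fun z => (z.2 a).1.2) hαβ) j
    have e5 : ∀ a p, bit ((α (gen a * t)).w p) = bit ((β (gen a * t)).w p) :=
      fun a p => congrFun (congrArg (fun z => (z.2 a).2) hαβ) p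
    have ht : α t = β t := inv_ext _ _ (aut_s h4 α _) (aut_s h4 β _)
      (by rw [← map_mul, t_sq, map_one]) (by rw [← map_mul, t_sq, map_one]) e1 e2
    have hu : ∀ a, (α (gen a)).u = (β (gen a)).u := by
      intro a
      funext d
      by_cases hd : d.1 = i α a
      · have := e4 a d.2
        rw [← e3, ← hd] at this
        exact this
      · rw [hi α a d hd, hi β a d (e3 a ▸ hd)]
    have hg : ∀ a, α (gen a) = β (gen a) := by
      intro a
      have : α (gen a * t) = β (gen a * t) := by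
        refine inv_ext _ _ (by rw [aut_s h4]; simp [gen]) (by rw [aut_s h4]; simp [gen])
          (by rw [← map_mul, gen_t_sq, map_one]) (by rw [← map_mul, gen_t_sq, map_one]) ?_ (e5 a)
        funext c
        simp [hu a, ht, aut_gen_s h4]
      rw [map_mul, map_mul, ht] at this
      exact mul_right_cancel this
    have := hom_ext α.toMonoidHom β.toMonoidHom ht hg
    ext1 x
    exact DFunLike.congr_fun this x
  have := Nat.card_le_card_of_injective Φ hΦ
  simpa [Nat.card_eq_fintype_card, mul_comm m 2] using this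

lemma card_I (k : ℕ) : k * k ≤ Fintype.card (I (2 * k)) := by
  let f : Fin k × Fin k → I (2 * k) := fun x =>
    ⟨((⟨x.1, by omega⟩, 0), (⟨k + x.2, by omega⟩, 0)), by
      change (x.1 : ℕ) < k + x.2
      omega⟩
  have hf : Function.Injective f := by
    intro x y hxy
    have e1 := congrArg (fun p : I (2 * k) => (p.1.1.1 : ℕ)) hxy
    have e2 := congrArg (fun p : I (2 * k) => (p.1.2.1 : ℕ)) hxy
    simp only [f] at e1 e2
    ext <;> omega
  simpa using Fintype.card_le_of_injective f hf

theorem main (k : ℕ) : ∃ (H : Type) (_ : Group H) (_ : Finite H) (q : ℕ), 1 < q ∧ IsPGroup 2 H ∧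
    Nat.card (MulAut H) ≤ q ^ (20 * k + 1) ∧ q ^ (k * k) ≤ Nat.totient (Nat.card H) := by
  let m := 2 * k
  let c := Fintype.card (I m)
  let e := c + m + 2
  let h := 2 ^ e
  have hq : 2 * h = 2 ^ (e + 1) := by rw [pow_succ']
  have : NeZero h := ⟨by positivity⟩
  have h4 : (4 : ZMod (2 * h)) ≠ 0 := by
    intro h0
    have : ((4 : ℕ) : ZMod (2 * h)) = 0 := by exact_mod_cast h0
    rw [ZMod.natCast_eq_zero_iff] at this
    have h1 := Nat.le_of_dvd (by norm_num) this
    have h2 : 2 ^ 2 ≤ h := Nat.pow_le_pow_right (by norm_num) (by omega)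
    omega
  have hφ : ∀ x : ZMod (2 * h), ZMod.castHom (dvd_mul_right 2 h) (ZMod 2) x ≠ 0 → IsUnit x := by
    intro x hx
    rw [← ZMod.natCast_zmod_val x] at hx ⊢
    rw [map_natCast, Ne, ZMod.natCast_eq_zero_iff] at hx
    rw [ZMod.isUnit_iff_coprime]
    generalize x.val = y at hx ⊢
    rw [hq]
    exact Nat.Coprime.pow_right _ ((Nat.prime_two.coprime_iff_not_dvd.2 hx).symm)
  have hA := card_aut (m := m) h4 _ hφ
  have hG : Nat.card (G m (2 * h)) = 2 ^ ((e + 1) * (2 * m + c) + 1) := by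
    rw [card_G, hq, ← pow_mul, pow_succ']
  refine ⟨G m (2 * h), inferInstance, inferInstance, 2 * h, ?_, IsPGroup.of_card hG, ?_, ?_⟩
  · have : 0 < h := by positivity
    omega
  · have b1 : 2 ^ c ≤ 2 * h := by rw [hq]; exact Nat.pow_le_pow_right (by norm_num) (by omega)
    have b2 : m ≤ 2 * h := by
      rw [hq]
      exact Nat.lt_two_pow_self.le.trans (Nat.pow_le_pow_right (by norm_num) (by omega))
    calc _ ≤ _ := hA
      _ ≤ (2 * h) ^ (2 * m) * (2 * h) * ((2 * h) * (2 * h) ^ 2 * (2 * h)) ^ (2 * m) := by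
        gcongr
      _ = (2 * h) ^ (20 * k + 1) := by
        generalize 2 * h = Q
        simp only [m]; ring
  · rw [hG, Nat.totient_prime_pow_succ Nat.prime_two, hq, ← pow_mul]
    simp only [Nat.add_one_sub_one, mul_one]
    apply Nat.pow_le_pow_right (by norm_num)
    apply Nat.mul_le_mul_left
    have := card_I k
    simp only [c, m]
    omega

end count

end Pool.Agent.Lib.helper24.SmallAut
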