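import Mathlib

set_option autoImplicit false

namespace Pool.Agent.Lib.helper24.Sparse

open Finset Filter Topology

open Classical in
/-- The number of elements of `S` in the interval `[a, b)`. -/
noncomputable def cnt (S : Set ℕ) (a b : ℕ) : ℕ := ((Ico a b).filter (· ∈ S)).card

/-- Upper Banach density: windows `[M + 1, M + 1 + R)` of length `R`. -/
noncomputable def upperBanach (E : Set ℕ) : ℝ :=
  limsup (fun R : ℕ => ⨆ M : ℕ, (cnt E (M + 1) (M + 1 + R) : ℝ) / R) atTop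

/-- Upper density of `A` relative to `E`, counted in `[1, N]`. -/
noncomputable def relUpper (E A : Set ℕ) : ℝ :=
  limsup (fun N : ℕ => (cnt (A ∩ E) 1 (N + 1) : ℝ) / cnt E 1 (N + 1)) atTop

theorem cnt_le (S : Set ℕ) (a b : ℕ) : cnt S a b ≤ b - a := by
  classical
  simpa [cnt] using card_filter_le (Ico a b) (· ∈ S)

theorem cnt_mono {S T : Set ℕ} (h : S ⊆ T) (a b : ℕ) : cnt S a b ≤ cnt T a b := by
  unfold cnt
  exact card_le_card fun x hx => by
    simp only [mem_filter] at hx ⊢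
    exact ⟨hx.1, h hx.2⟩

theorem cnt_add (S : Set ℕ) (a l m : ℕ) :
    ∑ i ∈ range m, cnt S (a + i * l) (a + i * l + l) = cnt S a (a + m * l) := by
  classical
  induction m with
  | zero => simp [cnt]
  | succ m ih =>
    rw [sum_range_succ, ih]
    unfold cnt
    rw [← card_union_of_disjoint (disjoint_filter_filter (Ico_disjoint_Ico_consecutive _ _ _)),
      ← filter_union, Ico_union_Ico_eq_Ico (by omega) (by omega)]
    congr 3; ring

theorem sparse {E : Set ℕ} (h : upperBanach E = 0) {ε : ℝ} (hε : 0 < ε) :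
    ∀ᶠ R : ℕ in atTop, ∀ M, (cnt E (M + 1) (M + 1 + R) : ℝ) ≤ ε * R := by
  have b : ∀ R M : ℕ, (cnt E (M + 1) (M + 1 + R) : ℝ) / R ≤ 1 := fun R M =>
    div_le_one_of_le₀ (by exact_mod_cast (cnt_le E _ _).trans (by omega)) (by positivity)
  have := eventually_lt_of_limsup_lt (h.trans_lt hε)
    ⟨1, eventually_map.mpr (Eventually.of_forall fun R => ciSup_le (b R))⟩
  filter_upwards [this, eventually_gt_atTop 0] with R h1 h2 M
  have h3 := (le_ciSup (f := fun M : ℕ => (cnt E (M + 1) (M + 1 + R) : ℝ) / R)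
    ⟨1, by rintro _ ⟨M, rfl⟩; exact b R M⟩ M).trans h1.le
  rwa [div_le_iff₀ (by exact_mod_cast h2)] at h3

theorem cnt_tendsto {E : Set ℕ} (h : E.Infinite) :
    Tendsto (fun N => cnt E 1 (N + 1)) atTop atTop := by
  classical
  refine tendsto_atTop.mpr fun n => ?_
  obtain ⟨t, ht, hc⟩ := (h.sdiff (Set.finite_singleton 0)).exists_subset_card_eq n
  filter_upwards [eventually_ge_atTop (t.sup id)] with N hN
  rw [← hc]
  refine card_le_card fun x hx => ?_
  have h1 := ht hx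
  have h2 : x ≤ t.sup id := le_sup (f := id) hx
  simp only [Set.mem_sdiff, Set.mem_singleton_iff] at h1
  simp only [mem_filter, mem_Ico]
  exact ⟨⟨by omega, by omega⟩, h1.1⟩

/-- Elements of `E` with a neighbour in `E` at a distance in `(b, b + l]`. -/
def bad (E : Set ℕ) (b l : ℕ) : Set ℕ := {x | x ∈ E ∧ ∃ y ∈ E, x + b < y ∧ y ≤ x + b + l}

theorem step {E : Set ℕ} (h : upperBanach E = 0) (a l : ℕ) {η : ℝ} (hη : 0 < η) :
    ∃ b, a ≤ b ∧ ∀ᶠ N in (hyperfilter ℕ : Filter ℕ),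
      (cnt (bad E b l) 1 (N + 1) : ℝ) ≤ η * cnt E 1 (N + 1) := by
  classical
  obtain ⟨m, hm, hs⟩ : ∃ m : ℕ, 0 < m ∧ ∀ M, (cnt E (M + 1) (M + 1 + m * l) : ℝ) ≤ η * m := by
    rcases Nat.eq_zero_or_pos l with rfl | hl
    · exact ⟨1, one_pos, fun M => by simp [cnt, hη.le]⟩
    · have hl' : (0 : ℝ) < l := by exact_mod_cast hl
      obtain ⟨R, hR⟩ := eventually_atTop.mp (sparse h (div_pos hη hl'))
      refine ⟨R + 1, by omega, fun M => (hR _ (by nlinarith) M).trans (le_of_eq ?_)⟩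
      push_cast; field_simp
  have key : ∀ N, ∃ i ∈ (range m : Set ℕ),
      (cnt (bad E (a + i * l) l) 1 (N + 1) : ℝ) ≤ η * cnt E 1 (N + 1) := by
    intro N
    have h1 : ∀ b, (cnt (bad E b l) 1 (N + 1) : ℝ) ≤
        ∑ x ∈ (Ico 1 (N + 1)).filter (· ∈ E), (cnt E (x + b + 1) (x + b + 1 + l) : ℝ) := by
      intro b
      rw [cnt, card_eq_sum_ones, Nat.cast_sum]
      refine (sum_le_sum fun x hx => ?_).trans (sum_le_sum_of_subset_of_nonneg
        (fun x hx => ?_) fun _ _ _ => by positivity)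
      · obtain ⟨-, -, y, h1, h2, h3⟩ := mem_filter.mp hx
        exact Nat.cast_le.mpr (card_pos.mpr ⟨y, mem_filter.mpr ⟨mem_Ico.mpr (by omega), h1⟩⟩)
      · exact mem_filter.mpr ⟨(mem_filter.mp hx).1, (mem_filter.mp hx).2.1⟩
    have h2 : ∑ i ∈ range m, (cnt (bad E (a + i * l) l) 1 (N + 1) : ℝ) ≤
        ∑ _i ∈ range m, η * cnt E 1 (N + 1) := by
      refine (sum_le_sum fun i _ => h1 _).trans ?_
      rw [sum_comm]
      refine (sum_le_sum (g := fun _ => η * m) fun x _ => ?_).trans (le_of_eq ?_)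
      · refine le_trans (le_of_eq ?_) (hs (x + a))
        rw [← cnt_add, Nat.cast_sum]
        refine sum_congr rfl fun i _ => ?_
        congr 2 <;> ring
      · simp only [sum_const, card_range, nsmul_eq_mul, cnt]; ring
    exact exists_le_of_sum_le (nonempty_range_iff.mpr hm.ne') h2
  obtain ⟨i, -, hi⟩ := (Ultrafilter.eventually_exists_mem_iff (finite_toSet _)).mp
    (Eventually.of_forall (f := (hyperfilter ℕ : Filter ℕ)) key)
  exact ⟨_, Nat.le_add_right _ _, hi⟩

theorem main {E : Set ℕ} (hE : E.Infinite) (h : upperBanach E = 0) :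
    ∃ A ⊆ E, 0 < relUpper E A ∧ ∃ R : Set ℕ, (∀ l, ∃ b, ∀ r, b < r → r ≤ b + l → r ∈ R) ∧
      0 ∉ R ∧ ∀ x ∈ A, ∀ r ∈ R, x + r ∉ A := by
  classical
  have hU : (hyperfilter ℕ : Filter ℕ) ≤ atTop := Nat.cofinite_eq_atTop ▸ hyperfilter_le_cofinite
  choose β β1 β2 using fun a k : ℕ => step h a k (η := 1 / 8 * (1 / 2) ^ k) (by positivity)
  obtain ⟨G, hG⟩ : ∃ G : ℕ → ℕ → Set ℕ, G = fun a k => {N |
    (cnt (bad E (β a k) k) 1 (N + 1) : ℝ) ≤ 1 / 8 * (1 / 2) ^ k * cnt E 1 (N + 1) ∧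
    a + β a k + k ≤ N ∧ 4 * (a + β a k + k + 1) ≤ cnt E 1 (N + 1)} := ⟨_, rfl⟩
  have G1 : ∀ a k, G a k ∈ (hyperfilter ℕ : Filter ℕ) := fun a k => by
    rw [hG]
    exact (β2 a k).and (hU ((eventually_ge_atTop _).and
      ((cnt_tendsto hE).eventually (eventually_ge_atTop _))))
  obtain ⟨S, S0, S1⟩ : ∃ S : ℕ → Set ℕ, S 0 = Set.univ ∧
      ∀ k, S (k + 1) = S k ∩ G (Classical.epsilon (· ∈ S k)) k :=
    ⟨fun k => Nat.rec Set.univ (fun k s => s ∩ G (Classical.epsilon (· ∈ s)) k) k, rfl,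
      fun _ => rfl⟩
  obtain ⟨N, hN⟩ : ∃ N : ℕ → ℕ, N = fun k => Classical.epsilon (· ∈ S k) := ⟨_, rfl⟩
  have S2 : ∀ k, S k ∈ (hyperfilter ℕ : Filter ℕ) := fun k => by
    induction k with
    | zero => rw [S0]; exact univ_mem
    | succ k ih => rw [S1]; exact inter_mem ih (G1 _ _)
  have N1 : ∀ k, N k ∈ S k := fun k => by
    rw [hN]; exact Classical.epsilon_spec (Filter.nonempty_of_mem (S2 k))
  have S3 : Antitone S := antitone_nat_of_succ_le fun k => by rw [S1]; exact Set.inter_subset_left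
  have N2 : ∀ j k, j ≤ k → N (k + 1) ∈ G (N j) j := fun j k hj => by
    have := S3 (Nat.succ_le_succ hj) (N1 (k + 1))
    rw [S1] at this
    rw [hN]; rw [hN] at this; exact this.2
  simp only [hG, Set.mem_ofPred_eq] at N2
  have N3 : ∀ k, N k + β (N k) k + k ≤ N (k + 1) := fun k => (N2 k k le_rfl).2.1
  have N4 : Monotone N := monotone_nat_of_le_succ fun k => by have := N3 k; omega
  obtain ⟨A, hA⟩ : ∃ A : Set ℕ, A = {x | x ∈ E ∧ ∃ k, N k + β (N k) k + k < x ∧ x ≤ N (k + 1) ∧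
    ∀ j ≤ k, x ∉ bad E (β (N j) j) j} := ⟨_, rfl⟩
  have AE : A ⊆ E := fun x hx => by rw [hA] at hx; exact hx.1
  refine ⟨A, AE, ?_, {r | ∃ j, β (N j) j < r ∧ r ≤ β (N j) j + j},
    fun l => ⟨_, fun r h1 h2 => ⟨l, h1, h2⟩⟩, by simp, ?_⟩
  · refine lt_of_lt_of_le one_half_pos (le_limsup_of_frequently_le ?_
      ⟨1, eventually_map.mpr (Eventually.of_forall fun n => div_le_one_of_le₀
        (Nat.cast_le.mpr (cnt_mono Set.inter_subset_right _ _)) (by positivity))⟩)
    refine frequently_atTop.mpr fun k => ⟨N (k + 1), by have := N3 k; omega, ?_⟩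
    have c1 : cnt E 1 (N (k + 1) + 1) ≤ cnt (A ∩ E) 1 (N (k + 1) + 1) +
        (N k + β (N k) k + k + 1) + ∑ j ∈ range (k + 1), cnt (bad E (β (N j) j) j) 1 (N (k + 1) + 1) := by
      unfold cnt
      refine le_trans (card_le_card ?_) ((card_union_le _ _).trans (add_le_add
        ((card_union_le _ _).trans (add_le_add le_rfl (card_range _).le)) card_biUnion_le))
      intro x hx
      simp only [mem_filter, mem_union, mem_biUnion, mem_range, mem_Ico, Set.mem_inter_iff] at hx ⊢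
      by_contra hc
      push Not at hc
      refine hc.1.1 hx.1 ?_ hx.2
      rw [hA]
      exact ⟨hx.2, k, by omega, by omega, fun j hj => hc.2 j (by omega) hx.1⟩
    have c2 : ∑ j ∈ range (k + 1), (cnt (bad E (β (N j) j) j) 1 (N (k + 1) + 1) : ℝ) ≤
        1 / 4 * cnt E 1 (N (k + 1) + 1) := by
      refine (sum_le_sum fun j hj => (N2 j k (by simpa [Nat.lt_succ_iff] using hj)).1).trans ?_
      rw [← sum_mul, ← mul_sum]
      have := sum_geometric_two_le (k + 1)
      exact mul_le_mul_of_nonneg_right (by linarith) (by positivity)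
    have c3 := (N2 k k le_rfl).2.2
    have c4 : (0 : ℝ) < cnt E 1 (N (k + 1) + 1) := by
      have : 0 < cnt E 1 (N (k + 1) + 1) := by omega
      exact_mod_cast this
    rw [le_div_iff₀ c4]
    have c1' := (Nat.cast_le (α := ℝ)).mpr c1
    have c3' := (Nat.cast_le (α := ℝ)).mpr c3
    push_cast at c1' c3'
    linarith
  · rw [hA]
    rintro x ⟨x1, i, x2, x3, x4⟩ r ⟨j, r1, r2⟩ ⟨y1, k, y2, y3, -⟩
    by_cases hj : j ≤ i
    · exact x4 j hj ⟨x1, _, y1, by omega, by omega⟩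
    have a1 := N4 (show i + 1 ≤ j by omega)
    have a2 := β1 (N j) j
    rcases lt_trichotomy j k with h | rfl | h
    · have := N4 (show j + 1 ≤ k by omega)
      have := N3 j
      have := β1 (N k) k
      omega
    · omega
    · have := N4 (show k + 1 ≤ j by omega)
      omega

end Pool.Agent.Lib.helper24.Sparse
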