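import Mathlib

set_option autoImplicit false

namespace Pool.Agent.Lib.helper24.SubNim

/-- A sequence given by a table: preperiod `a`, period `p`. -/
def tab (L : List ℕ) (a p n : ℕ) : ℕ := if n < a then L.getD n 0 else L.getD (a + (n - a) % p) 0

theorem tab_per (L : List ℕ) (a p n : ℕ) (h : a ≤ n) : tab L a p (n + p) = tab L a p n := by
  unfold tab
  rw [if_neg (by omega), if_neg (by omega)]
  have : n + p - a = (n - a) + p := by omega
  rw [this, Nat.add_mod_right]

theorem tab_per_mul (L : List ℕ) (a p n k : ℕ) (h : a ≤ n) :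
    tab L a p (n + p * k) = tab L a p n := by
  induction k with
  | zero => rfl
  | succ k ih => rw [mul_add, mul_one, ← add_assoc, tab_per _ _ _ _ (by omega), ih]

theorem mex_all (S : Finset ℕ) (G : ℕ → ℕ) (a p m : ℕ) (hp : 0 < p) (hm : ∀ s ∈ S, s ≤ m)
    (hper : ∀ n, a ≤ n → G (n + p) = G n)
    (h : ∀ n < a + m + p, (∀ s ∈ S, s ≤ n → G (n - s) ≠ G n) ∧
      ∀ k < G n, ∃ s ∈ S, s ≤ n ∧ G (n - s) = k) :
    ∀ n, IsLeast {k | ∀ s ∈ S, s ≤ n → G (n - s) ≠ k} (G n) := by
  have key : ∀ n, (∀ s ∈ S, s ≤ n → G (n - s) ≠ G n) ∧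
      ∀ k < G n, ∃ s ∈ S, s ≤ n ∧ G (n - s) = k := by
    intro n
    induction n using Nat.strong_induction_on with
    | _ n ih =>
      by_cases hn : n < a + m + p
      · exact h n hn
      · obtain ⟨r, rfl⟩ : ∃ r, n = r + p := ⟨n - p, by omega⟩
        have h1 := ih r (by omega)
        have e : ∀ s ∈ S, G (r + p - s) = G (r - s) := by
          intro s hs
          have := hm s hs
          have e1 : r + p - s = r - s + p := by omega
          rw [e1, hper _ (by omega)]
        rw [hper r (by omega)]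
        refine ⟨fun s hs _ => ?_, fun k hk => ?_⟩
        · rw [e s hs]
          exact h1.1 s hs (by have := hm s hs; omega)
        · obtain ⟨s, hs, h2, h3⟩ := h1.2 k hk
          exact ⟨s, hs, by omega, by rw [e s hs, h3]⟩
  intro n
  refine ⟨(key n).1, fun k hk => ?_⟩
  by_contra hlt
  obtain ⟨s, hs, h2, h3⟩ := (key n).2 k (by omega)
  exact hk s hs h2 h3

end Pool.Agent.Lib.helper24.SubNim
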