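import Mathlib

set_option autoImplicit false

namespace Pool.Agent.TwoTrans

open scoped commutatorElement

/-- Iterated commutator subgroups inside the ambient group. -/
def iter {G : Type*} [Group G] (H : Subgroup G) : ℕ → Subgroup G
  | 0 => H
  | n + 1 => ⁅iter H n, iter H n⁆

theorem map_derived {G : Type*} [Group G] (H : Subgroup G) (n : ℕ) :
    (derivedSeries H n).map H.subtype = iter H n := by
  induction n with
  | zero => simp [iter, ← MonoidHom.range_eq_map]
  | succ n ih => rw [derivedSeries_succ, Subgroup.map_commutator, ih]; rfl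

theorem solvable_iff {G : Type*} [Group G] (H : Subgroup G) :
    IsSolvable H ↔ ∃ n, iter H n = ⊥ := by
  constructor
  · rintro ⟨n, hn⟩
    exact ⟨n, by rw [← map_derived, hn, Subgroup.map_bot]⟩
  · rintro ⟨n, hn⟩
    refine ⟨⟨n, ?_⟩⟩
    rw [← map_derived] at hn
    exact (Subgroup.map_eq_bot_iff_of_injective _ H.subtype_injective).1 hn

theorem iter_add {G : Type*} [Group G] (H : Subgroup G) (m n : ℕ) :
    iter H (m + n) = iter (iter H m) n := by
  induction n with
  | zero => rfl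
  | succ n ih => rw [← add_assoc]; simp only [iter]; rw [ih]

theorem iter_mono {G : Type*} [Group G] {H K : Subgroup G} (h : H ≤ K) (n : ℕ) :
    iter H n ≤ iter K n := by
  induction n with
  | zero => exact h
  | succ n ih => exact Subgroup.commutator_mono ih ih

section Affine

variable {Γ K : Type} [Group Γ] [Field K] (θ : Γ →* (K ≃+* K))

/-- `σ` is the semi-affine map `x ↦ a θ(γ)(x) + b`. -/
def Rel (σ : Equiv.Perm K) (a b : K) (γ : Γ) : Prop := a ≠ 0 ∧ ∀ x, σ x = a * θ γ x + b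

theorem theta_mul (γ δ : Γ) (x : K) : θ (γ * δ) x = θ γ (θ δ x) := by
  rw [map_mul]; rfl

theorem theta_one (x : K) : θ 1 x = x := by rw [map_one]; rfl

theorem Rel.one : Rel θ 1 1 0 1 := ⟨one_ne_zero, fun x => by simp [theta_one]⟩

theorem Rel.mul {σ τ : Equiv.Perm K} {a b c d : K} {γ δ : Γ} (h : Rel θ σ a b γ)
    (k : Rel θ τ c d δ) : Rel θ (σ * τ) (a * θ γ c) (a * θ γ d + b) (γ * δ) := by
  refine ⟨mul_ne_zero h.1 (by simpa using k.1), fun x => ?_⟩
  rw [Equiv.Perm.mul_apply, h.2, k.2, theta_mul, map_add, map_mul]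
  ring

theorem Rel.inv {σ : Equiv.Perm K} {a b : K} {γ : Γ} (h : Rel θ σ a b γ) :
    Rel θ σ⁻¹ (θ γ⁻¹ a⁻¹) (-θ γ⁻¹ (a⁻¹ * b)) γ⁻¹ := by
  refine ⟨by simpa using h.1, fun x => ?_⟩
  rw [Equiv.Perm.inv_eq_iff_eq, h.2]
  have e : ∀ y, θ γ (θ γ⁻¹ y) = y := fun y => by rw [← theta_mul, mul_inv_cancel, theta_one]
  rw [map_add, map_mul, map_neg, e, e, e]
  have := h.1
  field_simp
  ring

/-- The semi-affine group with automorphism parts from `Δ`. -/
def SA (Δ : Subgroup Γ) : Subgroup (Equiv.Perm K) where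
  carrier := {σ | ∃ a b γ, γ ∈ Δ ∧ Rel θ σ a b γ}
  one_mem' := ⟨1, 0, 1, Δ.one_mem, Rel.one θ⟩
  mul_mem' := by
    rintro σ τ ⟨a, b, γ, h1, h2⟩ ⟨c, d, δ, k1, k2⟩
    exact ⟨_, _, _, Δ.mul_mem h1 k1, h2.mul θ k2⟩
  inv_mem' := by
    rintro σ ⟨a, b, γ, h1, h2⟩
    exact ⟨_, _, _, Δ.inv_mem h1, h2.inv θ⟩

theorem SA_comm (Δ : Subgroup Γ) : ⁅SA θ Δ, SA θ Δ⁆ ≤ SA θ ⁅Δ, Δ⁆ := by
  rw [Subgroup.commutator_le]
  rintro σ ⟨a, b, γ, h1, h2⟩ τ ⟨c, d, δ, k1, k2⟩
  exact ⟨_, _, _, Subgroup.commutator_mem_commutator h1 k1,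
    ((h2.mul θ k2).mul θ (h2.inv θ)).mul θ (k2.inv θ)⟩

theorem iter_SA (Δ : Subgroup Γ) (n : ℕ) : iter (SA θ Δ) n ≤ SA θ (iter Δ n) := by
  induction n with
  | zero => exact le_rfl
  | succ n ih => exact (Subgroup.commutator_mono ih ih).trans (SA_comm θ _)

/-- Translations. -/
def Tr (K : Type) [Field K] : Subgroup (Equiv.Perm K) where
  carrier := {σ | ∃ b, ∀ x, σ x = x + b}
  one_mem' := ⟨0, fun x => by simp⟩
  mul_mem' := by
    rintro σ τ ⟨b, h⟩ ⟨c, k⟩
    exact ⟨c + b, fun x => by rw [Equiv.Perm.mul_apply, h, k, add_assoc]⟩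
  inv_mem' := by
    rintro σ ⟨b, h⟩
    exact ⟨-b, fun x => by rw [Equiv.Perm.inv_eq_iff_eq, h]; ring⟩

theorem SA_bot : iter (SA θ ⊥) 2 = ⊥ := by
  have h1 : ⁅SA θ ⊥, SA θ ⊥⁆ ≤ Tr K := by
    rw [Subgroup.commutator_le]
    rintro σ ⟨a, b, γ, h1, h2⟩ τ ⟨c, d, δ, k1, k2⟩
    rw [Subgroup.mem_bot] at h1 k1
    subst h1 k1
    have := ((h2.mul θ k2).mul θ (h2.inv θ)).mul θ (k2.inv θ)
    simp only [mul_one, inv_one, theta_one] at this
    have e : a * c * a⁻¹ * c⁻¹ = 1 := by
      have := h2.1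
      have := k2.1
      field_simp
    rw [e] at this
    exact ⟨_, fun x => (this.2 x).trans (by rw [theta_one, one_mul])⟩
  have h2 : ⁅Tr K, Tr K⁆ = ⊥ := by
    rw [eq_bot_iff, Subgroup.commutator_le]
    rintro σ ⟨b, h⟩ τ ⟨c, k⟩
    rw [Subgroup.mem_bot, commutatorElement_eq_one_iff_mul_comm]
    ext x
    simp only [Equiv.Perm.mul_apply, h, k]
    ring
  rw [eq_bot_iff, ← h2]
  exact Subgroup.commutator_mono h1 h1

theorem SA_solvable (Δ : Subgroup Γ) (h : IsSolvable Δ) : IsSolvable (SA θ Δ) := by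
  obtain ⟨n, hn⟩ := (solvable_iff Δ).1 h
  refine (solvable_iff _).2 ⟨n + 2, ?_⟩
  rw [iter_add, eq_bot_iff, ← SA_bot θ]
  apply iter_mono
  rw [← hn]
  exact iter_SA θ Δ n

/-- The affine permutation `x ↦ a x + b`. -/
noncomputable def aff (a : K) (ha : a ≠ 0) (b : K) : SA θ ⊤ :=
  ⟨(Equiv.addRight b) * (Equiv.mulLeft₀ a ha), a, b, 1, Subgroup.mem_top _, ha, fun x => by
    simp [theta_one]⟩

theorem aff_apply (a : K) (ha : a ≠ 0) (b x : K) : (aff θ a ha b).1 x = a * x + b := by
  simp [aff]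

/-- The automorphism part as a homomorphism into the semi-affine group. -/
noncomputable def inc : Γ →* SA θ ⊤ where
  toFun γ := ⟨(θ γ).toEquiv, 1, 0, γ, Subgroup.mem_top _, one_ne_zero, fun x => by simp⟩
  map_one' := Subtype.ext (Equiv.ext fun x => theta_one θ x)
  map_mul' γ δ := Subtype.ext (Equiv.ext fun x => theta_mul θ γ δ x)

theorem inc_apply (γ : Γ) (x : K) : (inc θ γ).1 x = θ γ x := rfl

theorem normal_top [Infinite K] (z : Γ) (hz : ∀ x, θ z x = x ^ 2) (N : Subgroup (SA θ ⊤))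
    [hN : N.Normal] (h : ∀ γ, inc θ γ ∈ N) (g : SA θ ⊤) : g ∈ N := by
  have hm : ∀ (a : K) (ha : a ≠ 0), aff θ a ha 0 ∈ N := by
    intro a ha
    have e : aff θ a ha 0 = inc θ z * (aff θ a ha 0 * (inc θ z)⁻¹ * (aff θ a ha 0)⁻¹) := by
      have : inc θ z * aff θ a ha 0 = aff θ a ha 0 * aff θ a ha 0 * inc θ z := by
        apply Subtype.ext
        ext x
        simp only [Subgroup.coe_mul, Equiv.Perm.mul_apply, aff_apply, inc_apply, hz]
        ring
      rw [← mul_assoc, ← mul_assoc, this]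
      group
    rw [e]
    exact N.mul_mem (h z) (hN.conj_mem _ (N.inv_mem (h z)) _)
  have ht : ∀ b : K, aff θ 1 one_ne_zero b ∈ N := by
    classical
    intro b
    obtain ⟨a, ha⟩ := Infinite.exists_notMem_finset ({0, 1} : Finset K)
    simp only [Finset.mem_insert, Finset.mem_singleton, not_or] at ha
    have ha1 : (1 - a) ≠ 0 := sub_ne_zero.2 (Ne.symm ha.2)
    have e : aff θ 1 one_ne_zero b = (aff θ 1 one_ne_zero (b / (1 - a)) * aff θ a ha.1 0 *
        (aff θ 1 one_ne_zero (b / (1 - a)))⁻¹) * (aff θ a ha.1 0)⁻¹ := by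
      rw [eq_mul_inv_iff_mul_eq, eq_mul_inv_iff_mul_eq]
      apply Subtype.ext
      ext x
      simp only [Subgroup.coe_mul, Equiv.Perm.mul_apply, aff_apply]
      field_simp
      ring
    rw [e]
    exact N.mul_mem (hN.conj_mem _ (hm a ha.1) _) (N.inv_mem (hm a ha.1))
  obtain ⟨σ, a, b, γ, hγ, ha, hσ⟩ := g
  have e : (⟨σ, a, b, γ, hγ, ha, hσ⟩ : SA θ ⊤) =
      aff θ 1 one_ne_zero b * aff θ a ha 0 * inc θ γ := by
    apply Subtype.ext
    ext x
    simp only [Subgroup.coe_mul, Equiv.Perm.mul_apply, aff_apply, inc_apply, hσ]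
    ring
  rw [e]
  exact N.mul_mem (N.mul_mem (ht b) (hm a ha)) (h γ)

theorem two_trans : MulAction.IsMultiplyPretransitive (SA θ ⊤) K 2 := by
  rw [MulAction.is_two_pretransitive_iff]
  intro a b c d hab hcd
  have h1 : a - b ≠ 0 := sub_ne_zero.2 hab
  have h2 : c - d ≠ 0 := sub_ne_zero.2 hcd
  refine ⟨aff θ ((c - d) / (a - b)) (div_ne_zero h2 h1) (c - (c - d) / (a - b) * a), ?_, ?_⟩
  · show (aff θ _ _ _).1 a = c
    rw [aff_apply]; ring
  · show (aff θ _ _ _).1 b = d
    rw [aff_apply]; field_simp; ring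

theorem infinite_SA [Infinite K] : Infinite (SA θ ⊤) :=
  Infinite.of_injective (fun b : K => aff θ 1 one_ne_zero b) fun b c h => by
    have := congrArg (fun g : SA θ ⊤ => g.1 0) h
    simpa [aff_apply] using this

theorem locSol (hΓ : ∀ S : Finset Γ, IsSolvable (Subgroup.closure (S : Set Γ)))
    (S : Finset (SA θ ⊤)) : IsSolvable (Subgroup.closure (S : Set (SA θ ⊤))) := by
  classical
  have : ∀ g : SA θ ⊤, ∃ γ a b, Rel θ g.1 a b γ := by
    rintro ⟨σ, a, b, γ, -, h⟩
    exact ⟨γ, a, b, h⟩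
  choose c hc using this
  have hs := SA_solvable θ _ (hΓ (S.image c))
  have hle : ∀ g ∈ Subgroup.closure (S : Set (SA θ ⊤)),
      g.1 ∈ SA θ (Subgroup.closure ((S.image c : Finset Γ) : Set Γ)) := by
    have : Subgroup.closure (S : Set (SA θ ⊤)) ≤
        (SA θ (Subgroup.closure ((S.image c : Finset Γ) : Set Γ))).comap (SA θ ⊤).subtype := by
      rw [Subgroup.closure_le]
      intro g hg
      obtain ⟨a, b, h⟩ := hc g
      exact ⟨a, b, c g, Subgroup.subset_closure (by
        simp only [Finset.coe_image]; exact ⟨g, hg, rfl⟩), h⟩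
    exact fun g hg => this hg
  let f := ((SA θ ⊤).subtype.comp (Subgroup.closure (S : Set (SA θ ⊤))).subtype).codRestrict
    (SA θ (Subgroup.closure ((S.image c : Finset Γ) : Set Γ))) (fun g => hle g.1 g.2)
  have : Group.IsSolvable
    (SA θ (Subgroup.closure ((S.image c : Finset Γ) : Set Γ))) := hs
  refine solvable_of_solvable_injective (f := f) fun x y h => ?_
  have h' : (f x).1 = (f y).1 := congrArg Subtype.val h
  exact Subtype.ext (Subtype.ext h')

end Affine

section FieldPart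

variable {Γ : Type} [Group Γ] (z : Γ)

/-- Functions on `Γ` doubled by left translation by `z`. -/
def Lam : Submodule ℚ (Γ → ℚ) where
  carrier := {f | ∀ x, f (z * x) = 2 * f x}
  zero_mem' := fun x => by simp
  add_mem' := by
    intro f g hf hg x
    simp only [Pi.add_apply, hf x, hg x]; ring
  smul_mem' := by
    intro c f hf x
    simp only [Pi.smul_apply, hf x, smul_eq_mul]; ring

/-- Right translation. -/
def shift (γ : Γ) : Lam z ≃+ Lam z where
  toFun f := ⟨fun x => f.1 (x * γ), fun x => by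
    show f.1 (z * x * γ) = _
    rw [mul_assoc]; exact f.2 _⟩
  invFun f := ⟨fun x => f.1 (x * γ⁻¹), fun x => by
    show f.1 (z * x * γ⁻¹) = _
    rw [mul_assoc]; exact f.2 _⟩
  left_inv f := Subtype.ext (funext fun x => by simp)
  right_inv f := Subtype.ext (funext fun x => by simp)
  map_add' f g := rfl

/-- The action on the group algebra. -/
noncomputable def actR :
    Γ →* (AddMonoidAlgebra (ZMod 2) (Lam z) ≃+* AddMonoidAlgebra (ZMod 2) (Lam z)) where
  toFun γ := AddMonoidAlgebra.mapDomainRingEquiv (ZMod 2) (shift z γ)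
  map_one' := by
    apply RingEquiv.ext
    intro r
    induction r using AddMonoidAlgebra.induction_linear with
    | zero => simp
    | add x y hx hy => rw [map_add, map_add, hx, hy]
    | single m c =>
      rw [AddMonoidAlgebra.mapDomainRingEquiv_single]
      have : shift z 1 m = m := Subtype.ext (funext fun x => by simp [shift])
      rw [this]; rfl
  map_mul' γ δ := by
    apply RingEquiv.ext
    intro r
    induction r using AddMonoidAlgebra.induction_linear with
    | zero => simp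
    | add x y hx hy => rw [map_add, map_add, hx, hy]
    | single m c =>
      show _ = AddMonoidAlgebra.mapDomainRingEquiv (ZMod 2) (shift z γ)
        (AddMonoidAlgebra.mapDomainRingEquiv (ZMod 2) (shift z δ) _)
      simp only [AddMonoidAlgebra.mapDomainRingEquiv_single]
      have : shift z (γ * δ) m = shift z γ (shift z δ m) :=
        Subtype.ext (funext fun x => by simp [shift, mul_assoc])
      rw [this]

theorem actR_z (hz : ∀ x, x * z = z * x) (r : AddMonoidAlgebra (ZMod 2) (Lam z)) :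
    actR z z r = r ^ 2 := by
  induction r using AddMonoidAlgebra.induction_linear with
  | zero => simp
  | add x y hx hy =>
    rw [map_add, hx, hy, add_sq]
    have : (2 : AddMonoidAlgebra (ZMod 2) (Lam z)) = 0 := by
      rw [← map_ofNat (algebraMap (ZMod 2) (AddMonoidAlgebra (ZMod 2) (Lam z))) 2]
      have : (2 : ZMod 2) = 0 := by decide
      rw [this, map_zero]
    rw [this]; simp
  | single m c =>
    show AddMonoidAlgebra.mapDomainRingEquiv (ZMod 2) (shift z z) _ = _
    rw [AddMonoidAlgebra.mapDomainRingEquiv_single, sq, AddMonoidAlgebra.single_mul_single]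
    have h1 : shift z z m = m + m := Subtype.ext (funext fun x => by
      show m.1 (x * z) = m.1 x + m.1 x
      rw [hz, m.2 x]; ring)
    have h2 : ∀ c : ZMod 2, c * c = c := by decide
    rw [h1, h2]

theorem exists_field (hz : ∀ x, x * z = z * x) (m : Γ → ℤ) (hm : ∀ x, m (z * x) = m x + 1) :
    ∃ (K : Type) (_ : Field K) (θ : Γ →* (K ≃+* K)), Infinite K ∧ ∀ x, θ z x = x ^ 2 := by
  let R := AddMonoidAlgebra (ZMod 2) (Lam z)
  refine ⟨FractionRing R, inferInstance,
    (IsFractionRing.ringEquivOfRingEquivHom R (FractionRing R)).comp (actR z), ?_, ?_⟩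
  · let f0 : Lam z := ⟨fun x => (2 : ℚ) ^ m x, fun x => by
      show (2 : ℚ) ^ m (z * x) = 2 * 2 ^ m x
      rw [hm, zpow_add_one₀ two_ne_zero, mul_comm]⟩
    refine Infinite.of_injective (fun q : ℚ => algebraMap R (FractionRing R)
      (AddMonoidAlgebra.single (q • f0) 1)) ?_
    intro p q h
    have h1 := IsFractionRing.injective R (FractionRing R) h
    have h2 : p • f0 = q • f0 := AddMonoidAlgebra.single_left_injective one_ne_zero h1
    have h3 := congrArg (fun f : Lam z => f.1 1) h2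
    have h4 : p * (2 : ℚ) ^ m 1 = q * 2 ^ m 1 := h3
    exact mul_right_cancel₀ (zpow_ne_zero _ two_ne_zero) h4
  · intro x
    obtain ⟨a, b, hb, rfl⟩ := IsFractionRing.div_surjective R x
    show IsFractionRing.ringEquivOfRingEquiv (actR z z) _ = _
    rw [map_div₀, IsFractionRing.ringEquivOfRingEquiv_algebraMap,
      IsFractionRing.ringEquivOfRingEquiv_algebraMap, actR_z z hz, actR_z z hz, map_pow, map_pow]
    exact (div_pow (algebraMap R (FractionRing R) a) (algebraMap R (FractionRing R) b) 2).symm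

end FieldPart

end Pool.Agent.TwoTrans
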