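import Pool.Agent.Lib.helper24.TwoTransA

set_option autoImplicit false

namespace Pool.Agent.TwoTrans

open scoped commutatorElement

/-- The ambient ring of endomorphisms. -/
abbrev EA : Type := Module.End ℤ (ℚ →₀ ℤ)

/-- Matrix units. -/
noncomputable def eu (i j : ℚ) : EA := (Finsupp.lsingle i).comp (Finsupp.lapply j)

theorem eu_apply (i j : ℚ) (v : ℚ →₀ ℤ) : eu i j v = Finsupp.single i (v j) := rfl

theorem eu_mul_same (i j l : ℚ) : eu i j * eu j l = eu i l := by
  apply LinearMap.ext; intro v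
  simp [Module.End.mul_apply, eu_apply]

theorem eu_mul_ne {j k : ℚ} (i l : ℚ) (h : j ≠ k) : eu i j * eu k l = 0 := by
  apply LinearMap.ext; intro v
  simp [Module.End.mul_apply, eu_apply, Finsupp.single_apply, h, h.symm]

/-- Transvections. -/
noncomputable def T (i j : ℚ) : EAˣ :=
  if h : i < j then
    ⟨1 + eu i j, 1 - eu i j,
      by rw [add_mul, mul_sub, mul_sub, eu_mul_ne i j h.ne']; simp,
      by rw [sub_mul, mul_add, mul_add, eu_mul_ne i j h.ne']; simp⟩
  else 1

theorem T_val {i j : ℚ} (h : i < j) : (T i j : EA) = 1 + eu i j := by simp [T, h]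

theorem T_inv {i j : ℚ} (h : i < j) : ((T i j)⁻¹ : EAˣ) = (1 - eu i j : EA) := by
  simp [T, h]

theorem T_comm {i j k l : ℚ} (h1 : i < j) (h2 : k < l) (h3 : j ≠ k) (h4 : l ≠ i) :
    T i j * T k l = T k l * T i j := by
  apply Units.ext
  simp only [Units.val_mul, T_val h1, T_val h2, add_mul, mul_add, eu_mul_ne i l h3,
    eu_mul_ne k j h4, one_mul, mul_one]
  abel

theorem T_commutator {i j k : ℚ} (h1 : i < j) (h2 : j < k) : ⁅T i j, T j k⁆ = T i k := by
  have h3 := h1.trans h2
  have : T i j * T j k = T i k * (T j k * T i j) := by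
    apply Units.ext
    simp only [Units.val_mul, T_val h1, T_val h2, T_val h3, add_mul, mul_add, eu_mul_same,
      eu_mul_ne j j h3.ne', eu_mul_ne i k h2.ne', eu_mul_ne i j h3.ne', one_mul, mul_one, mul_zero]
    abel
  rw [commutatorElement_def, this]
  group

/-- Generators. -/
def gens : Set EAˣ := {g | ∃ i j : ℚ, 0 ≤ i ∧ i < j ∧ j ≤ 1 ∧ g = T i j}

/-- McLain's group over the rational unit interval. -/
noncomputable def ML : Subgroup EAˣ := Subgroup.closure gens

/-- Generators as elements of the group. -/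
noncomputable def t (i j : ℚ) (h : 0 ≤ i ∧ i < j ∧ j ≤ 1) : ML :=
  ⟨T i j, Subgroup.subset_closure ⟨i, j, h.1, h.2.1, h.2.2, rfl⟩⟩

/-- The central element. -/
noncomputable def zz : ML := t 0 1 (by norm_num)

theorem zz_central (x : ML) : x * zz = zz * x := by
  have : ML ≤ Subgroup.centralizer {T 0 1} := by
    rw [ML, Subgroup.closure_le]
    rintro _ ⟨i, j, h1, h2, h3, rfl⟩ _ rfl
    exact T_comm (by norm_num) h2 (by linarith [h2.trans_le h3] : i < 1).ne' (h1.trans_lt h2).ne'
  exact Subtype.ext (this x.2 (T 0 1) rfl).symm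

theorem top_coeff (x : EAˣ) (hx : x ∈ ML) (v : ℚ →₀ ℤ) : (x : EA) v 1 = v 1 := by
  induction hx using Subgroup.closure_induction generalizing v with
  | mem x hx =>
    obtain ⟨i, j, h1, h2, h3, rfl⟩ := hx
    have : i ≠ 1 := (h2.trans_le h3).ne
    simp [T_val h2, eu_apply, Finsupp.single_apply, this]
  | one => simp
  | mul x y _ _ hx hy => rw [Units.val_mul, Module.End.mul_apply, hx, hy]
  | inv x _ hx =>
    have := hx ((x⁻¹ : EAˣ).1 v)
    rw [← Module.End.mul_apply, Units.mul_inv] at this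
    exact this.symm

/-- The corner entry. -/
noncomputable def mm (x : ML) : ℤ := (x.1 : EA) (Finsupp.single 1 1) 0

theorem mm_zz (x : ML) : mm (zz * x) = mm x + 1 := by
  have h := top_coeff x.1 x.2 (Finsupp.single 1 1)
  show ((T 0 1 * x.1 : EAˣ) : EA) (Finsupp.single 1 1) 0 = _
  rw [Units.val_mul, Module.End.mul_apply, T_val (by norm_num)]
  simp only [LinearMap.add_apply, Module.End.one_apply, eu_apply, Finsupp.add_apply,
    Finsupp.single_eq_same, h]
  rfl

section Sol

/-- Rank of a rational with respect to a finite set. -/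
noncomputable def rk (F : Finset ℚ) (x : ℚ) : ℕ := (F.filter (· < x)).card

theorem rk_lt {F : Finset ℚ} {i j : ℚ} (hi : i ∈ F) (h : i < j) : rk F i + 1 ≤ rk F j := by
  apply Finset.card_lt_card
  refine ⟨fun x hx => ?_, fun hh => ?_⟩
  · simp only [Finset.mem_filter] at hx ⊢
    exact ⟨hx.1, hx.2.trans h⟩
  · have := hh (Finset.mem_filter.2 ⟨hi, h⟩)
    simp at this

/-- The filtration. -/
noncomputable def NF (F : Finset ℚ) (k : ℕ) : Submodule ℤ EA :=
  Submodule.span ℤ {u | ∃ i j, rk F i + k ≤ rk F j ∧ u = eu i j}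

theorem NF_mono (F : Finset ℚ) {a b : ℕ} (h : a ≤ b) : NF F b ≤ NF F a :=
  Submodule.span_mono (by
    rintro _ ⟨i, j, h1, rfl⟩
    exact ⟨i, j, by omega, rfl⟩)

theorem NF_mul (F : Finset ℚ) {a b : ℕ} {x y : EA} (hx : x ∈ NF F a) (hy : y ∈ NF F b) :
    x * y ∈ NF F (a + b) := by
  have := Submodule.mul_mem_mul hx hy
  rw [NF, NF, Submodule.span_mul_span] at this
  refine Submodule.span_le.2 ?_ this
  rintro _ ⟨_, ⟨i, j, h1, rfl⟩, _, ⟨k, l, h2, rfl⟩, rfl⟩
  by_cases h : j = k
  · subst h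
    show eu i j * eu j l ∈ _
    rw [eu_mul_same]
    exact Submodule.subset_span ⟨i, l, by omega, rfl⟩
  · show eu i j * eu k l ∈ _
    rw [eu_mul_ne i l h]
    exact Submodule.zero_mem _

theorem NF_bot (F : Finset ℚ) : NF F (F.card + 1) = ⊥ := by
  rw [NF, Submodule.span_eq_bot]
  rintro _ ⟨i, j, h, rfl⟩
  have : rk F j ≤ F.card := Finset.card_filter_le _ _
  omega

/-- The congruence subgroups of the filtration. -/
noncomputable def UF (F : Finset ℚ) (k : ℕ) : Subgroup EAˣ where
  carrier := {g | (g : EA) - 1 ∈ NF F k ∧ ((g⁻¹ : EAˣ) : EA) - 1 ∈ NF F k}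
  one_mem' := by simp
  mul_mem' := by
    have key : ∀ x y : EA, x - 1 ∈ NF F k → y - 1 ∈ NF F k → x * y - 1 ∈ NF F k := by
      intro x y hx hy
      have : x * y - 1 = (x - 1) * (y - 1) + (x - 1) + (y - 1) := by noncomm_ring
      rw [this]
      exact add_mem (add_mem (NF_mono F (by omega) (NF_mul F hx hy)) hx) hy
    rintro g h ⟨g1, g2⟩ ⟨h1, h2⟩
    refine ⟨key _ _ g1 h1, ?_⟩
    rw [mul_inv_rev]
    exact key _ _ h2 g2
  inv_mem' := by
    rintro g ⟨g1, g2⟩
    exact ⟨g2, by simpa using g1⟩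

theorem UF_comm (F : Finset ℚ) (k : ℕ) : ⁅UF F (k + 1), UF F (k + 1)⁆ ≤ UF F (k + 2) := by
  have key : ∀ g ∈ UF F (k + 1), ∀ h ∈ UF F (k + 1),
      ((⁅g, h⁆ : EAˣ) : EA) - 1 ∈ NF F (k + 2) := by
    intro g hg h hh
    have h3 := ((UF F (k + 1)).mul_mem ((UF F (k + 1)).inv_mem hg) ((UF F (k + 1)).inv_mem hh)).1
    have h4 : (g : EA) * h - h * g ∈ NF F (k + 2) := by
      have : (g : EA) * h - h * g = (g - 1) * (h - 1) - (h - 1) * (g - 1) := by noncomm_ring
      rw [this]
      exact NF_mono F (by omega) (sub_mem (NF_mul F hg.1 hh.1) (NF_mul F hh.1 hg.1))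
    have e : ((⁅g, h⁆ : EAˣ) : EA) - 1 =
        ((g : EA) * h - h * g) * (((g⁻¹ * h⁻¹ : EAˣ) : EA) - 1) + ((g : EA) * h - h * g) := by
      have e1 : (h : EA) * g * ((g⁻¹ * h⁻¹ : EAˣ) : EA) = 1 := by
        rw [← Units.val_mul, ← Units.val_mul]; simp
      have e2 : ((⁅g, h⁆ : EAˣ) : EA) = (g : EA) * h * ((g⁻¹ * h⁻¹ : EAˣ) : EA) := by
        rw [commutatorElement_def]; simp [mul_assoc]
      rw [e2, mul_sub, sub_mul, e1]
      noncomm_ring
    rw [e]
    exact add_mem (NF_mono F (by omega) (NF_mul F h4 h3)) h4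
  rw [Subgroup.commutator_le]
  intro g hg h hh
  exact ⟨key g hg h hh, by rw [commutatorElement_inv]; exact key h hh g hg⟩

theorem UF_solvable (F : Finset ℚ) : IsSolvable (UF F 1) := by
  have : ∀ n, iter (UF F 1) n ≤ UF F (n + 1) := by
    intro n
    induction n with
    | zero => exact le_rfl
    | succ n ih => exact (Subgroup.commutator_mono ih ih).trans (UF_comm F n)
  refine (solvable_iff _).2 ⟨F.card, eq_bot_iff.2 ((this _).trans ?_)⟩
  intro g hg
  have := hg.1
  rw [NF_bot, Submodule.mem_bot, sub_eq_zero] at this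
  exact Subgroup.mem_bot.2 (Units.ext this)

theorem exists_F (x : EAˣ) (hx : x ∈ ML) : ∃ F : Finset ℚ, ∀ F', F ⊆ F' → x ∈ UF F' 1 := by
  classical
  induction hx using Subgroup.closure_induction with
  | mem x hx =>
    obtain ⟨i, j, h1, h2, h3, rfl⟩ := hx
    refine ⟨{i}, fun F' hF => ?_⟩
    have : eu i j ∈ NF F' 1 :=
      Submodule.subset_span ⟨i, j, rk_lt (hF (Finset.mem_singleton_self i)) h2, rfl⟩
    refine ⟨by simpa [T_val h2] using this, ?_⟩
    rw [T_inv h2]
    simpa using this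
  | one => exact ⟨∅, fun F' _ => Subgroup.one_mem _⟩
  | mul x y _ _ hx hy =>
    obtain ⟨F, hF⟩ := hx
    obtain ⟨E, hE⟩ := hy
    exact ⟨F ∪ E, fun F' h => Subgroup.mul_mem _ (hF F' (Finset.union_subset_left h))
      (hE F' (Finset.union_subset_right h))⟩
  | inv x _ hx =>
    obtain ⟨F, hF⟩ := hx
    exact ⟨F, fun F' h => Subgroup.inv_mem _ (hF F' h)⟩

theorem ML_locSol (S : Finset ML) : IsSolvable (Subgroup.closure (S : Set ML)) := by
  classical
  choose F hF using fun x : ML => exists_F x.1 x.2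
  have hle : Subgroup.closure (S : Set ML) ≤ (UF (S.biUnion F) 1).comap ML.subtype := by
    rw [Subgroup.closure_le]
    intro x hx
    exact hF x _ (Finset.subset_biUnion_of_mem F hx)
  let f := (ML.subtype.comp (Subgroup.closure (S : Set ML)).subtype).codRestrict
    (UF (S.biUnion F) 1) (fun g => hle g.2)
  have : Group.IsSolvable (UF (S.biUnion F) 1) := UF_solvable _
  refine solvable_of_solvable_injective (f := f) fun x y h => ?_
  have h' : (f x).1 = (f y).1 := congrArg Subtype.val h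
  exact Subtype.ext (Subtype.ext h')

end Sol

theorem exists_comm {F E : Type} [Field F] [Ring E] [Algebra F E] [IsArtinian F E]
    (X Y : ℕ → E) (h : ∀ s r, r < s → X r * Y s = Y s * X r) : ∃ s, X s * Y s = Y s * X s := by
  let C : ℕ → Submodule F E := fun s =>
    { carrier := {u | ∀ r, r < s → X r * u = u * X r}
      zero_mem' := fun r _ => by simp
      add_mem' := by
        intro a b ha hb r hr
        rw [mul_add, add_mul, ha r hr, hb r hr]
      smul_mem' := by
        intro c a ha r hr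
        rw [mul_smul_comm, smul_mul_assoc, ha r hr] }
  obtain ⟨n, hn⟩ := IsArtinian.monotone_stabilizes (R := F) (M := E)
    ⟨fun s => OrderDual.toDual (C s), fun a b hab u hu r hr => hu r (lt_of_lt_of_le hr hab)⟩
  have e : C n = C (n + 1) := hn (n + 1) (Nat.le_succ n)
  have : Y n ∈ C n := fun r hr => h n r hr
  rw [e] at this
  exact ⟨n, this n (Nat.lt_succ_self n)⟩

theorem ML_rep {F V : Type} [Field F] [AddCommGroup V] [Module F V] [FiniteDimensional F V]
    (ρ : ML →* Module.End F V) (x : ML) : ρ x = 1 := by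
  have hN : ρ.ker.Normal := MonoidHom.normal_ker ρ
  have gen : ∀ (i j : ℚ) (h : 0 ≤ i ∧ i < j ∧ j ≤ 1), t i j h ∈ ρ.ker := by
    intro i j h
    let p : ℕ → ℚ := fun k => j - (j - i) / (k + 2)
    have hd : 0 < j - i := sub_pos.2 h.2.1
    have hp : StrictMono p := by
      intro a b hab
      have : (a : ℚ) < b := by exact_mod_cast hab
      have : (j - i) / (b + 2) < (j - i) / (a + 2) :=
        div_lt_div_of_pos_left hd (by positivity) (by linarith)
      show j - _ < j - _
      linarith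
    have h1 : ∀ k, i < p k := by
      intro k
      have : (j - i) / (k + 2) < j - i := div_lt_self hd (by
        have : (0 : ℚ) ≤ k := Nat.cast_nonneg k
        linarith)
      show i < j - _
      linarith
    have h2 : ∀ k, p k < j := by
      intro k
      have : 0 < (j - i) / (k + 2) := by positivity
      show j - _ < j
      linarith
    have ok : ∀ a b, a < b → 0 ≤ p a ∧ p a < p b ∧ p b ≤ 1 := fun a b hab =>
      ⟨h.1.trans (h1 a).le, hp hab, (h2 b).le.trans h.2.2⟩
    obtain ⟨s, hs⟩ := exists_comm (F := F)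
      (fun s => ρ (t (p (3 * s)) (p (3 * s + 1)) (ok _ _ (by omega))))
      (fun s => ρ (t (p (3 * s + 1)) (p (3 * s + 2)) (ok _ _ (by omega)))) (by
        intro s r hr
        rw [← map_mul, ← map_mul]
        congr 1
        exact Subtype.ext (T_comm (hp (by omega)) (hp (by omega)) (hp (by omega)).ne
          (hp (by omega)).ne'))
    have hk : t (p (3 * s)) (p (3 * s + 2)) (ok _ _ (by omega)) ∈ ρ.ker := by
      have e : t (p (3 * s)) (p (3 * s + 2)) (ok _ _ (by omega)) =
          ⁅t (p (3 * s)) (p (3 * s + 1)) (ok _ _ (by omega)),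
            t (p (3 * s + 1)) (p (3 * s + 2)) (ok _ _ (by omega))⁆ :=
        Subtype.ext (T_commutator (hp (by omega)) (hp (by omega))).symm
      rw [e, MonoidHom.mem_ker, commutatorElement_def, map_mul, map_mul, map_mul]
      rw [hs, mul_assoc (ρ _) (ρ _) (ρ _), ← map_mul, mul_inv_cancel, map_one, mul_one,
        ← map_mul, mul_inv_cancel, map_one]
    have ok1 : 0 ≤ i ∧ i < p (3 * s) ∧ p (3 * s) ≤ 1 := ⟨h.1, h1 _, (h2 _).le.trans h.2.2⟩
    have ok2 : 0 ≤ p (3 * s + 2) ∧ p (3 * s + 2) < j ∧ j ≤ 1 :=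
      ⟨h.1.trans (h1 _).le, h2 _, h.2.2⟩
    have ok3 : 0 ≤ p (3 * s) ∧ p (3 * s) < j ∧ j ≤ 1 := ⟨h.1.trans (h1 _).le, h2 _, h.2.2⟩
    have e1 : t (p (3 * s)) j ok3 = ⁅t (p (3 * s)) (p (3 * s + 2)) (ok _ _ (by omega)),
        t (p (3 * s + 2)) j ok2⁆ := Subtype.ext (T_commutator (hp (by omega)) (h2 _)).symm
    have e2 : t i j h = ⁅t i (p (3 * s)) ok1, t (p (3 * s)) j ok3⁆ :=
      Subtype.ext (T_commutator (h1 _) (h2 _)).symm
    have k1 : t (p (3 * s)) j ok3 ∈ ρ.ker := by
      rw [e1, commutatorElement_def, mul_assoc, mul_assoc, ← mul_assoc (t _ j ok2)]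
      exact mul_mem hk (hN.conj_mem _ (inv_mem hk) _)
    rw [e2, commutatorElement_def]
    exact mul_mem (hN.conj_mem _ k1 _) (inv_mem k1)
  obtain ⟨x, hx⟩ := x
  have : ∀ (x : EAˣ) (hx : x ∈ Subgroup.closure gens), (⟨x, hx⟩ : ML) ∈ ρ.ker := by
    intro x hx
    induction hx using Subgroup.closure_induction with
    | mem x hx =>
      obtain ⟨i, j, h1, h2, h3, rfl⟩ := hx
      exact gen i j ⟨h1, h2, h3⟩
    | one => exact one_mem _
    | mul x y _ _ hx hy => exact mul_mem hx hy
    | inv x _ hx => exact inv_mem hx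
  exact this x hx

end Pool.Agent.TwoTrans
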