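import Mathlib

set_option autoImplicit false

namespace Pool.Agent.ZeroDiv
open Polynomial

section Abs
variable {k : Type} [Field k] {R : Type} [Ring R] [Algebra k R] (u : Rˣ) (t a : R)

def aa (e : ℤ) : R := (u ^ e : Rˣ) * a * (u ^ (-e) : Rˣ)

theorem aa_mul (e : ℤ) : aa u a e * (u ^ e : Rˣ) = (u ^ e : Rˣ) * a := by
  rw [aa, mul_assoc, ← Units.val_mul, ← zpow_add, neg_add_cancel, zpow_zero, Units.val_one, mul_one]

variable {u t a}

theorem zt (h1 : (u : R) * t = (t + 1) * u) (e : ℤ) :
    ((u ^ e : Rˣ) : R) * t = (t + e) * (u ^ e : Rˣ) := by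
  have h2 : ((u⁻¹ : Rˣ) : R) * t = (t - 1) * (u⁻¹ : Rˣ) := by
    rw [Units.inv_mul_eq_iff_eq_mul, ← mul_assoc, mul_sub, h1, mul_one, add_mul, one_mul,
      add_sub_cancel_right, Units.mul_inv_cancel_right]
  induction e using Int.induction_on with
  | zero => simp
  | succ n ih =>
    rw [zpow_add_one, Units.val_mul, mul_assoc, h1, ← mul_assoc, mul_add, ih]
    push_cast; noncomm_ring
  | pred n ih =>
    rw [zpow_sub_one, Units.val_mul, mul_assoc, h2, ← mul_assoc, mul_sub, ih]
    push_cast; noncomm_ring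

theorem tg (h1 : (u : R) * t = (t + 1) * u) (h3 : Commute (u : R) (t * a)) (e : ℤ) :
    (t + e) * aa u a e = t * a := by
  rw [← Units.mul_left_inj (u ^ e), mul_assoc, aa_mul, ← mul_assoc, ← zt h1, mul_assoc]
  exact (h3.units_zpow_left e).eq

theorem tc (h1 : (u : R) * t = (t + 1) * u) (h2 : Commute t a) (e : ℤ) :
    Commute t (aa u a e) := by
  have h4 : aa u a e * (t + e) = (t + e) * aa u a e := by
    rw [← Units.mul_left_inj (u ^ e), mul_assoc, ← zt h1, ← mul_assoc, aa_mul, mul_assoc,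
      ← h2.eq, ← mul_assoc, zt h1, mul_assoc, mul_assoc, aa_mul]
  rw [mul_add, add_mul, ← (Int.cast_commute e _).eq, add_left_inj] at h4
  exact h4.symm

theorem cm_aeval {d : R} (h : Commute t d) (P : k[X]) : Commute (aeval t P) d := by
  induction P using Polynomial.induction_on' with
  | add p q hp hq => rw [map_add]; exact hp.add_left hq
  | monomial n c => rw [aeval_monomial]; exact Commute.mul_left (Algebra.commutes c d) (h.pow_left n)

noncomputable def QQ (k : Type) [Field k] (S : Finset ℤ) : k[X] := ∏ e ∈ S, (X - C (-(e : k)))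

theorem exd (h1 : (u : R) * t = (t + 1) * u) (h2 : Commute t a) (h3 : Commute (u : R) (t * a))
    (S : Finset ℤ) (hS : Set.InjOn (Int.cast : ℤ → k) S) :
    ∃ d, Commute t d ∧ aeval t (QQ k S) * d = t * a ∧
      ∀ e ∈ S, ∃ P : k[X], aa u a e = aeval t P * d := by
  induction S using Finset.induction_on with
  | empty => exact ⟨t * a, (Commute.refl t).mul_right h2, by simp [QQ], by simp⟩
  | insert c S hc ih =>
    obtain ⟨d, hd, hQ, hP⟩ := ih (hS.mono (by simp))
    have hcop : IsCoprime (QQ k S) (X - C (-(c : k))) := by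
      refine IsCoprime.prod_left fun e he => isCoprime_X_sub_C_of_isUnit_sub (Ne.isUnit ?_)
      intro h
      have := hS (Finset.mem_coe.mpr (Finset.mem_insert_self c S))
        (Finset.mem_coe.mpr (Finset.mem_insert_of_mem he)) (by linear_combination h)
      exact hc (this ▸ he)
    obtain ⟨w, v, hwv⟩ := hcop
    have hL : aeval t (X - C (-(c : k))) * aa u a c = aeval t (QQ k S) * d := by
      rw [hQ, ← tg h1 h3 c]; simp
    have e1 : aeval t (X - C (-(c : k))) * (aeval t v * d + aeval t w * aa u a c) = d := by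
      rw [mul_add, ← mul_assoc, ← mul_assoc, ← map_mul, ← map_mul, mul_comm _ w, map_mul _ w,
        mul_assoc, hL, ← mul_assoc, ← map_mul, ← add_mul, ← map_add, add_comm, mul_comm _ v, hwv,
        map_one, one_mul]
    have e2 : aeval t (QQ k S) * (aeval t v * d + aeval t w * aa u a c) = aa u a c := by
      rw [mul_add, ← mul_assoc, ← mul_assoc, ← map_mul, ← map_mul, mul_comm _ v, map_mul _ v,
        mul_assoc, ← hL, ← mul_assoc, ← map_mul, ← add_mul, ← map_add, add_comm, mul_comm _ w, hwv,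
        map_one, one_mul]
    have hcp : ∀ P : k[X], Commute t (aeval t P) := fun P => (cm_aeval (Commute.refl t) P).symm
    refine ⟨aeval t v * d + aeval t w * aa u a c,
      ((hcp v).mul_right hd).add_right ((hcp w).mul_right (tc h1 h2 c)), ?_, fun e he => ?_⟩
    · rw [QQ, Finset.prod_insert hc, mul_comm, map_mul, mul_assoc, e1]; exact hQ
    · rcases Finset.mem_insert.mp he with rfl | he
      · exact ⟨_, e2.symm⟩
      · obtain ⟨P, hP⟩ := hP e he
        exact ⟨P * (X - C (-(c : k))), by rw [map_mul, mul_assoc, e1, hP]⟩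

noncomputable def ev {d : R} (hd : Commute t d) : k[X][X] →ₐ[k] R :=
  eval₂AlgHom (aeval t) d (cm_aeval hd)

theorem evC {d : R} (hd : Commute t d) (P : k[X]) : ev hd (C P) = aeval t P := eval₂_C _ _
theorem evX {d : R} (hd : Commute t d) : ev (k := k) hd X = d := eval₂_X _ _

noncomputable def Ph (u : Rˣ) {d : R} (hd : Commute t d) : (ℤ →₀ k[X][X]) →ₗ[k] R :=
  Finsupp.lsum k fun e => (LinearMap.mulRight k ((u ^ e : Rˣ) : R)).comp (ev hd).toLinearMap

def WW (k : Type) [Field k] [Algebra k R] (u : Rˣ) {d : R} (hd : Commute t d) (n : ℕ) :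
    Submodule k R :=
  Submodule.span k {s | ∃ (F : k[X][X]) (e : ℤ), |e| ≤ n ∧ s = ev hd F * (u ^ e : Rˣ)}

theorem WW_le {d : R} (hd : Commute t d) (n : ℕ) : WW k u hd n ≤ LinearMap.range (Ph u hd) := by
  refine Submodule.span_le.mpr ?_
  rintro _ ⟨F, e, -, rfl⟩
  exact ⟨Finsupp.single e F, by simp [Ph]⟩

theorem word (h1 : (u : R) * t = (t + 1) * u) {d : R} (hd : Commute t d) (N : ℕ)
    (hP : ∀ e : ℤ, |e| ≤ N → ∃ P : k[X], aa u a e = aeval t P * d) (gen : Fin 4 → R)
    (hg : ∀ z, gen z = u ∨ gen z = (u⁻¹ : Rˣ) ∨ gen z = t ∨ gen z = a) (w : List (Fin 4))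
    (hw : w.length ≤ N) : (w.map gen).prod ∈ WW k u hd w.length := by
  induction w using List.reverseRecOn with
  | nil => exact Submodule.subset_span ⟨1, 0, by simp, by simp⟩
  | append_singleton w z ih =>
    rw [List.length_append, List.length_singleton] at hw ⊢
    rw [List.map_append, List.prod_append, List.map_singleton, List.prod_singleton]
    have h5 : WW k u hd w.length ≤ (WW k u hd (w.length + 1)).comap
        (LinearMap.mulRight k (gen z)) := by
      refine Submodule.span_le.mpr ?_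
      rintro _ ⟨F, e, he, rfl⟩
      refine Submodule.subset_span ?_
      have he' := abs_le.mp he
      rw [LinearMap.mulRight_apply]
      rcases hg z with h | h | h | h <;> rw [h]
      · exact ⟨F, e + 1, abs_le.mpr (by push_cast; omega), by rw [zpow_add_one, Units.val_mul, mul_assoc]⟩
      · exact ⟨F, e - 1, abs_le.mpr (by push_cast; omega), by rw [zpow_sub_one, Units.val_mul, mul_assoc]⟩
      · refine ⟨F * C (X + (e : k[X])), e, abs_le.mpr (by push_cast; omega), ?_⟩
        rw [mul_assoc, zt h1, map_mul, evC, mul_assoc]; simp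
      · obtain ⟨P, hP⟩ := hP e (abs_le.mpr (by omega))
        refine ⟨F * (C P * X), e, abs_le.mpr (by push_cast; omega), ?_⟩
        rw [mul_assoc, ← aa_mul, hP, map_mul, map_mul, evC, evX, mul_assoc (ev hd F)]
    exact h5 (ih (by omega))

end Abs

section Mod
variable (k : Type) [Field k] (E : Type) [CommRing E] [Algebra k E]

def sh (c : ℤ) : Module.End k (ℤ → E) := LinearMap.funLeft k E fun i => i - c

theorem sh_apply (c : ℤ) (f : ℤ → E) (i : ℤ) : sh k E c f i = f (i - c) := rfl

abbrev lm : (ℤ → E) →ₐ[k] Module.End k (ℤ → E) := Algebra.lmul k (ℤ → E)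

theorem lm_apply (β f : ℤ → E) (i : ℤ) : lm k E β f i = β i * f i := rfl

end Mod

section Dom
variable {k : Type} [Field k] {R : Type} [Ring R] [Algebra k R] {u : Rˣ} {t a : R}

noncomputable def tau (k : Type) [Field k] (i : ℤ) : RatFunc k := RatFunc.X - (i : RatFunc k)

theorem ae_ne (i : ℤ) {P : k[X]} (hP : P ≠ 0) : aeval (tau k i) P ≠ 0 := by
  have h1 : aeval (tau k i) P = algebraMap k[X] (RatFunc k) (taylor (-(i : k)) P) := by
    rw [taylor_apply, comp_eq_aeval, ← aeval_algebraMap_apply]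
    congr 2
    simp [tau, sub_eq_add_neg]
  rw [h1, Ne, FaithfulSMul.algebraMap_eq_zero_iff, taylor_eq_zero]
  exact hP

noncomputable def evi (δ : ℤ → RatFunc k) (i : ℤ) : k[X][X] →ₐ[k] (RatFunc k)[X] :=
  eval₂AlgHom (CAlgHom.comp (aeval (tau k i))) (C (δ i) * X) fun _ => Commute.all _ _

theorem evi_ne (δ : ℤ → RatFunc k) (i : ℤ) (hδ : δ i ≠ 0) {F : k[X][X]} (hF : F ≠ 0) :
    evi δ i F ≠ 0 := by
  have h1 : evi δ i F = (F.map (aeval (tau k i) : k[X] →ₐ[k] RatFunc k)).comp (C (δ i) * X) := by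
    rw [comp, eval₂_map]; rfl
  intro h
  have h2 := congrArg (fun p => coeff p F.natDegree) (h1.symm.trans h)
  simp only [comp_C_mul_X_coeff, coeff_map, coeff_zero] at h2
  exact mul_ne_zero (ae_ne i (leadingCoeff_ne_zero.mpr hF)) (pow_ne_zero _ hδ) h2

theorem dom (φ : R →ₐ[k] Module.End k (ℤ → (RatFunc k)[X])) (hu : φ u = sh k _ 1)
    (hu' : φ (u⁻¹ : Rˣ) = sh k _ (-1)) (ht : φ t = lm k _ fun i => C (tau k i))
    (hg : φ (t * a) = lm k _ fun _ => X) {d : R} (hd : Commute t d) {Q : k[X]} (hQ0 : Q ≠ 0)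
    (hQ : aeval t Q * d = t * a) (F G : ℤ →₀ k[X][X]) (h : Ph u hd F * Ph u hd G = 0) :
    F = 0 ∨ G = 0 := by
  have h1 : ∀ (e : ℤ) (f : ℤ → (RatFunc k)[X]) (i : ℤ), φ (u ^ e : Rˣ) f i = f (i - e) := by
    intro e
    induction e using Int.induction_on with
    | zero => simp
    | succ n ih =>
      intro f i
      rw [zpow_add_one, Units.val_mul, map_mul, Module.End.mul_apply, ih, hu, sh_apply]
      congr 1; ring
    | pred n ih =>
      intro f i
      rw [zpow_sub_one, Units.val_mul, map_mul, Module.End.mul_apply, ih, hu', sh_apply]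
      congr 1; ring
  have h2 : ∀ P : k[X], φ (aeval t P) = lm k _ fun i => C (aeval (tau k i) P) := by
    intro P
    rw [← aeval_algHom_apply, ht, aeval_algHom_apply]
    congr 1
    funext i
    exact (aeval_algHom_apply (Pi.evalAlgHom k (fun _ : ℤ => (RatFunc k)[X]) i) _ P).symm.trans
      (aeval_algHom_apply (CAlgHom (R := k)) (tau k i) P)
  let δ : ℤ → RatFunc k := fun i => (aeval (tau k i) Q)⁻¹
  have hδ : ∀ i, δ i ≠ 0 := fun i => inv_ne_zero (ae_ne i hQ0)
  have h3 : φ d = lm k _ fun i => C (δ i) * X := by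
    ext1 f; funext i
    have h4 := congrFun (LinearMap.congr_fun (congrArg φ hQ) f) i
    rw [map_mul, Module.End.mul_apply, h2, lm_apply, hg, lm_apply] at h4
    rw [lm_apply, mul_assoc, ← h4, ← mul_assoc, ← C_mul, inv_mul_cancel₀ (ae_ne i hQ0), C_1, one_mul]
  have h4 : φ.comp (ev hd) = (lm k _).comp (AlgHom.pi (evi δ)) := by
    refine algHom_ext' (algHom_ext ?_) ?_
    · refine (congrArg φ (evC hd X)).trans ((h2 X).trans (congrArg (lm k _) (funext fun i => ?_)))
      exact (eval₂_C (CAlgHom.comp (aeval (tau k i)) : k[X] →ₐ[k] (RatFunc k)[X]).toRingHom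
        (C (δ i) * X)).symm
    · refine (congrArg φ (evX hd)).trans (h3.trans (congrArg (lm k _) (funext fun i => ?_)))
      exact (eval₂_X (CAlgHom.comp (aeval (tau k i)) : k[X] →ₐ[k] (RatFunc k)[X]).toRingHom
        (C (δ i) * X)).symm
  have h5 : ∀ (H : ℤ →₀ k[X][X]) (f : ℤ → (RatFunc k)[X]) (i : ℤ),
      φ (Ph u hd H) f i = ∑ e ∈ H.support, evi δ i (H e) * f (i - e) := by
    intro H f i
    rw [Ph, Finsupp.lsum_apply, Finsupp.sum, map_sum, LinearMap.sum_apply, Finset.sum_apply]
    refine Finset.sum_congr rfl fun e _ => ?_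
    rw [← h1 e f i]
    exact (congrFun (LinearMap.congr_fun (map_mul φ _ _) f) i).trans
      (congrFun (LinearMap.congr_fun (AlgHom.congr_fun h4 (H e)) _) i)
  by_contra hc
  push Not at hc
  have hF := Finsupp.support_nonempty_iff.mpr hc.1
  have hG := Finsupp.support_nonempty_iff.mpr hc.2
  have h6 : ∀ j, φ (Ph u hd G) (Pi.single 0 1) j = evi δ j (G j) := by
    intro j
    rw [h5, Finset.sum_eq_single j]
    · simp
    · intro e _ he; rw [Pi.single_eq_of_ne (sub_ne_zero.mpr he.symm), mul_zero]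
    · intro hj; rw [Finsupp.notMem_support_iff.mp hj, map_zero, zero_mul]
  have h7 := congrFun (LinearMap.congr_fun (congrArg φ h) (Pi.single 0 1))
    (F.support.max' hF + G.support.max' hG)
  rw [map_mul, Module.End.mul_apply, h5, Finset.sum_eq_single (F.support.max' hF), h6,
    add_sub_cancel_left, map_zero] at h7
  · exact mul_ne_zero (evi_ne δ _ (hδ _) (Finsupp.mem_support_iff.mp (F.support.max'_mem hF)))
      (evi_ne δ _ (hδ _) (Finsupp.mem_support_iff.mp (G.support.max'_mem hG))) h7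
  · intro e he hne
    have h8 := F.support.le_max' e he
    have h9 : F.support.max' hF + G.support.max' hG - e ∉ G.support := fun h9 => by
      have := G.support.le_max' _ h9
      omega
    rw [h6, Finsupp.notMem_support_iff.mp h9, map_zero, mul_zero]
  · intro h8; exact absurd (F.support.max'_mem hF) h8

end Dom

end Pool.Agent.ZeroDiv
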